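import Pool.Agent.Lib.AP.B_ADM2

/-! Admissibility in the thin range. -/

open Finset Classical Real

noncomputable section

namespace Pool.Agent.Lib.AP

open ADM in
theorem st_ADM1 : St_ADM1 := by
  intro Λ Y h a a' m r e f κ hH ha ha' e0 f0 hs hab h1 h2 h3 h4
  have Y0 := (one_lt h).trans' one_pos
  obtain ⟨l0, l1⟩ := lam h
  obtain ⟨n0, x0, x1⟩ := memX h h4
  have M0 : m * e ≠ 0 := left_ne_zero_of_mul n0
  have m0 : m ≠ 0 := left_ne_zero_of_mul M0
  have s0 : r * f ≠ 0 := left_ne_zero_of_mul (right_ne_zero_of_mul n0)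
  have r0 : r ≠ 0 := left_ne_zero_of_mul s0
  have k0 : κ ≠ 0 := right_ne_zero_of_mul (right_ne_zero_of_mul n0)
  have q0 : pmax f ≠ 0 := fun c => by rw [c] at h2; omega
  obtain ⟨qp, qd⟩ := pmax_mem q0
  have a1 := leD0 h M0 h1
  have a2 := ltD0 h h2
  have a3 := leD1 h (mul_ne_zero m0 (mul_ne_zero e0 f0)) h3
  have a5 := sm_le h hs qp qd
  have a6 := lg_mul r0 f0
  rw [lg_mul m0 e0] at a1
  rw [lg_mul M0 q0, lg_mul m0 e0] at a2
  rw [lg_mul m0 (mul_ne_zero e0 f0), lg_mul e0 f0] at a3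
  rw [lg_mul M0 (mul_ne_zero s0 k0), lg_mul m0 e0, lg_mul s0 k0] at x0 x1
  have s1 : (0 : ℝ) < ((r * f : ℕ) : ℝ) := by positivity
  have k1 : (0 : ℝ) < κ := by positivity
  have m1 : (0 : ℝ) < m := by positivity
  have key : 2 * log r + 5 * log (pmax f : ℕ) ≤ 90 * (Λ * log Y) - 8005 * log Y := by
    rcases hH with ⟨-, hr⟩ | ⟨μ, ρ, b1, b2, b3, b4⟩
    · rw [hr r ha', Nat.cast_one, log_one]
      linarith
    · obtain ⟨c1, c2⟩ := b3 m ha
      have d1 := log_le_log m1 c1
      have d2 := log_le_log (by positivity) c2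
      have d3 := log_le_log (by positivity) (b4 r ha')
      rw [log_pow] at d1 d3
      rw [log_mul m1.ne' (by positivity), log_pow, log_pow] at d2
      have d4 : (μ : ℝ) * log Y ≤ 170 * Λ * log Y :=
        mul_le_mul_of_nonneg_right (by exact_mod_cast b1) l0.le
      have d5 : (2 * ρ + 450 * Λ + 1100 : ℝ) * log Y ≤ 3 * μ * log Y :=
        mul_le_mul_of_nonneg_right (by exact_mod_cast b2) l0.le
      have e1 : e ≠ 1 := fun c => by
        rw [c, Nat.cast_one, log_one] at a2
        linarith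
      have q1 : (0 : ℝ) < (pmax f : ℕ) := by positivity
      have g1 : log (pmax f : ℕ) ≤ log f :=
        log_le_log q1 (by exact_mod_cast Nat.le_of_dvd (Nat.pos_of_ne_zero f0) qd)
      have g2 : log (pmax f : ℕ) ≤ log e := log_le_log q1 (by
        have := hab _ (Nat.mem_primeFactors.2 ⟨Nat.minFac_prime e1, Nat.minFac_dvd e, e0⟩)
        exact_mod_cast this.le.trans (Nat.minFac_le (Nat.pos_of_ne_zero e0)))
      push_cast at d2
      linarith
  refine ⟨of_log (by positivity) (by positivity) ?_, of_log (by positivity) (by positivity) ?_⟩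
  · rw [log_mul s1.ne' k1.ne', log_pow]
    push_cast at x0 ⊢
    linarith
  · rw [log_mul (by positivity) (by positivity), log_mul (by positivity) (by positivity), log_pow,
      log_pow, log_pow, log_pow, log_mul s1.ne' k1.ne']
    push_cast at x1 a6 ⊢
    linarith

end Pool.Agent.Lib.AP
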