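import Pool.Agent.Lib.AP.Blue2

/-! Admissibility beyond the thin range, and logarithms of the cut-off values. -/

open Finset Classical Real

noncomputable section

namespace Pool.Agent.Lib.AP

namespace ADM

variable {Λ : ℕ} {Y : ℝ}

theorem one_lt (h : Big Λ Y) : 1 < Y :=
  lt_of_lt_of_le (one_lt_pow₀ one_lt_two (by have := h.lam; omega)) h.two

theorem lam (h : Big Λ Y) : 0 < log Y ∧ 100000 * log Y ≤ Λ * log Y := by
  have h1 := log_pos (one_lt h)
  exact ⟨h1, mul_le_mul_of_nonneg_right (by exact_mod_cast h.lam) h1.le⟩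

theorem lg_le {x : ℝ} (hx : 0 < x) {n : ℕ} (hn : n ≠ 0) (h : n ≤ ⌊x⌋₊) : log n ≤ log x :=
  log_le_log (by positivity) ((Nat.le_floor_iff hx.le).1 h)

theorem lg_lt {x : ℝ} (hx : 0 < x) {n : ℕ} (h : ⌊x⌋₊ < n) : log x < log n :=
  log_lt_log hx ((Nat.floor_lt hx.le).1 h)

theorem lg_mul {a b : ℕ} (ha : a ≠ 0) (hb : b ≠ 0) : log ((a * b : ℕ) : ℝ) = log a + log b := by
  rw [Nat.cast_mul, log_mul (by exact_mod_cast ha) (by exact_mod_cast hb)]

theorem leD0 (h : Big Λ Y) {n : ℕ} (hn : n ≠ 0) (e : n ≤ D0 Λ Y) :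
    log n ≤ 180 * (Λ * log Y) - 1000 * log Y := by
  have y := (one_lt h).trans' one_pos
  have := lg_le (by positivity) hn e
  rw [log_div (by positivity) (by positivity), log_pow, log_pow] at this
  push_cast at this
  linarith

theorem ltD0 (h : Big Λ Y) {n : ℕ} (e : D0 Λ Y < n) :
    180 * (Λ * log Y) - 1000 * log Y < log n := by
  have y := (one_lt h).trans' one_pos
  have := lg_lt (by positivity) e
  rw [log_div (by positivity) (by positivity), log_pow, log_pow] at this
  push_cast at this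
  linarith

theorem leD1 (h : Big Λ Y) {n : ℕ} (hn : n ≠ 0) (e : n ≤ D1 Λ Y) :
    log n ≤ 180 * (Λ * log Y) + 1001 * log Y := by
  have y := (one_lt h).trans' one_pos
  have := lg_le (by positivity) hn e
  rw [log_pow] at this
  push_cast at this
  linarith

theorem ltD1 (h : Big Λ Y) {n : ℕ} (e : D1 Λ Y < n) :
    180 * (Λ * log Y) + 1001 * log Y < log n := by
  have y := (one_lt h).trans' one_pos
  have := lg_lt (by positivity) e
  rw [log_pow] at this
  push_cast at this
  linarith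

theorem memX (h : Big Λ Y) {n : ℕ} (e : n ∈ Ioc (X0 Λ Y) (X1 Λ Y)) :
    n ≠ 0 ∧ 270 * (Λ * log Y) < log n ∧ log n ≤ 270 * (Λ * log Y) + log Y := by
  have y := (one_lt h).trans' one_pos
  obtain ⟨e0, e1⟩ := mem_Ioc.1 e
  have hn : n ≠ 0 := by omega
  have a := lg_lt (by positivity) e0
  have b := lg_le (by positivity) hn e1
  rw [log_pow] at a b
  push_cast at a b
  exact ⟨hn, by linarith, by linarith⟩

theorem sm_le (h : Big Λ Y) {n p : ℕ} (hs : smooth Λ Y n) (hp : p.Prime) (hd : p ∣ n) :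
    log p ≤ 10 * (Λ * log Y) - 1200 * log Y := by
  have y := (one_lt h).trans' one_pos
  have p0 : (0 : ℝ) < p := by exact_mod_cast hp.pos
  have := log_le_log (by positivity) (hs p hp hd)
  rw [log_mul p0.ne' (by positivity), log_pow, log_pow] at this
  push_cast at this
  linarith

theorem pmax_mem {f : ℕ} (h : pmax f ≠ 0) : (pmax f).Prime ∧ pmax f ∣ f := by
  have hne : f.primeFactors.Nonempty := by
    by_contra c
    exact h (by rw [pmax, not_nonempty_iff_eq_empty.1 c, sup_empty]; rfl)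
  obtain ⟨p, hp, e⟩ := exists_mem_eq_sup _ hne id
  rw [pmax, e]
  exact ⟨Nat.prime_of_mem_primeFactors hp, Nat.dvd_of_mem_primeFactors hp⟩

theorem of_log {a b : ℝ} (ha : 0 < a) (hb : 0 < b) (h : log a ≤ log b) : a ≤ b :=
  (log_le_log_iff ha hb).1 h

end ADM

open ADM in
theorem st_ADM2 : St_ADM2 := by
  intro Λ Y h M v y hs hv h1 h2 h3 h4 h5
  have Y0 := (one_lt h).trans' one_pos
  obtain ⟨l0, l1⟩ := lam h
  obtain ⟨n0, x0, x1⟩ := memX h h5
  have M0 : M ≠ 0 := left_ne_zero_of_mul n0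
  have v0 : v ≠ 0 := by omega
  have y0 : y ≠ 0 := right_ne_zero_of_mul (right_ne_zero_of_mul n0)
  have q0 : pmax v ≠ 0 := fun c => by rw [c] at h2; omega
  obtain ⟨qp, qd⟩ := pmax_mem q0
  have pp := Nat.minFac_prime (n := v) (by omega)
  have ev : v / v.minFac * v.minFac = v := Nat.div_mul_cancel (Nat.minFac_dvd v)
  have w0 : v / v.minFac ≠ 0 := fun c => by rw [c] at ev; omega
  have a1 := leD0 h M0 h1
  have a2 := ltD0 h h2
  have a3 := ltD1 h h3
  have a4 := leD1 h (mul_ne_zero M0 w0) h4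
  have a5 := sm_le h hs qp qd
  have a6 := sm_le h hs pp (Nat.minFac_dvd v)
  have a7 := lg_mul w0 pp.ne_zero
  rw [ev] at a7
  rw [lg_mul M0 q0] at a2
  rw [lg_mul M0 v0] at a3
  rw [lg_mul M0 w0] at a4
  rw [lg_mul M0 (mul_ne_zero v0 y0), lg_mul v0 y0] at x0 x1
  have v1 : (0 : ℝ) < v := by positivity
  have y1 : (0 : ℝ) < y := by positivity
  refine ⟨of_log (by positivity) (by positivity) ?_, of_log (by positivity) (by positivity) ?_,
    of_log (by positivity) (by positivity) ?_⟩
  · rw [log_mul v1.ne' y1.ne', log_pow]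
    push_cast
    linarith
  · rw [log_mul y1.ne' (by positivity), log_pow, log_pow]
    push_cast
    linarith
  · rw [log_mul (by positivity) (by positivity), log_mul (by positivity) v1.ne', log_pow, log_pow,
      log_pow, log_mul v1.ne' y1.ne']
    push_cast
    linarith

end Pool.Agent.Lib.AP
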