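import Pool.Agent.Lib.AP.Blue

/-! The estimate for Kloosterman fractions with a free variable. -/

open Finset Classical

noncomputable section

namespace Pool.Agent.Lib.AP

namespace B2

lemma y40 {Λ : ℕ} {Y : ℝ} (hB : Big Λ Y) : (40 : ℝ) ≤ Y := by
  have := hB.lam
  exact le_trans (by norm_num : (40 : ℝ) ≤ 2 ^ 6)
    (le_trans (pow_le_pow_right₀ (by norm_num) (by omega)) hB.two)

lemma inner (hK : St_KF) (hI : St_IK) {Λ : ℕ} {Y : ℝ} (hB : Big Λ Y) {N1 : ℝ} (h0 : 0 < N1)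
    (h1 : N1 ≤ Y ^ (200 * Λ)) {n r lo hi : ℕ} (hn : N1 ≤ n ∧ n ≤ 4 * N1)
    (hl : ((hi - lo : ℕ) : ℝ) ≤ 4 * N1) (hc : Nat.Coprime r n) (a : ℤ) (lam : ℝ) :
    ‖∑ κ ∈ (Ioc lo hi).filter (Nat.Coprime · n), ee (lam * κ) * kf a (r * κ) n‖ ≤
      10 * Y ^ 2 * √N1 * Nat.gcd a.natAbs n := by
  have hY := y40 hB
  have hn0 : (0 : ℝ) < n := h0.trans_le hn.1
  have hn1 : 0 < n := by exact_mod_cast hn0
  have h2 : (n : ℝ) ≤ Y ^ (1000 * Λ) := by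
    have h3 : Y ^ (200 * Λ + 1) ≤ Y ^ (1000 * Λ) :=
      pow_le_pow_right₀ (by linarith) (by have := hB.lam; omega)
    rw [pow_succ] at h3
    nlinarith [hn.2]
  have h3 := hI Λ Y hB n (a * (((r : ZMod n)⁻¹).val : ℕ)) lam lo hi hn1 h2
  rw [hK.gcd a r n hn1 hc] at h3
  rw [sum_congr rfl fun κ hκ => by rw [hK.mul a r κ n hn1 hc (mem_filter.1 hκ).2]]
  refine h3.trans ?_
  have h4 : √(n : ℝ) ≤ 2 * √N1 := by
    rw [show 2 * √N1 = √(4 * N1) by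
      rw [Real.sqrt_mul (by norm_num), show (4 : ℝ) = 2 ^ 2 by norm_num,
        Real.sqrt_sq (by norm_num)]]
    exact Real.sqrt_le_sqrt hn.2
  have h5 : √(Int.gcd a n : ℝ) ≤ Nat.gcd a.natAbs n := by
    have h6 : (1 : ℝ) ≤ Nat.gcd a.natAbs n := by exact_mod_cast Nat.gcd_pos_of_pos_right _ hn1
    rw [Int.gcd, Int.natAbs_natCast, Real.sqrt_le_left (by linarith)]
    nlinarith
  have h6 : 1 + ((hi - lo : ℕ) : ℝ) / n ≤ 5 := by
    have : ((hi - lo : ℕ) : ℝ) / n ≤ 4 := by rw [div_le_iff₀ hn0]; linarith [hn.1]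
    linarith
  calc _ ≤ Y ^ 2 * (2 * √N1) * (Nat.gcd a.natAbs n) * 5 := by gcongr
    _ = _ := by ring

lemma gsum (hG : St_GCD) {Λ : ℕ} {Y : ℝ} (hB : Big Λ Y) {N1 : ℝ} (h0 : 0 < N1) {S : Finset ℕ}
    (hS : ∀ n ∈ S, N1 ≤ n ∧ n ≤ 4 * N1) {k t : ℤ} (hk : k ≠ 0 ∧ |(k : ℝ)| ≤ Y ^ (300 * Λ))
    (ht : t ≠ 0 ∧ |(t : ℝ)| ≤ Y ^ (300 * Λ)) :
    ∑ n ∈ S, (Nat.gcd (-(k * t)).natAbs n : ℝ) ≤ 4 * N1 * Y := by
  have hY := y40 hB
  have h1 : S ⊆ Icc 1 ⌊4 * N1⌋₊ := fun n hn => mem_Icc.2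
    ⟨Nat.cast_pos.1 (h0.trans_le (hS n hn).1), Nat.le_floor (hS n hn).2⟩
  have h2 := (sum_le_sum_of_subset h1).trans (hG.one (-(k * t)).natAbs ⌊4 * N1⌋₊
    (Int.natAbs_ne_zero.2 (neg_ne_zero.2 (mul_ne_zero hk.1 ht.1))))
  have h3 := hB.div (-(k * t)).natAbs (by
    rw [Nat.cast_natAbs, Int.cast_abs]
    push_cast
    rw [abs_neg, abs_mul]
    refine (mul_le_mul hk.2 ht.2 (abs_nonneg _) (by positivity)).trans ?_
    rw [← pow_add]
    exact pow_le_pow_right₀ (by linarith) (by omega))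
  have h4 : (⌊4 * N1⌋₊ : ℝ) ≤ 4 * N1 := Nat.floor_le (by positivity)
  calc _ ≤ (⌊4 * N1⌋₊ : ℝ) * ((-(k * t)).natAbs.divisors.card : ℝ) := by exact_mod_cast h2
    _ ≤ _ := by gcongr

end B2

theorem st_B2 (hK : St_KF) (hG : St_GCD) (hI : St_IK) : St_B2 := by
  intro Λ Y hB N1 W1 R1 S2 Ks Ts lo hi ω φ lam h0 h1 hS hl hk ht hφ hW
  have hY := B2.y40 hB
  have hW0 : 0 ≤ W1 := le_trans (sum_nonneg fun _ _ => norm_nonneg _) hW
  have key : ∀ r, ‖∑ n ∈ S2, if Nat.Coprime r n then ∑ k ∈ Ks, ∑ t ∈ Ts, ω t * φ r n k t *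
      ∑ κ ∈ (Ioc (lo r) (hi r)).filter (Nat.Coprime · n), ee (lam r n * κ) *
        kf (-(k * t)) (r * κ) n else 0‖ ≤ Y ^ 4 * W1 * Ks.card * (N1 * √N1) := fun r => by
    calc _ ≤ ∑ n ∈ S2, ∑ k ∈ Ks, ∑ t ∈ Ts,
          ‖ω t‖ * (10 * Y ^ 2 * √N1 * Nat.gcd (-(k * t)).natAbs n) := by
          refine norm_sum_le_of_le _ fun n hn => ?_
          split_ifs with hc
          · refine norm_sum_le_of_le _ fun k _ => norm_sum_le_of_le _ fun t _ => ?_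
            rw [norm_mul, norm_mul]
            exact mul_le_mul (mul_le_of_le_one_right (norm_nonneg _) (hφ r n k t))
              (B2.inner hK hI hB h0 h1 (hS n hn) (hl r) hc _ _) (norm_nonneg _) (norm_nonneg _)
          · rw [norm_zero]; positivity
      _ = ∑ k ∈ Ks, ∑ t ∈ Ts, ‖ω t‖ * (10 * Y ^ 2 * √N1 *
          ∑ n ∈ S2, (Nat.gcd (-(k * t)).natAbs n : ℝ)) := by
          rw [sum_comm]
          refine sum_congr rfl fun k _ => ?_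
          rw [sum_comm]
          exact sum_congr rfl fun t _ => by rw [mul_sum, mul_sum]
      _ ≤ ∑ k ∈ Ks, ∑ t ∈ Ts, ‖ω t‖ * (Y ^ 4 * (N1 * √N1)) := by
          refine sum_le_sum fun k hk' => sum_le_sum fun t ht' =>
            mul_le_mul_of_nonneg_left ?_ (norm_nonneg _)
          calc _ ≤ 10 * Y ^ 2 * √N1 * (4 * N1 * Y) :=
                mul_le_mul_of_nonneg_left (B2.gsum hG hB h0 hS (hk k hk') (ht t ht'))
                  (by positivity)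
            _ = 40 * (Y ^ 3 * (N1 * √N1)) := by ring
            _ ≤ Y * (Y ^ 3 * (N1 * √N1)) := by gcongr
            _ = _ := by ring
      _ ≤ ∑ _k ∈ Ks, W1 * (Y ^ 4 * (N1 * √N1)) := sum_le_sum fun k _ => by
          rw [← sum_mul]; gcongr
      _ = _ := by rw [sum_const, nsmul_eq_mul]; ring
  refine (norm_sum_le_of_le _ fun r _ => key r).trans_eq ?_
  rw [sum_const, nsmul_eq_mul, Nat.card_Icc, Nat.add_sub_cancel]
  ring

end Pool.Agent.Lib.AP
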