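import Pool.Agent.Lib.AP.Blue

/-! The trilinear estimate for Kloosterman fractions. -/

open Finset Classical

noncomputable section

namespace Pool.Agent.Lib.AP

namespace B3

theorem y_ge {Λ : ℕ} {Y : ℝ} (hB : Big Λ Y) : (2 : ℝ) ^ 20 ≤ Y := by
  refine le_trans ?_ hB.two
  have := hB.lam
  exact pow_le_pow_right₀ (by norm_num) (by omega)

theorem card_nat (S : Finset ℕ) (V : ℝ) (hV : 1 / 2 ≤ V) (h : ∀ v ∈ S, V ≤ v ∧ v ≤ 2 * V) :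
    S ⊆ Icc 1 ⌊2 * V⌋₊ ∧ (S.card : ℝ) ≤ 2 * V ∧ (⌊2 * V⌋₊ : ℝ) ≤ 2 * V := by
  have h1 : S ⊆ Icc 1 ⌊2 * V⌋₊ := by
    intro v hv
    obtain ⟨a, b⟩ := h v hv
    rw [mem_Icc]
    refine ⟨?_, Nat.le_floor b⟩
    have : (0 : ℝ) < v := by linarith
    exact Nat.cast_pos.1 this
  have h2 : (⌊2 * V⌋₊ : ℝ) ≤ 2 * V := Nat.floor_le (by linarith)
  refine ⟨h1, le_trans ?_ h2, h2⟩
  have := card_le_card h1
  rw [Nat.card_Icc, Nat.add_sub_cancel] at this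
  exact_mod_cast this

theorem card_int (S : Finset ℤ) (K : ℝ) (hK : 0 ≤ K) (h : ∀ k ∈ S, k ≠ 0 ∧ |(k : ℝ)| ≤ K) :
    (S.card : ℝ) ≤ 2 * K := by
  have h1 : S ⊆ (Icc (-(⌊K⌋₊ : ℤ)) ⌊K⌋₊).erase 0 := by
    intro k hk
    obtain ⟨a, b⟩ := h k hk
    rw [mem_erase, mem_Icc, ← abs_le]
    refine ⟨a, ?_⟩
    have e : ((k.natAbs : ℕ) : ℝ) = |(k : ℝ)| := by
      rw [← Int.cast_abs, Int.abs_eq_natAbs, Int.cast_natCast]
    have : k.natAbs ≤ ⌊K⌋₊ := Nat.le_floor (e ▸ b)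
    rw [Int.abs_eq_natAbs]
    exact_mod_cast this
  have h2 := card_le_card h1
  rw [card_erase_of_mem (by simp), Int.card_Icc] at h2
  have h3 : S.card ≤ 2 * ⌊K⌋₊ := by omega
  have h4 : (S.card : ℝ) ≤ 2 * ⌊K⌋₊ := by exact_mod_cast h3
  have := Nat.floor_le hK
  linarith

/-- the bound for one inner sum -/
theorem inner (hK : St_KF) (hT : St_TOOL) (hI : St_IK) {Λ : ℕ} {Y : ℝ} (hB : Big Λ Y)
    (V U : ℝ) (hV : 1 / 2 ≤ V) (hU : 1 / 2 ≤ U) (hV' : V ≤ Y ^ (200 * Λ))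
    (hU' : U ≤ Y ^ (200 * Λ)) (N4 : ℕ) (hN : N4 ≤ 4 * U * V) (v v' v2 : ℕ)
    (hv : V ≤ v ∧ v ≤ 2 * V) (hv' : V ≤ v' ∧ v' ≤ 2 * V) (h2 : U ≤ v2 ∧ v2 ≤ 2 * U) (a : ℤ)
    (lam : ℝ) :
    ‖∑ n ∈ (Ioc 0 N4).filter (Nat.Coprime · (v * v' * v2)), ee (lam * n) * kf a n (v * v' * v2)‖ ≤
      (if a = 0 then 4 * U * V else 0) + 27 * Y ^ 2 * √(V ^ 2 * U) *
        (if a = 0 then 0 else √(Int.gcd a ((v * v' * v2 : ℕ) : ℤ) : ℝ)) := by
  have hY := y_ge hB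
  have hV0 : 0 < V := by linarith
  have hU0 : 0 < U := by linarith
  by_cases ha : a = 0
  · rw [if_pos ha, if_pos ha, mul_zero, add_zero]
    refine (norm_sum_le _ _).trans (le_trans ?_ hN)
    have : ∀ n ∈ (Ioc 0 N4).filter (Nat.Coprime · (v * v' * v2)),
        ‖ee (lam * n) * kf a n (v * v' * v2)‖ = 1 := by
      intro n _
      rw [norm_mul, hT.norm, hK.norm, mul_one]
    rw [sum_congr rfl this, sum_const, nsmul_eq_mul, mul_one]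
    have := card_filter_le (Ioc 0 N4) (Nat.Coprime · (v * v' * v2))
    rw [Nat.card_Ioc, Nat.sub_zero] at this
    exact_mod_cast this
  · rw [if_neg ha, if_neg ha, zero_add]
    have lo : V ^ 2 * U ≤ ((v * v' * v2 : ℕ) : ℝ) := by
      push_cast
      have := mul_le_mul hv.1 hv'.1 hV0.le (Nat.cast_nonneg _)
      have := mul_le_mul this h2.1 hU0.le (by positivity)
      nlinarith
    have hi : ((v * v' * v2 : ℕ) : ℝ) ≤ 8 * (V ^ 2 * U) := by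
      push_cast
      have := mul_le_mul hv.2 hv'.2 (Nat.cast_nonneg _) (by positivity)
      have := mul_le_mul this h2.2 (Nat.cast_nonneg _) (by positivity)
      nlinarith
    have hc0 : (0 : ℝ) < ((v * v' * v2 : ℕ) : ℝ) := lt_of_lt_of_le (by positivity) lo
    have hY1 : 1 ≤ Y := by linarith
    have hc : ((v * v' * v2 : ℕ) : ℝ) ≤ Y ^ (1000 * Λ) := by
      refine hi.trans ?_
      have e : Y ^ (1000 * Λ) = Y ^ (400 * Λ) * ((Y ^ (200 * Λ)) ^ 2 * Y ^ (200 * Λ)) := by ring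
      rw [e]
      have h8 : 8 ≤ Y ^ (400 * Λ) := by
        have := hB.lam
        calc (8 : ℝ) ≤ Y := by linarith
          _ = Y ^ 1 := (pow_one _).symm
          _ ≤ _ := pow_le_pow_right₀ hY1 (by omega)
      gcongr
    refine (hI Λ Y hB _ a lam 0 N4 (Nat.cast_pos.1 hc0) hc).trans ?_
    have s1 : √((v * v' * v2 : ℕ) : ℝ) ≤ 3 * √(V ^ 2 * U) := by
      rw [show (3 : ℝ) = √9 by rw [show (9 : ℝ) = 3 ^ 2 by norm_num, Real.sqrt_sq (by norm_num)],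
        ← Real.sqrt_mul (by norm_num)]
      apply Real.sqrt_le_sqrt
      have : 0 ≤ V ^ 2 * U := by positivity
      linarith
    have s2 : 1 + ((N4 - 0 : ℕ) : ℝ) / ((v * v' * v2 : ℕ) : ℝ) ≤ 9 := by
      rw [Nat.sub_zero]
      have : (N4 : ℝ) / ((v * v' * v2 : ℕ) : ℝ) ≤ 8 := by
        rw [div_le_iff₀ hc0]
        have : 4 * U * V ≤ 8 * (V ^ 2 * U) := by nlinarith [mul_pos hU0 hV0]
        linarith
      linarith
    calc _ ≤ Y ^ 2 * (3 * √(V ^ 2 * U)) * √(Int.gcd a ((v * v' * v2 : ℕ) : ℤ) : ℝ) * 9 := by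
          gcongr
      _ = _ := by ring

end B3

open B3 in
theorem st_B3 (hT : St_TOOL) (hK : St_KF) (hI : St_IK) (ha : St_B3a) (hd : St_B3d)
    (ho : St_B3o) : St_B3 := by
  intro Λ Y hB V U K1 M W1 S1 S2 N4 Ks Ts β ω φ lam hV hU hV' hU' hK0 hK' h1 h2 hN hk ht hβ hφ hM
    hω hW
  have hY := y_ge hB
  have hY1 : 1 ≤ Y := by linarith
  have hV0 : 0 < V := by linarith
  have hU0 : 0 < U := by linarith
  have hW0 : 0 ≤ W1 := le_trans (sum_nonneg fun _ _ => norm_nonneg _) hW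
  obtain ⟨s1, c1, f1⟩ := card_nat S1 V hV h1
  obtain ⟨s2, c2, f2⟩ := card_nat S2 U hU h2
  have cK := card_int Ks K1 hK0 hk
  have up : ∀ x : ℝ, x ≤ Y ^ (200 * Λ) → 2 * x ≤ Y ^ (300 * Λ) := by
    intro x hx
    have e : Y ^ (300 * Λ) = Y ^ (100 * Λ) * Y ^ (200 * Λ) := by ring
    have h8 : 2 ≤ Y ^ (100 * Λ) := by
      have := hB.lam
      calc (2 : ℝ) ≤ Y := by linarith
        _ = Y ^ 1 := (pow_one _).symm
        _ ≤ _ := pow_le_pow_right₀ hY1 (by omega)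
    have : 0 ≤ Y ^ (200 * Λ) := by positivity
    rw [e]
    nlinarith
  have hk' : ∀ k ∈ Ks, k ≠ 0 ∧ |(k : ℝ)| ≤ Y ^ (300 * Λ) := fun k hk0 =>
    ⟨(hk k hk0).1, by have := up K1 hK'; have := (hk k hk0).2; linarith⟩
  have p1 : ∀ v ∈ S1, 0 < v := fun v hv => (mem_Icc.1 (s1 hv)).1
  have p2 : ∀ v ∈ S2, 0 < v := fun v hv => (mem_Icc.1 (s2 hv)).1
  have D := hd Λ Y hB S1 Ks Ts ω M W1
    (fun v hv => ⟨p1 v hv, (h1 v hv).2.trans (up V hV')⟩) hk' ht hM hω hW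
  have O := ho Λ Y hB ⌊2 * V⌋₊ ⌊2 * U⌋₊ Ks Ts ω W1 (f1.trans (up V hV')) hk' ht hW
  have A := ha S1 S2 N4 Ks Ts β ω φ lam p1 p2 hβ hφ
  set Z := Ks ×ˢ Ts ×ˢ S1 with hZ
  set dg : (ℤ × ℤ × ℕ) → (ℤ × ℤ × ℕ) → ℝ := fun z z' =>
    if z'.1 * z'.2.1 * z.2.2 - z.1 * z.2.1 * z'.2.2 = 0 then ‖ω z.2.1‖ * ‖ω z'.2.1‖ else 0 with hdg
  set og : ℕ → (ℤ × ℤ × ℕ) → (ℤ × ℤ × ℕ) → ℝ := fun v2 z z' =>
    if z'.1 * z'.2.1 * z.2.2 - z.1 * z.2.1 * z'.2.2 = 0 then 0 else ‖ω z.2.1‖ * ‖ω z'.2.1‖ *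
        √(Int.gcd (z'.1 * z'.2.1 * z.2.2 - z.1 * z.2.1 * z'.2.2)
          ((z.2.2 * z'.2.2 * v2 : ℕ) : ℤ) : ℝ) with hog
  have og0 : ∀ v2 z z', 0 ≤ og v2 z z' := by
    intro v2 z z'
    simp only [hog]
    split_ifs <;> positivity
  have hsub : Z ⊆ Ks ×ˢ Ts ×ˢ Icc 1 ⌊2 * V⌋₊ :=
    product_subset_product_right (product_subset_product_right s1)
  have O' : ∑ v2 ∈ S2, ∑ z ∈ Z, ∑ z' ∈ Z, og v2 z z' ≤
      Y ^ 3 * W1 ^ 2 * (2 * K1) ^ 2 * (2 * V) ^ 2 * (2 * U) := by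
    refine le_trans ?_ (O.trans (by gcongr))
    refine le_trans (sum_le_sum fun v2 _ => ?_) (sum_le_sum_of_subset_of_nonneg s2 fun v2 _ _ =>
      sum_nonneg fun z _ => sum_nonneg fun z' _ => og0 v2 z z')
    refine le_trans (sum_le_sum fun z _ => ?_) (sum_le_sum_of_subset_of_nonneg hsub fun z _ _ =>
      sum_nonneg fun z' _ => og0 v2 z z')
    exact sum_le_sum_of_subset_of_nonneg hsub fun z' _ _ => og0 v2 z z'
  have D' : ∑ z ∈ Z, ∑ z' ∈ Z, dg z z' ≤ 2 * Y ^ 2 * M * W1 * (2 * K1) * (2 * V) :=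
    D.trans (by gcongr)
  have D0 : 0 ≤ ∑ z ∈ Z, ∑ z' ∈ Z, dg z z' := by
    refine sum_nonneg fun z _ => sum_nonneg fun z' _ => ?_
    simp only [hdg]
    split_ifs <;> positivity
  have step : ∑ v2 ∈ S2, ∑ z ∈ Z, ∑ z' ∈ Z, ‖ω z.2.1‖ * ‖ω z'.2.1‖ *
        ‖∑ n ∈ (Ioc 0 N4).filter (Nat.Coprime · (z.2.2 * z'.2.2 * v2)),
          ee ((lam z.2.2 v2 - lam z'.2.2 v2) * n) *
            kf (z'.1 * z'.2.1 * z.2.2 - z.1 * z.2.1 * z'.2.2) n (z.2.2 * z'.2.2 * v2)‖ ≤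
      S2.card * (4 * U * V * ∑ z ∈ Z, ∑ z' ∈ Z, dg z z') +
        27 * Y ^ 2 * √(V ^ 2 * U) * ∑ v2 ∈ S2, ∑ z ∈ Z, ∑ z' ∈ Z, og v2 z z' := by
    rw [← nsmul_eq_mul, ← sum_const, mul_sum S2, ← sum_add_distrib]
    refine sum_le_sum fun v2 hv2 => ?_
    rw [mul_sum, mul_sum, ← sum_add_distrib]
    refine sum_le_sum fun z hz => ?_
    rw [mul_sum, mul_sum, ← sum_add_distrib]
    refine sum_le_sum fun z' hz' => ?_
    have i := inner hK hT hI hB V U hV hU hV' hU' N4 hN z.2.2 z'.2.2 v2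
      (h1 _ (mem_product.1 (mem_product.1 hz).2).2) (h1 _ (mem_product.1 (mem_product.1 hz').2).2)
      (h2 _ hv2) (z'.1 * z'.2.1 * z.2.2 - z.1 * z.2.1 * z'.2.2) (lam z.2.2 v2 - lam z'.2.2 v2)
    refine (mul_le_mul_of_nonneg_left i (by positivity)).trans (le_of_eq ?_)
    simp only [hdg, hog]
    split_ifs <;> ring
  set a := U * V * U * √(M * W1 * K1 * V) with hav
  set b := U * V * √(U * V) * W1 * K1 * √√(V ^ 2 * U) with hbv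
  have a0 : 0 ≤ a := by positivity
  have b0 : 0 ≤ b := by positivity
  have a2 : a ^ 2 = (U * V * U) ^ 2 * (M * W1 * K1 * V) := by
    rw [hav, mul_pow, Real.sq_sqrt (by positivity)]
  have b2 : b ^ 2 = (U * V) ^ 2 * (U * V) * W1 ^ 2 * K1 ^ 2 * √(V ^ 2 * U) := by
    rw [hbv]
    simp only [mul_pow]
    rw [Real.sq_sqrt (by positivity), Real.sq_sqrt (by positivity)]
  have fin : ‖S3 S1 S2 N4 Ks Ts β ω φ lam‖ ^ 2 ≤ 512 * Y ^ 2 * a ^ 2 + 6912 * Y ^ 5 * b ^ 2 := by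
    refine A.trans ?_
    calc _ ≤ (4 * U * V) * (2 * U) * ((2 * U) * (4 * U * V *
            (2 * Y ^ 2 * M * W1 * (2 * K1) * (2 * V))) + 27 * Y ^ 2 * √(V ^ 2 * U) *
              (Y ^ 3 * W1 ^ 2 * (2 * K1) ^ 2 * (2 * V) ^ 2 * (2 * U))) := by
          refine mul_le_mul (by gcongr) (step.trans (by gcongr)) ?_ (by positivity)
          exact sum_nonneg fun _ _ => sum_nonneg fun _ _ => sum_nonneg fun _ _ => by positivity
      _ = _ := by rw [a2, b2]; ring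
  have y5 : 6912 ≤ Y ^ 5 := by
    calc (6912 : ℝ) ≤ Y := by linarith
      _ = Y ^ 1 := (pow_one _).symm
      _ ≤ _ := pow_le_pow_right₀ hY1 (by omega)
  have y25 : Y ^ 2 ≤ Y ^ 5 := pow_le_pow_right₀ hY1 (by omega)
  refine (pow_le_pow_iff_left₀ (norm_nonneg _) (by positivity) two_ne_zero).1 (fin.trans ?_)
  have e1 : 512 * Y ^ 2 ≤ Y ^ 5 * Y ^ 5 := mul_le_mul (by linarith) y25 (by positivity) (by positivity)
  have e2 : 6912 * Y ^ 5 ≤ Y ^ 5 * Y ^ 5 := mul_le_mul_of_nonneg_right y5 (by positivity)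
  calc _ ≤ Y ^ 5 * Y ^ 5 * a ^ 2 + Y ^ 5 * Y ^ 5 * b ^ 2 := by gcongr
    _ ≤ Y ^ 5 * Y ^ 5 * a ^ 2 + Y ^ 5 * Y ^ 5 * b ^ 2 + Y ^ 5 * Y ^ 5 * (2 * a * b) :=
        le_add_of_nonneg_right (by positivity)
    _ = _ := by ring

end Pool.Agent.Lib.AP
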