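import Pool.Agent.Lib.AP.Blue

/-! Cauchy's inequality and expansion of the square for the trilinear sum. -/

open Finset Classical

noncomputable section

namespace Pool.Agent.Lib.AP

namespace B3a

/-- one term of the inner sum -/
def tm (ω : ℤ → ℂ) (φ : ℤ → ℤ → ℕ → ℕ → ℂ) (lam : ℕ → ℕ → ℝ) (n v2 : ℕ) (z : ℤ × ℤ × ℕ) : ℂ :=
  if Nat.Coprime n (z.2.2 * v2) then
    ω z.2.1 * φ z.1 z.2.1 z.2.2 v2 * ee (lam z.2.2 v2 * n) * kf (-(z.1 * z.2.1)) n (z.2.2 * v2)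
  else 0

theorem s3_eq (S1 S2 : Finset ℕ) (N4 : ℕ) (Ks Ts : Finset ℤ) (β : ℕ → ℂ) (ω : ℤ → ℂ)
    (φ : ℤ → ℤ → ℕ → ℕ → ℂ) (lam : ℕ → ℕ → ℝ) :
    S3 S1 S2 N4 Ks Ts β ω φ lam =
      ∑ y ∈ S2 ×ˢ Ioc 0 N4, β y.2 * ∑ z ∈ Ks ×ˢ Ts ×ˢ S1, tm ω φ lam y.2 y.1 z := by
  unfold S3
  rw [sum_product, sum_comm]
  have e : Icc 1 N4 = Ioc 0 N4 := by ext x; simp only [mem_Icc, mem_Ioc]; omega
  rw [e]
  refine sum_congr rfl fun n _ => ?_
  rw [sum_comm, mul_sum]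
  refine sum_congr rfl fun v2 _ => ?_
  congr 1
  rw [sum_product]
  simp only [sum_product]
  have : ∀ v1 ∈ S1, (if Nat.Coprime n (v1 * v2) then ∑ k ∈ Ks, ∑ t ∈ Ts,
      ω t * φ k t v1 v2 * ee (lam v1 v2 * n) * kf (-(k * t)) n (v1 * v2) else 0) =
      ∑ k ∈ Ks, ∑ t ∈ Ts, tm ω φ lam n v2 (k, t, v1) := by
    intro v1 _
    unfold tm
    by_cases h : Nat.Coprime n (v1 * v2)
    · simp only [if_pos h]
    · simp only [if_neg h, sum_const_zero]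
  rw [sum_congr rfl this, sum_comm]
  refine sum_congr rfl fun k _ => ?_
  rw [sum_comm]

theorem tm_mul (hT : St_TOOL) (hK : St_KF) (ω : ℤ → ℂ) (φ : ℤ → ℤ → ℕ → ℕ → ℂ)
    (lam : ℕ → ℕ → ℝ) (n v2 : ℕ) (z z' : ℤ × ℤ × ℕ) (h2 : 0 < v2) (hz : 0 < z.2.2)
    (hz' : 0 < z'.2.2) :
    tm ω φ lam n v2 z * (starRingEnd ℂ) (tm ω φ lam n v2 z') =
      (ω z.2.1 * φ z.1 z.2.1 z.2.2 v2 * (starRingEnd ℂ) (ω z'.2.1 * φ z'.1 z'.2.1 z'.2.2 v2)) *
        (if Nat.Coprime n (z.2.2 * z'.2.2 * v2) then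
          ee ((lam z.2.2 v2 - lam z'.2.2 v2) * n) *
            kf (z'.1 * z'.2.1 * z.2.2 - z.1 * z.2.1 * z'.2.2) n (z.2.2 * z'.2.2 * v2) else 0) := by
  obtain ⟨k, t, v⟩ := z
  obtain ⟨k', t', v'⟩ := z'
  simp only at hz hz' ⊢
  unfold tm
  simp only
  by_cases h : Nat.Coprime n (v * v' * v2)
  · have e1 : v * v2 * v' = v * v' * v2 := by ring
    have e2 : v' * v2 * v = v * v' * v2 := by ring
    have h1 : Nat.Coprime n (v * v2) := Nat.Coprime.coprime_mul_right_right (k := v') (e1 ▸ h)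
    have h1' : Nat.Coprime n (v' * v2) := Nat.Coprime.coprime_mul_right_right (k := v) (e2 ▸ h)
    rw [if_pos h1, if_pos h1', if_pos h]
    have l1 := hK.lift (-(k * t)) n (v * v2) v' (Nat.mul_pos hz h2) hz' (e1 ▸ h)
    have l2 := hK.lift (k' * t') n (v' * v2) v (Nat.mul_pos hz' h2) hz (e2 ▸ h)
    rw [e1] at l1
    rw [e2] at l2
    have a1 : kf (k' * t' * v - k * t * v') n (v * v' * v2) =
        kf (k' * t' * v) n (v * v' * v2) * kf (-(k * t) * v') n (v * v' * v2) := by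
      rw [← hK.add]; congr 1; ring
    have a2 : ee ((lam v v2 - lam v' v2) * n) = ee (lam v v2 * n) * ee (-(lam v' v2 * n)) := by
      rw [← hT.add]; congr 1; ring
    rw [map_mul, map_mul, hT.conj, hK.conj, neg_neg, a1, a2, ← l1, ← l2]
    ring
  · rw [if_neg h, mul_zero]
    by_cases h1 : Nat.Coprime n (v * v2)
    · have h1' : ¬ Nat.Coprime n (v' * v2) := by
        intro h1'
        apply h
        have := Nat.Coprime.mul_right h1 (Nat.Coprime.coprime_mul_right_right h1')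
        have e1 : v * v2 * v' = v * v' * v2 := by ring
        exact e1 ▸ this
      rw [if_neg h1', map_zero, mul_zero]
    · rw [if_neg h1, zero_mul]

theorem sq_le {ι : Type*} (s : Finset ι) (b a : ι → ℂ) (hb : ∀ i, ‖b i‖ ≤ 1) :
    ‖∑ i ∈ s, b i * a i‖ ^ 2 ≤ s.card * ∑ i ∈ s, ‖a i‖ ^ 2 := by
  have h1 : ‖∑ i ∈ s, b i * a i‖ ≤ ∑ i ∈ s, ‖a i‖ := by
    refine (norm_sum_le _ _).trans (sum_le_sum fun i _ => ?_)
    rw [norm_mul]
    exact mul_le_of_le_one_left (norm_nonneg _) (hb i)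
  exact (pow_le_pow_left₀ (norm_nonneg _) h1 2).trans sq_sum_le_card_mul_sum_sq

end B3a

open B3a in
theorem st_B3a (hT : St_TOOL) (hK : St_KF) : St_B3a := by
  intro S1 S2 N4 Ks Ts β ω φ lam h1 h2 hβ hφ
  rw [s3_eq]
  refine (sq_le _ (fun y : ℕ × ℕ => β y.2) _ fun y => hβ _).trans ?_
  rw [card_product, Nat.card_Ioc, Nat.sub_zero, Nat.cast_mul, mul_comm (S2.card : ℝ)]
  refine mul_le_mul_of_nonneg_left ?_ (by positivity)
  rw [sum_product]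
  refine sum_le_sum fun v2 hv2 => ?_
  simp only
  have key : ((∑ n ∈ Ioc 0 N4, ‖∑ z ∈ Ks ×ˢ Ts ×ˢ S1, tm ω φ lam n v2 z‖ ^ 2 : ℝ) : ℂ) =
      ∑ z ∈ Ks ×ˢ Ts ×ˢ S1, ∑ z' ∈ Ks ×ˢ Ts ×ˢ S1,
        (ω z.2.1 * φ z.1 z.2.1 z.2.2 v2 * (starRingEnd ℂ) (ω z'.2.1 * φ z'.1 z'.2.1 z'.2.2 v2)) *
        ∑ n ∈ (Ioc 0 N4).filter (Nat.Coprime · (z.2.2 * z'.2.2 * v2)),
          ee ((lam z.2.2 v2 - lam z'.2.2 v2) * n) *
            kf (z'.1 * z'.2.1 * z.2.2 - z.1 * z.2.1 * z'.2.2) n (z.2.2 * z'.2.2 * v2) := by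
    push_cast
    have : ∀ n ∈ Ioc 0 N4, ((‖∑ z ∈ Ks ×ˢ Ts ×ˢ S1, tm ω φ lam n v2 z‖ : ℝ) : ℂ) ^ 2 =
        ∑ z ∈ Ks ×ˢ Ts ×ˢ S1, ∑ z' ∈ Ks ×ˢ Ts ×ˢ S1,
          tm ω φ lam n v2 z * (starRingEnd ℂ) (tm ω φ lam n v2 z') := by
      intro n _
      rw [← Complex.mul_conj', map_sum, sum_mul_sum]
    rw [sum_congr rfl this, sum_comm]
    refine sum_congr rfl fun z hz => ?_
    rw [sum_comm]
    refine sum_congr rfl fun z' hz' => ?_
    rw [sum_filter, mul_sum]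
    refine sum_congr rfl fun n _ => ?_
    exact tm_mul hT hK ω φ lam n v2 z z' (h2 _ hv2)
      (h1 _ (mem_product.1 (mem_product.1 hz).2).2) (h1 _ (mem_product.1 (mem_product.1 hz').2).2)
  have k2 := congrArg norm key
  rw [Complex.norm_real, Real.norm_of_nonneg (by positivity)] at k2
  rw [k2]
  refine (norm_sum_le _ _).trans (sum_le_sum fun z _ => ?_)
  refine (norm_sum_le _ _).trans (sum_le_sum fun z' _ => ?_)
  rw [norm_mul]
  refine mul_le_mul_of_nonneg_right ?_ (norm_nonneg _)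
  rw [norm_mul, Complex.norm_conj, norm_mul, norm_mul]
  exact mul_le_mul (mul_le_of_le_one_right (norm_nonneg _) (hφ _ _ _ _))
    (mul_le_of_le_one_right (norm_nonneg _) (hφ _ _ _ _)) (by positivity) (norm_nonneg _)

end Pool.Agent.Lib.AP
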