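import Pool.Agent.Lib.AP.Blue

open Finset Classical

noncomputable section

namespace Pool.Agent.Lib.AP

namespace B3d

theorem one_le {Λ : ℕ} {Y : ℝ} (hB : Big Λ Y) : 1 ≤ Y := (one_le_pow₀ one_le_two).trans hB.two

theorem dv {Λ : ℕ} {Y : ℝ} (hB : Big Λ Y) {s : ℤ} (hs : |(s : ℝ)| ≤ Y ^ (900 * Λ)) :
    (s.natAbs.divisors.card : ℝ) ≤ Y := by
  refine hB.div _ ?_
  rw [Nat.cast_natAbs, Int.cast_abs]
  exact hs.trans (pow_le_pow_right₀ (one_le hB) (by omega))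

/-- the number of representations as a product of three factors -/
theorem cnt (hG : St_GCD) {Λ : ℕ} {Y : ℝ} (hB : Big Λ Y) (Ks Ts : Finset ℤ) (S1 : Finset ℕ) {s : ℤ}
    (h0 : s ≠ 0) (hs : |(s : ℝ)| ≤ Y ^ (900 * Λ)) :
    ∑ v ∈ S1, ∑ k ∈ Ks, ∑ t ∈ Ts, (if k * t * v = s then (1 : ℝ) else 0) ≤ 2 * Y ^ 2 := by
  have hY := one_le hB
  have h1 : ∀ v ∈ S1, ∑ k ∈ Ks, ∑ t ∈ Ts, (if k * t * v = s then (1 : ℝ) else 0) ≤
      if v ∈ s.natAbs.divisors then 2 * Y else 0 := by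
    intro v _
    split_ifs with hv
    · have h2 : (v : ℤ) ∣ s := Int.natCast_dvd.2 (Nat.dvd_of_mem_divisors hv)
      obtain ⟨c, rfl⟩ := h2
      have hv0 : (v : ℤ) ≠ 0 := left_ne_zero_of_mul h0
      have hc : c ≠ 0 := right_ne_zero_of_mul h0
      have h3 : ∀ k t : ℤ, k * t * v = v * c ↔ k * t = c := fun k t => by
        rw [mul_comm (v : ℤ) c, mul_left_inj' hv0]
      simp only [h3]
      rw [← sum_product', sum_boole]
      have h4 : |(c : ℝ)| ≤ Y ^ (900 * Λ) := by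
        refine le_trans ?_ hs
        rw [Int.cast_mul, abs_mul]
        refine le_mul_of_one_le_left (abs_nonneg _) ?_
        exact_mod_cast Int.one_le_abs hv0
      have h5 : ((((Ks ×ˢ Ts).filter fun x => x.1 * x.2 = c).card : ℕ) : ℝ) ≤
          2 * c.natAbs.divisors.card := by exact_mod_cast hG.fibZ Ks Ts c hc
      linarith [dv hB h4]
    · refine (sum_eq_zero fun k _ => sum_eq_zero fun t _ => if_neg fun h => hv ?_).le
      exact Nat.mem_divisors.2 ⟨Int.natCast_dvd.1 ⟨k * t, by rw [← h, mul_comm]⟩,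
        Int.natAbs_ne_zero.2 h0⟩
  refine (sum_le_sum h1).trans ?_
  rw [← sum_filter, sum_const, nsmul_eq_mul]
  have h6 : (((S1.filter fun v => v ∈ s.natAbs.divisors).card : ℕ) : ℝ) ≤ s.natAbs.divisors.card :=
    by exact_mod_cast card_le_card fun v hv => (mem_filter.1 hv).2
  nlinarith [dv hB hs]

end B3d

theorem st_B3d (hG : St_GCD) : St_B3d := by
  intro Λ Y hB S1 Ks Ts ω M W1 hS hK hT hM hω hW
  have hY := B3d.one_le hB
  have key : ∀ k ∈ Ks, ∀ t ∈ Ts, ∑ v ∈ S1, ∑ k' ∈ Ks, ∑ t' ∈ Ts, ∑ v' ∈ S1,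
      (if k' * t' * v - k * t * v' = 0 then ‖ω t‖ * ‖ω t'‖ else 0) ≤
      ‖ω t‖ * (2 * Y ^ 2 * M * S1.card) := by
    intro k hk t ht
    have h1 : ∀ v' ∈ S1, ∑ v ∈ S1, ∑ k' ∈ Ks, ∑ t' ∈ Ts,
        (if k' * t' * v - k * t * v' = 0 then ‖ω t‖ * ‖ω t'‖ else 0) ≤
        ‖ω t‖ * M * (2 * Y ^ 2) := by
      intro v' hv'
      have h2 : k * t * v' ≠ 0 :=
        mul_ne_zero (mul_ne_zero (hK k hk).1 (hT t ht).1) (by exact_mod_cast (hS v' hv').1.ne')
      have h3 : |((k * t * v' : ℤ) : ℝ)| ≤ Y ^ (900 * Λ) := by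
        push_cast
        rw [abs_mul, abs_mul, Nat.abs_cast, show 900 * Λ = 300 * Λ + 300 * Λ + 300 * Λ by ring,
          pow_add, pow_add]
        have := (hK k hk).2
        have := (hT t ht).2
        have := (hS v' hv').2
        gcongr
      refine le_trans ?_ (mul_le_mul_of_nonneg_left (B3d.cnt hG hB Ks Ts S1 h2 h3) (by positivity))
      simp only [mul_sum]
      refine sum_le_sum fun v _ => sum_le_sum fun k' _ => sum_le_sum fun t' _ => ?_
      simp only [sub_eq_zero]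
      split_ifs
      · rw [mul_one]; exact mul_le_mul_of_nonneg_left (hω t') (norm_nonneg _)
      · simp
    calc _ = ∑ v' ∈ S1, ∑ v ∈ S1, ∑ k' ∈ Ks, ∑ t' ∈ Ts,
          (if k' * t' * v - k * t * v' = 0 then ‖ω t‖ * ‖ω t'‖ else 0) := by
          rw [sum_comm (s := S1) (t := S1)]
          refine sum_congr rfl fun v _ => ?_
          rw [sum_comm (s := S1)]
          exact sum_congr rfl fun k' _ => sum_comm
      _ ≤ ∑ _v' ∈ S1, ‖ω t‖ * M * (2 * Y ^ 2) := sum_le_sum h1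
      _ = _ := by rw [sum_const, nsmul_eq_mul]; ring
  simp only [sum_product]
  calc _ ≤ ∑ _k ∈ Ks, ∑ t ∈ Ts, ‖ω t‖ * (2 * Y ^ 2 * M * S1.card) :=
        sum_le_sum fun k hk => sum_le_sum fun t ht => key k hk t ht
    _ = Ks.card * ((∑ t ∈ Ts, ‖ω t‖) * (2 * Y ^ 2 * M * S1.card)) := by
        rw [sum_const, nsmul_eq_mul, sum_mul]
    _ ≤ Ks.card * (W1 * (2 * Y ^ 2 * M * S1.card)) := by gcongr
    _ = _ := by ring

end Pool.Agent.Lib.AP
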