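import Pool.Agent.Lib.AP.B_B3d

open Finset Classical

noncomputable section

namespace Pool.Agent.Lib.AP

namespace B3o

theorem g1 {a s r : ℤ} {v w : ℕ} (h : a = r * v - s * w ∨ a = s * w - r * v) :
    Nat.gcd a.natAbs v ∣ Nat.gcd s.natAbs v * Nat.gcd v w := by
  have h1 : ((Nat.gcd a.natAbs v : ℕ) : ℤ) ∣ a := Int.natCast_dvd.2 (Nat.gcd_dvd_left _ _)
  have h2 : ((Nat.gcd a.natAbs v : ℕ) : ℤ) ∣ r * v :=
    Dvd.dvd.mul_left (Int.natCast_dvd_natCast.2 (Nat.gcd_dvd_right _ _)) _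
  have h3 : ((Nat.gcd a.natAbs v : ℕ) : ℤ) ∣ s * w := by
    rcases h with h | h
    · have h4 := dvd_sub h2 h1
      rwa [show r * v - a = s * w by rw [h]; ring] at h4
    · have h4 := dvd_add h2 h1
      rwa [show r * v + a = s * w by rw [h]; ring] at h4
  have h5 : Nat.gcd a.natAbs v ∣ s.natAbs * w := by
    have h6 := Int.natCast_dvd.1 h3
    rwa [Int.natAbs_mul, Int.natAbs_natCast] at h6
  rw [Nat.gcd_comm s.natAbs v]
  exact (Nat.dvd_gcd (Nat.gcd_dvd_right _ _) h5).trans (Nat.gcd_mul_right_dvd_mul_gcd _ _ _)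

theorem g2 (s r : ℤ) {v w u : ℕ} (hv : 0 < v) (hw : 0 < w) (hu : 0 < u) :
    √(Int.gcd (r * v - s * w) ((v * w * u : ℕ) : ℤ) : ℝ) ≤
      Nat.gcd v w * ((Nat.gcd s.natAbs v + Nat.gcd r.natAbs w) / 2) *
        Nat.gcd (r * v - s * w).natAbs u := by
  set a := r * v - s * w with ha
  have h1 : Int.gcd a ((v * w * u : ℕ) : ℤ) ∣ Nat.gcd s.natAbs v * Nat.gcd v w *
      (Nat.gcd r.natAbs w * Nat.gcd w v) * Nat.gcd a.natAbs u := by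
    rw [Int.gcd, Int.natAbs_natCast]
    refine (Nat.gcd_mul_right_dvd_mul_gcd _ _ _).trans (Nat.mul_dvd_mul_right ?_ _)
    exact (Nat.gcd_mul_right_dvd_mul_gcd _ _ _).trans
      (Nat.mul_dvd_mul (g1 (Or.inl ha)) (g1 (Or.inr ha)))
  have p1 := Nat.gcd_pos_of_pos_right s.natAbs hv
  have p2 := Nat.gcd_pos_of_pos_right v hw
  have p3 := Nat.gcd_pos_of_pos_right r.natAbs hw
  have p4 := Nat.gcd_pos_of_pos_right a.natAbs hu
  rw [Nat.gcd_comm w v] at h1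
  have h2 : (Int.gcd a ((v * w * u : ℕ) : ℤ) : ℝ) ≤ (Nat.gcd s.natAbs v : ℝ) * Nat.gcd v w *
      (Nat.gcd r.natAbs w * Nat.gcd v w) * Nat.gcd a.natAbs u := by
    exact_mod_cast Nat.le_of_dvd (by positivity) h1
  have h3 : (1 : ℝ) ≤ Nat.gcd a.natAbs u := by exact_mod_cast p4
  refine Real.sqrt_le_iff.2 ⟨by positivity, h2.trans ?_⟩
  generalize (Nat.gcd s.natAbs v : ℝ) = x
  generalize (Nat.gcd r.natAbs w : ℝ) = y
  generalize (Nat.gcd v w : ℝ) = d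
  generalize (Nat.gcd a.natAbs u : ℝ) = g at h3
  have h4 : x * y ≤ ((x + y) / 2) ^ 2 := by nlinarith [sq_nonneg (x - y)]
  calc x * d * (y * d) * g = d ^ 2 * (x * y) * g := by ring
    _ ≤ d ^ 2 * ((x + y) / 2) ^ 2 * g := by gcongr
    _ ≤ d ^ 2 * ((x + y) / 2) ^ 2 * g ^ 2 := by gcongr; nlinarith
    _ = _ := by ring

theorem g3 (hG : St_GCD) {Λ : ℕ} {Y : ℝ} (hB : Big Λ Y) {a : ℕ} (h0 : a ≠ 0)
    (ha : (a : ℝ) ≤ Y ^ (2000 * Λ)) (V : ℕ) : ∑ v ∈ Icc 1 V, (Nat.gcd a v : ℝ) ≤ V * Y := by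
  have h1 : ∑ v ∈ Icc 1 V, (Nat.gcd a v : ℝ) ≤ V * a.divisors.card := by
    exact_mod_cast hG.one a V h0
  exact h1.trans (mul_le_mul_of_nonneg_left (hB.div a ha) (Nat.cast_nonneg _))

theorem g4 (hG : St_GCD) {Λ : ℕ} {Y : ℝ} (hB : Big Λ Y) {a V : ℕ} (h0 : a ≠ 0)
    (ha : (a : ℝ) ≤ Y ^ (2000 * Λ)) (hV : (V : ℝ) ≤ Y ^ (2000 * Λ)) :
    ∑ v ∈ Icc 1 V, ∑ w ∈ Icc 1 V, (Nat.gcd v w : ℝ) * Nat.gcd a v ≤ (V * Y) ^ 2 := by
  have hY := B3d.one_le hB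
  calc _ ≤ ∑ v ∈ Icc 1 V, V * Y * (Nat.gcd a v : ℝ) := by
        refine sum_le_sum fun v hv => ?_
        rw [← sum_mul]
        obtain ⟨h1, h2⟩ := mem_Icc.1 hv
        exact mul_le_mul_of_nonneg_right (g3 hG hB (by omega)
          (le_trans (by exact_mod_cast h2) hV) V) (Nat.cast_nonneg _)
    _ ≤ V * Y * (V * Y) := by
        rw [← mul_sum]
        exact mul_le_mul_of_nonneg_left (g3 hG hB h0 ha V) (by positivity)
    _ = _ := by ring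

theorem main (hG : St_GCD) {Λ : ℕ} {Y : ℝ} (hB : Big Λ Y) (V U : ℕ) {s r : ℤ} (hs : s ≠ 0)
    (hr : r ≠ 0) (hV : (V : ℝ) ≤ Y ^ (300 * Λ)) (hs' : |(s : ℝ)| ≤ Y ^ (600 * Λ))
    (hr' : |(r : ℝ)| ≤ Y ^ (600 * Λ)) :
    ∑ v ∈ Icc 1 V, ∑ w ∈ Icc 1 V, ∑ u ∈ Icc 1 U, (if r * v - s * w = 0 then 0 else
      √(Int.gcd (r * v - s * w) ((v * w * u : ℕ) : ℤ) : ℝ)) ≤ Y ^ 3 * (V : ℝ) ^ 2 * U := by
  have hY := B3d.one_le hB
  have hl := hB.lam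
  have hY2 : 2 ≤ Y := le_trans (le_self_pow₀ one_le_two (by omega)) hB.two
  have hn : ∀ s : ℤ, |(s : ℝ)| ≤ Y ^ (600 * Λ) → (s.natAbs : ℝ) ≤ Y ^ (2000 * Λ) := fun s h => by
    rw [Nat.cast_natAbs, Int.cast_abs]
    exact h.trans (pow_le_pow_right₀ hY (by omega))
  have hV' : (V : ℝ) ≤ Y ^ (2000 * Λ) := hV.trans (pow_le_pow_right₀ hY (by omega))
  have h1 : ∀ v ∈ Icc 1 V, ∀ w ∈ Icc 1 V, ∑ u ∈ Icc 1 U, (if r * v - s * w = 0 then 0 else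
      √(Int.gcd (r * v - s * w) ((v * w * u : ℕ) : ℤ) : ℝ)) ≤
      (Nat.gcd v w * Nat.gcd s.natAbs v + Nat.gcd w v * Nat.gcd r.natAbs w) * (U * Y / 2) := by
    intro v hv w hw
    obtain ⟨v1, v2⟩ := mem_Icc.1 hv
    obtain ⟨w1, w2⟩ := mem_Icc.1 hw
    split_ifs with h
    · rw [sum_const_zero]; positivity
    · have h2 : (((r * v - s * w).natAbs : ℕ) : ℝ) ≤ Y ^ (2000 * Λ) := by
        rw [Nat.cast_natAbs, Int.cast_abs]
        push_cast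
        have h3 : (v : ℝ) ≤ Y ^ (300 * Λ) := le_trans (by exact_mod_cast v2) hV
        have h4 : (w : ℝ) ≤ Y ^ (300 * Λ) := le_trans (by exact_mod_cast w2) hV
        calc _ ≤ |(r : ℝ)| * v + |(s : ℝ)| * w := by
              refine (abs_sub _ _).trans_eq ?_
              rw [abs_mul, abs_mul, Nat.abs_cast, Nat.abs_cast]
          _ ≤ Y ^ (600 * Λ) * Y ^ (300 * Λ) + Y ^ (600 * Λ) * Y ^ (300 * Λ) := by gcongr
          _ = 2 * Y ^ (900 * Λ) := by rw [← pow_add]; ring_nf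
          _ ≤ Y * Y ^ (900 * Λ) := by gcongr
          _ ≤ _ := by rw [← pow_succ']; exact pow_le_pow_right₀ hY (by omega)
      refine (sum_le_sum fun u hu => g2 s r v1 w1 (mem_Icc.1 hu).1).trans ?_
      rw [← mul_sum, Nat.gcd_comm w v]
      refine (mul_le_mul_of_nonneg_left (g3 hG hB (Int.natAbs_ne_zero.2 h) h2 U)
        (by positivity)).trans_eq (by ring)
  refine (sum_le_sum fun v hv => sum_le_sum (h1 v hv)).trans ?_
  simp only [← sum_mul, sum_add_distrib]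
  have h5 := g4 hG hB (Int.natAbs_ne_zero.2 hs) (hn s hs') hV'
  have h6 := g4 hG hB (Int.natAbs_ne_zero.2 hr) (hn r hr') hV'
  rw [sum_comm] at h6
  simp only [← sum_mul] at h5
  calc _ ≤ ((V * Y) ^ 2 + (V * Y) ^ 2) * (U * Y / 2) := by gcongr
    _ = _ := by ring

end B3o

theorem st_B3o (hG : St_GCD) : St_B3o := by
  intro Λ Y hB V U Ks Ts ω W1 hV hK hT hW
  have hY := B3d.one_le hB
  have h0 : ∀ k ∈ Ks, ∀ t ∈ Ts, k * t ≠ 0 ∧ |((k * t : ℤ) : ℝ)| ≤ Y ^ (600 * Λ) := by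
    intro k hk t ht
    refine ⟨mul_ne_zero (hK k hk).1 (hT t ht).1, ?_⟩
    rw [Int.cast_mul, abs_mul, show 600 * Λ = 300 * Λ + 300 * Λ by ring, pow_add]
    have := (hK k hk).2
    have := (hT t ht).2
    gcongr
  have h1 : 0 ≤ ∑ t ∈ Ts, ‖ω t‖ := sum_nonneg fun _ _ => norm_nonneg _
  calc _ = ∑ p ∈ Ks ×ˢ Ts, ∑ q ∈ Ks ×ˢ Ts, ‖ω p.2‖ * ‖ω q.2‖ * ∑ v ∈ Icc 1 V, ∑ w ∈ Icc 1 V,
        ∑ u ∈ Icc 1 U, (if q.1 * q.2 * v - p.1 * p.2 * w = 0 then 0 else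
          √(Int.gcd (q.1 * q.2 * v - p.1 * p.2 * w) ((v * w * u : ℕ) : ℤ) : ℝ)) := by
        rw [sum_comm]
        simp only [sum_comm (s := Icc 1 U) (t := Ks ×ˢ Ts ×ˢ Icc 1 V)]
        simp only [sum_product, mul_sum, mul_ite, mul_zero]
        refine sum_congr rfl fun k _ => sum_congr rfl fun t _ => ?_
        rw [sum_comm]
        exact sum_congr rfl fun k' _ => sum_comm
    _ ≤ ∑ p ∈ Ks ×ˢ Ts, ∑ q ∈ Ks ×ˢ Ts, ‖ω p.2‖ * ‖ω q.2‖ * (Y ^ 3 * (V : ℝ) ^ 2 * U) := by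
        refine sum_le_sum fun p hp => sum_le_sum fun q hq => ?_
        obtain ⟨a1, a2⟩ := h0 _ (mem_product.1 hp).1 _ (mem_product.1 hp).2
        obtain ⟨b1, b2⟩ := h0 _ (mem_product.1 hq).1 _ (mem_product.1 hq).2
        exact mul_le_mul_of_nonneg_left (B3o.main hG hB V U a1 b1 hV a2 b2) (by positivity)
    _ = (Ks.card * ∑ t ∈ Ts, ‖ω t‖) ^ 2 * (Y ^ 3 * (V : ℝ) ^ 2 * U) := by
        simp only [← sum_mul, ← mul_sum]
        simp only [sum_product, sum_const, nsmul_eq_mul]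
        ring
    _ ≤ (Ks.card * W1) ^ 2 * (Y ^ 3 * (V : ℝ) ^ 2 * U) := by gcongr
    _ = _ := by ring

end Pool.Agent.Lib.AP
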