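import Pool.Agent.Lib.AP.Blue
import Pool.Agent.Lib.MP_fb430f_co.Circle

/-! Block BIG: a large base absorbs all the constants. -/

open Finset Classical

noncomputable section

namespace Pool.Agent.Lib.AP

namespace BIGB

theorem tau {ε : ℝ} (hε : 0 < ε) :
    ∃ C : ℝ, 0 < C ∧ ∀ m : ℕ, (m.divisors.card : ℝ) ≤ C * (m : ℝ) ^ ε := by
  obtain ⟨C, hC, h⟩ := Pool.Agent.Lib.MP_fb430f_co.div_bound hε
  refine ⟨C, hC, fun m => ?_⟩
  rcases eq_or_ne m 0 with rfl | hm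
  · simp only [Nat.divisors_zero, Finset.card_empty, Nat.cast_zero]
    positivity
  refine le_trans ?_ (h m hm)
  rw [Nat.card_divisors hm]
  exact_mod_cast Finset.prod_le_prod' fun p _ => by omega

theorem small {Λ : ℕ} (hΛ : 0 < Λ) {Y x : ℝ} (hY : 0 ≤ Y) (hx : 0 ≤ x) (h : x ≤ Y ^ (2000 * Λ)) :
    x ^ (1 / (4000 * Λ) : ℝ) ≤ √Y := by
  have hΛ' : (0 : ℝ) < Λ := by exact_mod_cast hΛ
  refine (Real.rpow_le_rpow hx h (by positivity)).trans (le_of_eq ?_)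
  rw [← Real.rpow_natCast, ← Real.rpow_mul hY, Real.sqrt_eq_rpow]
  have e : ((2000 * Λ : ℕ) : ℝ) * (1 / (4000 * Λ)) = 1 / 2 := by
    push_cast
    field_simp
    norm_num
  rw [e]

end BIGB

theorem st_BIG (hKW : KW.St_KW) : St_BIG := by
  intro Λ hΛ
  have hΛ0 : 0 < Λ := by omega
  have hΛ' : (0 : ℝ) < Λ := by exact_mod_cast hΛ0
  have hε : (0 : ℝ) < 1 / (4000 * Λ) := by positivity
  obtain ⟨C, hC0, hC⟩ := BIGB.tau hε
  obtain ⟨B, hB⟩ := hKW _ hε
  have hs := Real.tendsto_sqrt_atTop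
  filter_upwards [Filter.eventually_ge_atTop ((2 : ℝ) ^ (300 * Λ)), Filter.eventually_gt_atTop 0,
    hs.eventually_ge_atTop C, hs.eventually_ge_atTop B,
    hs.eventually_ge_atTop (1000 + 4000000 * Λ)] with Y h2 h0 h3 h4 h5
  have hq : √Y * √Y = Y := Real.mul_self_sqrt h0.le
  have hp : 0 < √Y := Real.sqrt_pos.2 h0
  refine ⟨hΛ, h2, ?_, fun n hn => ?_, fun n _ hn u v => ?_⟩
  · have a : Real.log Y = 2 * Real.log √Y := by
      rw [Real.log_sqrt h0.le]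
      ring
    have b := Real.log_le_sub_one_of_pos hp
    rw [Real.log_pow, a]
    push_cast
    have c : (Λ : ℝ) * Real.log √Y ≤ Λ * √Y := mul_le_mul_of_nonneg_left (by linarith) hΛ'.le
    have d := mul_le_mul_of_nonneg_right h5 hp.le
    nlinarith
  · calc (n.divisors.card : ℝ) ≤ C * (n : ℝ) ^ (1 / (4000 * Λ) : ℝ) := hC n
      _ ≤ √Y * √Y := mul_le_mul h3 (BIGB.small hΛ0 h0.le (Nat.cast_nonneg n) hn)
          (by positivity) hp.le
      _ = Y := hq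
  · refine (hB n u v).trans ?_
    rw [Real.rpow_add (Nat.cast_pos.2 (NeZero.pos n)), ← Real.sqrt_eq_rpow, mul_comm √n,
      ← mul_assoc]
    refine mul_le_mul_of_nonneg_right (mul_le_mul_of_nonneg_right ?_ (Real.sqrt_nonneg _))
      (Real.sqrt_nonneg _)
    calc B * (n : ℝ) ^ (1 / (4000 * Λ) : ℝ) ≤ √Y * (n : ℝ) ^ (1 / (4000 * Λ) : ℝ) :=
          mul_le_mul_of_nonneg_right h4 (by positivity)
      _ ≤ √Y * √Y := mul_le_mul_of_nonneg_left
          (BIGB.small hΛ0 h0.le (Nat.cast_nonneg n) hn) hp.le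
      _ = Y := hq

end Pool.Agent.Lib.AP
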