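import Pool.Agent.Lib.AP.B_OM

/-! The box estimate with a free variable. -/

open Finset

noncomputable section

namespace Pool.Agent.Lib.AP

namespace BX2

theorem collect (b : ℕ → ℂ) (lo hi : ℕ → ℕ) (θ : ℝ) (R : ℕ) (A : Finset ℕ) (G : ℕ → ℂ)
    (h : ∀ r ∈ Icc 1 R, ∀ κ ∈ Ioc (lo r) (hi r), r * κ ∈ A) :
    ∑ r ∈ Icc 1 R, ∑ κ ∈ Ioc (lo r) (hi r), b r * ee (θ * (r * κ : ℕ)) * G (r * κ) =
      ∑ n ∈ A, col2 (fun r => if r ∈ Icc 1 R then b r else 0) lo hi θ n * G n := by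
  have e : ∀ n ∈ A, col2 (fun r => if r ∈ Icc 1 R then b r else 0) lo hi θ n * G n =
      ∑ x ∈ n.divisorsAntidiagonal.filter (fun x => x.1 ∈ Icc 1 R ∧ x.2 ∈ Ioc (lo x.1) (hi x.1)),
        b x.1 * ee (θ * n) * G n := fun n _ => by
    rw [col2, sum_mul, sum_filter]
    refine sum_congr rfl fun x _ => ?_
    by_cases h1 : x.1 ∈ Icc 1 R <;> by_cases h2 : x.2 ∈ Ioc (lo x.1) (hi x.1) <;>
      simp only [h1, h2, if_true, if_false, and_self, and_false, false_and, zero_mul]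
  rw [sum_congr rfl e, sum_sigma', sum_sigma']
  refine sum_nbij' (fun x => ⟨x.1 * x.2, (x.1, x.2)⟩) (fun y => ⟨y.2.1, y.2.2⟩) ?_ ?_ ?_ ?_ ?_
  · rintro ⟨r, κ⟩ hx
    obtain ⟨h1, h2⟩ := mem_sigma.1 hx
    refine mem_sigma.2 ⟨h r h1 κ h2, mem_filter.2 ⟨Nat.mem_divisorsAntidiagonal.2 ⟨rfl, ?_⟩,
      h1, h2⟩⟩
    have h3 := (mem_Icc.1 h1).1
    have h4 := (mem_Ioc.1 h2).1
    exact Nat.mul_ne_zero (by dsimp only at h3 ⊢; omega) (by dsimp only at h4 ⊢; omega)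
  · rintro ⟨n, r, κ⟩ hy
    exact mem_sigma.2 (mem_filter.1 (mem_sigma.1 hy).2).2
  · rintro ⟨r, κ⟩ _
    rfl
  · rintro ⟨n, r, κ⟩ hy
    have := (Nat.mem_divisorsAntidiagonal.1 (mem_filter.1 (mem_sigma.1 hy).2).1).1
    dsimp only at this
    subst this
    rfl
  · rintro ⟨r, κ⟩ _
    rfl

theorem cauchy (M : ℕ) (a S : ℕ → ℂ) (ha : ∀ m, ‖a m‖ ≤ 1) :
    ‖∑ m ∈ Icc 1 M, a m * S m‖ ^ 2 ≤ M * ∑ m ∈ Icc 1 M, ‖S m‖ ^ 2 := by
  have h1 : ‖∑ m ∈ Icc 1 M, a m * S m‖ ≤ ∑ m ∈ Icc 1 M, ‖S m‖ :=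
    (norm_sum_le _ _).trans (sum_le_sum fun m _ => by
      rw [norm_mul]
      exact mul_le_of_le_one_left (norm_nonneg _) (ha m))
  have h2 := sq_sum_le_card_mul_sum_sq (s := Icc 1 M) (f := fun m => ‖S m‖)
  rw [Nat.card_Icc, Nat.add_sub_cancel] at h2
  exact (pow_le_pow_left₀ (norm_nonneg _) h1 2).trans h2

/-- the last numerical step -/
theorem last {Λ : ℕ} {Y η s M N B : ℝ} (hY : 192 ≤ Y) (hη : 1 ≤ η * Y ^ (90 * Λ + 4))
    (hMN : M * N ≤ Y ^ (270 * Λ + 1)) (hB : M * B * Y ^ 200 ≤ Y ^ (450 * Λ))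
    (h : s ^ 2 ≤ M * (η ^ 2 * N * Y ^ (270 * Λ) / Y ^ 900 + 2 * B / Y ^ (90 * Λ + 1))) :
    s * Y ^ 80 ≤ η * Y ^ (270 * Λ) := by
  have hY0 : 0 < Y := by linarith
  have hY1 : 1 ≤ Y := by linarith
  have hη0 : 0 < η := (mul_pos_iff_of_pos_right (pow_pos hY0 _)).1 (one_pos.trans_le hη)
  refine le_of_sq_le_sq ?_ (by positivity)
  have e1 : M * (η ^ 2 * N * Y ^ (270 * Λ) / Y ^ 900) * (Y ^ 80) ^ 2 ≤
      (η * Y ^ (270 * Λ)) ^ 2 / 2 := by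
    have e : M * (η ^ 2 * N * Y ^ (270 * Λ) / Y ^ 900) * (Y ^ 80) ^ 2 =
        η ^ 2 * Y ^ (270 * Λ) * (M * N) / Y ^ 740 := by
      field_simp
    rw [e, div_le_div_iff₀ (by positivity) two_pos]
    have h2 : Y * 2 ≤ Y ^ 740 :=
      calc Y * 2 ≤ Y * Y := by gcongr; linarith
        _ = Y ^ 2 := by ring
        _ ≤ _ := pow_le_pow_right₀ hY1 (by norm_num)
    calc η ^ 2 * Y ^ (270 * Λ) * (M * N) * 2 ≤ η ^ 2 * Y ^ (270 * Λ) * Y ^ (270 * Λ + 1) * 2 := by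
          gcongr
      _ = (η * Y ^ (270 * Λ)) ^ 2 * (Y * 2) := by ring
      _ ≤ _ := by gcongr
  have e2 : M * (2 * B / Y ^ (90 * Λ + 1)) * (Y ^ 80) ^ 2 ≤ (η * Y ^ (270 * Λ)) ^ 2 / 2 := by
    have e : M * (2 * B / Y ^ (90 * Λ + 1)) * (Y ^ 80) ^ 2 =
        2 * (M * B * Y ^ 200) / (Y ^ (90 * Λ + 1) * Y ^ 40) := by
      field_simp
    rw [e, div_le_div_iff₀ (by positivity) two_pos]
    have h2 : 4 ≤ Y ^ 33 := (by linarith : 4 ≤ Y).trans (le_self_pow₀ hY1 (by norm_num))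
    calc 2 * (M * B * Y ^ 200) * 2 ≤ 2 * Y ^ (450 * Λ) * 2 := by gcongr
      _ = Y ^ (450 * Λ) * 1 ^ 2 * 4 := by ring
      _ ≤ Y ^ (450 * Λ) * (η * Y ^ (90 * Λ + 4)) ^ 2 * Y ^ 33 := by gcongr
      _ = _ := by ring
  calc (s * Y ^ 80) ^ 2 = s ^ 2 * (Y ^ 80) ^ 2 := by ring
    _ ≤ M * (η ^ 2 * N * Y ^ (270 * Λ) / Y ^ 900 + 2 * B / Y ^ (90 * Λ + 1)) * (Y ^ 80) ^ 2 := by
      gcongr
    _ ≤ _ := by
      rw [mul_add, add_mul]
      linarith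

end BX2

theorem st_BX2 (hT : St_TOOL) (hD : St_DSP) (hS : St_S2) (hO : St_OM) : St_BX2 := by
  intro Λ Y α q K hB hq M N R θ0 a b lo hi hb hR ha hb1 hr
  have hY := OM.big192 hB
  have hl := hB.lam
  have hY0 : 0 < Y := by linarith
  have hY1 : 1 ≤ Y := by linarith
  have hN : 0 < N := by
    have h1 : (0 : ℝ) < 4 * N := (pow_pos hY0 _).trans_le hb.lo
    have h2 : (0 : ℝ) < N := by linarith
    exact_mod_cast h2
  have hN0 : (0 : ℝ) ≤ N := Nat.cast_nonneg _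
  set b' : ℕ → ℂ := fun r => if r ∈ Icc 1 R then b r else 0 with hb'
  have b1 : ∀ r, ‖b' r‖ ≤ 1 := fun r => by
    simp only [hb']
    split_ifs
    · exact hb1 r
    · simp
  have b2 : ∀ r κ, b' r ≠ 0 → κ ∈ Ioc (lo r) (hi r) → r ≤ R ∧ r * κ ∈ Ico N (4 * N) :=
    fun r κ h hκ => by
      have h1 : r ∈ Icc 1 R := by
        by_contra h1
        exact h (if_neg h1)
      exact ⟨(mem_Icc.1 h1).2, hr r h1 κ hκ⟩
  have c1 : ∀ n, col2 b' lo hi θ0 n ≠ 0 → n ∈ Ico N (4 * N) := fun n h => by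
    obtain ⟨x, hx, h1⟩ := exists_ne_zero_of_sum_ne_zero h
    have h2 : x.2 ∈ Ioc (lo x.1) (hi x.1) := by
      by_contra h2
      exact h1 (if_neg h2)
    rw [if_pos h2] at h1
    rw [← (Nat.mem_divisorsAntidiagonal.1 hx).1]
    exact (b2 _ _ (left_ne_zero_of_mul h1) h2).2
  have c2 : ∀ n, ‖col2 b' lo hi θ0 n‖ ≤ Y := fun n => by
    by_cases h : col2 b' lo hi θ0 n = 0
    · rw [h, norm_zero]
      exact hY0.le
    have h1 : (n : ℝ) ≤ 4 * N := by exact_mod_cast (mem_Ico.1 (c1 n h)).2.le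
    have h2 : (n : ℝ) ≤ Y ^ (2000 * Λ) :=
      calc (n : ℝ) ≤ Y * Y ^ (120 * Λ) := h1.trans (by
            have := hb.hi
            gcongr
            linarith)
        _ = Y ^ (120 * Λ + 1) := by ring
        _ ≤ _ := pow_le_pow_right₀ hY1 (by omega)
    refine le_trans ?_ (hB.div n h2)
    refine (norm_sum_le _ _).trans ((sum_le_card_nsmul _ _ 1 fun x _ => ?_).trans ?_)
    · split_ifs
      · rw [norm_mul, hT.norm, mul_one]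
        exact b1 _
      · simp
    · rw [nsmul_eq_mul, mul_one, ← Nat.map_div_right_divisors, card_map]
  have hK : (K0 Λ Y N : ℝ) ≤ 32 * N / Y ^ (90 * Λ + 1) := Nat.floor_le (by positivity)
  have hKN : K0 Λ Y N ≤ N := by
    have h1 : (K0 Λ Y N : ℝ) ≤ N := by
      refine hK.trans ?_
      rw [div_le_iff₀ (by positivity), mul_comm]
      have : 32 ≤ Y ^ (90 * Λ + 1) := (by linarith : 32 ≤ Y).trans (le_self_pow₀ hY1 (by omega))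
      gcongr
    exact_mod_cast h1
  have hTb : ((32 * K.H * N : ℕ) : ℝ) ≤ Y ^ (300 * Λ) := by
    push_cast
    calc (32 : ℝ) * K.H * N ≤ Y * Y ^ (90 * Λ + 3) * Y ^ (120 * Λ) := by
          have := hb.hi
          have := K.Hhi
          gcongr
          linarith
      _ = Y ^ (210 * Λ + 4) := by ring
      _ ≤ _ := pow_le_pow_right₀ hY1 (by omega)
  have h1 := hD Λ Y α q K hB hq M N (col2 b' lo hi θ0) _ hb c2 c1 fun θ h =>
    hS Λ Y hB N R (K0 Λ Y N) (32 * K.H * N) (N * Y ^ (90 * Λ + 5)) θ θ0 h b' lo hi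
      (K.om α M N) hN hb.hi hKN hTb b1 b2 (hO Λ Y α q K hB hq M N hb).2.2
  have e : ∑ m ∈ Icc 1 M, ∑ r ∈ Icc 1 R, ∑ κ ∈ Ioc (lo r) (hi r),
      a m * (b r * ee (θ0 * (r * κ : ℕ))) * K.D α (m * (r * κ)) =
      ∑ m ∈ Icc 1 M, a m * ∑ n ∈ Ico N (4 * N), col2 b' lo hi θ0 n * K.D α (m * n) := by
    refine sum_congr rfl fun m _ => ?_
    rw [← BX2.collect b lo hi θ0 R _ (fun n => K.D α (m * n)) hr, mul_sum]
    refine sum_congr rfl fun r _ => ?_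
    rw [mul_sum]
    exact sum_congr rfl fun κ _ => by ring
  have hZ : R * N * √(N : ℝ) * Y ^ 495 ≤ Y ^ (180 * Λ) := by
    refine le_of_sq_le_sq ?_ (by positivity)
    calc (R * N * √(N : ℝ) * Y ^ 495) ^ 2 = (R : ℝ) ^ 2 * (N ^ 2 * √(N : ℝ) ^ 2) * Y ^ 990 := by ring
      _ = (R : ℝ) ^ 2 * (N : ℝ) ^ 3 * Y ^ 990 := by
        rw [Real.sq_sqrt hN0]
        ring
      _ ≤ Y ^ (360 * Λ) := hR
      _ = _ := by ring
  rw [e]
  refine BX2.last hY K.ηlo hb.mn ?_ ((BX2.cauchy M a _ ha).trans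
    (mul_le_mul_of_nonneg_left h1 (Nat.cast_nonneg M)))
  refine le_of_mul_le_mul_right ?_ (pow_pos hY0 295)
  calc M * (Y ^ 10 * R * (N * Y ^ (90 * Λ + 5)) * (K0 Λ Y N : ℝ) * √(N : ℝ)) * Y ^ 200 * Y ^ 295
      ≤ M * (Y ^ 10 * R * (N * Y ^ (90 * Λ + 5)) * (32 * N / Y ^ (90 * Λ + 1)) * √(N : ℝ)) *
        Y ^ 200 * Y ^ 295 := by gcongr
    _ = 32 * Y ^ 14 * (M * N) * (R * N * √(N : ℝ) * Y ^ 495) := by
      field_simp
      ring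
    _ ≤ Y * Y ^ 14 * Y ^ (270 * Λ + 1) * Y ^ (180 * Λ) := by
      have := hb.mn
      gcongr
      linarith
    _ = Y ^ (450 * Λ) * Y ^ 16 := by ring
    _ ≤ _ := by
      have := pow_le_pow_right₀ hY1 (by norm_num : 16 ≤ 295)
      gcongr

end Pool.Agent.Lib.AP
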