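import Pool.Agent.Lib.AP.B_W1

/-! The trilinear estimate on one box. -/

open Finset Classical

noncomputable section

namespace Pool.Agent.Lib.AP

namespace BX3

variable {Λ : ℕ} {Y : ℝ}

lemma Y32 (hB : Big Λ Y) : 32 ≤ Y :=
  le_trans (by
    have := hB.lam
    calc (32 : ℝ) = 2 ^ 5 := by norm_num
      _ ≤ 2 ^ (300 * Λ) := pow_le_pow_right₀ one_le_two (by omega)) hB.two

/-- Cauchy's inequality and the dispersion bound -/
lemma core (hD : St_DSP) {α : ℝ} {q : ℕ} (K : Ker Λ Y) (hB : Big Λ Y) (hDio : Dio Λ Y α q)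
    (M N : ℕ) (a β : ℕ → ℂ) (B : ℝ) (hbox : Box Λ Y M N) (ha : ∀ m, ‖a m‖ ≤ 1)
    (hβ : ∀ n, ‖β n‖ ≤ Y) (hs : ∀ n, β n ≠ 0 → n ∈ Ico N (4 * N))
    (hBs : ∀ (θ : ℝ) (h : ℤ), ∑ g ∈ Icc 1 (4 * N), ‖Bs N (K0 Λ Y N / g) (32 * K.H * N)
      (fun n => β (g * n)) (K.om α M N g) θ h‖ ≤ B) (hMB : M * B * Y ^ 170 ≤ Y ^ (450 * Λ)) :
    ‖∑ m ∈ Icc 1 M, a m * ∑ n ∈ Ico N (4 * N), β n * K.D α (m * n)‖ * Y ^ 80 ≤
      K.η * Y ^ (270 * Λ) := by
  have h32 := Y32 hB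
  have hY1 : (1 : ℝ) ≤ Y := by linarith
  have hY0 : (0 : ℝ) < Y := by linarith
  have hη : 0 ≤ K.η := (norm_nonneg _).trans (K.cle 0)
  have h1 := hD Λ Y α q K hB hDio M N β B hbox hβ hs hBs
  set S := ‖∑ m ∈ Icc 1 M, a m * ∑ n ∈ Ico N (4 * N), β n * K.D α (m * n)‖ with hS
  have h2 : S ≤ ∑ m ∈ Icc 1 M, ‖∑ n ∈ Ico N (4 * N), β n * K.D α (m * n)‖ := by
    refine (norm_sum_le _ _).trans (sum_le_sum fun m _ => ?_)
    rw [norm_mul]
    exact mul_le_of_le_one_left (norm_nonneg _) (ha m)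
  have h3 : S ^ 2 ≤ M * (K.η ^ 2 * N * Y ^ (270 * Λ) / Y ^ 900 + 2 * B / Y ^ (90 * Λ + 1)) := by
    refine (pow_le_pow_left₀ (norm_nonneg _) h2 2).trans (sq_sum_le_card_mul_sum_sq.trans ?_)
    rw [Nat.card_Icc, Nat.add_sub_cancel]
    exact mul_le_mul_of_nonneg_left h1 (Nat.cast_nonneg _)
  have c1 : M * (K.η ^ 2 * N * Y ^ (270 * Λ) / Y ^ 900) * Y ^ 160 * 2 ≤
      (K.η * Y ^ (270 * Λ)) ^ 2 := by
    have e : M * (K.η ^ 2 * N * Y ^ (270 * Λ) / Y ^ 900) * Y ^ 160 * 2 =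
        K.η ^ 2 * Y ^ (270 * Λ) * (M * N * 2 / Y ^ 740) := by
      field_simp
    have : (M : ℝ) * N * 2 / Y ^ 740 ≤ Y ^ (270 * Λ) := by
      rw [div_le_iff₀ (by positivity)]
      calc (M : ℝ) * N * 2 ≤ Y ^ (270 * Λ + 1) * Y :=
            mul_le_mul hbox.mn (by linarith) (by norm_num) (by positivity)
        _ ≤ Y ^ (270 * Λ) * Y ^ 740 := by
            rw [← pow_succ, ← pow_add]
            exact pow_le_pow_right₀ hY1 (by omega)
    rw [e]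
    refine (mul_le_mul_of_nonneg_left this (by positivity)).trans (le_of_eq ?_)
    ring
  have c2 : M * (2 * B / Y ^ (90 * Λ + 1)) * Y ^ 160 * 2 ≤ (K.η * Y ^ (270 * Λ)) ^ 2 := by
    have e : M * (2 * B / Y ^ (90 * Λ + 1)) * Y ^ 160 * 2 =
        4 * (M * B * Y ^ 170) / (Y ^ (90 * Λ + 1) * Y ^ 10) := by
      field_simp
      ring
    rw [e, div_le_iff₀ (by positivity)]
    have d1 : 1 ≤ (K.η * Y ^ (90 * Λ + 4)) ^ 2 := one_le_pow₀ K.ηlo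
    have d2 : (4 : ℝ) ≤ Y ^ 3 := le_trans (by linarith) (le_self_pow₀ hY1 (by norm_num))
    calc 4 * (M * B * Y ^ 170) ≤ 4 * Y ^ (450 * Λ) := by linarith
      _ ≤ Y ^ 3 * Y ^ (450 * Λ) := mul_le_mul_of_nonneg_right d2 (by positivity)
      _ ≤ (K.η * Y ^ (90 * Λ + 4)) ^ 2 * (Y ^ 3 * Y ^ (450 * Λ)) :=
          le_mul_of_one_le_left (by positivity) d1
      _ = _ := by ring
  apply le_of_sq_le_sq _ (by positivity) |>.trans le_rfl
  have e : (S * Y ^ 80) ^ 2 = S ^ 2 * Y ^ 160 := by ring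
  have h4 := mul_le_mul_of_nonneg_right h3 (show 0 ≤ Y ^ 160 by positivity)
  rw [e]
  linarith

lemma K0_le (hB : Big Λ Y) (N : ℕ) :
    K0 Λ Y N ≤ N ∧ (N : ℝ) * Y ^ (90 * Λ + 5) * K0 Λ Y N ≤ (N : ℝ) ^ 2 * Y ^ 5 := by
  have h32 := Y32 hB
  have hY1 : (1 : ℝ) ≤ Y := by linarith
  have hY0 : (0 : ℝ) < Y := by linarith
  have h1 : (K0 Λ Y N : ℝ) * Y ^ (90 * Λ + 1) ≤ 32 * N :=
    (le_div_iff₀ (by positivity)).1 (Nat.floor_le (by positivity))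
  have hN : (0 : ℝ) ≤ N := Nat.cast_nonneg _
  have hK : (0 : ℝ) ≤ K0 Λ Y N := Nat.cast_nonneg _
  constructor
  · have h2 : (32 : ℝ) ≤ Y ^ (90 * Λ + 1) := h32.trans (le_self_pow₀ hY1 (by omega))
    have h3 := mul_le_mul_of_nonneg_left h2 hK
    have : (K0 Λ Y N : ℝ) ≤ N := by linarith
    exact_mod_cast this
  · calc (N : ℝ) * Y ^ (90 * Λ + 5) * K0 Λ Y N
        = N * Y ^ 4 * (K0 Λ Y N * Y ^ (90 * Λ + 1)) := by ring
      _ ≤ N * Y ^ 4 * (Y * N) := mul_le_mul_of_nonneg_left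
          (h1.trans (mul_le_mul_of_nonneg_right h32 hN)) (by positivity)
      _ = _ := by ring

lemma T_le (hB : Big Λ Y) (K : Ker Λ Y) {N : ℕ} (hN : (N : ℝ) ≤ Y ^ (120 * Λ)) :
    ((32 * K.H * N : ℕ) : ℝ) ≤ Y ^ (300 * Λ) := by
  have h32 := Y32 hB
  have hY1 : (1 : ℝ) ≤ Y := by linarith
  have hΛ := hB.lam
  push_cast
  calc (32 : ℝ) * K.H * N ≤ Y * Y ^ (90 * Λ + 3) * Y ^ (120 * Λ) :=
        mul_le_mul (mul_le_mul h32 K.Hhi (by positivity) (by positivity)) hN (by positivity)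
          (by positivity)
    _ ≤ Y ^ (300 * Λ) := by
        rw [← pow_succ', ← pow_add]
        exact pow_le_pow_right₀ hY1 (by omega)

lemma mem_box {U V x y : ℕ} (hx : x ∈ Ico V (2 * V)) (hy : y ∈ Ico U (2 * U)) :
    x * y ∈ Ico (U * V) (4 * (U * V)) := by
  rw [mem_Ico] at hx hy ⊢
  refine ⟨by rw [mul_comm U]; exact Nat.mul_le_mul hx.1 hy.1, ?_⟩
  calc x * y < 2 * V * (2 * U) := Nat.mul_lt_mul'' hx.2 hy.2
    _ = 4 * (U * V) := by ring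

lemma collect {U V : ℕ} (hN : 0 < U * V) (b : ℕ → ℕ → ℂ) (G : ℕ → ℂ) :
    ∑ x ∈ Ico V (2 * V), ∑ y ∈ Ico U (2 * U), b x y * G (x * y) =
      ∑ n ∈ Ico (U * V) (4 * (U * V)),
        col (fun x y => if x ∈ Ico V (2 * V) ∧ y ∈ Ico U (2 * U) then b x y else 0) n * G n := by
  rw [← sum_product', ← sum_fiberwise_of_maps_to (t := Ico (U * V) (4 * (U * V)))
    (g := fun x : ℕ × ℕ => x.1 * x.2)
    (fun x hx => mem_box (mem_product.1 hx).1 (mem_product.1 hx).2)]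
  refine sum_congr rfl fun n hn => ?_
  have hn0 : n ≠ 0 := by have := (mem_Ico.1 hn).1; omega
  unfold col
  rw [← sum_filter, sum_mul]
  refine sum_congr ?_ fun x hx => ?_
  · ext x
    simp only [mem_filter, mem_product, Nat.mem_divisorsAntidiagonal]
    tauto
  · rw [(Nat.mem_divisorsAntidiagonal.1 (mem_filter.1 hx).1).1]

end BX3

theorem st_BX3 (hG : St_GCD) (hD : St_DSP) (hS : St_S3) (hO : St_OM) : St_BX3 := by
  intro Λ Y α q K hB hDio M V U a b hbox hU hUV ha hb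
  have h32 := BX3.Y32 hB
  have hΛ := hB.lam
  have hY1 : (1 : ℝ) ≤ Y := by linarith
  have hY0 : (0 : ℝ) < Y := by linarith
  have hN : 0 < U * V := by
    have h1 : (0 : ℝ) < 4 * ((U * V : ℕ) : ℝ) := lt_of_lt_of_le (by positivity) hbox.lo
    have h2 : (0 : ℝ) < ((U * V : ℕ) : ℝ) := by linarith
    exact_mod_cast h2
  have hU0 : 0 < U := Nat.pos_of_mul_pos_right hN
  have hV0 : 0 < V := Nat.pos_of_mul_pos_left hN
  set b' : ℕ → ℕ → ℂ :=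
    fun x y => if x ∈ Ico V (2 * V) ∧ y ∈ Ico U (2 * U) then b x y else 0 with hb'
  have hb1 : ∀ x y, ‖b' x y‖ ≤ 1 := fun x y => by
    simp only [hb']
    split_ifs
    exacts [hb x y, by simp]
  have hb2 : ∀ x y, b' x y ≠ 0 → x ∈ Ico V (2 * V) ∧ y ∈ Ico U (2 * U) := fun x y h => by
    by_contra h'
    exact h (if_neg h')
  have hs : ∀ n, col b' n ≠ 0 → n ∈ Ico (U * V) (4 * (U * V)) := by
    intro n hn
    obtain ⟨x, hx, h⟩ := exists_ne_zero_of_sum_ne_zero hn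
    rw [← (Nat.mem_divisorsAntidiagonal.1 hx).1]
    exact BX3.mem_box (hb2 _ _ h).1 (hb2 _ _ h).2
  have hβ : ∀ n, ‖col b' n‖ ≤ Y := by
    intro n
    by_cases hn : col b' n = 0
    · rw [hn, norm_zero]
      exact hY0.le
    · refine (hG.col b' n hb1).trans (hB.div n ?_)
      have h1 : (n : ℝ) ≤ 4 * ((U * V : ℕ) : ℝ) := by exact_mod_cast (mem_Ico.1 (hs n hn)).2.le
      calc (n : ℝ) ≤ Y * Y ^ (120 * Λ) :=
            h1.trans (mul_le_mul (by linarith) hbox.hi (by positivity) hY0.le)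
        _ ≤ Y ^ (2000 * Λ) := by
            rw [← pow_succ']
            exact pow_le_pow_right₀ hY1 (by omega)
  obtain ⟨-, o2, o3⟩ := hO Λ Y α q K hB hDio M (U * V) hbox
  obtain ⟨k1, k2⟩ := BX3.K0_le hB (U * V)
  have e : ∑ m ∈ Icc 1 M, ∑ x ∈ Ico V (2 * V), ∑ y ∈ Ico U (2 * U),
      a m * b x y * K.D α (m * (x * y)) =
      ∑ m ∈ Icc 1 M, a m * ∑ n ∈ Ico (U * V) (4 * (U * V)), col b' n * K.D α (m * n) := by
    refine sum_congr rfl fun m _ => ?_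
    rw [← BX3.collect hN b (fun n => K.D α (m * n))]
    simp only [mul_sum, mul_assoc]
  rw [e]
  refine BX3.core hD K hB hDio M (U * V) a (col b') _ hbox ha hβ hs
    (fun θ h => hS Λ Y hB V U (K0 Λ Y (U * V)) (32 * K.H * (U * V)) M _ θ h b' (K.om α M (U * V))
      hV0 hU0 hbox.hi k1 (BX3.T_le hB K hbox.hi) hb1 hb2 (Nat.cast_nonneg _) o2 o3) ?_
  have hmn := hbox.mn
  push_cast at hmn k2 ⊢
  generalize (K0 Λ Y (U * V) : ℝ) = k at *
  have hM : (0 : ℝ) ≤ M := Nat.cast_nonneg _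
  have hu : (0 : ℝ) ≤ U := Nat.cast_nonneg _
  have hv : (0 : ℝ) ≤ V := Nat.cast_nonneg _
  generalize hw : (U : ℝ) * V * Y ^ (90 * Λ + 5) = w at *
  have r1 : √(M * w * k * V) ≤ √(M * (((U : ℝ) * V) ^ 2 * Y ^ 5) * V) := by
    apply Real.sqrt_le_sqrt
    rw [mul_assoc (M : ℝ) w k]
    exact mul_le_mul_of_nonneg_right (mul_le_mul_of_nonneg_left k2 hM) hv
  have r2 : √((U : ℝ) * V) * w * k * √√((U : ℝ) * V * V) ≤
      √((U : ℝ) * V) * (((U : ℝ) * V) ^ 2 * Y ^ 5) * √√((U : ℝ) * V * V) := by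
    rw [mul_assoc (√((U : ℝ) * V)) w k]
    exact mul_le_mul_of_nonneg_right (mul_le_mul_of_nonneg_left k2 (Real.sqrt_nonneg _))
      (Real.sqrt_nonneg _)
  have t1 : M * U * √(M * (((U : ℝ) * V) ^ 2 * Y ^ 5) * V) * Y ^ 181 ≤ Y ^ (450 * Λ) := by
    apply le_of_sq_le_sq _ (by positivity) |>.trans le_rfl
    refine le_of_mul_le_mul_right ?_ (show 0 < Y ^ 633 by positivity)
    calc (M * U * √(M * (((U : ℝ) * V) ^ 2 * Y ^ 5) * V) * Y ^ 181) ^ 2 * Y ^ 633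
        = (M * U) ^ 2 * √(M * (((U : ℝ) * V) ^ 2 * Y ^ 5) * V) ^ 2 * Y ^ 995 := by ring
      _ = (M * (U * V)) ^ 3 * (U * Y ^ 1000) := by
          rw [Real.sq_sqrt (by positivity)]
          ring
      _ ≤ (Y ^ (270 * Λ + 1)) ^ 3 * Y ^ (90 * Λ) :=
          mul_le_mul (pow_le_pow_left₀ (by positivity) hmn 3) hU (by positivity) (by positivity)
      _ ≤ (Y ^ (450 * Λ)) ^ 2 * Y ^ 633 := by
          simp only [← pow_mul, ← pow_add]
          exact pow_le_pow_right₀ hY1 (by omega)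
  have t2 : M * (√((U : ℝ) * V) * (((U : ℝ) * V) ^ 2 * Y ^ 5) * √√((U : ℝ) * V * V)) * Y ^ 181 ≤
      Y ^ (450 * Λ) := by
    refine le_of_pow_le_pow_left₀ (n := 4) (by norm_num) (by positivity) ?_
    refine le_of_mul_le_mul_right ?_ (show 0 < Y ^ 256 by positivity)
    have q1 : √((U : ℝ) * V) ^ 2 = U * V := Real.sq_sqrt (by positivity)
    have q2 : √√((U : ℝ) * V * V) ^ 2 = √((U : ℝ) * V * V) := Real.sq_sqrt (Real.sqrt_nonneg _)
    have q3 : √((U : ℝ) * V * V) ^ 2 = U * V * V := Real.sq_sqrt (by positivity)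
    calc (M * (√((U : ℝ) * V) * (((U : ℝ) * V) ^ 2 * Y ^ 5) * √√((U : ℝ) * V * V)) * Y ^ 181) ^ 4 *
          Y ^ 256
        = M ^ 4 * (√((U : ℝ) * V) ^ 2) ^ 2 * ((U : ℝ) * V) ^ 8 * (√√((U : ℝ) * V * V) ^ 2) ^ 2 *
            Y ^ 1000 := by ring
      _ = (M * (U * V)) ^ 4 * (((U : ℝ) * V) ^ 7 * V * Y ^ 1000) := by
          rw [q1, q2, q3]
          ring
      _ ≤ (Y ^ (270 * Λ + 1)) ^ 4 * Y ^ (720 * Λ) :=
          mul_le_mul (pow_le_pow_left₀ (by positivity) hmn 4) hUV (by positivity) (by positivity)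
      _ ≤ (Y ^ (450 * Λ)) ^ 4 * Y ^ 256 := by
          simp only [← pow_mul, ← pow_add]
          exact pow_le_pow_right₀ hY1 (by omega)
  refine le_of_mul_le_mul_right ?_ hY0
  have r3 := mul_le_mul_of_nonneg_left r1 (show 0 ≤ (M : ℝ) * U * Y ^ 181 by positivity)
  have r4 := mul_le_mul_of_nonneg_left r2 (show 0 ≤ (M : ℝ) * Y ^ 181 by positivity)
  have r5 : 2 * Y ^ (450 * Λ) ≤ Y ^ (450 * Λ) * Y := by
    rw [mul_comm]
    exact mul_le_mul_of_nonneg_left (by linarith) (by positivity)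
  calc _ = (M : ℝ) * U * Y ^ 181 * √(M * w * k * V) +
        (M : ℝ) * Y ^ 181 * (√((U : ℝ) * V) * w * k * √√((U : ℝ) * V * V)) := by ring
    _ ≤ _ := by linarith

end Pool.Agent.Lib.AP
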