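import Pool.Agent.Lib.AP.Blue

/-! Row DSP: the dispersion estimate. -/

open Finset Classical

set_option linter.unusedVariables false

noncomputable section

namespace Pool.Agent.Lib.AP

namespace DSP

/-- pairs sorted by their greatest common divisor -/
theorem regcd (N : ℕ) (hN : 0 < N) (F : ℕ → ℕ → ℂ) :
    ∑ n ∈ Ico N (4 * N), ∑ n' ∈ Ico N (4 * N), F n n' =
      ∑ g ∈ Icc 1 (4 * N), ∑ n1 ∈ Icc 1 (4 * N), ∑ n2 ∈ Icc 1 (4 * N),
        if Nat.Coprime n1 n2 ∧ g * n1 ∈ Ico N (4 * N) ∧ g * n2 ∈ Ico N (4 * N) then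
          F (g * n1) (g * n2) else 0 := by
  rw [← sum_product']
  simp_rw [← sum_product' (Icc 1 (4 * N)) (Icc 1 (4 * N))]
  rw [← sum_product' (Icc 1 (4 * N)) (Icc 1 (4 * N) ×ˢ Icc 1 (4 * N))
    (f := fun g (x : ℕ × ℕ) => if Nat.Coprime x.1 x.2 ∧ g * x.1 ∈ Ico N (4 * N) ∧
      g * x.2 ∈ Ico N (4 * N) then F (g * x.1) (g * x.2) else 0), ← sum_filter]
  refine sum_nbij' (fun x => (Nat.gcd x.1 x.2, x.1 / Nat.gcd x.1 x.2, x.2 / Nat.gcd x.1 x.2))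
    (fun z => (z.1 * z.2.1, z.1 * z.2.2)) ?_ ?_ ?_ ?_ ?_
  · rintro ⟨a, b⟩ h
    simp only [mem_product, mem_Ico] at h
    have ha : 0 < a := by omega
    have hb : 0 < b := by omega
    have hg : 0 < Nat.gcd a b := Nat.gcd_pos_of_pos_left _ ha
    have h1 := Nat.gcd_dvd_left a b
    have h2 := Nat.gcd_dvd_right a b
    simp only [mem_filter, mem_product, mem_Icc, mem_Ico, Nat.mul_div_cancel' h1,
      Nat.mul_div_cancel' h2]
    have := Nat.le_of_dvd ha h1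
    have := Nat.div_pos (Nat.le_of_dvd ha h1) hg
    have := Nat.div_pos (Nat.le_of_dvd hb h2) hg
    have := Nat.div_le_self a (Nat.gcd a b)
    have := Nat.div_le_self b (Nat.gcd a b)
    exact ⟨⟨⟨hg, by omega⟩, ⟨by omega, by omega⟩, by omega, by omega⟩,
      Nat.coprime_div_gcd_div_gcd hg, h.1, h.2⟩
  · rintro ⟨g, a, b⟩ h
    simp only [mem_filter] at h
    exact mem_product.2 ⟨h.2.2.1, h.2.2.2⟩
  · rintro ⟨a, b⟩ h
    simp only [Nat.mul_div_cancel' (Nat.gcd_dvd_left a b),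
      Nat.mul_div_cancel' (Nat.gcd_dvd_right a b)]
  · rintro ⟨g, a, b⟩ h
    simp only [mem_filter, mem_product, mem_Icc] at h
    have hg : 0 < g := h.1.1.1
    simp only [Nat.gcd_mul_left, h.2.1.gcd_eq_one, mul_one, Nat.mul_div_cancel_left _ hg]
  · rintro ⟨a, b⟩ h
    simp only [Nat.mul_div_cancel' (Nat.gcd_dvd_left a b),
      Nat.mul_div_cancel' (Nat.gcd_dvd_right a b)]

theorem cnt (N g : ℕ) (hg : 0 < g) :
    ∑ n ∈ Icc 1 (4 * N), (if g * n ∈ Ico N (4 * N) then (1 : ℝ) else 0) ≤ 4 * N / g := by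
  rw [sum_boole]
  have h1 : ((Icc 1 (4 * N)).filter fun n => g * n ∈ Ico N (4 * N)) ⊆ Icc 1 (4 * N / g) := by
    intro n hn
    simp only [mem_filter, mem_Icc, mem_Ico] at hn ⊢
    exact ⟨hn.1.1, (Nat.le_div_iff_mul_le hg).2 (by rw [mul_comm]; omega)⟩
  have h2 := card_le_card h1
  rw [Nat.card_Icc, Nat.add_sub_cancel] at h2
  calc _ ≤ ((4 * N / g : ℕ) : ℝ) := by exact_mod_cast h2
    _ ≤ ((4 * N : ℕ) : ℝ) / g := Nat.cast_div_le
    _ = _ := by push_cast; rfl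

theorem swap3 {ι κ : Type} (A : Finset ℕ) (X : Finset ι) (H : Finset κ) (w : ℂ) (u : ι → ℂ)
    (c : κ → ℂ) (p : ℕ → ℕ → Prop) [∀ a b, Decidable (p a b)] (b : ℕ → ℕ → ℕ → ℂ) (T : ℕ → ℕ → ℕ → ι → κ → ℂ) :
    ∑ g ∈ A, ∑ n1 ∈ A, ∑ n2 ∈ A, (if p n1 n2 then b g n1 n2 *
      (w * ∑ x ∈ X, u x * ∑ h ∈ H, c h * (1 / (n2 : ℂ) * T g n1 n2 x h)) else 0) =
    w * ∑ x ∈ X, u x * ∑ h ∈ H, c h * ∑ g ∈ A, ∑ n1 ∈ A, ∑ n2 ∈ A,
      if p n1 n2 then b g n1 n2 / n2 * T g n1 n2 x h else 0 := by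
  have : ∀ g n1 n2, (if p n1 n2 then b g n1 n2 *
      (w * ∑ x ∈ X, u x * ∑ h ∈ H, c h * (1 / (n2 : ℂ) * T g n1 n2 x h)) else 0) =
      ∑ x ∈ X, ∑ h ∈ H, w * (u x * (c h *
        if p n1 n2 then b g n1 n2 / n2 * T g n1 n2 x h else 0)) := fun g n1 n2 => by
    split_ifs
    · simp only [mul_sum]
      exact sum_congr rfl fun x _ => sum_congr rfl fun h _ => by ring
    · simp
  simp_rw [this]
  simp only [mul_sum]
  simp_rw [sum_comm (s := A) (t := X), sum_comm (s := A) (t := H)]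

theorem fin (Y P η N : ℝ) (hY : 1000 ≤ Y) (hP : Y ^ 1000 ≤ P) (hη : 1 ≤ η * (P * Y ^ 4))
    (hN : P * Y ^ 1000 ≤ 4 * N) :
    η ^ 2 * N * P ^ 3 / Y ^ 950 + (32 * (P ^ 2 * Y ^ 11) + 1) ≤ η ^ 2 * N * P ^ 3 / Y ^ 900 := by
  have hY0 : 0 < Y := by linarith
  have hY1 : 1 ≤ Y := by linarith
  have hP1 : 1 ≤ P := (one_le_pow₀ hY1).trans hP
  have hN0 : 0 ≤ N := by
    have : 0 ≤ P * Y ^ 1000 := by positivity
    linarith
  set A := η ^ 2 * N * P ^ 3 with hA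
  have hA0 : 0 ≤ A := by positivity
  have h1 : P ^ 2 * Y ^ 992 ≤ 4 * A := by
    have e1 : 1 ≤ (η * (P * Y ^ 4)) ^ 2 := one_le_pow₀ hη
    have e2 : P * Y ^ 1000 * P ^ 3 * 1 ≤ 4 * N * P ^ 3 * (η * (P * Y ^ 4)) ^ 2 := by gcongr
    refine le_of_mul_le_mul_right ?_ (show 0 < P ^ 2 * Y ^ 8 by positivity)
    calc _ = P * Y ^ 1000 * P ^ 3 * 1 := by ring
      _ ≤ _ := e2
      _ = _ := by rw [hA]; ring
  have h2 : A / Y ^ 950 ≤ A / Y ^ 900 / 2 := by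
    rw [div_div]
    refine div_le_div_of_nonneg_left hA0 (by positivity) ?_
    have : (2 : ℝ) ≤ Y ^ 50 := le_trans (by linarith) (le_self_pow₀ hY1 (by norm_num))
    calc _ ≤ Y ^ 900 * Y ^ 50 := by gcongr
      _ = _ := by ring
  have h3 : 66 * (P ^ 2 * Y ^ 11) ≤ A / Y ^ 900 := by
    rw [le_div_iff₀ (by positivity)]
    have : (264 : ℝ) ≤ Y ^ 81 := le_trans (by linarith) (le_self_pow₀ hY1 (by norm_num))
    have e : P ^ 2 * Y ^ 911 * 264 ≤ P ^ 2 * Y ^ 911 * Y ^ 81 := by gcongr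
    have e' : P ^ 2 * Y ^ 911 * Y ^ 81 = P ^ 2 * Y ^ 992 := by ring
    have e'' : 66 * (P ^ 2 * Y ^ 11) * Y ^ 900 = P ^ 2 * Y ^ 911 * 66 := by ring
    linarith
  have h4 : 1 ≤ P ^ 2 * Y ^ 11 := one_le_mul_of_one_le_of_one_le (one_le_pow₀ hP1) (one_le_pow₀ hY1)
  linarith

end DSP

open DSP in
theorem st_DSP (h1 : St_DSP1) (h2 : St_DSP2) (h0 : St_K0) : St_DSP := by
  intro Λ Y α q K hB hD M N β B hX hβ hs hBs
  have hΛ := hB.lam
  have hY : 1000 ≤ Y := by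
    refine le_trans ?_ hB.two
    calc (1000 : ℝ) ≤ 2 ^ 10 := by norm_num
      _ ≤ _ := pow_le_pow_right₀ one_le_two (by omega)
  have hY0 : 0 < Y := by linarith
  have hY1 : 1 ≤ Y := by linarith
  have hNr : (0 : ℝ) < N := by
    have := hX.lo
    have : 0 < Y ^ (90 * Λ + 1000) := by positivity
    linarith
  have hN : 0 < N := by exact_mod_cast hNr
  obtain ⟨Φ, hΦ, hΦs⟩ := h0 Λ Y α q K hB hD M N hX
  have hΦ0 : ∀ g ∈ Icc 1 (4 * N), 0 ≤ Φ g := fun g hg =>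
    (norm_nonneg _).trans (hΦ g hg 0 (by simp))
  have hB0 : 0 ≤ B := (sum_nonneg fun _ _ => norm_nonneg _).trans (hBs 0 0)
  refine (h1 Λ Y α q K hB hD M N β hX hβ).trans ?_
  set A := Icc 1 (4 * N) with hA
  set T : ℕ → ℕ → ℕ → ℕ → ℤ → ℂ := fun g n1 n2 x h => ∑ k ∈ nz (K0 Λ Y N / g),
    ∑ t ∈ nz (32 * K.H * N), K.om α M N g t *
      ee ((h * k - t * (x / K.Q) + h * (x / K.Q) * n1) / n2) * kf (-(k * t)) n1 n2 with hT
  set Mn : ℕ → ℕ → ℕ → ℂ := fun g n1 n2 => 1 / (K.Q : ℂ) * ∑ x ∈ range K.P, (K.g (x / K.Q) : ℂ) *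
    ∑ h ∈ Icc (-(K.H : ℤ)) K.H, K.c h * (1 / (n2 : ℂ) * T g n1 n2 x h) with hMn
  set b : ℕ → ℕ → ℕ → ℂ := fun g n1 n2 => β (g * n1) * (starRingEnd ℂ) (β (g * n2)) with hb
  have hsplit : ∑ n ∈ Ico N (4 * N), ∑ n' ∈ Ico N (4 * N),
      β n * (starRingEnd ℂ) (β n') * K.EE α M n n' =
      ∑ g ∈ A, ∑ n1 ∈ A, ∑ n2 ∈ A, (if Nat.Coprime n1 n2 then b g n1 n2 * Mn g n1 n2 else 0) +
      ∑ g ∈ A, ∑ n1 ∈ A, ∑ n2 ∈ A, if Nat.Coprime n1 n2 ∧ g * n1 ∈ Ico N (4 * N) ∧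
        g * n2 ∈ Ico N (4 * N) then b g n1 n2 * (K.EE α M (g * n1) (g * n2) - Mn g n1 n2)
        else 0 := by
    rw [regcd N hN]
    simp only [← sum_add_distrib]
    refine sum_congr rfl fun g _ => sum_congr rfl fun n1 _ => sum_congr rfl fun n2 _ => ?_
    by_cases hc : Nat.Coprime n1 n2 ∧ g * n1 ∈ Ico N (4 * N) ∧ g * n2 ∈ Ico N (4 * N)
    · rw [if_pos hc, if_pos hc, if_pos hc.1]
      ring
    · rw [if_neg hc, if_neg hc, add_zero]
      split_ifs with hc'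
      · have : b g n1 n2 = 0 := by
          by_contra hne
          have := mul_ne_zero_iff.1 hne
          exact hc ⟨hc', hs _ this.1, hs _ fun h => this.2 (by rw [h, map_zero])⟩
        rw [this, zero_mul]
      · rfl
  have hQ : Y ^ (90 * Λ + 1) ≤ K.Q := by
    have := K.Hlo
    have : Y ^ (90 * Λ + 1) ≤ Y ^ (90 * Λ + 2) := pow_le_pow_right₀ hY1 (by omega)
    have : (0 : ℝ) ≤ K.H := Nat.cast_nonneg _
    simp only [Ker.Q]
    push_cast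
    linarith
  have hE : 0 < Y ^ (90 * Λ + 1) := by positivity
  have hQ0 : (0 : ℝ) < K.Q := hE.trans_le hQ
  have hmain : ‖∑ g ∈ A, ∑ n1 ∈ A, ∑ n2 ∈ A,
      (if Nat.Coprime n1 n2 then b g n1 n2 * Mn g n1 n2 else 0)‖ ≤ 2 * B / Y ^ (90 * Λ + 1) := by
    rw [show _ = _ from swap3 A (range K.P) (Icc (-(K.H : ℤ)) K.H) (1 / (K.Q : ℂ))
      (fun x => (K.g (x / K.Q) : ℂ)) K.c Nat.Coprime b T, norm_mul, norm_div, norm_one,
      Complex.norm_natCast]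
    have e1 : ∀ x ∈ range K.P, ‖(K.g (x / K.Q) : ℂ) * ∑ h ∈ Icc (-(K.H : ℤ)) K.H, K.c h *
        ∑ g ∈ A, ∑ n1 ∈ A, ∑ n2 ∈ A,
          if Nat.Coprime n1 n2 then b g n1 n2 / n2 * T g n1 n2 x h else 0‖ ≤ B := fun x _ => by
      rw [norm_mul, Complex.norm_real, Real.norm_of_nonneg (K.g0 _)]
      refine (mul_le_of_le_one_left (norm_nonneg _) (K.g1 _)).trans ?_
      refine (norm_sum_le _ _).trans ((sum_le_sum fun h _ => ?_ :
        _ ≤ ∑ h ∈ Icc (-(K.H : ℤ)) K.H, ‖K.c h‖ * B).trans ?_)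
      · rw [norm_mul]
        exact mul_le_mul_of_nonneg_left ((norm_sum_le _ _).trans (hBs (x / K.Q) h)) (norm_nonneg _)
      · rw [← sum_mul]
        exact mul_le_of_le_one_left hB0 K.csum
    have e2 := (norm_sum_le _ _).trans (sum_le_sum e1)
    rw [sum_const, card_range, nsmul_eq_mul] at e2
    have e3 : (K.P : ℝ) ≤ 2 * (K.Q / Y ^ (90 * Λ + 1)) := by
      have a1 : (K.P : ℝ) < K.Q / Y ^ (90 * Λ + 1) + 1 := Nat.ceil_lt_add_one (by positivity)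
      have a2 : 1 ≤ K.Q / Y ^ (90 * Λ + 1) := (one_le_div hE).2 hQ
      linarith
    calc _ ≤ 1 / (K.Q : ℝ) * (2 * (K.Q / Y ^ (90 * Λ + 1)) * B) := by
          refine mul_le_mul_of_nonneg_left (e2.trans ?_) (by positivity)
          gcongr
      _ = _ := by field_simp
  have herr : ‖∑ g ∈ A, ∑ n1 ∈ A, ∑ n2 ∈ A, if Nat.Coprime n1 n2 ∧ g * n1 ∈ Ico N (4 * N) ∧
      g * n2 ∈ Ico N (4 * N) then b g n1 n2 * (K.EE α M (g * n1) (g * n2) - Mn g n1 n2) else 0‖ ≤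
      32 * ((Y ^ (90 * Λ)) ^ 2 * Y ^ 11) + 1 := by
    have e1 : ∀ g ∈ A, ‖∑ n1 ∈ A, ∑ n2 ∈ A, if Nat.Coprime n1 n2 ∧ g * n1 ∈ Ico N (4 * N) ∧
        g * n2 ∈ Ico N (4 * N) then b g n1 n2 * (K.EE α M (g * n1) (g * n2) - Mn g n1 n2)
        else 0‖ ≤ 32 * Y ^ 2 / Y ^ (90 * Λ + 1) * ((N : ℝ) / g * Φ g) +
          16 * (N : ℝ) ^ 2 * Y ^ 2 / Y ^ (1000 * Λ) := fun g hg => by
      have hg0 : 0 < g := (mem_Icc.1 hg).1
      have hg1 : (1 : ℝ) ≤ g := by exact_mod_cast hg0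
      have hp := hΦ0 g hg
      set E := Y ^ 2 * (2 * g * Φ g / (N * Y ^ (90 * Λ + 1)) + 1 / Y ^ (1000 * Λ)) with hE'
      have hE0 : 0 ≤ E := by positivity
      calc _ ≤ ∑ n1 ∈ A, ∑ n2 ∈ A, E * ((if g * n1 ∈ Ico N (4 * N) then (1 : ℝ) else 0) *
            (if g * n2 ∈ Ico N (4 * N) then (1 : ℝ) else 0)) := by
            refine (norm_sum_le _ _).trans (sum_le_sum fun n1 _ => (norm_sum_le _ _).trans
              (sum_le_sum fun n2 _ => ?_))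
            by_cases hc : Nat.Coprime n1 n2 ∧ g * n1 ∈ Ico N (4 * N) ∧ g * n2 ∈ Ico N (4 * N)
            · rw [if_pos hc, if_pos hc.2.1, if_pos hc.2.2, mul_one, mul_one, norm_mul, hE']
              refine mul_le_mul ?_ (h2 Λ Y α K hB M N g n1 n2 (Φ g) hX hc.2.1 hc.2.2 hc.1
                (hΦ g hg)) (norm_nonneg _) (by positivity)
              rw [hb, norm_mul, RCLike.norm_conj, sq]
              exact mul_le_mul (hβ _) (hβ _) (norm_nonneg _) hY0.le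
            · rw [if_neg hc, norm_zero]
              positivity
        _ = E * (∑ n ∈ A, if g * n ∈ Ico N (4 * N) then (1 : ℝ) else 0) ^ 2 := by
            rw [sq, sum_mul_sum, mul_sum]
            simp only [mul_sum]
        _ ≤ E * (4 * N / g) ^ 2 := by
            gcongr
            exact cnt N g hg0
        _ = 32 * Y ^ 2 / Y ^ (90 * Λ + 1) * ((N : ℝ) / g * Φ g) +
          16 * (N : ℝ) ^ 2 * Y ^ 2 / Y ^ (1000 * Λ) / g ^ 2 := by
            rw [hE']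
            field_simp
            ring
        _ ≤ _ := add_le_add le_rfl (div_le_self (by positivity) (one_le_pow₀ hg1))
    refine (norm_sum_le _ _).trans ((sum_le_sum e1).trans ?_)
    rw [sum_add_distrib, ← mul_sum, sum_const, hA, Nat.card_Icc, Nat.add_sub_cancel, nsmul_eq_mul]
    refine add_le_add ?_ ?_
    · calc _ ≤ 32 * Y ^ 2 / Y ^ (90 * Λ + 1) * Y ^ (270 * Λ + 10) := by gcongr
        _ = _ := by
          field_simp
          ring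
    · rw [← mul_div_assoc, div_le_one (by positivity)]
      have a1 := hX.hi
      have a2 : (64 : ℝ) ≤ Y := by linarith
      calc _ = 64 * (N : ℝ) ^ 3 * Y ^ 2 := by push_cast; ring
        _ ≤ Y * (Y ^ (120 * Λ)) ^ 3 * Y ^ 2 := by gcongr
        _ = Y ^ (360 * Λ + 3) := by ring
        _ ≤ _ := pow_le_pow_right₀ hY1 (by omega)
  have hf := fin Y (Y ^ (90 * Λ)) K.η N hY (pow_le_pow_right₀ hY1 (by omega))
    (by rw [← pow_add]; exact K.ηlo) (by rw [← pow_add]; exact hX.lo)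
  have hp : (Y ^ (90 * Λ)) ^ 3 = Y ^ (270 * Λ) := by ring
  rw [hp] at hf
  rw [hsplit]
  linarith [norm_add_le_of_le hmain herr]

end Pool.Agent.Lib.AP
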