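import Pool.Agent.Lib.AP.Blue

/-! Opening the square: the diagonal and the zero frequencies. -/

open Finset Classical

noncomputable section

namespace Pool.Agent.Lib.AP

namespace DSP1B

theorem fib_sum (hG : St_GCD) (A T : Finset ℤ) (B : Finset ℕ) (F : ℤ → ℝ) (Y : ℝ)
    (hF : ∀ t, 0 ≤ F t) (hm : ∀ a ∈ A, ∀ b ∈ B, a * (b : ℤ) ∈ T)
    (hT : ∀ t ∈ T, t ≠ 0 ∧ (t.natAbs.divisors.card : ℝ) ≤ Y) :
    ∑ b ∈ B, ∑ a ∈ A, F (a * b) ≤ Y * ∑ t ∈ T, F t := by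
  rw [sum_comm, ← sum_product' (f := fun (a : ℤ) (b : ℕ) => F (a * b)),
    ← sum_fiberwise_of_maps_to (g := fun x : ℤ × ℕ => x.1 * (x.2 : ℤ)) (t := T)
      (fun x hx => hm _ (mem_product.1 hx).1 _ (mem_product.1 hx).2), mul_sum]
  refine sum_le_sum fun t ht => ?_
  have e : ∑ x ∈ (A ×ˢ B).filter (fun x : ℤ × ℕ => x.1 * (x.2 : ℤ) = t), F (x.1 * x.2) =
      (((A ×ˢ B).filter fun x : ℤ × ℕ => x.1 * (x.2 : ℤ) = t).card : ℝ) * F t := by
    rw [← nsmul_eq_mul, ← sum_const]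
    exact sum_congr rfl fun x hx => by rw [(mem_filter.1 hx).2]
  rw [e]
  refine mul_le_mul_of_nonneg_right (le_trans ?_ (hT t ht).2) (hF t)
  exact_mod_cast hG.fib A B t (hT t ht).1

variable {Λ : ℕ} {Y : ℝ}

theorem D_eq (hT : St_TOOL) (K : Ker Λ Y) (α : ℝ) (n : ℕ) :
    K.D α n = ∑ h ∈ nz K.H, K.c h * ee (h * (α * n)) := by
  have h0 : (0 : ℤ) ∈ Icc (-(K.H : ℤ)) K.H := by simp
  have e0 : ee 0 = 1 := by simpa using hT.int 0
  rw [Ker.D, Complex.ofReal_sub, K.hg, ← add_sum_erase _ _ h0, K.c0, nz]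
  simp [e0]

/-- the full inner sum over nonzero frequencies -/
def AA (K : Ker Λ Y) (α : ℝ) (M n n' : ℕ) : ℂ :=
  ∑ h ∈ nz K.H, ∑ h' ∈ nz K.H,
    K.c h * (starRingEnd ℂ) (K.c h') * ww M (α * ((h * n - h' * n' : ℤ) : ℝ))

theorem expand (hT : St_TOOL) (K : Ker Λ Y) (α : ℝ) (M : ℕ) (B : Finset ℕ) (β : ℕ → ℂ) :
    ((∑ m ∈ Icc 1 M, ‖∑ n ∈ B, β n * K.D α (m * n)‖ ^ 2 : ℝ) : ℂ) =
      ∑ n ∈ B, ∑ n' ∈ B, β n * (starRingEnd ℂ) (β n') * AA K α M n n' := by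
  have e1 : ∀ m : ℕ, ((‖∑ n ∈ B, β n * K.D α (m * n)‖ ^ 2 : ℝ) : ℂ) =
      ∑ n ∈ B, ∑ n' ∈ B, β n * (starRingEnd ℂ) (β n') * ∑ h ∈ nz K.H, ∑ h' ∈ nz K.H,
        K.c h * (starRingEnd ℂ) (K.c h') * ee (m * (α * ((h * n - h' * n' : ℤ) : ℝ))) := by
    intro m
    rw [Complex.ofReal_pow, ← Complex.mul_conj', map_sum, sum_mul_sum]
    refine sum_congr rfl fun n _ => sum_congr rfl fun n' _ => ?_
    rw [map_mul, D_eq hT, D_eq hT, map_sum, mul_mul_mul_comm, sum_mul_sum]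
    congr 1
    refine sum_congr rfl fun h _ => sum_congr rfl fun h' _ => ?_
    rw [map_mul, hT.conj, mul_mul_mul_comm, ← hT.add]
    congr 2
    push_cast
    ring
  rw [Complex.ofReal_sum, sum_congr rfl fun m _ => e1 m, sum_comm]
  refine sum_congr rfl fun n _ => ?_
  rw [sum_comm]
  refine sum_congr rfl fun n' _ => ?_
  rw [← mul_sum, AA]
  congr 1
  rw [sum_comm]
  refine sum_congr rfl fun h _ => ?_
  rw [sum_comm]
  refine sum_congr rfl fun h' _ => ?_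
  rw [← mul_sum, ww]

theorem diff_le (hT : St_TOOL) (K : Ker Λ Y) (α : ℝ) (M n n' : ℕ) (hn : 0 < n) (hn' : 0 < n') :
    ‖AA K α M n n' - K.EE α M n n'‖ ≤ K.η ^ 2 *
      (M * ∑ h ∈ nz K.H, ∑ h' ∈ nz K.H, (if h' * (n' : ℤ) = h * n then (1 : ℝ) else 0) +
        ∑ h ∈ nz K.H, ‖ww M (α * ((h * n : ℤ) : ℝ))‖ +
        ∑ h ∈ nz K.H, ‖ww M (α * ((h * n' : ℤ) : ℝ))‖) := by
  have h0 : (0 : ℤ) ∈ Icc (-(K.H : ℤ)) K.H := by simp
  have hη : 0 ≤ K.η := le_trans (norm_nonneg _) (K.cle 0)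
  set F : ℤ → ℤ → ℂ := fun h h' =>
    K.c h * (starRingEnd ℂ) (K.c h') * ww M (α * ((h * n - h' * n' : ℤ) : ℝ)) with hF
  have nF : ∀ h h', ‖F h h'‖ ≤ K.η ^ 2 * ‖ww M (α * ((h * n - h' * n' : ℤ) : ℝ))‖ := by
    intro h h'
    rw [hF]
    simp only [norm_mul, RCLike.norm_conj]
    refine mul_le_mul_of_nonneg_right ?_ (norm_nonneg _)
    rw [sq]
    exact mul_le_mul (K.cle h) (K.cle h') (norm_nonneg _) hη
  have ne0 : ∀ h ∈ nz K.H, h ≠ 0 := fun h hh => (mem_erase.1 hh).1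
  have e : K.EE α M n n' = ∑ h' ∈ nz K.H, F 0 h' + (∑ h ∈ nz K.H, F h 0 +
      ∑ h ∈ nz K.H, ∑ h' ∈ nz K.H, if h * n = h' * n' then 0 else F h h') := by
    rw [← sum_add_distrib, Ker.EE, ← add_sum_erase _ _ h0, ← add_sum_erase _ _ h0,
      if_pos (by simp), zero_add]
    refine congrArg₂ (fun a b : ℂ => a + b) ?_ ?_
    · refine sum_congr rfl fun h' hh' => if_neg ?_
      have := ne0 h' hh'
      simp only [zero_mul]
      exact fun e => (mul_ne_zero this (by exact_mod_cast hn'.ne')) e.symm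
    · refine sum_congr rfl fun h hh => ?_
      rw [← add_sum_erase _ _ h0, if_neg]
      · rfl
      · simp only [zero_mul]
        exact mul_ne_zero (ne0 h hh) (by exact_mod_cast hn.ne')
  have e2 : AA K α M n n' = (∑ h ∈ nz K.H, ∑ h' ∈ nz K.H, if h * n = h' * n' then F h h' else 0) +
      ∑ h ∈ nz K.H, ∑ h' ∈ nz K.H, if h * n = h' * n' then 0 else F h h' := by
    rw [AA, ← sum_add_distrib]
    refine sum_congr rfl fun h _ => ?_
    rw [← sum_add_distrib]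
    refine sum_congr rfl fun h' _ => ?_
    split_ifs <;> simp [hF]
  have e3 : AA K α M n n' - K.EE α M n n' =
      (∑ h ∈ nz K.H, ∑ h' ∈ nz K.H, if h * n = h' * n' then F h h' else 0) -
        ∑ h ∈ nz K.H, F h 0 - ∑ h' ∈ nz K.H, F 0 h' := by
    rw [e, e2]; ring
  rw [e3, mul_add, mul_add]
  refine le_trans (norm_sub_le _ _) (add_le_add (le_trans (norm_sub_le _ _) (add_le_add ?_ ?_)) ?_)
  · rw [mul_sum, mul_sum]
    refine norm_sum_le_of_le _ fun h _ => ?_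
    rw [mul_sum, mul_sum]
    refine norm_sum_le_of_le _ fun h' _ => ?_
    by_cases hh : h * (n : ℤ) = h' * n'
    · rw [if_pos hh, if_pos hh.symm, mul_one]
      exact le_trans (nF h h') (mul_le_mul_of_nonneg_left (hT.wle _ _).1 (sq_nonneg _))
    · rw [if_neg hh, if_neg fun e => hh e.symm]
      simp
  · rw [mul_sum]
    refine norm_sum_le_of_le _ fun h _ => ?_
    simpa using nF h 0
  · rw [mul_sum]
    refine norm_sum_le_of_le _ fun h _ => ?_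
    have := nF 0 h
    rw [show α * ((0 * (n : ℤ) - h * n' : ℤ) : ℝ) = -(α * ((h * n' : ℤ) : ℝ)) by push_cast; ring,
      (hT.wle _ _).2.2] at this
    exact this

end DSP1B

open DSP1B in
theorem st_DSP1 (hT : St_TOOL) (hG : St_GCD) (hOM : St_OM) : St_DSP1 := by
  intro Λ Y α q K hB hD M N β hX hβ
  have hΛ := hB.lam
  have hY : (1000 : ℝ) ≤ Y := by
    refine le_trans ?_ hB.two
    calc (1000 : ℝ) ≤ 2 ^ 10 := by norm_num
      _ ≤ 2 ^ (300 * Λ) := pow_le_pow_right₀ (by norm_num) (by omega)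
  have hY1 : (1 : ℝ) ≤ Y := by linarith
  have hY0 : (0 : ℝ) < Y := by linarith
  have pw : ∀ a b : ℕ, a ≤ b → Y ^ a ≤ Y ^ b := fun a b h => pow_le_pow_right₀ hY1 h
  have hN0 : 0 < N := by
    have := hX.lo
    have h2 : 0 < Y ^ (90 * Λ + 1000) := by positivity
    have : (0 : ℝ) < N := by linarith
    exact_mod_cast this
  have hη : 0 ≤ K.η := le_trans (norm_nonneg _) (K.cle 0)
  set B := Ico N (4 * N) with hBdef
  have hBpos : ∀ n ∈ B, 0 < n := fun n hn => lt_of_lt_of_le hN0 (mem_Ico.1 hn).1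
  have cB : (B.card : ℝ) = 3 * N := by
    rw [hBdef, Nat.card_Ico, show 4 * N - N = 3 * N by omega]; push_cast; ring
  have cH : ((nz K.H).card : ℝ) ≤ 2 * K.H := by
    have : (nz K.H).card = 2 * K.H := by
      rw [nz, card_erase_of_mem (by simp), Int.card_Icc]; omega
    rw [this]; push_cast; exact le_rfl
  have hm : ∀ a ∈ nz K.H, ∀ b ∈ B, a * (b : ℤ) ∈ nz (32 * K.H * N) := by
    intro a ha b hb
    obtain ⟨a0, ha⟩ := mem_erase.1 ha
    obtain ⟨a1, a2⟩ := mem_Icc.1 ha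
    have b0 := hBpos b hb
    have b1 : (b : ℤ) ≤ 4 * N := by exact_mod_cast (mem_Ico.1 hb).2.le
    have b2 : (0 : ℤ) ≤ b := by positivity
    have hH : (0 : ℤ) ≤ K.H := by positivity
    have hN : (0 : ℤ) ≤ N := by positivity
    refine mem_erase.2 ⟨mul_ne_zero a0 (by exact_mod_cast b0.ne'), mem_Icc.2 ⟨?_, ?_⟩⟩
    · push_cast; nlinarith [mul_nonneg hH hN]
    · push_cast; nlinarith [mul_nonneg hH hN]
  have hdiv : ∀ t ∈ nz (32 * K.H * N), t ≠ 0 ∧ (t.natAbs.divisors.card : ℝ) ≤ Y := by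
    intro t ht
    obtain ⟨t0, ht⟩ := mem_erase.1 ht
    refine ⟨t0, hB.div _ ?_⟩
    have h1 : t.natAbs ≤ 32 * K.H * N := by have := mem_Icc.1 ht; omega
    calc (t.natAbs : ℝ) ≤ 32 * K.H * N := by exact_mod_cast h1
      _ ≤ Y ^ 1 * Y ^ (90 * Λ + 3) * Y ^ (120 * Λ) := by
        refine mul_le_mul (mul_le_mul (by linarith) K.Hhi (by positivity) (by positivity)) hX.hi
          (by positivity) (by positivity)
      _ ≤ _ := by rw [← pow_add, ← pow_add]; exact pw _ _ (by omega)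
  have s1 : ∑ n ∈ B, ∑ h ∈ nz K.H, ‖ww M (α * ((h * n : ℤ) : ℝ))‖ ≤
      Y * (N * Y ^ (90 * Λ + 5)) :=
    le_trans (fib_sum hG _ _ B (fun t => ‖ww M (α * (t : ℝ))‖) Y (fun _ => norm_nonneg _) hm hdiv)
      (mul_le_mul_of_nonneg_left (hOM Λ Y α q K hB hD M N hX).1 hY0.le)
  have s2 : ∀ n ∈ B, ∑ n' ∈ B, ∑ h ∈ nz K.H, ∑ h' ∈ nz K.H,
      (if h' * (n' : ℤ) = h * n then (1 : ℝ) else 0) ≤ 2 * K.H * Y := by
    intro n hn
    rw [sum_comm]
    refine le_trans (sum_le_card_nsmul _ _ Y fun h hh => ?_) ?_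
    · refine le_trans (fib_sum hG _ _ B (fun t => if t = h * n then (1 : ℝ) else 0) Y
        (fun _ => by positivity) hm hdiv) ?_
      rw [sum_ite_eq', if_pos (hm h hh n hn), mul_one]
    · rw [nsmul_eq_mul]
      exact mul_le_mul_of_nonneg_right cH hY0.le
  have key : ∑ n ∈ B, ∑ n' ∈ B, ‖AA K α M n n' - K.EE α M n n'‖ ≤
      K.η ^ 2 * (M * (3 * N * (2 * K.H * Y)) + 2 * (3 * N * (Y * (N * Y ^ (90 * Λ + 5))))) := by
    refine le_trans (sum_le_sum fun n hn => sum_le_sum fun n' hn' =>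
      diff_le hT K α M n n' (hBpos n hn) (hBpos n' hn')) ?_
    simp only [← mul_sum, sum_add_distrib]
    refine mul_le_mul_of_nonneg_left ?_ (sq_nonneg _)
    have a1 : ∑ n ∈ B, ∑ n' ∈ B, ∑ h ∈ nz K.H, ∑ h' ∈ nz K.H,
        (if h' * (n' : ℤ) = h * n then (1 : ℝ) else 0) ≤ 3 * N * (2 * K.H * Y) := by
      refine le_trans (sum_le_card_nsmul _ _ _ s2) ?_
      rw [nsmul_eq_mul, cB]
    have a2 : ∑ n ∈ B, ∑ _n' ∈ B, ∑ h ∈ nz K.H, ‖ww M (α * ((h * n : ℤ) : ℝ))‖ ≤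
        3 * N * (Y * (N * Y ^ (90 * Λ + 5))) := by
      rw [sum_comm, sum_const, nsmul_eq_mul, cB]
      exact mul_le_mul_of_nonneg_left s1 (by positivity)
    have a3 : ∑ _n ∈ B, ∑ n' ∈ B, ∑ h ∈ nz K.H, ‖ww M (α * ((h * n' : ℤ) : ℝ))‖ ≤
        3 * N * (Y * (N * Y ^ (90 * Λ + 5))) := by
      rw [sum_const, nsmul_eq_mul, cB]
      exact mul_le_mul_of_nonneg_left s1 (by positivity)
    have a4 := mul_le_mul_of_nonneg_left a1 (Nat.cast_nonneg (α := ℝ) M)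
    linarith
  have e := expand hT K α M B β
  have e' : ∑ m ∈ Icc 1 M, ‖∑ n ∈ B, β n * K.D α (m * n)‖ ^ 2 =
      ‖∑ n ∈ B, ∑ n' ∈ B, β n * (starRingEnd ℂ) (β n') * K.EE α M n n' +
        ∑ n ∈ B, ∑ n' ∈ B, β n * (starRingEnd ℂ) (β n') *
          (AA K α M n n' - K.EE α M n n')‖ := by
    rw [← sum_add_distrib, ← Real.norm_of_nonneg (sum_nonneg fun m _ => sq_nonneg _),
      ← Complex.norm_real, e]
    congr 1
    refine sum_congr rfl fun n _ => ?_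
    rw [← sum_add_distrib]
    exact sum_congr rfl fun n' _ => by ring
  rw [e']
  refine le_trans (norm_add_le _ _) (add_le_add le_rfl ?_)
  have b1 : ‖∑ n ∈ B, ∑ n' ∈ B, β n * (starRingEnd ℂ) (β n') *
      (AA K α M n n' - K.EE α M n n')‖ ≤
      Y ^ 2 * ∑ n ∈ B, ∑ n' ∈ B, ‖AA K α M n n' - K.EE α M n n'‖ := by
    rw [mul_sum]
    refine norm_sum_le_of_le _ fun n _ => ?_
    rw [mul_sum]
    refine norm_sum_le_of_le _ fun n' _ => ?_
    simp only [norm_mul, RCLike.norm_conj]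
    refine mul_le_mul_of_nonneg_right ?_ (norm_nonneg _)
    rw [sq]
    exact mul_le_mul (hβ n) (hβ n') (norm_nonneg _) hY0.le
  refine le_trans b1 (le_trans (mul_le_mul_of_nonneg_left key (by positivity)) ?_)
  rw [le_div_iff₀ (by positivity)]
  have hNr : (0 : ℝ) ≤ N := by positivity
  have p953 : 0 ≤ Y ^ 953 := pow_nonneg hY0.le _
  have c1 : Y ^ 2 * (M * (3 * N * (2 * K.H * Y))) * Y ^ 950 ≤ N * Y ^ (270 * Λ) / 2 := by
    have h1 : (M : ℝ) * N * K.H ≤ Y ^ (270 * Λ + 1) * Y ^ (90 * Λ + 3) :=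
      mul_le_mul hX.mn K.Hhi (by positivity) (by positivity)
    have h2 : Y ^ (90 * Λ + 1000) * Y ^ (270 * Λ) ≤ 4 * N * Y ^ (270 * Λ) :=
      mul_le_mul_of_nonneg_right hX.lo (by positivity)
    have h3 : Y * (Y ^ 953 * (Y ^ (270 * Λ + 1) * Y ^ (90 * Λ + 3))) ≤
        Y ^ (90 * Λ + 1000) * Y ^ (270 * Λ) := by
      rw [← pow_add, ← pow_add, ← pow_add, ← pow_succ']; exact pw _ _ (by omega)
    have h4 : 48 * (Y ^ 953 * (M * N * K.H)) ≤
        Y * (Y ^ 953 * (Y ^ (270 * Λ + 1) * Y ^ (90 * Λ + 3))) :=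
      mul_le_mul (by linarith) (mul_le_mul_of_nonneg_left h1 p953)
        (mul_nonneg p953 (by positivity)) hY0.le
    have h5 : Y ^ 2 * (M * (3 * N * (2 * K.H * Y))) * Y ^ 950 = 6 * (Y ^ 953 * (M * N * K.H)) := by
      rw [show Y ^ 953 = Y ^ 950 * Y ^ 3 from pow_add Y 950 3]
      generalize Y ^ 950 = w'
      ring
    rw [h5]; linarith
  have c2 : Y ^ 2 * (2 * (3 * N * (Y * (N * Y ^ (90 * Λ + 5))))) * Y ^ 950 ≤
      N * Y ^ (270 * Λ) / 2 := by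
    have h3 : Y * (Y ^ 953 * (Y ^ (120 * Λ) * Y ^ (90 * Λ + 5))) ≤ Y ^ (270 * Λ) := by
      rw [← pow_add, ← pow_add, ← pow_succ']; exact pw _ _ (by omega)
    have h4 : 12 * (Y ^ 953 * (N * Y ^ (90 * Λ + 5))) ≤
        Y * (Y ^ 953 * (Y ^ (120 * Λ) * Y ^ (90 * Λ + 5))) :=
      mul_le_mul (by linarith) (mul_le_mul_of_nonneg_left
        (mul_le_mul_of_nonneg_right hX.hi (by positivity)) p953)
        (mul_nonneg p953 (by positivity)) hY0.le
    have h5 : Y ^ 2 * (2 * (3 * N * (Y * (N * Y ^ (90 * Λ + 5))))) * Y ^ 950 =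
        N * (12 * (Y ^ 953 * (N * Y ^ (90 * Λ + 5)))) / 2 := by
      rw [show Y ^ 953 = Y ^ 950 * Y ^ 3 from pow_add Y 950 3]
      generalize Y ^ (90 * Λ + 5) = w
      generalize Y ^ 950 = w'
      ring
    rw [h5]
    have := mul_le_mul_of_nonneg_left (le_trans h4 h3) hNr
    linarith
  have := mul_le_mul_of_nonneg_left (add_le_add c1 c2) (sq_nonneg K.η)
  calc _ = K.η ^ 2 * (Y ^ 2 * (M * (3 * N * (2 * K.H * Y))) * Y ^ 950 +
        Y ^ 2 * (2 * (3 * N * (Y * (N * Y ^ (90 * Λ + 5))))) * Y ^ 950) := by ring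
    _ ≤ _ := this
    _ = _ := by ring

end Pool.Agent.Lib.AP
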