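import Pool.Agent.Lib.AP.Blue

/-! Dispersion: one value of the greatest common divisor, one coprime pair. -/

open Finset Classical

noncomputable section

namespace Pool.Agent.Lib.AP

namespace DSP2

variable {Λ : ℕ} {Y : ℝ}

theorem mem_nz {T : ℕ} {t : ℤ} : t ∈ nz T ↔ t ≠ 0 ∧ |t| ≤ T := by
  rw [nz, mem_erase, mem_Icc, abs_le]

theorem card_nz (T : ℕ) : ((nz T).card : ℝ) ≤ 2 * T := by
  have h : (nz T).card = 2 * T := by
    rw [nz, card_erase_of_mem (by simp), Int.card_Icc]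
    omega
  rw [h]
  push_cast
  exact le_rfl

/-- collecting the pairs of frequencies by the value of the linear form -/
theorem fibre (hP : St_PSI) (K : Ker Λ Y) (α : ℝ) (M : ℕ) {N g n1 n2 : ℕ} (g0 : 0 < g)
    (h1 : g * n1 < 4 * N) (h2 : g * n2 < 4 * N) :
    K.EE α M (g * n1) (g * n2) = ∑ t ∈ nz (32 * K.H * N), K.om α M N g t * K.gam n1 n2 t := by
  simp only [Ker.gam, mul_sum]
  rw [sum_comm, Ker.EE]
  refine sum_congr rfl fun h hh => ?_
  rw [sum_comm]
  refine sum_congr rfl fun h' hh' => ?_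
  simp only [mul_ite, mul_zero, sum_ite_eq]
  have e : h * ((g * n1 : ℕ) : ℤ) - h' * ((g * n2 : ℕ) : ℤ) = g * (h * n1 - h' * n2) := by
    push_cast
    ring
  have gz : (0 : ℤ) < g := by exact_mod_cast g0
  by_cases h0 : h * n1 - h' * n2 = 0
  · rw [if_pos (sub_eq_zero.1 (by rw [e, h0, mul_zero])), if_neg fun hm => (mem_nz.1 hm).1 h0]
  · have a1 : |h| ≤ K.H := abs_le.2 (mem_Icc.1 hh)
    have a2 : |h'| ≤ K.H := abs_le.2 (mem_Icc.1 hh')
    have b1 : (g : ℤ) * n1 ≤ 4 * N := by exact_mod_cast h1.le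
    have b2 : (g : ℤ) * n2 ≤ 4 * N := by exact_mod_cast h2.le
    have hb : |h * n1 - h' * n2| * g ≤ 8 * K.H * N := by
      have c1 : |h * n1 - h' * n2| ≤ K.H * n1 + K.H * n2 := by
        refine (abs_sub _ _).trans (add_le_add ?_ ?_) <;> rw [abs_mul, Nat.abs_cast] <;>
          exact mul_le_mul_of_nonneg_right ‹_› (by positivity)
      have H0 : (0 : ℤ) ≤ K.H := by positivity
      calc _ ≤ (K.H * n1 + K.H * n2) * (g : ℤ) := mul_le_mul_of_nonneg_right c1 gz.le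
        _ = K.H * (g * n1) + K.H * (g * n2) := by ring
        _ ≤ K.H * (4 * N) + K.H * (4 * N) := by gcongr
        _ = _ := by ring
    have hc : |h * n1 - h' * n2| ≤ ((8 * K.H * N / g + 1 : ℕ) : ℤ) := by
      push_cast
      exact (Int.le_ediv_of_mul_le gz hb).trans (by omega)
    have hd : |h * n1 - h' * n2| ≤ ((32 * K.H * N : ℕ) : ℤ) := by
      push_cast
      have : (0 : ℤ) ≤ K.H * N := by positivity
      nlinarith [abs_nonneg (h * n1 - h' * n2)]
    rw [if_neg fun hm => h0 ((mul_eq_zero.1 (e ▸ sub_eq_zero.2 hm)).resolve_left gz.ne'),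
      if_pos (mem_nz.2 ⟨h0, hd⟩), Ker.om, hP.one _ _ (Nat.succ_pos _) hc, e]
    push_cast
    ring

/-- separating the zero frequency -/
theorem split (hT : St_TOOL) (K : Ker Λ Y) (ω : ℤ → ℂ) (S : Finset ℤ) (K1 n1 n2 : ℕ) :
    ∑ t ∈ S, ω t * (1 / ((K.Q : ℂ) * n2) * ∑ x ∈ range K.P, (K.g (x / K.Q) : ℂ) *
      ee (-(t * x) / (K.Q * n2)) * ∑ k ∈ Icc (-(K1 : ℤ)) K1, kf (-(k * t)) n1 n2 *
        (K.g (k / n2 + x * n1 / (K.Q * n2)) : ℂ)) =
    1 / (K.Q : ℂ) * (∑ x ∈ range K.P, (K.g (x / K.Q) : ℂ) *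
      ∑ h ∈ Icc (-(K.H : ℤ)) K.H, K.c h * (1 / (n2 : ℂ) * ∑ k ∈ nz K1, ∑ t ∈ S, ω t *
        ee ((h * k - t * (x / K.Q) + h * (x / K.Q) * n1) / n2) * kf (-(k * t)) n1 n2)) +
    1 / ((K.Q : ℂ) * n2) * ∑ x ∈ range K.P, (K.g (x / K.Q) : ℂ) *
      (K.g (x * n1 / (K.Q * n2)) : ℂ) * ∑ t ∈ S, ω t * ee (-(t * (x / (K.Q * n2)))) := by
  have k0 : ∀ t : ℤ, kf (-(0 * t)) n1 n2 = 1 := fun t => by simp [kf, ee]
  have sp : ∀ F : ℤ → ℂ, ∑ k ∈ Icc (-(K1 : ℤ)) K1, F k = ∑ k ∈ nz K1, F k + F 0 := fun F =>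
    (sum_erase_add _ _ (by simp)).symm
  simp only [sp, k0, mul_add, sum_add_distrib]
  refine congrArg₂ (· + ·) ?_ ?_
  · simp only [mul_sum]
    rw [sum_comm]
    refine sum_congr rfl fun x _ => ?_
    rw [sum_comm, sum_comm (s := Icc (-(K.H : ℤ)) K.H)]
    refine sum_congr rfl fun k _ => ?_
    rw [sum_comm (s := Icc (-(K.H : ℤ)) K.H)]
    refine sum_congr rfl fun t _ => ?_
    rw [K.hg (k / n2 + x * n1 / (K.Q * n2))]
    simp only [mul_sum]
    refine sum_congr rfl fun h _ => ?_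
    have e : ((h : ℝ) * k - t * (x / K.Q) + h * (x / K.Q) * n1) / n2 =
        -(t * x) / (K.Q * n2) + h * (k / n2 + x * n1 / (K.Q * n2)) := by
      simp only [div_eq_mul_inv, mul_inv]
      ring
    rw [e, hT.add]
    simp only [one_div, mul_inv]
    ring
  · simp only [mul_sum]
    rw [sum_comm]
    refine sum_congr rfl fun x _ => sum_congr rfl fun t _ => ?_
    have e : -((t : ℝ) * x) / (K.Q * n2) = -(t * (x / (K.Q * n2))) := by ring
    rw [e, Int.cast_zero, zero_div, zero_add]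
    ring

end DSP2

open DSP2 in
theorem st_DSP2 (hT : St_TOOL) (hG : St_GAM) (hP : St_PSI) : St_DSP2 := by
  intro Λ Y α K hB M N g n1 n2 Φ hX h1 h2 hc hΦ
  have hΛ := hB.lam
  have Y128 : (128 : ℝ) ≤ Y := by
    refine le_trans ?_ hB.two
    calc (128 : ℝ) = 2 ^ 7 := by norm_num
      _ ≤ _ := pow_le_pow_right₀ one_le_two (by omega)
  have Y1 : (1 : ℝ) ≤ Y := by linarith
  have Y0 : (0 : ℝ) < Y := by linarith
  obtain ⟨l1, u1⟩ := mem_Ico.1 h1
  obtain ⟨l2, u2⟩ := mem_Ico.1 h2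
  have N0 : 0 < N := by
    have := (pow_pos Y0 _).trans_le hX.lo
    have : (0 : ℝ) < N := by linarith
    exact_mod_cast this
  have g0 : 0 < g := Nat.pos_of_mul_pos_right (N0.trans_le l2)
  have n0 : 0 < n2 := Nat.pos_of_mul_pos_left (N0.trans_le l2)
  set y : ℝ := Y ^ (90 * Λ + 1) with hy
  have y0 : 0 < y := pow_pos Y0 _
  have yH : y ≤ K.H := (pow_le_pow_right₀ Y1 (by omega)).trans K.Hlo
  have H0 : 0 < K.H := by exact_mod_cast y0.trans_le yH
  have gR : (0 : ℝ) < g := by exact_mod_cast g0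
  have nR : (0 : ℝ) < n2 := by exact_mod_cast n0
  have NR : (0 : ℝ) < N := by exact_mod_cast N0
  have l2R : (N : ℝ) ≤ g * n2 := by exact_mod_cast l2
  have u2R : (g : ℝ) * n2 < 4 * N := by exact_mod_cast u2
  have QH : (K.H : ℝ) ≤ K.Q := by
    rw [Ker.Q]
    push_cast
    linarith [Nat.cast_nonneg (α := ℝ) K.H]
  have Q0 : (0 : ℝ) < K.Q := y0.trans_le (yH.trans QH)
  have Φ0 : 0 ≤ Φ := (norm_nonneg _).trans (hΦ 0 (by simp))
  have c1 : n1 ≤ 4 * n2 := Nat.le_of_mul_le_mul_left (by nlinarith) g0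
  have c2 : 8 * (n2 : ℝ) < ((K0 Λ Y N / g : ℕ) + 1) * y := by
    have a : 32 * (N : ℝ) / y < K0 Λ Y N + 1 := Nat.lt_floor_add_one _
    have b : (K0 Λ Y N : ℝ) + 1 ≤ g * ((K0 Λ Y N / g : ℕ) + 1) := by
      exact_mod_cast Nat.lt_mul_div_succ (K0 Λ Y N) g0
    have c := (div_lt_iff₀ y0).1 (a.trans_le b)
    refine lt_of_mul_lt_mul_left ?_ gR.le
    nlinarith
  have c3 : ((K0 Λ Y N / g : ℕ) : ℝ) * y ≤ 32 * (n2 : ℝ) := by
    have a : (K0 Λ Y N : ℝ) ≤ 32 * (N : ℝ) / y := Nat.floor_le (by positivity)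
    have b : ((K0 Λ Y N / g : ℕ) : ℝ) * g ≤ K0 Λ Y N := by
      exact_mod_cast Nat.div_mul_le_self (K0 Λ Y N) g
    have c := (le_div_iff₀ y0).1 (b.trans a)
    refine le_of_mul_le_mul_left ?_ gR
    nlinarith
  have τ0 : (0 : ℝ) < Y ^ (2000 * Λ) := pow_pos Y0 _
  have key := split hT K (K.om α M N g) (nz (32 * K.H * N)) (K0 Λ Y N / g) n1 n2
  have ar : ∀ a b c : ℂ, a - (b - c) = c + (a - b) := fun a b c => by ring
  rw [fibre hP K α M g0 u1 u2, eq_sub_iff_add_eq.2 key.symm, ar, ← sum_sub_distrib]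
  refine (norm_add_le _ _).trans (add_le_add ?_ ?_)
  · have PQ : (K.P : ℝ) ≤ 2 * (K.Q / y) := by
      have a : (K.P : ℝ) < K.Q / y + 1 := Nat.ceil_lt_add_one (by positivity)
      have b : 1 ≤ (K.Q : ℝ) / y := (one_le_div y0).2 (yH.trans QH)
      linarith
    have s : ‖∑ x ∈ range K.P, (K.g (x / K.Q) : ℂ) * (K.g (x * n1 / (K.Q * n2)) : ℂ) *
        ∑ t ∈ nz (32 * K.H * N), K.om α M N g t * ee (-(t * (x / (K.Q * n2))))‖ ≤ K.P * Φ := by
      refine (norm_sum_le_of_le _ (n := fun _ => Φ) fun x hx => ?_).trans (by simp)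
      have a : (x : ℝ) < K.Q / y := Nat.lt_ceil.1 (mem_range.1 hx)
      have b := hΦ (x / (K.Q * n2)) (by
        rw [abs_of_nonneg (by positivity), div_mul_eq_mul_div, div_mul_eq_mul_div,
          div_le_iff₀ (by positivity)]
        have := (lt_div_iff₀ y0).1 a
        calc (x : ℝ) * N * y = x * y * N := by ring
          _ ≤ K.Q * (g * n2) := by gcongr
          _ = _ := by ring)
      rw [norm_mul, norm_mul, Complex.norm_real, Complex.norm_real, Real.norm_of_nonneg (K.g0 _),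
        Real.norm_of_nonneg (K.g0 _)]
      exact (mul_le_of_le_one_left (norm_nonneg _)
        (mul_le_one₀ (K.g1 _) (K.g0 _) (K.g1 _))).trans b
    rw [norm_mul, norm_div, norm_one, norm_mul, Complex.norm_natCast, Complex.norm_natCast]
    calc _ ≤ 1 / ((K.Q : ℝ) * n2) * (2 * (K.Q / y) * Φ) := by
          gcongr
          exact s.trans (mul_le_mul_of_nonneg_right PQ Φ0)
      _ = 2 * g * Φ / (g * n2 * y) := by field_simp
      _ ≤ _ := by gcongr
  · refine (norm_sum_le_of_le _ (n := fun _ => M * (2 / Y ^ (2000 * Λ))) fun t _ => ?_).trans ?_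
    · rw [← mul_sub, norm_mul]
      by_cases ht : 2 * ((8 * K.H * N / g + 1 : ℕ) : ℤ) < |t|
      · rw [Ker.om, hP.zero _ _ ht]
        simp only [Complex.ofReal_zero, zero_mul, norm_zero]
        positivity
      · have a : 8 * K.H * N / g ≤ 8 * K.H * n2 :=
          Nat.div_le_of_le_mul (by nlinarith)
        have b : 1 ≤ K.H * n2 := Nat.mul_pos H0 n0
        have c : 2 * (8 * K.H * N / g + 1) ≤ 32 * K.H * n2 := by nlinarith
        have d : |t| ≤ 32 * K.H * n2 := (not_lt.1 ht).trans (by exact_mod_cast c)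
        refine mul_le_mul ?_ ((le_div_iff₀ τ0).2 (hG Λ Y K hB n1 n2 _ t n0 hc c1 d c2 c3))
          (norm_nonneg _) (Nat.cast_nonneg _)
        rw [Ker.om, norm_mul, Complex.norm_real, Real.norm_of_nonneg (hP.bd _ _).1]
        exact (mul_le_of_le_one_left (norm_nonneg _) (hP.bd _ _).2).trans (hT.wle _ _).1
    · rw [sum_const, nsmul_eq_mul]
      have a := card_nz (32 * K.H * N)
      push_cast at a
      calc _ ≤ 2 * (32 * K.H * N) * (M * (2 / Y ^ (2000 * Λ))) := by gcongr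
        _ = 128 * K.H * (M * N) / Y ^ (2000 * Λ) := by ring
        _ ≤ Y * Y ^ (90 * Λ + 3) * Y ^ (270 * Λ + 1) / Y ^ (2000 * Λ) := by
          gcongr
          · exact K.Hhi
          · exact hX.mn
        _ ≤ _ := by
          rw [div_le_div_iff₀ τ0 (pow_pos Y0 _), one_mul, ← pow_succ', ← pow_add, ← pow_add]
          exact pow_le_pow_right₀ Y1 (by omega)

end Pool.Agent.Lib.AP
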