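import Pool.Agent.Lib.AP.Blue

/-! The estimate with a free variable, from the box estimate and the separation of variables. -/

open Finset Classical

noncomputable section

namespace Pool.Agent.Lib.AP

namespace EII

/-- a bilinear bound, uniform in the coefficients of a class -/
def Bd {ι τ : Type} (A : Finset ι) (B : Finset τ) (P : (τ → ℂ) → Prop) (G : ι → τ → ℂ)
    (E : ℝ) : Prop :=
  ∀ (a : ι → ℂ) (β : τ → ℂ), (∀ x, ‖a x‖ ≤ 1) → P β →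
    ‖∑ x ∈ A, ∑ y ∈ B, a x * β y * G x y‖ ≤ E

theorem bd_sep (hT : St_TOOL) (hS : St_SEP) {ι τ : Type} {A : Finset ι} {B : Finset τ}
    {P : (τ → ℂ) → Prop} {G : ι → τ → ℂ} {E : ℝ} (Z : ℕ) (u : ι → ℕ) (v : τ → ℕ)
    (hu : ∀ x ∈ A, u x ≤ Z) (hv : ∀ y ∈ B, v y ≤ Z)
    (hP : ∀ (β : τ → ℂ) (θ : ℝ), P β → P fun y => β y * ee (θ * v y)) {L : ℝ}
    (hL : 3 * (1 + Real.log (2 * Z + 2)) ≤ L) (hE : 0 ≤ E) (h : Bd A B P G E) :
    Bd A B P (fun x y => if u x < v y then G x y else 0) (L * E) := by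
  intro a β ha hβ
  obtain ⟨c, hc, hs⟩ := hS Z
  have key : ∑ x ∈ A, ∑ y ∈ B, a x * β y * (if u x < v y then G x y else 0) =
      ∑ j ∈ range (2 * Z + 2), c j * ∑ x ∈ A, ∑ y ∈ B,
        (a x * ee (-(j * u x) / (2 * Z + 2))) * (β y * ee ((j / (2 * Z + 2)) * v y)) * G x y := by
    simp only [mul_sum]
    rw [sum_comm (s := range (2 * Z + 2))]
    refine sum_congr rfl fun x hx => ?_
    rw [sum_comm (s := range (2 * Z + 2))]
    refine sum_congr rfl fun y hy => ?_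
    have h1 := hs (u x) (v y) (hu x hx) (hv y hy)
    calc a x * β y * (if u x < v y then G x y else 0)
        = a x * β y * G x y * (if u x < v y then 1 else 0) := by split_ifs <;> simp
      _ = _ := by
        rw [h1, mul_sum]
        refine sum_congr rfl fun j _ => ?_
        rw [show ((j : ℝ) / (2 * Z + 2)) * v y = j * v y / (2 * Z + 2) by ring]
        ring
  rw [key]
  calc _ ≤ ∑ j ∈ range (2 * Z + 2), ‖c j‖ * E := by
        refine norm_sum_le_of_le _ fun j _ => ?_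
        rw [norm_mul]
        refine mul_le_mul_of_nonneg_left ?_ (norm_nonneg _)
        refine h (fun x => a x * ee (-(j * u x) / (2 * Z + 2))) _ (fun x => ?_) (hP β _ hβ)
        rw [norm_mul, hT.norm, mul_one]
        exact ha x
    _ ≤ L * E := by
        rw [← sum_mul]
        exact mul_le_mul_of_nonneg_right (hc.trans hL) hE

theorem bd_neg {ι τ : Type} {A : Finset ι} {B : Finset τ} {P : (τ → ℂ) → Prop}
    {G : ι → τ → ℂ} {E E' : ℝ} (p : ι → τ → Prop) [∀ x y, Decidable (p x y)]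
    (h : Bd A B P G E)
    (h' : Bd A B P (fun x y => if p x y then G x y else 0) E') :
    Bd A B P (fun x y => if p x y then 0 else G x y) (E + E') := by
  intro a β ha hβ
  have key : ∑ x ∈ A, ∑ y ∈ B, a x * β y * (if p x y then 0 else G x y) =
      ∑ x ∈ A, ∑ y ∈ B, a x * β y * G x y -
        ∑ x ∈ A, ∑ y ∈ B, a x * β y * (if p x y then G x y else 0) := by
    rw [← sum_sub_distrib]
    refine sum_congr rfl fun x _ => ?_
    rw [← sum_sub_distrib]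
    refine sum_congr rfl fun y _ => ?_
    split_ifs <;> simp
  rw [key]
  exact (norm_sub_le _ _).trans (add_le_add (h a β ha hβ) (h' a β ha hβ))

/-- collecting a sum over pairs by the product -/
theorem collect (A : Finset (ℕ × ℕ)) (W : ℕ) (hA : ∀ x ∈ A, x.1 * x.2 ∈ Icc 1 W)
    (a : ℕ × ℕ → ℂ) (ha : ∀ x, ‖a x‖ ≤ 1) {Y : ℝ} (hY : 0 < Y)
    (hd : ∀ n ≤ W, ((Nat.divisors n).card : ℝ) ≤ Y) :
    ∃ a' : ℕ → ℂ, (∀ n, ‖a' n‖ ≤ 1) ∧ ∀ H : ℕ → ℂ,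
      ∑ x ∈ A, a x * H (x.1 * x.2) = (Y : ℂ) * ∑ n ∈ Icc 1 W, a' n * H n := by
  refine ⟨fun n => (∑ x ∈ A with x.1 * x.2 = n, a x) / Y, fun n => ?_, fun H => ?_⟩
  · rw [norm_div, Complex.norm_real, Real.norm_of_nonneg hY.le, div_le_one hY]
    by_cases hn : n ∈ Icc 1 W
    · have hn0 : n ≠ 0 := by have := (mem_Icc.1 hn).1; omega
      calc _ ≤ ∑ x ∈ A with x.1 * x.2 = n, (1 : ℝ) := norm_sum_le_of_le _ fun x _ => ha x
        _ = ((A.filter fun x => x.1 * x.2 = n).card : ℝ) := by simp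
        _ ≤ ((Nat.divisors n).card : ℝ) := by
          refine Nat.cast_le.2 (card_le_card_of_injOn (fun x => x.1) (fun x hx => ?_) ?_)
          · have h1 := (mem_filter.1 (mem_coe.1 hx)).2
            exact mem_coe.2 (Nat.mem_divisors.2 ⟨⟨x.2, h1.symm⟩, hn0⟩)
          · intro x hx y hy hxy
            have h1 := (mem_filter.1 (mem_coe.1 hx)).2
            have h2 := (mem_filter.1 (mem_coe.1 hy)).2
            have h3 : x.1 = y.1 := hxy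
            have h4 : x.1 ≠ 0 := fun h0 => hn0 (by rw [← h1, h0, zero_mul])
            refine Prod.ext h3 (Nat.eq_of_mul_eq_mul_left (Nat.pos_of_ne_zero h4) ?_)
            rw [h1, h3, h2]
        _ ≤ Y := hd n (mem_Icc.1 hn).2
    · rw [filter_false_of_mem, sum_empty, norm_zero]
      · exact hY.le
      · intro x hx h1
        exact hn (h1 ▸ hA x hx)
  · have hY' : (Y : ℂ) ≠ 0 := by exact_mod_cast hY.ne'
    rw [← sum_fiberwise_of_maps_to hA, mul_sum]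
    refine sum_congr rfl fun n _ => ?_
    rw [← mul_assoc, mul_div_cancel₀ _ hY', sum_mul]
    refine sum_congr rfl fun x hx => ?_
    rw [(mem_filter.1 hx).2]

theorem exists_Ioc (I : Finset ℕ) (h0 : 0 ∉ I)
    (hI : ∀ x ∈ I, ∀ z ∈ I, ∀ y, x ≤ y → y ≤ z → y ∈ I) : ∃ p : ℕ × ℕ, I = Ioc p.1 p.2 := by
  rcases I.eq_empty_or_nonempty with rfl | hne
  · exact ⟨(0, 0), by simp⟩
  · refine ⟨(I.min' hne - 1, I.max' hne), ?_⟩
    have h1 : I.min' hne ≠ 0 := fun h => h0 (h ▸ I.min'_mem hne)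
    ext y
    simp only [mem_Ioc]
    constructor
    · intro hy
      have h2 := I.min'_le y hy
      exact ⟨by omega, I.le_max' y hy⟩
    · rintro ⟨h2, h3⟩
      exact hI _ (I.min'_mem hne) _ (I.max'_mem hne) y (by omega) h3

variable {Λ : ℕ} {Y : ℝ}

theorem big_two (hB : Big Λ Y) : 1000 ≤ Y := by
  have h1 : (1 : ℝ) ≤ Y := le_trans (one_le_pow₀ (by norm_num)) hB.two
  have h2 := Real.log_nonneg (one_le_pow₀ (n := 2000 * Λ) h1)
  have h3 := hB.log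
  linarith

theorem x1_le (hB : Big Λ Y) : (X1 Λ Y : ℝ) ≤ Y ^ (270 * Λ + 1) :=
  Nat.floor_le (pow_nonneg (by linarith [big_two hB]) _)

theorem x1_sq (hB : Big Λ Y) : ((X1 Λ Y * X1 Λ Y : ℕ) : ℝ) ≤ Y ^ (2000 * Λ) := by
  have h1 := big_two hB
  have h2 := x1_le hB
  have h3 := hB.lam
  push_cast
  calc (X1 Λ Y : ℝ) * X1 Λ Y ≤ Y ^ (270 * Λ + 1) * Y ^ (270 * Λ + 1) :=
        mul_le_mul h2 h2 (Nat.cast_nonneg _) (by positivity)
    _ ≤ _ := by rw [← pow_add]; exact pow_le_pow_right₀ (by linarith) (by omega)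

theorem log_le (hB : Big Λ Y) :
    1 + 3 * (1 + Real.log (2 * ((2 * X1 Λ Y : ℕ) : ℝ) + 2)) ≤ Y := by
  have h1 := big_two hB
  have h2 := x1_le hB
  have h3 := hB.lam
  have h4 := hB.log
  have h5 : (1 : ℝ) ≤ Y ^ (270 * Λ + 1) := one_le_pow₀ (by linarith)
  have h6 : 2 * ((2 * X1 Λ Y : ℕ) : ℝ) + 2 ≤ Y ^ (2000 * Λ) := by
    push_cast
    calc 2 * (2 * (X1 Λ Y : ℝ)) + 2 ≤ Y ^ (270 * Λ + 1) * Y := by nlinarith
      _ ≤ _ := by rw [← pow_succ]; exact pow_le_pow_right₀ (by linarith) (by omega)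
  have h7 := Real.log_le_log (by positivity) h6
  linarith

theorem nlog_le (hB : Big Λ Y) : ((Nat.log 2 (X1 Λ Y) + 1 : ℕ) : ℝ) ≤ Y := by
  have h1 := big_two hB
  have h3 := hB.lam
  have h4 := hB.log
  have h5 : (1 : ℝ) ≤ Y ^ (2000 * Λ) := one_le_pow₀ (by linarith)
  have h6 : (2 : ℝ) ^ Nat.log 2 (X1 Λ Y) ≤ Y ^ (2000 * Λ) := by
    rcases Nat.eq_zero_or_pos (X1 Λ Y) with h0 | h0
    · rw [h0]; simpa using h5
    · calc (2 : ℝ) ^ Nat.log 2 (X1 Λ Y) ≤ X1 Λ Y := by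
            exact_mod_cast Nat.pow_log_le_self 2 h0.ne'
        _ ≤ Y ^ (270 * Λ + 1) := x1_le hB
        _ ≤ _ := pow_le_pow_right₀ (by linarith) (by omega)
  have h7 := Real.log_le_log (by positivity) h6
  rw [Real.log_pow] at h7
  have h8 := Real.log_two_gt_d9
  have h9 : (0 : ℝ) ≤ Nat.log 2 (X1 Λ Y) := Nat.cast_nonneg _
  push_cast
  nlinarith

/-- left indices of the box -/
def LA (X N : ℕ) : Finset (ℕ × ℕ) := (Icc 1 X ×ˢ Icc 1 X).filter fun x => x.1 * x.2 ≤ X / N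

/-- right indices of the box -/
def RB (Λ : ℕ) (Y : ℝ) (X N : ℕ) : Finset ((ℕ × ℕ) × ℕ) :=
  ((Icc 1 X ×ˢ Icc 1 X) ×ˢ Icc 1 X).filter fun y =>
    y.1.1 * y.1.2 * y.2 ∈ Ico N (2 * N) ∧ adm2 Λ Y (y.1.1 * y.1.2) y.2

/-- the class of right-hand coefficients -/
def Cl (β : (ℕ × ℕ) × ℕ → ℂ) : Prop :=
  ∃ (b : ℕ × ℕ → ℂ) (θ : ℝ), (∀ p, ‖b p‖ ≤ 1) ∧
    ∀ y, β y = b y.1 * ee (θ * (y.1.1 * y.1.2 * y.2 : ℕ))

theorem cl_left (hT : St_TOOL) (v : ℕ × ℕ → ℕ) (β : (ℕ × ℕ) × ℕ → ℂ) (θ : ℝ) (h : Cl β) :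
    Cl fun y => β y * ee (θ * v y.1) := by
  obtain ⟨b, θ0, hb, hβ⟩ := h
  refine ⟨fun p => b p * ee (θ * v p), θ0, fun p => ?_, fun y => ?_⟩
  · rw [norm_mul, hT.norm, mul_one]; exact hb p
  · simp only [hβ y]; ring

theorem cl_all (hT : St_TOOL) (β : (ℕ × ℕ) × ℕ → ℂ) (θ : ℝ) (h : Cl β) :
    Cl fun y => β y * ee (θ * (y.1.1 * y.1.2 * y.2 : ℕ)) := by
  obtain ⟨b, θ0, hb, hβ⟩ := h
  refine ⟨b, θ0 + θ, hb, fun y => ?_⟩
  simp only [hβ y]
  rw [add_mul, hT.add, mul_assoc]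

theorem adm_conv (hY : 1 ≤ Y) {s x y z : ℕ} (hx : adm2 Λ Y s x) (hz : adm2 Λ Y s z)
    (hxy : x ≤ y) (hyz : y ≤ z) : adm2 Λ Y s y := by
  have h1 : (x : ℝ) ≤ y := by exact_mod_cast hxy
  have h2 : (y : ℝ) ≤ z := by exact_mod_cast hyz
  refine ⟨hx.1.trans (by gcongr), le_trans ?_ hz.2⟩
  gcongr

theorem base (hX : St_BX2) {α : ℝ} {q : ℕ} (K : Ker Λ Y) (hB : Big Λ Y) (hD : Dio Λ Y α q)
    (N : ℕ) :
    Bd (LA (X1 Λ Y) N) (RB Λ Y (X1 Λ Y) N) Cl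
      (fun x y => K.D α (x.1 * x.2 * (y.1.1 * y.1.2 * y.2)))
      (Y ^ 2 * (K.η * Y ^ (270 * Λ) / Y ^ 80)) := by
  have hY := big_two hB
  have hY0 : 0 < Y := by linarith
  have hY1 : 1 ≤ Y := by linarith
  have hη : 0 ≤ K.η := (norm_nonneg _).trans (K.cle 0)
  set X := X1 Λ Y with hXd
  rintro a β ha ⟨b, θ, hb, hβ⟩
  rcases (RB Λ Y X N).eq_empty_or_nonempty with h0 | ⟨y0, hy0⟩
  · rw [h0]
    simp only [sum_empty, sum_const_zero, norm_zero]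
    positivity
  have hsz : ∀ s κ : ℕ, N ≤ s * κ → adm2 Λ Y s κ →
      (s : ℝ) ^ 2 * (N : ℝ) ^ 3 * Y ^ 990 ≤ Y ^ (360 * Λ) := by
    intro s κ h1 h2
    have h3 : (N : ℝ) ≤ s * κ := by exact_mod_cast h1
    refine le_trans ?_ h2.2
    gcongr
    norm_num
  have hbox : Box Λ Y (X / N) N := by
    obtain ⟨h1, h2, h3⟩ := mem_filter.1 hy0
    simp only [mem_product, mem_Icc] at h1
    rw [mem_Ico] at h2
    refine ⟨h3.1.trans ?_, ?_, le_trans ?_ (x1_le hB)⟩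
    · exact_mod_cast (by omega : y0.1.1 * y0.1.2 * y0.2 ≤ 4 * N)
    · have h4 := hsz _ _ h2.1 h3
      have h5 : (1 : ℝ) ≤ (y0.1.1 * y0.1.2 : ℕ) := by
        exact_mod_cast Nat.mul_pos h1.1.1.1 h1.1.2.1
      have h6 : (N : ℝ) ^ 3 ≤ (Y ^ (120 * Λ)) ^ 3 := by
        rw [← pow_mul, show 120 * Λ * 3 = 360 * Λ by ring]
        refine le_trans ?_ h4
        calc (N : ℝ) ^ 3 = 1 ^ 2 * (N : ℝ) ^ 3 * 1 := by ring
          _ ≤ _ := by gcongr; exact one_le_pow₀ hY1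
      exact le_of_pow_le_pow_left₀ (by norm_num) (by positivity) h6
    · exact_mod_cast Nat.div_mul_le_self X N
  set R := Nat.findGreatest (fun s : ℕ => (s : ℝ) ^ 2 * (N : ℝ) ^ 3 * Y ^ 990 ≤ Y ^ (360 * Λ))
    (X * X) with hR
  have hR1 : (R : ℝ) ^ 2 * (N : ℝ) ^ 3 * Y ^ 990 ≤ Y ^ (360 * Λ) :=
    Nat.findGreatest_spec
      (P := fun s : ℕ => (s : ℝ) ^ 2 * (N : ℝ) ^ 3 * Y ^ 990 ≤ Y ^ (360 * Λ)) (Nat.zero_le _)
      (by simp only [Nat.cast_zero]; norm_num; positivity)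
  have hR2 : R ≤ X * X := Nat.findGreatest_le _
  have hdv : ∀ n ≤ X * X, ((Nat.divisors n).card : ℝ) ≤ Y := fun n hn =>
    hB.div n (le_trans (by exact_mod_cast hn) (x1_sq hB))
  have hI : ∀ s : ℕ, ∃ p : ℕ × ℕ, ((Icc 1 X).filter fun κ =>
      s * κ ∈ Ico N (2 * N) ∧ adm2 Λ Y s κ) = Ioc p.1 p.2 := by
    intro s
    refine exists_Ioc _ (by simp) fun x hx z hz y hxy hyz => ?_
    simp only [mem_filter, mem_Icc, mem_Ico] at hx hz ⊢
    have h1 := Nat.mul_le_mul_left s hxy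
    have h2 := Nat.mul_le_mul_left s hyz
    exact ⟨by omega, by omega, adm_conv hY1 hx.2.2 hz.2.2 hxy hyz⟩
  choose p hp using hI
  obtain ⟨a', ha', hA⟩ := collect (LA X N) (X / N) (fun x hx => by
    obtain ⟨h1, h2⟩ := mem_filter.1 hx
    simp only [mem_product, mem_Icc] at h1
    exact mem_Icc.2 ⟨Nat.mul_pos h1.1.1 h1.2.1, h2⟩) a ha hY0
    (fun n hn => hdv n (hn.trans ((Nat.div_le_self _ _).trans (Nat.le_mul_self X))))
  obtain ⟨b', hb', hBB⟩ := collect ((Icc 1 X ×ˢ Icc 1 X).filter fun x => x.1 * x.2 ≤ R) R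
    (fun x hx => by
      obtain ⟨h1, h2⟩ := mem_filter.1 hx
      simp only [mem_product, mem_Icc] at h1
      exact mem_Icc.2 ⟨Nat.mul_pos h1.1.1 h1.2.1, h2⟩) b hb hY0 (fun n hn => hdv n (hn.trans hR2))
  have hin : ∀ m : ℕ, ∑ y ∈ RB Λ Y X N, β y * K.D α (m * (y.1.1 * y.1.2 * y.2)) =
      (Y : ℂ) * ∑ s ∈ Icc 1 R, b' s * ∑ κ ∈ Ioc (p s).1 (p s).2,
        ee (θ * (s * κ : ℕ)) * K.D α (m * (s * κ)) := by
    intro m
    rw [← hBB fun s => ∑ κ ∈ Ioc (p s).1 (p s).2, ee (θ * (s * κ : ℕ)) * K.D α (m * (s * κ)),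
      RB, sum_filter, sum_product, sum_filter]
    refine sum_congr rfl fun x hx => ?_
    rw [← hp, ← sum_filter]
    split_ifs with h1
    · rw [mul_sum]
      refine sum_congr rfl fun κ _ => ?_
      rw [hβ, mul_assoc]
    · rw [filter_false_of_mem, sum_empty]
      intro κ _ h2
      simp only [mem_product, mem_Icc] at hx
      exact h1 (Nat.le_findGreatest (Nat.mul_le_mul hx.1.2 hx.2.2)
        (hsz _ _ (mem_Ico.1 h2.1).1 h2.2))
  have key : ∑ x ∈ LA X N, ∑ y ∈ RB Λ Y X N,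
      a x * β y * K.D α (x.1 * x.2 * (y.1.1 * y.1.2 * y.2)) =
      (Y : ℂ) * Y * ∑ m ∈ Icc 1 (X / N), ∑ s ∈ Icc 1 R, ∑ κ ∈ Ioc (p s).1 (p s).2,
        a' m * (b' s * ee (θ * (s * κ : ℕ))) * K.D α (m * (s * κ)) := by
    calc _ = ∑ x ∈ LA X N, a x * ∑ y ∈ RB Λ Y X N,
          β y * K.D α (x.1 * x.2 * (y.1.1 * y.1.2 * y.2)) := by
          simp only [mul_sum, mul_assoc]
      _ = _ := by
          rw [hA fun m => ∑ y ∈ RB Λ Y X N, β y * K.D α (m * (y.1.1 * y.1.2 * y.2)), mul_assoc]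
          congr 1
          rw [mul_sum]
          refine sum_congr rfl fun m _ => ?_
          rw [hin]
          simp only [mul_sum]
          refine sum_congr rfl fun s _ => sum_congr rfl fun κ _ => by ring
  have hb2 := hX Λ Y α q K hB hD (X / N) N R θ a' b' (fun s => (p s).1) (fun s => (p s).2) hbox
    hR1 ha' hb' (fun s _ κ hκ => by
      rw [← hp] at hκ
      have h1 := mem_Ico.1 (mem_filter.1 hκ).2.1
      exact mem_Ico.2 ⟨h1.1, by omega⟩)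
  rw [key, norm_mul, norm_mul, Complex.norm_real, Real.norm_of_nonneg hY0.le, ← sq]
  refine mul_le_mul_of_nonneg_left ?_ (by positivity)
  rw [le_div_iff₀ (by positivity)]
  exact hb2

theorem box (hT : St_TOOL) (hS : St_SEP) {X Z0 j : ℕ} {A : Finset (ℕ × ℕ)}
    {B : Finset ((ℕ × ℕ) × ℕ)} {G : ℕ × ℕ → (ℕ × ℕ) × ℕ → ℂ} {E : ℝ} (hE : 0 ≤ E) (hY : 1 ≤ Y)
    (hL : 1 + 3 * (1 + Real.log (2 * ((2 * X : ℕ) : ℝ) + 2)) ≤ Y)
    (u v : Fin 4 → ℕ → ℕ → ℕ) (hj : j ≤ X) (hZ : Z0 ≤ X)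
    (huv : ∀ i x y, u i x y ≤ 2 * X ∧ v i x y ≤ 2 * X) (hA : ∀ x ∈ A, 0 < x.1 * x.2)
    (hn : ∀ y ∈ B, y.1.1 * y.1.2 * y.2 ≤ 2 * X) (h0 : Bd A B Cl G E) :
    Bd A B Cl (fun x y => if x.1 * x.2 * (y.1.1 * y.1.2 * y.2) ∈ Ioc Z0 j ∧
      ∀ i, u i x.1 x.2 < v i y.1.1 y.1.2 then G x y else 0) (Y ^ 6 * E) := by
  have hY0 : 0 ≤ Y := by linarith
  have hL' : 3 * (1 + Real.log (2 * ((2 * X : ℕ) : ℝ) + 2)) ≤ Y := by linarith
  have hL1 : 3 * (1 + Real.log (2 * ((2 * X : ℕ) : ℝ) + 2)) ≤ Y - 1 := by linarith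
  have h1' := bd_sep hT hS (2 * X) (fun x : ℕ × ℕ => j / (x.1 * x.2))
    (fun y : (ℕ × ℕ) × ℕ => y.1.1 * y.1.2 * y.2)
    (fun x _ => (Nat.div_le_self _ _).trans (by omega)) hn (cl_all hT) hL1 hE h0
  have h1 := bd_neg _ h0 h1'
  rw [show E + (Y - 1) * E = Y * E by ring] at h1
  have h2 := bd_sep hT hS (2 * X) (fun x : ℕ × ℕ => Z0 / (x.1 * x.2))
    (fun y : (ℕ × ℕ) × ℕ => y.1.1 * y.1.2 * y.2)
    (fun x _ => (Nat.div_le_self _ _).trans (by omega)) hn (cl_all hT) hL' (by positivity) h1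
  have st : ∀ (i : Fin 4) {G : ℕ × ℕ → (ℕ × ℕ) × ℕ → ℂ} {F : ℝ}, 0 ≤ F → Bd A B Cl G F →
      Bd A B Cl (fun x y => if u i x.1 x.2 < v i y.1.1 y.1.2 then G x y else 0) (Y * F) :=
    fun i G F hF h => bd_sep hT hS (2 * X) (fun x : ℕ × ℕ => u i x.1 x.2)
      (fun y : (ℕ × ℕ) × ℕ => v i y.1.1 y.1.2) (fun x _ => (huv i x.1 x.2).1)
      (fun y _ => (huv i y.1.1 y.1.2).2) (cl_left hT fun p => v i p.1 p.2) hL' hF h
  have h3 := st 0 (by positivity) (st 1 (by positivity) (st 2 (by positivity)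
    (st 3 (by positivity) h2)))
  intro a β ha hβ
  refine le_trans (le_of_eq ?_) ((h3 a β ha hβ).trans (le_of_eq (by ring)))
  refine congrArg _ (sum_congr rfl fun x hx => sum_congr rfl fun y _ => congrArg _ ?_)
  have ht := hA x hx
  have e1 : x.1 * x.2 * (y.1.1 * y.1.2 * y.2) ∈ Ioc Z0 j ↔
      Z0 / (x.1 * x.2) < y.1.1 * y.1.2 * y.2 ∧ ¬ j / (x.1 * x.2) < y.1.1 * y.1.2 * y.2 := by
    rw [mem_Ioc, Nat.div_lt_iff_lt_mul ht, Nat.div_lt_iff_lt_mul ht,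
      mul_comm (y.1.1 * y.1.2 * y.2), not_lt]
  have e2 : (∀ i, u i x.1 x.2 < v i y.1.1 y.1.2) ↔ u 0 x.1 x.2 < v 0 y.1.1 y.1.2 ∧
      u 1 x.1 x.2 < v 1 y.1.1 y.1.2 ∧ u 2 x.1 x.2 < v 2 y.1.1 y.1.2 ∧
      u 3 x.1 x.2 < v 3 y.1.1 y.1.2 := by
    refine ⟨fun h => ⟨h 0, h 1, h 2, h 3⟩, fun h i => ?_⟩
    fin_cases i
    exacts [h.1, h.2.1, h.2.2.1, h.2.2.2]
  simp only [e1, e2]
  by_cases c0 : u 0 x.1 x.2 < v 0 y.1.1 y.1.2 <;> by_cases c1 : u 1 x.1 x.2 < v 1 y.1.1 y.1.2 <;>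
    by_cases c2 : u 2 x.1 x.2 < v 2 y.1.1 y.1.2 <;>
    by_cases c3 : u 3 x.1 x.2 < v 3 y.1.1 y.1.2 <;>
    by_cases c4 : Z0 / (x.1 * x.2) < y.1.1 * y.1.2 * y.2 <;>
    by_cases c5 : j / (x.1 * x.2) < y.1.1 * y.1.2 * y.2 <;> simp only [c0, c1, c2, c3, c4, c5] <;>
    simp

theorem dyadic {X : ℕ} (F : ℕ × ℕ → (ℕ × ℕ) × ℕ → ℂ)
    (hF : ∀ x y, F x y ≠ 0 → x.1 * x.2 * (y.1.1 * y.1.2 * y.2) ≤ X) :
    (∑ x ∈ Icc 1 X ×ˢ Icc 1 X, ∑ y ∈ (Icc 1 X ×ˢ Icc 1 X) ×ˢ Icc 1 X,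
      if adm2 Λ Y (y.1.1 * y.1.2) y.2 then F x y else 0) =
      ∑ i ∈ range (Nat.log 2 X + 1), ∑ x ∈ LA X (2 ^ i), ∑ y ∈ RB Λ Y X (2 ^ i), F x y := by
  have h1 : ∀ i, ∑ x ∈ LA X (2 ^ i), ∑ y ∈ RB Λ Y X (2 ^ i), F x y =
      ∑ x ∈ Icc 1 X ×ˢ Icc 1 X, ∑ y ∈ (Icc 1 X ×ˢ Icc 1 X) ×ˢ Icc 1 X,
        if x.1 * x.2 ≤ X / 2 ^ i ∧ y.1.1 * y.1.2 * y.2 ∈ Ico (2 ^ i) (2 * 2 ^ i) ∧
          adm2 Λ Y (y.1.1 * y.1.2) y.2 then F x y else 0 := by
    intro i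
    rw [LA, sum_filter]
    refine sum_congr rfl fun x _ => ?_
    rw [RB, sum_filter]
    by_cases c : x.1 * x.2 ≤ X / 2 ^ i <;> simp only [c, true_and, false_and, if_true, if_false]
    exact sum_const_zero.symm
  rw [sum_congr rfl fun i _ => h1 i, sum_comm (s := range (Nat.log 2 X + 1))]
  refine sum_congr rfl fun x hx => ?_
  rw [sum_comm (s := range (Nat.log 2 X + 1))]
  refine sum_congr rfl fun y hy => ?_
  by_cases c : F x y = 0
  · simp only [c, ite_self, sum_const_zero]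
  by_cases c' : adm2 Λ Y (y.1.1 * y.1.2) y.2
  swap
  · simp only [c', and_false, if_false, sum_const_zero]
  simp only [mem_product, mem_Icc] at hx hy
  have h2 := hF x y c
  have h3 : 0 < x.1 * x.2 := Nat.mul_pos hx.1.1 hx.2.1
  have h4 : 0 < y.1.1 * y.1.2 * y.2 := Nat.mul_pos (Nat.mul_pos hy.1.1.1 hy.1.2.1) hy.2.1
  simp only [c', and_true, if_true]
  generalize y.1.1 * y.1.2 * y.2 = n at h2 h4
  generalize x.1 * x.2 = t at h2 h3
  have h5 := Nat.pow_log_le_self 2 h4.ne'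
  have h6 := Nat.lt_pow_succ_log_self (by norm_num : 1 < 2) n
  rw [sum_eq_single_of_mem (Nat.log 2 n), if_pos]
  · refine ⟨(Nat.le_div_iff_mul_le (by positivity)).2 ?_, mem_Ico.2 ⟨h5, ?_⟩⟩
    · exact (Nat.mul_le_mul_left t h5).trans h2
    · rwa [Nat.pow_succ, mul_comm] at h6
  · exact mem_range.2 (Nat.lt_succ_of_le (Nat.log_mono_right
      ((Nat.le_mul_of_pos_left n h3).trans h2)))
  · intro i _ hi
    refine if_neg fun h => hi ?_
    have h7 := mem_Ico.1 h.2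
    exact (Nat.log_eq_of_pow_le_of_lt_pow h7.1 (by rw [pow_succ, mul_comm]; exact h7.2)).symm

end EII

open EII in
theorem st_EII (hT : St_TOOL) (hX : St_BX2) (hS : St_SEP) : St_EII := by
  intro Λ Y α q K hB hD a b u v j ha hb huv hj
  have hY := big_two hB
  have hY0 : 0 < Y := by linarith
  have hY1 : 1 ≤ Y := by linarith
  have hη : 0 ≤ K.η := (norm_nonneg _).trans (K.cle 0)
  have hX01 : X0 Λ Y ≤ X1 Λ Y := Nat.floor_le_floor (pow_le_pow_right₀ hY1 (Nat.le_succ _))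
  have hX0 : 1 ≤ X1 Λ Y := Nat.le_floor (by rw [Nat.cast_one]; exact one_le_pow₀ hY1)
  have hL := log_le hB
  have h2 := nlog_le hB
  have h0 := base hX K hB hD
  generalize X1 Λ Y = X at *
  have hE : 0 ≤ Y ^ 2 * (K.η * Y ^ (270 * Λ) / Y ^ 80) := by positivity
  have key := dyadic (Λ := Λ) (Y := Y) (X := X) (fun x y => a x.1 x.2 * b y.1.1 y.1.2 *
    if x.1 * x.2 * (y.1.1 * y.1.2 * y.2) ∈ Ioc (X0 Λ Y) j ∧ ∀ i, u i x.1 x.2 < v i y.1.1 y.1.2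
      then K.D α (x.1 * x.2 * (y.1.1 * y.1.2 * y.2)) else 0) (fun x y h => by
        by_contra c
        refine h ?_
        rw [if_neg fun h1 => c ((mem_Ioc.1 h1.1).2.trans hj), mul_zero])
  have hbd := norm_sum_le_of_le (range (Nat.log 2 X + 1)) fun i hi =>
    box hT hS hE hY1 hL u v hj hX01 huv (A := LA X (2 ^ i)) (B := RB Λ Y X (2 ^ i))
      (fun x hx => by
        have h1 := (mem_filter.1 hx).1
        simp only [mem_product, mem_Icc] at h1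
        exact Nat.mul_pos h1.1.1 h1.2.1)
      (fun y hy => by
        have h1 := (mem_Ico.1 (mem_filter.1 hy).2.1).2
        have h3 : 2 ^ i ≤ X :=
          Nat.pow_le_of_le_log (by omega) (by have := mem_range.1 hi; omega)
        omega) (h0 (2 ^ i)) (fun x => a x.1 x.2) (fun y => b y.1.1 y.1.2) (fun x => ha _ _)
      ⟨fun p => b p.1 p.2, 0, fun p => hb _ _, fun y => by simp [ee]⟩
  rw [← key, sum_const, card_range, nsmul_eq_mul] at hbd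
  calc _ ≤ Y * (Y ^ 6 * (Y ^ 2 * (K.η * Y ^ (270 * Λ) / Y ^ 80))) * Y ^ 70 := by
        refine mul_le_mul_of_nonneg_right (le_trans (le_of_eq ?_) (hbd.trans ?_)) (by positivity)
        · refine congrArg _ ?_
          simp only [sum_product]
          refine sum_congr rfl fun m _ => sum_congr rfl fun e _ => sum_congr rfl fun r _ =>
            sum_congr rfl fun f _ => sum_congr rfl fun κ _ => ?_
          by_cases c1 : adm2 Λ Y (r * f) κ <;>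
            simp only [c1, true_and, false_and, and_false, if_true, if_false, mul_ite, mul_zero]
        · exact mul_le_mul_of_nonneg_right h2 (by positivity)
    _ = K.η * Y ^ (270 * Λ) / Y := by field_simp
    _ ≤ _ := div_le_self (by positivity) hY1

end Pool.Agent.Lib.AP
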