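import Pool.Agent.Lib.AP.Blue

/-! The trilinear estimate with cut-off and cross conditions. -/

open Finset Classical

noncomputable section

namespace Pool.Agent.Lib.AP

namespace ET3

/-- a bilinear bound for all coefficients of size at most one -/
def PB {ι κ : Type} (A : Finset ι) (B : Finset κ) (F : ι → κ → ℂ) (E : ℝ) : Prop :=
  ∀ (a : ι → ℂ) (b : κ → ℂ), (∀ i, ‖a i‖ ≤ 1) → (∀ k, ‖b k‖ ≤ 1) →
    ‖∑ i ∈ A, ∑ k ∈ B, a i * b k * F i k‖ ≤ E

theorem ee_norm (x : ℝ) : ‖ee x‖ = 1 := by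
  rw [ee, show 2 * Real.pi * Complex.I * x = ((2 * Real.pi * x : ℝ) : ℂ) * Complex.I by
    push_cast; ring, Complex.norm_exp_ofReal_mul_I]

theorem sep1 (hS : St_SEP) {ι κ : Type} {A : Finset ι} {B : Finset κ} {F : ι → κ → ℂ} {E W : ℝ}
    {Z : ℕ} (hW : 3 * (1 + Real.log (2 * Z + 2)) ≤ W) (h : PB A B F E) (u : ι → ℕ) (v : κ → ℕ)
    (hu : ∀ i ∈ A, u i ≤ Z) (hv : ∀ k ∈ B, v k ≤ Z) :
    PB A B (fun i k => if u i < v k then F i k else 0) (W * E) := by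
  intro a b ha hb
  obtain ⟨c, hc, hs⟩ := hS Z
  have E0 : 0 ≤ E := (norm_nonneg _).trans (h a b ha hb)
  have e : ∑ i ∈ A, ∑ k ∈ B, a i * b k * (if u i < v k then F i k else 0) =
      ∑ j ∈ range (2 * Z + 2), c j * ∑ i ∈ A, ∑ k ∈ B,
        (a i * ee (-(j * u i) / (2 * Z + 2))) * (b k * ee (j * v k / (2 * Z + 2))) * F i k := by
    simp only [mul_sum]
    rw [sum_comm (s := range (2 * Z + 2))]
    refine sum_congr rfl fun i hi => ?_
    rw [sum_comm (s := range (2 * Z + 2))]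
    refine sum_congr rfl fun k hk => ?_
    have h1 : (if u i < v k then F i k else 0) = (if u i < v k then (1 : ℂ) else 0) * F i k := by
      split_ifs <;> simp
    rw [h1, hs _ _ (hu i hi) (hv k hk), sum_mul, mul_sum]
    exact sum_congr rfl fun j _ => by ring
  rw [e]
  refine (norm_sum_le _ _).trans ?_
  refine le_trans (sum_le_sum fun j _ => ?_ : _ ≤ ∑ j ∈ range (2 * Z + 2), ‖c j‖ * E) ?_
  · rw [norm_mul]
    refine mul_le_mul_of_nonneg_left (h _ _ (fun i => ?_) fun k => ?_) (norm_nonneg _)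
    · rw [norm_mul, ee_norm, mul_one]
      exact ha i
    · rw [norm_mul, ee_norm, mul_one]
      exact hb k
  · rw [← sum_mul]
    exact mul_le_mul_of_nonneg_right (hc.trans hW) E0

theorem dyadic (f : ℕ → ℂ) (L : ℕ) :
    ∑ x ∈ Ico 1 (2 ^ L), f x = ∑ i ∈ range L, ∑ x ∈ Ico (2 ^ i) (2 * 2 ^ i), f x := by
  induction L with
  | zero => simp
  | succ L ih =>
    rw [sum_range_succ, ← ih, pow_succ', sum_Ico_consecutive _ Nat.one_le_two_pow (by omega)]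

theorem cut {X L : ℕ} (h : X < 2 ^ L) (f : ℕ → ℂ) :
    ∑ x ∈ Icc 1 X, f x =
      ∑ i ∈ range L, ∑ x ∈ Ico (2 ^ i) (2 * 2 ^ i), if x ≤ X then f x else 0 := by
  rw [← dyadic (fun x => if x ≤ X then f x else 0) L, ← sum_filter]
  refine sum_congr ?_ fun _ _ => rfl
  ext x
  simp only [mem_Icc, mem_filter, mem_Ico]
  omega

theorem fib_card (A : Finset (ℕ × ℕ)) {s : ℕ} (hs : s ≠ 0) :
    (A.filter fun p => p.1 * p.2 = s).card ≤ s.divisors.card := by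
  refine card_le_card_of_injOn Prod.fst (fun p hp => ?_) fun p hp p' hp' e => ?_
  · exact mem_coe.2 (Nat.mem_divisors.2 ⟨Dvd.intro _ (mem_filter.1 (mem_coe.1 hp)).2, hs⟩)
  · have h1 := (mem_filter.1 (mem_coe.1 hp)).2
    have h2 := (mem_filter.1 (mem_coe.1 hp')).2
    have h3 : p.1 ≠ 0 := fun h => hs (by rw [← h1, h, zero_mul])
    refine Prod.ext e (Nat.eq_of_mul_eq_mul_left (Nat.pos_of_ne_zero h3) ?_)
    rw [h1, ← h2, e]

theorem collapse {κ : Type} {B : Finset κ} {G : ℕ → κ → ℂ} {E W : ℝ} {M X : ℕ} (hW : 0 < W)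
    (hd : ∀ s ∈ Icc 1 M, (s.divisors.card : ℝ) ≤ W) (h : PB (Icc 1 M) B G E) :
    PB (Icc 1 X ×ˢ Icc 1 X) B (fun p k => if p.1 * p.2 ≤ M then G (p.1 * p.2) k else 0)
      (W * E) := by
  intro a b ha hb
  set A := Icc 1 X ×ˢ Icc 1 X with hA
  set a' : ℕ → ℂ := fun s => if s ∈ Icc 1 M then
    (∑ p ∈ A.filter fun p => p.1 * p.2 = s, a p) / W else 0 with ha'
  have hW' : (W : ℂ) ≠ 0 := by exact_mod_cast hW.ne'
  have e : ∑ p ∈ A, ∑ k ∈ B, a p * b k * (if p.1 * p.2 ≤ M then G (p.1 * p.2) k else 0) =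
      W * ∑ s ∈ Icc 1 M, ∑ k ∈ B, a' s * b k * G s k := by
    have e1 : ∀ s ∈ Icc 1 M, (W : ℂ) * ∑ k ∈ B, a' s * b k * G s k =
        ∑ p ∈ A, if p.1 * p.2 = s then ∑ k ∈ B, a p * b k * G s k else 0 := by
      intro s hs
      rw [← sum_filter, sum_comm, mul_sum]
      refine sum_congr rfl fun k _ => ?_
      simp only [ha', if_pos hs]
      rw [← sum_mul, ← sum_mul]
      field_simp
    rw [mul_sum, sum_congr rfl e1, sum_comm (s := Icc 1 M)]
    refine sum_congr rfl fun p hp => ?_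
    rw [sum_ite_eq]
    have h1 := (mem_Icc.1 (mem_product.1 hp).1).1
    have h2 := (mem_Icc.1 (mem_product.1 hp).2).1
    have h3 : 1 ≤ p.1 * p.2 := Nat.mul_pos h1 h2
    by_cases h4 : p.1 * p.2 ≤ M
    · simp only [if_pos h4, if_pos (mem_Icc.2 ⟨h3, h4⟩)]
    · simp [h4]
  rw [e, norm_mul, Complex.norm_real, Real.norm_of_nonneg hW.le]
  refine mul_le_mul_of_nonneg_left (h a' b (fun s => ?_) hb) hW.le
  simp only [ha']
  split_ifs with hs
  · rw [norm_div, Complex.norm_real, Real.norm_of_nonneg hW.le, div_le_one hW]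
    refine (norm_sum_le _ _).trans ((sum_le_card_nsmul _ _ 1 fun p _ => ha p).trans ?_)
    rw [nsmul_eq_mul, mul_one]
    refine le_trans ?_ (hd s hs)
    have := (mem_Icc.1 hs).1
    exact_mod_cast fib_card A (by omega)
  · simp

theorem swap6 (A R : Finset ℕ) (P : ℕ → Finset ℕ) (T : ℕ → ℕ → ℕ → ℕ → ℕ → ℕ → ℂ) :
    ∑ m ∈ A, ∑ e ∈ A, ∑ i ∈ R, ∑ x ∈ P i, ∑ l ∈ R, ∑ y ∈ P l, T m e i x l y =
      ∑ i ∈ R, ∑ l ∈ R, ∑ p ∈ A ×ˢ A, ∑ k ∈ P i ×ˢ P l, T p.1 p.2 i k.1 l k.2 := by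
  rw [← sum_product' (f := fun m e => ∑ i ∈ R, ∑ x ∈ P i, ∑ l ∈ R, ∑ y ∈ P l, T m e i x l y),
    sum_comm]
  refine sum_congr rfl fun i _ => ?_
  rw [sum_comm (s := R)]
  refine sum_congr rfl fun p _ => ?_
  rw [sum_comm]
  refine sum_congr rfl fun l _ => ?_
  rw [sum_product]

end ET3

open ET3 in
theorem st_ET3 (hBX : St_BX3) (hS : St_SEP) : St_ET3 := by
  intro Λ Y α q K hB hD a b u v j ha hb hadm huv hj
  have hΛ := hB.lam
  have hY2 : (2 : ℝ) ≤ Y := le_trans (le_self_pow₀ (by norm_num) (by omega)) hB.two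
  have hY0 : 0 < Y := by linarith
  have hY1 : 1 ≤ Y := by linarith
  set X := X1 Λ Y with hX
  have X1' : (X : ℝ) ≤ Y ^ (270 * Λ + 1) := Nat.floor_le (by positivity)
  have X2 : (X : ℝ) ≤ Y ^ (2000 * Λ) := X1'.trans (pow_le_pow_right₀ hY1 (by omega))
  have X3 : 1 ≤ X := Nat.le_floor (by exact_mod_cast one_le_pow₀ hY1)
  have X4 : X0 Λ Y ≤ X := Nat.floor_le_floor (pow_le_pow_right₀ hY1 (by omega))
  have lg0 : 0 ≤ Real.log (Y ^ (2000 * Λ)) := Real.log_nonneg (one_le_pow₀ hY1)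
  have hlog := hB.log
  have hW : 3 * (1 + Real.log (2 * (2 * X : ℕ) + 2)) ≤ Y := by
    have h1 : (2 * (2 * X : ℕ) + 2 : ℝ) ≤ Y ^ (2000 * Λ) := by
      have h2 : (1 : ℝ) ≤ Y ^ (270 * Λ + 1) := one_le_pow₀ hY1
      have h3 : (2 : ℝ) ^ 3 ≤ Y ^ 3 := pow_le_pow_left₀ (by norm_num) hY2 3
      calc (2 * (2 * X : ℕ) + 2 : ℝ) ≤ 2 ^ 3 * Y ^ (270 * Λ + 1) := by push_cast; linarith
        _ ≤ Y ^ 3 * Y ^ (270 * Λ + 1) := mul_le_mul_of_nonneg_right h3 (by positivity)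
        _ = Y ^ (3 + (270 * Λ + 1)) := (pow_add _ _ _).symm
        _ ≤ _ := pow_le_pow_right₀ hY1 (by omega)
    have := Real.log_le_log (by positivity) h1
    linarith
  set L := Nat.log 2 X + 1 with hL
  have L1 : X < 2 ^ L := Nat.lt_pow_succ_log_self (by norm_num) X
  have L2 : (L : ℝ) ≤ Y := by
    have h1 : ((2 : ℝ)) ^ Nat.log 2 X ≤ Y ^ (2000 * Λ) := by
      refine le_trans ?_ X2
      exact_mod_cast Nat.pow_log_le_self 2 (by omega)
    have h2 := Real.log_le_log (by positivity) h1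
    rw [Real.log_pow] at h2
    have h3 := Real.log_two_gt_d9
    have h4 : (0 : ℝ) ≤ Nat.log 2 X := Nat.cast_nonneg _
    rw [hL]
    push_cast
    nlinarith
  have η0 : 0 ≤ K.η := (norm_nonneg _).trans (K.cle 0)
  set E := K.η * Y ^ (270 * Λ) / Y ^ 80 with hE
  have E0 : 0 ≤ E := by positivity
  set b' : ℕ × ℕ → ℂ := fun k => if k.1 ≤ X ∧ k.2 ≤ X then b k.1 k.2 else 0 with hb'
  have box : ∀ V U : ℕ, 0 < V → 0 < U →
      ‖∑ p ∈ Icc 1 X ×ˢ Icc 1 X, ∑ k ∈ Ico V (2 * V) ×ˢ Ico U (2 * U),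
        if p.1 * p.2 * (k.1 * k.2) ∈ Ioc (X0 Λ Y) j ∧ ∀ i, u i p.1 p.2 < v i k.1 k.2 then
          a p.1 p.2 * b' k * K.D α (p.1 * p.2 * (k.1 * k.2)) else 0‖ ≤ Y ^ 7 * E := by
    intro V U hV hU
    by_cases hz : ∀ k ∈ Ico V (2 * V) ×ˢ Ico U (2 * U), b' k = 0
    · rw [sum_eq_zero, norm_zero]
      · positivity
      · intro p _
        refine sum_eq_zero fun k hk => ?_
        simp [hz k hk]
    push Not at hz
    obtain ⟨⟨x, y⟩, hk, hne⟩ := hz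
    obtain ⟨⟨x1, x2⟩, y1, y2⟩ : (V ≤ x ∧ x < 2 * V) ∧ U ≤ y ∧ y < 2 * U := by
      simpa only [mem_product, mem_Ico] using hk
    obtain ⟨a1, a2, a3⟩ : adm3 Λ Y x y := by
      refine hadm x y fun h => hne ?_
      simp [hb', h]
    have rx1 : (V : ℝ) ≤ x := by exact_mod_cast x1
    have ry1 : (U : ℝ) ≤ y := by exact_mod_cast y1
    have rx2 : (x : ℝ) ≤ 2 * V := by exact_mod_cast x2.le
    have ry2 : (y : ℝ) ≤ 2 * U := by exact_mod_cast y2.le
    have rV : (1 : ℝ) ≤ V := by exact_mod_cast hV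
    have rU : (1 : ℝ) ≤ U := by exact_mod_cast hU
    have c2 : U * Y ^ 1000 ≤ Y ^ (90 * Λ) :=
      (mul_le_mul_of_nonneg_right ry1 (by positivity)).trans a2
    have c3 : ((U : ℝ) * V) ^ 7 * V * Y ^ 1000 ≤ Y ^ (720 * Λ) := by
      refine le_trans ?_ a3
      rw [mul_comm (U : ℝ)]
      gcongr
    have hN : 0 < U * V := Nat.mul_pos hU hV
    set M := X / (U * V) with hM
    have hbox : Box Λ Y M (U * V) := by
      refine ⟨a1.trans ?_, ?_, ?_⟩
      · push_cast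
        calc (x : ℝ) * y ≤ (2 * V) * (2 * U) := by gcongr
          _ = _ := by ring
      · refine le_of_pow_le_pow_left₀ (n := 7) (by norm_num) (by positivity) ?_
        push_cast
        calc ((U : ℝ) * V) ^ 7 = ((U : ℝ) * V) ^ 7 * 1 * 1 := by ring
          _ ≤ ((U : ℝ) * V) ^ 7 * V * Y ^ 1000 := by
              gcongr
              exact one_le_pow₀ hY1
          _ ≤ Y ^ (720 * Λ) := c3
          _ ≤ Y ^ (120 * Λ * 7) := pow_le_pow_right₀ hY1 (by omega)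
          _ = _ := pow_mul _ _ _
      · refine le_trans ?_ X1'
        exact_mod_cast Nat.div_mul_le_self X (U * V)
    have p0 : PB (Icc 1 M) (Ico V (2 * V) ×ˢ Ico U (2 * U))
        (fun s k => K.D α (s * (k.1 * k.2))) E := by
      intro a₀ b₀ h1 h2
      have := hBX Λ Y α q K hB hD M V U a₀ (fun x y => b₀ (x, y)) hbox c2 c3 h1 fun x y => h2 _
      rw [hE, le_div_iff₀ (by positivity)]
      simpa only [sum_product] using this
    have p1 := collapse (X := X) hY0 (fun s hs => hB.div s (le_trans (by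
      exact_mod_cast (mem_Icc.1 hs).2.trans (Nat.div_le_self _ _)) X2)) p0
    have pos : ∀ k ∈ Ico V (2 * V) ×ˢ Ico U (2 * U), U * V ≤ k.1 * k.2 := by
      intro k hk
      rw [mul_comm]
      exact Nat.mul_le_mul (mem_Ico.1 (mem_product.1 hk).1).1 (mem_Ico.1 (mem_product.1 hk).2).1
    have p2 := sep1 hS hW p1 (fun p => X0 Λ Y / (p.1 * p.2)) (fun k => min (k.1 * k.2) (2 * X))
      (fun p _ => (Nat.div_le_self _ _).trans (by omega)) fun k _ => min_le_right _ _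
    have p3 := sep1 hS hW p2 (fun p => 2 * X - j / (p.1 * p.2)) (fun k => 2 * X + 1 - k.1 * k.2)
      (fun p _ => Nat.sub_le _ _) fun k hk => by have := pos k hk; omega
    have p4 := sep1 hS hW p3 (fun p => u 0 p.1 p.2) (fun k => v 0 k.1 k.2)
      (fun p _ => (huv 0 _ _).1) fun k _ => (huv 0 _ _).2
    have p5 := sep1 hS hW p4 (fun p => u 1 p.1 p.2) (fun k => v 1 k.1 k.2)
      (fun p _ => (huv 1 _ _).1) fun k _ => (huv 1 _ _).2
    have p6 := sep1 hS hW p5 (fun p => u 2 p.1 p.2) (fun k => v 2 k.1 k.2)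
      (fun p _ => (huv 2 _ _).1) fun k _ => (huv 2 _ _).2
    have p7 := sep1 hS hW p6 (fun p => u 3 p.1 p.2) (fun k => v 3 k.1 k.2)
      (fun p _ => (huv 3 _ _).1) fun k _ => (huv 3 _ _).2
    have p8 := p7 (fun p => a p.1 p.2) b' (fun p => ha _ _) fun k => by
      simp only [hb']
      split_ifs
      · exact hb _ _
      · simp
    refine le_trans (le_of_eq (congrArg _ ?_)) (p8.trans (le_of_eq (by ring)))
    refine sum_congr rfl fun p hp => sum_congr rfl fun k hk => ?_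
    have s1 : 0 < p.1 * p.2 :=
      Nat.mul_pos (mem_Icc.1 (mem_product.1 hp).1).1 (mem_Icc.1 (mem_product.1 hp).2).1
    have s2 := pos k hk
    have t1 : X0 Λ Y / (p.1 * p.2) < min (k.1 * k.2) (2 * X) ↔
        X0 Λ Y < p.1 * p.2 * (k.1 * k.2) := by
      have : X0 Λ Y / (p.1 * p.2) < 2 * X := (Nat.div_le_self _ _).trans_lt (by omega)
      rw [lt_min_iff, and_iff_left this, Nat.div_lt_iff_lt_mul s1, mul_comm (k.1 * k.2)]
    have t2 : 2 * X - j / (p.1 * p.2) < 2 * X + 1 - k.1 * k.2 ↔ p.1 * p.2 * (k.1 * k.2) ≤ j := by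
      have : j / (p.1 * p.2) ≤ X := (Nat.div_le_self _ _).trans hj
      rw [mul_comm (p.1 * p.2) (k.1 * k.2), ← Nat.le_div_iff_mul_le s1]
      omega
    have t3 : p.1 * p.2 * (k.1 * k.2) ≤ j → p.1 * p.2 ≤ M := fun h =>
      (Nat.le_div_iff_mul_le hN).2 ((Nat.mul_le_mul_left _ s2).trans (h.trans hj))
    simp only [t1, t2, mem_Ioc, Fin.forall_fin_succ, IsEmpty.forall_iff, and_true]
    by_cases q2 : p.1 * p.2 * (k.1 * k.2) ≤ j
    · by_cases q1 : X0 Λ Y < p.1 * p.2 * (k.1 * k.2) <;>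
      by_cases q3 : u 0 p.1 p.2 < v 0 k.1 k.2 <;> by_cases q4 : u 1 p.1 p.2 < v 1 k.1 k.2 <;>
      by_cases q5 : u 2 p.1 p.2 < v 2 k.1 k.2 <;> by_cases q6 : u 3 p.1 p.2 < v 3 k.1 k.2 <;>
      simp [q1, q2, q3, q4, q5, q6, t3 q2]
    · simp [q2]
  have e : ∑ m ∈ Icc 1 X, ∑ e ∈ Icc 1 X, ∑ x ∈ Icc 1 X, ∑ y ∈ Icc 1 X,
      (if m * e * (x * y) ∈ Ioc (X0 Λ Y) j ∧ ∀ i, u i m e < v i x y then
        a m e * b x y * K.D α (m * e * (x * y)) else 0) =
      ∑ i ∈ range L, ∑ l ∈ range L, ∑ p ∈ Icc 1 X ×ˢ Icc 1 X,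
        ∑ k ∈ Ico (2 ^ i) (2 * 2 ^ i) ×ˢ Ico (2 ^ l) (2 * 2 ^ l),
        if p.1 * p.2 * (k.1 * k.2) ∈ Ioc (X0 Λ Y) j ∧ ∀ i, u i p.1 p.2 < v i k.1 k.2 then
          a p.1 p.2 * b' k * K.D α (p.1 * p.2 * (k.1 * k.2)) else 0 := by
    rw [← swap6 (Icc 1 X) (range L) (fun i => Ico (2 ^ i) (2 * 2 ^ i)) fun m e _ x _ y =>
      if m * e * (x * y) ∈ Ioc (X0 Λ Y) j ∧ ∀ i, u i m e < v i x y then
        a m e * b' (x, y) * K.D α (m * e * (x * y)) else 0]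
    refine sum_congr rfl fun m _ => sum_congr rfl fun e _ => ?_
    rw [cut L1]
    refine sum_congr rfl fun i _ => sum_congr rfl fun x _ => ?_
    rw [cut L1]
    by_cases hx : x ≤ X
    · rw [if_pos hx]
      refine sum_congr rfl fun l _ => sum_congr rfl fun y _ => ?_
      by_cases hy : y ≤ X <;> simp [hb', hx, hy]
    · simp [hb', hx]
  rw [e]
  have f1 : ‖∑ i ∈ range L, ∑ l ∈ range L, ∑ p ∈ Icc 1 X ×ˢ Icc 1 X,
        ∑ k ∈ Ico (2 ^ i) (2 * 2 ^ i) ×ˢ Ico (2 ^ l) (2 * 2 ^ l),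
        (if p.1 * p.2 * (k.1 * k.2) ∈ Ioc (X0 Λ Y) j ∧ ∀ i, u i p.1 p.2 < v i k.1 k.2 then
          a p.1 p.2 * b' k * K.D α (p.1 * p.2 * (k.1 * k.2)) else 0)‖ ≤
      L * (L * (Y ^ 7 * E)) := by
    refine (norm_sum_le _ _).trans ((sum_le_card_nsmul _ _ (L * (Y ^ 7 * E)) fun i _ => ?_).trans
      (by rw [card_range, nsmul_eq_mul]))
    refine (norm_sum_le _ _).trans ((sum_le_card_nsmul _ _ (Y ^ 7 * E) fun l _ => ?_).trans
      (by rw [card_range, nsmul_eq_mul]))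
    exact box _ _ (by positivity) (by positivity)
  have f2 : (L : ℝ) * (L * (Y ^ 7 * E)) ≤ Y * (Y * (Y ^ 7 * E)) := by gcongr
  calc _ ≤ Y * (Y * (Y ^ 7 * E)) * Y ^ 70 :=
        mul_le_mul_of_nonneg_right (f1.trans f2) (by positivity)
    _ = E * Y ^ 79 := by ring
    _ ≤ E * Y ^ 80 := mul_le_mul_of_nonneg_left (pow_le_pow_right₀ hY1 (by norm_num)) E0
    _ = _ := by rw [hE]; field_simp

end Pool.Agent.Lib.AP
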