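import Pool.Agent.Lib.AP.Blue2

/-! Evaluation of the first part of the sieve. -/

open Finset Classical

noncomputable section

namespace Pool.Agent.Lib.AP

namespace EVA

variable {Λ : ℕ} {Y : ℝ}

/-- the sum with a weight on the divisor and a rough cofactor -/
def T (K : Ker Λ Y) (α : ℝ) (j : ℕ) (φ : ℕ → ℂ) : ℂ :=
  ∑ n ∈ Ioc (X0 Λ Y) j, col (fun d s => if rough Λ Y s then φ d else 0) n * K.D α n

theorem T_eq (K : Ker Λ Y) (α : ℝ) (j : ℕ) (φ : ℕ → ℂ) : T K α j φ =
    ∑ n ∈ Ioc (X0 Λ Y) j, ∑ x ∈ n.divisorsAntidiagonal,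
      (if rough Λ Y x.2 then K.D α n else 0) * φ x.1 := by
  refine sum_congr rfl fun n _ => ?_
  rw [col, sum_mul]
  refine sum_congr rfl fun x _ => ?_
  split_ifs
  · ring
  · simp

theorem T_lin (K : Ker Λ Y) (α : ℝ) (j : ℕ) {φ φ₀ : ℕ → ℂ} {ι : Type} {A : Finset ι} {c : ℂ}
    {w : ι → ℂ} {ψ : ι → ℕ → ℂ}
    (h : ∀ d, d ≠ 0 → d ≤ j → φ d = c * φ₀ d + ∑ S ∈ A, w S * ψ S d) :
    T K α j φ = c * T K α j φ₀ + ∑ S ∈ A, w S * T K α j (ψ S) := by
  simp only [T_eq, mul_sum]
  rw [sum_comm (s := A), ← sum_add_distrib]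
  refine sum_congr rfl fun n hn => ?_
  rw [sum_comm (s := A), ← sum_add_distrib]
  refine sum_congr rfl fun x hx => ?_
  obtain ⟨h1, h2⟩ := Nat.mem_divisorsAntidiagonal.1 hx
  have h3 : x.1 ≠ 0 := fun e => h2 (by rw [← h1, e, zero_mul])
  have h4 : x.1 ≤ j := (Nat.le_of_dvd (Nat.pos_of_ne_zero h2) (Dvd.intro _ h1)).trans
    (mem_Ioc.1 hn).2
  rw [h _ h3 h4, mul_add, mul_sum]
  exact congrArg₂ _ (by ring) (sum_congr rfl fun S _ => by ring)

theorem col_one (a : ℕ → ℂ) (h0 : a 0 = 0) (d : ℕ) :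
    col (fun m r => a m * if r = 1 then 1 else 0) d = a d := by
  rcases eq_or_ne d 0 with rfl | hd
  · simp [col, h0]
  rw [col, sum_eq_single (d, 1)]
  · simp
  · intro x hx hne
    rw [if_neg, mul_zero]
    intro e
    have := (Nat.mem_divisorsAntidiagonal.1 hx).1
    rw [e, mul_one] at this
    exact hne (Prod.ext this e)
  · intro h
    exact absurd (Nat.mem_divisorsAntidiagonal.2 ⟨mul_one d, hd⟩) h

/-- the list of levels of a type -/
def ls (S : Finset ℕ) : List ℝ := (S.sort (· ≤ ·)).map fun i : ℕ => (i : ℝ)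

theorem sort_sum (S : Finset ℕ) : (S.sort (· ≤ ·)).sum = ∑ i ∈ S, i := by
  rw [(sort_perm_toList S _).sum_eq, sum_toList]

theorem ls_sum (S : Finset ℕ) : (ls S).sum = ((∑ i ∈ S, i : ℕ) : ℝ) := by
  rw [ls, ← Nat.cast_list_sum, sort_sum]

theorem lev_typ {S : Finset ℕ} {d : ℕ} (h : typ Y S d) : lev Y d = ls S := by
  rw [lev, h.2, ls]

/-- the types outside the type I range -/
def types (Λ : ℕ) : Finset (Finset ℕ) :=
  (range (270 * Λ + 29)).powerset.filter fun S => S.card ≤ 27 ∧ (∀ i ∈ S, 10 * Λ < i + 1200) ∧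
    ¬ gD Λ 1 (ls S).sum ∧ a0 Λ 1 (ls S) ≠ 0

theorem rest (hL : St_LEV) (hB : Big Λ Y) (hY : 1 < Y) {d : ℕ} (h0 : d ≠ 0) (h1 : d ≤ X1 Λ Y)
    (hg : ¬ gD Λ 1 (lev Y d).sum) :
    (aw Λ Y d : ℂ) = ∑ S ∈ types Λ, (a0 Λ 1 (ls S) : ℂ) * if typ Y S d then 1 else 0 := by
  have hp : ¬ pen Λ (lev Y d) := fun h => hg h.1
  by_cases hS : ∃ S ∈ types Λ, typ Y S d
  · obtain ⟨S, hS, ht⟩ := hS
    obtain ⟨-, -, h3, -⟩ := mem_filter.1 hS
    have r1 : rough Λ Y d := (hL.rou Λ Y d hY h0).2 fun i hi => h3 i (by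
      rw [ht.2] at hi
      exact (mem_sort _).1 hi)
    have r2 : (lev Y d).Nodup := by
      rw [lev_typ ht, ls]
      exact (sort_nodup _ _).map Nat.cast_injective
    rw [sum_eq_single S, if_pos ht, mul_one, aw, if_pos r1, if_pos r2, if_neg hp, sub_zero,
      lev_typ ht]
    · intro S' _ hne
      rw [if_neg, mul_zero]
      intro ht'
      refine hne ?_
      rw [← sort_toFinset S' (· ≤ ·), ← ht'.2, ht.2, sort_toFinset]
    · exact fun h => absurd hS h
  · rw [sum_eq_zero fun S h => by rw [if_neg fun ht => hS ⟨S, h, ht⟩, mul_zero]]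
    rw [aw, if_neg hp, sub_zero]
    split_ifs with r1 r2
    · by_contra hne
      have n1 : (levN Y d).Nodup := List.Nodup.of_map _ r2
      have ht : typ Y (levN Y d).toFinset d :=
        ⟨h0, ((List.toFinset_sort (· ≤ ·) n1).2 (hL.asc Y d hY)).symm⟩
      obtain ⟨l1, -, l3⟩ := hL.len Λ Y d hB h0 h1 r1
      refine hS ⟨_, mem_filter.2 ⟨mem_powerset.2 fun i hi => mem_range.2 ?_, ?_, fun i hi => ?_,
        ?_, ?_⟩, ht⟩
      · have := List.single_le_sum (fun _ _ => Nat.zero_le _) i (List.mem_toFinset.1 hi)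
        omega
      · exact (List.toFinset_card_le _).trans l1
      · exact (hL.rou Λ Y d hY h0).1 r1 i (List.mem_toFinset.1 hi)
      · rwa [← lev_typ ht]
      · rw [← lev_typ ht]
        exact fun h => hne (by rw [h, Int.cast_zero])
    · simp
    · simp

end EVA

open EVA in
theorem st_EVA (hP : St_PEEL) (hT : St_TYP) (hL : St_LEV) (hN : St_BND) : St_EVA := by
  intro Λ Y α q K hB hD j hj
  have hΛ := hB.lam
  have pw : ∀ k, k ≤ 300 * Λ → (2 : ℝ) ^ k ≤ Y := fun k hk =>
    (pow_le_pow_right₀ (by norm_num) hk).trans hB.two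
  have hY2 : (2 : ℝ) ≤ Y := by simpa using pw 1 (by omega)
  have hY0 : 0 < Y := by linarith
  have hY1 : 1 < Y := by linarith
  have hΛ' : (100000 : ℝ) ≤ Λ := by exact_mod_cast hΛ
  have η0 : 0 ≤ K.η := (norm_nonneg _).trans (K.cle 0)
  set E := K.η * Y ^ (270 * Λ) / Y ^ 60 with hE
  have E0 : 0 ≤ E := by positivity
  set aD : ℕ → ℂ := fun d => if d ≠ 0 ∧ d ≤ X1 Λ Y ∧ gD Λ 1 (lev Y d).sum then
    (aw Λ Y d : ℂ) / 2 ^ 61 else 0 with haD
  have b1 : ‖T K α j aD‖ ≤ E := by
    have h1 := hP Λ Y α q K hB hD aD (fun r => if r = 1 then 1 else 0) j (fun d => ?_)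
      (fun r => by split_ifs <;> simp) hj (Or.inl ⟨fun d hd => ?_, fun r hr => ?_⟩)
    · rw [hE, le_div_iff₀ (by positivity)]
      simp only [col_one aD (by simp [haD])] at h1
      exact h1
    · simp only [haD]
      split_ifs with h
      · rw [norm_div, Complex.norm_intCast, norm_pow, Complex.norm_ofNat, div_le_one (by positivity)]
        have h2 : |aw Λ Y d| ≤ 2 ^ 61 := by
          rw [aw]
          by_cases r1 : rough Λ Y d
          · have l1 := (hL.len Λ Y d hB h.1 h.2.1 r1).1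
            have l2 := hN.a Λ 1 (lev Y d)
            have l3 : (2 : ℤ) ^ (lev Y d).length ≤ 2 ^ 27 :=
              pow_le_pow_right₀ (by norm_num) (by rwa [lev, List.length_map])
            have l4 := abs_le.1 (l2.trans l3)
            rw [if_pos r1, abs_le]
            split_ifs <;> omega
          · rw [if_neg r1]
            norm_num
        exact_mod_cast h2
      · simp
    · have h : d ≠ 0 ∧ d ≤ X1 Λ Y ∧ gD Λ 1 (lev Y d).sum := by
        by_contra h
        exact hd (if_neg h)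
      have h2 := h.2.2
      rw [gD, lev, ← Nat.cast_list_sum] at h2
      have h3 : (levN Y d).sum + 1000 ≤ 180 * Λ := by
        rw [mul_one] at h2
        exact_mod_cast h2
      refine Nat.le_floor ((le_div_iff₀ (by positivity)).2 ?_)
      calc (d : ℝ) * Y ^ 1000 ≤ Y ^ (levN Y d).sum * Y ^ 1000 :=
            mul_le_mul_of_nonneg_right (hL.size Y d hY1 h.1).1 (by positivity)
        _ = Y ^ ((levN Y d).sum + 1000) := (pow_add _ _ _).symm
        _ ≤ _ := pow_le_pow_right₀ hY1.le h3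
    · by_contra h
      exact hr (if_neg h)
  have b2 : ∀ S ∈ types Λ, ‖T K α j fun d => if typ Y S d then 1 else 0‖ ≤ E := by
    intro S hS
    obtain ⟨-, s1, -, s3, s4⟩ := mem_filter.1 hS
    have h1 := hN.supp Λ 1 (ls S) (by linarith) zero_le_one (by linarith) s4
    rw [good, zero_add] at h1
    obtain ⟨x', hx', e1, e2⟩ := h1.resolve_left s3
    obtain ⟨x, hx, rfl⟩ := List.mem_map.1 hx'
    have hx : x ∈ S := (mem_sort _).1 hx
    rw [ls_sum, ← add_sum_erase S (fun i => i) hx] at e1 e2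
    have f1 : x + ∑ i ∈ S.erase x, i ≤ 170 * Λ + x := by exact_mod_cast e1
    have f2 : 5 * x + 450 * Λ + 1100 ≤ 3 * (x + ∑ i ∈ S.erase x, i) := by
      rw [mul_one] at e2
      exact_mod_cast e2
    have e3 : S.erase x ∪ {x} = S := by
      rw [union_comm, ← insert_eq, insert_erase hx]
    have e4 := fun d => hT Y (S.erase x) {x} d hY1 (by simp)
    rw [e3] at e4
    have h2 := hP Λ Y α q K hB hD (fun m => if typ Y (S.erase x) m then 1 else 0)
      (fun r => if typ Y {x} r then 1 else 0) j (fun r => by split_ifs <;> simp)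
      (fun r => by split_ifs <;> simp) hj
      (Or.inr ⟨∑ i ∈ S.erase x, i, x, by omega, by omega, fun m hm => ?_, fun r hr => ?_⟩)
    · rw [hE, le_div_iff₀ (by positivity)]
      simp only [← e4] at h2
      exact h2
    · have ht : typ Y (S.erase x) m := by
        by_contra h
        exact hm (if_neg h)
      have h3 := hL.size Y m hY1 ht.1
      rw [ht.2, sort_sum, length_sort] at h3
      refine ⟨h3.1, h3.2.trans (mul_le_mul_of_nonneg_left (pow_le_pow_right₀ hY1.le ?_)
        (Nat.cast_nonneg _))⟩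
      exact card_erase_le.trans s1
    · have ht : typ Y {x} r := by
        by_contra h
        exact hr (if_neg h)
      have h3 := (hL.size Y r hY1 ht.1).1
      rwa [ht.2, sort_sum, sum_singleton] at h3
  have e1 : ∑ n ∈ Ioc (X0 Λ Y) j, (rhoA Λ Y n : ℂ) * K.D α n = T K α j fun d => aw Λ Y d := by
    refine sum_congr rfl fun n _ => ?_
    rw [rhoA, col]
    push_cast
    rfl
  have e2 := T_lin K α j (φ := fun d => aw Λ Y d) (φ₀ := aD) (A := types Λ) (c := 2 ^ 61)
    (w := fun S => a0 Λ 1 (ls S)) (ψ := fun S d => if typ Y S d then 1 else 0) fun d h0 h1 => by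
      by_cases hg : gD Λ 1 (lev Y d).sum
      · rw [sum_eq_zero, add_zero]
        · simp only [haD]
          rw [if_pos ⟨h0, h1.trans hj, hg⟩]
          field_simp
        · intro S hS
          rw [if_neg, mul_zero]
          intro ht
          rw [lev_typ ht] at hg
          exact (mem_filter.1 hS).2.2.2.1 hg
      · simp only [haD]
        rw [if_neg fun h => hg h.2.2, mul_zero, zero_add]
        exact rest hL hB hY1 h0 (h1.trans hj) hg
  have c1 : ((types Λ).card : ℝ) ≤ Y := by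
    refine le_trans ?_ (pw (270 * Λ + 29) (by omega))
    have := (card_filter_le _ _ : (types Λ).card ≤ _)
    rw [card_powerset, card_range] at this
    exact_mod_cast this
  have b3 : ‖∑ S ∈ types Λ, (a0 Λ 1 (ls S) : ℂ) * T K α j fun d => if typ Y S d then 1 else 0‖ ≤
      Y * (Y * E) := by
    refine (norm_sum_le _ _).trans ((sum_le_card_nsmul _ _ (Y * E) fun S hS => ?_).trans ?_)
    · rw [norm_mul]
      refine mul_le_mul ?_ (b2 S hS) (norm_nonneg _) hY0.le
      rw [Complex.norm_intCast]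
      refine le_trans ?_ (pw 27 (by omega))
      have l3 : (2 : ℤ) ^ (ls S).length ≤ 2 ^ 27 := pow_le_pow_right₀ (by norm_num) (by
        rw [ls, List.length_map, length_sort]
        exact (mem_filter.1 hS).2.1)
      exact_mod_cast (hN.a Λ 1 (ls S)).trans l3
    · rw [nsmul_eq_mul]
      exact mul_le_mul_of_nonneg_right c1 (by positivity)
  have b4 : ‖(2 : ℂ) ^ 61 * T K α j aD‖ ≤ Y * E := by
    rw [norm_mul, norm_pow, Complex.norm_ofNat]
    exact mul_le_mul (pw 61 (by omega)) b1 (norm_nonneg _) hY0.le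
  have b5 : Y + Y * Y ≤ Y ^ 5 := by
    have h1 : Y + Y * Y ≤ Y ^ 3 := by nlinarith [mul_pos hY0 hY0]
    exact h1.trans (pow_le_pow_right₀ hY1.le (by norm_num))
  rw [e1, e2]
  calc _ ≤ (Y * E + Y * (Y * E)) * Y ^ 55 :=
        mul_le_mul_of_nonneg_right ((norm_add_le _ _).trans (add_le_add b4 b3)) (by positivity)
    _ = (Y + Y * Y) * (E * Y ^ 55) := by ring
    _ ≤ Y ^ 5 * (E * Y ^ 55) := mul_le_mul_of_nonneg_right b5 (by positivity)
    _ = _ := by rw [hE]; field_simp

end Pool.Agent.Lib.AP
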