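import Pool.Agent.Lib.AP.Blue2

/-! The sum over the covered types. -/

open Finset Classical

noncomputable section

namespace Pool.Agent.Lib.AP

namespace EVC

variable {Λ : ℕ} {Y : ℝ}

/-- the ascending list of a type -/
def ls (S : Finset ℕ) : List ℝ := (S.sort (· ≤ ·)).map fun i : ℕ => (i : ℝ)

/-- the covered types -/
def Ty (Λ : ℕ) : Finset (Finset ℕ) :=
  (range (270 * Λ + 29)).powerset.filter fun S =>
    S.card ≤ 27 ∧ (∀ i ∈ S, 10 * Λ < i + 1200) ∧ cov Λ 1 (ls S)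

theorem one_lt (h : Big Λ Y) : 1 < Y := by
  have := h.lam
  exact (one_lt_pow₀ one_lt_two (by omega)).trans_le h.two

theorem nodup (S : Finset ℕ) : (ls S).Nodup := (S.sort_nodup _).map Nat.cast_injective

theorem mem_ls {S : Finset ℕ} {x : ℝ} : x ∈ ls S ↔ ∃ i ∈ S, (i : ℝ) = x := by
  simp [ls]

theorem split (hL : St_LEV) (h : Big Λ Y) {n : ℕ} (h0 : n ≠ 0) (h1 : n ≤ X1 Λ Y) :
    (rhoC Λ Y n : ℂ) = ∑ S ∈ Ty Λ, (T0 Λ 1 (ls S) : ℂ) * if typ Y S n then 1 else 0 := by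
  have hY := one_lt h
  unfold rhoC
  split_ifs with hc
  · obtain ⟨hr, hn, hc⟩ := hc
    have hn' : (levN Y n).Nodup := hn.of_map _
    have e : (levN Y n).toFinset.sort (· ≤ ·) = levN Y n :=
      (List.toFinset_sort _ hn').2 (hL.asc Y n hY)
    have e' : ls (levN Y n).toFinset = lev Y n := by rw [ls, e, lev]
    obtain ⟨l1, -, l3⟩ := hL.len Λ Y n h h0 h1 hr
    rw [sum_eq_single_of_mem (levN Y n).toFinset, if_pos ⟨h0, e.symm⟩, e', mul_one]
    · refine mem_filter.2 ⟨mem_powerset.2 fun i hi => mem_range.2 ?_,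
        (List.toFinset_card_le _).trans l1,
        fun i hi => (hL.rou Λ Y n hY h0).1 hr i (List.mem_toFinset.1 hi), e' ▸ hc⟩
      have := List.single_le_sum (fun _ _ => Nat.zero_le _) i (List.mem_toFinset.1 hi)
      omega
    · intro S _ hS
      rw [if_neg, mul_zero]
      rintro ⟨-, t⟩
      exact hS (by rw [t, sort_toFinset])
  · rw [Int.cast_zero]
    refine (sum_eq_zero fun S hS => ?_).symm
    rw [if_neg, mul_zero]
    rintro ⟨-, t⟩
    obtain ⟨-, -, a, b⟩ := mem_filter.1 hS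
    have e : lev Y n = ls S := by rw [lev, t, ls]
    exact hc ⟨(hL.rou Λ Y n hY h0).2 fun i hi => a i ((mem_sort _).1 (t ▸ hi)), e ▸ nodup S, e ▸ b⟩

theorem sum_part {S : Finset ℕ} {v : List ℝ} (hv : v.Nodup) (hs : ∀ x ∈ v, x ∈ ls S) :
    ((∑ i ∈ S.filter fun i : ℕ => (i : ℝ) ∈ v, i : ℕ) : ℝ) = v.sum := by
  have e : v.toFinset = (S.filter fun i : ℕ => (i : ℝ) ∈ v).image fun i : ℕ => (i : ℝ) := by
    ext x
    simp only [List.mem_toFinset, mem_image, mem_filter]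
    refine ⟨fun hx => ?_, fun ⟨i, hi, e⟩ => e ▸ hi.2⟩
    obtain ⟨i, hi, rfl⟩ := mem_ls.1 (hs x hx)
    exact ⟨i, ⟨hi, hx⟩, rfl⟩
  have := List.sum_toFinset (fun x : ℝ => x) hv
  rw [e, sum_image fun _ _ _ _ e => Nat.cast_injective e, List.map_id'] at this
  rw [Nat.cast_sum, this]

theorem parts {S : Finset ℕ} (hc : cov Λ 1 (ls S)) : ∃ A B C : Finset ℕ, S = A ∪ (B ∪ C) ∧
    Disjoint A (B ∪ C) ∧ Disjoint B C ∧ 90 * Λ + 1027 ≤ ∑ i ∈ B, i + ∑ i ∈ C, i ∧
    ∑ i ∈ C, i + 1000 ≤ 90 * Λ ∧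
    7 * (∑ i ∈ B, i + ∑ i ∈ C, i) + ∑ i ∈ B, i + 1000 ≤ 720 * Λ := by
  obtain ⟨m, v, w, hp, h1, h2, h3⟩ := hc
  have hn := hp.nodup_iff.1 (nodup S)
  obtain ⟨n1, nw, d1⟩ := List.nodup_append.1 hn
  obtain ⟨-, nv, d2⟩ := List.nodup_append.1 n1
  have e1 := sum_part (S := S) nv fun x hx => hp.mem_iff.2 (by simp [hx])
  have e2 := sum_part (S := S) nw fun x hx => hp.mem_iff.2 (by simp [hx])
  rw [← e1, ← e2] at h1 h3
  rw [← e2] at h2
  refine ⟨S.filter fun i : ℕ => (i : ℝ) ∈ m, S.filter fun i : ℕ => (i : ℝ) ∈ v,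
    S.filter fun i : ℕ => (i : ℝ) ∈ w, ?_, ?_, ?_, ?_, ?_, ?_⟩
  · ext i
    simp only [mem_union, mem_filter]
    refine ⟨fun hi => ?_, by tauto⟩
    have := hp.mem_iff.1 (mem_ls.2 ⟨i, hi, rfl⟩)
    simp only [List.mem_append] at this
    tauto
  · refine disjoint_left.2 fun i hi hj => ?_
    simp only [mem_union, mem_filter] at hi hj
    rcases hj with hj | hj
    · exact d2 _ hi.2 _ hj.2 rfl
    · exact d1 _ (List.mem_append_left _ hi.2) _ hj.2 rfl
  · refine disjoint_left.2 fun i hi hj => ?_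
    simp only [mem_filter] at hi hj
    exact d1 _ (List.mem_append_right _ hi.2) _ hj.2 rfl
  · rw [mul_one] at h1
    exact_mod_cast h1
  · rw [mul_one] at h2
    exact_mod_cast h2
  · rw [mul_one] at h3
    exact_mod_cast h3

theorem size (hL : St_LEV) (hY : 1 < Y) {S : Finset ℕ} {n : ℕ} (h : typ Y S n) :
    (n : ℝ) ≤ Y ^ (∑ i ∈ S, i) ∧ Y ^ (∑ i ∈ S, i) ≤ n * Y ^ S.card := by
  have := hL.size Y n hY h.1
  have e : (S.sort (· ≤ ·)).sum = ∑ i ∈ S, i := by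
    rw [← Multiset.sum_coe, sort_eq, sum_eq_multiset_sum, Multiset.map_id']
  rwa [h.2, length_sort, e] at this

theorem adm (hL : St_LEV) (hY : 1 < Y) {B C : Finset ℕ} {x y : ℕ} (hx : typ Y B x)
    (hy : typ Y C y) (hc : B.card + C.card ≤ 27) (h1 : 90 * Λ + 1027 ≤ ∑ i ∈ B, i + ∑ i ∈ C, i)
    (h2 : ∑ i ∈ C, i + 1000 ≤ 90 * Λ)
    (h3 : 7 * (∑ i ∈ B, i + ∑ i ∈ C, i) + ∑ i ∈ B, i + 1000 ≤ 720 * Λ) : adm3 Λ Y x y := by
  obtain ⟨a1, a2⟩ := size hL hY hx
  obtain ⟨b1, b2⟩ := size hL hY hy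
  have y0 : 0 < Y := by linarith
  have mono : ∀ {a b : ℕ}, a ≤ b → Y ^ a ≤ Y ^ b := fun h => pow_le_pow_right₀ hY.le h
  refine ⟨le_of_mul_le_mul_right ?_ (pow_pos y0 27), ?_, ?_⟩
  · calc Y ^ (90 * Λ + 1000) * Y ^ 27 ≤ Y ^ (∑ i ∈ B, i) * Y ^ (∑ i ∈ C, i) := by
          rw [← pow_add, ← pow_add]
          exact mono h1
      _ ≤ x * Y ^ B.card * (y * Y ^ C.card) := by gcongr
      _ = x * y * Y ^ (B.card + C.card) := by ring
      _ ≤ _ := by gcongr; exact hY.le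
  · calc y * Y ^ 1000 ≤ Y ^ (∑ i ∈ C, i) * Y ^ 1000 := by gcongr
      _ ≤ _ := by
          rw [← pow_add]
          exact mono h2
  · calc ((x : ℝ) * y) ^ 7 * x * Y ^ 1000 ≤
          (Y ^ (∑ i ∈ B, i) * Y ^ (∑ i ∈ C, i)) ^ 7 * Y ^ (∑ i ∈ B, i) * Y ^ 1000 := by gcongr
      _ ≤ _ := by
          rw [← pow_add, ← pow_mul, ← pow_add, ← pow_add]
          exact mono (by omega)

theorem unfold (hG : St_GCD) (W : ℕ) (F : ℕ → ℕ → ℂ) (G : ℕ → ℂ) (h : ∀ n, W < n → G n = 0) :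
    ∑ n ∈ Icc 1 W, col F n * G n = ∑ x ∈ Icc 1 W, ∑ y ∈ Icc 1 W, F x y * G (x * y) := by
  have e : ∀ n, col F n * G n = col (fun x y => F x y * G (x * y)) n := fun n => by
    rw [col, col, sum_mul]
    exact sum_congr rfl fun x hx => by rw [(Nat.mem_divisorsAntidiagonal.1 hx).1]
  simp only [e, hG.anti]
  refine sum_congr rfl fun x _ => sum_congr rfl fun y _ => ?_
  split_ifs with c
  · rfl
  · rw [h _ (not_le.1 c), mul_zero]

theorem one (hE : St_ET3) (hT : St_TYP) (hL : St_LEV) (hG : St_GCD) {α : ℝ} {q : ℕ} (K : Ker Λ Y)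
    (h : Big Λ Y) (hD : Dio Λ Y α q) {j : ℕ} (hj : j ≤ X1 Λ Y) {S : Finset ℕ} (hS : S ∈ Ty Λ) :
    ‖∑ n ∈ Ioc (X0 Λ Y) j, (if typ Y S n then 1 else 0) * K.D α n‖ * Y ^ 70 ≤
      K.η * Y ^ (270 * Λ) := by
  have hY := one_lt h
  obtain ⟨-, s1, -, s3⟩ := mem_filter.1 hS
  obtain ⟨A, B, C, rfl, d1, d2, h1, h2, h3⟩ := parts s3
  rw [card_union_of_disjoint d1, card_union_of_disjoint d2] at s1
  have x1 : 1 ≤ X1 Λ Y := Nat.le_floor (by exact_mod_cast one_le_pow₀ hY.le)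
  have key := hE Λ Y α q K h hD
    (fun m e => if e = 1 then (if typ Y A m then 1 else 0) else 0)
    (fun x y => (if typ Y B x then 1 else 0) * if typ Y C y then 1 else 0)
    (fun _ _ _ => 0) (fun _ _ _ => 1) j (fun x y => by split_ifs <;> simp)
    (fun x y => by split_ifs <;> simp)
    (fun x y hb => by
      have hx : typ Y B x := by
        by_contra c
        simp [c] at hb
      have hy : typ Y C y := by
        by_contra c
        simp [c] at hb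
      exact adm hL hY hx hy (by omega) h1 h2 h3)
    (fun _ _ _ => ⟨Nat.zero_le _, by omega⟩) hj
  convert key using 3
  set G : ℕ → ℂ := fun n => if n ∈ Ioc (X0 Λ Y) j then K.D α n else 0 with hG'
  have g0 : ∀ n, X1 Λ Y < n → G n = 0 := fun n hn => if_neg fun c => by
    have := (mem_Ioc.1 c).2
    omega
  calc ∑ n ∈ Ioc (X0 Λ Y) j, (if typ Y (A ∪ (B ∪ C)) n then 1 else 0) * K.D α n
      = ∑ n ∈ Icc 1 (X1 Λ Y), (if typ Y (A ∪ (B ∪ C)) n then 1 else 0) * G n := by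
        refine sum_subset_zero_on_sdiff (fun n hn => ?_) (fun n hn => ?_) fun n hn => ?_
        · rw [mem_Ioc] at hn
          rw [mem_Icc]
          omega
        · simp only [hG', if_neg (mem_sdiff.1 hn).2, mul_zero]
        · simp only [hG', if_pos hn]
    _ = ∑ m ∈ Icc 1 (X1 Λ Y), (if typ Y A m then 1 else 0) * ∑ r ∈ Icc 1 (X1 Λ Y),
          (if typ Y (B ∪ C) r then 1 else 0) * G (m * r) := by
        simp only [hT Y A (B ∪ C) _ hY d1]
        rw [unfold hG _ _ _ g0]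
        simp only [mul_sum, mul_assoc]
    _ = _ := by
        refine sum_congr rfl fun m hm => ?_
        refine Eq.trans ?_
          (sum_eq_single_of_mem 1 (mem_Icc.2 ⟨le_rfl, x1⟩) fun e _ he => by simp [he]).symm
        simp only [hT Y B C _ hY d2]
        rw [unfold hG _ _ (fun r => G (m * r)) fun r hr => g0 _
          (hr.trans_le (Nat.le_mul_of_pos_left r (mem_Icc.1 hm).1))]
        simp only [mul_sum, hG', mul_one, if_true, Nat.lt_one_iff, implies_true, and_true]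
        refine sum_congr rfl fun x _ => sum_congr rfl fun y _ => ?_
        split_ifs <;> simp

end EVC

theorem st_EVC (hE : St_ET3) (hT : St_TYP) (hL : St_LEV) (hB : St_BND) (hG : St_GCD) :
    St_EVC := by
  intro Λ Y α q K h hD j hj
  have hY := EVC.one_lt h
  have y0 : 0 < Y := by linarith
  have hl := h.lam
  have e : ∑ n ∈ Ioc (X0 Λ Y) j, (rhoC Λ Y n : ℂ) * K.D α n = ∑ S ∈ EVC.Ty Λ,
      (T0 Λ 1 (EVC.ls S) : ℂ) *
        ∑ n ∈ Ioc (X0 Λ Y) j, (if typ Y S n then 1 else 0) * K.D α n := by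
    simp only [mul_sum]
    rw [sum_comm]
    refine sum_congr rfl fun n hn => ?_
    rw [mem_Ioc] at hn
    rw [EVC.split hL h (by omega) (hn.2.trans hj), sum_mul]
    simp only [mul_assoc]
  have c1 : ((EVC.Ty Λ).card : ℝ) ≤ Y := by
    refine le_trans ?_ h.two
    have : (EVC.Ty Λ).card ≤ 2 ^ (300 * Λ) := by
      refine (card_filter_le _ _).trans ?_
      rw [card_powerset, card_range]
      exact Nat.pow_le_pow_right two_pos (by omega)
    exact_mod_cast this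
  have c2 : ∀ S ∈ EVC.Ty Λ, ‖(T0 Λ 1 (EVC.ls S) : ℂ)‖ ≤ Y := fun S hS => by
    have a := hB.t Λ 1 (EVC.ls S)
    rw [EVC.ls, List.length_map, length_sort] at a
    have b : (3 : ℤ) ^ S.card ≤ 2 ^ (300 * Λ) :=
      calc (3 : ℤ) ^ S.card ≤ 3 ^ 27 := pow_le_pow_right₀ (by norm_num) (mem_filter.1 hS).2.1
        _ ≤ 2 ^ 43 := by norm_num
        _ ≤ _ := pow_le_pow_right₀ (by norm_num) (by omega)
    rw [Complex.norm_intCast]
    refine le_trans ?_ h.two
    exact_mod_cast a.trans b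
  have η0 : 0 ≤ K.η * Y ^ (270 * Λ) :=
    mul_nonneg ((norm_nonneg _).trans (K.cle 0)) (pow_pos y0 _).le
  refine le_of_mul_le_mul_right ?_ (pow_pos y0 15)
  rw [e, mul_assoc, ← pow_add]
  calc _ ≤ (∑ S ∈ EVC.Ty Λ, ‖(T0 Λ 1 (EVC.ls S) : ℂ) *
          ∑ n ∈ Ioc (X0 Λ Y) j, (if typ Y S n then 1 else 0) * K.D α n‖) * Y ^ 70 := by
        gcongr
        exact norm_sum_le _ _
    _ ≤ ∑ S ∈ EVC.Ty Λ, Y * (K.η * Y ^ (270 * Λ)) := by
        rw [sum_mul]
        refine sum_le_sum fun S hS => ?_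
        rw [norm_mul, mul_assoc]
        exact mul_le_mul (c2 S hS) (EVC.one hE hT hL hG K h hD hj hS) (by positivity) y0.le
    _ ≤ Y * (Y * (K.η * Y ^ (270 * Λ))) := by
        rw [sum_const, nsmul_eq_mul]
        gcongr
    _ = K.η * Y ^ (270 * Λ) * Y ^ 2 := by ring
    _ ≤ _ := by
        gcongr
        · exact hY.le
        · norm_num

end Pool.Agent.Lib.AP
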