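import Pool.Agent.Lib.AP.Blue2

/-! From the core statement to infinitely many primes. -/

open Finset

namespace Pool.Agent.Lib.AP

namespace FIN

lemma den_unbounded (α : ℝ) (hα : Irrational α) (B : ℕ) :
    ∃ x : ℚ, |α - x| < 1 / (x.den : ℝ) ^ 2 ∧ B < x.den := by
  by_contra hcon
  push Not at hcon
  have hinf := Real.infinite_rat_abs_sub_lt_one_div_den_sq_of_irrational hα
  apply hinf
  set N : ℤ := ⌈(|α| + 1) * B⌉ with hN
  have hfin : (((Finset.Icc (-N) N) ×ˢ (Finset.Icc 0 B)).image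
      (fun y : ℤ × ℕ => (y.1 : ℚ) / (y.2 : ℚ)) : Set ℚ).Finite := Finset.finite_toSet _
  refine hfin.subset ?_
  intro x hx
  have hx' : |α - x| < 1 / (x.den : ℝ) ^ 2 := hx
  have hB := hcon x hx'
  have hd : (1 : ℝ) ≤ x.den := by exact_mod_cast x.den_pos
  have h1 : 1 / (x.den : ℝ) ^ 2 ≤ 1 := by
    rw [div_le_one (by positivity)]; nlinarith
  have h2 : |(x : ℝ)| ≤ |α| + 1 := by
    have : |(x : ℝ)| ≤ |α| + |α - x| := by
      have := abs_sub (α) (α - x)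
      simpa using this
    linarith
  have h3 : (x.num : ℝ) = x * x.den := by
    have := Rat.mul_den_eq_num x
    exact_mod_cast this.symm
  have h4 : |(x.num : ℝ)| ≤ (|α| + 1) * B := by
    rw [h3, abs_mul, abs_of_nonneg (by positivity : (0 : ℝ) ≤ x.den)]
    have : (x.den : ℝ) ≤ B := by exact_mod_cast hB
    gcongr
  have h5 : |(x.num : ℝ)| ≤ N := h4.trans (Int.le_ceil _)
  have h6 : |x.num| ≤ N := by exact_mod_cast h5
  simp only [coe_image, Set.mem_image, mem_coe, mem_product, mem_Icc]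
  refine ⟨(x.num, x.den), ⟨abs_le.mp h6, Nat.zero_le _, hB⟩, ?_⟩
  exact Rat.num_div_den x

end FIN

theorem st_FIN (hC : St_CORE) : St_FIN := by
  obtain ⟨Λ, hΛ, hev⟩ := hC
  obtain ⟨Y0, hY0⟩ := Filter.eventually_atTop.mp hev
  have hΛ' : (1 : ℝ) ≤ Λ := by exact_mod_cast hΛ
  refine ⟨(2 / 3) / (270 * Λ + 1), by positivity, fun α hα => ?_⟩
  refine Set.infinite_of_forall_exists_gt fun b => ?_
  set Y1 : ℝ := max (max Y0 2) (b + 1) with hY1
  obtain ⟨x, hx, hxB⟩ := FIN.den_unbounded α hα ⌈Y1 ^ (180 * Λ)⌉₊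
  have hne : 180 * Λ ≠ 0 := by omega
  set Y : ℝ := (x.den : ℝ) ^ (((180 * Λ : ℕ) : ℝ)⁻¹) with hY
  have hq : (x.den : ℝ) = Y ^ (180 * Λ) := by
    rw [hY, Real.rpow_inv_natCast_pow (by positivity) hne]
  have hY10 : 0 ≤ Y1 := le_trans (by positivity) (le_max_right _ _)
  have hY0' : 0 ≤ Y := by positivity
  have hYY : Y1 ≤ Y := by
    have h1 : Y1 ^ (180 * Λ) ≤ Y ^ (180 * Λ) := by
      rw [← hq]
      have : ((⌈Y1 ^ (180 * Λ)⌉₊ : ℕ) : ℝ) ≤ x.den := by exact_mod_cast hxB.le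
      exact (Nat.le_ceil _).trans this
    exact (pow_le_pow_iff_left₀ hY10 hY0' hne).mp h1
  have hY2 : 2 ≤ Y := le_trans (le_trans (le_max_right _ _) (le_max_left _ _)) hYY
  have hYb : (b : ℝ) + 1 ≤ Y := le_trans (le_max_right _ _) hYY
  have hYa : Y0 ≤ Y := le_trans (le_trans (le_max_left _ _) (le_max_left _ _)) hYY
  have hD : Dio Λ Y α x.den := by
    refine ⟨hq, 1, le_rfl, by push_cast; linarith, x.num, ?_, ?_⟩
    · exact Int.isCoprime_iff_gcd_eq_one.mpr x.reduced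
    · have : ((x.num : ℝ) / (x.den : ℝ)) = x := by
        have := Rat.num_div_den x
        exact_mod_cast this
      rw [this, Nat.cast_one, one_mul]; exact hx.le
  obtain ⟨p, hp, hpI, hf0, hf1⟩ := hY0 Y hYa α x.den hD
  rw [mem_Ioc] at hpI
  have hp0 : (0 : ℝ) < p := by exact_mod_cast hp.pos
  have hpl : Y ^ (270 * Λ) < p := Nat.lt_of_floor_lt hpI.1
  have hpu : (p : ℝ) ≤ Y ^ (270 * Λ + 1) :=
    le_trans (by exact_mod_cast hpI.2) (Nat.floor_le (by positivity))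
  refine ⟨p, ⟨hp, ?_⟩, ?_⟩
  · have hYpos : 0 < Y := by linarith
    have h1 : (Y ^ (270 * Λ + 1)) ^ (-(1 / 3 + (2 / 3) / (270 * (Λ : ℝ) + 1))) ≤
        (p : ℝ) ^ (-(1 / 3 + (2 / 3) / (270 * (Λ : ℝ) + 1))) :=
      Real.rpow_le_rpow_of_nonpos hp0 hpu (by
        have : (0 : ℝ) ≤ (2 / 3) / (270 * (Λ : ℝ) + 1) := by positivity
        linarith)
    have h2 : (Y ^ (270 * Λ + 1)) ^ (-(1 / 3 + (2 / 3) / (270 * (Λ : ℝ) + 1))) =
        (Y ^ (90 * Λ + 1))⁻¹ := by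
      rw [← Real.rpow_natCast, ← Real.rpow_mul hYpos.le, ← Real.rpow_natCast,
        ← Real.rpow_neg hYpos.le]
      congr 1
      push_cast
      field_simp
      ring
    refine lt_of_lt_of_le ?_ (h2 ▸ h1)
    rw [← one_div, lt_div_iff₀ (by positivity)]
    exact hf1
  · have : Y ≤ Y ^ (270 * Λ) := le_self_pow₀ (by linarith) (by omega)
    have : (b : ℝ) < p := by linarith
    exact_mod_cast this

end Pool.Agent.Lib.AP
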