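import Pool.Agent.Lib.AP.Blue

/-! Row GAM: the coefficient `gam` expanded modulo `n2`. -/

open Finset Classical

noncomputable section

namespace Pool.Agent.Lib.AP

namespace GAM

variable {Λ : ℕ} {Y : ℝ}

theorem orthN (hT : St_TOOL) (c : ℕ) (j : ℤ) (hc : 0 < c) :
    ∑ x ∈ range c, ee (x * j / c) = if (c : ℤ) ∣ j then (c : ℂ) else 0 := by
  rw [← hT.orth c (-1) j hc]
  refine Finset.sum_bij (fun x _ => (x : ℤ)) ?_ ?_ ?_ ?_
  · intro x hx
    have := Finset.mem_range.1 hx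
    simp only [Finset.mem_Ioc]
    omega
  · intro x _ y _ h
    exact_mod_cast h
  · intro k hk
    have := Finset.mem_Ioc.1 hk
    refine ⟨k.toNat, Finset.mem_range.2 (by omega), ?_⟩
    show ((k.toNat : ℕ) : ℤ) = k
    omega
  · intro x _
    simp

theorem gconj (hT : St_TOOL) (K : Ker Λ Y) (x : ℝ) :
    (K.g x : ℂ) = ∑ h ∈ Icc (-(K.H : ℤ)) K.H, (starRingEnd ℂ) (K.c h) * ee (-(h * x)) := by
  have h1 : (K.g x : ℂ) = (starRingEnd ℂ) (K.g x : ℂ) := (Complex.conj_ofReal _).symm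
  rw [h1, K.hg, map_sum]
  refine Finset.sum_congr rfl fun h _ => ?_
  rw [map_mul, hT.conj]

/-- one pair of frequencies -/
theorem pair (hT : St_TOOL) (hK : St_KF) (H n1 n2 : ℕ) (s t h h' : ℤ) (h2 : 0 < n2)
    (hc : Nat.Coprime n1 n2) (h14 : n1 ≤ 4 * n2) (ht : |t| ≤ 32 * H * n2)
    (hh : h ∈ Icc (-(H : ℤ)) H) (hh' : h' ∈ Icc (-(H : ℤ)) H) :
    (∑ x ∈ range (37 * H + 1), ee (x * ((h * n1 - t - h' * n2 : ℤ) : ℝ) /
        (((37 * H + 1 : ℕ) : ℝ) * n2))) *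
      (∑ k ∈ Ioc s (s + n2), ee (k * h / n2) * kf (-(k * t)) n1 n2) =
      if h * n1 - h' * n2 = t then ((37 * H + 1 : ℕ) : ℂ) * n2 else 0 := by
  rw [hK.ind n1 n2 s h t h2 hc]
  have hn2 : (0 : ℤ) < n2 := by exact_mod_cast h2
  by_cases hd : (n2 : ℤ) ∣ h * n1 - t
  · obtain ⟨j, hj⟩ := hd
    rw [if_pos ⟨j, hj⟩]
    have hn2' : (n2 : ℝ) ≠ 0 := by positivity
    have e1 : ∀ x : ℕ, (x : ℝ) * ((h * n1 - t - h' * n2 : ℤ) : ℝ) /
        (((37 * H + 1 : ℕ) : ℝ) * n2) = x * ((j - h' : ℤ) : ℝ) / ((37 * H + 1 : ℕ) : ℝ) := by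
      intro x
      have : (h * n1 - t - h' * n2 : ℤ) = n2 * (j - h') := by rw [hj]; ring
      rw [this]
      push_cast
      field_simp
    simp only [e1]
    rw [orthN hT _ _ (by omega)]
    have hH := Finset.mem_Icc.1 hh
    have hH' := Finset.mem_Icc.1 hh'
    have ht' := abs_le.1 ht
    have h14' : (n1 : ℤ) ≤ 4 * n2 := by exact_mod_cast h14
    have h10 : (0 : ℤ) ≤ n1 := by positivity
    have hH0 : (0 : ℤ) ≤ H := by positivity
    have b1 : h * n1 ≤ H * (4 * n2) := by nlinarith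
    have b2 : -(H * (4 * n2)) ≤ h * n1 := by nlinarith
    have j1 : j ≤ 36 * H := by
      by_contra hcon
      push Not at hcon
      nlinarith
    have j2 : -(36 * (H : ℤ)) ≤ j := by
      by_contra hcon
      push Not at hcon
      nlinarith
    by_cases hjj : j = h'
    · rw [if_pos (by rw [hjj]; simp), if_pos (by rw [← hjj]; linarith)]
    · rw [if_neg, if_neg]
      · simp
      · intro he
        apply hjj
        have : (n2 : ℤ) * j = n2 * h' := by linarith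
        exact mul_left_cancel₀ hn2.ne' this
      · intro hdv
        apply hjj
        have := Int.eq_zero_of_abs_lt_dvd hdv (by rw [abs_lt]; push_cast; constructor <;> linarith)
        linarith
  · rw [if_neg hd, if_neg]
    · simp
    · intro he
      apply hd
      exact ⟨h', by linarith⟩

/-- the exact formula -/
theorem exact (hT : St_TOOL) (hK : St_KF) (K : Ker Λ Y) (n1 n2 : ℕ) (s t : ℤ) (h2 : 0 < n2)
    (hc : Nat.Coprime n1 n2) (h14 : n1 ≤ 4 * n2) (ht : |t| ≤ 32 * K.H * n2) :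
    ∑ x ∈ range K.Q, (K.g (x / K.Q) : ℂ) * ee (-(t * x) / (K.Q * n2)) *
      ∑ k ∈ Ioc s (s + n2), kf (-(k * t)) n1 n2 * (K.g (k / n2 + x * n1 / (K.Q * n2)) : ℂ) =
      (K.Q : ℂ) * n2 * K.gam n1 n2 t := by
  have hQ : (0 : ℝ) < K.Q := by unfold Ker.Q; positivity
  have hn : (0 : ℝ) < n2 := by exact_mod_cast h2
  have step : ∀ x : ℕ, (K.g (x / K.Q) : ℂ) * ee (-(t * x) / (K.Q * n2)) *
      ∑ k ∈ Ioc s (s + n2), kf (-(k * t)) n1 n2 * (K.g (k / n2 + x * n1 / (K.Q * n2)) : ℂ) =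
      ∑ h ∈ Icc (-(K.H : ℤ)) K.H, ∑ h' ∈ Icc (-(K.H : ℤ)) K.H,
        K.c h * (starRingEnd ℂ) (K.c h') *
        (ee (x * ((h * n1 - t - h' * n2 : ℤ) : ℝ) / ((K.Q : ℝ) * n2)) *
          ∑ k ∈ Ioc s (s + n2), ee (k * h / n2) * kf (-(k * t)) n1 n2) := by
    intro x
    have a1 : ∑ k ∈ Ioc s (s + n2), kf (-(k * t)) n1 n2 *
        (K.g (k / n2 + x * n1 / (K.Q * n2)) : ℂ) =
        ∑ h ∈ Icc (-(K.H : ℤ)) K.H, K.c h * ee (h * (x * n1 / (K.Q * n2))) *
          ∑ k ∈ Ioc s (s + n2), ee (k * h / n2) * kf (-(k * t)) n1 n2 := by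
      simp only [K.hg, Finset.mul_sum]
      rw [Finset.sum_comm]
      refine Finset.sum_congr rfl fun h _ => Finset.sum_congr rfl fun k _ => ?_
      have : (h : ℝ) * (k / n2 + x * n1 / (K.Q * n2)) =
          k * h / n2 + h * (x * n1 / (K.Q * n2)) := by ring
      rw [this, hT.add]
      ring
    rw [a1, gconj hT K (x / K.Q), Finset.mul_sum]
    refine Finset.sum_congr rfl fun h _ => ?_
    rw [Finset.sum_mul, Finset.sum_mul]
    refine Finset.sum_congr rfl fun h' _ => ?_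
    have : (x : ℝ) * ((h * n1 - t - h' * n2 : ℤ) : ℝ) / ((K.Q : ℝ) * n2) =
        -(h' * (x / K.Q)) + -(t * x) / (K.Q * n2) + h * (x * n1 / (K.Q * n2)) := by
      push_cast
      field_simp
      ring
    rw [this, hT.add, hT.add]
    ring
  simp only [step]
  rw [Finset.sum_comm]
  unfold Ker.gam
  rw [Finset.mul_sum]
  refine Finset.sum_congr rfl fun h hh => ?_
  rw [Finset.sum_comm, Finset.mul_sum]
  refine Finset.sum_congr rfl fun h' hh' => ?_
  rw [← Finset.mul_sum, ← Finset.sum_mul]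
  have := pair hT hK K.H n1 n2 s t h h' h2 hc h14 ht hh hh'
  unfold Ker.Q
  rw [this]
  split_ifs
  · ring
  · simp

theorem offa (K : Ker Λ Y) (y : ℝ) (h1 : y < 1) (h2 : 1 ≤ y * Y ^ (90 * Λ + 1)) (h0 : 0 ≤ y) :
    K.g y * Y ^ (2000 * Λ) ≤ 1 := by
  apply K.off
  rw [Int.fract_eq_self.2 ⟨h0, h1⟩]
  intro h
  linarith [h.2]

theorem offb (K : Ker Λ Y) (y : ℝ) (h1 : y < 0) (h2 : -(1 / 2) ≤ y)
    (hY : 2 ≤ Y ^ (90 * Λ + 1)) : K.g y * Y ^ (2000 * Λ) ≤ 1 := by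
  apply K.off
  have : Int.fract y = y + 1 := by
    rw [← Int.fract_add_one y]
    exact Int.fract_eq_self.2 ⟨by linarith, by linarith⟩
  rw [this]
  intro h
  nlinarith [h.2]

end GAM

theorem st_GAM (hT : St_TOOL) (hK : St_KF) : St_GAM := by
  intro Λ Y K hB n1 n2 K1 t h2 hc h14 ht hlo hhi
  have hΛ := hB.lam
  have hY : (128 : ℝ) ≤ Y := by
    refine le_trans ?_ hB.two
    calc (128 : ℝ) = 2 ^ 7 := by norm_num
      _ ≤ 2 ^ (300 * Λ) := pow_le_pow_right₀ (by norm_num) (by omega)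
  have hZ : (128 : ℝ) ≤ Y ^ (90 * Λ + 1) :=
    le_trans hY (le_self_pow₀ (by linarith) (by omega))
  have hτ : (0 : ℝ) < Y ^ (2000 * Λ) := by positivity
  set Z := Y ^ (90 * Λ + 1) with hZd
  have hQ : (0 : ℝ) < K.Q := by unfold Ker.Q; positivity
  have hn : (0 : ℝ) < n2 := by exact_mod_cast h2
  have hK1 : 4 * K1 ≤ n2 := by
    have h0 : (0 : ℝ) ≤ K1 := by positivity
    have : (4 : ℝ) * K1 ≤ n2 := by nlinarith
    exact_mod_cast this
  have hPQ : K.P ≤ K.Q := by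
    unfold Ker.P
    rw [Nat.ceil_le]
    exact div_le_self hQ.le (by linarith)
  set s : ℤ := -(((n2 : ℤ) + 1) / 2) with hs
  have hIW : Icc (-(K1 : ℤ)) K1 ⊆ Ioc s (s + n2) := by
    intro k hk
    have := Finset.mem_Icc.1 hk
    rw [Finset.mem_Ioc]
    omega
  set F : ℕ × ℤ → ℂ := fun z => (K.g (z.1 / K.Q) : ℂ) * ee (-(t * z.1) / (K.Q * n2)) *
    (kf (-(z.2 * t)) n1 n2 * (K.g (z.2 / n2 + z.1 * n1 / (K.Q * n2)) : ℂ)) with hF
  have e1 : (K.Q : ℂ) * n2 * K.gam n1 n2 t = ∑ z ∈ range K.Q ×ˢ Ioc s (s + n2), F z := by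
    rw [← GAM.exact hT hK K n1 n2 s t h2 hc h14 ht, Finset.sum_product]
    refine Finset.sum_congr rfl fun x _ => ?_
    rw [Finset.mul_sum]
  have e2 : ∑ x ∈ range K.P, (K.g (x / K.Q) : ℂ) *
      ee (-(t * x) / (K.Q * n2)) * ∑ k ∈ Icc (-(K1 : ℤ)) K1, kf (-(k * t)) n1 n2 *
        (K.g (k / n2 + x * n1 / (K.Q * n2)) : ℂ) =
      ∑ z ∈ range K.P ×ˢ Icc (-(K1 : ℤ)) K1, F z := by
    rw [Finset.sum_product]
    refine Finset.sum_congr rfl fun x _ => ?_
    rw [Finset.mul_sum]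
  have hsub : range K.P ×ˢ Icc (-(K1 : ℤ)) K1 ⊆ range K.Q ×ˢ Ioc s (s + n2) :=
    Finset.product_subset_product (Finset.range_subset_range.2 hPQ) hIW
  have hQc : (K.Q : ℂ) ≠ 0 := by exact_mod_cast hQ.ne'
  have hnc : (n2 : ℂ) ≠ 0 := by exact_mod_cast hn.ne'
  have e3 : K.gam n1 n2 t - 1 / ((K.Q : ℂ) * n2) * ∑ z ∈ range K.P ×ˢ Icc (-(K1 : ℤ)) K1, F z =
      1 / ((K.Q : ℂ) * n2) * ∑ z ∈ (range K.Q ×ˢ Ioc s (s + n2)) \
        (range K.P ×ˢ Icc (-(K1 : ℤ)) K1), F z := by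
    rw [Finset.sum_sdiff_eq_sub hsub, ← e1]
    field_simp
  have hterm : ∀ z ∈ (range K.Q ×ˢ Ioc s (s + n2)) \ (range K.P ×ˢ Icc (-(K1 : ℤ)) K1),
      ‖F z‖ * Y ^ (2000 * Λ) ≤ 1 := by
    rintro ⟨x, k⟩ hz
    rw [Finset.mem_sdiff, Finset.mem_product, Finset.mem_product] at hz
    obtain ⟨⟨hx, hk⟩, hne⟩ := hz
    have hx' : x < K.Q := Finset.mem_range.1 hx
    have hk' := Finset.mem_Ioc.1 hk
    have hxr : (x : ℝ) < K.Q := by exact_mod_cast hx'
    have hx0 : (0 : ℝ) ≤ x := by positivity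
    have hn' : ‖F (x, k)‖ = K.g (x / K.Q) * K.g (k / n2 + x * n1 / (K.Q * n2)) := by
      simp only [hF, norm_mul, hT.norm, hK.norm, Complex.norm_real, Real.norm_eq_abs,
        abs_of_nonneg (K.g0 _), mul_one, one_mul]
    rw [hn']
    have g0a := K.g0 (x / K.Q)
    have g1a := K.g1 (x / K.Q)
    have g0b := K.g0 (k / n2 + x * n1 / (K.Q * n2))
    have g1b := K.g1 (k / n2 + x * n1 / (K.Q * n2))
    by_cases hxP : x < K.P
    · have hkI : ¬ (-(K1 : ℤ) ≤ k ∧ k ≤ K1) := fun h =>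
        hne ⟨Finset.mem_range.2 hxP, Finset.mem_Icc.2 h⟩
      have hxZ : (x : ℝ) * Z < K.Q := by
        have := Nat.lt_ceil.1 hxP
        rwa [lt_div_iff₀ (by linarith)] at this
      have h14r : (n1 : ℝ) ≤ 4 * n2 := by exact_mod_cast h14
      have hw0 : (0 : ℝ) ≤ x * n1 / (K.Q * n2) := by positivity
      have hw1 : x * n1 / (K.Q * n2) * Z ≤ 4 := by
        rw [div_mul_eq_mul_div, div_le_iff₀ (by positivity)]
        have h10 : (0 : ℝ) ≤ n1 := by positivity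
        calc (x : ℝ) * n1 * Z = (x * Z) * n1 := by ring
          _ ≤ K.Q * (4 * n2) := mul_le_mul hxZ.le h14r h10 hQ.le
          _ = 4 * (K.Q * n2) := by ring
      have hw2 : x * n1 / (K.Q * n2) ≤ (1 / 4 : ℝ) := by nlinarith
      have key : K.g (k / n2 + x * n1 / (K.Q * n2)) * Y ^ (2000 * Λ) ≤ 1 := by
        by_cases hkp : (K1 : ℤ) < k
        · have k1 : ((K1 : ℝ) + 1) ≤ k := by exact_mod_cast hkp
          have k2 : (2 : ℝ) * k ≤ n2 := by
            have : 2 * k ≤ (n2 : ℤ) := by omega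
            exact_mod_cast this
          have k3 : (k : ℝ) / n2 ≤ 1 / 2 := by
            rw [div_le_iff₀ hn]; linarith
          have k4 : (8 : ℝ) ≤ k / n2 * Z := by
            rw [div_mul_eq_mul_div, le_div_iff₀ hn]
            nlinarith
          have k5 : (0 : ℝ) ≤ k / n2 := by
            have : (0 : ℝ) ≤ K1 := by positivity
            exact div_nonneg (by linarith) hn.le
          apply GAM.offa K _ (by linarith) _ (by linarith)
          rw [← hZd]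
          nlinarith
        · have hkm : k + 1 ≤ -(K1 : ℤ) := by omega
          have k1 : (k : ℝ) + 1 ≤ -(K1 : ℝ) := by exact_mod_cast hkm
          have k2 : -(n2 : ℝ) ≤ 2 * k := by
            have : -(n2 : ℤ) ≤ 2 * k := by omega
            exact_mod_cast this
          have k3 : -(1 / 2 : ℝ) ≤ k / n2 := by
            rw [le_div_iff₀ hn]; linarith
          have k4 : k / n2 * Z ≤ (-8 : ℝ) := by
            rw [div_mul_eq_mul_div, div_le_iff₀ hn]
            nlinarith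
          apply GAM.offb K _ _ (by linarith) (by rw [← hZd]; linarith)
          by_contra hcon
          push Not at hcon
          nlinarith
      calc K.g (x / K.Q) * K.g (k / n2 + x * n1 / (K.Q * n2)) * Y ^ (2000 * Λ)
          = K.g (x / K.Q) * (K.g (k / n2 + x * n1 / (K.Q * n2)) * Y ^ (2000 * Λ)) := by ring
        _ ≤ 1 * 1 := mul_le_mul g1a key (by positivity) (by norm_num)
        _ = 1 := by norm_num
    · have hxZ : (K.Q : ℝ) ≤ x * Z := by
        have := Nat.ceil_le.1 (not_lt.1 hxP)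
        rwa [div_le_iff₀ (by linarith)] at this
      have key : K.g (x / K.Q) * Y ^ (2000 * Λ) ≤ 1 := by
        apply GAM.offa K _ (by rwa [div_lt_one hQ]) _ (by positivity)
        rw [← hZd, div_mul_eq_mul_div, le_div_iff₀ hQ]
        linarith
      calc K.g (x / K.Q) * K.g (k / n2 + x * n1 / (K.Q * n2)) * Y ^ (2000 * Λ)
          = K.g (k / n2 + x * n1 / (K.Q * n2)) * (K.g (x / K.Q) * Y ^ (2000 * Λ)) := by ring
        _ ≤ 1 * 1 := mul_le_mul g1b key (by positivity) (by norm_num)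
        _ = 1 := by norm_num
  rw [e2, e3, norm_mul, mul_assoc]
  have hcard : (((range K.Q ×ˢ Ioc s (s + n2)) \
      (range K.P ×ˢ Icc (-(K1 : ℤ)) K1)).card : ℝ) ≤ K.Q * n2 := by
    have h1 := Finset.card_le_card (Finset.sdiff_subset (s := range K.Q ×ˢ Ioc s (s + n2))
      (t := range K.P ×ˢ Icc (-(K1 : ℤ)) K1))
    rw [Finset.card_product, Finset.card_range, Int.card_Ioc] at h1
    have h3 : (s + n2 - s).toNat = n2 := by omega
    rw [h3] at h1
    exact_mod_cast h1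
  have hsum : ‖∑ z ∈ (range K.Q ×ˢ Ioc s (s + n2)) \
      (range K.P ×ˢ Icc (-(K1 : ℤ)) K1), F z‖ * Y ^ (2000 * Λ) ≤ K.Q * n2 := by
    refine le_trans (mul_le_mul_of_nonneg_right (norm_sum_le _ _) hτ.le) ?_
    rw [Finset.sum_mul]
    refine le_trans (Finset.sum_le_sum hterm) ?_
    simpa using hcard
  have hnorm : ‖1 / ((K.Q : ℂ) * n2)‖ = 1 / ((K.Q : ℝ) * n2) := by
    simp
  rw [hnorm, one_div, inv_mul_le_iff₀ (by positivity)]
  have : (0 : ℝ) < K.Q * n2 := by positivity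
  linarith

end Pool.Agent.Lib.AP
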