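import Pool.Agent.Lib.AP.Blue

/-! Block GCD: divisor sums. -/

open Finset Classical

noncomputable section

namespace Pool.Agent.Lib.AP

namespace GCDB

theorem one (a V : ℕ) (ha : a ≠ 0) : ∑ v ∈ Icc 1 V, Nat.gcd a v ≤ V * a.divisors.card := by
  calc ∑ v ∈ Icc 1 V, Nat.gcd a v ≤ ∑ v ∈ Icc 1 V, ∑ d ∈ a.divisors, if d ∣ v then d else 0 := by
        refine sum_le_sum fun v _ => ?_
        refine le_trans ?_ (single_le_sum (f := fun d => if d ∣ v then d else 0)
          (fun _ _ => Nat.zero_le _) (Nat.mem_divisors.2 ⟨Nat.gcd_dvd_left a v, ha⟩))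
        rw [if_pos (Nat.gcd_dvd_right a v)]
    _ = ∑ d ∈ a.divisors, V / d * d := by
        rw [sum_comm]
        refine sum_congr rfl fun d _ => ?_
        rw [← sum_filter, sum_const, smul_eq_mul, ← Nat.Ioc_filter_dvd_card_eq_div]
        rfl
    _ ≤ ∑ _d ∈ a.divisors, V := sum_le_sum fun d _ => Nat.div_mul_le_self V d
    _ = V * a.divisors.card := by rw [sum_const, smul_eq_mul, mul_comm]

theorem fib (A : Finset ℤ) (B : Finset ℕ) (s : ℤ) (hs : s ≠ 0) :
    ((A ×ˢ B).filter fun x => x.1 * x.2 = s).card ≤ s.natAbs.divisors.card := by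
  refine card_le_card_of_injOn (fun x => x.2) (fun x hx => ?_) fun x hx y hy h => ?_
  · have h := (mem_filter.1 hx).2
    refine mem_coe.2 (Nat.mem_divisors.2 ⟨?_, Int.natAbs_ne_zero.2 hs⟩)
    exact Int.natCast_dvd.1 ⟨x.1, by rw [← h, mul_comm]⟩
  · have h1 := (mem_filter.1 hx).2
    have h2 := (mem_filter.1 hy).2
    have h3 : x.2 = y.2 := h
    have h4 : (y.2 : ℤ) ≠ 0 := fun h0 => hs (by rw [← h2, h0, mul_zero])
    rw [h3, ← h2] at h1
    exact Prod.ext (mul_right_cancel₀ h4 h1) h3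

theorem fibZ (A B : Finset ℤ) (s : ℤ) (hs : s ≠ 0) :
    ((A ×ˢ B).filter fun x => x.1 * x.2 = s).card ≤ 2 * s.natAbs.divisors.card := by
  have h1 : ((A ×ˢ B).filter fun x => x.1 * x.2 = s).card ≤
      (s.natAbs.divisors.image (fun d : ℕ => (d : ℤ)) ∪
        s.natAbs.divisors.image fun d : ℕ => -(d : ℤ)).card := by
    refine card_le_card_of_injOn (fun x => x.2) (fun x hx => ?_) fun x hx y hy h => ?_
    · have h := (mem_filter.1 hx).2
      have hd : x.2.natAbs ∈ s.natAbs.divisors :=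
        Nat.mem_divisors.2 ⟨Int.natAbs_dvd_natAbs.2 ⟨x.1, by rw [← h, mul_comm]⟩,
          Int.natAbs_ne_zero.2 hs⟩
      refine mem_coe.2 (mem_union.2 ?_)
      rcases Int.natAbs_eq x.2 with e | e
      · exact Or.inl (mem_image.2 ⟨_, hd, e.symm⟩)
      · exact Or.inr (mem_image.2 ⟨_, hd, e.symm⟩)
    · have h1 := (mem_filter.1 hx).2
      have h2 := (mem_filter.1 hy).2
      have h3 : x.2 = y.2 := h
      have h4 : y.2 ≠ 0 := fun h0 => hs (by rw [← h2, h0, mul_zero])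
      rw [h3, ← h2] at h1
      exact Prod.ext (mul_right_cancel₀ h4 h1) h3
  refine h1.trans ((card_union_le _ _).trans ?_)
  rw [two_mul]
  exact add_le_add card_image_le card_image_le

theorem har (A : ℕ) : ∑ a ∈ Icc 1 A, (1 : ℝ) / a ≤ 1 + Real.log A := by
  have h := harmonic_le_one_add_log A
  rw [harmonic_eq_sum_Icc] at h
  push_cast at h
  simpa only [one_div] using h

theorem har2' (A : ℕ) : ∑ a ∈ Icc 1 (A + 1), (1 : ℝ) / (a * √(a : ℝ)) ≤
    3 - 2 / √((A + 1 : ℕ) : ℝ) := by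
  induction A with
  | zero => norm_num
  | succ A ih =>
    rw [sum_Icc_succ_top (by omega)]
    have hx : 0 < √((A + 1 : ℕ) : ℝ) := Real.sqrt_pos.2 (by positivity)
    have hy : 0 < √((A + 1 + 1 : ℕ) : ℝ) := Real.sqrt_pos.2 (by positivity)
    have hxy : √((A + 1 : ℕ) : ℝ) ≤ √((A + 1 + 1 : ℕ) : ℝ) :=
      Real.sqrt_le_sqrt (by exact_mod_cast Nat.le_succ _)
    have ex := Real.mul_self_sqrt (x := ((A + 1 : ℕ) : ℝ)) (by positivity)
    have ey := Real.mul_self_sqrt (x := ((A + 1 + 1 : ℕ) : ℝ)) (by positivity)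
    have e1 : ((A + 1 + 1 : ℕ) : ℝ) = ((A + 1 : ℕ) : ℝ) + 1 := by push_cast; ring
    generalize √((A + 1 : ℕ) : ℝ) = x at *
    generalize √((A + 1 + 1 : ℕ) : ℝ) = y at *
    have e2 : y * y = x * x + 1 := by rw [ex, ey, e1]
    have key : 1 / (y * y * y) ≤ 2 / x - 2 / y := by
      rw [div_sub_div _ _ hx.ne' hy.ne', div_le_div_iff₀ (by positivity) (by positivity)]
      have a : (y - x) * (y + x) = 1 := by linarith
      have b : 0 ≤ y - x := by linarith
      have c : x * (y + x) ≤ 2 * (y * y) := by nlinarith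
      have d := mul_le_mul_of_nonneg_left c (mul_nonneg b hy.le)
      have e : (y - x) * y * (x * (y + x)) = x * y * ((y - x) * (y + x)) := by ring
      rw [e, a] at d
      nlinarith
    rw [← ey]
    linarith

theorem har2 (A : ℕ) : ∑ a ∈ Icc 1 A, (1 : ℝ) / (a * √(a : ℝ)) ≤ 3 := by
  rcases A with _ | A
  · simp
  · have h := har2' A
    have : 0 ≤ 2 / √((A + 1 : ℕ) : ℝ) := by positivity
    linarith

theorem colb (b : ℕ → ℕ → ℂ) (n : ℕ) (h : ∀ x y, ‖b x y‖ ≤ 1) : ‖col b n‖ ≤ n.divisors.card := by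
  refine (norm_sum_le _ _).trans ((sum_le_sum fun x _ => h x.1 x.2).trans (le_of_eq ?_))
  rw [sum_const, nsmul_eq_mul, mul_one, ← Nat.map_div_right_divisors, card_map]

theorem anti (W : ℕ) (F : ℕ → ℕ → ℂ) :
    ∑ n ∈ Icc 1 W, col F n = ∑ x ∈ Icc 1 W, ∑ y ∈ Icc 1 W, if x * y ≤ W then F x y else 0 := by
  rw [← sum_product', ← sum_filter, ← sum_fiberwise_of_maps_to (t := Icc 1 W)
    (g := fun z : ℕ × ℕ => z.1 * z.2)]
  · refine sum_congr rfl fun n hn => sum_congr ?_ fun _ _ => rfl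
    rw [mem_Icc] at hn
    ext z
    simp only [Nat.mem_divisorsAntidiagonal, mem_filter, mem_product, mem_Icc]
    constructor
    · rintro ⟨h, h0⟩
      have h1 : 0 < z.1 := Nat.pos_of_ne_zero fun e => h0 (by rw [← h, e, zero_mul])
      have h2 : 0 < z.2 := Nat.pos_of_ne_zero fun e => h0 (by rw [← h, e, mul_zero])
      have h3 := Nat.le_mul_of_pos_right z.1 h2
      have h4 := Nat.le_mul_of_pos_left z.2 h1
      exact ⟨⟨⟨⟨h1, by omega⟩, h2, by omega⟩, by omega⟩, h⟩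
    · rintro ⟨_, h⟩
      exact ⟨h, by omega⟩
  · intro z hz
    simp only [mem_filter, mem_product, mem_Icc] at hz
    exact mem_Icc.2 ⟨Nat.mul_pos hz.1.1.1 hz.1.2.1, hz.2⟩

theorem prod (A B : ℕ) (F : ℕ → ℕ → ℂ) (G : ℕ → ℂ) :
    ∑ x ∈ Icc 1 A, ∑ y ∈ Icc 1 B, F x y * G (x * y) =
      ∑ n ∈ Icc 1 (A * B), col (fun x y => if x ≤ A ∧ y ≤ B then F x y else 0) n * G n := by
  have e : ∀ n, col (fun x y => if x ≤ A ∧ y ≤ B then F x y else 0) n * G n =
      col (fun x y => (if x ≤ A ∧ y ≤ B then F x y else 0) * G (x * y)) n := fun n => by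
    unfold col
    rw [sum_mul]
    exact sum_congr rfl fun z hz => by rw [← (Nat.mem_divisorsAntidiagonal.1 hz).1]
  simp only [e]
  rw [anti]
  rcases Nat.eq_zero_or_pos A with rfl | hA
  · simp
  rcases Nat.eq_zero_or_pos B with rfl | hB
  · simp
  symm
  rw [← sum_subset (Icc_subset_Icc_right (Nat.le_mul_of_pos_right A hB))]
  · refine sum_congr rfl fun x hx => ?_
    rw [← sum_subset (Icc_subset_Icc_right (Nat.le_mul_of_pos_left B hA))]
    · refine sum_congr rfl fun y hy => ?_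
      rw [mem_Icc] at hx hy
      rw [if_pos (Nat.mul_le_mul hx.2 hy.2), if_pos ⟨hx.2, hy.2⟩]
    · intro y hy hy'
      rw [mem_Icc] at hy hy'
      rw [if_neg (show ¬(x ≤ A ∧ y ≤ B) by omega), zero_mul, ite_self]
  · intro x hx hx'
    rw [mem_Icc] at hx hx'
    refine sum_eq_zero fun y _ => ?_
    rw [if_neg (show ¬(x ≤ A ∧ y ≤ B) by omega), zero_mul, ite_self]

end GCDB

theorem st_GCD : St_GCD :=
  ⟨GCDB.one, GCDB.fib, GCDB.fibZ, GCDB.har, GCDB.har2, GCDB.colb, GCDB.prod, GCDB.anti⟩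

end Pool.Agent.Lib.AP
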