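import Pool.Agent.Lib.AP.Blue2

/-! General position: from the vector form to the sublist form. -/

open Finset Classical

noncomputable section

namespace Pool.Agent.Lib.AP

namespace GENV

theorem ind {A x : List ℝ} (h : A.Sublist x) : ∃ e : ℕ → ℤ, (∀ i, e i = 0 ∨ e i = 1) ∧
    A.sum = ∑ i ∈ range x.length, (e i : ℝ) * x.getD i 0 ∧
      ∀ y ∈ A, ∃ j < x.length, e j = 1 ∧ x.getD j 0 = y := by
  induction h with
  | slnil => exact ⟨fun _ => 0, fun _ => Or.inl rfl, by simp, by simp⟩
  | cons a _ ih =>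
    obtain ⟨e, h1, h2, h3⟩ := ih
    refine ⟨fun i => Nat.casesOn i 0 e, fun i => ?_, ?_, fun y hy => ?_⟩
    · cases i with
      | zero => exact Or.inl rfl
      | succ i => exact h1 i
    · rw [List.length_cons, sum_range_succ', h2]; simp
    · obtain ⟨j, hj, h4, h5⟩ := h3 y hy
      exact ⟨j + 1, Nat.succ_lt_succ hj, h4, h5⟩
  | cons_cons a _ ih =>
    obtain ⟨e, h1, h2, h3⟩ := ih
    refine ⟨fun i => Nat.casesOn i 1 e, fun i => ?_, ?_, fun y hy => ?_⟩
    · cases i with
      | zero => exact Or.inr rfl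
      | succ i => exact h1 i
    · rw [List.length_cons, sum_range_succ', List.sum_cons, h2, add_comm]; simp
    · rcases List.mem_cons.1 hy with rfl | hy
      · exact ⟨0, Nat.succ_pos _, rfl, rfl⟩
      · obtain ⟨j, hj, h4, h5⟩ := h3 y hy
        exact ⟨j + 1, Nat.succ_lt_succ hj, h4, h5⟩

theorem delta (x : List ℝ) {j : ℕ} (hj : j < x.length) :
    ∑ i ∈ range x.length, (((if i = j then 1 else 0 : ℤ)) : ℝ) * x.getD i 0 = x.getD j 0 := by
  rw [sum_eq_single j (fun i _ h => by simp [h]) fun h => absurd (mem_range.2 hj) h]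
  simp

end GENV

open GENV

theorem st_GENV2 : St_GENV' := by
  intro m x hx h
  refine ⟨?_, ?_, ?_⟩
  · intro A B C hA hB hC a b c γ ha hb hc hγ h0
    obtain ⟨e1, a1, a2, -⟩ := ind hA
    obtain ⟨e2, b1, b2, -⟩ := ind hB
    obtain ⟨e3, c1, c2, -⟩ := ind hC
    have := h (fun i => a * e1 i + b * e2 i + c * e3 i) γ (fun i => ?_) hγ
      ⟨0, List.length_pos_iff.2 hx, by omega⟩
    · rw [a2, b2, c2, mul_sum, mul_sum, mul_sum, ← sum_add_distrib, ← sum_add_distrib]
      refine this.trans_eq ?_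
      congr 2
      refine sum_congr rfl fun i _ => ?_
      push_cast; ring
    · rw [abs_le] at *
      rcases a1 i with h1 | h1 <;> rcases b1 i with h2 | h2 <;> rcases c1 i with h3 | h3 <;>
        simp only [h1, h2, h3] <;> omega
  · intro A hA y hy
    obtain ⟨e, a1, a2, a3⟩ := ind hA
    obtain ⟨j, hj, h1, h2⟩ := a3 y hy
    have := h (fun i => e i + if i = j then 1 else 0) 270 (fun i => ?_) (by norm_num)
      ⟨j, hj, by simp [h1]⟩
    · rw [a2, ← h2, ← delta x hj, ← sum_add_distrib]
      refine this.trans_eq ?_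
      congr 2
      refine sum_congr rfl fun i _ => ?_
      push_cast; ring
    · rw [abs_le]
      rcases a1 i with h3 | h3 <;> split_ifs <;> omega
  · intro y y' hA
    obtain ⟨e, a1, a2, a3⟩ := ind hA
    obtain ⟨j, hj, h1, h2⟩ := a3 y (by simp)
    have := h (fun i => 2 * (if i = j then 1 else 0) - e i) 0 (fun i => ?_) (by norm_num)
      ⟨j, hj, by simp [h1]⟩
    · refine this.trans_eq ?_
      have h3 : y - y' = 2 * y - [y, y'].sum := by simp; ring
      rw [h3, a2, Int.cast_zero, sub_zero]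
      conv_rhs => rw [← h2, ← delta x hj, mul_sum, ← sum_sub_distrib]
      congr 1
      refine sum_congr rfl fun i _ => ?_
      push_cast; ring
    · rw [abs_le]
      rcases a1 i with h3 | h3 <;> split_ifs <;> omega

end Pool.Agent.Lib.AP
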