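import Pool.Agent.Lib.AP.Comb

/-! Basic facts on the sieve weights: unfolding, size, support. -/

open Finset Classical

noncomputable section

namespace Pool.Agent.Lib.AP

theorem a0.rlz : True := by have := @a0.eq_def; trivial

namespace C82

theorem sg_cons (x : ℝ) (S : List ℝ) : sg (x :: S) = -sg S := by
  simp [sg, pow_succ]

theorem sg_cases (S : List ℝ) : sg S = 1 ∨ sg S = -1 := neg_one_pow_eq_or ℤ _

theorem sg_abs (S : List ℝ) : |sg S| = 1 := by
  rcases sg_cases S with h | h <;> simp [h]

theorem a0_nil (u μ : ℝ) : a0 u μ [] = 1 := rfl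

theorem a0_cons (u μ x : ℝ) (P : List ℝ) : a0 u μ (x :: P) =
    if (∃ b ∈ x :: P, 135 * u < b) ∨ 2 ≤ nb u (x :: P) then 0
    else if nb u (x :: P) = 1 then (if good u μ 0 (x :: P) then sg (x :: P) else 0)
    else if (x :: P).sum < 135 * u then sg (x :: P)
    else if ¬ good u μ 0 (x :: P) then 0
    else if WW u μ (x :: P) then -a0 u μ P - KH u μ (x :: P)
    else if cap u μ x P then -a0 u μ P - KP u μ (x :: P)
    else min 0 (-a0 u μ P - KP u μ (x :: P)) := rfl

theorem sum_cons (f : List ℝ → ℤ) (x : ℝ) (l : List ℝ) :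
    ((x :: l).sublists'.map f).sum = (l.sublists'.map fun S => f S + f (x :: S)).sum := by
  rw [List.sublists'_cons, List.map_append, List.sum_append, List.map_map, List.sum_map_add]
  rfl

theorem sum_concat (f : List ℝ → ℤ) (b : ℝ) (l : List ℝ) :
    ((l ++ [b]).sublists'.map f).sum
      = (l.sublists'.map f).sum + (l.sublists'.map fun S => f (S ++ [b])).sum := by
  induction l generalizing f with
  | nil => simp
  | cons x l ih =>
    rw [List.cons_append, sum_cons, ih, sum_cons, sum_cons]
    rfl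

theorem abs_sum_le (f g : List ℝ → ℤ) (L : List (List ℝ)) (h : ∀ S ∈ L, |f S| ≤ g S) :
    |(L.map f).sum| ≤ (L.map g).sum := by
  induction L with
  | nil => simp
  | cons a L ih =>
    simp only [List.map_cons, List.sum_cons]
    exact (abs_add_le _ _).trans
      (add_le_add (h a (by simp)) (ih fun S hS => h S (List.mem_cons_of_mem _ hS)))

theorem sum_nonpos (f : List ℝ → ℤ) (L : List (List ℝ)) (h : ∀ S ∈ L, f S ≤ 0) :
    (L.map f).sum ≤ 0 := by
  induction L with
  | nil => simp
  | cons a L ih =>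
    simp only [List.map_cons, List.sum_cons]
    exact add_nonpos (h a (by simp)) (ih fun S hS => h S (List.mem_cons_of_mem _ hS))

theorem sum_zero (f : List ℝ → ℤ) (L : List (List ℝ)) (h : ∀ S ∈ L, f S = 0) :
    (L.map f).sum = 0 := by
  induction L with
  | nil => simp
  | cons a L ih =>
    simp only [List.map_cons, List.sum_cons]
    rw [h a (by simp), ih fun S hS => h S (List.mem_cons_of_mem _ hS), add_zero]

theorem kk (u μ t : ℝ) (S : List ℝ) (hS : S ≠ []) : 2 * |KK u μ t S| ≤ 2 ^ S.length := by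
  obtain ⟨x, P, rfl⟩ := List.exists_cons_of_ne_nil hS
  have h : |KK u μ t (x :: P)| ≤ (P.sublists'.map fun _ => (1 : ℤ)).sum := by
    rw [KK, sum_cons]
    refine abs_sum_le _ _ _ fun T _ => ?_
    rw [sg_cons]
    rcases sg_cases T with h | h <;> split_ifs <;> simp [h]
  simp only [List.map_const', List.sum_replicate, List.length_sublists', nsmul_eq_mul,
    mul_one] at h
  push_cast at h
  rw [List.length_cons, pow_succ]
  linarith

theorem kh (u μ : ℝ) (S : List ℝ) (hS : S ≠ []) : 2 * |KH u μ S| ≤ 2 ^ S.length := by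
  obtain ⟨i, -, hi⟩ := Finset.exists_mem_eq_sup' (s := range 28) nonempty_range_add_one
    fun i : ℕ => KK u μ (270 * u + μ * (1 + i) - S.sum) S
  rw [KH, hi]
  exact kk _ _ _ _ hS

theorem KP_nonneg (u μ : ℝ) (S : List ℝ) : 0 ≤ KP u μ S := by
  rw [KP]; split_ifs
  · exact le_max_right _ _
  · exact le_rfl

theorem KP_le (u μ : ℝ) (S : List ℝ) : KP u μ S ≤ |KH u μ S| := by
  rw [KP]; split_ifs
  · exact max_le (le_abs_self _) (abs_nonneg _)
  · exact abs_nonneg _

theorem a_bd (u μ : ℝ) (S : List ℝ) : |a0 u μ S| ≤ 2 ^ S.length := by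
  induction S with
  | nil => simp [a0_nil]
  | cons x P ih =>
    have h1 := kh u μ (x :: P) (by simp)
    have h2 := KP_nonneg u μ (x :: P)
    have h3 := KP_le u μ (x :: P)
    have h4 : (1 : ℤ) ≤ 2 ^ P.length := one_le_pow₀ (by norm_num)
    have h5 := sg_abs (x :: P)
    have h6 := abs_le.1 ih
    have h7 := le_abs_self (KH u μ (x :: P))
    have h8 := neg_abs_le (KH u μ (x :: P))
    rw [List.length_cons, pow_succ] at h1 ⊢
    rw [a0_cons]
    split_ifs
    all_goals first
      | (rw [h5]; omega)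
      | (rw [abs_le]; omega)

theorem pow_sum (l : List ℝ) : (l.sublists'.map fun S => (2 : ℤ) ^ S.length).sum = 3 ^ l.length := by
  induction l with
  | nil => simp
  | cons x l ih =>
    rw [sum_cons, List.length_cons, pow_succ, ← ih, ← List.sum_map_mul_right]
    congr 1
    refine List.map_congr_left fun S _ => ?_
    rw [List.length_cons, pow_succ]; ring

theorem supp (u μ : ℝ) (S : List ℝ) (hu : 0 < u) (_hμ : 0 ≤ μ) (h : 100000 * μ ≤ u)
    (ha : a0 u μ S ≠ 0) : good u μ 0 S := by
  cases S with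
  | nil => left; simp only [gD, List.sum_nil]; linarith
  | cons x P =>
    by_contra hg
    rw [a0_cons] at ha
    split_ifs at ha with h1 h2 h3
    · exact ha rfl
    · exact ha rfl
    · exact hg (Or.inl (by simp only [gD]; linarith))
    · exact ha rfl

theorem compl (S l : List ℝ) (h : S.Sublist l) : ∃ C, C.Sublist l ∧ l.Perm (S ++ C) := by
  induction h with
  | slnil => exact ⟨[], List.Sublist.refl _, by simp⟩
  | cons a _ ih =>
    obtain ⟨C, h1, h2⟩ := ih
    exact ⟨a :: C, h1.cons_cons a, (h2.cons a).trans List.perm_middle.symm⟩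
  | cons_cons a _ ih =>
    obtain ⟨C, h1, h2⟩ := ih
    exact ⟨C, h1.cons a, h2.cons a⟩

end C82

theorem st_BND : St_BND where
  kk := C82.kk
  kh := C82.kh
  a := C82.a_bd
  t := fun u μ l => by
    rw [← C82.pow_sum]
    exact C82.abs_sum_le _ _ _ fun S _ => C82.a_bd u μ S
  supp := C82.supp
  kh0 := fun u S => by simp [KH]
  compl := C82.compl

end Pool.Agent.Lib.AP
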