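import Pool.Agent.Lib.AP.Comb
import Pool.Agent.Lib.AP.C82a

/-! Integer levels and ideal exponents give the same sieve values in general position. -/

open Finset Classical

noncomputable section

namespace Pool.Agent.Lib.AP

namespace IDE

/-- the hypotheses of the transfer -/
structure Hyp (Λ : ℝ) (z : List (ℝ × ℝ)) : Prop where
  hΛ : 100000 ≤ Λ
  len : z.length ≤ 27
  near : ∀ w ∈ z, |w.1 - Λ * w.2| ≤ 2
  gen : Gen (10000 / Λ) (z.map Prod.snd)

variable {Λ : ℝ} {z : List (ℝ × ℝ)}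

lemma sum_near (A : List (ℝ × ℝ)) (h : ∀ w ∈ A, |w.1 - Λ * w.2| ≤ 2) :
    |(A.map Prod.fst).sum - Λ * (A.map Prod.snd).sum| ≤ 2 * A.length := by
  induction A with
  | nil => simp
  | cons w A ih =>
    have h1 := h w (by simp)
    have h2 := ih fun v hv => h v (by simp [hv])
    rw [abs_le] at h1 h2 ⊢
    simp only [List.map_cons, List.sum_cons, List.length_cons]
    push_cast
    constructor <;> nlinarith [h1.1, h1.2, h2.1, h2.2]

lemma sub_near (H : Hyp Λ z) {A : List (ℝ × ℝ)} (hA : A.Sublist z) :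
    |(A.map Prod.fst).sum - Λ * (A.map Prod.snd).sum| ≤ 54 := by
  have h1 := sum_near (Λ := Λ) A fun w hw => H.near w (hA.subset hw)
  have h2 : (A.length : ℝ) ≤ 27 := by exact_mod_cast hA.length_le.trans H.len
  linarith

lemma mul_bd {a : ℤ} (ha : |a| ≤ 8) {e : ℝ} (he : |e| ≤ 54) : |(a : ℝ) * e| ≤ 432 := by
  have h1 : |(a : ℝ)| ≤ 8 := by exact_mod_cast ha
  rw [abs_mul]
  nlinarith [abs_nonneg (a : ℝ), abs_nonneg e]

/-- every test form is decided in the same way on both sides, with room on the level side -/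
lemma tr (H : Hyp Λ z) {A B C : List (ℝ × ℝ)} (hA : A.Sublist z) (hB : B.Sublist z)
    (hC : C.Sublist z) (a b c γ : ℤ) (ha : |a| ≤ 8) (hb : |b| ≤ 8) (hc : |c| ≤ 8)
    (hγ : |γ| ≤ 3000) (h0 : γ % 270 ≠ 0) :
    ((a : ℝ) * (A.map Prod.fst).sum + b * (B.map Prod.fst).sum + c * (C.map Prod.fst).sum + 5000
        < γ * Λ ∧
      (a : ℝ) * (A.map Prod.snd).sum + b * (B.map Prod.snd).sum + c * (C.map Prod.snd).sum < γ) ∨
    ((γ : ℝ) * Λ + 5000 <
        a * (A.map Prod.fst).sum + b * (B.map Prod.fst).sum + c * (C.map Prod.fst).sum ∧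
      (γ : ℝ) < a * (A.map Prod.snd).sum + b * (B.map Prod.snd).sum + c * (C.map Prod.snd).sum) := by
  have hg := H.gen.g1 _ _ _ (hA.map Prod.snd) (hB.map Prod.snd) (hC.map Prod.snd) a b c γ ha hb hc
    hγ h0
  have hΛ : 0 < Λ := by linarith [H.hΛ]
  have e1 := abs_le.1 (mul_bd ha (sub_near H hA))
  have e2 := abs_le.1 (mul_bd hb (sub_near H hB))
  have e3 := abs_le.1 (mul_bd hc (sub_near H hC))
  have hp : 0 < 10000 / Λ := by positivity
  rcases lt_abs.1 hg with h | h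
  · right
    have h' := (div_lt_iff₀ hΛ).1 h
    refine ⟨by nlinarith [e1.1, e2.1, e3.1], by linarith⟩
  · left
    have h' := (div_lt_iff₀ hΛ).1 h
    refine ⟨by nlinarith [e1.2, e2.2, e3.2], by linarith⟩

lemma one_sub {T : List (ℝ × ℝ)} (hT : T.Sublist z) {w : ℝ × ℝ} (hw : w ∈ T) : [w].Sublist z :=
  (List.singleton_sublist.2 hw).trans hT

lemma ex_iff {T : List (ℝ × ℝ)} {p q : ℝ → Prop} (h : ∀ w ∈ T, p w.1 ↔ q w.2) :
    (∃ x ∈ T.map Prod.fst, p x) ↔ ∃ x ∈ T.map Prod.snd, q x := by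
  constructor
  · rintro ⟨x, hx, hp⟩
    obtain ⟨w, hw, rfl⟩ := List.mem_map.1 hx
    exact ⟨w.2, List.mem_map_of_mem hw, (h w hw).1 hp⟩
  · rintro ⟨x, hx, hp⟩
    obtain ⟨w, hw, rfl⟩ := List.mem_map.1 hx
    exact ⟨w.1, List.mem_map_of_mem hw, (h w hw).2 hp⟩

lemma gD0 (H : Hyp Λ z) {T : List (ℝ × ℝ)} (hT : T.Sublist z) :
    gD Λ 1 (T.map Prod.fst).sum ↔ gD 1 0 (T.map Prod.snd).sum := by
  have h := tr H hT hT hT 1 0 0 180 (by norm_num) (by norm_num) (by norm_num) (by norm_num)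
    (by norm_num)
  push_cast at h
  unfold gD
  rcases h with ⟨h1, h2⟩ | ⟨h1, h2⟩ <;> constructor <;> intro h <;> linarith

lemma good0 (H : Hyp Λ z) {T : List (ℝ × ℝ)} (hT : T.Sublist z) :
    good Λ 1 0 (T.map Prod.fst) ↔ good 1 0 0 (T.map Prod.snd) := by
  unfold good
  simp only [zero_add]
  refine or_congr (gD0 H hT) (ex_iff fun w hw => ?_)
  have h := tr H hT (one_sub hT hw) hT 1 (-1) 0 170 (by norm_num) (by norm_num) (by norm_num)
    (by norm_num) (by norm_num)
  have k := tr H hT (one_sub hT hw) hT (-3) 5 0 (-450) (by norm_num) (by norm_num) (by norm_num)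
    (by norm_num) (by norm_num)
  push_cast at h k
  simp only [List.map_cons, List.map_nil, List.sum_cons, List.sum_nil, add_zero] at h k
  unfold ext
  refine and_congr ?_ ?_
  · rcases h with ⟨h1, h2⟩ | ⟨h1, h2⟩ <;> constructor <;> intro h <;> linarith
  · rcases k with ⟨h1, h2⟩ | ⟨h1, h2⟩ <;> constructor <;> intro h <;> linarith

lemma good1 (H : Hyp Λ z) {S T : List (ℝ × ℝ)} (hS : S.Sublist z) (hT : T.Sublist z) {e : ℝ}
    (he0 : 0 ≤ e) (he : e ≤ 28) :
    good Λ 1 (270 * Λ + 1 * e - (S.map Prod.fst).sum) (T.map Prod.fst) ↔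
      good 1 0 (270 * 1 + 0 * e - (S.map Prod.snd).sum) (T.map Prod.snd) := by
  unfold good
  refine or_congr ?_ (ex_iff fun w hw => ?_)
  · have h := tr H hT hS hT 1 (-1) 0 (-90) (by norm_num) (by norm_num) (by norm_num)
      (by norm_num) (by norm_num)
    push_cast at h
    unfold gD
    rcases h with ⟨h1, h2⟩ | ⟨h1, h2⟩ <;> constructor <;> intro h <;> linarith
  · have h := tr H hT hS (one_sub hT hw) 1 (-1) (-1) (-100) (by norm_num) (by norm_num)
      (by norm_num) (by norm_num) (by norm_num)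
    have k := tr H hT hS (one_sub hT hw) (-3) 3 5 360 (by norm_num) (by norm_num) (by norm_num)
      (by norm_num) (by norm_num)
    push_cast at h k
    simp only [List.map_cons, List.map_nil, List.sum_cons, List.sum_nil, add_zero] at h k
    unfold ext
    refine and_congr ?_ ?_
    · rcases h with ⟨h1, h2⟩ | ⟨h1, h2⟩ <;> constructor <;> intro h <;> linarith
    · rcases k with ⟨h1, h2⟩ | ⟨h1, h2⟩ <;> constructor <;> intro h <;> linarith

lemma sg_eq (T : List (ℝ × ℝ)) : sg (T.map Prod.fst) = sg (T.map Prod.snd) := by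
  simp [sg]

lemma KH_eq (H : Hyp Λ z) {S : List (ℝ × ℝ)} (hS : S.Sublist z) :
    KH Λ 1 (S.map Prod.fst) = KH 1 0 (S.map Prod.snd) := by
  unfold KH
  refine Finset.sup'_congr _ rfl fun i hi => ?_
  have hi' : (i : ℝ) ≤ 27 := by
    have := Finset.mem_range.1 hi
    exact_mod_cast (by omega : i ≤ 27)
  have hi0 : (0 : ℝ) ≤ i := Nat.cast_nonneg i
  unfold KK
  rw [List.sublists'_map, List.sublists'_map, List.map_map, List.map_map]
  congr 1
  refine List.map_congr_left fun T hT => ?_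
  have hT' : T.Sublist z := (List.mem_sublists'.1 hT).trans hS
  simp only [Function.comp]
  rw [sg_eq]
  exact if_congr (good1 H hS hT' (by linarith) (by linarith)) rfl rfl

lemma KP_eq (H : Hyp Λ z) {S : List (ℝ × ℝ)} (hS : S.Sublist z) :
    KP Λ 1 (S.map Prod.fst) = KP 1 0 (S.map Prod.snd) := by
  unfold KP
  rw [KH_eq H hS]
  exact if_congr (gD0 H hS) rfl rfl

lemma WW_iff (H : Hyp Λ z) {S : List (ℝ × ℝ)} (hS : S.Sublist z) :
    WW Λ 1 (S.map Prod.fst) ↔ WW 1 0 (S.map Prod.snd) := by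
  unfold WW
  refine and_congr (gD0 H hS) ?_
  have h := tr H hS hS hS 1 0 0 174 (by norm_num) (by norm_num) (by norm_num) (by norm_num)
    (by norm_num)
  push_cast at h
  rcases h with ⟨h1, h2⟩ | ⟨h1, h2⟩ <;> constructor <;> intro h <;> linarith

lemma cap_iff (H : Hyp Λ z) {w : ℝ × ℝ} {P : List (ℝ × ℝ)} (hS : (w :: P).Sublist z) :
    cap Λ 1 w.1 (P.map Prod.fst) ↔ cap 1 0 w.2 (P.map Prod.snd) := by
  have hw : [w].Sublist z := one_sub hS (by simp)
  have h0 := gD0 H hS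
  have h1 := tr H hS hw hS 1 1 0 180 (by norm_num) (by norm_num) (by norm_num) (by norm_num)
    (by norm_num)
  have h2 := tr H hS hw hS 1 0 0 170 (by norm_num) (by norm_num) (by norm_num) (by norm_num)
    (by norm_num)
  have h3 := tr H hS hw hS (-3) 2 0 (-450) (by norm_num) (by norm_num) (by norm_num) (by norm_num)
    (by norm_num)
  have h4 := tr H hS hw hS (-7) 1 0 (-1170) (by norm_num) (by norm_num) (by norm_num)
    (by norm_num) (by norm_num)
  push_cast at h1 h2 h3 h4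
  simp only [List.map_cons, List.map_nil, List.sum_cons, List.sum_nil, add_zero] at h0 h1 h2 h3 h4
  unfold cap ext
  simp only [List.sum_cons, List.length_map]
  refine or_congr ?_ (or_congr (and_congr ?_ ?_) (and_congr h0 (and_congr Iff.rfl ?_)))
  · unfold gD
    rcases h1 with ⟨h1, h2⟩ | ⟨h1, h2⟩ <;> constructor <;> intro h <;> linarith
  · rcases h2 with ⟨h1, h2⟩ | ⟨h1, h2⟩ <;> constructor <;> intro h <;> linarith
  · rcases h3 with ⟨h1, h2⟩ | ⟨h1, h2⟩ <;> constructor <;> intro h <;> linarith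
  · rcases h4 with ⟨h1, h2⟩ | ⟨h1, h2⟩ <;> constructor <;> intro h <;> linarith

lemma thr (H : Hyp Λ z) {S : List (ℝ × ℝ)} (hS : S.Sublist z) {w : ℝ × ℝ} (hw : w ∈ S) (γ : ℤ)
    (hγ : |γ| ≤ 3000) (h0 : γ % 270 ≠ 0) : (γ : ℝ) * Λ < w.1 ↔ (γ : ℝ) * 1 < w.2 := by
  have h := tr H (one_sub hS hw) hS hS 1 0 0 γ (by norm_num) (by norm_num) (by norm_num) hγ h0
  push_cast at h
  simp only [List.map_cons, List.map_nil, List.sum_cons, List.sum_nil, add_zero] at h
  rcases h with ⟨h1, h2⟩ | ⟨h1, h2⟩ <;> constructor <;> intro h <;> linarith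

lemma nb_eq (H : Hyp Λ z) {S : List (ℝ × ℝ)} (hS : S.Sublist z) :
    nb Λ (S.map Prod.fst) = nb 1 (S.map Prod.snd) := by
  unfold nb
  rw [List.countP_map, List.countP_map]
  refine List.countP_congr fun w hw => ?_
  have h := thr H hS hw 90 (by norm_num) (by norm_num)
  push_cast at h
  simp only [Function.comp, decide_eq_true_eq]
  exact h

lemma a0_eq (H : Hyp Λ z) : ∀ S : List (ℝ × ℝ), S.Sublist z →
    a0 Λ 1 (S.map Prod.fst) = a0 1 0 (S.map Prod.snd)
  | [], _ => rfl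
  | w :: P, hS => by
    have ih := a0_eq H P ((List.sublist_cons_self w P).trans hS)
    have h1 : (∃ b ∈ (w :: P).map Prod.fst, 135 * Λ < b) ↔
        ∃ b ∈ (w :: P).map Prod.snd, 135 * 1 < b := by
      refine ex_iff fun v hv => ?_
      have h := thr H hS hv 135 (by norm_num) (by norm_num)
      push_cast at h
      exact h
    have h2 := nb_eq H hS
    have h3 := good0 H hS
    have h4 := sg_eq (w :: P)
    have h5 : ((w :: P).map Prod.fst).sum < 135 * Λ ↔ ((w :: P).map Prod.snd).sum < 135 * 1 := by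
      have h := tr H hS hS hS 1 0 0 135 (by norm_num) (by norm_num) (by norm_num) (by norm_num)
        (by norm_num)
      push_cast at h
      rcases h with ⟨h1, h2⟩ | ⟨h1, h2⟩ <;> constructor <;> intro h <;> linarith
    have h6 := WW_iff H hS
    have h7 := cap_iff H hS
    have h8 := KH_eq H hS
    have h9 := KP_eq H hS
    rw [List.map_cons, List.map_cons] at h1 h2 h3 h4 h5 h6 h8 h9 ⊢
    rw [a0, a0, ih, h2, h4, h8, h9]
    exact if_congr (or_congr h1 Iff.rfl) rfl (if_congr Iff.rfl (if_congr h3 rfl rfl)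
      (if_congr h5 rfl (if_congr (not_congr h3) rfl (if_congr h6 rfl (if_congr h7 rfl rfl)))))

lemma rep {A : List (ℝ × ℝ)} (h : A.Subperm z) : ∃ B : List (ℝ × ℝ), B.Sublist z ∧
    (B.map Prod.fst).sum = (A.map Prod.fst).sum ∧ (B.map Prod.snd).sum = (A.map Prod.snd).sum := by
  obtain ⟨B, h1, h2⟩ := h
  exact ⟨B, h2, (h1.map _).sum_eq, (h1.map _).sum_eq⟩

lemma cov_imp (H : Hyp Λ z) (h : cov 1 0 (z.map Prod.snd)) : cov Λ 1 (z.map Prod.fst) := by
  obtain ⟨m, v1, v2, hp, c1, c2, c3⟩ := h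
  have hp' := hp.symm
  rw [← congrFun (congrFun (List.eq_map_comp_perm Prod.snd) _) _] at hp'
  obtain ⟨y, hy, hyz⟩ := hp'
  obtain ⟨y0, y2, rfl, e0, rfl⟩ := List.map_eq_append_iff.1 hy.symm
  obtain ⟨ym, y1, rfl, rfl, rfl⟩ := List.map_eq_append_iff.1 e0
  have s1 : y1.Subperm z :=
    (((List.sublist_append_right ym y1).trans (List.sublist_append_left _ y2)).subperm).trans
      hyz.subperm
  have s2 : y2.Subperm z := ((List.sublist_append_right _ y2).subperm).trans hyz.subperm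
  obtain ⟨B1, b1, f1, g1⟩ := rep s1
  obtain ⟨B2, b2, f2, g2⟩ := rep s2
  have k1 := tr H b1 b2 b2 1 1 0 90 (by norm_num) (by norm_num) (by norm_num) (by norm_num)
    (by norm_num)
  have k2 := tr H b1 b2 b2 0 1 0 90 (by norm_num) (by norm_num) (by norm_num) (by norm_num)
    (by norm_num)
  have k3 := tr H b1 b2 b2 8 7 0 720 (by norm_num) (by norm_num) (by norm_num) (by norm_num)
    (by norm_num)
  rw [f1, f2, g1, g2] at k1 k2 k3
  push_cast at k1 k2 k3
  refine ⟨ym.map Prod.fst, y1.map Prod.fst, y2.map Prod.fst, ?_, ?_, ?_, ?_⟩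
  · rw [← List.map_append, ← List.map_append]
    exact (hyz.symm.map _)
  · rcases k1 with ⟨h1, h2⟩ | ⟨h1, h2⟩ <;> linarith
  · rcases k2 with ⟨h1, h2⟩ | ⟨h1, h2⟩ <;> linarith
  · rcases k3 with ⟨h1, h2⟩ | ⟨h1, h2⟩ <;> linarith

end IDE

theorem st_IDE : St_IDE := by
  intro Λ z h1 h2 h3 _ h5
  have H : IDE.Hyp Λ z := ⟨h1, h2, h3, h5⟩
  refine ⟨?_, IDE.cov_imp H⟩
  unfold T0
  rw [List.sublists'_map, List.sublists'_map, List.map_map, List.map_map]
  congr 1
  exact List.map_congr_left fun T hT => IDE.a0_eq H T (List.mem_sublists'.1 hT)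

end Pool.Agent.Lib.AP
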