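import Pool.Agent.Lib.AP.B_KF

/-! Block IK: incomplete Kloosterman sums by completion. -/

open Finset

noncomputable section

namespace Pool.Agent.Lib.AP

namespace IK

theorem sum_zmod (c : ℕ) [NeZero c] (F : ZMod c → ℂ) :
    ∑ h ∈ range c, F (h : ZMod c) = ∑ u : ZMod c, F u := by
  refine Finset.sum_bij' (fun h _ => (h : ZMod c)) (fun u _ => u.val) (fun _ _ => mem_univ _)
    (fun u _ => mem_range.2 (ZMod.val_lt u)) (fun h hh => ?_) (fun u _ => ?_) (fun _ _ => rfl)
  · exact ZMod.val_cast_of_lt (mem_range.1 hh)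
  · exact ZMod.natCast_zmod_val u

theorem orth (c : ℕ) [NeZero c] (b : ZMod c) :
    ∑ u : ZMod c, ZMod.stdAddChar (u * b) = if b = 0 then (c : ℂ) else 0 := by
  have h := AddChar.sum_mulShift b (ZMod.isPrimitive_stdAddChar c)
  rw [ZMod.card] at h
  rw [h]
  split_ifs <;> simp

theorem complete (c : ℕ) [NeZero c] (a : ℤ) (n : ℕ) :
    ∑ h ∈ range c, KW.Kl c (h : ZMod c) (a : ZMod c) * ee (-(h * n) / c) =
      c * (if Nat.Coprime n c then kf a n c else 0) := by
  have h1 : ∀ h : ℕ, ee (-(h * n) / c) = ZMod.stdAddChar (-((h : ZMod c) * (n : ZMod c))) := by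
    intro h
    have := KF.ee_std (-(h * n)) c
    simp only [Int.cast_neg, Int.cast_mul, Int.cast_natCast] at this
    exact this
  simp only [h1]
  rw [sum_zmod c fun u => KW.Kl c u (a : ZMod c) * ZMod.stdAddChar (-(u * (n : ZMod c)))]
  simp only [KW.Kl, Finset.sum_mul]
  rw [Finset.sum_comm]
  have h2 : ∀ x : (ZMod c)ˣ, ∑ u : ZMod c,
      ZMod.stdAddChar (u * (x : ZMod c) + (a : ZMod c) * ((x⁻¹ : (ZMod c)ˣ) : ZMod c)) *
        ZMod.stdAddChar (-(u * (n : ZMod c))) =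
      if (x : ZMod c) = (n : ZMod c) then
        (c : ℂ) * ZMod.stdAddChar ((a : ZMod c) * ((x⁻¹ : (ZMod c)ˣ) : ZMod c)) else 0 := by
    intro x
    have h3 : ∀ u : ZMod c,
        ZMod.stdAddChar (u * (x : ZMod c) + (a : ZMod c) * ((x⁻¹ : (ZMod c)ˣ) : ZMod c)) *
          ZMod.stdAddChar (-(u * (n : ZMod c))) =
        ZMod.stdAddChar (u * ((x : ZMod c) - (n : ZMod c))) *
          ZMod.stdAddChar ((a : ZMod c) * ((x⁻¹ : (ZMod c)ˣ) : ZMod c)) := by
      intro u
      rw [← AddChar.map_add_eq_mul, ← AddChar.map_add_eq_mul]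
      congr 1
      ring
    simp only [h3]
    rw [← Finset.sum_mul, orth]
    simp only [sub_eq_zero]
    split_ifs <;> simp
  simp only [h2]
  by_cases hn : Nat.Coprime n c
  · rw [if_pos hn, Finset.sum_eq_single (ZMod.unitOfCoprime n hn)]
    · rw [if_pos (ZMod.coe_unitOfCoprime n hn), KF.std, ← ZMod.inv_coe_unit,
        ZMod.coe_unitOfCoprime]
    · intro x _ hx
      rw [if_neg]
      intro h
      exact hx (Units.ext (by rw [h, ZMod.coe_unitOfCoprime]))
    · intro h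
      exact absurd (mem_univ _) h
  · rw [if_neg hn, mul_zero]
    refine Finset.sum_eq_zero fun x _ => if_neg fun h => hn ?_
    exact (ZMod.isUnit_iff_coprime n c).1 (h ▸ x.isUnit)

theorem gcd_val (c : ℕ) [NeZero c] (a : ℤ) : Nat.gcd ((a : ZMod c)).val c = Int.gcd a c := by
  rw [← Int.gcd_natCast_natCast, ZMod.val_intCast, Int.gcd_emod]

end IK

theorem st_IK (hT : St_TOOL) : St_IK := by
  intro Λ Y hB c a lam lo hi hc hcY
  have : NeZero c := ⟨hc.ne'⟩
  have hc0 : (0 : ℝ) < c := Nat.cast_pos.2 hc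
  have hY1 : (1 : ℝ) ≤ Y := le_trans (one_le_pow₀ (by norm_num)) hB.two
  have hc2 : (c : ℝ) ≤ Y ^ (2000 * Λ) := hcY.trans (pow_le_pow_right₀ hY1 (by omega))
  have hlog : Real.log c ≤ Real.log (Y ^ (2000 * Λ)) := Real.log_le_log hc0 hc2
  have hlog0 : 0 ≤ Real.log c := Real.log_nonneg (by exact_mod_cast hc)
  have hL := hB.log
  set L : ℝ := ((hi - lo : ℕ) : ℝ) with hLdef
  have hL0 : 0 ≤ L := Nat.cast_nonneg _
  set f : ℕ → ℝ := fun h => ‖∑ n ∈ Ioc lo hi, ee (n * (lam - h / c))‖ with hf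
  have hgrid : ∑ h ∈ range c, f h ≤ 2 * L + 2 * c * (1 + Real.log c) := by
    refine hT.grid c lam L f hc hL0 fun h => ⟨?_, ?_⟩
    · refine (norm_sum_le _ _).trans ?_
      simp only [hT.norm, Finset.sum_const, Nat.card_Ioc, nsmul_eq_mul, mul_one]
      exact le_rfl
    · rw [mul_comm]
      exact hT.geoN _ lo hi
  have key : (c : ℂ) * ∑ n ∈ (Ioc lo hi).filter (Nat.Coprime · c), ee (lam * n) * kf a n c =
      ∑ h ∈ range c, KW.Kl c (h : ZMod c) (a : ZMod c) *
        ∑ n ∈ Ioc lo hi, ee (n * (lam - h / c)) := by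
    rw [Finset.sum_filter, Finset.mul_sum]
    simp only [Finset.mul_sum]
    rw [Finset.sum_comm]
    refine Finset.sum_congr rfl fun n _ => ?_
    have h1 : ∀ h : ℕ, KW.Kl c (h : ZMod c) (a : ZMod c) * ee (n * (lam - h / c)) =
        ee (lam * n) * (KW.Kl c (h : ZMod c) (a : ZMod c) * ee (-(h * n) / c)) := by
      intro h
      have : (n : ℝ) * (lam - h / c) = lam * n + -(h * n) / c := by ring
      rw [this, hT.add]
      ring
    simp only [h1]
    rw [← Finset.mul_sum, IK.complete]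
    split_ifs <;> ring
  set W : ℝ := Y * √(c : ℝ) * √(Int.gcd a c : ℝ) with hW
  have hW0 : 0 ≤ W := by positivity
  have hb : (c : ℝ) * ‖∑ n ∈ (Ioc lo hi).filter (Nat.Coprime · c), ee (lam * n) * kf a n c‖ ≤
      W * (2 * L + 2 * c * (1 + Real.log c)) := by
    have h1 := congrArg norm key
    rw [norm_mul, Complex.norm_natCast] at h1
    rw [h1]
    refine (norm_sum_le _ _).trans (le_trans ?_ (mul_le_mul_of_nonneg_left hgrid hW0))
    rw [Finset.mul_sum]
    refine Finset.sum_le_sum fun h _ => ?_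
    rw [norm_mul]
    refine mul_le_mul_of_nonneg_right ?_ (norm_nonneg _)
    have h2 := hB.weil c hc2 (h : ZMod c) (a : ZMod c)
    rwa [IK.gcd_val] at h2
  refine le_of_mul_le_mul_left (hb.trans ?_) hc0
  have h3 : (c : ℝ) * (Y ^ 2 * √(c : ℝ) * √(Int.gcd a c : ℝ) * (1 + L / c)) =
      W * (Y * L + Y * c) := by
    rw [hW]
    field_simp
    ring
  rw [h3]
  refine mul_le_mul_of_nonneg_left ?_ hW0
  have h4 : 2 * (1 + Real.log c) ≤ Y := by linarith
  have h5 : 2 ≤ Y := by linarith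
  nlinarith [mul_le_mul_of_nonneg_right h4 hc0.le, mul_le_mul_of_nonneg_right h5 hL0]

end Pool.Agent.Lib.AP
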