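import Pool.Agent.Lib.AP.Blue

/-! The zero frequency of the dispersion. -/

open Finset Classical

noncomputable section

namespace Pool.Agent.Lib.AP

namespace ZF

/-- collecting a double sum of a function of the product -/
theorem sum_prod_le (A B : ℕ) (F : ℕ → ℝ) (C : ℝ) (hF : ∀ s, 0 ≤ F s)
    (hC : ∀ s ∈ Icc 1 (A * B), (s.divisors.card : ℝ) ≤ C) :
    ∑ g ∈ Icc 1 A, ∑ m ∈ Icc 1 B, F (g * m) ≤ C * ∑ s ∈ Icc 1 (A * B), F s := by
  rw [← sum_product', ← sum_fiberwise_of_maps_to (t := Icc 1 (A * B)) (g := fun x => x.1 * x.2),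
    mul_sum]
  · refine sum_le_sum fun s hs => ?_
    rw [sum_congr rfl (g := fun _ => F s) (fun x hx => by rw [(mem_filter.1 hx).2]), sum_const,
      nsmul_eq_mul]
    refine mul_le_mul_of_nonneg_right (le_trans ?_ (hC s hs)) (hF s)
    have h1 : s.divisors.card = s.divisorsAntidiagonal.card := by
      rw [← Nat.map_div_right_divisors, card_map]
    rw [h1]
    refine Nat.cast_le.2 (card_le_card fun x hx => ?_)
    rw [Nat.mem_divisorsAntidiagonal]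
    exact ⟨(mem_filter.1 hx).2, by have := (mem_Icc.1 hs).1; omega⟩
  · intro x hx
    simp only [mem_product, mem_Icc] at hx ⊢
    exact ⟨Nat.mul_pos hx.1.1 hx.2.1, Nat.mul_le_mul hx.1.2 hx.2.2⟩

def F (α M ρ : ℝ) (s : ℕ) : ℝ :=
  if dn (α * s) = 0 then M ^ 2 / (s : ℝ) ^ 2 else min (M ^ 2 / (s : ℝ) ^ 2) (ρ ^ 2 / dn (α * s) ^ 2)

theorem F_nonneg (α M ρ : ℝ) (s : ℕ) : 0 ≤ F α M ρ s := by
  unfold F
  split_ifs <;> positivity

theorem F_le (α M ρ : ℝ) {s : ℕ} (hs : 1 ≤ s) :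
    F α M ρ s * (s : ℝ) ^ 2 ≤ M ^ 2 ∧ F α M ρ s * dn (α * s) ^ 2 ≤ ρ ^ 2 := by
  have h0 : (0 : ℝ) < (s : ℝ) ^ 2 := by positivity
  unfold F
  split_ifs with h
  · exact ⟨(div_mul_cancel₀ _ h0.ne').le, by rw [h]; simpa using sq_nonneg ρ⟩
  · have h1 : 0 < dn (α * s) ^ 2 := by positivity
    exact ⟨(le_div_iff₀ h0).1 (min_le_left _ _), (le_div_iff₀ h1).1 (min_le_right _ _)⟩

theorem le_F {α M ρ V C : ℝ} {s : ℕ} (hs : 1 ≤ s) (hC : 0 < C) (h1 : V * (s : ℝ) ^ 2 ≤ C * M ^ 2)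
    (h2 : V * dn (α * s) ^ 2 ≤ C * ρ ^ 2) : V ≤ C * F α M ρ s := by
  have h0 : (0 : ℝ) < (s : ℝ) ^ 2 := by positivity
  have h3 : V ≤ C * (M ^ 2 / (s : ℝ) ^ 2) := by rwa [← mul_div_assoc, le_div_iff₀ h0]
  unfold F
  split_ifs with h
  · exact h3
  · have h4 : 0 < dn (α * s) ^ 2 := by positivity
    rw [mul_min_of_nonneg _ _ hC.le]
    exact le_min h3 (by rwa [← mul_div_assoc, le_div_iff₀ h4])

/-- the bound for one pair `(g, m)` -/
theorem one {V T H N g m M ρ d d' l : ℝ} (hV : 0 ≤ V) (hg : 0 < g) (hm : 0 ≤ m) (hmM : m ≤ M)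
    (hH : 0 < H * N) (hρ : 0 < ρ) (t1 : 8 * (H * N) ≤ T * g) (t2 : T * g ≤ 16 * (H * N))
    (hb : 1 ≤ H * N * ρ) (v1 : V ≤ 4 * T) (v2 : d' ^ 2 * T * V ≤ 1 / 4) (hd : d ≤ d' + l)
    (d0 : 0 ≤ d) (hl : 2 * l ≤ g * ρ) :
    V * (g * m) ^ 2 ≤ 64 * (H * N) * g * M ^ 2 ∧ V * d ^ 2 ≤ 64 * (H * N) * g * ρ ^ 2 := by
  generalize H * N = P at *
  have v3 : V * g ≤ 64 * P := by nlinarith
  have hT : 0 < T := by
    by_contra h
    nlinarith [mul_nonneg (neg_nonneg.2 (not_lt.1 h)) hg.le]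
  constructor
  · calc V * (g * m) ^ 2 = (V * g) * g * m ^ 2 := by ring
      _ ≤ (64 * P) * g * M ^ 2 := by gcongr
  · rcases le_total d (g * ρ) with h | h
    · calc V * d ^ 2 ≤ V * (g * ρ) ^ 2 := by gcongr
        _ = (V * g) * g * ρ ^ 2 := by ring
        _ ≤ (64 * P) * g * ρ ^ 2 := by gcongr
    · have h1 : d ≤ 2 * d' := by linarith
      have h2 : V * d ^ 2 * T ≤ 1 := by
        calc V * d ^ 2 * T ≤ V * (2 * d') ^ 2 * T := by gcongr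
          _ = 4 * (d' ^ 2 * T * V) := by ring
          _ ≤ 1 := by linarith
      have h3 : 1 ≤ 64 * P * g * ρ ^ 2 * T := by
        calc (1 : ℝ) ≤ (P * ρ) ^ 2 := one_le_pow₀ hb
          _ ≤ 64 * P * ρ ^ 2 * (8 * P) := by nlinarith [sq_nonneg (P * ρ)]
          _ ≤ 64 * P * ρ ^ 2 * (T * g) := by gcongr
          _ = _ := by ring
      exact le_of_mul_le_mul_right (h2.trans h3) hT

theorem split (hT : St_TOOL) (T T0 M g : ℕ) (α lam : ℝ) :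
    ∑ t ∈ nz T0, (psi T t : ℂ) * ww M (α * ((g * t : ℤ) : ℝ)) * ee (-(t * lam)) =
      ∑ m ∈ Icc 1 M, (∑ t ∈ Icc (-(T0 : ℤ)) T0,
        (psi T t : ℂ) * ee (t * (α * ((g * m : ℕ) : ℝ) - lam))) - psi T 0 * ww M 0 := by
  have e0 : ee 0 = 1 := by simpa using hT.int 0
  rw [nz, sum_erase_eq_sub (by simp), sum_comm]
  congr 1
  · refine sum_congr rfl fun t _ => ?_
    rw [ww, mul_assoc, sum_mul, mul_sum]
    refine sum_congr rfl fun m _ => ?_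
    rw [← hT.add]
    congr 2
    push_cast
    ring
  · simp [e0]

theorem fin {Y Z H N M L S : ℝ} (hY : 1000 ≤ Y) (hZ : 0 < Z) (hN : 0 < N) (hM : 0 ≤ M)
    (hH0 : 0 ≤ H) (hH : H ≤ Z * Y ^ 3) (hMN : M * N ≤ Z ^ 3 * Y) (hL : L ≤ Y)
    (hS : S ≤ Y * (Y * ((2 / (N * (Z * Y))) ^ 2 * (Z ^ 2) ^ 2 + M ^ 2 / (Z ^ 2) ^ 2 +
      M * (2 / (N * (Z * Y)))))) : M * N * L + 64 * H * N ^ 2 * S ≤ Z ^ 3 * Y ^ 10 := by
  have Y0 : 0 < Y := by linarith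
  have Y1 : 1 ≤ Y := by linarith
  have a1 : N ^ 2 * ((2 / (N * (Z * Y))) ^ 2 * (Z ^ 2) ^ 2) ≤ 4 * (Z ^ 2 * Y ^ 2) := by
    have : N ^ 2 * ((2 / (N * (Z * Y))) ^ 2 * (Z ^ 2) ^ 2) = 4 * (Z ^ 2 / Y ^ 2) := by
      field_simp; ring
    rw [this]
    have h1 : (1 : ℝ) ≤ Y ^ 2 := one_le_pow₀ Y1
    have h2 := div_le_self (sq_nonneg Z) h1
    have h3 := le_mul_of_one_le_right (sq_nonneg Z) h1
    linarith
  have a2 : N ^ 2 * (M ^ 2 / (Z ^ 2) ^ 2) ≤ Z ^ 2 * Y ^ 2 := by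
    rw [← mul_div_assoc, div_le_iff₀ (by positivity)]
    calc N ^ 2 * M ^ 2 = (M * N) ^ 2 := by ring
      _ ≤ (Z ^ 3 * Y) ^ 2 := by gcongr
      _ = _ := by ring
  have a3 : N ^ 2 * (M * (2 / (N * (Z * Y)))) ≤ 2 * (Z ^ 2 * Y ^ 2) := by
    have : N ^ 2 * (M * (2 / (N * (Z * Y)))) = 2 * (M * N / (Z * Y)) := by field_simp
    rw [this]
    have h1 : M * N / (Z * Y) ≤ Z ^ 2 := by
      rw [div_le_iff₀ (by positivity)]
      exact hMN.trans_eq (by ring)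
    have h3 := le_mul_of_one_le_right (sq_nonneg Z) (one_le_pow₀ Y1 : (1 : ℝ) ≤ Y ^ 2)
    linarith
  have a4 : N ^ 2 * S ≤ Y ^ 2 * (7 * (Z ^ 2 * Y ^ 2)) := by
    refine (mul_le_mul_of_nonneg_left hS (sq_nonneg N)).trans ?_
    have := mul_le_mul_of_nonneg_left (add_le_add (add_le_add a1 a2) a3) (sq_nonneg Y)
    linarith
  have a5 : 64 * H * N ^ 2 * S ≤ 448 * (Z ^ 3 * Y ^ 7) := by
    calc 64 * H * N ^ 2 * S = 64 * H * (N ^ 2 * S) := by ring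
      _ ≤ 64 * H * (Y ^ 2 * (7 * (Z ^ 2 * Y ^ 2))) := by gcongr
      _ ≤ 64 * (Z * Y ^ 3) * (Y ^ 2 * (7 * (Z ^ 2 * Y ^ 2))) := by gcongr
      _ = _ := by ring
  have a6 : M * N * L ≤ Z ^ 3 * Y ^ 7 := by
    calc M * N * L ≤ M * N * Y := by gcongr
      _ ≤ Z ^ 3 * Y * Y := by gcongr
      _ = Z ^ 3 * Y ^ 2 := by ring
      _ ≤ Z ^ 3 * Y ^ 7 := by gcongr; norm_num
  have a7 : 449 * (Z ^ 3 * Y ^ 7) ≤ Z ^ 3 * Y ^ 10 := by
    calc 449 * (Z ^ 3 * Y ^ 7) ≤ Y * (Z ^ 3 * Y ^ 7) := by gcongr; linarith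
      _ = Z ^ 3 * Y ^ 8 := by ring
      _ ≤ _ := by gcongr; norm_num
  linarith

end ZF

theorem st_K0 (hT : St_TOOL) (hG : St_GCD) (hP : St_PSI) (hS : St_SP2) : St_K0 := by
  intro Λ Y α q K hB hD M N hX
  have hΛ := hB.lam
  have hY : (1000 : ℝ) ≤ Y := by
    refine le_trans ?_ hB.two
    calc (1000 : ℝ) ≤ 2 ^ 10 := by norm_num
      _ ≤ 2 ^ (300 * Λ) := pow_le_pow_right₀ one_le_two (by omega)
  have Y0 : 0 < Y := by linarith
  have Y1 : 1 ≤ Y := by linarith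
  obtain ⟨Z, hZ⟩ : ∃ Z, Z = Y ^ (90 * Λ) := ⟨_, rfl⟩
  have Z1 : 1 ≤ Z := hZ ▸ one_le_pow₀ Y1
  have Z0 : 0 < Z := by linarith
  have eW : Y ^ (90 * Λ + 1) = Z * Y := by rw [hZ, pow_succ]
  have Hlo : Z * Y ^ 2 ≤ K.H := by rw [hZ, ← pow_add]; exact K.Hlo
  have Hhi : K.H ≤ Z * Y ^ 3 := by rw [hZ, ← pow_add]; exact K.Hhi
  have hq : (q : ℝ) = Z ^ 2 := by rw [hD.1, hZ, ← pow_mul]; ring_nf
  have hMN : (M : ℝ) * N ≤ Z ^ 3 * Y := by
    rw [hZ, ← pow_mul, ← pow_succ]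
    exact hX.mn.trans_eq (by ring_nf)
  have N0 : (0 : ℝ) < N := by
    have := hX.lo
    have : 0 < Y ^ (90 * Λ + 1000) := by positivity
    linarith
  have H0 : (0 : ℝ) < K.H := lt_of_lt_of_le (by positivity) Hlo
  have N1 : 1 ≤ N := by exact_mod_cast N0
  have H1 : 1 ≤ K.H := by exact_mod_cast H0
  have big : ((4 * N * M : ℕ) : ℝ) ≤ Y ^ (1000 * Λ) := by
    push_cast
    calc 4 * (N : ℝ) * M = 4 * (M * N) := by ring
      _ ≤ Y * Y ^ (270 * Λ + 1) := by gcongr; linarith; exact hX.mn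
      _ = Y ^ (270 * Λ + 2) := by ring
      _ ≤ _ := pow_le_pow_right₀ Y1 (by omega)
  obtain ⟨ρ, hρ⟩ : ∃ ρ : ℝ, ρ = 2 / (N * (Z * Y)) := ⟨_, rfl⟩
  have ρ0 : 0 < ρ := by rw [hρ]; positivity
  refine ⟨fun g => M + ∑ m ∈ Icc 1 M, 64 * ((K.H : ℝ) * N) * g * ZF.F α M ρ (g * m), ?_, ?_⟩
  · intro g hg lam hl
    rw [mem_Icc] at hg
    have g0 : (0 : ℝ) < g := by exact_mod_cast hg.1
    have g4 : (g : ℝ) ≤ 4 * N := by exact_mod_cast hg.2
    simp only [Ker.om]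
    obtain ⟨T, hTd⟩ : ∃ T, T = 8 * K.H * N / g + 1 := ⟨_, rfl⟩
    rw [← hTd, ZF.split hT, add_comm]
    have T0 : 0 < T := hTd ▸ Nat.succ_pos _
    have HN : 1 ≤ K.H * N := Nat.mul_pos H1 N1
    have T2 : 2 * T ≤ 32 * K.H * N := by
      have : 8 * K.H * N / g ≤ 8 * K.H * N := Nat.div_le_self _ _
      rw [mul_assoc] at this ⊢
      rw [mul_assoc] at hTd
      omega
    have t1 : 8 * ((K.H : ℝ) * N) ≤ T * g := by
      have := Nat.lt_div_mul_add (a := 8 * K.H * N) hg.1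
      have h2 : 8 * (K.H * N) ≤ T * g := by rw [hTd, add_mul, one_mul, ← mul_assoc]; omega
      exact_mod_cast h2
    have t2 : (T : ℝ) * g ≤ 16 * ((K.H : ℝ) * N) := by
      have := Nat.div_mul_le_self (8 * K.H * N) g
      have h3 : N ≤ K.H * N := Nat.le_mul_of_pos_left N H1
      have h2 : T * g ≤ 16 * (K.H * N) := by
        rw [hTd, add_mul, one_mul]
        rw [mul_assoc 8] at this ⊢
        omega
      exact_mod_cast h2
    refine (norm_sub_le _ _).trans (add_le_add ((norm_sum_le _ _).trans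
      (sum_le_sum fun m hm => ?_)) ?_)
    · rw [mem_Icc] at hm
      obtain ⟨v1, v2⟩ := hP.ker T (32 * K.H * N) (α * ((g * m : ℕ) : ℝ) - lam) T0 T2
      have hd := hT.dnadd (α * ((g * m : ℕ) : ℝ) - lam) lam
      rw [sub_add_cancel] at hd
      have hb : 1 ≤ (K.H : ℝ) * N * ρ := by
        have : (K.H : ℝ) * N * ρ = 2 * (K.H / (Z * Y)) := by rw [hρ]; field_simp
        rw [this]
        have : 1 ≤ (K.H : ℝ) / (Z * Y) := by
          rw [one_le_div (by positivity)]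
          refine le_trans ?_ Hlo
          gcongr
          nlinarith
        linarith
      have hl' : 2 * |lam| ≤ g * ρ := by
        rw [hρ, ← mul_div_assoc, le_div_iff₀ (by positivity)]
        rw [eW] at hl
        linarith
      obtain ⟨w1, w2⟩ := ZF.one (norm_nonneg _) g0 (Nat.cast_nonneg m) (Nat.cast_le.2 hm.2)
        (mul_pos H0 N0) ρ0 t1 t2 hb v1 v2 hd (hT.dn0 _).1 hl'
      rw [← Nat.cast_mul g m] at w1
      exact ZF.le_F (Nat.mul_pos hg.1 hm.1) (by positivity) w1 w2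
    · rw [norm_mul, Complex.norm_real, Real.norm_eq_abs, abs_of_nonneg (hP.bd T 0).1]
      exact (mul_le_of_le_one_left (norm_nonneg _) (hP.bd T 0).2).trans (hT.wle M 0).1
  · have e1 : ∑ g ∈ Icc 1 (4 * N), (N : ℝ) / g *
        (M + ∑ m ∈ Icc 1 M, 64 * ((K.H : ℝ) * N) * g * ZF.F α M ρ (g * m)) =
        M * N * ∑ g ∈ Icc 1 (4 * N), (1 : ℝ) / g + 64 * K.H * (N : ℝ) ^ 2 *
          ∑ g ∈ Icc 1 (4 * N), ∑ m ∈ Icc 1 M, ZF.F α M ρ (g * m) := by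
      rw [mul_sum, mul_sum, ← sum_add_distrib]
      refine sum_congr rfl fun g hg => ?_
      have g0 : (0 : ℝ) < g := by exact_mod_cast (mem_Icc.1 hg).1
      rw [← mul_sum]
      field_simp
    rw [e1, show Y ^ (270 * Λ + 10) = Z ^ 3 * Y ^ 10 by rw [hZ, ← pow_mul, ← pow_add]; ring_nf]
    refine ZF.fin hY Z0 N0 (Nat.cast_nonneg M) H0.le Hhi hMN ?_ ?_
    · refine (hG.har _).trans ?_
      have h1 : ((4 * N : ℕ) : ℝ) ≤ Y ^ (2000 * Λ) := by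
        push_cast
        calc 4 * (N : ℝ) ≤ Y * Y ^ (120 * Λ) := by gcongr; linarith; exact hX.hi
          _ = Y ^ (120 * Λ + 1) := by ring
          _ ≤ _ := pow_le_pow_right₀ Y1 (by omega)
      have h2 := Real.log_le_log (by positivity) h1
      have h3 := Real.log_natCast_nonneg (4 * N)
      linarith [hB.log]
    · refine (ZF.sum_prod_le _ _ _ Y (ZF.F_nonneg α M ρ) fun s hs => hB.div s ?_).trans ?_
      · exact (Nat.cast_le.2 (mem_Icc.1 hs).2).trans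
          (big.trans (pow_le_pow_right₀ Y1 (by omega)))
      · rw [← hρ, ← hq]
        exact mul_le_mul_of_nonneg_left (hS Λ Y α q hB hD _ M ρ _ (Nat.cast_nonneg M) ρ0.le big
          fun s hs => ZF.F_le α M ρ (mem_Icc.1 hs).1) Y0.le

end Pool.Agent.Lib.AP
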