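import Pool.Agent.Lib.AP.Blue

/-! Block KF: formal properties of Kloosterman fractions. -/

open Finset

noncomputable section

namespace Pool.Agent.Lib.AP

namespace KF

theorem ee_std (j : ℤ) (c : ℕ) [NeZero c] :
    ee ((j : ℝ) / c) = ZMod.stdAddChar ((j : ℤ) : ZMod c) := by
  rw [ZMod.stdAddChar_coe, ee]
  congr 1
  push_cast
  ring

theorem std (a : ℤ) (n c : ℕ) [NeZero c] :
    kf a n c = ZMod.stdAddChar ((a : ZMod c) * (n : ZMod c)⁻¹) := by
  have h := ee_std (a * (((n : ZMod c)⁻¹).val : ℕ)) c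
  have h2 : ((a * (((n : ZMod c)⁻¹).val : ℕ) : ℤ) : ZMod c) = (a : ZMod c) * (n : ZMod c)⁻¹ := by
    rw [Int.cast_mul, Int.cast_natCast, ZMod.natCast_zmod_val]
  rw [h2] at h
  rw [← h, kf]
  congr 1
  rw [Int.cast_mul, Int.cast_natCast]

theorem mul_inv {n c : ℕ} (h : Nat.Coprime n c) : (n : ZMod c) * (n : ZMod c)⁻¹ = 1 :=
  ZMod.coe_mul_inv_eq_one n h

theorem inv_eq {n c : ℕ} (h : Nat.Coprime n c) {y : ZMod c} (hy : (n : ZMod c) * y = 1) :
    (n : ZMod c)⁻¹ = y := by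
  have h1 := mul_inv h
  calc (n : ZMod c)⁻¹ = (n : ZMod c)⁻¹ * ((n : ZMod c) * y) := by rw [hy, mul_one]
    _ = ((n : ZMod c) * (n : ZMod c)⁻¹) * y := by ring
    _ = y := by rw [h1, one_mul]

theorem lift (a : ℤ) (n c d : ℕ) (hc : 0 < c) (hd : 0 < d) (h : Nat.Coprime n (c * d)) :
    kf a n c = kf (a * d) n (c * d) := by
  have : NeZero c := ⟨hc.ne'⟩
  have : NeZero (c * d) := ⟨(Nat.mul_pos hc hd).ne'⟩
  have hn : Nat.Coprime n c := Nat.Coprime.coprime_mul_right_right h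
  set v : ℕ := ((n : ZMod (c * d))⁻¹).val with hv
  have h1 : ((n * v : ℕ) : ZMod (c * d)) = ((1 : ℕ) : ZMod (c * d)) := by
    rw [Nat.cast_mul, hv, ZMod.natCast_zmod_val, mul_inv h, Nat.cast_one]
  have h2 : n * v ≡ 1 [MOD c * d] := (ZMod.natCast_eq_natCast_iff _ _ _).1 h1
  have h3 : n * v ≡ 1 [MOD c] := Nat.ModEq.of_mul_right d h2
  have h4 : (n : ZMod c) * (v : ZMod c) = 1 := by
    have := (ZMod.natCast_eq_natCast_iff _ _ _).2 h3
    rwa [Nat.cast_mul, Nat.cast_one] at this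
  rw [std a n c, inv_eq hn h4]
  have h5 := ee_std (a * v) c
  rw [Int.cast_mul (α := ZMod c), Int.cast_natCast] at h5
  rw [← h5, kf, ← hv]
  congr 1
  have hc' : (c : ℝ) ≠ 0 := Nat.cast_ne_zero.2 hc.ne'
  have hd' : (d : ℝ) ≠ 0 := Nat.cast_ne_zero.2 hd.ne'
  push_cast
  field_simp

theorem mul (a : ℤ) (r κ c : ℕ) (hc : 0 < c) (hr : Nat.Coprime r c) (hk : Nat.Coprime κ c) :
    kf a (r * κ) c = kf (a * (((r : ZMod c)⁻¹).val : ℕ)) κ c := by
  have : NeZero c := ⟨hc.ne'⟩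
  rw [std, std]
  congr 1
  have h : ((r * κ : ℕ) : ZMod c) * ((r : ZMod c)⁻¹ * (κ : ZMod c)⁻¹) = 1 := by
    have h1 := mul_inv hr
    have h2 := mul_inv hk
    calc ((r * κ : ℕ) : ZMod c) * ((r : ZMod c)⁻¹ * (κ : ZMod c)⁻¹)
        = ((r : ZMod c) * (r : ZMod c)⁻¹) * ((κ : ZMod c) * (κ : ZMod c)⁻¹) := by
          rw [Nat.cast_mul]; ring
      _ = 1 := by rw [h1, h2, mul_one]
  rw [inv_eq (Nat.Coprime.mul_left hr hk) h, Int.cast_mul, Int.cast_natCast,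
    ZMod.natCast_zmod_val, mul_assoc]

theorem gcd (a : ℤ) (r c : ℕ) (hc : 0 < c) (hr : Nat.Coprime r c) :
    Int.gcd (a * (((r : ZMod c)⁻¹).val : ℕ)) c = Int.gcd a c := by
  have : NeZero c := ⟨hc.ne'⟩
  have hu : IsUnit (((((r : ZMod c)⁻¹).val : ℕ)) : ZMod c) := by
    rw [ZMod.natCast_zmod_val]
    exact IsUnit.of_mul_eq_one (r : ZMod c) (by rw [mul_comm]; exact mul_inv hr)
  have hv : Nat.Coprime ((r : ZMod c)⁻¹).val c := (ZMod.isUnit_iff_coprime _ _).1 hu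
  rw [Int.gcd, Int.gcd, Int.natAbs_mul, Int.natAbs_natCast, Int.natAbs_natCast]
  exact Nat.Coprime.gcd_mul_right_cancel _ hv

theorem dvd_iff (n c : ℕ) (h t : ℤ) (hc : 0 < c) (hn : Nat.Coprime n c) :
    (c : ℤ) ∣ h - t * (((n : ZMod c)⁻¹).val : ℕ) ↔ (c : ℤ) ∣ h * n - t := by
  have : NeZero c := ⟨hc.ne'⟩
  rw [← ZMod.intCast_zmod_eq_zero_iff_dvd, ← ZMod.intCast_zmod_eq_zero_iff_dvd]
  simp only [Int.cast_sub, Int.cast_mul, Int.cast_natCast, ZMod.natCast_zmod_val]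
  have h1 := mul_inv hn
  constructor
  · intro h2
    have : (h : ZMod c) * n - t = (h - t * (n : ZMod c)⁻¹) * n := by
      linear_combination (t : ZMod c) * h1
    rw [this, h2, zero_mul]
  · intro h2
    have : (h : ZMod c) - t * (n : ZMod c)⁻¹ = (h * n - t) * (n : ZMod c)⁻¹ := by
      linear_combination (-(h : ZMod c)) * h1
    rw [this, h2, zero_mul]

end KF

theorem st_KF (hT : St_TOOL) : St_KF where
  norm a n c := hT.norm _
  add a b n c := by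
    rw [kf, kf, kf, ← hT.add]
    congr 1
    rw [Int.cast_add]
    ring
  conj a n c := by
    rw [kf, kf, hT.conj]
    congr 1
    rw [Int.cast_neg]
    ring
  lift := KF.lift
  mul := KF.mul
  gcd := KF.gcd
  ind n c s h t hc hn := by
    have h1 := hT.orth c s (h - t * (((n : ZMod c)⁻¹).val : ℕ)) hc
    simp only [KF.dvd_iff n c h t hc hn] at h1
    rw [← h1]
    refine Finset.sum_congr rfl fun k _ => ?_
    rw [kf, ← hT.add]
    congr 1
    simp only [Int.cast_sub, Int.cast_mul, Int.cast_natCast, Int.cast_neg]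
    ring
  std a n c := KF.std a n c

end Pool.Agent.Lib.AP
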