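import Pool.Agent.Lib.AP.Blue2

/-! Levels of prime factors. -/

open Finset Classical

noncomputable section

namespace Pool.Agent.Lib.AP

namespace LEV

lemma lt_lv {Y : ℝ} (hY : 1 < Y) {p : ℕ} (hp : 0 < p) (k : ℕ) : k < lvN Y p ↔ Y ^ k < p := by
  have hp' : (0 : ℝ) < p := by exact_mod_cast hp
  rw [lvN, Nat.lt_ceil, Real.lt_logb_iff_rpow_lt hY hp', Real.rpow_natCast]

lemma le_pow {Y : ℝ} (hY : 1 < Y) {p : ℕ} (hp : 0 < p) : (p : ℝ) ≤ Y ^ lvN Y p :=
  not_lt.1 fun h => lt_irrefl _ ((lt_lv hY hp _).2 h)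

lemma pow_le {Y : ℝ} (hY : 1 < Y) {p : ℕ} (hp : 0 < p) : Y ^ lvN Y p ≤ p * Y := by
  have hp1 : (1 : ℝ) ≤ p := by exact_mod_cast hp
  rcases h : lvN Y p with _ | k
  · rw [pow_zero]; nlinarith
  · have := (lt_lv hY hp k).1 (by omega)
    rw [pow_succ]
    exact mul_le_mul_of_nonneg_right this.le (by linarith)

lemma mono {Y : ℝ} (hY : 1 < Y) {p q : ℕ} (hp : 0 < p) (h : p ≤ q) : lvN Y p ≤ lvN Y q := by
  by_contra hc
  have h1 := (lt_lv hY hp _).1 (not_le.1 hc)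
  have h2 := le_pow hY (lt_of_lt_of_le hp h)
  have h3 : (p : ℝ) ≤ q := by exact_mod_cast h
  linarith

lemma list_size {Y : ℝ} (hY : 1 < Y) : ∀ l : List ℕ, (∀ p ∈ l, 0 < p) →
    ((l.prod : ℕ) : ℝ) ≤ Y ^ (l.map (lvN Y)).sum ∧
      Y ^ (l.map (lvN Y)).sum ≤ (l.prod : ℕ) * Y ^ (l.map (lvN Y)).length
  | [], _ => by simp
  | p :: l, h => by
    have hp := h p (by simp)
    obtain ⟨h1, h2⟩ := list_size hY l fun x hx => h x (by simp [hx])
    have h3 := le_pow hY hp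
    have h4 := pow_le hY hp
    have hY0 : 0 < Y := by linarith
    simp only [List.prod_cons, List.map_cons, List.sum_cons, List.length_cons, Nat.cast_mul,
      pow_add, pow_one]
    refine ⟨mul_le_mul h3 h1 (by positivity) (by positivity), ?_⟩
    calc _ ≤ (p * Y) * ((l.prod : ℕ) * Y ^ (l.map (lvN Y)).length) :=
          mul_le_mul h4 h2 (by positivity) (by positivity)
      _ = _ := by ring

lemma size (Y : ℝ) (n : ℕ) (hY : 1 < Y) (hn : n ≠ 0) :
    (n : ℝ) ≤ Y ^ (levN Y n).sum ∧ Y ^ (levN Y n).sum ≤ n * Y ^ (levN Y n).length := by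
  have := list_size hY n.primeFactorsList fun p hp => (Nat.prime_of_mem_primeFactorsList hp).pos
  rwa [Nat.prod_primeFactorsList hn] at this

lemma asc (Y : ℝ) (n : ℕ) (hY : 1 < Y) : (levN Y n).Pairwise (· ≤ ·) := by
  rw [levN, List.pairwise_map]
  exact (Nat.primeFactorsList_sorted n).pairwise.imp_of_mem fun ha _ h =>
    mono hY (Nat.prime_of_mem_primeFactorsList ha).pos h

lemma rou1 {Y : ℝ} (hY : 1 < Y) {p : ℕ} (hp : p.Prime) (a b : ℕ) :
    Y ^ a < p * Y ^ b ↔ a < lvN Y p + b := by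
  have hY0 : 0 < Y := by linarith
  have hp2 : (2 : ℝ) ≤ p := by exact_mod_cast hp.two_le
  rcases le_or_gt b a with h | h
  · obtain ⟨k, rfl⟩ := Nat.exists_eq_add_of_le' h
    rw [pow_add, mul_lt_mul_iff_left₀ (by positivity), ← lt_lv hY hp.pos]
    omega
  · refine ⟨fun _ => by omega, fun _ => ?_⟩
    have h1 : Y ^ a ≤ Y ^ b := pow_le_pow_right₀ hY.le h.le
    have h2 : 0 < Y ^ b := by positivity
    nlinarith

lemma rou (Λ : ℕ) (Y : ℝ) (n : ℕ) (hY : 1 < Y) (hn : n ≠ 0) :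
    rough Λ Y n ↔ ∀ i ∈ levN Y n, 10 * Λ < i + 1200 := by
  simp only [rough, levN, List.forall_mem_map, Nat.mem_primeFactorsList hn]
  exact ⟨fun h p hp => (rou1 hY hp.1 _ _).1 (h p hp.1 hp.2),
    fun h p hp hd => (rou1 hY hp _ _).2 (h p ⟨hp, hd⟩)⟩

lemma one_lt {Λ : ℕ} {Y : ℝ} (h : Big Λ Y) : 1 < Y :=
  lt_of_lt_of_le (one_lt_pow₀ (by norm_num) (by have := h.lam; omega)) h.two

lemma pf_prod {n : ℕ} {l : List ℕ} (h : l.Sublist n.primeFactorsList) :
    l.prod.primeFactorsList = l :=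
  (Nat.primeFactorsList_unique rfl fun _ hp =>
    Nat.prime_of_mem_primeFactorsList (h.subset hp)).symm.eq_of_pairwise'
    (r := (· ≤ ·)) (Nat.primeFactorsList_sorted _).pairwise
    ((Nat.primeFactorsList_sorted n).pairwise.sublist h)

lemma prod_dvd {n : ℕ} (hn : n ≠ 0) {l : List ℕ} (h : l.Sublist n.primeFactorsList) :
    l.prod ∣ n := by
  have := h.prod_dvd_prod
  rwa [Nat.prod_primeFactorsList hn] at this

lemma card_div (n : ℕ) (hn : n ≠ 0) : n.divisors.card ≤ 2 ^ n.primeFactorsList.length := by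
  rw [← List.length_sublists']
  refine le_trans (card_le_card_of_injOn (t := n.primeFactorsList.sublists'.toFinset)
    Nat.primeFactorsList ?_ ?_) (List.toFinset_card_le _)
  · intro d hd
    simpa using Nat.primeFactorsList_sublist_of_dvd (Nat.dvd_of_mem_divisors hd) hn
  · intro d hd e he h
    have h1 := Nat.prod_primeFactorsList (Nat.pos_of_mem_divisors hd).ne'
    have h2 := Nat.prod_primeFactorsList (Nat.pos_of_mem_divisors he).ne'
    rw [← h1, ← h2, h]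

lemma sum_ge (a b : ℕ) : ∀ l : List ℕ, (∀ i ∈ l, a < i + b) →
    l.length * (a + 1) ≤ l.sum + l.length * b
  | [], _ => by simp
  | p :: l, h => by
    have h1 := h p (by simp)
    have h2 := sum_ge a b l fun x hx => h x (by simp [hx])
    simp only [List.length_cons, List.sum_cons]
    nlinarith

lemma len (Λ : ℕ) (Y : ℝ) (n : ℕ) (hB : Big Λ Y) (hn : n ≠ 0) (hX : n ≤ X1 Λ Y)
    (hr : rough Λ Y n) :
    (levN Y n).length ≤ 27 ∧ n.divisors.card ≤ 2 ^ 27 ∧ (levN Y n).sum ≤ 270 * Λ + 28 := by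
  have hY := one_lt hB
  have hY0 : 0 < Y := by linarith
  have h1 : (n : ℝ) ≤ Y ^ (270 * Λ + 1) :=
    le_trans (by exact_mod_cast hX) (Nat.floor_le (by positivity))
  have h2 : (levN Y n).sum ≤ 270 * Λ + 1 + (levN Y n).length := by
    rw [← pow_le_pow_iff_right₀ hY, pow_add]
    exact (size Y n hY hn).2.trans (mul_le_mul_of_nonneg_right h1 (by positivity))
  have h3 := sum_ge _ _ _ ((rou Λ Y n hY hn).1 hr)
  have h4 := hB.lam
  have h5 : (levN Y n).length ≤ 27 := by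
    by_contra hc
    obtain ⟨k, hk⟩ := Nat.exists_eq_add_of_le (not_le.1 hc)
    obtain ⟨j, rfl⟩ := Nat.exists_eq_add_of_le h4
    rw [hk] at h2 h3
    nlinarith [Nat.zero_le (k * j)]
  refine ⟨h5, (card_div n hn).trans (Nat.pow_le_pow_right (by norm_num) ?_), by omega⟩
  simpa [levN] using h5

lemma tot (Λ : ℕ) (Y : ℝ) (n : ℕ) (hB : Big Λ Y) (hX : X0 Λ Y < n) :
    270 * Λ + 1 ≤ (levN Y n).sum := by
  have hY := one_lt hB
  have h1 : Y ^ (270 * Λ) < n := Nat.lt_of_floor_lt hX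
  exact (pow_lt_pow_iff_right₀ hY).1 (h1.trans_le (size Y n hY (by omega)).1)

lemma lev_eq (Y : ℝ) (n : ℕ) : lev Y n = n.primeFactorsList.map fun p => (lvN Y p : ℝ) := by
  simp [lev, levN]

lemma sub (Y : ℝ) (n : ℕ) (S : List ℝ) (hn : n ≠ 0) (h : S.Sublist (lev Y n)) :
    ∃ d, d ∣ n ∧ lev Y d = S := by
  rw [lev_eq, List.sublist_map_iff] at h
  obtain ⟨l, hl, rfl⟩ := h
  exact ⟨l.prod, prod_dvd hn hl, by rw [lev_eq, pf_prod hl]⟩

lemma dvd (Y : ℝ) (n d : ℕ) (hn : n ≠ 0) (h : d ∣ n) : (lev Y d).Sublist (lev Y n) := by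
  rw [lev_eq, lev_eq]
  exact (Nat.primeFactorsList_sublist_of_dvd h hn).map _

lemma sum (Y : ℝ) (n : ℕ) (F : List ℝ → ℤ) (hn : n ≠ 0) (h : (lev Y n).Nodup) :
    ∑ d ∈ n.divisors, F (lev Y d) = ((lev Y n).sublists'.map F).sum := by
  rw [lev_eq] at h
  rw [lev_eq, List.sublists'_map, List.map_map,
    ← List.sum_toFinset _ (List.nodup_sublists'.2 (List.Nodup.of_map _ h))]
  refine sum_bij' (fun d _ => d.primeFactorsList) (fun l _ => l.prod) ?_ ?_ ?_ ?_ ?_
  · intro d hd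
    simpa using Nat.primeFactorsList_sublist_of_dvd (Nat.dvd_of_mem_divisors hd) hn
  · intro l hl
    exact Nat.mem_divisors.2 ⟨prod_dvd hn (by simpa using hl), hn⟩
  · intro d hd
    exact Nat.prod_primeFactorsList (Nat.pos_of_mem_divisors hd).ne'
  · intro l hl
    exact pf_prod (n := n) (by simpa using hl)
  · intro d _
    simp [lev_eq]

end LEV

theorem st_LEV : St_LEV :=
  ⟨LEV.size, LEV.asc, LEV.rou, LEV.len, LEV.tot, LEV.sub, LEV.dvd, LEV.sum⟩

end Pool.Agent.Lib.AP
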