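import Pool.Agent.Lib.AP.Blue2

/-! Block LOS: in general position the sieve loses at most the ideal loss. -/

open Finset Classical

noncomputable section

namespace Pool.Agent.Lib.AP

namespace LOS

lemma near (Λ : ℝ) (A : List (ℝ × ℝ)) (h : ∀ w ∈ A, |w.1 - Λ * w.2| ≤ 2) :
    |(A.map Prod.fst).sum - Λ * (A.map Prod.snd).sum| ≤ 2 * A.length := by
  induction A with
  | nil => simp
  | cons w A ih =>
    have h1 := abs_le.1 (h w List.mem_cons_self)
    have h2 := abs_le.1 (ih fun v hv => h v (List.mem_cons_of_mem _ hv))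
    simp only [List.map_cons, List.sum_cons, List.length_cons]
    push_cast
    rw [abs_le]
    constructor <;> linarith [h1.1, h1.2, h2.1, h2.2]

lemma far {Λ t : ℝ} (hΛ : 0 < Λ) (h : 10000 / Λ < |t|) : 10000 < |Λ * t| := by
  rw [abs_mul, abs_of_pos hΛ, mul_comm]
  exact (div_lt_iff₀ hΛ).1 h

lemma logsum (Y : ℝ) (L : List ℕ) (h : ∀ p ∈ L, p ≠ 0) :
    (L.map fun p : ℕ => Real.logb Y p).sum = Real.logb Y (L.prod : ℕ) := by
  induction L with
  | nil => simp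
  | cons p L ih =>
    have hp : p ≠ 0 := h p List.mem_cons_self
    have hL : ∀ q ∈ L, q ≠ 0 := fun q hq => h q (List.mem_cons_of_mem _ hq)
    have hP : L.prod ≠ 0 := List.prod_ne_zero fun h0 => hL 0 h0 rfl
    rw [List.map_cons, List.sum_cons, ih hL, List.prod_cons, Nat.cast_mul,
      Real.logb_mul (by exact_mod_cast hp) (by exact_mod_cast hP)]

lemma scale {Y : ℝ} {Λ : ℕ} (hY : 1 < Y) (hΛ : 0 < Λ) (t : ℝ) :
    Λ * Real.logb (Y ^ Λ) t = Real.logb Y t := by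
  have h1 : Real.log Y ≠ 0 := (Real.log_pos hY).ne'
  have h2 : (Λ : ℝ) ≠ 0 := by exact_mod_cast hΛ.ne'
  rw [Real.logb, Real.logb, Real.log_pow]
  field_simp

lemma lv {Y : ℝ} (hY : 1 < Y) {p : ℕ} (hp : p ≠ 0) :
    Real.logb Y p ≤ lvN Y p ∧ (lvN Y p : ℝ) < Real.logb Y p + 1 :=
  ⟨Nat.le_ceil _, Nat.ceil_lt_add_one (Real.logb_nonneg hY (by
    exact_mod_cast Nat.one_le_iff_ne_zero.2 hp))⟩

lemma zip {Λ : ℕ} {Y : ℝ} {n : ℕ} (hY : 1 < Y) (hΛ : 0 < Λ)
    (hn : n ∈ Ioc (X0 Λ Y) (X1 Λ Y)) : ∃ z : List (ℝ × ℝ), z.map Prod.fst = lev Y n ∧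
      z.map Prod.snd = xs (Y ^ Λ) n ∧ ∀ w ∈ z, |w.1 - Λ * w.2| ≤ 2 := by
  obtain ⟨h0, h1⟩ := mem_Ioc.1 hn
  have hY0 : 0 < Y := by linarith
  have g0 : Y ^ (270 * Λ) < n := (Nat.floor_lt (by positivity)).1 h0
  have g1 : (n : ℝ) ≤ Y ^ (270 * Λ + 1) := (Nat.le_floor_iff (by positivity)).1 h1
  have g2 : (1 : ℝ) < n := lt_of_le_of_lt (one_le_pow₀ hY.le) g0
  have n1 : 1 < n := by exact_mod_cast g2
  have n0 : n ≠ 0 := by omega
  have l0 : (270 * Λ : ℝ) < Real.logb Y n := by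
    rw [Real.lt_logb_iff_rpow_lt hY (by linarith)]
    exact_mod_cast g0
  have l1 : Real.logb Y n ≤ (270 * Λ + 1 : ℝ) := by
    rw [Real.logb_le_iff_le_rpow hY (by linarith)]
    exact_mod_cast g1
  have hne : n.primeFactorsList ≠ [] := (Nat.primeFactorsList_ne_nil n).2 n1
  have hp : ∀ p ∈ n.primeFactorsList, p ≠ 0 := fun p h =>
    (Nat.prime_of_mem_primeFactorsList h).ne_zero
  have hs := logsum Y _ hp
  rw [Nat.prod_primeFactorsList n0] at hs
  obtain ⟨L, b, hL⟩ : ∃ L b, n.primeFactorsList = L ++ [b] :=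
    ⟨_, _, (List.dropLast_append_getLast hne).symm⟩
  refine ⟨(L.map fun p : ℕ => ((lvN Y p : ℝ), Real.logb (Y ^ Λ) p)) ++
    [((lvN Y b : ℝ), 270 - (L.map fun p : ℕ => Real.logb (Y ^ Λ) p).sum)], ?_, ?_, ?_⟩
  · simp [lev, levN, hL, Function.comp_def]
  · simp [xs, hL, Function.comp_def]
  · intro w hw
    rw [hL] at hp hs
    rcases List.mem_append.1 hw with hw | hw
    · obtain ⟨p, hpL, rfl⟩ := List.mem_map.1 hw
      have := lv hY (hp p (List.mem_append_left _ hpL))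
      simp only [scale hY hΛ]
      rw [abs_le]
      constructor <;> linarith [this.1, this.2]
    · rw [List.mem_singleton.1 hw]
      have := lv hY (hp b (by simp))
      have e : Λ * (L.map fun p : ℕ => Real.logb (Y ^ Λ) p).sum =
          (L.map fun p : ℕ => Real.logb Y p).sum := by
        rw [← List.sum_map_mul_left]
        simp only [scale hY hΛ]
      simp only [List.map_append, List.sum_append, List.map_cons, List.map_nil, List.sum_cons,
        List.sum_nil, add_zero] at hs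
      simp only [mul_sub, e]
      rw [abs_le]
      constructor <;> linarith [this.1, this.2]

lemma one {Λ : ℝ} {x : List ℝ} (hΛ : 0 < Λ) (G : Gen (10000 / Λ) x) {A : List ℝ}
    (hA : A.Sublist x) (γ : ℤ) (h1 : |γ| ≤ 3000) (h2 : γ % 270 ≠ 0) :
    10000 < |Λ * (A.sum - γ)| := by
  have := G.g1 A A A hA hA hA 1 0 0 γ (by norm_num) (by norm_num) (by norm_num) h1 h2
  simp only [Int.cast_one, Int.cast_zero, one_mul, zero_mul, add_zero] at this
  exact far hΛ this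

lemma nopen {Λ : ℕ} {z A : List (ℝ × ℝ)} (hΛ : (0 : ℝ) < Λ) (hl : z.length ≤ 27)
    (hz : ∀ w ∈ z, |w.1 - Λ * w.2| ≤ 2) (G : Gen (10000 / Λ) (z.map Prod.snd))
    (hA : A.Sublist z) : ¬ pen Λ (A.map Prod.fst) := by
  rintro ⟨-, h⟩
  have hA' : ∀ w ∈ A, |w.1 - Λ * w.2| ≤ 2 := fun w hw => hz w (hA.subset hw)
  have h1 := abs_le.1 (near Λ A hA')
  have h2 : (A.length : ℝ) ≤ 27 := by exact_mod_cast hA.length_le.trans hl
  have hS := hA.map Prod.snd
  rcases h with h | h | ⟨y, h⟩ | ⟨y, hy, h3, h4⟩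
  · have := one hΛ G hS 90 (by norm_num) (by norm_num)
    have h := abs_le.1 h
    push_cast at this
    rcases lt_abs.1 this with t | t <;> linarith [h1.1, h1.2, h.1, h.2]
  · have := one hΛ G hS 135 (by norm_num) (by norm_num)
    have h := abs_le.1 h
    push_cast at this
    rcases lt_abs.1 this with t | t <;> linarith [h1.1, h1.2, h.1, h.2]
  · obtain ⟨w, B, rfl, e1, hB⟩ := List.map_eq_cons_iff.1 h
    obtain ⟨w', C, rfl, e2, hC⟩ := List.map_eq_cons_iff.1 hB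
    obtain rfl := List.map_eq_nil_iff.1 hC
    have := far hΛ (G.g3 w.2 w'.2 hS)
    have a1 := abs_le.1 (hA' w (by simp))
    have a2 := abs_le.1 (hA' w' (by simp))
    rcases lt_abs.1 this with t | t <;> linarith [a1.1, a1.2, a2.1, a2.2]
  · obtain ⟨w, hw, rfl⟩ := List.mem_map.1 hy
    have := far hΛ (G.g2 _ hS w.2 (List.mem_map_of_mem hw))
    have a1 := abs_le.1 (hA' w hw)
    rcases lt_abs.1 this with t | t <;> linarith [h1.1, h1.2, a1.1, a1.2]

end LOS

theorem st_LOS (hN : St_NOP) (hI : St_IDE) (hL : St_LEV) : St_LOS := by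
  intro Λ Y n hB hn hr G
  have hΛ : 0 < Λ := by have := hB.lam; omega
  have hΛ' : (0 : ℝ) < Λ := by exact_mod_cast hΛ
  have hΛ5 : (100000 : ℝ) ≤ Λ := by exact_mod_cast hB.lam
  have hY : 1 < Y := lt_of_lt_of_le (one_lt_pow₀ (by norm_num) (by omega)) hB.two
  have n0 : n ≠ 0 := by have := (mem_Ioc.1 hn).1; omega
  obtain ⟨z, e1, e2, hz⟩ := LOS.zip hY hΛ hn
  have hl : z.length ≤ 27 := by
    have h1 := (hL.len Λ Y n hB n0 (mem_Ioc.1 hn).2 hr).1
    have h2 := congrArg List.length e1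
    simp only [lev, List.length_map] at h2
    omega
  have tot : (xs (Y ^ Λ) n).sum = 270 := by simp [xs]
  have hnp : ∀ d, d ∣ n → ¬ pen Λ (lev Y d) := by
    intro d hd
    have h1 := hL.dvd Y n d n0 hd
    rw [← e1] at h1
    obtain ⟨A, hA, e⟩ := List.sublist_map_iff.1 h1
    rw [e]
    exact LOS.nopen hΛ' hl hz (e2 ▸ G) hA
  obtain ⟨hW, hA⟩ := hN Λ Y n hB hn hr hnp
  obtain ⟨hT, hc⟩ := hI Λ z hΛ5 hl hz (e2 ▸ tot) (e2 ▸ G)
  rw [e1, e2] at hT hc
  have m0 : (0 : ℝ) ≤ 10000 / Λ := by positivity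
  refine ⟨⟨?_, ?_, tot, ?_⟩, ?_⟩
  · rw [← e2] at G ⊢
    rw [List.pairwise_map, List.pairwise_iff_forall_sublist]
    intro w w' hw
    have h1 := LOS.far hΛ' (G.g3 w.2 w'.2 (hw.map Prod.snd))
    have h2 : w.1 < w'.1 := List.pairwise_iff_forall_sublist.1 (e1 ▸ hW.asc) (hw.map Prod.fst)
    have a1 := abs_le.1 (hz w (hw.subset (by simp)))
    have a2 := abs_le.1 (hz w' (hw.subset (by simp)))
    refine lt_of_mul_lt_mul_left ?_ hΛ'.le
    rcases lt_abs.1 h1 with t | t <;> linarith [a1.1, a1.2, a2.1, a2.2]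
  · intro y hy
    have h1 := LOS.one hΛ' G (List.singleton_sublist.2 hy) 10 (by norm_num) (by norm_num)
    rw [← e2] at hy
    obtain ⟨w, hw, rfl⟩ := List.mem_map.1 hy
    have h2 := hW.low w.1 (e1 ▸ List.mem_map_of_mem hw)
    have a1 := abs_le.1 (hz w hw)
    simp only [List.sum_cons, List.sum_nil, add_zero] at h1
    push_cast at h1
    refine lt_of_mul_lt_mul_left ?_ hΛ'.le
    rcases lt_abs.1 h1 with t | t <;> linarith [a1.1, a1.2]
  · exact ⟨fun A B C a1 a2 a3 a b c γ b1 b2 b3 b4 b5 =>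
      lt_of_le_of_lt m0 (G.g1 A B C a1 a2 a3 a b c γ b1 b2 b3 b4 b5),
      fun A a1 y a2 => lt_of_le_of_lt m0 (G.g2 A a1 y a2),
      fun y y' a1 => lt_of_le_of_lt m0 (G.g3 y y' a1)⟩
  · have hnd : (lev Y n).Nodup := hW.asc.imp fun h => h.ne
    rw [rho, rhoC, lossI, hA]
    by_cases h : cov Λ 1 (lev Y n)
    · rw [if_pos ⟨hr, hnd, h⟩, sub_self]
      split_ifs
      · simp
      · exact_mod_cast le_max_left _ _
    · rw [if_neg fun k => h k.2.2, if_neg fun k => h (hc k), sub_zero, hT]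
      exact_mod_cast le_max_right _ _

end Pool.Agent.Lib.AP
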