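import Pool.Agent.Lib.AP.Blue2

/-! The main term of the sieve is positive. -/

open Finset Classical

namespace Pool.Agent.Lib.AP

namespace MAIN

lemma lossI_nonneg (x : List ℝ) : 0 ≤ lossI x := by
  unfold lossI
  split_ifs
  · exact le_rfl
  · exact_mod_cast le_max_left _ _

lemma point (hR : St_RHO) (hL : St_LOS) (hG : St_GENV') (Λ : ℕ) (Y : ℝ) (hbig : Big Λ Y) (n : ℕ)
    (hn : n ∈ Ioc (X0 Λ Y) (X1 Λ Y)) :
    (if n.Prime then (1 : ℝ) / n else 0) -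
      (if Dom (xs (Y ^ Λ) n) then lossI (xs (Y ^ Λ) n) / n else 0) -
      2 ^ 100 * (if rough Λ Y n ∧ ¬ GenV (10000 / Λ) (xs (Y ^ Λ) n) then (1 : ℝ) / n else 0) ≤
      (rho Λ Y n : ℝ) / n := by
  have hr := hR Λ Y n hbig hn
  have hn0 : (0 : ℝ) ≤ n := by positivity
  have h1 : 0 ≤ (if Dom (xs (Y ^ Λ) n) then lossI (xs (Y ^ Λ) n) / n else 0) := by
    split_ifs
    · exact div_nonneg (lossI_nonneg _) hn0
    · exact le_rfl
  have h2 : 0 ≤ (if rough Λ Y n ∧ ¬ GenV (10000 / Λ) (xs (Y ^ Λ) n) then (1 : ℝ) / n else 0) := by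
    split_ifs
    · positivity
    · exact le_rfl
  by_cases hp : n.Prime
  · have : (rho Λ Y n : ℝ) = 1 := by exact_mod_cast hr.1 hp
    rw [if_pos hp, this]
    linarith
  rw [if_neg hp]
  by_cases hro : rough Λ Y n
  · by_cases hg : GenV (10000 / Λ) (xs (Y ^ Λ) n)
    · have hne : xs (Y ^ Λ) n ≠ [] := by simp [xs]
      obtain ⟨hd, hl⟩ := hL Λ Y n hbig hn hro (hG _ _ hne hg)
      rw [if_pos hd]
      have : -(lossI (xs (Y ^ Λ) n)) / n ≤ (rho Λ Y n : ℝ) / n :=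
        div_le_div_of_nonneg_right (by linarith) hn0
      rw [neg_div] at this
      linarith
    · rw [if_pos (⟨hro, hg⟩ : rough Λ Y n ∧ ¬ GenV (10000 / Λ) (xs (Y ^ Λ) n))]
      have h3 : (-2 ^ 100 : ℝ) ≤ (rho Λ Y n : ℝ) := by exact_mod_cast hr.2.2.2
      have : (-2 ^ 100 : ℝ) / n ≤ (rho Λ Y n : ℝ) / n := div_le_div_of_nonneg_right h3 hn0
      have e : (-2 ^ 100 : ℝ) / n = -(2 ^ 100 * (1 / n)) := by ring
      linarith
  · have : (rho Λ Y n : ℝ) = 0 := by exact_mod_cast hr.2.2.1 hro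
    rw [this, zero_div]
    linarith

end MAIN

theorem st_MAIN (hR : St_RHO) (hL : St_LOS) (hG : St_GENV') (hN : St_NUM) (hT : St_THIN)
    (hM : St_MER) (hB : St_BIG) : St_MAIN := by
  obtain ⟨θ, hθ, hnum⟩ := hN
  obtain ⟨C, hthin⟩ := hT
  set κ : ℝ := 1 - θ with hκ
  have hκ0 : 0 < κ := by linarith
  obtain ⟨Λ, hΛ⟩ := exists_nat_ge (max 100000 (540 * (2 ^ 100 * |C| + 1) / κ))
  have hΛ1 : (100000 : ℝ) ≤ Λ := (le_max_left _ _).trans hΛ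
  have hΛ2 : 540 * (2 ^ 100 * |C| + 1) / κ ≤ Λ := (le_max_right _ _).trans hΛ
  have hΛn : 100000 ≤ Λ := by exact_mod_cast hΛ1
  have hΛ0 : (0 : ℝ) < Λ := by linarith
  set ε : ℝ := κ / (5400 * Λ) with hε
  have hε0 : 0 < ε := by positivity
  refine ⟨Λ, hΛn, ε, hε0, ?_⟩
  have ht : Filter.Tendsto (fun Y : ℝ => Y ^ Λ) Filter.atTop Filter.atTop :=
    Filter.tendsto_pow_atTop (by omega)
  have hη1 : (1 : ℝ) / Λ ≤ 1 := by rw [div_le_one hΛ0]; linarith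
  filter_upwards [ht.eventually (hnum (1 / Λ) (by positivity) hη1 ε hε0),
    hthin Λ hΛn (ε / 2 ^ 100) (by positivity), hM ε hε0, hB Λ hΛn,
    Filter.eventually_gt_atTop (1 : ℝ)] with Y h1 h2 h3 hbig hY
  have hY0 : 0 < Y := by linarith
  have e0 : (Y ^ Λ) ^ 270 = Y ^ (270 * Λ) := by rw [← pow_mul, mul_comm]
  have e1 : (Y ^ Λ) ^ (270 + 1 / (Λ : ℝ) : ℝ) = Y ^ (270 * Λ + 1) := by
    rw [← Real.rpow_natCast Y Λ, ← Real.rpow_mul hY0.le, ← Real.rpow_natCast]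
    congr 1
    push_cast
    field_simp
  rw [e0, e1] at h1
  have h4 := h3 (Y ^ (270 * Λ)) (Y ^ (270 * Λ + 1)) (le_self_pow₀ hY.le (by omega))
    (pow_le_pow_right₀ hY.le (by omega))
  have hlog : 0 < Real.log Y := Real.log_pos hY
  have e2 : Real.log (Y ^ (270 * Λ + 1)) / Real.log (Y ^ (270 * Λ)) =
      (270 * (Λ : ℝ) + 1) / (270 * Λ) := by
    rw [Real.log_pow, Real.log_pow]
    push_cast
    field_simp
  rw [e2, sum_filter] at h4
  have h5 : 1 / (270 * (Λ : ℝ) + 1) ≤ Real.log ((270 * (Λ : ℝ) + 1) / (270 * Λ)) := by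
    have := Real.one_sub_inv_le_log_of_pos
      (by positivity : 0 < (270 * (Λ : ℝ) + 1) / (270 * Λ))
    refine le_trans (le_of_eq ?_) this
    field_simp
    ring
  have h6 := sum_le_sum (MAIN.point hR hL hG Λ Y hbig)
  rw [sum_sub_distrib, sum_sub_distrib, ← mul_sum] at h6
  have h7 := (abs_le.mp h4).1
  have h8 : 1 / (270 * (Λ : ℝ)) - 1 / (Λ : ℝ) ^ 2 ≤ 1 / (270 * (Λ : ℝ) + 1) := by
    rw [div_sub_div _ _ (by positivity) (by positivity), div_le_div_iff₀ (by positivity)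
      (by positivity)]
    nlinarith [mul_pos hΛ0 hΛ0, mul_pos (mul_pos hΛ0 hΛ0) hΛ0]
  have h9 : (2 ^ 100 * |C| + 1) / (Λ : ℝ) ^ 2 ≤ 10 * ε := by
    rw [div_le_iff₀ hκ0] at hΛ2
    rw [div_le_iff₀ (by positivity), hε]
    have : 10 * (κ / (5400 * (Λ : ℝ))) * (Λ : ℝ) ^ 2 = Λ * κ / 540 := by field_simp; ring
    rw [this]
    linarith
  have h10 : (2 : ℝ) ^ 100 * (C / (Λ : ℝ) ^ 2 + ε / 2 ^ 100) ≤
      2 ^ 100 * |C| / (Λ : ℝ) ^ 2 + ε := by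
    have : C / (Λ : ℝ) ^ 2 ≤ |C| / (Λ : ℝ) ^ 2 :=
      div_le_div_of_nonneg_right (le_abs_self C) (by positivity)
    have e : (2 : ℝ) ^ 100 * (ε / 2 ^ 100) = ε := by field_simp
    rw [mul_add, e, mul_div_assoc]
    have := mul_le_mul_of_nonneg_left this (by positivity : (0 : ℝ) ≤ 2 ^ 100)
    linarith
  have h11 := mul_le_mul_of_nonneg_left h2 (by positivity : (0 : ℝ) ≤ 2 ^ 100)
  have h12 : 1 / (270 * (Λ : ℝ)) - θ * (1 / Λ) / 270 = 20 * ε := by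
    rw [hε, hκ]; field_simp; ring
  have h13 : (2 ^ 100 * |C| + 1) / (Λ : ℝ) ^ 2 =
      2 ^ 100 * |C| / (Λ : ℝ) ^ 2 + 1 / (Λ : ℝ) ^ 2 := by ring
  unfold X0 X1 at *
  linarith

end Pool.Agent.Lib.AP
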