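import Pool.Agent.Lib.AP.Comb
import Pool.Agent.Lib.BK2.MERT

/-! The uniform form of the second theorem of Mertens. -/

open Filter

namespace Pool.Agent.Lib.AP

theorem st_MER : St_MER := by
  intro ε hε
  have h1 : ∀ᶠ Z : ℝ in atTop, 22 / ε ≤ Real.log Z :=
    Real.tendsto_log_atTop.eventually_ge_atTop _
  filter_upwards [h1, eventually_ge_atTop (2 : ℝ)] with Z hZ h2 A B hA hB
  refine (BK2.mert_two (h2.trans hA) hB).trans ?_
  have h3 : Real.log Z ≤ Real.log A := Real.log_le_log (by linarith) hA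
  have h4 : 0 < 22 / ε := by positivity
  rw [div_le_iff₀ (by linarith)]
  have h5 := (div_le_iff₀ hε).1 (hZ.trans h3)
  linarith

end Pool.Agent.Lib.AP
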