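import Pool.Agent.Lib.AP.Blue2

/-! Without punished divisors the levels are distinct and in general position. -/

open Finset Classical

noncomputable section

namespace Pool.Agent.Lib.AP

namespace NOP

theorem one_lt {Λ : ℕ} {Y : ℝ} (hB : Big Λ Y) : 1 < Y := by
  have h1 := hB.lam
  have h2 : (1 : ℝ) < 2 ^ (300 * Λ) := one_lt_pow₀ (by norm_num) (by omega)
  exact h2.trans_le hB.two

theorem lev_sum (Y : ℝ) (n : ℕ) : (lev Y n).sum = ((levN Y n).sum : ℕ) := by
  rw [lev, Nat.cast_list_sum]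

theorem lev_length (Y : ℝ) (n : ℕ) : (lev Y n).length = (levN Y n).length := by
  rw [lev, List.length_map]

theorem rough_dvd {Λ : ℕ} {Y : ℝ} {n d : ℕ} (h : rough Λ Y n) (hd : d ∣ n) : rough Λ Y d :=
  fun p hp hpd => h p hp (hpd.trans hd)

theorem rough_mul {Λ : ℕ} {Y : ℝ} {a b : ℕ} (ha : rough Λ Y a) (hb : rough Λ Y b) :
    rough Λ Y (a * b) :=
  fun p hp h => ((Nat.Prime.dvd_mul hp).1 h).elim (ha p hp) (hb p hp)

theorem rhoA_eq {Λ : ℕ} {Y : ℝ} {n : ℕ} (h : rough Λ Y n) :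
    rhoA Λ Y n = ∑ d ∈ n.divisors, aw Λ Y d := by
  rw [rhoA, Nat.sum_divisorsAntidiagonal
    (fun a b => if rough Λ Y b then aw Λ Y a else 0)]
  refine sum_congr rfl fun d hd => ?_
  rw [if_pos (rough_dvd h (Nat.div_dvd_of_dvd (Nat.dvd_of_mem_divisors hd)))]

theorem rhoA_zero {Λ : ℕ} {Y : ℝ} {n : ℕ} (h : ¬ rough Λ Y n) : rhoA Λ Y n = 0 := by
  refine sum_eq_zero fun x hx => ?_
  by_cases h2 : rough Λ Y x.2
  · rw [if_pos h2, aw, if_neg]
    intro h1
    exact h ((Nat.mem_divisorsAntidiagonal.1 hx).1 ▸ rough_mul h1 h2)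
  · rw [if_neg h2]

end NOP

open NOP in
theorem st_NOP (hL : St_LEV) : St_NOP := by
  intro Λ Y n hB hn hr hp
  have hY := one_lt hB
  obtain ⟨hn0, hn1⟩ := mem_Ioc.1 hn
  have hne : n ≠ 0 := by omega
  have hΛ : (100000 : ℝ) ≤ Λ := by exact_mod_cast hB.lam
  obtain ⟨-, -, hhi⟩ := hL.len Λ Y n hB hne hn1 hr
  have hlo := hL.tot Λ Y n hB hn0
  have hs1 : (270 * Λ + 1 : ℝ) ≤ (lev Y n).sum := by rw [lev_sum]; exact_mod_cast hlo
  have hs2 : (lev Y n).sum ≤ (270 * Λ + 28 : ℝ) := by rw [lev_sum]; exact_mod_cast hhi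
  have hS : ∀ S : List ℝ, S.Sublist (lev Y n) → ¬ pen Λ S := by
    intro S h
    obtain ⟨d, hd, rfl⟩ := hL.sub Y n S hne h
    exact hp d hd
  have w3 : ∀ S : List ℝ, S.Sublist (lev Y n) → 1100 * (1 : ℝ) < |S.sum - 90 * Λ| := by
    intro S h
    by_contra hc
    have hc' : |S.sum - 90 * Λ| ≤ 1100 := by linarith [not_lt.1 hc]
    refine hS S h ⟨?_, Or.inl hc'⟩
    have := (abs_le.1 hc').2
    unfold gD
    linarith
  have w2 : ∀ S : List ℝ, S.Sublist (lev Y n) → 1100 * (1 : ℝ) < |S.sum - 135 * Λ| := by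
    intro S h
    by_contra hc
    have hc' : |S.sum - 135 * Λ| ≤ 1100 := by linarith [not_lt.1 hc]
    refine hS S h ⟨?_, Or.inr (Or.inl hc')⟩
    have := (abs_le.1 hc').2
    unfold gD
    linarith
  have hnd : (lev Y n).Nodup := by
    rw [List.nodup_iff_sublist]
    intro x hx
    by_cases hg : gD Λ 1 ([x, x] : List ℝ).sum
    · exact hS _ hx ⟨hg, Or.inr (Or.inr (Or.inl ⟨x, rfl⟩))⟩
    · have h1 : ([x] : List ℝ).Sublist (lev Y n) := (List.sublist_cons_self x [x]).trans hx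
      have h2 := w3 _ h1
      simp only [gD, List.sum_cons, List.sum_nil, add_zero, not_le] at hg h2
      have h3 : 90 * Λ + 1100 < x := by
        rcases lt_abs.1 h2 with h | h <;> linarith
      have hm : x ∈ lev Y n := List.singleton_sublist.1 h1
      have h4 : x + ((lev Y n).erase x).sum = (lev Y n).sum := List.sum_erase hm
      have h5 : x ∈ (lev Y n).erase x := by
        have := hx.erase x
        rw [List.erase_cons_head] at this
        exact List.singleton_sublist.1 this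
      refine hS _ (List.erase_sublist (a := x)) ⟨?_, Or.inr (Or.inr (Or.inr ⟨x, h5, ?_, ?_⟩))⟩
      · unfold gD
        linarith
      · linarith
      · linarith
  refine ⟨⟨by linarith, zero_le_one, by linarith, ?_, ?_, ?_, w3, w2⟩, ?_⟩
  · have h1 : (lev Y n).Pairwise (· ≤ ·) :=
      (hL.asc Y n hY).map _ fun a b h => by exact_mod_cast h
    exact (h1.and hnd).imp fun h => lt_of_le_of_ne h.1 h.2
  · intro x hx
    obtain ⟨i, hi, rfl⟩ := List.mem_map.1 hx
    have h1 := (hL.rou Λ Y n hY hne).1 hr i hi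
    have h2 : (10 * Λ : ℝ) < i + 1200 := by exact_mod_cast h1
    linarith
  · obtain ⟨i, hi⟩ := Nat.exists_eq_add_of_le hlo
    refine ⟨i, by omega, ?_⟩
    rw [lev_sum, hi]
    push_cast
    ring
  · rw [rhoA_eq hr, T0, ← hL.sum Y n (a0 Λ 1) hne hnd]
    refine sum_congr rfl fun d hd => ?_
    have hd' := Nat.dvd_of_mem_divisors hd
    rw [aw, if_pos (rough_dvd hr hd'), if_pos (hnd.sublist (hL.dvd Y n d hne hd')),
      if_neg (hp d hd'), sub_zero]

end Pool.Agent.Lib.AP
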