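import Pool.Agent.Lib.AP.Blue

/-! Norms of the weights. -/

open Finset

noncomputable section

namespace Pool.Agent.Lib.AP

namespace OM

theorem sum_nz (T : ℕ) (F : ℤ → ℝ) (hF : ∀ t, F (-t) = F t) :
    ∑ t ∈ nz T, F t = 2 * ∑ n ∈ Icc 1 T, F n := by
  induction T with
  | zero => simp [nz]
  | succ T ih =>
    have h : nz (T + 1) = insert ((T + 1 : ℕ) : ℤ) (insert (-((T + 1 : ℕ) : ℤ)) (nz T)) := by
      ext t
      simp only [nz, mem_erase, mem_Icc, mem_insert]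
      push_cast
      omega
    have h1 : -((T + 1 : ℕ) : ℤ) ∉ nz T := by
      simp only [nz, mem_erase, mem_Icc]
      push_cast
      omega
    have h2 : ((T + 1 : ℕ) : ℤ) ∉ insert (-((T + 1 : ℕ) : ℤ)) (nz T) := by
      simp only [nz, mem_erase, mem_Icc, mem_insert]
      push_cast
      omega
    rw [h, sum_insert h2, sum_insert h1, ih, hF, sum_Icc_succ_top (by omega)]
    ring

variable {Λ : ℕ} {Y : ℝ}

theorem big192 (h : Big Λ Y) : 192 ≤ Y := by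
  have h1 := h.lam
  calc (192 : ℝ) ≤ 2 ^ 8 := by norm_num
    _ ≤ 2 ^ (300 * Λ) := pow_le_pow_right₀ one_le_two (by omega)
    _ ≤ Y := h.two

theorem first (hT : St_TOOL) (hW : St_W1) {α : ℝ} {q : ℕ} (K : Ker Λ Y) (hB : Big Λ Y)
    (hD : Dio Λ Y α q) {M N : ℕ} (hb : Box Λ Y M N) :
    ∑ t ∈ nz (32 * K.H * N), ‖ww M (α * t)‖ ≤ N * Y ^ (90 * Λ + 5) := by
  have hY := big192 hB
  have hl := hB.lam
  have hY1 : 1 ≤ Y := by linarith
  have hY0 : 0 < Y := by linarith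
  have hN0 : (0 : ℝ) ≤ N := Nat.cast_nonneg _
  have hM0 : (0 : ℝ) ≤ M := Nat.cast_nonneg _
  have hH0 : (0 : ℝ) ≤ K.H := Nat.cast_nonneg _
  have hq0 : (0 : ℝ) < q := by rw [hD.1]; positivity
  set T : ℕ := 32 * K.H * N with hTd
  have hTc : (T : ℝ) = 32 * K.H * N := by rw [hTd]; push_cast; ring
  have hT0 : (0 : ℝ) ≤ T := Nat.cast_nonneg _
  have hTle : (T : ℝ) ≤ 32 * Y ^ (90 * Λ + 3) * N := by
    rw [hTc]
    have := K.Hhi
    gcongr
  have hTb : (T : ℝ) ≤ Y ^ (1000 * Λ) := by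
    calc (T : ℝ) ≤ 32 * Y ^ (90 * Λ + 3) * N := hTle
      _ ≤ Y * Y ^ (90 * Λ + 3) * Y ^ (120 * Λ) := by
        have := hb.hi
        gcongr
        linarith
      _ = Y ^ (210 * Λ + 4) := by ring
      _ ≤ _ := pow_le_pow_right₀ hY1 (by omega)
  have hqT : (q : ℝ) ≤ T := by
    rw [hD.1, hTc]
    calc Y ^ (180 * Λ) ≤ Y ^ (90 * Λ + 2 + (90 * Λ + 1000)) := pow_le_pow_right₀ hY1 (by omega)
      _ = Y ^ (90 * Λ + 2) * Y ^ (90 * Λ + 1000) := pow_add _ _ _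
      _ ≤ K.H * (4 * N) := by
        have := K.Hlo
        have := hb.lo
        gcongr
      _ ≤ 32 * K.H * N := by nlinarith [mul_nonneg hH0 hN0]
  have hMq : (M : ℝ) ≤ q := by
    rw [hD.1]
    refine le_of_mul_le_mul_right ?_ (pow_pos hY0 (90 * Λ + 1000))
    calc (M : ℝ) * Y ^ (90 * Λ + 1000) ≤ M * (4 * N) := by
          have := hb.lo
          gcongr
      _ = 4 * (M * N) := by ring
      _ ≤ Y * Y ^ (270 * Λ + 1) := by
        have := hb.mn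
        gcongr
        linarith
      _ = Y ^ (270 * Λ + 2) := by ring
      _ ≤ Y ^ (180 * Λ + (90 * Λ + 1000)) := pow_le_pow_right₀ hY1 (by omega)
      _ = _ := pow_add _ _ _
  have h1 := hW Λ Y α q hB hD T (M * T) (fun t => ‖ww M (α * t)‖) (by positivity) hTb
    fun t ht => ⟨by
      have h2 : (t : ℝ) ≤ T := by exact_mod_cast (mem_Icc.1 ht).2
      have := (hT.wle M (α * t)).1
      gcongr, by
      have := (hT.wle M (α * t)).2.1
      linarith⟩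
  have h2 : (M : ℝ) * T / q ≤ T := by
    rw [div_le_iff₀ hq0]
    nlinarith
  rw [sum_nz T (fun t => ‖ww M (α * t)‖) fun t => by
    have := (hT.wle M (α * t)).2.2
    simpa using this]
  simp only [Int.cast_natCast]
  calc 2 * ∑ n ∈ Icc 1 T, ‖ww M (α * n)‖ ≤ 2 * (Y * (3 * T)) := by
        have : Y * (M * T / q + T + q) ≤ Y * (3 * T) := by
          gcongr
          linarith
        linarith
    _ ≤ 2 * (Y * (3 * (32 * Y ^ (90 * Λ + 3) * N))) := by gcongr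
    _ = N * (192 * Y ^ (90 * Λ + 4)) := by ring
    _ ≤ N * (Y * Y ^ (90 * Λ + 4)) := by gcongr
    _ = _ := by ring

end OM

theorem st_OM (hT : St_TOOL) (hP : St_PSI) (hW : St_W1) : St_OM := by
  intro Λ Y α q K hB hD M N hb
  have h1 := OM.first hT hW K hB hD hb
  have hom : ∀ g t, ‖K.om α M N g t‖ =
      psi (8 * K.H * N / g + 1) t * ‖ww M (α * ((g * t : ℤ) : ℝ))‖ := fun g t => by
    rw [Ker.om, norm_mul, Complex.norm_real, Real.norm_of_nonneg (hP.bd _ _).1]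
  have hle : ∀ g t, ‖K.om α M N g t‖ ≤ ‖ww M (α * ((g * t : ℤ) : ℝ))‖ := fun g t => by
    rw [hom]
    exact mul_le_of_le_one_left (norm_nonneg _) (hP.bd _ _).2
  refine ⟨h1, fun g t => (hle g t).trans (hT.wle _ _).1, fun g hg => ?_⟩
  obtain ⟨hg1, hg2⟩ := mem_Icc.1 hg
  have hH : 1 ≤ K.H := by
    have h2 : (1 : ℝ) ≤ K.H :=
      (one_le_pow₀ (by linarith [OM.big192 hB])).trans K.Hlo
    exact_mod_cast h2
  set A := (nz (32 * K.H * N)).filter fun t => |t| ≤ 2 * ((8 * K.H * N / g + 1 : ℕ) : ℤ) with hA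
  have e1 : ∑ t ∈ nz (32 * K.H * N), ‖K.om α M N g t‖ = ∑ t ∈ A, ‖K.om α M N g t‖ := by
    refine (sum_subset (filter_subset _ _) fun t ht hn => ?_).symm
    rw [hom, hP.zero _ _ (not_le.1 fun h => hn (mem_filter.2 ⟨ht, h⟩)), zero_mul]
  have hinj : Set.InjOn (fun t : ℤ => (g : ℤ) * t) A := fun s _ t _ h =>
    mul_left_cancel₀ (by exact_mod_cast (by omega : g ≠ 0)) h
  have hsub : A.image (fun t : ℤ => (g : ℤ) * t) ⊆ nz (32 * K.H * N) := by
    intro s hs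
    obtain ⟨t, ht, rfl⟩ := mem_image.1 hs
    obtain ⟨ht1, ht2⟩ := mem_filter.1 ht
    have h0 : t ≠ 0 := (mem_erase.1 ht1).1
    have h3 : g * (2 * (8 * K.H * N / g + 1)) ≤ 32 * K.H * N := by
      have h4 : g * (8 * K.H * N / g) ≤ 8 * K.H * N := Nat.mul_div_le _ _
      have h5 : N ≤ K.H * N := Nat.le_mul_of_pos_left _ hH
      nlinarith
    have h6 : |(g : ℤ) * t| ≤ ((32 * K.H * N : ℕ) : ℤ) := by
      rw [abs_mul, abs_of_nonneg (Int.natCast_nonneg g)]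
      calc (g : ℤ) * |t| ≤ g * (2 * ((8 * K.H * N / g + 1 : ℕ) : ℤ)) :=
            mul_le_mul_of_nonneg_left ht2 (Int.natCast_nonneg g)
        _ = ((g * (2 * (8 * K.H * N / g + 1)) : ℕ) : ℤ) := by
          rw [Nat.cast_mul, Nat.cast_mul, Nat.cast_ofNat]
        _ ≤ _ := Int.ofNat_le.2 h3
    exact mem_erase.2 ⟨mul_ne_zero (by exact_mod_cast (by omega : g ≠ 0)) h0,
      mem_Icc.2 (abs_le.1 h6)⟩
  calc ∑ t ∈ nz (32 * K.H * N), ‖K.om α M N g t‖ = ∑ t ∈ A, ‖K.om α M N g t‖ := e1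
    _ ≤ ∑ t ∈ A, ‖ww M (α * ((g * t : ℤ) : ℝ))‖ := sum_le_sum fun t _ => hle g t
    _ = ∑ s ∈ A.image (fun t : ℤ => (g : ℤ) * t), ‖ww M (α * s)‖ :=
      (sum_image (f := fun s : ℤ => ‖ww M (α * s)‖) hinj).symm
    _ ≤ ∑ s ∈ nz (32 * K.H * N), ‖ww M (α * s)‖ :=
      sum_le_sum_of_subset_of_nonneg hsub fun _ _ _ => norm_nonneg _
    _ ≤ _ := h1

end Pool.Agent.Lib.AP
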