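import Pool.Agent.Lib.AP.Blue2

/-! The type I part of the peeling. -/

open Finset Classical

noncomputable section

namespace Pool.Agent.Lib.AP

theorem st_PAD (hT : St_T1) (hG : St_GCD) : St_PAD := by
  intro Λ Y α q K hB hD a a' j ha ha' hj hH
  have hY : 1 ≤ Y := le_trans (one_le_pow₀ (by norm_num)) hB.two
  have hY0 : 0 < Y := by linarith
  have hl := hB.lam
  have hmu : ∀ e, ‖(mu' Λ Y e : ℂ)‖ ≤ 1 := fun e => by
    rw [Complex.norm_intCast]
    unfold mu'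
    split_ifs
    · exact_mod_cast ArithmeticFunction.abs_moebius_le_one
    · simp
  have hDY : ∀ k, 180 * Λ ≤ k → (D0 Λ Y : ℝ) ≤ Y ^ k := fun k hk =>
    calc (D0 Λ Y : ℝ) ≤ Y ^ (180 * Λ) / Y ^ 1000 := Nat.floor_le (by positivity)
      _ ≤ Y ^ (180 * Λ) := div_le_self (by positivity) (one_le_pow₀ hY)
      _ ≤ Y ^ k := pow_le_pow_right₀ hY hk
  have hDX : D0 Λ Y ≤ X1 Λ Y := Nat.le_floor (hDY _ (by omega))
  have hX1 : 1 ≤ X1 Λ Y := Nat.le_floor (by simpa using one_le_pow₀ hY)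
  set F : ℕ → ℕ → ℂ := fun m e => if m ≤ X1 Λ Y ∧ e ≤ X1 Λ Y then
    a m * a' 1 * (mu' Λ Y e : ℂ) else 0 with hF
  have hF1 : ∀ m e, ‖F m e‖ ≤ 1 := fun m e => by
    simp only [hF]
    split_ifs
    · rw [norm_mul, norm_mul]
      exact mul_le_one₀ (mul_le_one₀ (ha m) (norm_nonneg _) (ha' 1)) (norm_nonneg _) (hmu e)
    · simp
  have key := hT Λ Y α q K hB hD (fun d => if d ≤ D0 Λ Y then col F d / Y else 0)
    (fun d => X0 Λ Y / d) (fun d => j / d)
    (fun d => by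
      split_ifs with h
      · rw [norm_div, Complex.norm_real, Real.norm_of_nonneg hY0.le, div_le_one hY0]
        refine (hG.col F d hF1).trans (hB.div d ?_)
        exact le_trans (by exact_mod_cast h) (hDY _ (by omega))
      · simp)
    (fun d => (Nat.mul_div_le j d).trans hj)
  set G : ℕ → ℂ := fun d => ∑ κ ∈ Icc 1 (X1 Λ Y),
    if d * κ ∈ Ioc (X0 Λ Y) j ∧ d ≤ D0 Λ Y then K.D α (d * κ) else 0 with hGd
  have h1 : Pz K α (· ≤ D0 Λ Y) a a' j = ∑ m ∈ Icc 1 (X1 Λ Y), ∑ e ∈ Icc 1 (X1 Λ Y),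
      a m * a' 1 * (mu' Λ Y e : ℂ) * G (m * e) := by
    unfold Pz
    refine sum_congr rfl fun m _ => ?_
    rw [sum_eq_single 1]
    · refine sum_congr rfl fun e _ => ?_
      simp only [hGd, mul_sum]
      refine sum_congr rfl fun κ _ => ?_
      rw [mul_one, ← mul_assoc m e κ, mul_ite, mul_zero]
      congr
    · intro r _ hr
      have : a' r = 0 := by
        by_contra h
        exact hr (hH.2 r h)
      simp [this]
    · intro h
      exact absurd (mem_Icc.2 ⟨le_rfl, hX1⟩) h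
  have h2 : ∑ n ∈ Icc 1 (X1 Λ Y * X1 Λ Y), col F n * G n = Y * ∑ d ∈ Icc 1 (D0 Λ Y),
      (if d ≤ D0 Λ Y then col F d / Y else 0) *
        ∑ κ ∈ Ioc (X0 Λ Y / d) (j / d), K.D α (d * κ) := by
    rw [mul_sum]
    symm
    refine sum_subset_zero_on_sdiff (Icc_subset_Icc le_rfl (hDX.trans (Nat.le_mul_self _))) ?_ ?_
    · intro d hd
      have h3 : ¬ d ≤ D0 Λ Y := by
        simp only [mem_sdiff, mem_Icc] at hd
        omega
      simp [hGd, h3]
    · intro d hd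
      obtain ⟨hd1, hd2⟩ := mem_Icc.1 hd
      have hYc : (Y : ℂ) ≠ 0 := by exact_mod_cast hY0.ne'
      rw [if_pos hd2, ← mul_assoc, mul_div_cancel₀ _ hYc]
      congr 1
      simp only [hGd, hd2, and_true]
      rw [← sum_filter]
      refine sum_congr ?_ fun _ _ => rfl
      ext κ
      simp only [mem_filter, mem_Ioc, mem_Icc]
      rw [Nat.div_lt_iff_lt_mul hd1, Nat.le_div_iff_mul_le hd1, mul_comm κ d]
      constructor
      · rintro ⟨h4, h5⟩
        refine ⟨⟨Nat.pos_of_ne_zero (by rintro rfl; omega), ?_⟩, h4, h5⟩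
        exact (Nat.le_mul_of_pos_left _ hd1).trans (h5.trans hj)
      · exact fun h => h.2
  rw [h1, hG.prod (X1 Λ Y) (X1 Λ Y) (fun m e => a m * a' 1 * (mu' Λ Y e : ℂ)) G]
  refine le_trans ?_ key
  change ‖∑ n ∈ Icc 1 (X1 Λ Y * X1 Λ Y), col F n * G n‖ * _ ≤ _
  rw [h2, norm_mul, Complex.norm_real, Real.norm_of_nonneg hY0.le, mul_comm Y, mul_assoc,
    ← pow_succ']
  exact mul_le_mul_of_nonneg_left (pow_le_pow_right₀ hY (by norm_num)) (norm_nonneg _)

end Pool.Agent.Lib.AP
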