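import Pool.Agent.Lib.AP.Blue2

/-! The range `m e ≤ D0` for the extended types: the estimate with a free variable applies. -/

open Finset Classical

noncomputable section

namespace Pool.Agent.Lib.AP

namespace PAE

theorem one_le {Λ : ℕ} {Y : ℝ} (hB : Big Λ Y) : 1 ≤ Y :=
  (one_le_pow₀ (by norm_num : (1 : ℝ) ≤ 2)).trans hB.two

theorem X1_pos {Λ : ℕ} {Y : ℝ} (hB : Big Λ Y) : 1 ≤ X1 Λ Y := by
  unfold X1
  exact Nat.le_floor (by simpa using one_le_pow₀ (one_le hB))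

theorem mu_le (Λ : ℕ) (Y : ℝ) (e : ℕ) : ‖((mu' Λ Y e : ℤ) : ℂ)‖ ≤ 1 := by
  rw [Complex.norm_intCast]
  unfold mu'
  split_ifs
  · exact_mod_cast ArithmeticFunction.abs_moebius_le_one
  · simp

theorem real_adm {Λ μ ρ : ℕ} {Y m e r s : ℝ} (hY : 1 ≤ Y)
    (hρ : 2 * ρ + 450 * Λ + 1100 ≤ 3 * μ) (hm : Y ^ μ ≤ m * Y ^ 27) (hr : r ≤ Y ^ ρ)
    (hr0 : 0 ≤ r) (hm0 : 0 ≤ m) (hs : 0 ≤ s) (he : 1 ≤ e)
    (hD : m * e * Y ^ 1000 ≤ Y ^ (180 * Λ)) (h0 : Y ^ (270 * Λ) < m * e * s)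
    (h1 : m * e * s ≤ Y ^ (270 * Λ + 1)) :
    Y ^ (90 * Λ + 1000) ≤ s ∧ r ^ 2 * s ^ 3 * Y ^ 1000 ≤ Y ^ (360 * Λ) := by
  have hY0 : 0 < Y := by linarith
  constructor
  · have hp : 0 < Y ^ (180 * Λ) := by positivity
    refine le_of_mul_le_mul_left ?_ hp
    calc Y ^ (180 * Λ) * Y ^ (90 * Λ + 1000) = Y ^ (270 * Λ) * Y ^ 1000 := by
          rw [← pow_add, ← pow_add, show 180 * Λ + (90 * Λ + 1000) = 270 * Λ + 1000 by omega]
      _ ≤ m * e * s * Y ^ 1000 := mul_le_mul_of_nonneg_right h0.le (by positivity)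
      _ = m * e * Y ^ 1000 * s := mul_right_comm _ _ _
      _ ≤ Y ^ (180 * Λ) * s := mul_le_mul_of_nonneg_right hD hs
  · have hms : m * s ≤ Y ^ (270 * Λ + 1) := by
      refine le_trans ?_ h1
      have : m * s * 1 ≤ m * s * e := mul_le_mul_of_nonneg_left he (mul_nonneg hm0 hs)
      linarith
    have hsμ : s * Y ^ μ ≤ Y ^ (270 * Λ + 28) := by
      calc s * Y ^ μ ≤ s * (m * Y ^ 27) := mul_le_mul_of_nonneg_left hm hs
        _ = m * s * Y ^ 27 := by ring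
        _ ≤ Y ^ (270 * Λ + 1) * Y ^ 27 := mul_le_mul_of_nonneg_right hms (by positivity)
        _ = Y ^ (270 * Λ + 28) := by rw [← pow_add]
    have h3 : (s * Y ^ μ) ^ 3 ≤ (Y ^ (270 * Λ + 28)) ^ 3 :=
      pow_le_pow_left₀ (by positivity) hsμ 3
    have h2 : r ^ 2 ≤ (Y ^ ρ) ^ 2 := pow_le_pow_left₀ hr0 hr 2
    have hp : 0 < (Y ^ μ) ^ 3 := by positivity
    refine le_of_mul_le_mul_right ?_ hp
    calc r ^ 2 * s ^ 3 * Y ^ 1000 * (Y ^ μ) ^ 3 = r ^ 2 * (s * Y ^ μ) ^ 3 * Y ^ 1000 := by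
          generalize Y ^ 1000 = A
          generalize Y ^ μ = B
          ring
      _ ≤ (Y ^ ρ) ^ 2 * (Y ^ (270 * Λ + 28)) ^ 3 * Y ^ 1000 :=
          mul_le_mul_of_nonneg_right (mul_le_mul h2 h3 (by positivity) (by positivity))
            (by positivity)
      _ = Y ^ (ρ * 2 + (270 * Λ + 28) * 3 + 1000) := by
          rw [← pow_mul, ← pow_mul, ← pow_add, ← pow_add]
      _ ≤ Y ^ (360 * Λ + μ * 3) := pow_le_pow_right₀ hY (by omega)
      _ = Y ^ (360 * Λ) * (Y ^ μ) ^ 3 := by rw [← pow_mul, ← pow_add]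

theorem adm {Λ : ℕ} {Y : ℝ} (hB : Big Λ Y) {μ ρ m e r κ : ℕ}
    (hρ : 2 * ρ + 450 * Λ + 1100 ≤ 3 * μ) (hm : Y ^ μ ≤ m * Y ^ 27) (hr : (r : ℝ) ≤ Y ^ ρ)
    (he : 1 ≤ e) (hD : m * e ≤ D0 Λ Y) (h0 : X0 Λ Y < m * e * (r * κ))
    (h1 : m * e * (r * κ) ≤ X1 Λ Y) : adm2 Λ Y r κ := by
  have hY := one_le hB
  have hY0 : 0 < Y := by linarith
  have hD' : ((m : ℝ) * e) * Y ^ 1000 ≤ Y ^ (180 * Λ) := by
    have h : ((m * e : ℕ) : ℝ) ≤ Y ^ (180 * Λ) / Y ^ 1000 :=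
      (Nat.cast_le.2 hD).trans (Nat.floor_le (by positivity))
    rw [le_div_iff₀ (by positivity)] at h
    simpa using h
  have h0' : Y ^ (270 * Λ) < (m : ℝ) * e * (r * κ) := by
    have h := Nat.lt_of_floor_lt h0
    simpa using h
  have h1' : (m : ℝ) * e * (r * κ) ≤ Y ^ (270 * Λ + 1) := by
    have h : ((m * e * (r * κ) : ℕ) : ℝ) ≤ Y ^ (270 * Λ + 1) :=
      (Nat.cast_le.2 h1).trans (Nat.floor_le (by positivity))
    simpa using h
  exact real_adm hY hρ hm hr (Nat.cast_nonneg r) (Nat.cast_nonneg m) (by positivity)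
    (by exact_mod_cast he) hD' h0' h1'

end PAE

theorem st_PAE (hE : St_EII) : St_PAE := by
  intro Λ Y α q K hB hDio a a' j ha ha' hj hHE
  obtain ⟨μ, ρ, -, hρ, hm, hr⟩ := hHE
  have hY := PAE.one_le hB
  have hX := PAE.X1_pos hB
  have h := hE Λ Y α q K hB hDio
    (fun m e => if m * e ≤ D0 Λ Y then a m * (mu' Λ Y e : ℂ) else 0)
    (fun r f => if f = 1 then a' r else 0) (fun _ _ _ => 0) (fun _ _ _ => 1) j
    (fun m e => by
      split_ifs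
      · rw [norm_mul]
        exact mul_le_one₀ (ha m) (norm_nonneg _) (PAE.mu_le Λ Y e)
      · simp)
    (fun r f => by
      split_ifs
      · exact ha' r
      · simp)
    (fun _ _ _ => ⟨Nat.zero_le _, by omega⟩) hj
  have key : Pz K α (· ≤ D0 Λ Y) a a' j =
      ∑ m ∈ Icc 1 (X1 Λ Y), ∑ e ∈ Icc 1 (X1 Λ Y), ∑ r ∈ Icc 1 (X1 Λ Y), ∑ f ∈ Icc 1 (X1 Λ Y),
        ∑ κ ∈ Icc 1 (X1 Λ Y), if m * e * (r * f * κ) ∈ Ioc (X0 Λ Y) j ∧ adm2 Λ Y (r * f) κ ∧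
          ∀ _i : Fin 4, 0 < 1 then (if m * e ≤ D0 Λ Y then a m * (mu' Λ Y e : ℂ) else 0) *
            (if f = 1 then a' r else 0) * K.D α (m * e * (r * f * κ)) else 0 := by
    unfold Pz
    refine sum_congr rfl fun m _ => ?_
    rw [sum_comm]
    refine sum_congr rfl fun e he => sum_congr rfl fun r _ => ?_
    symm
    rw [sum_eq_single_of_mem 1 (mem_Icc.2 ⟨le_rfl, hX⟩)]
    · symm
      refine sum_congr rfl fun κ _ => ?_
      have e1 : m * r * (e * κ) = m * e * (r * κ) := by ring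
      rw [mul_one, e1, if_pos rfl]
      by_cases hI : m * e * (r * κ) ∈ Ioc (X0 Λ Y) j
      · by_cases hD : m * e ≤ D0 Λ Y
        · rw [if_pos ⟨hI, hD⟩, if_pos hD]
          by_cases ham : a m = 0
          · simp [ham]
          by_cases har : a' r = 0
          · simp [har]
          have had : adm2 Λ Y r κ := PAE.adm hB hρ (hm m ham).2 (hr r har) (mem_Icc.1 he).1 hD
            (mem_Ioc.1 hI).1 ((mem_Ioc.1 hI).2.trans hj)
          rw [if_pos ⟨hI, had, fun _ => Nat.one_pos⟩]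
          ring
        · rw [if_neg fun h => hD h.2, if_neg hD]
          simp
      · rw [if_neg fun h => hI h.1, if_neg fun h => hI h.1]
    · intro f _ hf
      refine sum_eq_zero fun κ _ => ?_
      rw [if_neg hf]
      simp
  rw [key]
  refine le_trans ?_ h
  exact mul_le_mul_of_nonneg_left (pow_le_pow_right₀ hY (by norm_num)) (norm_nonneg _)

end Pool.Agent.Lib.AP
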