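import Pool.Agent.Lib.AP.Blue2

/-! The thin range of the peeling. -/

open Finset Classical

noncomputable section

namespace Pool.Agent.Lib.AP

namespace PB1

def uu (X A B : ℕ) : Fin 4 → ℕ → ℕ → ℕ :=
  ![fun _ e => 2 * X - (if e = 1 then X + 1 else e.minFac),
    fun m e => min (A / (m * e)) (2 * X), fun m e => 2 * X - B / (m * e),
    fun m e => min (A / (m * e)) (2 * X)]

def vv (X : ℕ) : Fin 4 → ℕ → ℕ → ℕ :=
  ![fun _ f => 2 * X - pmax f, fun _ f => min (pmax f) (2 * X),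
    fun _ f => min (2 * X + 1 - f) (2 * X), fun _ f => min (pmax f) (2 * X)]

theorem bd (X A B : ℕ) (i : Fin 4) (x y : ℕ) : uu X A B i x y ≤ 2 * X ∧ vv X i x y ≤ 2 * X := by
  fin_cases i <;> simp [uu, vv]

theorem pmax_le (f : ℕ) : pmax f ≤ f := by
  unfold pmax
  refine Finset.sup_le fun p hp => ?_
  exact Nat.le_of_mem_primeFactors hp

theorem cross (hS : St_SPL) (X A B m e r f : ℕ) (hm : 0 < m) (he : 0 < e) (heX : e ≤ X)
    (hf : 0 < f) (hfX : f ≤ X) :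
    (∀ i, uu X A B i m e < vv X i r f) ↔
      above e f ∧ A < m * e * pmax f ∧ m * (e * f) ≤ B := by
  have hp := pmax_le f
  have hme : 0 < m * e := Nat.mul_pos hm he
  have h0 : (2 * X - (if e = 1 then X + 1 else e.minFac) < 2 * X - pmax f) ↔ above e f := by
    by_cases h1 : e = 1
    · subst h1
      simp only [if_true]
      constructor
      · intro _ p hp
        simp at hp
      · intro _
        omega
    · have hl : e.minFac ≤ e := Nat.minFac_le he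
      rw [if_neg h1, hS.min e f (by omega)]
      omega
  have h1 : (min (A / (m * e)) (2 * X) < min (pmax f) (2 * X)) ↔ A < m * e * pmax f := by
    rw [mul_comm (m * e) (pmax f), ← Nat.div_lt_iff_lt_mul hme]
    omega
  have h2 : (2 * X - B / (m * e) < min (2 * X + 1 - f) (2 * X)) ↔ m * (e * f) ≤ B := by
    rw [← mul_assoc, mul_comm (m * e) f, ← Nat.le_div_iff_mul_le hme]
    omega
  rw [← h0, ← h1, ← h2]
  constructor
  · intro h
    exact ⟨h 0, h 1, h 2⟩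
  · rintro ⟨a, b, c⟩ i
    fin_cases i
    · exact a
    · exact b
    · exact c
    · exact b

theorem one_le {Λ : ℕ} {Y : ℝ} (hB : Big Λ Y) : 1 ≤ Y :=
  le_trans (one_le_pow₀ (by norm_num)) hB.two

theorem le_D0 {Λ : ℕ} {Y : ℝ} (hB : Big Λ Y) {a a' : ℕ → ℂ} (hH : HD Λ Y a a' ∨ HE Λ Y a a')
    {m : ℕ} (hm : a m ≠ 0) : m ≤ D0 Λ Y := by
  rcases hH with h | ⟨μ, ρ, h1, -, h3, -⟩
  · exact h.1 m hm
  · have hY := one_le hB
    have hl := hB.lam
    apply Nat.le_floor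
    rw [le_div_iff₀ (by positivity)]
    calc (m : ℝ) * Y ^ 1000 ≤ Y ^ μ * Y ^ 1000 := by gcongr; exact (h3 m hm).1
      _ = Y ^ (μ + 1000) := (pow_add _ _ _).symm
      _ ≤ Y ^ (180 * Λ) := pow_le_pow_right₀ hY (by omega)

end PB1

open PB1 in
theorem st_PB1 (hE : St_EII) (hS : St_SPL) (hA : St_ADM1) (hG : St_GCD) : St_PB1 := by
  intro Λ Y α q K hB hD a a' j ha ha' hj hH
  have hY := one_le hB
  have hmu : ∀ e, ‖(mu' Λ Y e : ℂ)‖ ≤ 1 := fun e => by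
    rw [Complex.norm_intCast]
    exact_mod_cast (hS.sq Λ Y e).1
  have key := hE Λ Y α q K hB hD
    (fun m e => if m * e ≤ D0 Λ Y then a m * (mu' Λ Y e : ℂ) else 0)
    (fun r f => a' r * (mu' Λ Y f : ℂ)) (uu (X1 Λ Y) (D0 Λ Y) (D1 Λ Y)) (vv (X1 Λ Y)) j
    (fun m e => by
      split_ifs
      · rw [norm_mul]
        exact mul_le_one₀ (ha m) (norm_nonneg _) (hmu e)
      · simp)
    (fun r f => by
      rw [norm_mul]
      exact mul_le_one₀ (ha' r) (norm_nonneg _) (hmu f))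
    (bd _ _ _) hj
  refine le_trans ?_ key
  refine mul_le_mul (le_of_eq ?_) (pow_le_pow_right₀ hY (by norm_num)) (by positivity)
    (norm_nonneg _)
  congr 1
  unfold Pz
  refine sum_congr rfl fun m hm => ?_
  conv_rhs => rw [sum_comm]
  refine sum_congr rfl fun r hr => ?_
  have hm1 : 0 < m := (mem_Icc.1 hm).1
  have hr1 : 0 < r := (mem_Icc.1 hr).1
  set G : ℕ → ℕ → ℕ → ℂ := fun e f κ =>
    if m * e * (r * f * κ) ∈ Ioc (X0 Λ Y) j ∧ adm2 Λ Y (r * f) κ ∧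
      ∀ i, uu (X1 Λ Y) (D0 Λ Y) (D1 Λ Y) i m e < vv (X1 Λ Y) i r f then
      (if m * e ≤ D0 Λ Y then a m * (mu' Λ Y e : ℂ) else 0) * (a' r * (mu' Λ Y f : ℂ)) *
        K.D α (m * e * (r * f * κ)) else 0 with hGd
  have h1 : ∑ e ∈ Icc 1 (X1 Λ Y), ∑ f ∈ Icc 1 (X1 Λ Y), ∑ κ ∈ Icc 1 (X1 Λ Y), G e f κ =
      ∑ n ∈ Icc 1 (X1 Λ Y), col (fun e f => ∑ κ ∈ Icc 1 (X1 Λ Y), G e f κ) n := by
    rw [hG.anti]
    refine sum_congr rfl fun e he => sum_congr rfl fun f hf => ?_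
    split_ifs with h
    · rfl
    · refine sum_eq_zero fun κ hκ => ?_
      have hκ1 : 0 < κ := (mem_Icc.1 hκ).1
      refine if_neg fun hc => h ?_
      have h2 := (mem_Ioc.1 hc.1).2
      have h3 : m * e * (r * f * κ) = e * f * (m * r * κ) := by ring
      have h4 : e * f ≤ e * f * (m * r * κ) := Nat.le_mul_of_pos_right _ (by positivity)
      omega
  refine Eq.trans ?_ h1.symm
  refine sum_congr rfl fun n hn => ?_
  have hn1 : 0 < n := (mem_Icc.1 hn).1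
  have hnX : n ≤ X1 Λ Y := (mem_Icc.1 hn).2
  unfold col
  rw [sum_comm]
  refine sum_congr rfl fun κ hκ => ?_
  by_cases ham : a m = 0
  · simp [hGd, ham]
  by_cases har : a' r = 0
  · simp [hGd, har]
  have hmD := le_D0 hB hH ham
  set W : ℂ := if m * r * (n * κ) ∈ Ioc (X0 Λ Y) j ∧ m * n ≤ D1 Λ Y then
    a m * a' r * (mu' Λ Y n : ℂ) * K.D α (m * r * (n * κ)) else 0 with hW
  have h5 : ∀ x ∈ n.divisorsAntidiagonal, G x.1 x.2 κ =
      ((if above x.1 x.2 ∧ x.1 ≤ D0 Λ Y / m ∧ D0 Λ Y / m < x.1 * pmax x.2 then (1 : ℤ) else 0 : ℤ) :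
        ℂ) * W := by
    rintro ⟨e, f⟩ hx
    obtain ⟨hef, -⟩ := Nat.mem_divisorsAntidiagonal.1 hx
    simp only at hef ⊢
    have he1 : 0 < e := Nat.pos_of_ne_zero (by rintro rfl; omega)
    have hf1 : 0 < f := Nat.pos_of_ne_zero (by rintro rfl; omega)
    have heX : e ≤ X1 Λ Y := le_trans (hef ▸ Nat.le_mul_of_pos_right _ hf1) hnX
    have hfX : f ≤ X1 Λ Y := le_trans (hef ▸ Nat.le_mul_of_pos_left _ he1) hnX
    have e1 : m * e * (r * f * κ) = m * r * (n * κ) := by rw [← hef]; ring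
    have e2 : e ≤ D0 Λ Y / m ↔ m * e ≤ D0 Λ Y := by
      rw [Nat.le_div_iff_mul_le hm1, mul_comm]
    have e3 : D0 Λ Y / m < e * pmax f ↔ D0 Λ Y < m * e * pmax f := by
      rw [Nat.div_lt_iff_lt_mul hm1, mul_comm (e * pmax f) m, mul_assoc]
    simp only [hGd, hW, cross hS _ _ _ m e r f hm1 he1 heX hf1 hfX, e2, e3, hef]
    by_cases c0 : above e f
    swap
    · simp [c0]
    by_cases c1 : m * e ≤ D0 Λ Y
    swap
    · simp [c1]
    by_cases c2 : D0 Λ Y < m * e * pmax f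
    swap
    · simp [c2]
    by_cases c3 : m * n ≤ D1 Λ Y
    swap
    · simp [c3]
    by_cases c4 : m * r * (n * κ) ∈ Ioc (X0 Λ Y) j
    swap
    · rw [e1, if_neg fun h => c4 h.1, if_neg fun h : _ ∧ m * n ≤ _ => c4 h.1, mul_zero]
    have hmul : mu' Λ Y n = mu' Λ Y e * mu' Λ Y f := by
      rw [← hef]
      exact hS.mul Λ Y e f he1.ne' hf1.ne' c0
    by_cases c5 : mu' Λ Y f = 0
    · simp [hmul, c5]
    have had : adm2 Λ Y (r * f) κ := hA Λ Y hB a a' m r e f κ hH ham har he1.ne' hf1.ne'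
      ((hS.sq Λ Y f).2 c5).2 c0 c1 c2 (hef ▸ c3)
      (by rw [e1]; exact mem_Ioc.2 ⟨(mem_Ioc.1 c4).1, (mem_Ioc.1 c4).2.trans hj⟩)
    rw [e1, if_pos ⟨c4, had, c0, c2, c3⟩, if_pos c1, if_pos ⟨c0, c1, c2⟩, if_pos ⟨c4, c3⟩, hmul]
    push_cast
    ring
  rw [sum_congr rfl h5, ← sum_mul, ← Int.cast_sum]
  by_cases c6 : mu' Λ Y n = 0
  · simp [hW, c6]
  rw [hS.bot n _ ((hS.sq Λ Y n).2 c6).1 ((Nat.one_le_div_iff hm1).2 hmD)]
  have e4 : D0 Λ Y / m < n ↔ D0 Λ Y < m * n := by rw [Nat.div_lt_iff_lt_mul hm1, mul_comm]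
  simp only [e4, hW]
  by_cases c7 : D0 Λ Y < m * n <;> simp [c7]

end Pool.Agent.Lib.AP
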