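import Pool.Agent.Lib.AP.Blue2

/-! Row PB2: the part of the peeled sum beyond the thin range, reduced to the trilinear
estimate. -/

open Finset Classical

noncomputable section

namespace Pool.Agent.Lib.AP

namespace PB2

theorem split (hG : St_GCD) (W : ℕ) (F : ℕ → ℂ) (G : ℕ → ℕ → ℂ)
    (h1 : ∀ n ∈ Icc 1 W, F n = ∑ x ∈ n.divisorsAntidiagonal, G x.1 x.2)
    (h2 : ∀ x ∈ Icc 1 W, ∀ y ∈ Icc 1 W, W < x * y → G x y = 0) :
    ∑ n ∈ Icc 1 W, F n = ∑ x ∈ Icc 1 W, ∑ y ∈ Icc 1 W, G x y := by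
  have h : ∑ n ∈ Icc 1 W, F n = ∑ n ∈ Icc 1 W, col G n := sum_congr rfl h1
  rw [h, hG.anti]
  refine sum_congr rfl fun x hx => sum_congr rfl fun y hy => ?_
  split_ifs with hxy
  · rfl
  · exact (h2 x hx y hy (not_le.1 hxy)).symm

theorem reorder (s : Finset ℕ) (G : ℕ → ℕ → ℕ → ℕ → ℕ → ℂ) :
    ∑ r ∈ s, ∑ k ∈ s, ∑ f ∈ s, ∑ e ∈ s, ∑ v ∈ s, G r k f e v =
      ∑ e ∈ s, ∑ v ∈ s, ∑ r ∈ s, ∑ f ∈ s, ∑ k ∈ s, G r k f e v := by
  calc ∑ r ∈ s, ∑ k ∈ s, ∑ f ∈ s, ∑ e ∈ s, ∑ v ∈ s, G r k f e v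
      = ∑ r ∈ s, ∑ f ∈ s, ∑ k ∈ s, ∑ e ∈ s, ∑ v ∈ s, G r k f e v :=
        sum_congr rfl fun r _ => sum_comm
    _ = ∑ r ∈ s, ∑ e ∈ s, ∑ f ∈ s, ∑ k ∈ s, ∑ v ∈ s, G r k f e v :=
        sum_congr rfl fun r _ => sum_comm_cycle
    _ = ∑ e ∈ s, ∑ r ∈ s, ∑ f ∈ s, ∑ k ∈ s, ∑ v ∈ s, G r k f e v := sum_comm
    _ = ∑ e ∈ s, ∑ r ∈ s, ∑ v ∈ s, ∑ f ∈ s, ∑ k ∈ s, G r k f e v :=
        sum_congr rfl fun e _ => sum_congr rfl fun r _ => sum_comm_cycle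
    _ = ∑ e ∈ s, ∑ v ∈ s, ∑ r ∈ s, ∑ f ∈ s, ∑ k ∈ s, G r k f e v :=
        sum_congr rfl fun e _ => sum_comm

theorem card_anti (n : ℕ) : n.divisorsAntidiagonal.card = n.divisors.card := by
  rw [← Nat.map_div_right_divisors, card_map]

theorem pmax_le (x : ℕ) : pmax x ≤ x :=
  Finset.sup_le fun _ hp => Nat.le_of_mem_primeFactors hp

theorem pmax_one : pmax 1 = 0 := by simp [pmax]

variable {Λ : ℕ} {Y : ℝ}

theorem two_le (hB : Big Λ Y) : 2 ≤ Y := by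
  refine le_trans ?_ hB.two
  calc (2 : ℝ) = 2 ^ 1 := by norm_num
    _ ≤ 2 ^ (300 * Λ) := pow_le_pow_right₀ (by norm_num) (by have := hB.lam; omega)

theorem D01 (hB : Big Λ Y) : D0 Λ Y ≤ D1 Λ Y := by
  have h1 : 1 ≤ Y := le_trans (by norm_num) (two_le hB)
  refine Nat.floor_le_floor ?_
  exact le_trans (div_le_self (by positivity) (one_le_pow₀ h1))
    (pow_le_pow_right₀ h1 (by omega))

theorem D1X (hB : Big Λ Y) : D1 Λ Y ≤ X1 Λ Y := by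
  have h1 : 1 ≤ Y := le_trans (by norm_num) (two_le hB)
  exact Nat.floor_le_floor (pow_le_pow_right₀ h1 (by have := hB.lam; omega))

theorem tau (hB : Big Λ Y) {n : ℕ} (hn : n ≤ X1 Λ Y) : (n.divisors.card : ℝ) ≤ Y := by
  have h1 : 1 ≤ Y := le_trans (by norm_num) (two_le hB)
  refine hB.div n (le_trans (Nat.cast_le.2 hn) ?_)
  exact le_trans (Nat.floor_le (by positivity))
    (pow_le_pow_right₀ h1 (by have := hB.lam; omega))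

/-- least prime factor, large for `1` -/
def Pm (W e : ℕ) : ℕ := if e = 1 then W + 1 else e.minFac

def uu (Λ : ℕ) (Y : ℝ) : Fin 4 → ℕ → ℕ → ℕ := fun i m e =>
  ![2 * X1 Λ Y - Pm (X1 Λ Y) e, D0 Λ Y / (m * e), D1 Λ Y / (m * e),
    2 * X1 Λ Y - 1 - D1 Λ Y / (m * e)] i

def vv (Λ : ℕ) (Y : ℝ) : Fin 4 → ℕ → ℕ → ℕ := fun i x _ =>
  ![2 * X1 Λ Y - pmax x, min (pmax x) (2 * X1 Λ Y), min x (2 * X1 Λ Y),
    2 * X1 Λ Y - x / x.minFac] i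

theorem uv_le (hB : Big Λ Y) (i : Fin 4) (x y : ℕ) :
    uu Λ Y i x y ≤ 2 * X1 Λ Y ∧ vv Λ Y i x y ≤ 2 * X1 Λ Y := by
  have h0 := D01 hB
  have h1 := D1X hB
  have a0 : D0 Λ Y / (x * y) ≤ D0 Λ Y := Nat.div_le_self _ _
  have a1 : D1 Λ Y / (x * y) ≤ D1 Λ Y := Nat.div_le_self _ _
  have a2 : D0 Λ Y / (x * y) ≤ 2 * X1 Λ Y := by omega
  have a3 : D1 Λ Y / (x * y) ≤ 2 * X1 Λ Y := by omega
  fin_cases i
  · exact ⟨Nat.sub_le _ _, Nat.sub_le _ _⟩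
  · exact ⟨a2, min_le_right _ _⟩
  · exact ⟨a3, min_le_right _ _⟩
  · exact ⟨le_trans (Nat.sub_le _ _) (Nat.sub_le _ _), Nat.sub_le _ _⟩

/-- the four cross conditions -/
def CR (Λ : ℕ) (Y : ℝ) (m e v : ℕ) : Prop :=
  above e v ∧ D0 Λ Y < m * e * pmax v ∧ D1 Λ Y < m * e * v ∧ m * e * (v / v.minFac) ≤ D1 Λ Y

theorem uv_iff (hS : St_SPL) (hB : Big Λ Y) {m e v : ℕ} (y : ℕ) (hm : 1 ≤ m)
    (he : e ∈ Icc 1 (X1 Λ Y)) (hv : v ∈ Icc 1 (X1 Λ Y)) :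
    (∀ i, uu Λ Y i m e < vv Λ Y i v y) ↔ CR Λ Y m e v := by
  unfold CR
  rw [mem_Icc] at he hv
  have h1 := D1X hB
  have hme : 0 < m * e := Nat.mul_pos hm he.1
  have a1 : D1 Λ Y / (m * e) ≤ D1 Λ Y := Nat.div_le_self _ _
  have a2 := pmax_le v
  have a3 : v / v.minFac ≤ v := Nat.div_le_self _ _
  have b0 : above e v ↔ pmax v < Pm (X1 Λ Y) e := by
    unfold Pm
    split_ifs with h
    · subst h
      simp only [above, Nat.primeFactors_one, notMem_empty, false_imp_iff, implies_true, true_iff]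
      omega
    · exact hS.min e v (by omega)
  have b00 : Pm (X1 Λ Y) e ≤ 2 * X1 Λ Y := by
    unfold Pm
    split_ifs with h
    · omega
    · have := Nat.minFac_le he.1
      omega
  have b1 : D0 Λ Y < m * e * pmax v ↔ D0 Λ Y / (m * e) < pmax v := by
    rw [Nat.div_lt_iff_lt_mul hme, mul_comm (pmax v)]
  have b2 : D1 Λ Y < m * e * v ↔ D1 Λ Y / (m * e) < v := by
    rw [Nat.div_lt_iff_lt_mul hme, mul_comm v]
  have b3 : m * e * (v / v.minFac) ≤ D1 Λ Y ↔ v / v.minFac ≤ D1 Λ Y / (m * e) := by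
    rw [Nat.le_div_iff_mul_le hme, mul_comm (v / v.minFac)]
  rw [b0, b1, b2, b3, Fin.forall_fin_succ, Fin.forall_fin_succ, Fin.forall_fin_succ,
    Fin.forall_fin_one]
  simp only [uu, vv, Matrix.cons_val_zero, Matrix.cons_val_succ]
  omega

/-- the inner coefficient -/
def ci (Λ : ℕ) (Y : ℝ) (x f : ℕ) : ℂ := if pmax f < x.minFac then (mu' Λ Y f : ℂ) else 0

/-- the right-hand coefficient before normalisation -/
def cc (Λ : ℕ) (Y : ℝ) (a' : ℕ → ℂ) (x y : ℕ) : ℂ :=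
  if adm3 Λ Y x y ∧ y ≤ X1 Λ Y then
    (mu' Λ Y x : ℂ) * col (fun r s => a' r * col (fun f _ => ci Λ Y x f) s) y else 0

def aa (Λ : ℕ) (Y : ℝ) (a : ℕ → ℂ) (m e : ℕ) : ℂ :=
  if m * e ≤ D0 Λ Y then a m * (mu' Λ Y e : ℂ) else 0

theorem mu_norm (hS : St_SPL) (e : ℕ) : ‖(mu' Λ Y e : ℂ)‖ ≤ 1 := by
  rw [Complex.norm_intCast]
  exact_mod_cast (hS.sq Λ Y e).1

theorem aa_norm (hS : St_SPL) {a : ℕ → ℂ} (ha : ∀ m, ‖a m‖ ≤ 1) (m e : ℕ) :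
    ‖aa Λ Y a m e‖ ≤ 1 := by
  unfold aa
  split_ifs
  · rw [norm_mul]
    exact mul_le_one₀ (ha m) (norm_nonneg _) (mu_norm hS e)
  · simp

theorem cc_norm (hG : St_GCD) (hS : St_SPL) (hB : Big Λ Y) {a' : ℕ → ℂ} (ha : ∀ m, ‖a' m‖ ≤ 1)
    (x y : ℕ) : ‖cc Λ Y a' x y‖ ≤ Y ^ 2 := by
  have h2 := two_le hB
  unfold cc
  split_ifs with h
  · have hci : ∀ f κ : ℕ, ‖(fun f (_ : ℕ) => ci Λ Y x f) f κ‖ ≤ 1 := by
      intro f κ
      simp only [ci]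
      split_ifs
      · exact mu_norm hS f
      · simp
    have h1 : ‖col (fun r s => a' r * col (fun f _ => ci Λ Y x f) s) y‖ ≤ Y * Y := by
      refine le_trans (norm_sum_le _ _) ?_
      refine le_trans (sum_le_card_nsmul _ _ Y fun z hz => ?_) ?_
      · rw [norm_mul]
        have hz2 : z.2 ≤ X1 Λ Y :=
          le_trans (Nat.divisor_le (Nat.snd_mem_divisors_of_mem_antidiagonal hz)) h.2
        have := le_trans (hG.col _ z.2 hci) (tau hB hz2)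
        calc _ ≤ 1 * Y := mul_le_mul (ha _) this (norm_nonneg _) zero_le_one
          _ = Y := one_mul _
      · rw [nsmul_eq_mul, card_anti]
        exact mul_le_mul_of_nonneg_right (tau hB h.2) (by linarith)
    rw [norm_mul]
    calc _ ≤ 1 * (Y * Y) := mul_le_mul (mu_norm hS x) h1 (norm_nonneg _) zero_le_one
      _ = Y ^ 2 := by ring
  · simp only [norm_zero]; positivity

section terms

variable (K : Ker Λ Y) (α : ℝ) (a a' : ℕ → ℂ) (j : ℕ)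

def T0' (m r κ e : ℕ) : ℂ :=
  if m * r * (e * κ) ∈ Ioc (X0 Λ Y) j ∧ D1 Λ Y < m * e then
    a m * a' r * (mu' Λ Y e : ℂ) * K.D α (m * r * (e * κ)) else 0

def T1' (m r κ f f2 : ℕ) : ℂ :=
  if above f f2 ∧ D1 Λ Y / m < f ∧ f / f.minFac ≤ D1 Λ Y / m then
    T0' K α a a' j m r κ (f * f2) else 0

def T2' (m r κ f2 e v : ℕ) : ℂ :=
  if above e v ∧ e ≤ D0 Λ Y / m ∧ D0 Λ Y / m < e * pmax v then
    T1' K α a a' j m r κ (e * v) f2 else 0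

def T3' (m e v r f2 κ : ℕ) : ℂ :=
  if m * e * (v * (r * (f2 * κ))) ∈ Ioc (X0 Λ Y) j ∧ CR Λ Y m e v ∧
      adm3 Λ Y v (r * (f2 * κ)) then
    aa Λ Y a m e * ((mu' Λ Y v : ℂ) * (a' r * ci Λ Y v f2)) *
      K.D α (m * e * (v * (r * (f2 * κ)))) else 0

variable {K α a a' j}

theorem T0_ne {m r κ e : ℕ} (h : T0' K α a a' j m r κ e ≠ 0) :
    m * r * (e * κ) ∈ Ioc (X0 Λ Y) j ∧ D1 Λ Y < m * e ∧ a m ≠ 0 ∧ mu' Λ Y e ≠ 0 := by
  unfold T0' at h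
  split_ifs at h with hc
  · refine ⟨hc.1, hc.2, ?_, ?_⟩
    · rintro h0; simp [h0] at h
    · rintro h0; simp [h0] at h
  · exact absurd rfl h

theorem T0_big (hj : j ≤ X1 Λ Y) {m r κ e : ℕ} (hm : 1 ≤ m) (hr : 1 ≤ r) (hκ : 1 ≤ κ)
    (he : X1 Λ Y < e) : T0' K α a a' j m r κ e = 0 := by
  by_contra h
  have h1 := (mem_Ioc.1 (T0_ne h).1).2
  have : e ≤ m * r * (e * κ) :=
    le_trans (Nat.le_mul_of_pos_right e hκ) (Nat.le_mul_of_pos_left _ (Nat.mul_pos hm hr))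
  omega

theorem step1 (hS : St_SPL) (hB : Big Λ Y) (ha : ∀ m, a m ≠ 0 → m ≤ D0 Λ Y) {m : ℕ} (hm : 1 ≤ m)
    (r κ e : ℕ) : T0' K α a a' j m r κ e =
      ∑ x ∈ e.divisorsAntidiagonal, T1' K α a a' j m r κ x.1 x.2 := by
  have h1 : ∑ x ∈ e.divisorsAntidiagonal, T1' K α a a' j m r κ x.1 x.2 =
      ((∑ x ∈ e.divisorsAntidiagonal, (if above x.1 x.2 ∧ D1 Λ Y / m < x.1 ∧
        x.1 / x.1.minFac ≤ D1 Λ Y / m then (1 : ℤ) else 0) : ℤ) : ℂ) * T0' K α a a' j m r κ e := by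
    rw [Int.cast_sum, sum_mul]
    refine sum_congr rfl fun x hx => ?_
    unfold T1'
    rw [(Nat.mem_divisorsAntidiagonal.1 hx).1]
    split_ifs <;> simp
  rw [h1]
  by_cases h : T0' K α a a' j m r κ e = 0
  · rw [h, mul_zero]
  · obtain ⟨-, h2, h3, h4⟩ := T0_ne h
    have hB1 : 1 ≤ D1 Λ Y / m := by
      rw [Nat.le_div_iff_mul_le hm, one_mul]
      exact le_trans (ha m h3) (D01 hB)
    rw [hS.top e _ ((hS.sq Λ Y e).2 h4).1 hB1,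
      if_pos (by rw [Nat.div_lt_iff_lt_mul hm, mul_comm]; exact h2)]
    simp

theorem T1_ne {m r κ f f2 : ℕ} (h : T1' K α a a' j m r κ f f2 ≠ 0) :
    (above f f2 ∧ D1 Λ Y / m < f ∧ f / f.minFac ≤ D1 Λ Y / m) ∧
      T0' K α a a' j m r κ (f * f2) ≠ 0 := by
  unfold T1' at h
  split_ifs at h with hc
  · exact ⟨hc, h⟩
  · exact absurd rfl h

theorem step2 (hS : St_SPL) (hB : Big Λ Y) (ha : ∀ m, a m ≠ 0 → m ≤ D0 Λ Y) {m : ℕ} (hm : 1 ≤ m)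
    (r κ f2 f : ℕ) : T1' K α a a' j m r κ f f2 =
      ∑ x ∈ f.divisorsAntidiagonal, T2' K α a a' j m r κ f2 x.1 x.2 := by
  have h1 : ∑ x ∈ f.divisorsAntidiagonal, T2' K α a a' j m r κ f2 x.1 x.2 =
      ((∑ x ∈ f.divisorsAntidiagonal, (if above x.1 x.2 ∧ x.1 ≤ D0 Λ Y / m ∧
        D0 Λ Y / m < x.1 * pmax x.2 then (1 : ℤ) else 0) : ℤ) : ℂ) *
          T1' K α a a' j m r κ f f2 := by
    rw [Int.cast_sum, sum_mul]
    refine sum_congr rfl fun x hx => ?_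
    unfold T2'
    rw [(Nat.mem_divisorsAntidiagonal.1 hx).1]
    split_ifs <;> simp
  rw [h1]
  by_cases h : T1' K α a a' j m r κ f f2 = 0
  · rw [h, mul_zero]
  · obtain ⟨⟨-, g2, -⟩, g4⟩ := T1_ne h
    obtain ⟨-, -, h3, h4⟩ := T0_ne g4
    have hB0 : 1 ≤ D0 Λ Y / m := by
      rw [Nat.le_div_iff_mul_le hm, one_mul]
      exact ha m h3
    have hsq : Squarefree f := ((hS.sq Λ Y _).2 h4).1.of_mul_left
    rw [hS.bot f _ hsq hB0, if_pos (lt_of_le_of_lt (Nat.div_le_div_right (D01 hB)) g2)]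
    simp

theorem step3 (hS : St_SPL) (hA : St_ADM2) (hB : Big Λ Y) (hj : j ≤ X1 Λ Y) {m e v r f2 κ : ℕ}
    (hm : 1 ≤ m) (he : e ∈ Icc 1 (X1 Λ Y)) (hv : v ∈ Icc 1 (X1 Λ Y)) (hf : 1 ≤ f2) :
    T2' K α a a' j m r κ f2 e v = T3' K α a a' j m e v r f2 κ := by
  have he1 := (mem_Icc.1 he).1
  have e1 : m * r * (e * v * f2 * κ) = m * e * (v * (r * (f2 * κ))) := by ring
  have c1 : e ≤ D0 Λ Y / m ↔ m * e ≤ D0 Λ Y := by rw [Nat.le_div_iff_mul_le hm, mul_comm]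
  have c2 : D0 Λ Y / m < e * pmax v ↔ D0 Λ Y < m * e * pmax v := by
    rw [Nat.div_lt_iff_lt_mul hm, mul_comm _ m, mul_assoc]
  have c3 : D1 Λ Y / m < e * v ↔ D1 Λ Y < m * e * v := by
    rw [Nat.div_lt_iff_lt_mul hm, mul_comm _ m, mul_assoc]
  unfold T2' T3' CR
  simp only [c1, c2]
  by_cases h1 : above e v
  swap
  · simp [h1]
  by_cases h2 : m * e ≤ D0 Λ Y
  swap
  · simp [h2, aa]
  by_cases h3 : D0 Λ Y < m * e * pmax v
  swap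
  · simp [h3]
  have hv1 : 1 < v := by
    have hv0 := (mem_Icc.1 hv).1
    by_contra hc
    have : v = 1 := by omega
    rw [this, pmax_one] at h3
    omega
  obtain ⟨t1, t2⟩ := hS.three e v f2 (by omega) hv1 (by omega) h1
  have c4 : e * v / (e * v).minFac ≤ D1 Λ Y / m ↔ m * e * (v / v.minFac) ≤ D1 Λ Y := by
    rw [t1, Nat.mul_div_assoc e (Nat.minFac_dvd v), Nat.le_div_iff_mul_le hm, mul_comm _ m,
      mul_assoc]
  rw [if_pos ⟨h1, h2, h3⟩]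
  unfold T1' T0' aa ci
  simp only [c3, c4, t2, e1]
  rw [if_pos h2]
  by_cases h4 : D1 Λ Y < m * e * v
  swap
  · simp [h4]
  by_cases h5 : m * e * (v / v.minFac) ≤ D1 Λ Y
  swap
  · simp [h5]
  by_cases h6 : pmax f2 < v.minFac
  swap
  · simp [h6]
  by_cases h7 : m * e * (v * (r * (f2 * κ))) ∈ Ioc (X0 Λ Y) j
  swap
  · simp only [h7, false_and, if_false, ite_self]
  have h8 : D1 Λ Y < m * (e * v * f2) := by
    refine lt_of_lt_of_le h4 ?_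
    rw [← mul_assoc, ← mul_assoc]
    exact Nat.le_mul_of_pos_right _ hf
  have hmu : mu' Λ Y (e * v * f2) = mu' Λ Y e * mu' Λ Y v * mu' Λ Y f2 := by
    rw [hS.mul Λ Y (e * v) f2 (Nat.mul_ne_zero (by omega) (by omega)) (by omega) (t2.2 h6),
      hS.mul Λ Y e v (by omega) (by omega) h1]
  rw [if_pos ⟨h6, h4, h5⟩, if_pos ⟨h7, h8⟩, if_pos h6, hmu]
  by_cases h9 : mu' Λ Y v = 0
  · simp [h9]
  have had : adm3 Λ Y v (r * (f2 * κ)) :=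
    hA Λ Y hB (m * e) v _ ((hS.sq Λ Y v).2 h9).2 hv1 h2 h3 h4 h5
      (mem_Ioc.2 ⟨(mem_Ioc.1 h7).1, le_trans (mem_Ioc.1 h7).2 hj⟩)
  rw [if_pos ⟨h7, ⟨h1, h3, h4, h5⟩, had⟩]
  push_cast
  ring

theorem T3_big (hj : j ≤ X1 Λ Y) {m e v r f2 κ : ℕ} (hm : 1 ≤ m) (he : 1 ≤ e) (hv : 1 ≤ v)
    (h : X1 Λ Y < r * (f2 * κ)) : T3' K α a a' j m e v r f2 κ = 0 := by
  unfold T3'
  refine if_neg fun hc => ?_
  have h1 := (mem_Ioc.1 hc.1).2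
  have : r * (f2 * κ) ≤ m * e * (v * (r * (f2 * κ))) :=
    le_trans (Nat.le_mul_of_pos_left _ hv) (Nat.le_mul_of_pos_left _ (Nat.mul_pos hm he))
  omega

theorem right (hG : St_GCD) (hS : St_SPL) (hB : Big Λ Y) (hj : j ≤ X1 Λ Y) {m e v : ℕ}
    (hm : 1 ≤ m) (he' : e ∈ Icc 1 (X1 Λ Y)) (hv' : v ∈ Icc 1 (X1 Λ Y)) :
    ∑ y ∈ Icc 1 (X1 Λ Y), (if m * e * (v * y) ∈ Ioc (X0 Λ Y) j ∧
      ∀ i, uu Λ Y i m e < vv Λ Y i v y then
        aa Λ Y a m e * cc Λ Y a' v y * K.D α (m * e * (v * y)) else 0) =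
    ∑ r ∈ Icc 1 (X1 Λ Y), ∑ f2 ∈ Icc 1 (X1 Λ Y), ∑ κ ∈ Icc 1 (X1 Λ Y),
      T3' K α a a' j m e v r f2 κ := by
  have he := (mem_Icc.1 he').1
  have hv := (mem_Icc.1 hv').1
  rw [split hG (X1 Λ Y) _ (fun r s => ∑ z ∈ s.divisorsAntidiagonal,
    T3' K α a a' j m e v r z.1 z.2)]
  · refine sum_congr rfl fun r hr => split hG _ _ _ (fun _ _ => rfl) fun x _ y _ h => ?_
    exact T3_big hj hm he hv (lt_of_lt_of_le h (Nat.le_mul_of_pos_left _ (mem_Icc.1 hr).1))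
  · intro y hy
    have hvv := uv_iff hS hB y hm he' hv'
    have key : ∀ w ∈ y.divisorsAntidiagonal, ∀ z ∈ w.2.divisorsAntidiagonal,
        T3' K α a a' j m e v w.1 z.1 z.2 = if m * e * (v * y) ∈ Ioc (X0 Λ Y) j ∧
          CR Λ Y m e v ∧ adm3 Λ Y v y then
        aa Λ Y a m e * ((mu' Λ Y v : ℂ) * (a' w.1 * ci Λ Y v z.1)) *
          K.D α (m * e * (v * y)) else 0 := by
      intro w hw z hz
      unfold T3'
      rw [(Nat.mem_divisorsAntidiagonal.1 hz).1, (Nat.mem_divisorsAntidiagonal.1 hw).1]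
    rw [sum_congr rfl fun w hw => sum_congr rfl (key w hw)]
    simp only [hvv]
    unfold cc col
    by_cases h1 : m * e * (v * y) ∈ Ioc (X0 Λ Y) j ∧ CR Λ Y m e v
    · by_cases h2 : adm3 Λ Y v y
      · rw [if_pos h1, if_pos ⟨h2, (mem_Icc.1 hy).2⟩]
        simp only [if_pos (And.intro h1.1 (And.intro h1.2 h2)), mul_sum, sum_mul]
      · simp [h2]
    · rw [if_neg h1]
      refine (sum_eq_zero fun w _ => sum_eq_zero fun z _ => if_neg fun hc => ?_).symm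
      exact h1 ⟨hc.1, hc.2.1⟩
  · intro r hr s _ h
    refine sum_eq_zero fun z hz => T3_big hj hm he hv ?_
    rw [(Nat.mem_divisorsAntidiagonal.1 hz).1]
    exact h

theorem left (hG : St_GCD) (hS : St_SPL) (hB : Big Λ Y) (hj : j ≤ X1 Λ Y)
    (ha : ∀ m, a m ≠ 0 → m ≤ D0 Λ Y) {m r κ : ℕ} (hm : 1 ≤ m) (hr : 1 ≤ r) (hκ : 1 ≤ κ) :
    ∑ e ∈ Icc 1 (X1 Λ Y), T0' K α a a' j m r κ e =
      ∑ f2 ∈ Icc 1 (X1 Λ Y), ∑ e ∈ Icc 1 (X1 Λ Y), ∑ v ∈ Icc 1 (X1 Λ Y),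
        T2' K α a a' j m r κ f2 e v := by
  rw [split hG (X1 Λ Y) _ (T1' K α a a' j m r κ) (fun e _ => step1 hS hB ha hm r κ e), sum_comm]
  · refine sum_congr rfl fun f2 hf2 => split hG _ _ _
      (fun f _ => step2 hS hB ha hm r κ f2 f) fun x _ y _ h => ?_
    unfold T2' T1'
    rw [T0_big hj hm hr hκ
      (lt_of_lt_of_le h (Nat.le_mul_of_pos_right _ (mem_Icc.1 hf2).1)), ite_self, ite_self]
  · intro x _ y _ h
    unfold T1'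
    rw [T0_big hj hm hr hκ h, ite_self]

theorem pz_eq (hG : St_GCD) (hS : St_SPL) (hA : St_ADM2) (hB : Big Λ Y) (hj : j ≤ X1 Λ Y)
    (ha : ∀ m, a m ≠ 0 → m ≤ D0 Λ Y) : Pz K α (D1 Λ Y < ·) a a' j =
    ∑ m ∈ Icc 1 (X1 Λ Y), ∑ e ∈ Icc 1 (X1 Λ Y), ∑ x ∈ Icc 1 (X1 Λ Y), ∑ y ∈ Icc 1 (X1 Λ Y),
      if m * e * (x * y) ∈ Ioc (X0 Λ Y) j ∧ ∀ i, uu Λ Y i m e < vv Λ Y i x y then
        aa Λ Y a m e * cc Λ Y a' x y * K.D α (m * e * (x * y)) else 0 := by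
  unfold Pz
  refine sum_congr rfl fun m hm => ?_
  have hm1 := (mem_Icc.1 hm).1
  calc _ = ∑ r ∈ Icc 1 (X1 Λ Y), ∑ κ ∈ Icc 1 (X1 Λ Y), ∑ e ∈ Icc 1 (X1 Λ Y),
        T0' K α a a' j m r κ e := by
        refine sum_congr rfl fun r _ => ?_
        rw [sum_comm]
        refine sum_congr rfl fun κ _ => sum_congr rfl fun e _ => ?_
        unfold T0'
        congr
    _ = ∑ r ∈ Icc 1 (X1 Λ Y), ∑ κ ∈ Icc 1 (X1 Λ Y), ∑ f2 ∈ Icc 1 (X1 Λ Y),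
        ∑ e ∈ Icc 1 (X1 Λ Y), ∑ v ∈ Icc 1 (X1 Λ Y), T2' K α a a' j m r κ f2 e v :=
        sum_congr rfl fun r hr => sum_congr rfl fun κ hκ =>
          left hG hS hB hj ha hm1 (mem_Icc.1 hr).1 (mem_Icc.1 hκ).1
    _ = ∑ e ∈ Icc 1 (X1 Λ Y), ∑ v ∈ Icc 1 (X1 Λ Y), ∑ r ∈ Icc 1 (X1 Λ Y),
        ∑ f2 ∈ Icc 1 (X1 Λ Y), ∑ κ ∈ Icc 1 (X1 Λ Y), T2' K α a a' j m r κ f2 e v :=
        reorder _ _
    _ = _ := by
        refine sum_congr rfl fun e he => sum_congr rfl fun v hv => ?_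
        rw [right hG hS hB hj hm1 he hv]
        exact sum_congr rfl fun r _ => sum_congr rfl fun f2 hf => sum_congr rfl fun κ _ =>
          step3 hS hA hB hj hm1 he hv (mem_Icc.1 hf).1

end terms

end PB2

open PB2 in
theorem st_PB2 (hG : St_GCD) (hE : St_ET3) (hS : St_SPL) (hA : St_ADM2) : St_PB2 := by
  intro Λ Y α q K hB hD a a' j ha ha' hj h0
  have h2 := two_le hB
  have hY : (0 : ℝ) < Y ^ 2 := by positivity
  have hYc : ((Y ^ 2 : ℝ) : ℂ) ≠ 0 := by exact_mod_cast hY.ne'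
  have h := hE Λ Y α q K hB hD (aa Λ Y a) (fun x y => cc Λ Y a' x y / ((Y ^ 2 : ℝ) : ℂ))
    (uu Λ Y) (vv Λ Y) j (aa_norm hS ha) (fun x y => by
      rw [norm_div, Complex.norm_real, Real.norm_of_nonneg hY.le, div_le_one hY]
      exact cc_norm hG hS hB ha' x y) (fun x y hxy => by
      by_contra hc
      apply hxy
      simp [cc, hc]) (uv_le hB) hj
  have e : Pz K α (D1 Λ Y < ·) a a' j = ((Y ^ 2 : ℝ) : ℂ) *
      ∑ m ∈ Icc 1 (X1 Λ Y), ∑ e ∈ Icc 1 (X1 Λ Y), ∑ x ∈ Icc 1 (X1 Λ Y), ∑ y ∈ Icc 1 (X1 Λ Y),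
      if m * e * (x * y) ∈ Ioc (X0 Λ Y) j ∧ ∀ i, uu Λ Y i m e < vv Λ Y i x y then
        aa Λ Y a m e * (cc Λ Y a' x y / ((Y ^ 2 : ℝ) : ℂ)) * K.D α (m * e * (x * y)) else 0 := by
    rw [pz_eq hG hS hA hB hj h0]
    simp only [mul_sum]
    refine sum_congr rfl fun m _ => sum_congr rfl fun e _ => sum_congr rfl fun x _ =>
      sum_congr rfl fun y _ => ?_
    split_ifs
    · field_simp
    · rw [mul_zero]
  rw [e, norm_mul, Complex.norm_real, Real.norm_of_nonneg hY.le]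
  refine le_trans ?_ h
  rw [mul_comm (Y ^ 2), mul_assoc]
  refine mul_le_mul_of_nonneg_left ?_ (norm_nonneg _)
  rw [← pow_add]
  exact pow_le_pow_right₀ (by linarith) (by norm_num)

end Pool.Agent.Lib.AP
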