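import Pool.Agent.Lib.AP.Blue2

/-! Peeling the rough cofactor: unfolding to the fourfold sum and splitting by `m e`. -/

open Finset Classical

noncomputable section

namespace Pool.Agent.Lib.AP

namespace PEEL

theorem anti' (hG : St_GCD) (W : ℕ) (F : ℕ → ℕ → ℂ)
    (hF : ∀ x y, 1 ≤ x → 1 ≤ y → W < x * y → F x y = 0) :
    ∑ x ∈ Icc 1 W, ∑ y ∈ Icc 1 W, F x y = ∑ n ∈ Icc 1 W, col F n := by
  rw [hG.anti]
  refine sum_congr rfl fun x hx => sum_congr rfl fun y hy => ?_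
  split_ifs with h
  · rfl
  · exact hF x y (mem_Icc.1 hx).1 (mem_Icc.1 hy).1 (not_le.1 h)

theorem col_mul (F : ℕ → ℕ → ℂ) (H : ℕ → ℂ) (n : ℕ) :
    col (fun x y => F x y * H (x * y)) n = col F n * H n := by
  unfold col
  rw [sum_mul]
  refine sum_congr rfl fun x hx => ?_
  rw [← (Nat.mem_divisorsAntidiagonal.1 hx).1]

/-- collecting by the product against a weight that vanishes beyond `W` -/
theorem collect (hG : St_GCD) (W : ℕ) (F : ℕ → ℕ → ℂ) (H : ℕ → ℂ) (hH : ∀ n, W < n → H n = 0) :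
    ∑ x ∈ Icc 1 W, ∑ y ∈ Icc 1 W, F x y * H (x * y) = ∑ n ∈ Icc 1 W, col F n * H n := by
  rw [anti' hG W (fun x y => F x y * H (x * y)) fun x y _ _ h => by rw [hH _ h, mul_zero]]
  exact sum_congr rfl fun n _ => col_mul F H n

theorem unfold4 (hG : St_GCD) (hR : St_ROU) (Λ : ℕ) (Y : ℝ) (W : ℕ) (a a' : ℕ → ℂ) (H : ℕ → ℂ)
    (hH : ∀ n, W < n → H n = 0) :
    ∑ m ∈ Icc 1 W, ∑ r ∈ Icc 1 W, ∑ e ∈ Icc 1 W, ∑ κ ∈ Icc 1 W,
      a m * a' r * (mu' Λ Y e : ℂ) * H (m * r * (e * κ)) =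
    ∑ n ∈ Icc 1 W, col (fun d s => if rough Λ Y s then col (fun m r => a m * a' r) d else 0) n *
      H n := by
  have h1 : ∀ m ∈ Icc 1 W, ∀ r ∈ Icc 1 W, ∑ e ∈ Icc 1 W, ∑ κ ∈ Icc 1 W,
      a m * a' r * (mu' Λ Y e : ℂ) * H (m * r * (e * κ)) =
      ∑ s ∈ Icc 1 W, a m * a' r * ((if rough Λ Y s then 1 else 0) * H (m * r * s)) := by
    intro m hm r hr
    have hmr : 1 ≤ m * r := Nat.mul_pos (mem_Icc.1 hm).1 (mem_Icc.1 hr).1
    rw [collect hG W (fun e _ => a m * a' r * (mu' Λ Y e : ℂ)) (fun s => H (m * r * s))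
      fun n hn => hH _ (hn.trans_le (Nat.le_mul_of_pos_left n hmr))]
    refine sum_congr rfl fun s hs => ?_
    have hs0 : s ≠ 0 := by have := (mem_Icc.1 hs).1; omega
    have h := congrArg (Int.cast : ℤ → ℂ) (hR Λ Y s hs0)
    push_cast at h
    unfold col
    rw [← mul_sum, h, mul_assoc (a m * a' r)]
  rw [sum_congr rfl fun m hm => sum_congr rfl fun r hr => h1 m hm r hr]
  rw [sum_congr rfl fun m _ => sum_comm, sum_comm]
  rw [← collect hG W _ H hH, sum_comm (s := Icc 1 W) (t := Icc 1 W)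
    (f := fun d s => (if rough Λ Y s then col (fun m r => a m * a' r) d else 0) * H (d * s))]
  refine sum_congr rfl fun s hs => ?_
  rw [collect hG W (fun m r => a m * a' r)
    (fun d => (if rough Λ Y s then 1 else 0) * H (d * s)) fun n hn => by
      rw [hH _ (hn.trans_le (Nat.le_mul_of_pos_right n (mem_Icc.1 hs).1)), mul_zero]]
  refine sum_congr rfl fun d _ => ?_
  split_ifs <;> simp

theorem D0_le_D1 {Λ : ℕ} {Y : ℝ} (hY : 1 ≤ Y) : D0 Λ Y ≤ D1 Λ Y := by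
  unfold D0 D1
  refine Nat.floor_le_floor ?_
  refine (div_le_self (by positivity) (one_le_pow₀ hY)).trans ?_
  exact pow_le_pow_right₀ hY (by omega)

theorem split {Λ : ℕ} {Y : ℝ} (hY : 1 ≤ Y) (K : Ker Λ Y) (α : ℝ) (a a' : ℕ → ℂ) (j : ℕ) :
    ∑ m ∈ Icc 1 (X1 Λ Y), ∑ r ∈ Icc 1 (X1 Λ Y), ∑ e ∈ Icc 1 (X1 Λ Y), ∑ κ ∈ Icc 1 (X1 Λ Y),
      a m * a' r * (mu' Λ Y e : ℂ) *
        (if m * r * (e * κ) ∈ Ioc (X0 Λ Y) j then K.D α (m * r * (e * κ)) else 0) =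
    Pz K α (· ≤ D0 Λ Y) a a' j + Pz K α (fun s => D0 Λ Y < s ∧ s ≤ D1 Λ Y) a a' j +
      Pz K α (D1 Λ Y < ·) a a' j := by
  have hD := D0_le_D1 (Λ := Λ) hY
  unfold Pz
  simp only [← sum_add_distrib]
  refine sum_congr rfl fun m _ => sum_congr rfl fun r _ => sum_congr rfl fun e _ =>
    sum_congr rfl fun κ _ => ?_
  by_cases hI : m * r * (e * κ) ∈ Ioc (X0 Λ Y) j
  · rw [if_pos hI]
    by_cases h0 : m * e ≤ D0 Λ Y
    · rw [if_pos ⟨hI, h0⟩, if_neg fun h => by omega, if_neg fun h => by omega]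
      simp
    · by_cases h1 : m * e ≤ D1 Λ Y
      · rw [if_neg fun h => h0 h.2, if_pos ⟨hI, not_le.1 h0, h1⟩, if_neg fun h => by omega]
        simp
      · rw [if_neg fun h => h0 h.2, if_neg fun h => h1 h.2.2, if_pos ⟨hI, not_le.1 h1⟩]
        simp
  · rw [if_neg hI, if_neg fun h => hI h.1, if_neg fun h => hI h.1, if_neg fun h => hI h.1]
    simp

end PEEL

theorem st_PEEL (hG : St_GCD) (hR : St_ROU) (hD : St_PAD) (hE : St_PAE) (h1 : St_PB1)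
    (h2 : St_PB2) : St_PEEL := by
  intro Λ Y α q K hB hDio a a' j ha ha' hj hH
  have hlam := hB.lam
  have hY2 : (2 : ℝ) ≤ Y := by
    refine le_trans ?_ hB.two
    calc (2 : ℝ) = 2 ^ 1 := by norm_num
      _ ≤ 2 ^ (300 * Λ) := pow_le_pow_right₀ (by norm_num) (by omega)
  have hY : 1 ≤ Y := by linarith
  have hY0 : 0 < Y := by linarith
  have hS : ∑ n ∈ Ioc (X0 Λ Y) j, col (fun d s => if rough Λ Y s then
      col (fun m r => a m * a' r) d else 0) n * K.D α n =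
      Pz K α (· ≤ D0 Λ Y) a a' j + Pz K α (fun s => D0 Λ Y < s ∧ s ≤ D1 Λ Y) a a' j +
        Pz K α (D1 Λ Y < ·) a a' j := by
    rw [← PEEL.split hY K α a a' j, PEEL.unfold4 hG hR Λ Y (X1 Λ Y) a a'
      (fun n => if n ∈ Ioc (X0 Λ Y) j then K.D α n else 0) fun n hn => by
        rw [if_neg]; intro h; have := (mem_Ioc.1 h).2; omega]
    simp only [mul_ite, mul_zero]
    rw [← sum_filter]
    refine sum_congr ?_ fun _ _ => rfl
    ext n
    simp only [mem_filter, mem_Icc, mem_Ioc]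
    omega
  have hm : ∀ m, a m ≠ 0 → m ≤ D0 Λ Y := by
    rcases hH with hH | ⟨μ, ρ, hμ, -, hm, -⟩
    · exact hH.1
    · intro m h
      unfold D0
      refine Nat.le_floor ((hm m h).1.trans ?_)
      rw [le_div_iff₀ (by positivity), ← pow_add]
      exact pow_le_pow_right₀ hY (by omega)
  have b0 : ‖Pz K α (· ≤ D0 Λ Y) a a' j‖ * Y ^ 65 ≤ K.η * Y ^ (270 * Λ) := by
    rcases hH with hH | hH
    · exact hD Λ Y α q K hB hDio a a' j ha ha' hj hH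
    · exact hE Λ Y α q K hB hDio a a' j ha ha' hj hH
  have b1 := h1 Λ Y α q K hB hDio a a' j ha ha' hj hH
  have b2 := h2 Λ Y α q K hB hDio a a' j ha ha' hj hm
  rw [hS]
  have hn := norm_add₃_le (a := Pz K α (· ≤ D0 Λ Y) a a' j)
    (b := Pz K α (fun s => D0 Λ Y < s ∧ s ≤ D1 Λ Y) a a' j) (c := Pz K α (D1 Λ Y < ·) a a' j)
  generalize ‖Pz K α (· ≤ D0 Λ Y) a a' j + Pz K α (fun s => D0 Λ Y < s ∧ s ≤ D1 Λ Y) a a' j +
    Pz K α (D1 Λ Y < ·) a a' j‖ = t at hn ⊢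
  have n0 := norm_nonneg (Pz K α (· ≤ D0 Λ Y) a a' j)
  have n1 := norm_nonneg (Pz K α (fun s => D0 Λ Y < s ∧ s ≤ D1 Λ Y) a a' j)
  have n2 := norm_nonneg (Pz K α (D1 Λ Y < ·) a a' j)
  generalize ‖Pz K α (· ≤ D0 Λ Y) a a' j‖ = x at hn b0 n0
  generalize ‖Pz K α (fun s => D0 Λ Y < s ∧ s ≤ D1 Λ Y) a a' j‖ = y at hn b1 n1
  generalize ‖Pz K α (D1 Λ Y < ·) a a' j‖ = z at hn b2 n2
  generalize K.η * Y ^ (270 * Λ) = E at b0 b1 b2 ⊢
  have h5 : (3 : ℝ) ≤ Y ^ 5 := le_trans (by norm_num) (pow_le_pow_left₀ (by norm_num) hY2 5)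
  have h60 : 0 < Y ^ 60 := by positivity
  have h65 : Y ^ 65 = Y ^ 60 * Y ^ 5 := by rw [← pow_add]
  have hw : 0 ≤ (x + y + z) * Y ^ 60 := by positivity
  have hA : (x + y + z) * Y ^ 60 * 3 ≤ (x + y + z) * Y ^ 60 * Y ^ 5 :=
    mul_le_mul_of_nonneg_left h5 hw
  have hB' : t * Y ^ 60 ≤ (x + y + z) * Y ^ 60 := mul_le_mul_of_nonneg_right hn h60.le
  rw [h65] at b0 b1 b2
  nlinarith

end Pool.Agent.Lib.AP
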