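import Pool.Agent.Lib.AP.Blue

/-! The trapezoid weight. -/

open Finset Classical

noncomputable section

namespace Pool.Agent.Lib.AP

namespace PSI

theorem expand (hT : St_TOOL) (T T0 : ℕ) (y : ℝ) (h0 : 0 < T) (h : 2 * T ≤ T0) :
    ∑ t ∈ Icc (-(T0 : ℤ)) T0, (psi T t : ℂ) * ee (t * y) =
      (1 / T) * ((∑ i ∈ Ioc (-1 : ℤ) (T - 1), ee (i * y)) *
        ∑ j ∈ Ioc (-(2 * T : ℤ) - 1) T, ee (j * y)) := by
  have h1 : ∑ i ∈ Ioc (-1 : ℤ) (T - 1), ee (i * y) = ∑ i ∈ range T, ee (i * y) := by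
    symm
    refine sum_bij (fun i _ => (i : ℤ)) (fun i hi => ?_) (fun i _ j _ hij => by exact_mod_cast hij)
      (fun j hj => ⟨j.toNat, ?_, ?_⟩) (fun i _ => by simp)
    · simp only [mem_range, mem_Ioc] at hi ⊢
      omega
    · simp only [mem_range, mem_Ioc] at hj ⊢
      omega
    · simp only [mem_Ioc] at hj
      omega
  have h2 (t : ℤ) : (psi T t : ℂ) * ee (t * y) = (1 / T) * ∑ i ∈ range T,
      if -(2 * T : ℤ) ≤ t - i ∧ t - i ≤ T then ee (t * y) else 0 := by
    rw [← sum_filter, sum_const, nsmul_eq_mul, psi]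
    push_cast
    ring
  simp only [h2]
  rw [← mul_sum, sum_comm, h1, sum_mul]
  congr 1
  refine sum_congr rfl fun i hi => ?_
  rw [← sum_filter, mul_sum]
  symm
  rw [mem_range] at hi
  refine sum_bij (fun j _ => j + (i : ℤ)) (fun j hj => ?_) (fun i _ j _ hij => by simpa using hij)
    (fun t ht => ⟨t - i, ?_, by ring⟩) (fun j _ => ?_)
  · simp only [mem_filter, mem_Ioc, mem_Icc] at hj ⊢
    omega
  · simp only [mem_filter, mem_Ioc, mem_Icc] at ht ⊢
    omega
  · rw [← hT.add]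
    congr 1
    push_cast
    ring

theorem nsum_le (hT : St_TOOL) (a b : ℤ) (y : ℝ) :
    ‖∑ j ∈ Ioc a b, ee (j * y)‖ ≤ ((b - a).toNat : ℝ) := by
  refine (norm_sum_le _ _).trans ?_
  simp [hT.norm]

end PSI

theorem st_PSI (hT : St_TOOL) : St_PSI where
  bd T t := by
    refine ⟨by unfold psi; positivity, div_le_one_of_le₀ ?_ (Nat.cast_nonneg T)⟩
    exact_mod_cast (card_filter_le _ _).trans_eq (card_range T)
  one T t h0 h := by
    rw [psi, filter_true_of_mem, card_range, div_self (by positivity)]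
    intro i hi
    rw [mem_range] at hi
    rw [abs_le] at h
    omega
  zero T t h := by
    rw [psi, filter_false_of_mem, card_empty, Nat.cast_zero, zero_div]
    intro i hi
    rw [mem_range] at hi
    rw [lt_abs] at h
    omega
  ker T T0 y h0 h := by
    rw [PSI.expand hT T T0 y h0 h, norm_mul, norm_mul, norm_div, norm_one, Complex.norm_natCast]
    have hT0 : (0 : ℝ) < T := by exact_mod_cast h0
    have hT1 : (1 : ℝ) ≤ T := by exact_mod_cast h0
    have a1 := PSI.nsum_le hT (-1) (T - 1) y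
    have a2 := PSI.nsum_le hT (-(2 * T : ℤ) - 1) T y
    rw [show ((T : ℤ) - 1 - -1).toNat = T by omega] at a1
    rw [show ((T : ℤ) - (-(2 * T : ℤ) - 1)).toNat = 3 * T + 1 by omega] at a2
    push_cast at a2
    have b1 := hT.geo y (-1) (T - 1)
    have b2 := hT.geo y (-(2 * T : ℤ) - 1) T
    have d0 := (hT.dn0 y).1
    generalize ‖∑ i ∈ Ioc (-1 : ℤ) (T - 1), ee (i * y)‖ = A at *
    have hB := norm_nonneg (∑ j ∈ Ioc (-(2 * T : ℤ) - 1) T, ee (j * y))
    generalize ‖∑ j ∈ Ioc (-(2 * T : ℤ) - 1) T, ee (j * y)‖ = B at *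
    constructor
    · rw [one_div, inv_mul_le_iff₀ hT0]
      calc A * B ≤ T * B := by gcongr
        _ ≤ T * (4 * T) := by gcongr; linarith
    · have : dn y ^ 2 * T * (1 / T * (A * B)) = (dn y * A) * (dn y * B) := by field_simp
      rw [this]
      nlinarith [mul_nonneg d0 hB]

end Pool.Agent.Lib.AP
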