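import Pool.Agent.Lib.AP.B_NOP
import Pool.Agent.Lib.AP.C82a

/-! The sieve is a lower bound for the indicator of the primes. -/

open Finset Classical

noncomputable section

namespace Pool.Agent.Lib.AP

namespace RHO

theorem aw_bd (hL : St_LEV) (hD : St_BND) {Λ : ℕ} {Y : ℝ} {n d : ℕ} (hne : n ≠ 0)
    (hr : rough Λ Y n) (hl : (levN Y n).length ≤ 27) (hd : d ∣ n) :
    aw Λ Y d ≤ 2 ^ 27 - (if pen Λ (lev Y d) then 2 ^ 60 else 0) ∧ -2 ^ 61 ≤ aw Λ Y d := by
  have h1 : (lev Y d).length ≤ 27 :=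
    (hL.dvd Y n d hne hd).length_le.trans (by rwa [NOP.lev_length])
  have h2 : |a0 Λ 1 (lev Y d)| ≤ 2 ^ 27 :=
    (hD.a Λ 1 _).trans (pow_le_pow_right₀ (by norm_num) h1)
  obtain ⟨h3, h4⟩ := abs_le.1 h2
  rw [aw, if_pos (NOP.rough_dvd hr hd)]
  split_ifs <;> constructor <;> linarith

theorem rhoC_bd (hD : St_BND) {Λ : ℕ} {Y : ℝ} {n : ℕ} (hl : (levN Y n).length ≤ 27) :
    |rhoC Λ Y n| ≤ 3 ^ 27 := by
  rw [rhoC]
  split_ifs
  · exact (hD.t Λ 1 _).trans (pow_le_pow_right₀ (by norm_num) (by rwa [NOP.lev_length]))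
  · norm_num

theorem not_cov {Λ x : ℝ} (h0 : 0 ≤ Λ) (hx : 270 * Λ + 1 ≤ x) : ¬ cov Λ 1 [x] := by
  rintro ⟨m, v1, v2, hp, h1, h2, h3⟩
  have h := List.singleton_perm.1 hp
  have hl := congrArg List.length h
  simp only [List.length_append, List.length_singleton] at hl
  rcases v2 with _ | ⟨b, v2⟩
  · rcases v1 with _ | ⟨a, v1⟩
    · simp only [List.sum_nil] at h1
      linarith
    · simp only [List.length_cons, List.length_nil] at hl
      obtain rfl : m = [] := List.length_eq_zero_iff.1 (by omega)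
      obtain rfl : v1 = [] := List.length_eq_zero_iff.1 (by omega)
      obtain rfl : x = a := by simpa using h
      simp only [List.sum_cons, List.sum_nil] at h3
      linarith
  · simp only [List.length_cons] at hl
    obtain rfl : m = [] := List.length_eq_zero_iff.1 (by omega)
    obtain rfl : v1 = [] := List.length_eq_zero_iff.1 (by omega)
    obtain rfl : v2 = [] := List.length_eq_zero_iff.1 (by omega)
    obtain rfl : x = b := by simpa using h
    simp only [List.sum_cons, List.sum_nil] at h2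
    linarith

theorem not_pen_nil {Λ : ℕ} (hΛ : (100000 : ℝ) ≤ Λ) : ¬ pen Λ [] := by
  rintro ⟨-, h | h | ⟨x, h⟩ | ⟨x, h, -⟩⟩
  · rw [List.sum_nil] at h
    linarith [(abs_le.1 h).1]
  · rw [List.sum_nil] at h
    linarith [(abs_le.1 h).1]
  · simp at h
  · simp at h

end RHO

open RHO in
theorem st_RHO (hN : St_NOP) (hS : St_SGN) (hD : St_BND) (hL : St_LEV) : St_RHO := by
  intro Λ Y n hB hn
  have hY := NOP.one_lt hB
  obtain ⟨hn0, hn1⟩ := mem_Ioc.1 hn
  have hne : n ≠ 0 := by omega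
  have hΛ : (100000 : ℝ) ≤ Λ := by exact_mod_cast hB.lam
  have hz : ¬ rough Λ Y n → rho Λ Y n = 0 := by
    intro h
    rw [rho, NOP.rhoA_zero h, rhoC, if_neg fun h' => h h'.1, sub_zero]
  have hlo := hL.tot Λ Y n hB hn0
  have hs1 : (270 * Λ + 1 : ℝ) ≤ (lev Y n).sum := by rw [NOP.lev_sum]; exact_mod_cast hlo
  refine ⟨fun hp => ?_, fun hp => ?_, hz, ?_⟩
  · have hr : rough Λ Y n := by
      intro p hp' hpn
      obtain rfl : p = n := (Nat.prime_dvd_prime_iff_eq hp' hp).1 hpn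
      have h1 : Y ^ (270 * Λ) < p := Nat.lt_of_floor_lt hn0
      have h2 : Y ^ (10 * Λ) ≤ Y ^ (270 * Λ) := pow_le_pow_right₀ hY.le (by omega)
      have h3 : (p : ℝ) ≤ p * Y ^ 1200 :=
        le_mul_of_one_le_right (Nat.cast_nonneg p) (one_le_pow₀ hY.le)
      linarith
    have hl : lev Y n = [(lvN Y n : ℝ)] := by
      rw [lev, levN, Nat.primeFactorsList_prime hp]
      rfl
    rw [hl, List.sum_singleton] at hs1
    have hno : ∀ d, d ∣ n → ¬ pen Λ (lev Y d) := by
      intro d hd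
      rcases (Nat.dvd_prime hp).1 hd with rfl | rfl
      · have : lev Y 1 = [] := by simp [lev, levN]
        rw [this]
        exact not_pen_nil hΛ
      · rw [hl]
        rintro ⟨h, -⟩
        rw [gD, List.sum_singleton] at h
        linarith
    rw [rho, (hN Λ Y n hB hn hr hno).2, rhoC, hl,
      if_neg fun h' => not_cov (by linarith) hs1 h'.2.2, sub_zero, T0]
    have h1 : a0 Λ 1 [(lvN Y n : ℝ)] = 0 := by
      rw [C82.a0_cons, if_pos (Or.inl ⟨_, List.mem_singleton_self _, by linarith⟩)]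
    simp [h1, C82.a0_nil]
  · by_cases hr : rough Λ Y n
    swap
    · exact (hz hr).le
    obtain ⟨hl, hc, -⟩ := hL.len Λ Y n hB hne hn1 hr
    by_cases hno : ∀ d, d ∣ n → ¬ pen Λ (lev Y d)
    · obtain ⟨hW, hA⟩ := hN Λ Y n hB hn hr hno
      rw [rho, hA, rhoC]
      by_cases hcov : cov Λ 1 (lev Y n)
      · rw [if_pos ⟨hr, hW.asc.imp ne_of_lt, hcov⟩, sub_self]
      · rw [if_neg fun h' => hcov h'.2.2, sub_zero]
        refine hS _ _ _ hW ?_ hcov
        rw [NOP.lev_length, levN, List.length_map]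
        by_contra hlt
        have hprod := Nat.prod_primeFactorsList hne
        rcases hq : n.primeFactorsList with _ | ⟨a, _ | ⟨b, t⟩⟩
        · rw [levN, hq] at hlo
          simp at hlo
        · rw [hq, List.prod_singleton] at hprod
          exact hp (hprod ▸ Nat.prime_of_mem_primeFactorsList (n := n) (by rw [hq]; simp))
        · rw [hq] at hlt
          simp at hlt
    · push Not at hno
      obtain ⟨d0, hd0, hpen⟩ := hno
      have h1 : rhoA Λ Y n ≤ ∑ d ∈ n.divisors,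
          ((2 : ℤ) ^ 27 - (if pen Λ (lev Y d) then 2 ^ 60 else 0)) := by
        rw [NOP.rhoA_eq hr]
        exact sum_le_sum fun d hd => (aw_bd hL hD hne hr hl (Nat.dvd_of_mem_divisors hd)).1
      have h2 : (2 : ℤ) ^ 60 ≤ ∑ d ∈ n.divisors, (if pen Λ (lev Y d) then (2 : ℤ) ^ 60 else 0) := by
        have := single_le_sum (f := fun d => if pen Λ (lev Y d) then (2 : ℤ) ^ 60 else 0)
          (s := n.divisors) (fun d _ => by split_ifs <;> norm_num)
          (Nat.mem_divisors.2 ⟨hd0, hne⟩)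
        rwa [if_pos hpen] at this
      rw [sum_sub_distrib, sum_const, nsmul_eq_mul] at h1
      have h3 : (n.divisors.card : ℤ) ≤ 2 ^ 27 := by exact_mod_cast hc
      have h4 := (abs_le.1 (rhoC_bd hD (Λ := Λ) hl)).1
      rw [rho]
      linarith
  · by_cases hr : rough Λ Y n
    swap
    · rw [hz hr]
      norm_num
    obtain ⟨hl, hc, -⟩ := hL.len Λ Y n hB hne hn1 hr
    have h1 : ∑ _d ∈ n.divisors, (-2 ^ 61 : ℤ) ≤ rhoA Λ Y n := by
      rw [NOP.rhoA_eq hr]
      exact sum_le_sum fun d hd => (aw_bd hL hD hne hr hl (Nat.dvd_of_mem_divisors hd)).2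
    rw [sum_const, nsmul_eq_mul] at h1
    have h3 : (n.divisors.card : ℤ) ≤ 2 ^ 27 := by exact_mod_cast hc
    have h4 := (abs_le.1 (rhoC_bd hD (Λ := Λ) hl)).2
    rw [rho]
    linarith

end Pool.Agent.Lib.AP
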