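import Pool.Agent.Lib.AP.Blue

/-! The sum over the greatest common divisor for coefficients with a free variable. -/

open Finset Classical

noncomputable section

namespace Pool.Agent.Lib.AP

namespace S2

theorem card_anti (n : ℕ) : n.divisorsAntidiagonal.card = n.divisors.card := by
  rw [← Nat.map_div_right_divisors, card_map]

/-- factorisations of `g n`, sorted by the common divisor of `g` and the first factor -/
theorem dv (g n : ℕ) (hg : g ≠ 0) (hn : n ≠ 0) (G : ℕ → ℕ → ℂ) :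
    ∑ x ∈ (g * n).divisorsAntidiagonal, G x.1 x.2 = ∑ a ∈ g.divisorsAntidiagonal,
      ∑ y ∈ n.divisorsAntidiagonal,
        if Nat.gcd g (a.1 * y.1) = a.1 then G (a.1 * y.1) (a.2 * y.2) else 0 := by
  rw [← sum_product', ← sum_filter]
  symm
  refine sum_bij (fun z _ => (z.1.1 * z.2.1, z.1.2 * z.2.2)) ?_ ?_ ?_ fun _ _ => rfl
  · intro z hz
    simp only [mem_filter, mem_product, Nat.mem_divisorsAntidiagonal] at hz ⊢
    obtain ⟨⟨⟨e1, _⟩, e2, _⟩, _⟩ := hz
    exact ⟨by rw [← e1, ← e2]; ring, mul_ne_zero hg hn⟩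
  · rintro ⟨⟨a1, a2⟩, y1, y2⟩ hz ⟨⟨c1, c2⟩, w1, w2⟩ hz' e
    simp only [mem_filter, mem_product, Nat.mem_divisorsAntidiagonal, Prod.mk.injEq] at hz hz' e ⊢
    obtain ⟨⟨⟨e1, _⟩, e2, _⟩, e3⟩ := hz
    obtain ⟨⟨⟨f1, _⟩, f2, _⟩, f3⟩ := hz'
    have h1 : a1 = c1 := by rw [← e3, ← f3, e.1]
    subst h1
    have ha : a1 ≠ 0 := by rintro rfl; exact hg (by rw [← e1, zero_mul])
    have h2 : a2 = c2 := mul_left_cancel₀ ha (e1.trans f1.symm)
    subst h2
    have ha2 : a2 ≠ 0 := by rintro rfl; exact hg (by rw [← e1, mul_zero])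
    exact ⟨⟨rfl, rfl⟩, mul_left_cancel₀ ha e.1, mul_left_cancel₀ ha2 e.2⟩
  · rintro ⟨r, κ⟩ hx
    simp only [Nat.mem_divisorsAntidiagonal] at hx
    obtain ⟨a2, r', hc, e1, e2⟩ := Nat.exists_coprime g r
    have hd : Nat.gcd g r ≠ 0 := fun h => hg (Nat.eq_zero_of_gcd_eq_zero_left h)
    set d := Nat.gcd g r with hdd
    have e3 : r' * κ = a2 * n := by
      apply mul_left_cancel₀ hd
      calc d * (r' * κ) = r' * d * κ := by ring
        _ = g * n := by rw [← e2, hx.1]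
        _ = d * (a2 * n) := by rw [e1]; ring
    obtain ⟨κ', e4⟩ : a2 ∣ κ := hc.dvd_of_dvd_mul_left ⟨n, e3⟩
    have ha2 : a2 ≠ 0 := by rintro rfl; exact hg (by rw [e1, zero_mul])
    refine ⟨((d, a2), r', κ'), ?_, ?_⟩
    · simp only [mem_filter, mem_product, Nat.mem_divisorsAntidiagonal]
      refine ⟨⟨⟨by rw [mul_comm]; exact e1.symm, hg⟩, ?_, hn⟩, ?_⟩
      · apply mul_left_cancel₀ ha2
        rw [← e3, e4]; ring
      · rw [mul_comm d, ← e2]
    · simp only [Prod.mk.injEq]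
      exact ⟨by rw [mul_comm]; exact e2.symm, e4.symm⟩

theorem card_nz (T : ℕ) : ((nz T).card : ℝ) = 2 * T := by
  unfold nz
  rw [card_erase_of_mem (by simp), Int.card_Icc]
  have : ((T : ℤ) + 1 - -(T : ℤ)).toNat - 1 = 2 * T := by omega
  rw [this]
  push_cast
  ring

theorem mem_nz (T : ℕ) (B : ℝ) (h : (T : ℝ) ≤ B) : ∀ k ∈ nz T, k ≠ 0 ∧ |(k : ℝ)| ≤ B := by
  intro k hk
  unfold nz at hk
  rw [mem_erase, mem_Icc, ← abs_le] at hk
  refine ⟨hk.1, le_trans ?_ h⟩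
  exact_mod_cast hk.2

/-- upper end of the range of the free variable -/
def up (b : ℕ → ℂ) (hi : ℕ → ℕ) (a1 a2 r : ℕ) : ℕ := if b (a1 * r) = 0 then 0 else hi (a1 * r) / a2

theorem mem_rng (b : ℕ → ℂ) (lo hi : ℕ → ℕ) (a1 a2 r κ : ℕ) (h : 0 < a2) :
    κ ∈ Ioc (lo (a1 * r) / a2) (up b hi a1 a2 r) ↔
      b (a1 * r) ≠ 0 ∧ a2 * κ ∈ Ioc (lo (a1 * r)) (hi (a1 * r)) := by
  unfold up
  by_cases hb : b (a1 * r) = 0
  · simp [hb]
  · rw [if_neg hb, mem_Ioc, mem_Ioc, Nat.div_lt_iff_lt_mul h, Nat.le_div_iff_mul_le h, mul_comm κ]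
    simp [hb]

/-- the first factor, reorganised -/
theorem first (hG : St_GCD) (N R g : ℕ) (θ0 : ℝ) (b : ℕ → ℂ) (lo hi : ℕ → ℕ) (hN : 0 < N)
    (hg : g ≠ 0)
    (hs : ∀ r κ, b r ≠ 0 → κ ∈ Ioc (lo r) (hi r) → r ≤ R ∧ r * κ ∈ Ico N (4 * N)) (F : ℕ → ℂ) :
    ∑ n ∈ Icc 1 (4 * N), col2 b lo hi θ0 (g * n) * F n = ∑ a ∈ g.divisorsAntidiagonal,
      ∑ r ∈ Icc 1 R, ∑ κ ∈ Ioc (lo (a.1 * r) / a.2) (up b hi a.1 a.2 r),
        (if Nat.gcd g (a.1 * r) = a.1 then b (a.1 * r) else 0) *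
          ee (θ0 * (g * (r * κ) : ℕ)) * F (r * κ) := by
  have h1 : ∀ n ∈ Icc 1 (4 * N), col2 b lo hi θ0 (g * n) * F n = ∑ a ∈ g.divisorsAntidiagonal,
      col (fun r κ => if κ ∈ Ioc (lo (a.1 * r) / a.2) (up b hi a.1 a.2 r) then
        (if Nat.gcd g (a.1 * r) = a.1 then b (a.1 * r) else 0) *
          ee (θ0 * (g * (r * κ) : ℕ)) * F (r * κ) else 0) n := by
    intro n hn
    have hn0 : n ≠ 0 := by have := (mem_Icc.1 hn).1; omega
    unfold col2 col
    rw [dv g n hg hn0 fun r κ => if κ ∈ Ioc (lo r) (hi r) then b r * ee (θ0 * (g * n : ℕ)) else 0,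
      sum_mul]
    refine sum_congr rfl fun a ha => ?_
    rw [sum_mul]
    refine sum_congr rfl fun y hy => ?_
    have ha2 : 0 < a.2 := Nat.pos_of_ne_zero (Nat.right_ne_zero_of_mem_divisorsAntidiagonal ha)
    beta_reduce
    rw [(Nat.mem_divisorsAntidiagonal.1 hy).1]
    simp only [mem_rng b lo hi a.1 a.2 y.1 y.2 ha2]
    by_cases c1 : Nat.gcd g (a.1 * y.1) = a.1
    · by_cases c2 : a.2 * y.2 ∈ Ioc (lo (a.1 * y.1)) (hi (a.1 * y.1))
      · by_cases c3 : b (a.1 * y.1) = 0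
        · simp only [c3, ite_self, zero_mul]
        · rw [if_pos c1, if_pos c2, if_pos ⟨c3, c2⟩, if_pos c1]
      · rw [if_pos c1, if_neg c2, if_neg (fun h => c2 h.2), zero_mul]
    · simp only [if_neg c1, zero_mul, ite_self]
  rw [sum_congr rfl h1, sum_comm]
  refine sum_congr rfl fun a ha => ?_
  have ha1 : 0 < a.1 := Nat.pos_of_ne_zero (Nat.left_ne_zero_of_mem_divisorsAntidiagonal ha)
  have ha2 : 0 < a.2 := Nat.pos_of_ne_zero (Nat.right_ne_zero_of_mem_divisorsAntidiagonal ha)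
  have key : ∀ r κ, κ ∈ Ioc (lo (a.1 * r) / a.2) (up b hi a.1 a.2 r) →
      r ∈ Icc 1 R ∧ r ∈ Icc 1 (4 * N) ∧ κ ∈ Icc 1 (4 * N) ∧ r * κ ≤ 4 * N := by
    intro r κ h
    obtain ⟨c1, c2⟩ := (mem_rng b lo hi a.1 a.2 r κ ha2).1 h
    obtain ⟨d1, d2⟩ := hs _ _ c1 c2
    rw [mem_Ico] at d2
    have r0 : 0 < r := by
      rcases Nat.eq_zero_or_pos r with rfl | h
      · simp only [mul_zero, zero_mul] at d2; omega
      · exact h
    have k0 : 0 < κ := by
      rcases Nat.eq_zero_or_pos κ with rfl | h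
      · simp only [mul_zero] at d2; omega
      · exact h
    have e1 : r ≤ a.1 * r := Nat.le_mul_of_pos_left _ ha1
    have e2 : κ ≤ a.2 * κ := Nat.le_mul_of_pos_left _ ha2
    have e3 : r * κ ≤ a.1 * r * (a.2 * κ) := Nat.mul_le_mul e1 e2
    have e4 : r ≤ r * κ := Nat.le_mul_of_pos_right _ k0
    have e5 : κ ≤ r * κ := Nat.le_mul_of_pos_left _ r0
    simp only [mem_Icc]
    omega
  rw [hG.anti]
  have h2 : ∀ r, ∀ c : ℕ → ℂ, (∑ κ ∈ Icc 1 (4 * N), if r * κ ≤ 4 * N then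
      (if κ ∈ Ioc (lo (a.1 * r) / a.2) (up b hi a.1 a.2 r) then c κ else 0) else 0) =
      ∑ κ ∈ Ioc (lo (a.1 * r) / a.2) (up b hi a.1 a.2 r), c κ := by
    intro r c
    refine sum_congr_of_eq_on_inter ?_ ?_ ?_
    · intro κ _ h
      rw [if_neg h, ite_self]
    · intro κ h h'
      exact absurd (key r κ h).2.2.1 h'
    · intro κ _ h
      rw [if_pos (key r κ h).2.2.2, if_pos h]
  simp only [h2]
  refine sum_congr_of_eq_on_inter ?_ ?_ fun _ _ _ => rfl
  · intro r _ h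
    exact sum_eq_zero fun κ hκ => absurd (key r κ hκ).1 h
  · intro r _ h
    exact sum_eq_zero fun κ hκ => absurd (key r κ hκ).2.1 h

theorem col2_le (hT : St_TOOL) (b : ℕ → ℂ) (lo hi : ℕ → ℕ) (θ0 : ℝ) (hb : ∀ r, ‖b r‖ ≤ 1) (n : ℕ) :
    ‖col2 b lo hi θ0 n‖ ≤ n.divisors.card := by
  unfold col2
  refine (norm_sum_le _ _).trans ?_
  rw [← card_anti, card_eq_sum_ones, Nat.cast_sum]
  refine sum_le_sum fun x _ => ?_
  split_ifs
  · rw [norm_mul, hT.norm, mul_one, Nat.cast_one]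
    exact hb _
  · simp

theorem col2_supp (N R : ℕ) (θ0 : ℝ) (b : ℕ → ℂ) (lo hi : ℕ → ℕ)
    (hs : ∀ r κ, b r ≠ 0 → κ ∈ Ioc (lo r) (hi r) → r ≤ R ∧ r * κ ∈ Ico N (4 * N)) (n : ℕ)
    (hn : n ∉ Ico N (4 * N)) : col2 b lo hi θ0 n = 0 := by
  unfold col2
  refine sum_eq_zero fun x hx => ?_
  split_ifs with h
  · by_cases hb : b x.1 = 0
    · rw [hb, zero_mul]
    · exact absurd ((Nat.mem_divisorsAntidiagonal.1 hx).1 ▸ (hs _ _ hb h).2) hn
  · rfl

/-- one value of the common divisor -/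
theorem one (hT : St_TOOL) (hG : St_GCD) (h2 : St_B2) {Λ : ℕ} {Y : ℝ} (hB : Big Λ Y)
    (N R K1 T g : ℕ) (W1 θ θ0 : ℝ) (h : ℤ) (b : ℕ → ℂ) (lo hi : ℕ → ℕ) (ω : ℤ → ℂ) (hN : 0 < N)
    (hN' : (N : ℝ) ≤ Y ^ (120 * Λ)) (hK : K1 ≤ N) (hTT : (T : ℝ) ≤ Y ^ (300 * Λ))
    (hb : ∀ r, ‖b r‖ ≤ 1)
    (hs : ∀ r κ, b r ≠ 0 → κ ∈ Ioc (lo r) (hi r) → r ≤ R ∧ r * κ ∈ Ico N (4 * N))
    (hg : g ∈ Icc 1 (4 * N)) (hW : ∑ t ∈ nz T, ‖ω t‖ ≤ W1) :
    ‖Bs N K1 T (fun n => col2 b lo hi θ0 (g * n)) ω θ h‖ ≤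
      2 * Y ^ 6 * R * W1 * K1 * √((N : ℝ) / g) := by
  have hY2 : (2 : ℝ) ^ 2 ≤ Y := by
    refine le_trans ?_ hB.two
    have := hB.lam
    exact pow_le_pow_right₀ (by norm_num) (by omega)
  have hY1 : 1 ≤ Y := by linarith
  have hY0 : 0 < Y := by linarith
  have hW0 : 0 ≤ W1 := le_trans (sum_nonneg fun _ _ => norm_nonneg _) hW
  have hg0 : g ≠ 0 := by have := (mem_Icc.1 hg).1; omega
  have hgr : (1 : ℝ) ≤ g := by exact_mod_cast (mem_Icc.1 hg).1
  have hNr : (0 : ℝ) < N := by exact_mod_cast hN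
  have hdiv : ∀ n : ℕ, n ≤ 4 * N → (n.divisors.card : ℝ) ≤ Y := by
    intro n hn
    apply hB.div
    have : (n : ℝ) ≤ 4 * N := by exact_mod_cast hn
    have := hB.lam
    calc (n : ℝ) ≤ Y * Y ^ (120 * Λ) := by nlinarith
      _ = Y ^ (120 * Λ + 1) := by ring
      _ ≤ _ := pow_le_pow_right₀ hY1 (by omega)
  set N1 : ℝ := N / g with hN1
  have N0 : 0 < N1 := by positivity
  set β : ℕ → ℂ := fun n => col2 b lo hi θ0 (g * n) with hβ
  set S := (Icc 1 (4 * N)).filter fun n => g * n ∈ Ico N (4 * N) with hS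
  have hSm : ∀ n ∈ S, N1 ≤ n ∧ n ≤ 4 * N1 := by
    intro n hn
    have := mem_Ico.1 (mem_filter.1 hn).2
    have a1 : (N : ℝ) ≤ g * n := by exact_mod_cast this.1
    have a2 : (g : ℝ) * n ≤ 4 * N := by exact_mod_cast this.2.le
    rw [hN1, div_le_iff₀ (by linarith), ← mul_div_assoc, le_div_iff₀ (by linarith)]
    constructor <;> linarith
  set F : ℕ → ℂ := fun n1 => ∑ n2 ∈ S, if Nat.Coprime n1 n2 then
    (starRingEnd ℂ) (β n2) / n2 * ∑ k ∈ nz K1, ∑ t ∈ nz T,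
      ω t * ee ((h * k - t * θ + h * θ * n1) / n2) * kf (-(k * t)) n1 n2 else 0 with hF
  have e1 : Bs N K1 T β ω θ h = ∑ n ∈ Icc 1 (4 * N), col2 b lo hi θ0 (g * n) * F n := by
    unfold Bs
    refine sum_congr rfl fun n1 _ => ?_
    simp only [hF, hS]
    rw [sum_filter, mul_sum]
    refine sum_congr rfl fun n2 _ => ?_
    by_cases c : g * n2 ∈ Ico N (4 * N)
    · rw [if_pos c]
      split_ifs
      · simp only [hβ]; ring
      · rw [mul_zero]
    · have : β n2 = 0 := col2_supp N R θ0 b lo hi hs _ c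
      rw [if_neg c, this]
      simp
  rw [e1, first hG N R g θ0 b lo hi hN hg0 hs F]
  refine (norm_sum_le _ _).trans ?_
  have part : ∀ a ∈ g.divisorsAntidiagonal,
      ‖∑ r ∈ Icc 1 R, ∑ κ ∈ Ioc (lo (a.1 * r) / a.2) (up b hi a.1 a.2 r),
        (if Nat.gcd g (a.1 * r) = a.1 then b (a.1 * r) else 0) *
          ee (θ0 * (g * (r * κ) : ℕ)) * F (r * κ)‖ ≤ 2 * Y ^ 5 * R * W1 * K1 * √N1 := by
    intro a ha
    have ha2 : 0 < a.2 := Nat.pos_of_ne_zero (Nat.right_ne_zero_of_mem_divisorsAntidiagonal ha)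
    have hag : a.1 * a.2 = g := (Nat.mem_divisorsAntidiagonal.1 ha).1
    set φ : ℕ → ℕ → ℤ → ℤ → ℂ := fun r n k t => if n ∈ S then
      (if Nat.gcd g (a.1 * r) = a.1 then b (a.1 * r) else 0) * ((starRingEnd ℂ) (β n) / Y) *
        ((N1 : ℂ) / n) * ee ((h * k - t * θ) / n) else 0 with hφ
    have hφ1 : ∀ r n k t, ‖φ r n k t‖ ≤ 1 := by
      intro r n k t
      simp only [hφ]
      by_cases c : n ∈ S
      · rw [if_pos c, norm_mul, norm_mul, norm_mul, hT.norm, mul_one, norm_div, norm_div,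
          Complex.norm_conj, Complex.norm_real, Complex.norm_real, Complex.norm_natCast,
          Real.norm_of_nonneg hY0.le, Real.norm_of_nonneg N0.le]
        have i1 : ‖if Nat.gcd g (a.1 * r) = a.1 then b (a.1 * r) else 0‖ ≤ 1 := by
          split_ifs
          · exact hb _
          · simp
        have i2 : ‖β n‖ / Y ≤ 1 := by
          rw [div_le_one hY0]
          exact (col2_le hT b lo hi θ0 hb _).trans
            (hdiv _ (mem_Ico.1 (mem_filter.1 c).2).2.le)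
        have i3 : N1 / n ≤ 1 := by
          have := (hSm n c).1
          rw [div_le_one (by linarith)]
          exact this
        exact mul_le_one₀ (mul_le_one₀ i1 (by positivity) i2) (by positivity) i3
      · rw [if_neg c]; simp
    have hlen : ∀ r, ((up b hi a.1 a.2 r - lo (a.1 * r) / a.2 : ℕ) : ℝ) ≤ 4 * N1 := by
      intro r
      by_cases c : lo (a.1 * r) / a.2 < up b hi a.1 a.2 r
      · obtain ⟨c1, c2⟩ := (mem_rng b lo hi a.1 a.2 r _ ha2).1 (mem_Ioc.2 ⟨c, le_rfl⟩)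
        have d := mem_Ico.1 (hs _ _ c1 c2).2
        have r0 : 0 < r := by
          rcases Nat.eq_zero_or_pos r with rfl | h
          · simp only [mul_zero, zero_mul] at d; omega
          · exact h
        have d2 : g * up b hi a.1 a.2 r ≤ 4 * N := by
          refine le_trans ?_ d.2.le
          calc g * up b hi a.1 a.2 r = a.1 * 1 * (a.2 * up b hi a.1 a.2 r) := by rw [← hag]; ring
            _ ≤ _ := by gcongr; exact r0
        have d3 : (g : ℝ) * up b hi a.1 a.2 r ≤ 4 * N := by exact_mod_cast d2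
        have d4 : ((up b hi a.1 a.2 r - lo (a.1 * r) / a.2 : ℕ) : ℝ) ≤ up b hi a.1 a.2 r := by
          exact_mod_cast Nat.sub_le _ _
        refine d4.trans ?_
        rw [hN1, ← mul_div_assoc, le_div_iff₀ (by linarith)]
        linarith
      · rw [Nat.sub_eq_zero_of_le (not_lt.1 c), Nat.cast_zero]
        positivity
    have hN1' : N1 ≤ Y ^ (200 * Λ) := by
      calc N1 ≤ N := div_le_self hNr.le hgr
        _ ≤ Y ^ (120 * Λ) := hN'
        _ ≤ _ := pow_le_pow_right₀ hY1 (by omega)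
    have hK' : (K1 : ℝ) ≤ Y ^ (300 * Λ) := by
      calc (K1 : ℝ) ≤ N := by exact_mod_cast hK
        _ ≤ Y ^ (120 * Λ) := hN'
        _ ≤ _ := pow_le_pow_right₀ hY1 (by omega)
    have B := h2 Λ Y hB N1 W1 R S (nz K1) (nz T) (fun r => lo (a.1 * r) / a.2) (up b hi a.1 a.2) ω φ
      (fun r n => r * (θ0 * g + h * θ / n)) N0 hN1' hSm hlen (mem_nz K1 _ hK') (mem_nz T _ hTT)
      hφ1 hW
    have e2 : ∑ r ∈ Icc 1 R, ∑ κ ∈ Ioc (lo (a.1 * r) / a.2) (up b hi a.1 a.2 r),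
        (if Nat.gcd g (a.1 * r) = a.1 then b (a.1 * r) else 0) *
          ee (θ0 * (g * (r * κ) : ℕ)) * F (r * κ) = ((Y / N1 : ℝ) : ℂ) *
        ∑ r ∈ Icc 1 R, ∑ n ∈ S, if Nat.Coprime r n then ∑ k ∈ nz K1, ∑ t ∈ nz T, ω t * φ r n k t *
          ∑ κ ∈ (Ioc (lo (a.1 * r) / a.2) (up b hi a.1 a.2 r)).filter (Nat.Coprime · n),
            ee (r * (θ0 * g + h * θ / n) * κ) * kf (-(k * t)) (r * κ) n else 0 := by
      rw [mul_sum]
      refine sum_congr rfl fun r _ => ?_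
      simp only [hF]
      simp only [mul_sum]
      rw [sum_comm]
      refine sum_congr rfl fun n hn => ?_
      by_cases c : Nat.Coprime r n
      · rw [if_pos c]
        simp only [sum_filter, mul_sum]
        rw [sum_comm' (s := nz K1) (t := fun _ => nz T) (t' := nz T) (s' := fun _ => nz K1)
          (by intro x y; tauto)]
        have e3 : ∀ κ ∈ Ioc (lo (a.1 * r) / a.2) (up b hi a.1 a.2 r),
            ((if Nat.gcd g (a.1 * r) = a.1 then b (a.1 * r) else 0) *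
              ee (θ0 * (g * (r * κ) : ℕ)) * if Nat.Coprime (r * κ) n then
              ∑ k ∈ nz K1, ∑ t ∈ nz T, (starRingEnd ℂ) (β n) / n * (ω t *
                ee ((h * k - t * θ + h * θ * (r * κ : ℕ)) / n) * kf (-(k * t)) (r * κ) n) else 0) =
            ∑ t ∈ nz T, ∑ k ∈ nz K1, ((Y / N1 : ℝ) : ℂ) * (ω t * φ r n k t *
              if Nat.Coprime κ n then ee (r * (θ0 * g + h * θ / n) * κ) *
                kf (-(k * t)) (r * κ) n else 0) := by
          intro κ _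
          by_cases c' : Nat.Coprime κ n
          · rw [if_pos (Nat.Coprime.mul_left c c'), sum_comm, mul_sum]
            refine sum_congr rfl fun t _ => ?_
            rw [mul_sum]
            refine sum_congr rfl fun k _ => ?_
            simp only [hφ, if_pos hn, if_pos c']
            have e4 : ee (θ0 * (g * (r * κ) : ℕ)) * ee ((h * k - t * θ + h * θ * (r * κ : ℕ)) / n) =
                ee ((h * k - t * θ) / n) * ee (r * (θ0 * g + h * θ / n) * κ) := by
              rw [← hT.add, ← hT.add]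
              congr 1
              push_cast
              ring
            have y0 : (Y : ℂ) ≠ 0 := by exact_mod_cast hY0.ne'
            have n0 : (N1 : ℂ) ≠ 0 := by exact_mod_cast N0.ne'
            have e5 : ((Y / N1 : ℝ) : ℂ) * (((starRingEnd ℂ) (β n) / Y) * ((N1 : ℂ) / n)) =
                (starRingEnd ℂ) (β n) / n := by
              push_cast
              field_simp
            rw [← e5]
            linear_combination (if Nat.gcd g (a.1 * r) = a.1 then b (a.1 * r) else 0) *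
              (((Y / N1 : ℝ) : ℂ) * (((starRingEnd ℂ) (β n) / Y) * ((N1 : ℂ) / n))) * ω t *
              kf (-(k * t)) (r * κ) n * e4
          · rw [if_neg fun hc => c' (Nat.Coprime.coprime_mul_left hc)]
            simp only [if_neg c', mul_zero, sum_const_zero]
        rw [sum_congr rfl e3, sum_comm]
        refine sum_congr rfl fun t _ => ?_
        rw [sum_comm]
        refine sum_congr rfl fun k _ => sum_congr rfl fun κ _ => ?_
        split_ifs
        · rfl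
        · simp only [mul_zero]
      · rw [if_neg c, mul_zero]
        refine sum_eq_zero fun κ _ => ?_
        rw [if_neg fun hc => c (Nat.Coprime.coprime_mul_right hc), mul_zero]
    rw [e2, norm_mul, Complex.norm_real, Real.norm_of_nonneg (by positivity)]
    refine (mul_le_mul_of_nonneg_left B (by positivity)).trans (le_of_eq ?_)
    rw [card_nz]
    field_simp
  refine (sum_le_sum part).trans ?_
  rw [sum_const, nsmul_eq_mul, card_anti]
  calc _ ≤ Y * (2 * Y ^ 5 * R * W1 * K1 * √N1) := by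
        gcongr
        exact hdiv g (mem_Icc.1 hg).2
    _ = _ := by ring

end S2

open S2 in
theorem st_S2 (hT : St_TOOL) (hG : St_GCD) (h2 : St_B2) : St_S2 := by
  intro Λ Y hB N R K T W1 θ θ0 h b lo hi ω hN hN' hK hTT hb hs hW
  have hY2 : (2 : ℝ) ^ 3 ≤ Y := by
    refine le_trans ?_ hB.two
    have := hB.lam
    exact pow_le_pow_right₀ (by norm_num) (by omega)
  have hY1 : 1 ≤ Y := by linarith
  have hW0 : 0 ≤ W1 :=
    le_trans (sum_nonneg fun _ _ => norm_nonneg _) (hW 1 (mem_Icc.2 ⟨le_rfl, by omega⟩))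
  have step : ∀ g ∈ Icc 1 (4 * N),
      ‖Bs N (K / g) T (fun n => col2 b lo hi θ0 (g * n)) (ω g) θ h‖ ≤
        2 * Y ^ 6 * R * W1 * K * √(N : ℝ) * (1 / (g * √(g : ℝ))) := by
    intro g hg
    have hgr : (0 : ℝ) < g := by exact_mod_cast (mem_Icc.1 hg).1
    refine (one hT hG h2 hB N R (K / g) T g W1 θ θ0 h b lo hi (ω g) hN hN'
      ((Nat.div_le_self _ _).trans hK) hTT hb hs hg (hW g hg)).trans ?_
    rw [Real.sqrt_div (Nat.cast_nonneg _)]
    calc _ ≤ 2 * Y ^ 6 * R * W1 * ((K : ℝ) / g) * (√(N : ℝ) / √(g : ℝ)) := by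
          gcongr
          exact Nat.cast_div_le
      _ = _ := by field_simp
  refine (sum_le_sum step).trans ?_
  rw [← mul_sum]
  have y4 : 6 ≤ Y ^ 4 := by
    calc (6 : ℝ) ≤ Y := by linarith
      _ = Y ^ 1 := (pow_one _).symm
      _ ≤ _ := pow_le_pow_right₀ hY1 (by omega)
  calc _ ≤ 2 * Y ^ 6 * R * W1 * K * √(N : ℝ) * 3 := by
        gcongr
        exact hG.har2 _
    _ = 6 * (Y ^ 6 * R * W1 * K * √(N : ℝ)) := by ring
    _ ≤ Y ^ 4 * (Y ^ 6 * R * W1 * K * √(N : ℝ)) := by gcongr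
    _ = _ := by ring

end Pool.Agent.Lib.AP
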