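import Pool.Agent.Lib.AP.Blue

/-! The trilinear bound summed over the greatest common divisors. -/

open Finset Classical

noncomputable section

namespace Pool.Agent.Lib.AP

namespace S3B

def T1 (V g a : ℕ) : Finset ℕ :=
  (Icc 1 (2 * V)).filter fun v => a * v ∈ Ico V (2 * V) ∧ Nat.gcd g (a * v) = a

def T2 (U a : ℕ) : Finset ℕ := (Icc 1 (2 * U)).filter fun w => a * w ∈ Ico U (2 * U)

theorem split (U V g : ℕ) (hg : 0 < g) (b : ℕ → ℕ → ℂ)
    (hb : ∀ x y, b x y ≠ 0 → x ∈ Ico V (2 * V) ∧ y ∈ Ico U (2 * U)) (G : ℕ → ℂ) :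
    ∑ n ∈ Icc 1 (4 * (U * V)), (starRingEnd ℂ) (col b (g * n)) * G n =
      ∑ a ∈ g.divisorsAntidiagonal, ∑ v ∈ T1 V g a.1, ∑ w ∈ T2 U a.2,
        (starRingEnd ℂ) (b (a.1 * v) (a.2 * w)) * G (v * w) := by
  have e0 : ∀ a : ℕ × ℕ, ∑ v ∈ T1 V g a.1, ∑ w ∈ T2 U a.2,
      (starRingEnd ℂ) (b (a.1 * v) (a.2 * w)) * G (v * w) = ∑ p ∈ T1 V g a.1 ×ˢ T2 U a.2,
        (starRingEnd ℂ) (b (a.1 * p.1) (a.2 * p.2)) * G (p.1 * p.2) :=
    fun a => (sum_product' _ _ _).symm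
  rw [sum_congr rfl fun a _ => e0 a]
  simp only [col, map_sum, sum_mul]
  rw [sum_sigma', sum_sigma']
  symm
  refine sum_bij_ne_zero (fun q _ _ => ⟨q.2.1 * q.2.2, (q.1.1 * q.2.1, q.1.2 * q.2.2)⟩) ?_ ?_ ?_ ?_
  · rintro ⟨⟨a1, a2⟩, v, w⟩ hq -
    simp only [mem_sigma, mem_product, T1, T2, mem_filter, mem_Icc, mem_Ico,
      Nat.mem_divisorsAntidiagonal] at hq ⊢
    obtain ⟨⟨e, -⟩, ⟨⟨v1, -⟩, ⟨-, v3⟩, -⟩, ⟨w1, -⟩, -, w3⟩ := hq
    have a10 : 0 < a1 := Nat.pos_of_mul_pos_right (e ▸ hg)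
    have a20 : 0 < a2 := Nat.pos_of_mul_pos_left (e ▸ hg)
    have h1 : v ≤ 2 * V := le_trans (Nat.le_mul_of_pos_left v a10) v3.le
    have h2 : w ≤ 2 * U := le_trans (Nat.le_mul_of_pos_left w a20) w3.le
    refine ⟨⟨Nat.mul_pos v1 w1, ?_⟩, by rw [← e]; ring, (Nat.mul_pos hg (Nat.mul_pos v1 w1)).ne'⟩
    calc v * w ≤ 2 * V * (2 * U) := Nat.mul_le_mul h1 h2
      _ = _ := by ring
  · rintro ⟨⟨a1, a2⟩, v, w⟩ hq - ⟨⟨a1', a2'⟩, v', w'⟩ hq' - e
    simp only [mem_sigma, mem_product, T1, T2, mem_filter, mem_Icc, mem_Ico,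
      Nat.mem_divisorsAntidiagonal] at hq hq'
    obtain ⟨⟨e1, -⟩, ⟨-, -, g1⟩, -⟩ := hq
    obtain ⟨⟨e2, -⟩, ⟨-, -, g2⟩, -⟩ := hq'
    simp only [Sigma.mk.injEq, heq_eq_eq, Prod.mk.injEq] at e
    obtain ⟨-, ex, ey⟩ := e
    have a10 : 0 < a1 := Nat.pos_of_mul_pos_right (e1 ▸ hg)
    have a20 : 0 < a2 := Nat.pos_of_mul_pos_left (e1 ▸ hg)
    obtain rfl : a1 = a1' := by rw [← g1, ex, g2]
    obtain rfl : a2 = a2' := Nat.eq_of_mul_eq_mul_left a10 (e1.trans e2.symm)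
    obtain rfl : v = v' := Nat.eq_of_mul_eq_mul_left a10 ex
    obtain rfl : w = w' := Nat.eq_of_mul_eq_mul_left a20 ey
    rfl
  · rintro ⟨n, x, y⟩ hp hne
    simp only [mem_sigma, mem_Icc, Nat.mem_divisorsAntidiagonal] at hp
    obtain ⟨-, e, -⟩ := hp
    have hb0 : b x y ≠ 0 := fun h => hne (by simp [h])
    obtain ⟨hx, hy⟩ := hb x y hb0
    have gp : 0 < Nat.gcd g x := Nat.gcd_pos_of_pos_left _ hg
    obtain ⟨a2, v, hc, eg, ex⟩ := Nat.exists_coprime g x
    set a1 := Nat.gcd g x with ha1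
    have e1 : v * y = a2 * n := by
      refine Nat.eq_of_mul_eq_mul_left gp ?_
      calc a1 * (v * y) = v * a1 * y := by ring
        _ = a2 * a1 * n := by rw [← ex, ← eg, e]
        _ = _ := by ring
    obtain ⟨w, ey⟩ : a2 ∣ y := hc.dvd_of_dvd_mul_left ⟨n, e1⟩
    have a20 : 0 < a2 := Nat.pos_of_mul_pos_right (eg ▸ hg)
    have en : v * w = n := by
      refine Nat.eq_of_mul_eq_mul_left a20 ?_
      rw [← e1, ey]; ring
    have ex' : a1 * v = x := by rw [mul_comm, ← ex]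
    have hx' := mem_Ico.1 hx
    have hy' := mem_Ico.1 hy
    have v0 : 0 < v := Nat.pos_of_mul_pos_left (a := a1) (by omega)
    have w0 : 0 < w := Nat.pos_of_mul_pos_left (a := a2) (by omega)
    refine ⟨⟨(a1, a2), v, w⟩, ?_, ?_, ?_⟩
    · simp only [mem_sigma, mem_product, T1, T2, mem_filter, mem_Icc,
        Nat.mem_divisorsAntidiagonal]
      refine ⟨⟨by rw [mul_comm, ← eg], hg.ne'⟩, ⟨⟨v0, ?_⟩, ex' ▸ hx, by rw [ex']⟩, ⟨w0, ?_⟩, ey ▸ hy⟩
      · exact le_trans (Nat.le_mul_of_pos_left v gp) (by omega)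
      · exact le_trans (Nat.le_mul_of_pos_left w a20) (by omega)
    · simpa only [ex', ← ey, en] using hne
    · simp only [ex', ← ey, en]
  · intro q _ _
    rfl

theorem col_zero (U V : ℕ) (b : ℕ → ℕ → ℂ)
    (hb : ∀ x y, b x y ≠ 0 → x ∈ Ico V (2 * V) ∧ y ∈ Ico U (2 * U)) (m : ℕ)
    (hm : 4 * (U * V) < m) : col b m = 0 := by
  refine sum_eq_zero fun x hx => ?_
  by_contra h
  obtain ⟨h1, h2⟩ := hb _ _ h
  have e := (Nat.mem_divisorsAntidiagonal.1 hx).1
  have := Nat.mul_le_mul (mem_Ico.1 h1).2.le (mem_Ico.1 h2).2.le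
  rw [e, show 2 * V * (2 * U) = 4 * (U * V) by ring] at this
  omega

theorem anti_le (W : ℕ) (f h : ℕ → ℝ) (hf : ∀ x, 0 ≤ f x) (hh : ∀ x, 0 ≤ h x) :
    ∑ g ∈ Icc 1 W, ∑ a ∈ g.divisorsAntidiagonal, f a.1 * h a.2 ≤
      (∑ x ∈ Icc 1 W, f x) * ∑ y ∈ Icc 1 W, h y := by
  rw [sum_mul_sum, ← sum_product' (f := fun x y => f x * h y)]
  calc _ ≤ ∑ g ∈ Icc 1 W, ∑ a ∈ (Icc 1 W ×ˢ Icc 1 W).filter (fun a => a.1 * a.2 = g),
        f a.1 * h a.2 := by
        refine sum_le_sum fun g hg => sum_le_sum_of_subset_of_nonneg (fun a ha => ?_)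
          fun a _ _ => mul_nonneg (hf _) (hh _)
        obtain ⟨e, g0⟩ := Nat.mem_divisorsAntidiagonal.1 ha
        have g1 := mem_Icc.1 hg
        have a1 : 0 < a.1 := Nat.pos_of_mul_pos_right (b := a.2) (by omega)
        have a2 : 0 < a.2 := Nat.pos_of_mul_pos_left (a := a.1) (by omega)
        have b1 := Nat.le_mul_of_pos_right a.1 a2
        have b2 := Nat.le_mul_of_pos_left a.2 a1
        simp only [mem_filter, mem_product, mem_Icc]
        omega
    _ ≤ _ := by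
        rw [sum_fiberwise_eq_sum_filter]
        exact sum_le_sum_of_subset_of_nonneg (filter_subset _ _)
          fun a _ _ => mul_nonneg (hf _) (hh _)

def phi (N1 θ : ℝ) (h : ℤ) (b : ℕ → ℕ → ℂ) (a : ℕ × ℕ) (k t : ℤ) (v w : ℕ) : ℂ :=
  ((N1 / (v * w : ℕ) : ℝ) : ℂ) * (starRingEnd ℂ) (b (a.1 * v) (a.2 * w)) *
    ee ((h * k - t * θ) / (v * w : ℕ))

theorem Bs_eq (hT : St_TOOL) (U V g K1 T : ℕ) (hg : 0 < g)
    (b : ℕ → ℕ → ℂ) (hb : ∀ x y, b x y ≠ 0 → x ∈ Ico V (2 * V) ∧ y ∈ Ico U (2 * U))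
    (ω : ℤ → ℂ) (θ Y N1 : ℝ) (h : ℤ) (hY : Y ≠ 0) (hN : N1 ≠ 0) :
    Bs (U * V) K1 T (fun n => col b (g * n)) ω θ h = ∑ a ∈ g.divisorsAntidiagonal,
      ((Y / N1 : ℝ) : ℂ) * S3 (T1 V g a.1) (T2 U a.2) (4 * (U * V) / g) (nz K1) (nz T)
        (fun n => col b (g * n) / Y) ω (phi N1 θ h b a) fun v w => h * θ / (v * w : ℕ) := by
  set G : ℕ → ℕ → ℂ := fun n1 n2 => if Nat.Coprime n1 n2 then 1 / (n2 : ℂ) *
    ∑ k ∈ nz K1, ∑ t ∈ nz T, ω t * ee ((h * k - t * θ + h * θ * n1) / n2) * kf (-(k * t)) n1 n2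
    else 0 with hG
  have e1 : Bs (U * V) K1 T (fun n => col b (g * n)) ω θ h =
      ∑ n1 ∈ Icc 1 (4 * (U * V) / g), col b (g * n1) *
        ∑ n2 ∈ Icc 1 (4 * (U * V)), (starRingEnd ℂ) (col b (g * n2)) * G n1 n2 := by
    rw [Bs, ← sum_subset (Icc_subset_Icc_right (Nat.div_le_self (4 * (U * V)) g))]
    · refine sum_congr rfl fun n1 _ => ?_
      rw [mul_sum]
      refine sum_congr rfl fun n2 _ => ?_
      simp only [hG]
      split_ifs
      · ring
      · simp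
    · intro n1 h1 h2
      have : 4 * (U * V) < g * n1 := by
        have h3 : 4 * (U * V) / g < n1 := by
          have := mem_Icc.1 h1
          rw [mem_Icc] at h2
          omega
        rw [mul_comm g]
        exact lt_of_lt_of_le (Nat.lt_mul_div_succ _ hg) (by
          rw [mul_comm g]; exact Nat.mul_le_mul_right _ h3)
      refine sum_eq_zero fun n2 _ => ?_
      simp [col_zero U V b hb _ this]
  rw [e1]
  simp only [split U V g hg b hb, S3, mul_sum]
  rw [sum_comm]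
  refine sum_congr rfl fun a _ => sum_congr rfl fun n _ => sum_congr rfl fun v hv =>
    sum_congr rfl fun w hw => ?_
  have hYc : (Y : ℂ) ≠ 0 := by exact_mod_cast hY
  have hNc : (N1 : ℂ) ≠ 0 := by exact_mod_cast hN
  simp only [hG]
  split_ifs
  · simp only [mul_sum]
    refine sum_congr rfl fun k _ => sum_congr rfl fun t _ => ?_
    rw [show (h * k - t * θ + h * θ * n : ℝ) / (v * w : ℕ) =
      (h * k - t * θ) / (v * w : ℕ) + h * θ / (v * w : ℕ) * n by ring, hT.add, phi]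
    push_cast
    field_simp
  · simp

end S3B

open S3B in
theorem st_S3 (hT : St_TOOL) (hG : St_GCD) (hB3 : St_B3) : St_S3 := by
  intro Λ Y hB V U K T M W1 θ h b ω hV hU hN hK hTT hb1 hb hM hω hW
  have hΛ := hB.lam
  have hY : (1000 : ℝ) ≤ Y := by
    refine le_trans ?_ hB.two
    calc (1000 : ℝ) ≤ 2 ^ 10 := by norm_num
      _ ≤ 2 ^ (300 * Λ) := pow_le_pow_right₀ (by norm_num) (by omega)
  have hY1 : (1 : ℝ) ≤ Y := by linarith
  have hY0 : (0 : ℝ) < Y := by linarith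
  have pw : ∀ a b : ℕ, a ≤ b → Y ^ a ≤ Y ^ b := fun a b h => pow_le_pow_right₀ hY1 h
  have hUV : 0 < U * V := Nat.mul_pos hU hV
  have hU1 : (1 : ℝ) ≤ U := by exact_mod_cast hU
  have hV1 : (1 : ℝ) ≤ V := by exact_mod_cast hV
  have hW0 : 0 ≤ W1 :=
    le_trans (sum_nonneg fun _ _ => norm_nonneg _) (hW 1 (mem_Icc.2 ⟨le_rfl, by omega⟩))
  have h4N : ((4 * (U * V) : ℕ) : ℝ) ≤ Y ^ (2000 * Λ) := by
    calc ((4 * (U * V) : ℕ) : ℝ) = 4 * ((U * V : ℕ) : ℝ) := by push_cast; ring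
      _ ≤ Y ^ 1 * Y ^ (120 * Λ) := mul_le_mul (by linarith) hN (by positivity) (by positivity)
      _ ≤ _ := by rw [← pow_add]; exact pw _ _ (by omega)
  have hcol : ∀ m, ‖col b m‖ ≤ Y := by
    intro m
    rcases le_or_gt m (4 * (U * V)) with hm | hm
    · exact le_trans (hG.col b m hb1) (hB.div m (le_trans (by exact_mod_cast hm) h4N))
    · rw [col_zero U V b hb m hm, norm_zero]; exact hY0.le
  have hN' : (U : ℝ) * V ≤ Y ^ (200 * Λ) := by
    refine le_trans ?_ (le_trans hN (pw _ _ (by omega)))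
    push_cast; exact le_rfl
  set A : ℝ := U * √(M * W1 * K * V) with hA
  set C : ℝ := √((U : ℝ) * V) * W1 * K * √√((U : ℝ) * V * V) with hC
  have hA0 : 0 ≤ A := by positivity
  have hC0 : 0 ≤ C := by positivity
  have one : ∀ g ∈ Icc 1 (4 * (U * V)),
      ‖Bs (U * V) (K / g) T (fun n => col b (g * n)) (ω g) θ h‖ ≤
        ∑ a ∈ g.divisorsAntidiagonal,
          Y ^ 6 * (A + C) * (1 / (a.1 : ℝ) * (1 / (a.2 * √(a.2 : ℝ)))) := by
    intro g hg
    have g0 : 0 < g := (mem_Icc.1 hg).1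
    have g0' : (0 : ℝ) < g := by exact_mod_cast g0
    have hN1 : (0 : ℝ) < U * V / g := by positivity
    rw [Bs_eq hT U V g (K / g) T g0 b hb (ω g) θ Y (U * V / g) h hY0.ne' hN1.ne']
    refine norm_sum_le_of_le _ fun a ha => ?_
    obtain ⟨a1, a2⟩ := a
    have e : a1 * a2 = g := (Nat.mem_divisorsAntidiagonal.1 ha).1
    have a10 : 0 < a1 := Nat.pos_of_mul_pos_right (e ▸ g0)
    have a20 : 0 < a2 := Nat.pos_of_mul_pos_left (e ▸ g0)
    have a11 : (1 : ℝ) ≤ a1 := by exact_mod_cast a10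
    have a21 : (1 : ℝ) ≤ a2 := by exact_mod_cast a20
    have er : (g : ℝ) = a1 * a2 := by exact_mod_cast e.symm
    by_cases hs : a1 ≤ 2 * V ∧ a2 ≤ 2 * U
    swap
    · have : T1 V g a1 = ∅ ∨ T2 U a2 = ∅ := by
        rcases not_and_or.1 hs with h1 | h1
        · refine Or.inl (filter_eq_empty_iff.2 fun v hv hh => h1 ?_)
          exact le_trans (Nat.le_mul_of_pos_right a1 (mem_Icc.1 hv).1) (mem_Ico.1 hh.1).2.le
        · refine Or.inr (filter_eq_empty_iff.2 fun v hv hh => h1 ?_)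
          exact le_trans (Nat.le_mul_of_pos_right a2 (mem_Icc.1 hv).1) (mem_Ico.1 hh).2.le
      have z : ∀ (N4 : ℕ) Ks Ts β ω φ lam, S3 (T1 V g a1) (T2 U a2) N4 Ks Ts β ω φ lam = 0 := by
        intro N4 Ks Ts β ω φ lam
        rcases this with h1 | h1 <;> simp [S3, h1]
      rw [z, mul_zero, norm_zero]
      positivity
    have s1 : (a1 : ℝ) ≤ 2 * V := by exact_mod_cast hs.1
    have s2 : (a2 : ℝ) ≤ 2 * U := by exact_mod_cast hs.2
    have eN : (U : ℝ) / a2 * (V / a1) = U * V / g := by rw [er]; field_simp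
    have key := hB3 Λ Y hB (V / a1) (U / a2) (K / g) M W1 (T1 V g a1) (T2 U a2)
      (4 * (U * V) / g) (nz (K / g)) (nz T) (fun n => col b (g * n) / Y) (ω g)
      (phi (U * V / g) θ h b (a1, a2)) (fun v w => h * θ / (v * w : ℕ))
      (by rw [le_div_iff₀ (by linarith)]; linarith) (by rw [le_div_iff₀ (by linarith)]; linarith)
      (le_trans (div_le_self (by linarith) a11) (le_trans (by nlinarith) hN'))
      (le_trans (div_le_self (by linarith) a21) (le_trans (by nlinarith) hN'))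
      (by positivity)
      (le_trans (div_le_self (by positivity) (by exact_mod_cast g0))
        (le_trans (by exact_mod_cast hK) hN'))
      (fun v hv => by
        have := mem_Ico.1 (mem_filter.1 hv).2.1
        have h1 : (V : ℝ) ≤ a1 * v := by exact_mod_cast this.1
        have h2 : (a1 : ℝ) * v ≤ 2 * V := by exact_mod_cast this.2.le
        rw [div_le_iff₀ (by linarith), ← mul_div_assoc, le_div_iff₀ (by linarith)]
        constructor <;> linarith)
      (fun v hv => by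
        have := mem_Ico.1 (mem_filter.1 hv).2
        have h1 : (U : ℝ) ≤ a2 * v := by exact_mod_cast this.1
        have h2 : (a2 : ℝ) * v ≤ 2 * U := by exact_mod_cast this.2.le
        rw [div_le_iff₀ (by linarith), ← mul_div_assoc, le_div_iff₀ (by linarith)]
        constructor <;> linarith)
      (by
        rw [mul_assoc, eN, ← mul_div_assoc]
        refine le_trans Nat.cast_div_le (le_of_eq ?_)
        push_cast; ring)
      (fun k hk => by
        obtain ⟨k0, hk⟩ := mem_erase.1 hk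
        refine ⟨k0, le_trans ?_ (Nat.cast_div_le (m := K) (n := g))⟩
        have := abs_le.2 (mem_Icc.1 hk)
        generalize K / g = r at this ⊢
        exact_mod_cast this)
      (fun t ht => by
        obtain ⟨t0, ht⟩ := mem_erase.1 ht
        refine ⟨t0, le_trans ?_ hTT⟩
        have := abs_le.2 (mem_Icc.1 ht)
        exact_mod_cast this)
      (fun n => by
        rw [norm_div, Complex.norm_real, Real.norm_of_nonneg hY0.le, div_le_one hY0]
        exact hcol _)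
      (fun k t v w => by
        by_cases hb0 : b (a1 * v) (a2 * w) = 0
        · simp [phi, hb0]
        obtain ⟨h1, h2⟩ := hb _ _ hb0
        have h3 : (V : ℝ) ≤ a1 * v := by exact_mod_cast (mem_Ico.1 h1).1
        have h4 : (U : ℝ) ≤ a2 * w := by exact_mod_cast (mem_Ico.1 h2).1
        have h5 : (U : ℝ) * V / g ≤ (v * w : ℕ) := by
          rw [div_le_iff₀ g0', er]
          push_cast
          calc (U : ℝ) * V ≤ a2 * w * (a1 * v) := mul_le_mul h4 h3 (by linarith) (by linarith)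
            _ = _ := by ring
        rw [phi, norm_mul, norm_mul, hT.norm, mul_one, RCLike.norm_conj, Complex.norm_real,
          Real.norm_of_nonneg (by positivity)]
        exact mul_le_one₀ (div_le_one_of_le₀ h5 (by positivity)) (norm_nonneg _) (hb1 _ _))
      hM (hω g) (hW g hg)
    rw [norm_mul, Complex.norm_real, Real.norm_of_nonneg (by positivity)]
    refine le_trans (mul_le_mul_of_nonneg_left key (by positivity)) ?_
    have sq2 : 0 < √(a2 : ℝ) := Real.sqrt_pos.2 (by linarith)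
    have t1 : (U : ℝ) / a2 * √(M * W1 * (K / g) * (V / a1)) =
        A * (1 / (a1 : ℝ) * (1 / (a2 * √(a2 : ℝ)))) := by
      rw [show M * W1 * (K / g) * (V / a1) = M * W1 * K * V / ((a1 : ℝ) ^ 2 * a2) by
        rw [er]; field_simp, Real.sqrt_div' _ (by positivity), Real.sqrt_mul (sq_nonneg _),
        Real.sqrt_sq (by linarith), hA]
      field_simp
    have t2 : √((U : ℝ) * V / g) * W1 * (K / g) * √√((V / a1 : ℝ) ^ 2 * (U / a2)) ≤
        C * (1 / (a1 : ℝ) * (1 / (a2 * √(a2 : ℝ)))) := by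
      have u1 : √((U : ℝ) * V / g) ≤ √((U : ℝ) * V) / √(a2 : ℝ) := by
        rw [← Real.sqrt_div' _ (by positivity)]
        refine Real.sqrt_le_sqrt (div_le_div_of_nonneg_left (by positivity) (by linarith) ?_)
        rw [er]; nlinarith
      have u2 : √√((V / a1 : ℝ) ^ 2 * (U / a2)) ≤ √√((U : ℝ) * V * V) := by
        refine Real.sqrt_le_sqrt (Real.sqrt_le_sqrt ?_)
        calc (V / a1 : ℝ) ^ 2 * (U / a2) ≤ (V : ℝ) ^ 2 * U :=
              mul_le_mul (pow_le_pow_left₀ (by positivity) (div_le_self (by linarith) a11) 2)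
                (div_le_self (by linarith) a21) (by positivity) (by positivity)
          _ = _ := by ring
      calc _ ≤ √((U : ℝ) * V) / √(a2 : ℝ) * W1 * (K / g) * √√((U : ℝ) * V * V) := by gcongr
        _ = _ := by rw [hC, er]; field_simp
    rw [eN]
    calc Y / (U * V / g) * (Y ^ 5 * (U * V / g * (U / a2) * √(M * W1 * (K / g) * (V / a1)) +
          U * V / g * √((U : ℝ) * V / g) * W1 * (K / g) * √√((V / a1 : ℝ) ^ 2 * (U / a2)))) =
          Y ^ 6 * ((U : ℝ) / a2 * √(M * W1 * (K / g) * (V / a1)) +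
            √((U : ℝ) * V / g) * W1 * (K / g) * √√((V / a1 : ℝ) ^ 2 * (U / a2))) := by
          generalize (U : ℝ) * V / g = N1 at hN1 ⊢
          field_simp
      _ ≤ Y ^ 6 * (A * (1 / (a1 : ℝ) * (1 / (a2 * √(a2 : ℝ)))) +
            C * (1 / (a1 : ℝ) * (1 / (a2 * √(a2 : ℝ))))) :=
          mul_le_mul_of_nonneg_left (add_le_add t1.le t2) (by positivity)
      _ = _ := by ring
  refine le_trans (sum_le_sum one) ?_
  simp only [← mul_sum]
  have h1 := anti_le (4 * (U * V)) (fun x => 1 / (x : ℝ)) (fun y => 1 / (y * √(y : ℝ)))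
    (fun _ => by positivity) (fun _ => by positivity)
  have h2 : (∑ x ∈ Icc 1 (4 * (U * V)), 1 / (x : ℝ)) *
      ∑ y ∈ Icc 1 (4 * (U * V)), 1 / (y * √(y : ℝ)) ≤ Y := by
    have l1 := hG.har (4 * (U * V))
    have l2 := hG.har2 (4 * (U * V))
    have l3 : Real.log ((4 * (U * V) : ℕ) : ℝ) ≤ Real.log (Y ^ (2000 * Λ)) :=
      Real.log_le_log (by positivity) h4N
    have l4 := hB.log
    have l5 : 0 ≤ Real.log ((4 * (U * V) : ℕ) : ℝ) := Real.log_natCast_nonneg _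
    calc _ ≤ (1 + Real.log ((4 * (U * V) : ℕ) : ℝ)) * 3 :=
          mul_le_mul l1 l2 (sum_nonneg fun _ _ => by positivity) (by linarith)
      _ ≤ Y := by linarith
  calc _ ≤ Y ^ 6 * (A + C) * Y := mul_le_mul_of_nonneg_left (le_trans h1 h2) (by positivity)
    _ = Y ^ 7 * (A + C) := by ring
    _ ≤ _ := mul_le_mul_of_nonneg_right (pw 7 10 (by norm_num)) (by positivity)

end Pool.Agent.Lib.AP
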