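import Pool.Agent.Lib.AP.Blue

/-! Separation of variables in an inequality. -/

open Finset Classical

noncomputable section

namespace Pool.Agent.Lib.AP

namespace SEP

theorem range_eq (n : ℕ) (F : ℤ → ℂ) :
    ∑ j ∈ range n, F j = ∑ k ∈ Ioc (-1 : ℤ) (-1 + n), F k := by
  refine Finset.sum_bij (fun j _ => (j : ℤ)) ?_ ?_ ?_ ?_
  · intro j hj
    rw [mem_range] at hj
    rw [mem_Ioc]; omega
  · intro a _ b _ h
    exact_mod_cast h
  · intro k hk
    rw [mem_Ioc] at hk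
    refine ⟨k.toNat, mem_range.2 (by omega), by omega⟩
  · intro j _; rfl

end SEP

theorem st_SEP (hT : St_TOOL) : St_SEP := by
  intro Z
  have hn : (0 : ℝ) < 2 * Z + 2 := by positivity
  have hnc : ((2 * Z + 2 : ℕ) : ℝ) = 2 * Z + 2 := by push_cast; ring
  refine ⟨fun j => (1 / ((2 * Z + 2 : ℕ) : ℂ)) *
    ∑ d ∈ Ioc 0 Z, ee (d * (0 - (j : ℝ) / ((2 * Z + 2 : ℕ) : ℝ))), ?_, ?_⟩
  · have hg := hT.grid (2 * Z + 2) 0 Z
      (fun j => ‖∑ d ∈ Ioc 0 Z, ee (d * (0 - (j : ℝ) / ((2 * Z + 2 : ℕ) : ℝ)))‖) (by omega)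
      (by positivity) (fun h => ⟨by
        refine (norm_sum_le _ _).trans ?_
        simp [hT.norm], by rw [mul_comm]; exact hT.geoN _ 0 Z⟩)
    have hl : 0 ≤ Real.log (2 * Z + 2) := Real.log_nonneg (by linarith [Nat.cast_nonneg (α := ℝ) Z])
    simp only [norm_mul, norm_div, norm_one, Complex.norm_natCast]
    rw [← Finset.mul_sum, hnc] at *
    rw [one_div, inv_mul_le_iff₀ hn]
    nlinarith [Nat.cast_nonneg (α := ℝ) Z]
  · intro u v hu hv
    have hc : ((2 * Z + 2 : ℕ) : ℂ) ≠ 0 := Nat.cast_ne_zero.2 (by omega)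
    have key : ∀ j ∈ range (2 * Z + 2), (1 / ((2 * Z + 2 : ℕ) : ℂ)) *
        (∑ d ∈ Ioc 0 Z, ee (d * (0 - (j : ℝ) / ((2 * Z + 2 : ℕ) : ℝ)))) *
          ee (-(j * u) / (2 * Z + 2)) * ee (j * v / (2 * Z + 2)) =
        (1 / ((2 * Z + 2 : ℕ) : ℂ)) * ∑ d ∈ Ioc 0 Z,
          ee (((j : ℤ) : ℝ) * (((v : ℤ) - u - d : ℤ) : ℝ) / ((2 * Z + 2 : ℕ) : ℝ)) := by
      intro j _
      rw [mul_assoc, mul_assoc, Finset.sum_mul]
      congr 1
      refine Finset.sum_congr rfl fun d _ => ?_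
      rw [← hT.add, ← hT.add]
      congr 1
      rw [hnc]; push_cast; field_simp; ring
    rw [Finset.sum_congr rfl key, ← Finset.mul_sum, Finset.sum_comm]
    have h2 : ∀ d ∈ Ioc 0 Z, ∑ j ∈ range (2 * Z + 2),
        ee (((j : ℤ) : ℝ) * (((v : ℤ) - u - d : ℤ) : ℝ) / ((2 * Z + 2 : ℕ) : ℝ)) =
        if d = v - u then ((2 * Z + 2 : ℕ) : ℂ) else 0 := by
      intro d hd
      rw [mem_Ioc] at hd
      rw [SEP.range_eq (2 * Z + 2)
        (fun k => ee ((k : ℝ) * (((v : ℤ) - u - d : ℤ) : ℝ) / ((2 * Z + 2 : ℕ) : ℝ))),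
        hT.orth (2 * Z + 2) (-1) _ (by omega)]
      refine if_congr ⟨fun h => ?_, fun h => ?_⟩ rfl rfl
      · have := Int.eq_zero_of_abs_lt_dvd h (by rw [abs_lt]; push_cast; omega)
        omega
      · have : (v : ℤ) - u - d = 0 := by omega
        rw [this]; exact dvd_zero _
    rw [Finset.sum_congr rfl h2, Finset.sum_ite_eq']
    by_cases h : u < v
    · rw [if_pos h, if_pos (mem_Ioc.2 ⟨by omega, by omega⟩)]; field_simp
    · rw [if_neg h, if_neg (by rw [mem_Ioc]; omega), mul_zero]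

end Pool.Agent.Lib.AP
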