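import Pool.Agent.Lib.AP.Blue2

/-! One thin slab of exponent vectors carries mass `O(Λ⁻²)`. -/

open Finset Classical Filter

noncomputable section

namespace Pool.Agent.Lib.AP

namespace SLAB

/-- lists of given length with entries in `P` -/
def LL (P : Finset ℕ) : ℕ → Finset (List ℕ)
  | 0 => {[]}
  | j + 1 => (P ×ˢ LL P j).image fun x => x.1 :: x.2

lemma mem_LL (P : Finset ℕ) : ∀ l : List ℕ, (∀ x ∈ l, x ∈ P) → l ∈ LL P l.length
  | [], _ => by simp [LL]
  | a :: l, h => by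
    simp only [List.length_cons, LL, mem_image, mem_product]
    exact ⟨(a, l), ⟨h a (by simp), mem_LL P l fun x hx => h x (by simp [hx])⟩, rfl⟩

lemma cover {τ : Type*} (T : Finset τ) (φ : τ → ℕ) (N : Finset ℕ) (w : ℕ → ℝ)
    (hw : ∀ n, 0 ≤ w n) (h : ∀ n ∈ N, ∃ t ∈ T, φ t = n) :
    ∑ n ∈ N, w n ≤ ∑ t ∈ T, w (φ t) := by
  calc ∑ n ∈ N, w n ≤ ∑ n ∈ T.image φ, w n :=
        sum_le_sum_of_subset_of_nonneg (fun n hn => mem_image.2 (h n hn)) fun n _ _ => hw n
    _ ≤ ∑ t ∈ T, w (φ t) := sum_image_le_of_nonneg fun n _ => hw n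

lemma sum_LL (P : Finset ℕ) (j : ℕ) :
    ∑ l ∈ LL P j, (1 : ℝ) / (l.prod : ℕ) = (∑ p ∈ P, (1 : ℝ) / p) ^ j := by
  induction j with
  | zero => simp [LL]
  | succ j ih =>
    rw [LL, sum_image, sum_product, pow_succ', ← ih, sum_mul_sum]
    · refine sum_congr rfl fun p _ => sum_congr rfl fun l _ => ?_
      simp only [List.prod_cons, Nat.cast_mul]
      rw [one_div_mul_one_div]
    · rintro ⟨a, l⟩ _ ⟨b, m⟩ _ h
      simp only [List.cons.injEq] at h
      exact Prod.ext h.1 h.2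

/-- primes in a window of exponents -/
lemma win {Y e : ℝ} (hY : 1 < Y)
    (hM : ∀ A B : ℝ, Y ≤ A → A ≤ B → |∑ p ∈ (Ioc ⌊A⌋₊ ⌊B⌋₊).filter Nat.Prime, (1 : ℝ) / p -
      Real.log (Real.log B / Real.log A)| ≤ e)
    (Q : Finset ℕ) {a w L : ℝ} (hL : 1 ≤ L) (hw : 0 ≤ w) (hLa : L ≤ a)
    (hQ : ∀ p ∈ Q, p.Prime ∧ a < Real.logb Y p ∧ Real.logb Y p ≤ a + w) :
    ∑ p ∈ Q, (1 : ℝ) / p ≤ w / L + e := by
  have hY0 : 0 < Y := by linarith
  have ha : 0 < a := by linarith
  have h1 : Y ≤ Y ^ a := by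
    calc Y = Y ^ (1 : ℝ) := (Real.rpow_one Y).symm
      _ ≤ Y ^ a := Real.rpow_le_rpow_of_exponent_le hY.le (by linarith)
  have h2 : Y ^ a ≤ Y ^ (a + w) := Real.rpow_le_rpow_of_exponent_le hY.le (by linarith)
  have h3 := (abs_le.1 (hM _ _ h1 h2)).2
  have hl : Real.log Y ≠ 0 := (Real.log_pos hY).ne'
  have h4 : Real.log (Y ^ (a + w)) / Real.log (Y ^ a) = (a + w) / a := by
    rw [Real.log_rpow hY0, Real.log_rpow hY0]
    field_simp
  rw [h4] at h3
  have h5 : Real.log ((a + w) / a) ≤ w / L := by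
    have := Real.log_le_sub_one_of_pos (show 0 < (a + w) / a by positivity)
    have h6 : (a + w) / a - 1 = w / a := by field_simp; ring
    have h7 : w / a ≤ w / L := div_le_div_of_nonneg_left hw (by linarith) hLa
    linarith
  have h8 : ∑ p ∈ Q, (1 : ℝ) / p ≤
      ∑ p ∈ (Ioc ⌊Y ^ a⌋₊ ⌊Y ^ (a + w)⌋₊).filter Nat.Prime, (1 : ℝ) / p := by
    refine sum_le_sum_of_subset_of_nonneg (fun p hp => ?_) fun p _ _ => by positivity
    obtain ⟨hp1, hp2, hp3⟩ := hQ p hp
    have hp0 : (0 : ℝ) < p := by exact_mod_cast hp1.pos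
    rw [mem_filter, mem_Ioc]
    refine ⟨⟨?_, ?_⟩, hp1⟩
    · rw [Nat.floor_lt (by positivity)]
      exact (Real.lt_logb_iff_rpow_lt hY hp0).1 hp2
    · exact Nat.le_floor ((Real.logb_le_iff_le_rpow hY hp0).1 hp3)
  linarith

lemma sum_getD (u : List ℝ) : ∑ i ∈ range u.length, u.getD i 0 = u.sum := by
  induction u with
  | nil => simp
  | cons a u ih =>
    rw [List.length_cons, sum_range_succ', List.sum_cons, ← ih]
    simp [add_comm]

lemma getD_mid (u1 u2 : List ℝ) (x : ℝ) (i : ℕ) :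
    (u1 ++ x :: u2).getD i 0 = (u1 ++ 0 :: u2).getD i 0 + if i = u1.length then x else 0 := by
  induction u1 generalizing i with
  | nil => cases i <;> simp
  | cons a u ih =>
    cases i with
    | zero => simp
    | succ i => simpa using ih i

lemma form (u : List ℝ) (c : ℕ → ℤ) :
    ∑ i ∈ range (u.length + 1), (c i : ℝ) * (u ++ [270 - u.sum]).getD i 0 =
      ∑ i ∈ range u.length, ((c i : ℝ) - c u.length) * u.getD i 0 + 270 * c u.length := by
  rw [sum_range_succ]
  have h1 : ∀ i ∈ range u.length, (c i : ℝ) * (u ++ [270 - u.sum]).getD i 0 =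
      c i * u.getD i 0 := fun i hi => by
    rw [List.getD_append _ _ _ _ (mem_range.1 hi)]
  rw [sum_congr rfl h1, List.getD_append_right _ _ _ _ le_rfl]
  simp only [sub_mul, sum_sub_distrib, ← mul_sum, sum_getD, Nat.sub_self, List.getD_cons_zero]
  ring

lemma len_le {Y : ℝ} (hY : 1 < Y) {Λ : ℕ} : ∀ l : List ℕ, (∀ p ∈ l, Y ^ (9 * Λ) ≤ (p : ℝ)) →
    Y ^ (9 * Λ * l.length) ≤ (l.prod : ℕ)
  | [], _ => by simp
  | a :: l, h => by
    rw [List.length_cons, mul_add, pow_add, mul_one, List.prod_cons, Nat.cast_mul, mul_comm]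
    exact mul_le_mul (h a (by simp)) (len_le hY l fun p hp => h p (by simp [hp]))
      (by positivity) (by positivity)

end SLAB

open SLAB in
theorem st_SLAB (hM : St_MER) : St_SLAB := by
  refine ⟨31 ^ 30 * 400, fun Λ hΛ ε hε => ?_⟩
  set e : ℝ := min 1 (ε / (3 * 31 ^ 30)) with he
  have he0 : 0 < e := lt_min one_pos (by positivity)
  have he1 : e ≤ 1 := min_le_left _ _
  have he2 : 31 ^ 30 * (3 * e) ≤ ε := by
    have : e ≤ ε / (3 * 31 ^ 30) := min_le_right _ _
    rw [le_div_iff₀ (by positivity)] at this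
    linarith
  filter_upwards [hM e he0, eventually_gt_atTop (1 : ℝ)] with Y hMY hY k c γ hc
  have hΛR : (100000 : ℝ) ≤ Λ := by exact_mod_cast hΛ
  have hΛ0 : (0 : ℝ) < Λ := by linarith
  have hY0 : 0 < Y := by linarith
  have hR : (0 : ℝ) ≤ 31 ^ 30 * 400 / (Λ : ℝ) ^ 2 + ε := by positivity
  have hlb : ∀ m : ℕ, Real.logb Y (Y ^ m) = m := fun m => by
    rw [Real.logb_pow, Real.logb_self_eq_one hY, mul_one]
  rw [← sum_filter]
  set N := (Ioc (X0 Λ Y) (X1 Λ Y)).filter fun n => rough Λ Y n ∧ (xs (Y ^ Λ) n).length = k ∧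
      |∑ i ∈ range k, (c i : ℝ) * (xs (Y ^ Λ) n).getD i 0 - γ| ≤ 10000 / Λ with hN
  set P := (range (X1 Λ Y + 1)).filter fun p : ℕ => p.Prime ∧ Y ^ (9 * Λ) < (p : ℝ) with hP
  have hPm : ∀ p ∈ P, p.Prime ∧ (9 * Λ : ℝ) < Real.logb Y p ∧
      Real.logb Y p ≤ 270 * Λ + 1 := fun p hp => by
    rw [hP, mem_filter, mem_range] at hp
    have hp0 : (0 : ℝ) < p := by exact_mod_cast hp.2.1.pos
    refine ⟨hp.2.1, ?_, ?_⟩
    · have := Real.logb_lt_logb hY (by positivity) hp.2.2
      rw [hlb] at this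
      exact_mod_cast this
    · have h1 : (p : ℝ) ≤ Y ^ (270 * Λ + 1) :=
        (Nat.cast_le.2 (Nat.lt_succ_iff.1 hp.1)).trans (Nat.floor_le (by positivity))
      have := Real.logb_le_logb_of_le hY hp0 h1
      rw [hlb] at this
      exact_mod_cast this
  -- the shape of a member of `N`
  have hshape : ∀ n ∈ N, ∃ (l : List ℕ) (q : ℕ), l.length + 1 = k ∧ l.length ≤ 30 ∧
      (∀ p ∈ l, p ∈ P) ∧ q ∈ P ∧ l.prod * q = n ∧ n ∈ Ioc (X0 Λ Y) (X1 Λ Y) ∧
      |∑ i ∈ range l.length, ((c i : ℝ) - c l.length) *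
        (l.map fun p : ℕ => Real.logb (Y ^ Λ) p).getD i 0 + 270 * c l.length - γ| ≤
        10000 / Λ := fun n hn => by
    rw [hN, mem_filter] at hn
    obtain ⟨hn1, hr, hk, hs⟩ := hn
    have hX0 : 1 ≤ X0 Λ Y := Nat.le_floor (by simpa using one_le_pow₀ hY.le)
    have hn2 : 2 ≤ n := by have := (mem_Ioc.1 hn1).1; omega
    have hne : n.primeFactorsList ≠ [] := (Nat.primeFactorsList_ne_nil n).2 hn2
    have hsplit := List.dropLast_append_getLast hne
    have hall : ∀ p ∈ n.primeFactorsList, p ∈ P := fun p hp => by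
      have hpp := Nat.prime_of_mem_primeFactorsList hp
      have hd := Nat.dvd_of_mem_primeFactorsList hp
      rw [hP, mem_filter, mem_range]
      refine ⟨?_, hpp, ?_⟩
      · have := Nat.le_of_dvd (by omega) hd
        have := (mem_Ioc.1 hn1).2
        omega
      · have h1 := hr p hpp hd
        have h2 : Y ^ (9 * Λ) * Y ^ 1200 ≤ Y ^ (10 * Λ) := by
          rw [← pow_add]
          exact pow_le_pow_right₀ hY.le (by omega)
        exact lt_of_mul_lt_mul_right (h2.trans_lt h1) (by positivity)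
    have hlen : (xs (Y ^ Λ) n).length = n.primeFactorsList.dropLast.length + 1 := by
      simp [xs]
    refine ⟨n.primeFactorsList.dropLast, n.primeFactorsList.getLast hne, by omega, ?_,
      fun p hp => hall p (List.mem_of_mem_dropLast hp), hall _ (List.getLast_mem hne), ?_,
      hn1, ?_⟩
    · have h1 := len_le (Λ := Λ) hY n.primeFactorsList fun p hp => by
        have := hall p hp
        rw [hP, mem_filter] at this
        exact this.2.2.le
      rw [Nat.prod_primeFactorsList (by omega)] at h1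
      have h2 : (n : ℝ) ≤ Y ^ (270 * Λ + 1) :=
        (Nat.cast_le.2 (mem_Ioc.1 hn1).2).trans (Nat.floor_le (by positivity))
      have h3 := (pow_le_pow_iff_right₀ hY).1 (h1.trans h2)
      rw [List.length_dropLast]
      by_contra h4
      have h5 : 9 * Λ * 31 ≤ 9 * Λ * n.primeFactorsList.length :=
        Nat.mul_le_mul_left _ (by omega)
      omega
    · have := Nat.prod_primeFactorsList (n := n) (by omega)
      rw [← hsplit, List.prod_append, List.prod_singleton] at this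
      exact this
    · have h1 := form (n.primeFactorsList.dropLast.map fun p : ℕ => Real.logb (Y ^ Λ) p) c
      rw [List.length_map] at h1
      rw [← h1]
      rw [← hk, hlen] at hs
      exact hs
  rcases N.eq_empty_or_nonempty with hNe | ⟨n0, hn0⟩
  · rw [hNe, sum_empty]; exact hR
  obtain ⟨l0, -, hk0, hm30, -, -, -, -, hs0⟩ := hshape n0 hn0
  obtain ⟨m, hm⟩ : ∃ m, l0.length = m := ⟨_, rfl⟩
  rw [hm] at hk0 hm30 hs0
  by_cases hex : ∃ i < m, c i ≠ c m
  swap
  · exfalso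
    push Not at hex
    have h1 : ∀ i ∈ range m, ((c i : ℝ) - c m) *
        (l0.map fun p : ℕ => Real.logb (Y ^ Λ) p).getD i 0 = 0 := fun i hi => by
      rw [hex i (mem_range.1 hi), sub_self, zero_mul]
    rw [sum_eq_zero h1, zero_add] at hs0
    obtain ⟨i, hi, hiγ⟩ := hc
    have h2 : c i = c m := by
      rcases Nat.lt_or_ge i m with h | h
      · exact hex i h
      · rw [show i = m by omega]
    rw [h2] at hiγ
    have h3 : (1 : ℤ) ≤ |270 * c m - γ| := Int.one_le_abs (sub_ne_zero.2 hiγ)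
    have h4 : (1 : ℝ) ≤ |270 * (c m : ℝ) - γ| := by exact_mod_cast h3
    have h5 : (10000 : ℝ) / Λ < 1 := by rw [div_lt_one hΛ0]; linarith
    linarith
  obtain ⟨i0, hi0, hci⟩ := hex
  have hd1 : (1 : ℝ) ≤ |(c i0 : ℝ) - c m| := by
    exact_mod_cast Int.one_le_abs (sub_ne_zero.2 hci)
  have hd0 : (c i0 : ℝ) - c m ≠ 0 := fun h => by rw [h, abs_zero] at hd1; linarith
  -- the centre of the window
  set G : List ℕ × List ℕ → ℝ := fun x => -(Λ * (∑ i ∈ range m, ((c i : ℝ) - c m) *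
    ((x.1.map fun p : ℕ => Real.logb (Y ^ Λ) p) ++ 0 ::
      (x.2.map fun p : ℕ => Real.logb (Y ^ Λ) p)).getD i 0 + 270 * c m - γ) /
      ((c i0 : ℝ) - c m)) with hG
  have hS : ∑ p ∈ P, (1 : ℝ) / p ≤ 31 := by
    have h1 := win hY hMY P (a := 9 * Λ) (w := 261 * Λ + 1) (L := 9 * Λ) (by linarith)
      (by positivity) le_rfl fun p hp => ⟨(hPm p hp).1, (hPm p hp).2.1, by
        have := (hPm p hp).2.2; linarith⟩
    have h2 : (261 * (Λ : ℝ) + 1) / (9 * Λ) ≤ 30 := by
      rw [div_le_iff₀ (by positivity)]; linarith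
    linarith
  have hS0 : 0 ≤ ∑ p ∈ P, (1 : ℝ) / p := sum_nonneg fun p _ => by positivity
  have hA : ∀ T : ℝ, ∑ p ∈ P.filter (fun p : ℕ => |Real.logb Y p - T| ≤ 10000), (1 : ℝ) / p ≤
      20001 / (8 * Λ) + e := fun T => by
    rcases (P.filter fun p : ℕ => |Real.logb Y p - T| ≤ 10000).eq_empty_or_nonempty with
      h | ⟨p0, hp0⟩
    · rw [h, sum_empty]; positivity
    rw [mem_filter] at hp0
    have h1 := (hPm p0 hp0.1).2.1
    have h2 := (abs_le.1 hp0.2).2
    refine win hY hMY _ (a := T - 10001) (by linarith) (by norm_num) (by linarith)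
      fun p hp => ?_
    rw [mem_filter] at hp
    have h3 := abs_le.1 hp.2
    exact ⟨(hPm p hp.1).1, by linarith [h3.1], by linarith [h3.2]⟩
  have hB : ∀ s : ℕ, ∑ q ∈ P.filter (fun q : ℕ => s * q ∈ Ioc (X0 Λ Y) (X1 Λ Y)), (1 : ℝ) / q ≤
      1 / (8 * Λ) + e := fun s => by
    have key : ∀ q ∈ P.filter (fun q : ℕ => s * q ∈ Ioc (X0 Λ Y) (X1 Λ Y)),
        q.Prime ∧ 270 * Λ - Real.logb Y s < Real.logb Y q ∧
          Real.logb Y q ≤ 270 * Λ - Real.logb Y s + 1 := fun q hq => by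
      rw [mem_filter, mem_Ioc] at hq
      have hq0 : (0 : ℝ) < q := by exact_mod_cast (hPm q hq.1).1.pos
      have hs0 : (0 : ℝ) < s := by
        rcases Nat.eq_zero_or_pos s with h | h
        · rw [h, zero_mul] at hq; exact absurd hq.2.1 (Nat.not_lt_zero _)
        · exact_mod_cast h
      have h1 : Y ^ (270 * Λ) < (s : ℝ) * q := by
        have := Nat.lt_of_floor_lt hq.2.1
        exact_mod_cast this
      have h2 : (s : ℝ) * q ≤ Y ^ (270 * Λ + 1) := by
        have h3 : ((s * q : ℕ) : ℝ) ≤ Y ^ (270 * Λ + 1) :=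
          (Nat.cast_le.2 hq.2.2).trans (Nat.floor_le (by positivity))
        exact_mod_cast h3
      have h4 := Real.logb_lt_logb hY (by positivity) h1
      have h5 := Real.logb_le_logb_of_le hY (by positivity) h2
      rw [hlb, Real.logb_mul hs0.ne' hq0.ne'] at h4 h5
      push_cast at h4 h5
      exact ⟨(hPm q hq.1).1, by linarith, by linarith⟩
    rcases (P.filter fun q : ℕ => s * q ∈ Ioc (X0 Λ Y) (X1 Λ Y)).eq_empty_or_nonempty with
      h | ⟨q0, hq0⟩
    · rw [h, sum_empty]; positivity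
    have h1 := (hPm q0 (mem_filter.1 hq0).1).2.1
    have h2 := (key q0 hq0).2.2
    exact win hY hMY _ (a := 270 * Λ - Real.logb Y s) (by linarith) (by norm_num) (by linarith) key
  have hcov := cover
    ((LL P i0 ×ˢ LL P (m - 1 - i0)).sigma fun x =>
      (P.filter fun p : ℕ => |Real.logb Y p - G x| ≤ 10000).sigma fun p =>
        P.filter fun q : ℕ => x.1.prod * x.2.prod * p * q ∈ Ioc (X0 Λ Y) (X1 Λ Y))
    (fun t => t.1.1.prod * t.1.2.prod * t.2.1 * t.2.2) N (fun n => (1 : ℝ) / n)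
    (fun n => by positivity) (fun n hn => by
      obtain ⟨l, q, hk, -, hl, hq, hpr, hnI, hs⟩ := hshape n hn
      have hlm : l.length = m := by omega
      have hi : i0 < l.length := by omega
      have hsp : l = l.take i0 ++ l[i0] :: l.drop (i0 + 1) := by
        rw [← List.drop_eq_getElem_cons hi, List.take_append_drop]
      obtain ⟨l1, p, l2, rfl, h1⟩ : ∃ l1 p l2, l = l1 ++ p :: l2 ∧ l1.length = i0 :=
        ⟨_, _, _, hsp, by rw [List.length_take]; omega⟩
      have h2 : l2.length = m - 1 - i0 := by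
        rw [List.length_append, List.length_cons] at hlm; omega
      have hpr' : l1.prod * l2.prod * p * q = n := by
        rw [← hpr, List.prod_append, List.prod_cons]; ring
      refine ⟨⟨(l1, l2), p, q⟩, ?_, hpr'⟩
      simp only [mem_sigma, mem_product, mem_filter]
      refine ⟨⟨?_, ?_⟩, ⟨hl p (by simp), ?_⟩, hq, by rw [hpr']; exact hnI⟩
      · rw [← h1]; exact mem_LL P l1 fun x hx => hl x (by simp [hx])
      · rw [← h2]; exact mem_LL P l2 fun x hx => hl x (by simp [hx])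
      · rw [hlm, List.map_append, List.map_cons] at hs
        simp only [getD_mid _ _ (Real.logb (Y ^ Λ) p), List.length_map, h1, mul_add,
          sum_add_distrib, mul_ite, mul_zero, sum_ite_eq', mem_range, hi0, if_true] at hs
        have h3 : Real.logb (Y ^ Λ) p = Real.logb Y p / Λ := by
          rw [Real.logb, Real.logb, Real.log_pow]; ring
        rw [h3] at hs
        simp only [hG]
        set E := ∑ i ∈ range m, ((c i : ℝ) - c m) *
          ((l1.map fun p : ℕ => Real.logb (Y ^ Λ) p) ++ 0 ::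
            (l2.map fun p : ℕ => Real.logb (Y ^ Λ) p)).getD i 0
        have h4 : E + ((c i0 : ℝ) - c m) * (Real.logb Y p / Λ) + 270 * c m - γ =
            ((c i0 : ℝ) - c m) * (Real.logb Y p - -(Λ * (E + 270 * c m - γ) /
              ((c i0 : ℝ) - c m))) / Λ := by
          field_simp
          ring
        rw [h4, abs_div, abs_mul, abs_of_pos hΛ0, div_le_div_iff_of_pos_right hΛ0] at hs
        nlinarith [abs_nonneg (Real.logb Y p - -(Λ * (E + 270 * c m - γ) / ((c i0 : ℝ) - c m)))])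
  refine hcov.trans ?_
  rw [sum_sigma]
  have hin : ∀ x ∈ LL P i0 ×ˢ LL P (m - 1 - i0),
      ∑ t ∈ (P.filter fun p : ℕ => |Real.logb Y p - G x| ≤ 10000).sigma fun p =>
        P.filter fun q : ℕ => x.1.prod * x.2.prod * p * q ∈ Ioc (X0 Λ Y) (X1 Λ Y),
        (1 : ℝ) / ((x.1.prod * x.2.prod * t.1 * t.2 : ℕ) : ℝ) ≤
      1 / (x.1.prod : ℕ) * (1 / (x.2.prod : ℕ)) *
        ((20001 / (8 * Λ) + e) * (1 / (8 * Λ) + e)) := fun x _ => by
    rw [sum_sigma]
    calc _ ≤ ∑ p ∈ P.filter fun p : ℕ => |Real.logb Y p - G x| ≤ 10000,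
          1 / (x.1.prod : ℕ) * (1 / (x.2.prod : ℕ)) * ((1 : ℝ) / p * (1 / (8 * Λ) + e)) := by
          refine sum_le_sum fun p _ => ?_
          have h1 := hB (x.1.prod * x.2.prod * p)
          calc _ = 1 / (x.1.prod : ℕ) * (1 / (x.2.prod : ℕ)) * ((1 : ℝ) / p *
                ∑ q ∈ P.filter (fun q : ℕ => x.1.prod * x.2.prod * p * q ∈
                  Ioc (X0 Λ Y) (X1 Λ Y)), (1 : ℝ) / q) := by
                rw [mul_sum, mul_sum]
                refine sum_congr rfl fun q _ => ?_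
                simp only [Nat.cast_mul, one_div, mul_inv]
                ring
            _ ≤ _ := by gcongr
      _ ≤ _ := by
          rw [← mul_sum, ← sum_mul]
          have := hA (G x)
          gcongr
  refine (sum_le_sum hin).trans ?_
  rw [← sum_mul, sum_product]
  simp only [← mul_sum, ← sum_mul, sum_LL]
  have h1 : (∑ p ∈ P, (1 : ℝ) / p) ^ i0 * (∑ p ∈ P, (1 : ℝ) / p) ^ (m - 1 - i0) ≤ 31 ^ 30 := by
    rw [← pow_add]
    exact (pow_le_pow_left₀ hS0 hS _).trans (pow_le_pow_right₀ (by norm_num) (by omega))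
  have h2 : (20001 : ℝ) / (8 * Λ) ≤ 1 := by rw [div_le_one (by positivity)]; linarith
  have h3 : (1 : ℝ) / (8 * Λ) ≤ 1 := by rw [div_le_one (by positivity)]; linarith
  have h4 : (20001 : ℝ) / (8 * Λ) * (1 / (8 * Λ)) ≤ 400 / (Λ : ℝ) ^ 2 := by
    rw [div_mul_div_comm, div_le_div_iff₀ (by positivity) (by positivity)]
    nlinarith [sq_nonneg (Λ : ℝ)]
  have h5 : ((20001 : ℝ) / (8 * Λ) + e) * (1 / (8 * Λ) + e) ≤ 400 / (Λ : ℝ) ^ 2 + 3 * e := by
    nlinarith
  calc _ ≤ 31 ^ 30 * (400 / (Λ : ℝ) ^ 2 + 3 * e) :=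
        mul_le_mul h1 h5 (by positivity) (by positivity)
    _ ≤ _ := by rw [mul_add, mul_div_assoc]; linarith

end Pool.Agent.Lib.AP
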