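import Pool.Agent.Lib.AP.B_W1

/-! Spacing with squares. -/

open Finset

noncomputable section

namespace Pool.Agent.Lib.AP

namespace SP2

theorem sum_sq (n : ℕ) : ∑ j ∈ Icc 1 n, 1 / (j : ℝ) ^ 2 ≤ 2 - 2 / ((n : ℝ) + 1) := by
  induction n with
  | zero => simp
  | succ n ih =>
    rw [sum_Icc_succ_top (by omega)]
    push_cast
    have h0 : (0 : ℝ) ≤ n := Nat.cast_nonneg _
    have : 1 / ((n : ℝ) + 1) ^ 2 ≤ 2 / ((n : ℝ) + 1) - 2 / ((n : ℝ) + 1 + 1) := by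
      rw [div_sub_div _ _ (by positivity) (by positivity), div_le_div_iff₀ (by positivity)
        (by positivity)]
      nlinarith
    linarith

theorem sum_sq' (n : ℕ) : ∑ j ∈ Icc 1 n, 1 / (j : ℝ) ^ 2 ≤ 2 :=
  (sum_sq n).trans (sub_le_self _ (by positivity))

theorem sum_min_pos {a b : ℝ} (ha : 0 < a) (hb : 0 < b) (n : ℕ) :
    ∑ j ∈ Icc 1 n, min (a ^ 2) (b ^ 2 / (j : ℝ) ^ 2) ≤ 4 * a * b - 4 * a * b ^ 2 / (b + a * n) := by
  induction n with
  | zero =>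
    simp only [Nat.cast_zero, mul_zero, add_zero]
    rw [Icc_eq_empty (by omega), sum_empty]
    refine le_of_eq ?_
    field_simp
    ring
  | succ n ih =>
    rw [sum_Icc_succ_top (by omega)]
    push_cast
    have h0 : (0 : ℝ) ≤ n := Nat.cast_nonneg _
    set m := min (a ^ 2) (b ^ 2 / ((n : ℝ) + 1) ^ 2) with hm
    have m0 : 0 ≤ m := le_min (by positivity) (by positivity)
    have m1 : m ≤ a ^ 2 := min_le_left _ _
    have m2 : m * ((n : ℝ) + 1) ^ 2 ≤ b ^ 2 := (le_div_iff₀ (by positivity)).1 (min_le_right _ _)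
    have e : 4 * a * b ^ 2 / (b + a * n) - 4 * a * b ^ 2 / (b + a * (n + 1)) =
        4 * a ^ 2 * b ^ 2 / ((b + a * n) * (b + a * (n + 1))) := by
      field_simp
      ring
    have : m ≤ 4 * a ^ 2 * b ^ 2 / ((b + a * n) * (b + a * (n + 1))) := by
      rw [le_div_iff₀ (by positivity)]
      have h1 : (b + a * n) * (b + a * (n + 1)) ≤ 2 * b ^ 2 + 2 * (a ^ 2 * ((n : ℝ) + 1) ^ 2) := by
        have h2 : (b + a * n) * (b + a * (n + 1)) ≤ (b + a * (n + 1)) * (b + a * (n + 1)) := by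
          gcongr
          linarith
        nlinarith [sq_nonneg (b - a * (n + 1))]
      have h3 : m * b ^ 2 ≤ a ^ 2 * b ^ 2 := by gcongr
      have h4 : a ^ 2 * (m * ((n : ℝ) + 1) ^ 2) ≤ a ^ 2 * b ^ 2 := by gcongr
      calc m * ((b + a * n) * (b + a * (n + 1))) ≤
            m * (2 * b ^ 2 + 2 * (a ^ 2 * ((n : ℝ) + 1) ^ 2)) := by gcongr
        _ = 2 * (m * b ^ 2) + 2 * (a ^ 2 * (m * ((n : ℝ) + 1) ^ 2)) := by ring
        _ ≤ _ := by linarith
    linarith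

theorem sum_min {a b : ℝ} (ha : 0 ≤ a) (hb : 0 ≤ b) (n : ℕ) :
    ∑ j ∈ Icc 1 n, min (a ^ 2) (b ^ 2 / (j : ℝ) ^ 2) ≤ 4 * a * b := by
  rcases ha.eq_or_lt with rfl | ha
  · exact (sum_nonpos fun j _ => (min_le_left _ _).trans (by simp)).trans (by simp)
  rcases hb.eq_or_lt with rfl | hb
  · exact (sum_nonpos fun j _ => (min_le_right _ _).trans (by simp)).trans (by simp)
  exact (sum_min_pos ha hb n).trans (sub_le_self _ (by positivity))

theorem blocks (g : ℕ → ℝ) (B n : ℕ) :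
    ∑ t ∈ Ioc 0 (n * B), g t = ∑ i ∈ range n, ∑ t ∈ Ioc (i * B) (i * B + B), g t := by
  induction n with
  | zero => simp
  | succ n ih =>
    rw [sum_range_succ, ← ih, sum_Ioc_consecutive _ (Nat.zero_le _) (Nat.le_add_right _ _),
      Nat.succ_mul]

theorem range_split (F : ℕ → ℝ) (n : ℕ) :
    ∑ j ∈ range (n + 1), F j = F 0 + ∑ j ∈ Icc 1 n, F j := by
  rw [range_eq_Ico, sum_eq_sum_Ico_succ_bot (by omega)]
  rfl

theorem gen (hG : St_GCD) (hV : St_VIN) {α : ℝ} {a0 : ℤ} {q : ℕ} (hq2 : 2 ≤ q)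
    (ha0 : IsCoprime a0 q) (hα : |α - a0 / q| ≤ 1 / (q : ℝ) ^ 2) (S : ℕ) (M ρ : ℝ) (f : ℕ → ℝ)
    (hM : 0 ≤ M) (hρ : 0 ≤ ρ)
    (hf : ∀ s ∈ Icc 1 S, f s * (s : ℝ) ^ 2 ≤ M ^ 2 ∧ f s * dn (α * s) ^ 2 ≤ ρ ^ 2) :
    ∑ s ∈ Icc 1 S, f s ≤ 16 * (ρ ^ 2 * (q : ℝ) ^ 2) + 36 * (M ^ 2 / (q : ℝ) ^ 2) +
      48 * (M * ρ) * (1 + Real.log S) := by
  have hq0 : (0 : ℝ) < q := by exact_mod_cast (by omega : 0 < q)
  set B := q / 2 with hBd
  have hB1 : 1 ≤ B := by omega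
  have hB3 : (q : ℝ) ≤ 3 * B := by exact_mod_cast (by omega : q ≤ 3 * B)
  set g : ℕ → ℝ := fun t => if t ∈ Icc 1 S then max (f t) 0 else 0 with hg
  have g0 : ∀ t, 0 ≤ g t := fun t => by
    simp only [hg]
    split_ifs
    · exact le_max_right _ _
    · exact le_rfl
  have g1 : ∀ t, g t * (t : ℝ) ^ 2 ≤ M ^ 2 ∧ g t * dn (α * t) ^ 2 ≤ ρ ^ 2 := fun t => by
    simp only [hg]
    split_ifs with h
    · rcases le_total (f t) 0 with h1 | h1
      · rw [max_eq_right h1, zero_mul, zero_mul]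
        exact ⟨by positivity, by positivity⟩
      · rw [max_eq_left h1]
        exact hf t h
    · rw [zero_mul, zero_mul]
      exact ⟨by positivity, by positivity⟩
  have g2 : ∀ t j : ℕ, j ≠ 0 → (j : ℝ) ≤ 2 * q * dn (α * t) →
      g t ≤ (2 * ρ * q) ^ 2 / (j : ℝ) ^ 2 := fun t j hj h => by
    have hj0 : (0 : ℝ) < j := by exact_mod_cast Nat.pos_of_ne_zero hj
    rw [le_div_iff₀ (by positivity)]
    calc g t * (j : ℝ) ^ 2 ≤ g t * (2 * q * dn (α * t)) ^ 2 := by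
          have := g0 t
          gcongr
      _ = (2 * q) ^ 2 * (g t * dn (α * t) ^ 2) := by ring
      _ ≤ (2 * q) ^ 2 * ρ ^ 2 := by
        have := (g1 t).2
        gcongr
      _ = _ := by ring
  have b0 : ∑ t ∈ Ioc (0 * B) (0 * B + B), g t ≤ 16 * (ρ ^ 2 * (q : ℝ) ^ 2) := by
    have h := (hV α a0 q hq2 ha0 hα
      (fun j => if j = 0 then M ^ 2 else (2 * ρ * q) ^ 2 / (j : ℝ) ^ 2) g (0 * B)
      (fun j => by split_ifs <;> positivity) fun t ht j h1 _ => by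
        split_ifs with hj
        · have h2 : (1 : ℝ) ≤ t := by exact_mod_cast (by have := (mem_Ioc.1 ht).1; omega : 1 ≤ t)
          exact (le_mul_of_one_le_right (g0 t) (one_le_pow₀ h2)).trans (g1 t).1
        · exact g2 t j hj h1).2 (zero_mul _)
    refine h.trans ?_
    have e : ∑ j ∈ Icc 1 q, (if j = 0 then M ^ 2 else (2 * ρ * q) ^ 2 / (j : ℝ) ^ 2) =
        (2 * ρ * q) ^ 2 * ∑ j ∈ Icc 1 q, 1 / (j : ℝ) ^ 2 := by
      rw [mul_sum]
      refine sum_congr rfl fun j hj => ?_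
      rw [if_neg (by have := (mem_Icc.1 hj).1; omega)]
      ring
    rw [e]
    have := mul_le_mul_of_nonneg_left (sum_sq' q) (sq_nonneg (2 * ρ * q))
    nlinarith
  have bi : ∀ i ∈ Icc 1 S, ∑ t ∈ Ioc (i * B) (i * B + B), g t ≤
      18 * (M ^ 2 / (q : ℝ) ^ 2) * (1 / (i : ℝ) ^ 2) + 48 * (M * ρ) * (1 / (i : ℝ)) := by
    intro i hi
    have hi0 : (0 : ℝ) < i := by exact_mod_cast (mem_Icc.1 hi).1
    set a := 3 * M / (i * q) with ha
    have a0' : 0 ≤ a := by positivity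
    have ga : ∀ t ∈ Ioc (i * B) (i * B + B), g t ≤ a ^ 2 := fun t ht => by
      have h2 : (i : ℝ) * B ≤ t := by exact_mod_cast (mem_Ioc.1 ht).1.le
      have h3 : (i : ℝ) * q ≤ 3 * t := by nlinarith
      rw [ha, div_pow, le_div_iff₀ (by positivity)]
      calc g t * ((i : ℝ) * q) ^ 2 ≤ g t * (3 * t) ^ 2 := by
            have := g0 t
            gcongr
        _ = 9 * (g t * (t : ℝ) ^ 2) := by ring
        _ ≤ 9 * M ^ 2 := by linarith [(g1 t).1]
        _ = _ := by ring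
    have h := (hV α a0 q hq2 ha0 hα
      (fun j => if j = 0 then a ^ 2 else min (a ^ 2) ((2 * ρ * q) ^ 2 / (j : ℝ) ^ 2)) g (i * B)
      (fun j => by
        split_ifs
        · positivity
        · exact le_min (by positivity) (by positivity)) fun t ht j h1 _ => by
        split_ifs with hj
        · exact ga t ht
        · exact le_min (ga t ht) (g2 t j hj h1)).1
    refine h.trans ?_
    rw [range_split, if_pos rfl, sum_congr rfl fun j hj =>
      if_neg (by have := (mem_Icc.1 hj).1; omega : ¬j = 0)]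
    have h4 := sum_min a0' (by positivity : 0 ≤ 2 * ρ * q) q
    have e : 18 * (M ^ 2 / (q : ℝ) ^ 2) * (1 / (i : ℝ) ^ 2) + 48 * (M * ρ) * (1 / (i : ℝ)) =
        2 * (a ^ 2 + 4 * a * (2 * ρ * q)) := by
      rw [ha]
      field_simp
      ring
    rw [e]
    linarith
  have s1 : ∑ s ∈ Icc 1 S, f s ≤ ∑ t ∈ Ioc 0 ((S + 1) * B), g t := by
    calc ∑ s ∈ Icc 1 S, f s ≤ ∑ s ∈ Icc 1 S, g s := sum_le_sum fun s hs => by
          simp only [hg, if_pos hs]
          exact le_max_left _ _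
      _ ≤ _ := sum_le_sum_of_subset_of_nonneg (fun s hs => by
          obtain ⟨h1, h2⟩ := mem_Icc.1 hs
          exact mem_Ioc.2 ⟨h1, by nlinarith⟩) fun t _ _ => g0 t
  rw [blocks, range_split (fun i => ∑ t ∈ Ioc (i * B) (i * B + B), g t)] at s1
  have s2 := sum_le_sum bi
  rw [sum_add_distrib, ← mul_sum, ← mul_sum] at s2
  have p1 : 0 ≤ ρ ^ 2 * (q : ℝ) ^ 2 := by positivity
  have p2 : 0 ≤ M ^ 2 / (q : ℝ) ^ 2 := by positivity
  have p3 : 0 ≤ M * ρ := by positivity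
  have t1 := mul_le_mul_of_nonneg_left (sum_sq' S) p2
  have t2 := mul_le_mul_of_nonneg_left (hG.har S) p3
  nlinarith

end SP2

theorem st_SP2 (hG : St_GCD) (hV : St_VIN) : St_SP2 := by
  intro Λ Y α q hB hD S M ρ f hM hρ hS hf
  obtain ⟨hq, d, hd1, hd, a0, ha0, hα⟩ := hD
  have hl := hB.lam
  have hY := W1.Y1 hB
  have hY1 : 1 ≤ Y := by linarith
  have hq2 : 2 ≤ q := by
    have : (2 : ℝ) ≤ q := by
      rw [hq]
      exact hY.trans (le_self_pow₀ hY1 (by omega))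
    exact_mod_cast this
  have hd0 : (1 : ℝ) ≤ d := by exact_mod_cast hd1
  have key := SP2.gen hG hV hq2 ha0 hα S M (d * ρ) f hM (by positivity) fun s hs => by
    obtain ⟨a1, a2⟩ := hf s hs
    refine ⟨a1, ?_⟩
    rw [mul_assoc]
    have h0 : 0 ≤ dn (d * (α * s)) := abs_nonneg _
    by_cases h1 : 0 ≤ f s
    · calc f s * dn (d * (α * s)) ^ 2 ≤ f s * (d * dn (α * s)) ^ 2 := by
            have := W1.dn_mul d (α * s)
            gcongr
        _ = (d : ℝ) ^ 2 * (f s * dn (α * s) ^ 2) := by ring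
        _ ≤ (d : ℝ) ^ 2 * ρ ^ 2 := by gcongr
        _ = _ := by ring
    · exact (mul_nonpos_of_nonpos_of_nonneg (not_le.1 h1).le (by positivity)).trans (by positivity)
  have l1 := W1.dlog hB hd (n := S) (hS.trans (pow_le_pow_right₀ hY1 (by omega)))
  have hlS : 0 ≤ Real.log S := Real.log_natCast_nonneg _
  have l2 : 4096 ≤ Y := by
    refine le_trans ?_ hB.two
    calc (4096 : ℝ) = 2 ^ 12 := by norm_num
      _ ≤ 2 ^ (300 * Λ) := pow_le_pow_right₀ one_le_two (by omega)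
  have l3 : 16 * (d : ℝ) ^ 2 ≤ Y := by
    rcases le_total (d : ℝ) 16 with h | h
    · nlinarith
    · nlinarith
  have l4 : 48 * (d * (1 + Real.log S)) ≤ Y := by
    have : 0 ≤ d * (1 + Real.log S) := by positivity
    linarith
  have p1 : 0 ≤ ρ ^ 2 * (q : ℝ) ^ 2 := by positivity
  have p2 : 0 ≤ M ^ 2 / (q : ℝ) ^ 2 := by positivity
  have p3 : 0 ≤ M * ρ := by positivity
  have t3 := mul_le_mul_of_nonneg_left l4 p3
  have t4 := mul_le_mul_of_nonneg_left (show 36 ≤ Y by linarith) p2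
  have t5 := mul_le_mul_of_nonneg_left l3 p1
  nlinarith

end Pool.Agent.Lib.AP
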