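import Pool.Agent.Lib.AP.Blue2

/-! Row SPL: splitting a squarefree number by the size of its prime factors. -/

open Finset Classical

noncomputable section

namespace Pool.Agent.Lib.AP

namespace SPL

theorem le_pmax {f p : ℕ} (hf : f ≠ 0) (hp : p.Prime) (h : p ∣ f) : p ≤ pmax f :=
  Finset.le_sup (f := id) (Nat.mem_primeFactors.2 ⟨hp, h, hf⟩)

theorem pmax_mem {f : ℕ} (h : 0 < pmax f) : pmax f ∈ f.primeFactors := by
  have hne : f.primeFactors.Nonempty := by
    rw [nonempty_iff_ne_empty]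
    intro h0
    rw [pmax, h0] at h
    simp at h
  obtain ⟨p, hp, he⟩ := Finset.exists_mem_eq_sup f.primeFactors hne id
  rw [pmax, he]
  exact hp

theorem pmax_pos {f : ℕ} (h : 1 < f) : 0 < pmax f :=
  (Nat.minFac_pos f).trans_le (le_pmax (by omega) (Nat.minFac_prime (by omega)) (Nat.minFac_dvd f))

theorem pmax_le {f : ℕ} (hf : f ≠ 0) : pmax f ≤ f :=
  Finset.sup_le fun _ hp => Nat.le_of_dvd (Nat.pos_of_ne_zero hf) (Nat.dvd_of_mem_primeFactors hp)

theorem sq_dvd {a b : ℕ} (ha : Squarefree a) (h : ∀ p : ℕ, p.Prime → p ∣ a → p ∣ b) : a ∣ b := by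
  rw [← Nat.prod_primeFactors_of_squarefree ha]
  exact Finset.prod_primes_dvd b (fun p hp => (Nat.prime_of_mem_primeFactors hp).prime)
    fun p hp => h p (Nat.prime_of_mem_primeFactors hp) (Nat.dvd_of_mem_primeFactors hp)

theorem dvd_fst {a b p : ℕ} (hb : b ≠ 0) (hp : p.Prime) (h : p ∣ a * b) (hl : pmax b < p) :
    p ∣ a :=
  ((Nat.Prime.dvd_mul hp).1 h).resolve_right fun h' => absurd (le_pmax hb hp h') (not_le.2 hl)

theorem lt_of {a b p : ℕ} (ha : a ≠ 0) (h : above a b) (hp : p.Prime) (hd : p ∣ a) : pmax b < p :=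
  h p (Nat.mem_primeFactors.2 ⟨hp, hd, ha⟩)

/-- The step in the chain. -/
theorem step {a b c d : ℕ} (hs : Squarefree (a * b)) (he : a * b = c * d) (h : above a b)
    (hl : pmax d < pmax b) : a * pmax b ∣ c := by
  have h0 := hs.ne_zero
  have ha := left_ne_zero_of_mul h0
  have hd : d ≠ 0 := right_ne_zero_of_mul (he ▸ h0)
  have hm := pmax_mem (Nat.zero_lt_of_lt hl)
  have hdv : a * pmax b ∣ a * b := Nat.mul_dvd_mul_left a (Nat.dvd_of_mem_primeFactors hm)
  refine sq_dvd (hs.squarefree_of_dvd hdv) fun p hp hpd => dvd_fst hd hp (he ▸ hpd.trans hdv) ?_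
  rcases (Nat.Prime.dvd_mul hp).1 hpd with h1 | h1
  · exact hl.trans (lt_of ha h hp h1)
  · rw [(Nat.prime_dvd_prime_iff_eq hp (Nat.prime_of_mem_primeFactors hm)).1 h1]
    exact hl

/-- Two splittings are comparable. -/
theorem chain {a b c d : ℕ} (hs : Squarefree (a * b)) (he : a * b = c * d) (h : above a b)
    (h' : above c d) : (a, b) = (c, d) ∨ (0 < pmax b ∧ a * pmax b ∣ c) ∨
      (0 < pmax d ∧ c * pmax d ∣ a) := by
  have h0 := hs.ne_zero
  have ha := left_ne_zero_of_mul h0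
  have hb := right_ne_zero_of_mul h0
  have hc : c ≠ 0 := left_ne_zero_of_mul (he ▸ h0)
  have hd : d ≠ 0 := right_ne_zero_of_mul (he ▸ h0)
  rcases lt_trichotomy (pmax d) (pmax b) with hl | hl | hl
  · exact .inr (.inl ⟨Nat.zero_lt_of_lt hl, step hs he h hl⟩)
  · left
    have h1 : a ∣ c := sq_dvd (hs.squarefree_of_dvd (dvd_mul_right a b)) fun p hp hpd =>
      dvd_fst hd hp (he ▸ hpd.mul_right b) (hl ▸ lt_of ha h hp hpd)
    have h2 : c ∣ a := sq_dvd ((he ▸ hs).squarefree_of_dvd (dvd_mul_right c d)) fun p hp hpd =>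
      dvd_fst hb hp (he ▸ hpd.mul_right d) (hl ▸ lt_of hc h' hp hpd)
    obtain rfl := Nat.dvd_antisymm h1 h2
    rw [Nat.eq_of_mul_eq_mul_left (Nat.pos_of_ne_zero ha) he]
  · exact .inr (.inr ⟨Nat.zero_lt_of_lt hl, step (he ▸ hs) he.symm h' hl⟩)

theorem min_iff (e f : ℕ) (he : 1 < e) : above e f ↔ pmax f < e.minFac :=
  ⟨fun h => lt_of (by omega) h (Nat.minFac_prime (by omega)) (Nat.minFac_dvd e), fun h p hp =>
    h.trans_le (Nat.minFac_le_of_dvd (Nat.prime_of_mem_primeFactors hp).two_le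
      (Nat.dvd_of_mem_primeFactors hp))⟩

theorem minFac_eq {e v : ℕ} (he : e ≠ 0) (hv : 1 < v) (h : above e v) :
    (e * v).minFac = v.minFac := by
  have hp : v.minFac.Prime := Nat.minFac_prime (by omega)
  have h1 : e * v ≠ 1 := fun h1 => by
    have := Nat.eq_one_of_mul_eq_one_left h1
    omega
  have hq := Nat.minFac_prime h1
  have hle : (e * v).minFac ≤ v.minFac :=
    Nat.minFac_le_of_dvd hp.two_le ((Nat.minFac_dvd v).mul_left e)
  refine le_antisymm hle (Nat.minFac_le_of_dvd hq.two_le ?_)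
  refine ((Nat.Prime.dvd_mul hq).1 (Nat.minFac_dvd _)).resolve_left fun h2 => ?_
  have := lt_of he h hq h2
  have := le_pmax (f := v) (by omega) hp (Nat.minFac_dvd v)
  omega

/-- The next splitting in the chain. -/
theorem next {a b : ℕ} (hs : Squarefree (a * b)) (h : above a b) (hb : 1 < b) :
    ∃ c, b = pmax b * c ∧ above (a * pmax b) c ∧ (a * pmax b).minFac = pmax b := by
  have h0 := hs.ne_zero
  have ha := left_ne_zero_of_mul h0
  have hm := pmax_mem (pmax_pos hb)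
  have hp := Nat.prime_of_mem_primeFactors hm
  obtain ⟨c, hc⟩ := Nat.dvd_of_mem_primeFactors hm
  have hc0 : c ≠ 0 := fun h => by rw [h] at hc; omega
  have hmin : (a * pmax b).minFac = pmax b := by
    rw [minFac_eq ha hp.one_lt, hp.minFac_eq]
    intro p hpa
    have : pmax (pmax b) = pmax b := by rw [pmax, hp.primeFactors]; simp
    rw [this]
    exact h p hpa
  refine ⟨c, hc, ?_, hmin⟩
  rw [min_iff _ _ (by nlinarith [hp.one_lt, Nat.pos_of_ne_zero ha]), hmin]
  rcases Nat.eq_zero_or_pos (pmax c) with h1 | h1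
  · rw [h1]; exact hp.pos
  · have hm' := pmax_mem h1
    have hp' := Nat.prime_of_mem_primeFactors hm'
    have hd' := Nat.dvd_of_mem_primeFactors hm'
    refine lt_of_le_of_ne (le_pmax (by omega) hp' (hd'.trans ⟨pmax b, by rw [mul_comm]; exact hc⟩))
      fun heq => ?_
    have hsq : pmax b * pmax b ∣ a * b := by
      refine Dvd.dvd.mul_left ?_ a
      conv_rhs => rw [hc]
      exact Nat.mul_dvd_mul_left _ (heq ▸ hd')
    exact hp.one_lt.ne' (Nat.isUnit_iff.1 (hs _ hsq))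

theorem exi {e B : ℕ} (he : Squarefree e) (hB : 1 ≤ B) (hlt : B < e) :
    ∃ a b, a * b = e ∧ above a b ∧ a ≤ B ∧ B < a * pmax b ∧ 1 < b := by
  obtain ⟨x, hx, hmax⟩ := exists_max_image
    (e.divisorsAntidiagonal.filter fun x => above x.1 x.2 ∧ x.1 ≤ B) (fun x => x.1)
    ⟨(1, e), mem_filter.2 ⟨Nat.mem_divisorsAntidiagonal.2 ⟨one_mul e, he.ne_zero⟩,
      fun p hp => by simp at hp, hB⟩⟩
  obtain ⟨hx1, hx2, hx3⟩ := mem_filter.1 hx
  have hx4 := (Nat.mem_divisorsAntidiagonal.1 hx1).1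
  have h0 : x.1 * x.2 ≠ 0 := hx4 ▸ he.ne_zero
  have hb : 1 < x.2 := by
    have := right_ne_zero_of_mul h0
    by_contra hh
    have h1 : x.2 = 1 := by omega
    rw [h1] at hx4
    omega
  refine ⟨x.1, x.2, hx4, hx2, hx3, ?_, hb⟩
  obtain ⟨c, hc, h1, -⟩ := next (hx4 ▸ he) hx2 hb
  by_contra hle
  have := hmax (x.1 * pmax x.2, c) (mem_filter.2 ⟨Nat.mem_divisorsAntidiagonal.2
    ⟨by rw [mul_assoc, ← hc]; exact hx4, he.ne_zero⟩, h1, not_lt.1 hle⟩)
  have h2 := (Nat.prime_of_mem_primeFactors (pmax_mem (pmax_pos hb))).one_lt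
  have h3 := Nat.pos_of_ne_zero (left_ne_zero_of_mul h0)
  simp only at this
  nlinarith

theorem ind_sum {s : Finset (ℕ × ℕ)} {p : ℕ × ℕ → Prop} [DecidablePred p] {q : Prop} [Decidable q]
    (h1 : ∀ x ∈ s, p x → q) (h2 : q → ∃ x ∈ s, p x)
    (h3 : ∀ x ∈ s, ∀ y ∈ s, p x → p y → x = y) :
    ∑ x ∈ s, (if p x then (1 : ℤ) else 0) = if q then 1 else 0 := by
  split_ifs with h
  · obtain ⟨x, hx, hp⟩ := h2 h
    rw [sum_eq_single_of_mem x hx fun y hy hne => if_neg fun hpy => hne (h3 y hy x hx hpy hp),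
      if_pos hp]
  · exact sum_eq_zero fun x hx => if_neg fun hp => h (h1 x hx hp)

end SPL

open SPL in
theorem st_SPL : St_SPL where
  bot e B he hB := by
    refine ind_sum (fun x hx h => ?_) (fun h => ?_) fun x hx y hy h h' => ?_
    · have hx4 := (Nat.mem_divisorsAntidiagonal.1 hx).1
      refine h.2.2.trans_le (hx4 ▸ Nat.mul_le_mul_left _ (pmax_le ?_))
      exact right_ne_zero_of_mul (hx4 ▸ he.ne_zero : x.1 * x.2 ≠ 0)
    · obtain ⟨a, b, h1, h2, h3, h4, -⟩ := exi he hB h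
      exact ⟨(a, b), Nat.mem_divisorsAntidiagonal.2 ⟨h1, he.ne_zero⟩, h2, h3, h4⟩
    · have hx4 := (Nat.mem_divisorsAntidiagonal.1 hx).1
      have hy4 := (Nat.mem_divisorsAntidiagonal.1 hy).1
      have hx0 := Nat.pos_of_ne_zero (left_ne_zero_of_mul (hx4 ▸ he.ne_zero : x.1 * x.2 ≠ 0))
      have hy0 := Nat.pos_of_ne_zero (left_ne_zero_of_mul (hy4 ▸ he.ne_zero : y.1 * y.2 ≠ 0))
      rcases chain (hx4 ▸ he) (hx4.trans hy4.symm) h.1 h'.1 with h1 | h1 | h1
      · exact h1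
      · have := Nat.le_of_dvd hy0 h1.2
        omega
      · have := Nat.le_of_dvd hx0 h1.2
        omega
  top e B he hB := by
    have key : ∀ a p c : ℕ, 0 < c → 1 < p → a * p ∣ c → a ≤ c / c.minFac := by
      intro a p c hc hp hd
      rw [Nat.le_div_iff_mul_le (Nat.minFac_pos c)]
      exact (Nat.mul_le_mul_left a (Nat.minFac_le_of_dvd hp ((dvd_mul_left p a).trans hd))).trans
        (Nat.le_of_dvd hc hd)
    refine ind_sum (fun x hx h => ?_) (fun h => ?_) fun x hx y hy h h' => ?_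
    · exact h.2.1.trans_le (Nat.le_of_dvd (Nat.pos_of_ne_zero he.ne_zero)
        ⟨x.2, (Nat.mem_divisorsAntidiagonal.1 hx).1.symm⟩)
    · obtain ⟨a, b, h1, h2, h3, h4, h5⟩ := exi he hB h
      obtain ⟨c, hc, h6, h7⟩ := next (h1 ▸ he) h2 h5
      refine ⟨(a * pmax b, c), Nat.mem_divisorsAntidiagonal.2
        ⟨by rw [mul_assoc, ← hc]; exact h1, he.ne_zero⟩, h6, h4, ?_⟩
      simp only [h7, Nat.mul_div_cancel a (pmax_pos h5)]
      exact h3
    · have hx4 := (Nat.mem_divisorsAntidiagonal.1 hx).1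
      have hy4 := (Nat.mem_divisorsAntidiagonal.1 hy).1
      have hx0 := Nat.pos_of_ne_zero (left_ne_zero_of_mul (hx4 ▸ he.ne_zero : x.1 * x.2 ≠ 0))
      have hy0 := Nat.pos_of_ne_zero (left_ne_zero_of_mul (hy4 ▸ he.ne_zero : y.1 * y.2 ≠ 0))
      rcases chain (hx4 ▸ he) (hx4.trans hy4.symm) h.1 h'.1 with h1 | h1 | h1
      · exact h1
      · have := key _ _ _ hy0 (Nat.prime_of_mem_primeFactors (pmax_mem h1.1)).one_lt h1.2
        omega
      · have := key _ _ _ hx0 (Nat.prime_of_mem_primeFactors (pmax_mem h1.1)).one_lt h1.2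
        omega
  mul Λ Y e f he hf h := by
    have hc : Nat.Coprime e f := Nat.coprime_of_dvd fun p hp h1 h2 =>
      absurd (le_pmax hf hp h2) (not_le.2 (lt_of he h hp h1))
    have hs : smooth Λ Y (e * f) ↔ smooth Λ Y e ∧ smooth Λ Y f :=
      ⟨fun h => ⟨fun p hp hd => h p hp (hd.mul_right f), fun p hp hd => h p hp (hd.mul_left e)⟩,
        fun h p hp hd => ((Nat.Prime.dvd_mul hp).1 hd).elim (h.1 p hp) (h.2 p hp)⟩
    simp only [mu', hs, ArithmeticFunction.isMultiplicative_moebius.map_mul_of_coprime hc]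
    by_cases h1 : smooth Λ Y e <;> by_cases h2 : smooth Λ Y f <;> simp [h1, h2]
  sq Λ Y e := by
    unfold mu'
    split_ifs with h
    · exact ⟨ArithmeticFunction.abs_moebius_le_one, fun h1 =>
        ⟨ArithmeticFunction.moebius_ne_zero_iff_squarefree.1 h1, h⟩⟩
    · simp
  three e v f he hv _ h := by
    have h1 := minFac_eq he hv h
    exact ⟨h1, by rw [min_iff _ _ (by nlinarith [Nat.pos_of_ne_zero he]), h1]⟩
  min := min_iff

end Pool.Agent.Lib.AP
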