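import Pool.Agent.Lib.AP.B_W1

/-! The type I estimate. -/

open Finset Classical

noncomputable section

namespace Pool.Agent.Lib.AP

namespace T1

/-- the majorant -/
def mj (α W : ℝ) (t : ℕ) : ℝ :=
  if dn (α * t) = 0 then W / t else min (W / t) (1 / dn (α * t))

lemma dn0 (x : ℝ) : 0 ≤ dn x := abs_nonneg _

lemma mj0 (α W : ℝ) (hW : 0 ≤ W) (t : ℕ) : 0 ≤ mj α W t := by
  have := dn0 (α * t)
  unfold mj
  split_ifs
  · positivity
  · exact le_min (by positivity) (by positivity)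

lemma mj1 (α W : ℝ) (t : ℕ) (ht : 0 < t) : mj α W t * t ≤ W ∧ mj α W t * dn (α * t) ≤ 1 := by
  have ht0 : (0 : ℝ) < t := by exact_mod_cast ht
  unfold mj
  split_ifs with h
  · exact ⟨by rw [div_mul_cancel₀ _ ht0.ne'], by rw [h]; simp⟩
  · have h0 : 0 < dn (α * t) := lt_of_le_of_ne (dn0 _) (Ne.symm h)
    exact ⟨(le_div_iff₀ ht0).1 (min_le_left _ _), (le_div_iff₀ h0).1 (min_le_right _ _)⟩

lemma le_mj (α W x : ℝ) (t : ℕ) (ht : 0 < t) (h1 : x * t ≤ W) (h2 : x * dn (α * t) ≤ 1) :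
    x ≤ mj α W t := by
  have ht0 : (0 : ℝ) < t := by exact_mod_cast ht
  unfold mj
  split_ifs with h
  · exact (le_div_iff₀ ht0).2 h1
  · have h0 : 0 < dn (α * t) := lt_of_le_of_ne (dn0 _) (Ne.symm h)
    exact le_min ((le_div_iff₀ ht0).2 h1) ((le_div_iff₀ h0).2 h2)

variable {Λ : ℕ} {Y : ℝ}

lemma D_eq (K : Ker Λ Y) (hT : St_TOOL) (α : ℝ) (n : ℕ) :
    K.D α n = ∑ h ∈ nz K.H, K.c h * ee (h * (α * n)) := by
  have h0 : (0 : ℤ) ∈ Icc (-(K.H : ℤ)) K.H := mem_Icc.2 ⟨by omega, by omega⟩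
  have e0 : ee (((0 : ℤ) : ℝ) * (α * n)) = 1 := by
    have := hT.int 0
    simpa using this
  unfold Ker.D nz
  push_cast
  rw [K.hg, ← add_sum_erase _ _ h0, K.c0, e0]
  ring

/-- collecting the pairs by the product -/
lemma collect (hG : St_GCD) (H D : ℕ) (F : ℕ → ℝ) (B : ℝ) (hF : ∀ t, 0 ≤ F t)
    (hB : ∀ t ∈ Icc 1 (H * D), (t.divisors.card : ℝ) ≤ B) :
    ∑ h ∈ nz H, ∑ d ∈ Icc 1 D, F (h.natAbs * d) ≤ 2 * B * ∑ t ∈ Icc 1 (H * D), F t := by
  rw [← sum_product', ← sum_fiberwise_of_maps_to (t := Icc 1 (H * D))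
    (g := fun x : ℤ × ℕ => x.1.natAbs * x.2), mul_sum]
  · refine sum_le_sum fun t ht => ?_
    rw [sum_congr rfl (g := fun _ => F t) (fun x hx => by rw [(mem_filter.1 hx).2]), sum_const,
      nsmul_eq_mul]
    refine mul_le_mul_of_nonneg_right ?_ (hF t)
    have ht0 : (t : ℤ) ≠ 0 := by have := (mem_Icc.1 ht).1; omega
    have a1 := hG.fib (nz H) (Icc 1 D) t ht0
    have a2 := hG.fib (nz H) (Icc 1 D) (-t) (neg_ne_zero.2 ht0)
    rw [Int.natAbs_neg] at a2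
    rw [Int.natAbs_natCast] at a1 a2
    have a3 : ((nz H ×ˢ Icc 1 D).filter fun x : ℤ × ℕ => x.1.natAbs * x.2 = t) ⊆
        ((nz H ×ˢ Icc 1 D).filter fun x : ℤ × ℕ => x.1 * x.2 = t) ∪
          ((nz H ×ˢ Icc 1 D).filter fun x : ℤ × ℕ => x.1 * x.2 = -t) := by
      intro x hx
      obtain ⟨h1, h2⟩ := mem_filter.1 hx
      rw [mem_union, mem_filter, mem_filter]
      have h3 : (x.1 * x.2).natAbs = t := by rw [Int.natAbs_mul, Int.natAbs_natCast, h2]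
      rcases Int.natAbs_eq_iff.1 h3 with h | h
      exacts [Or.inl ⟨h1, h⟩, Or.inr ⟨h1, h⟩]
    have a4 := (card_le_card a3).trans (card_union_le _ _)
    have a5 : ((nz H ×ˢ Icc 1 D).filter fun x : ℤ × ℕ => x.1.natAbs * x.2 = t).card ≤
        2 * t.divisors.card := by omega
    have a6 := hB t ht
    have a7 : (((nz H ×ˢ Icc 1 D).filter fun x : ℤ × ℕ => x.1.natAbs * x.2 = t).card : ℝ) ≤
        2 * t.divisors.card := by exact_mod_cast a5
    linarith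
  · intro x hx
    obtain ⟨h1, h2⟩ := mem_product.1 hx
    unfold nz at h1
    rw [mem_erase, mem_Icc] at h1
    rw [mem_Icc] at h2 ⊢
    exact ⟨Nat.mul_pos (by omega) h2.1, Nat.mul_le_mul (by omega) h2.2⟩

end T1

theorem st_T1 (hT : St_TOOL) (hG : St_GCD) : St_T1 := by
  intro Λ Y α q K hB hD a lo hi ha hhi
  have h2 := W1.Y1 hB
  have hΛ := hB.lam
  have hY1 : (1 : ℝ) ≤ Y := by linarith
  have hY0 : (0 : ℝ) < Y := by linarith
  have hη : 0 ≤ K.η := (norm_nonneg _).trans (K.cle 0)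
  set W : ℝ := (X1 Λ Y : ℝ) * K.H with hW
  have hW0 : 0 ≤ W := by positivity
  have hX1 : (X1 Λ Y : ℝ) ≤ Y ^ (270 * Λ + 1) := Nat.floor_le (by positivity)
  have hD0 : (D0 Λ Y : ℝ) * Y ^ 1000 ≤ Y ^ (180 * Λ) :=
    (le_div_iff₀ (by positivity)).1 (Nat.floor_le (by positivity))
  have hH := K.Hhi
  have hHD : ((K.H * D0 Λ Y : ℕ) : ℝ) * Y ^ 1000 ≤ Y ^ (270 * Λ + 3) := by
    push_cast
    calc (K.H : ℝ) * D0 Λ Y * Y ^ 1000 = K.H * (D0 Λ Y * Y ^ 1000) := by ring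
      _ ≤ Y ^ (90 * Λ + 3) * Y ^ (180 * Λ) := mul_le_mul hH hD0 (by positivity) (by positivity)
      _ = Y ^ (270 * Λ + 3) := by rw [← pow_add]; congr 1; omega
  have hHD1 : ((K.H * D0 Λ Y : ℕ) : ℝ) ≤ Y ^ (1000 * Λ) :=
    (le_mul_of_one_le_right (by positivity) (one_le_pow₀ hY1)).trans
      (hHD.trans (pow_le_pow_right₀ hY1 (by omega)))
  have s1 : ‖∑ d ∈ Icc 1 (D0 Λ Y), a d * ∑ κ ∈ Ioc (lo d) (hi d), K.D α (d * κ)‖ ≤
      K.η * ∑ h ∈ nz K.H, ∑ d ∈ Icc 1 (D0 Λ Y), T1.mj α W (h.natAbs * d) := by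
    rw [sum_comm, mul_sum]
    refine (norm_sum_le _ _).trans (sum_le_sum fun d hd => ?_)
    rw [norm_mul]
    refine (mul_le_of_le_one_left (norm_nonneg _) (ha d)).trans ?_
    simp only [T1.D_eq K hT]
    rw [sum_comm, mul_sum]
    refine (norm_sum_le _ _).trans (sum_le_sum fun h hh => ?_)
    rw [← mul_sum, norm_mul]
    refine mul_le_mul (K.cle h) ?_ (norm_nonneg _) hη
    unfold nz at hh
    rw [mem_erase, mem_Icc] at hh
    have hd1 := (mem_Icc.1 hd).1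
    have e : ∑ κ ∈ Ioc (lo d) (hi d), ee (h * (α * ((d * κ : ℕ) : ℝ))) =
        ∑ κ ∈ Ioc (lo d) (hi d), ee (κ * (α * (h * d))) :=
      sum_congr rfl fun κ _ => by congr 1; push_cast; ring
    rw [e]
    apply T1.le_mj _ _ _ _ (Nat.mul_pos (by omega) hd1)
    · have b1 : ‖∑ κ ∈ Ioc (lo d) (hi d), ee (κ * (α * (h * d)))‖ ≤ hi d := by
        refine (norm_sum_le _ _).trans ?_
        simp only [hT.norm, sum_const, Nat.card_Ioc, nsmul_eq_mul, mul_one]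
        exact_mod_cast Nat.sub_le _ _
      have b2 : (d : ℝ) * hi d ≤ X1 Λ Y := by exact_mod_cast hhi d
      have b3 : (h.natAbs : ℝ) ≤ K.H := by exact_mod_cast (by omega : h.natAbs ≤ K.H)
      calc _ ≤ (hi d : ℝ) * ((h.natAbs * d : ℕ) : ℝ) :=
            mul_le_mul_of_nonneg_right b1 (by positivity)
        _ = (d * hi d) * h.natAbs := by push_cast; ring
        _ ≤ W := mul_le_mul b2 b3 (by positivity) (by positivity)
    · have b1 := hT.geoN (α * (h * d)) (lo d) (hi d)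
      have b2 : dn (α * ((h.natAbs * d : ℕ) : ℝ)) = dn (α * (h * d)) := by
        rcases Int.natAbs_eq h with e1 | e1
        · have : (h : ℝ) = (h.natAbs : ℝ) :=
            (congrArg (Int.cast : ℤ → ℝ) e1).trans (Int.cast_natCast _)
          rw [this]
          push_cast
          rfl
        · have : (h : ℝ) = -(h.natAbs : ℝ) :=
            (congrArg (Int.cast : ℤ → ℝ) e1).trans (by rw [Int.cast_neg, Int.cast_natCast])
          rw [this, ← hT.dnneg]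
          congr 1
          push_cast
          ring
      rw [b2]
      linarith
  have s2 := T1.collect hG K.H (D0 Λ Y) (T1.mj α W) Y (T1.mj0 α W hW0) fun t ht =>
    hB.div t (le_trans (by exact_mod_cast (mem_Icc.1 ht).2)
      (hHD1.trans (pow_le_pow_right₀ hY1 (by omega))))
  have s3 := st_W1 Λ Y α q hB hD (K.H * D0 Λ Y) W (T1.mj α W) hW0 hHD1 fun t ht =>
    T1.mj1 α W t (mem_Icc.1 ht).1
  have hq := hD.1
  have c1 : W / q * Y ^ 1000 ≤ Y ^ (270 * Λ + 3) := by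
    rw [hq, div_mul_eq_mul_div, div_le_iff₀ (by positivity)]
    calc W * Y ^ 1000 ≤ Y ^ (270 * Λ + 1) * Y ^ (90 * Λ + 3) * Y ^ 1000 :=
          mul_le_mul_of_nonneg_right (mul_le_mul hX1 hH (by positivity) (by positivity))
            (by positivity)
      _ ≤ Y ^ (270 * Λ + 3) * Y ^ (180 * Λ) := by
          simp only [← pow_add]
          exact pow_le_pow_right₀ hY1 (by omega)
  have c2 : (q : ℝ) * Y ^ 1000 ≤ Y ^ (270 * Λ + 3) := by
    rw [hq, ← pow_add]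
    exact pow_le_pow_right₀ hY1 (by omega)
  have c3 : (6 : ℝ) ≤ Y ^ 495 := by
    calc (6 : ℝ) ≤ 2 ^ 3 := by norm_num
      _ ≤ Y ^ 3 := pow_le_pow_left₀ (by norm_num) h2 _
      _ ≤ Y ^ 495 := pow_le_pow_right₀ hY1 (by norm_num)
  have s4 : ∑ h ∈ nz K.H, ∑ d ∈ Icc 1 (D0 Λ Y), T1.mj α W (h.natAbs * d) ≤
      2 * Y * (Y * (W / q + (K.H * D0 Λ Y : ℕ) + q)) :=
    s2.trans (mul_le_mul_of_nonneg_left s3 (by positivity))
  have s5 : 2 * Y * (Y * (W / q + (K.H * D0 Λ Y : ℕ) + q)) * Y ^ 500 ≤ Y ^ (270 * Λ) := by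
    refine le_of_mul_le_mul_right ?_ (show 0 < Y ^ 498 by positivity)
    calc 2 * Y * (Y * (W / q + (K.H * D0 Λ Y : ℕ) + q)) * Y ^ 500 * Y ^ 498
        = 2 * (W / q * Y ^ 1000 + (K.H * D0 Λ Y : ℕ) * Y ^ 1000 + q * Y ^ 1000) := by ring
      _ ≤ 6 * Y ^ (270 * Λ + 3) := by linarith
      _ ≤ Y ^ 495 * Y ^ (270 * Λ + 3) := mul_le_mul_of_nonneg_right c3 (by positivity)
      _ = Y ^ (270 * Λ) * Y ^ 498 := by ring
  calc _ ≤ K.η * (2 * Y * (Y * (W / q + (K.H * D0 Λ Y : ℕ) + q))) * Y ^ 500 :=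
        mul_le_mul_of_nonneg_right (s1.trans (mul_le_mul_of_nonneg_left s4 hη)) (by positivity)
    _ = K.η * (2 * Y * (Y * (W / q + (K.H * D0 Λ Y : ℕ) + q)) * Y ^ 500) := mul_assoc _ _ _
    _ ≤ _ := mul_le_mul_of_nonneg_left s5 hη

end Pool.Agent.Lib.AP
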