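import Pool.Agent.Lib.AP.Blue2

/-! The union bound over the thin slabs. -/

open Finset Classical

noncomputable section

namespace Pool.Agent.Lib.AP

namespace THIN

def cc (c : Fin 27 → ℤ) (i : ℕ) : ℤ := if h : i < 27 then c ⟨i, h⟩ else 0

theorem idx (A B : Finset ℤ) : ∃ I : Finset (ℕ × (ℕ → ℤ) × ℤ),
    (∀ z ∈ I, ∃ i < z.1, 270 * z.2.1 i ≠ z.2.2) ∧
    ∀ (k : ℕ) (c : ℕ → ℤ) (γ : ℤ), k ≤ 27 → (∀ i, c i ∈ A) → γ ∈ B →
      (∃ i < k, 270 * c i ≠ γ) → ∃ c' : ℕ → ℤ, (k, c', γ) ∈ I ∧ ∀ i < k, c' i = c i := by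
  obtain ⟨J, hJ⟩ : ∃ J : Finset (ℕ → ℤ), ∀ c : Fin 27 → ℤ, (∀ i, c i ∈ A) → cc c ∈ J :=
    ⟨(Fintype.piFinset fun _ : Fin 27 => A).image cc, fun c hc =>
      mem_image_of_mem _ (Fintype.mem_piFinset.2 hc)⟩
  refine ⟨(range 28 ×ˢ J ×ˢ B).filter fun z => ∃ i < z.1, 270 * z.2.1 i ≠ z.2.2,
    fun z hz => (mem_filter.1 hz).2, fun k c γ hk hc hγ hi => ?_⟩
  have h1 : ∀ i < k, cc (fun i => c i) i = c i := fun i hi => by
    unfold cc
    rw [dif_pos (by omega)]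
  refine ⟨cc fun i => c i, mem_filter.2 ⟨mem_product.2 ⟨mem_range.2 (by omega), mem_product.2
    ⟨hJ _ fun i => hc i, hγ⟩⟩, ?_⟩, h1⟩
  obtain ⟨i, h2, h3⟩ := hi
  exact ⟨i, h2, by simpa only [h1 i h2] using h3⟩

end THIN

theorem st_THIN (hS : St_SLAB) (hL : St_LEV) (hBig : St_BIG) : St_THIN := by
  obtain ⟨C, hC⟩ := hS
  obtain ⟨I, hI1, hI2⟩ := THIN.idx (Icc (-24) 24) (Icc (-3000) 3000)
  refine ⟨I.card * C, fun Λ hΛ ε hε => ?_⟩
  have hN : (0 : ℝ) < I.card + 1 := by positivity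
  filter_upwards [hC Λ hΛ (ε / (I.card + 1)) (by positivity), hBig Λ hΛ] with Y hY hB
  set T : ℕ × (ℕ → ℤ) × ℤ → ℕ → ℝ := fun z n => if rough Λ Y n ∧ (xs (Y ^ Λ) n).length = z.1 ∧
    |∑ i ∈ range z.1, (z.2.1 i : ℝ) * (xs (Y ^ Λ) n).getD i 0 - z.2.2| ≤ 10000 / Λ then
      (1 : ℝ) / n else 0 with hT
  have hT0 : ∀ z n, 0 ≤ T z n := fun z n => by
    simp only [hT]
    split_ifs <;> positivity
  calc _ ≤ ∑ n ∈ Ioc (X0 Λ Y) (X1 Λ Y), ∑ z ∈ I, T z n := by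
        refine sum_le_sum fun n hn => ?_
        split_ifs with h
        swap
        · exact sum_nonneg fun z _ => hT0 z n
        obtain ⟨hr, hg⟩ := h
        obtain ⟨hn0, hn1⟩ := mem_Ioc.1 hn
        have hY1 : 1 ≤ Y := le_trans (one_le_pow₀ (by norm_num)) hB.two
        have hX : 1 ≤ X0 Λ Y := Nat.le_floor (by simpa using one_le_pow₀ hY1)
        have hlen := (hL.len Λ Y n hB (by omega) hn1 hr).1
        have hne : n.primeFactorsList ≠ [] := (Nat.primeFactorsList_ne_nil n).2 (by omega)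
        have hk : (xs (Y ^ Λ) n).length ≤ 27 := by
          have := List.length_pos_iff.2 hne
          simp only [levN, List.length_map] at hlen
          simp only [xs, List.length_append, List.length_map, List.length_dropLast,
            List.length_singleton]
          omega
        unfold GenV at hg
        push Not at hg
        obtain ⟨c, γ, h1, h2, h3, h4⟩ := hg
        obtain ⟨c', h5, h6⟩ := hI2 _ c γ hk (fun i => mem_Icc.2 (abs_le.1 (h1 i)))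
          (mem_Icc.2 (abs_le.1 h2)) h3
        refine le_trans (le_of_eq ?_) (single_le_sum (fun z _ => hT0 z n) h5)
        refine (if_pos ⟨hr, rfl, ?_⟩).symm
        have h7 : ∑ i ∈ range (xs (Y ^ Λ) n).length, (c' i : ℝ) * (xs (Y ^ Λ) n).getD i 0 =
            ∑ i ∈ range (xs (Y ^ Λ) n).length, (c i : ℝ) * (xs (Y ^ Λ) n).getD i 0 :=
          sum_congr rfl fun i hi => by rw [h6 i (mem_range.1 hi)]
        exact h7 ▸ h4
    _ = ∑ z ∈ I, ∑ n ∈ Ioc (X0 Λ Y) (X1 Λ Y), T z n := sum_comm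
    _ ≤ ∑ _z ∈ I, (C / (Λ : ℝ) ^ 2 + ε / (I.card + 1)) :=
        sum_le_sum fun z hz => hY z.1 z.2.1 z.2.2 (hI1 z hz)
    _ ≤ _ := by
        rw [sum_const, nsmul_eq_mul, mul_add, mul_div_assoc]
        gcongr
        rw [← mul_div_assoc, div_le_iff₀ hN]
        nlinarith

end Pool.Agent.Lib.AP
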