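import Pool.Agent.Lib.AP.Blue

/-! Elementary facts on additive characters and on the distance to the nearest integer. -/

open Finset Classical

noncomputable section

namespace Pool.Agent.Lib.AP

namespace TOOL

open Real Complex

lemma ee_eq (x : ℝ) : ee x = Complex.exp (I * ((2 * π * x : ℝ) : ℂ)) := by
  rw [ee]; congr 1; push_cast; ring

lemma add (x y : ℝ) : ee (x + y) = ee x * ee y := by
  rw [ee, ee, ee, ← Complex.exp_add]; congr 1; push_cast; ring

lemma int (n : ℤ) : ee n = 1 := by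
  rw [ee, ← exp_int_mul_two_pi_mul_I n]; congr 1; push_cast; ring

lemma norm (x : ℝ) : ‖ee x‖ = 1 := by
  rw [ee_eq, mul_comm]; exact norm_exp_ofReal_mul_I _

lemma conj (x : ℝ) : (starRingEnd ℂ) (ee x) = ee (-x) := by
  rw [ee, ee, ← exp_conj]; congr 1; simp [map_ofNat]

lemma dn0 (x : ℝ) : 0 ≤ dn x ∧ dn x ≤ 1 / 2 := ⟨abs_nonneg _, abs_sub_round x⟩

lemma dnle (x : ℝ) (n : ℤ) : dn x ≤ |x - n| := round_le x n

lemma dnint (x : ℝ) (n : ℤ) : dn (x + n) = dn x := by
  rw [dn, dn, round_add_intCast]; congr 1; push_cast; ring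

lemma dnneg (x : ℝ) : dn (-x) = dn x := by
  have h : ∀ y : ℝ, dn (-y) ≤ dn y := fun y => (dnle (-y) (-round y)).trans_eq (by
    rw [dn, ← abs_neg]; congr 1; push_cast; ring)
  exact le_antisymm (h x) (by simpa using h (-x))

lemma dnadd (x y : ℝ) : dn (x + y) ≤ dn x + |y| :=
  (dnle (x + y) (round x)).trans (by
    rw [dn, show x + y - round x = x - round x + y by ring]; exact abs_add_le _ _)

lemma jordan (x : ℝ) : 4 * dn x ≤ ‖ee x - 1‖ := by
  have h := (dn0 x).2
  have e : ee x = ee (x - round x) := by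
    rw [← mul_one (ee (x - round x)), ← int (round x), ← add, sub_add_cancel]
  rw [e, dn] at *
  generalize x - round x = y at *
  rw [ee_eq, norm_exp_I_mul_ofReal_sub_one, Real.norm_eq_abs, abs_mul, abs_two]
  have h1 : |2 * π * y / 2| = π * |y| := by
    rw [show 2 * π * y / 2 = π * y by ring, abs_mul, abs_of_pos pi_pos]
  have h2 := mul_abs_le_abs_sin (x := 2 * π * y / 2) (by rw [h1]; nlinarith [pi_pos])
  rw [h1, show 2 / π * (π * |y|) = 2 * |y| by field_simp] at h2
  linarith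

lemma tele (θ : ℝ) {a b : ℤ} (h : a ≤ b) :
    (∑ m ∈ Ioc a b, ee (m * θ)) * (ee θ - 1) = ee ((b + 1) * θ) - ee ((a + 1) * θ) := by
  induction b, h using Int.leInduction with
  | base => simp
  | succ b hb ih =>
    rw [← insert_Ioc_right_eq_Ioc_add_one hb, sum_insert (by simp), add_mul, ih]
    push_cast
    rw [add_mul (b + 1 : ℝ) 1, one_mul, add]
    ring

lemma geo (θ : ℝ) (a b : ℤ) : dn θ * ‖∑ m ∈ Ioc a b, ee (m * θ)‖ ≤ 1 / 2 := by
  rcases le_or_gt a b with h | h
  · have h1 : ‖∑ m ∈ Ioc a b, ee (m * θ)‖ * ‖ee θ - 1‖ ≤ 2 := by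
      rw [← norm_mul, tele θ h]
      refine (norm_sub_le _ _).trans ?_
      rw [norm, norm]; norm_num
    nlinarith [mul_le_mul_of_nonneg_left (jordan θ) (norm_nonneg (∑ m ∈ Ioc a b, ee (m * θ)))]
  · rw [Ioc_eq_empty (by omega)]; simp

lemma geoN (θ : ℝ) (a b : ℕ) : dn θ * ‖∑ m ∈ Ioc a b, ee (m * θ)‖ ≤ 1 / 2 := by
  have h : ∑ m ∈ Ioc a b, ee (m * θ) = ∑ m ∈ Ioc (a : ℤ) b, ee (m * θ) := by
    refine sum_bij' (fun m _ => (m : ℤ)) (fun m _ => m.toNat) ?_ ?_ ?_ ?_ ?_
    · intro m hm; simp only [mem_Ioc] at *; omega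
    · intro m hm; simp only [mem_Ioc] at *; omega
    · intro m _; simp
    · intro m hm; simp only [mem_Ioc] at *; omega
    · intro m _; simp
  rw [h]; exact geo θ a b

lemma orth (c : ℕ) (s j : ℤ) (hc : 0 < c) :
    ∑ k ∈ Ioc s (s + c), ee (k * j / c) = if (c : ℤ) ∣ j then (c : ℂ) else 0 := by
  have hc' : (c : ℝ) ≠ 0 := by positivity
  split_ifs with h
  · obtain ⟨i, rfl⟩ := h
    rw [sum_congr rfl fun (k : ℤ) _ => show ee (k * ((c * i : ℤ) : ℝ) / c) = 1 by
      rw [← int (k * i)]; congr 1; push_cast; field_simp]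
    simp
  · have h1 := tele (j / c) (show s ≤ s + c by omega)
    have h2 : ee ((((s + c : ℤ) : ℝ) + 1) * (j / c)) = ee ((s + 1) * (j / c)) := by
      rw [← mul_one (ee ((s + 1) * (j / c))), ← int j, ← add]; congr 1; push_cast; field_simp; ring
    rw [h2, sub_self, mul_eq_zero] at h1
    simp only [mul_div_assoc]
    refine h1.resolve_right fun h3 => h ?_
    have h4 := jordan (j / c)
    rw [h3, norm_zero] at h4
    have h5 : (j : ℝ) / c - round ((j : ℝ) / c) = 0 :=
      abs_eq_zero.1 (le_antisymm (by rw [← dn]; linarith) (abs_nonneg _))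
    refine ⟨round ((j : ℝ) / c), ?_⟩
    have h6 : (j : ℝ) = c * round ((j : ℝ) / c) := by
      rw [← sub_eq_zero.1 h5]; field_simp
    exact_mod_cast h6

lemma wle (M : ℕ) (θ : ℝ) :
    ‖ww M θ‖ ≤ M ∧ dn θ * ‖ww M θ‖ ≤ 1 / 2 ∧ ‖ww M (-θ)‖ = ‖ww M θ‖ := by
  refine ⟨(norm_sum_le _ _).trans (by simp [norm]), geoN θ 0 M, ?_⟩
  rw [← Complex.norm_conj (ww M θ), ww, ww, map_sum]
  simp only [conj, mul_neg]

lemma grid (c : ℕ) (lam L : ℝ) (f : ℕ → ℝ) (hc : 0 < c) (hL : 0 ≤ L)
    (hf : ∀ h, f h ≤ L ∧ f h * dn (lam - h / c) ≤ 1 / 2) :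
    ∑ h ∈ range c, f h ≤ 2 * L + 2 * c * (1 + Real.log c) := by
  have hc' : (0 : ℝ) < c := by positivity
  let k : ℕ → ℤ := fun h => ⌊c * lam⌋ - (h + c * round (lam - h / c))
  let F : ℕ → ℝ := fun j => if j = 0 then L else c / (2 * j)
  let m : ℕ → Bool × ℕ := fun h => if 0 ≤ k h then (true, (k h).toNat) else (false, (-k h - 1).toNat)
  have F0 : ∀ j, 0 ≤ F j := fun j => by simp only [F]; split_ifs <;> positivity
  have hk : ∀ h, ((m h).2 : ℝ) ≤ c * dn (lam - h / c) := fun h => by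
    have h1 : (c : ℝ) * (lam - h / c - round (lam - h / c)) - k h = c * lam - ⌊c * lam⌋ := by
      simp only [k]; push_cast; field_simp; ring
    have h2 := Int.floor_le (c * lam)
    have h3 := Int.lt_floor_add_one (c * lam)
    have h4 := mul_le_mul_of_nonneg_left (le_abs_self (lam - h / c - round (lam - h / c))) hc'.le
    have h5 := mul_le_mul_of_nonneg_left (neg_le_abs (lam - h / c - round (lam - h / c))) hc'.le
    simp only [m, dn]
    split_ifs with h0
    · have : (((k h).toNat : ℤ) : ℝ) = k h := by rw [Int.toNat_of_nonneg h0]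
      rw [Int.cast_natCast] at this
      linarith
    · have : (((-k h - 1).toNat : ℤ) : ℝ) = (-k h - 1 : ℤ) := by
        rw [Int.toNat_of_nonneg (by omega)]
      rw [Int.cast_natCast] at this
      push_cast at this
      linarith
  have hinj : Set.InjOn m (range c) := fun a ha b hb h => by
    have h1 : k a = k b := by
      simp only [m] at h
      split_ifs at h <;> simp only [Prod.mk.injEq, reduceCtorEq, false_and, true_and] at h <;> omega
    have h2 : (c : ℤ) ∣ (a : ℤ) - b :=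
      ⟨round (lam - b / c) - round (lam - a / c), by simp only [k] at h1; linarith⟩
    have h3 := mem_range.1 ha
    have h4 := mem_range.1 hb
    have := Int.eq_zero_of_abs_lt_dvd h2 (by rw [abs_lt]; omega)
    omega
  have h1 : ∑ h ∈ range c, f h ≤ ∑ h ∈ range c, F (m h).2 := sum_le_sum fun h _ => by
    simp only [F]
    split_ifs with h0
    · exact (hf h).1
    · have h2 : (0 : ℝ) < (m h).2 := by positivity
      rw [le_div_iff₀ (by positivity)]
      rcases le_or_gt (f h) 0 with h3 | h3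
      · nlinarith
      · nlinarith [mul_le_mul_of_nonneg_left (hk h) h3.le,
          mul_le_mul_of_nonneg_left (hf h).2 hc'.le]
  have h2 : ∑ h ∈ range c, F (m h).2 ≤ ∑ x ∈ (univ : Finset Bool) ×ˢ range (c + 1), F x.2 := by
    rw [← sum_image (f := fun x : Bool × ℕ => F x.2) hinj]
    refine sum_le_sum_of_subset_of_nonneg (fun x hx => ?_) fun x _ _ => F0 _
    obtain ⟨h, -, rfl⟩ := mem_image.1 hx
    refine mem_product.2 ⟨mem_univ _, mem_range.2 (Nat.lt_succ_of_le ?_)⟩
    have := mul_le_mul_of_nonneg_left (dn0 (lam - h / c)).2 hc'.le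
    exact_mod_cast (by linarith [hk h] : ((m h).2 : ℝ) ≤ c)
  have h3 : ∑ j ∈ range (c + 1), F j = c / 2 * (harmonic c : ℝ) + L := by
    rw [sum_range_succ', harmonic]
    push_cast
    rw [mul_sum]
    congr 1
    exact sum_congr rfl fun j _ => by simp only [F, Nat.succ_ne_zero, if_false]; push_cast; field_simp
  have h4 := harmonic_le_one_add_log c
  have h5 := Real.log_natCast_nonneg c
  rw [sum_product, Fintype.sum_bool] at h2
  simp only [h3] at h2
  nlinarith [mul_le_mul_of_nonneg_left h4 hc'.le]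

end TOOL

theorem st_TOOL : St_TOOL :=
  ⟨TOOL.add, TOOL.norm, TOOL.int, TOOL.conj, TOOL.geo, TOOL.geoN, TOOL.orth, TOOL.dn0, TOOL.dnle,
    TOOL.dnint, TOOL.dnneg, TOOL.dnadd, TOOL.wle, TOOL.grid⟩

end Pool.Agent.Lib.AP
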