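import Pool.Agent.Lib.AP.B_LEV

/-! Splitting an integer of given type. -/

open Finset Classical

noncomputable section

namespace Pool.Agent.Lib.AP

namespace TYP

lemma mem {Y : ℝ} {S : Finset ℕ} {m p : ℕ} (h : typ Y S m) (hp : p ∈ m.primeFactorsList) :
    lvN Y p ∈ S := by
  rw [← mem_sort (· ≤ ·), ← h.2]
  exact List.mem_map_of_mem hp

lemma of_perm {Y : ℝ} (hY : 1 < Y) {S : Finset ℕ} {m : ℕ} (hm : m ≠ 0)
    (h : (levN Y m).Perm S.toList) : typ Y S m :=
  ⟨hm, (h.trans (sort_perm_toList S _).symm).eq_of_pairwise' (r := (· ≤ ·)) (LEV.asc Y m hY)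
    (pairwise_sort S _)⟩

lemma perm {Y : ℝ} {S : Finset ℕ} {m : ℕ} (h : typ Y S m) : (levN Y m).Perm S.toList :=
  h.2 ▸ sort_perm_toList S _

lemma mul {Y : ℝ} (hY : 1 < Y) {S S' : Finset ℕ} (hd : Disjoint S S') {m r : ℕ} (h : typ Y S m)
    (h' : typ Y S' r) : typ Y (S ∪ S') (m * r) := by
  refine of_perm hY (mul_ne_zero h.1 h'.1) ?_
  have h1 := (Nat.perm_primeFactorsList_mul h.1 h'.1).map (lvN Y)
  rw [List.map_append] at h1
  refine (h1.trans ((perm h).append (perm h'))).trans ?_
  rw [← Multiset.coe_eq_coe, ← Multiset.coe_add, coe_toList, coe_toList, coe_toList,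
    ← disjUnion_eq_union S S' hd, disjUnion_val]

lemma uniq {Y : ℝ} {S S' : Finset ℕ} (hd : Disjoint S S') {m r : ℕ} (h : typ Y S m)
    (h' : typ Y S' r) :
    m = ((m * r).primeFactorsList.filter fun p => decide (lvN Y p ∈ S)).prod := by
  have h1 := ((Nat.perm_primeFactorsList_mul h.1 h'.1).filter
    fun p => decide (lvN Y p ∈ S)).prod_eq
  rw [h1, List.filter_append, List.filter_eq_self.2 fun p hp => by simpa using mem h hp,
    List.filter_eq_nil_iff.2 fun p hp => by simpa using disjoint_right.1 hd (mem h' hp),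
    List.append_nil, Nat.prod_primeFactorsList h.1]

lemma part {Y : ℝ} (hY : 1 < Y) {S U : Finset ℕ} {n : ℕ} (h : typ Y U n) :
    typ Y (U.filter (· ∈ S)) (n.primeFactorsList.filter fun p => decide (lvN Y p ∈ S)).prod := by
  have hs : (n.primeFactorsList.filter fun p => decide (lvN Y p ∈ S)).Sublist _ :=
    List.filter_sublist
  refine of_perm hY (ne_zero_of_dvd_ne_zero h.1 (LEV.prod_dvd h.1 hs)) ?_
  rw [levN, LEV.pf_prod hs]
  have h1 := (perm h).filter fun i => decide (i ∈ S)
  rw [levN, List.filter_map] at h1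
  refine h1.trans ?_
  rw [← Multiset.coe_eq_coe, ← Multiset.filter_coe, coe_toList, coe_toList, filter_val]

lemma ex {Y : ℝ} (hY : 1 < Y) {S S' : Finset ℕ} (hd : Disjoint S S') {n : ℕ}
    (h : typ Y (S ∪ S') n) : ∃ m r, m * r = n ∧ typ Y S m ∧ typ Y S' r := by
  have h1 := part hY (S := S) h
  have h2 := part hY (S := S') h
  rw [filter_mem_eq_inter, union_inter_cancel_left] at h1
  rw [filter_mem_eq_inter, union_inter_cancel_right] at h2
  refine ⟨_, _, ?_, h1, h2⟩
  have h3 : (n.primeFactorsList.filter fun p => decide (lvN Y p ∈ S')) =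
      n.primeFactorsList.filter fun p => !decide (lvN Y p ∈ S) := by
    refine List.filter_congr fun p hp => ?_
    rcases mem_union.1 (mem h hp) with h4 | h4
    · simp [h4, disjoint_left.1 hd h4]
    · simp [h4, disjoint_right.1 hd h4]
  rw [h3, ← List.prod_append, (List.filter_append_perm _ _).prod_eq,
    Nat.prod_primeFactorsList h.1]

end TYP

theorem st_TYP : St_TYP := by
  intro Y S S' n hY hd
  rw [col]
  split_ifs with h
  · obtain ⟨m, r, rfl, h1, h2⟩ := TYP.ex hY hd h
    rw [sum_eq_single (m, r)]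
    · simp [h1, h2]
    · rintro ⟨a, b⟩ hab hne
      have h3 : a * b = m * r := (Nat.mem_divisorsAntidiagonal.1 hab).1
      by_cases ha : typ Y S a
      · by_cases hb : typ Y S' b
        · have h4 : a = m := by rw [TYP.uniq hd ha hb, h3, ← TYP.uniq hd h1 h2]
          subst h4
          exact absurd (by rw [Nat.eq_of_mul_eq_mul_left (Nat.pos_of_ne_zero ha.1) h3]) hne
        · simp [hb]
      · simp [ha]
    · intro h3
      exact absurd (Nat.mem_divisorsAntidiagonal.2 ⟨rfl, h.1⟩) h3
  · refine (sum_eq_zero fun x hx => ?_).symm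
    by_cases ha : typ Y S x.1
    · by_cases hb : typ Y S' x.2
      · exact absurd ((Nat.mem_divisorsAntidiagonal.1 hx).1 ▸ TYP.mul hY hd ha hb) h
      · simp [hb]
    · simp [ha]

end Pool.Agent.Lib.AP
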