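import Pool.Agent.Lib.AP.Blue

/-! Spacing of the multiples of `α` in a block of length `q / 2`. -/

open Finset Classical

noncomputable section

namespace Pool.Agent.Lib.AP

namespace VIN

lemma sep {α : ℝ} {a : ℤ} {q : ℕ} (hq : 2 ≤ q) (hc : IsCoprime a q)
    (hα : |α - a / q| ≤ 1 / (q : ℝ) ^ 2) (t m : ℤ) (ht : t ≠ 0) (h2 : 2 * |t| ≤ q) :
    1 ≤ 2 * q * |α * t - m| := by
  have hq0 : (0 : ℝ) < q := by exact_mod_cast (by omega : 0 < q)
  have hne : a * t - m * q ≠ 0 := by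
    intro h
    have hd : (q : ℤ) ∣ a * t := ⟨m, by linarith⟩
    have hd2 : (q : ℤ) ∣ t := hc.symm.dvd_of_dvd_mul_left hd
    have h3 : (q : ℤ) ≤ |t| := Int.le_of_dvd (abs_pos.2 ht) ((dvd_abs _ _).2 hd2)
    have : (0 : ℤ) < |t| := abs_pos.2 ht
    omega
  have h1 : (1 : ℝ) ≤ |(a : ℝ) * t - m * q| := by
    have : (1 : ℤ) ≤ |a * t - m * q| := Int.one_le_abs hne
    exact_mod_cast this
  have ht2 : 2 * |(t : ℝ)| ≤ q := by exact_mod_cast h2
  have e : (a : ℝ) * t - m * q = q * (α * t - m) - q * t * (α - a / q) := by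
    field_simp
    ring
  have h4 : |(q : ℝ) * t * (α - a / q)| ≤ 1 / 2 := by
    rw [abs_mul, abs_mul, abs_of_pos hq0]
    calc (q : ℝ) * |(t : ℝ)| * |α - a / q| ≤ q * (q / 2) * (1 / (q : ℝ) ^ 2) := by
          apply mul_le_mul _ hα (abs_nonneg _) (by positivity)
          exact mul_le_mul_of_nonneg_left (by linarith) hq0.le
      _ = 1 / 2 := by field_simp
  have h5 : |(a : ℝ) * t - m * q| ≤ q * |α * t - m| + 1 / 2 := by
    rw [e]
    refine (abs_sub _ _).trans ?_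
    rw [abs_mul (q : ℝ) (α * t - m), abs_of_pos hq0]
    linarith
  linarith

lemma inj_sum {ι : Type*} (S : Finset ι) (J : Finset ℕ) (j : ι → ℕ) (p : ι → Bool) (F : ℕ → ℝ)
    (hF : ∀ j, 0 ≤ F j) (hJ : ∀ t ∈ S, j t ∈ J)
    (hi : ∀ t ∈ S, ∀ t' ∈ S, j t = j t' → p t = p t' → t = t') :
    ∑ t ∈ S, F (j t) ≤ 2 * ∑ i ∈ J, F i := by
  have h1 : ∑ t ∈ S, F (j t) = ∑ x ∈ S.image (fun t => (j t, p t)), F x.1 := by
    rw [sum_image]
    intro t ht t' ht' h
    exact hi t ht t' ht' (congrArg Prod.fst h) (congrArg Prod.snd h)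
  have h2 : S.image (fun t => (j t, p t)) ⊆ J ×ˢ (univ : Finset Bool) := by
    intro x hx
    obtain ⟨t, ht, rfl⟩ := mem_image.1 hx
    exact mem_product.2 ⟨hJ t ht, mem_univ _⟩
  rw [h1]
  refine (sum_le_sum_of_subset_of_nonneg h2 fun x _ _ => hF x.1).trans ?_
  rw [sum_product, mul_sum]
  refine le_of_eq (sum_congr rfl fun i _ => ?_)
  simp

end VIN

theorem st_VIN : St_VIN := by
  intro α a q hq hc hα F f s hF hf
  have hq0 : (0 : ℝ) < q := by exact_mod_cast (by omega : 0 < q)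
  have hd0 : ∀ x : ℝ, 0 ≤ 2 * q * dn x := fun x => by unfold dn; positivity
  set j : ℕ → ℕ := fun t => ⌊2 * q * dn (α * t)⌋₊ with hj
  have hle : ∑ t ∈ Ioc s (s + q / 2), f t ≤ ∑ t ∈ Ioc s (s + q / 2), F (j t) :=
    sum_le_sum fun t ht => hf t ht _ (Nat.floor_le (hd0 _)) (Nat.lt_floor_add_one _)
  have hjq : ∀ t, j t ≤ q := by
    intro t
    apply Nat.floor_le_of_le
    have : dn (α * t) ≤ 1 / 2 := abs_sub_round _
    nlinarith
  have hi : ∀ t ∈ Ioc s (s + q / 2), ∀ t' ∈ Ioc s (s + q / 2), j t = j t' →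
      decide (0 ≤ α * t - round (α * t)) = decide (0 ≤ α * t' - round (α * t')) → t = t' := by
    intro t ht t' ht' h1 h2
    by_contra hne
    rw [mem_Ioc] at ht ht'
    have hs := VIN.sep hq hc hα ((t : ℤ) - t') (round (α * t) - round (α * t'))
      (by omega) (by rw [abs_eq_max_neg]; omega)
    have a1 : (j t : ℝ) ≤ 2 * q * dn (α * t) := Nat.floor_le (hd0 _)
    have a2 : 2 * q * dn (α * t) < j t + 1 := Nat.lt_floor_add_one _
    have a3 : (j t' : ℝ) ≤ 2 * q * dn (α * t') := Nat.floor_le (hd0 _)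
    have a4 : 2 * q * dn (α * t') < j t' + 1 := Nat.lt_floor_add_one _
    rw [h1] at a1 a2
    have e : α * (((t : ℤ) - t' : ℤ) : ℝ) - ((round (α * t) - round (α * t') : ℤ) : ℝ) =
        (α * t - round (α * t)) - (α * t' - round (α * t')) := by
      push_cast
      ring
    rw [e] at hs
    unfold dn at a1 a2 a3 a4
    have h3 : (0 ≤ α * t - round (α * t)) ↔ (0 ≤ α * t' - round (α * t')) := by
      simpa using h2
    generalize α * t - round (α * t) = x at *
    generalize α * t' - round (α * t') = y at *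
    have h6 : 2 * (q : ℝ) * |x - y| = |2 * q * x - 2 * q * y| := by
      rw [← mul_sub, abs_mul, abs_of_pos (by positivity : (0 : ℝ) < 2 * q)]
    rw [h6] at hs
    by_cases hx : 0 ≤ x
    · have hy := h3.1 hx
      rw [abs_of_nonneg hx] at a1 a2
      rw [abs_of_nonneg hy] at a3 a4
      have : |2 * q * x - 2 * q * y| < 1 := abs_lt.2 ⟨by linarith, by linarith⟩
      linarith
    · have hy : ¬ 0 ≤ y := fun h => hx (h3.2 h)
      rw [abs_of_neg (not_le.1 hx)] at a1 a2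
      rw [abs_of_neg (not_le.1 hy)] at a3 a4
      have : |2 * q * x - 2 * q * y| < 1 := abs_lt.2 ⟨by linarith, by linarith⟩
      linarith
  refine ⟨hle.trans (VIN.inj_sum _ _ j _ F hF (fun t _ => mem_range.2 (Nat.lt_succ_of_le (hjq t))) hi),
    fun hs => hle.trans (VIN.inj_sum _ _ j _ F hF (fun t ht => mem_Icc.2 ⟨?_, hjq t⟩) hi)⟩
  subst hs
  rw [mem_Ioc] at ht
  have h := VIN.sep hq hc hα (t : ℤ) (round (α * t)) (by omega) (by rw [abs_eq_max_neg]; omega)
  apply Nat.le_floor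
  simpa [dn] using h

end Pool.Agent.Lib.AP
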