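import Pool.Agent.Lib.AP.B_VIN

/-! The sum of `min (W / t, 1 / ‖α t‖)`. -/

open Finset Classical

noncomputable section

namespace Pool.Agent.Lib.AP

namespace W1

lemma har (A : ℕ) : ∑ a ∈ Icc 1 A, (1 : ℝ) / a ≤ 1 + Real.log A := by
  have h := harmonic_le_one_add_log A
  rw [harmonic_eq_sum_Icc] at h
  push_cast at h
  simpa [one_div] using h

lemma blocks (f : ℕ → ℝ) (h n : ℕ) :
    ∑ t ∈ Ioc 0 (n * h), f t = ∑ i ∈ range n, ∑ t ∈ Ioc (i * h) (i * h + h), f t := by
  induction n with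
  | zero => simp
  | succ n ih =>
    rw [sum_range_succ, ← ih, Nat.succ_mul,
      sum_Ioc_consecutive _ (Nat.zero_le _) (Nat.le_add_right _ _)]

/-- one block -/
lemma block {α : ℝ} {a : ℤ} {q : ℕ} (hq : 2 ≤ q) (hc : IsCoprime a q)
    (hα : |α - a / q| ≤ 1 / (q : ℝ) ^ 2) (f : ℕ → ℝ) (s : ℕ) (L : ℝ) (hL : 0 ≤ L)
    (hf : ∀ t ∈ Ioc s (s + q / 2), f t ≤ L ∧ f t * dn (α * t) ≤ 1) :
    ∑ t ∈ Ioc s (s + q / 2), f t ≤ 2 * L + 4 * q * (1 + Real.log q) ∧
      (s = 0 → ∑ t ∈ Ioc s (s + q / 2), f t ≤ 4 * q * (1 + Real.log q)) := by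
  have hq0 : (0 : ℝ) < q := by exact_mod_cast (by omega : 0 < q)
  have h := st_VIN α a q hq hc hα (fun j => if j = 0 then L else 2 * q / j) f s
    (fun j => by split_ifs; exacts [hL, by positivity]) (by
      intro t ht j h1 _
      obtain ⟨a1, a2⟩ := hf t ht
      split_ifs with hj
      · exact a1
      · have hj0 : (0 : ℝ) < j := by exact_mod_cast Nat.pos_of_ne_zero hj
        rw [le_div_iff₀ hj0]
        by_cases h0 : 0 ≤ f t
        · calc f t * j ≤ f t * (2 * q * dn (α * t)) := mul_le_mul_of_nonneg_left h1 h0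
            _ = 2 * q * (f t * dn (α * t)) := by ring
            _ ≤ 2 * q * 1 := mul_le_mul_of_nonneg_left a2 (by positivity)
            _ = 2 * q := mul_one _
        · nlinarith)
  have e1 : ∑ j ∈ Icc 1 q, (if j = 0 then L else 2 * (q : ℝ) / j) ≤ 2 * q * (1 + Real.log q) := by
    refine le_trans (le_of_eq ?_) (mul_le_mul_of_nonneg_left (har q) (by positivity))
    rw [mul_sum]
    refine sum_congr rfl fun j hj => ?_
    rw [if_neg (by have := (mem_Icc.1 hj).1; omega)]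
    ring
  have e2 : ∑ j ∈ range (q + 1), (if j = 0 then L else 2 * (q : ℝ) / j) =
      L + ∑ j ∈ Icc 1 q, (if j = 0 then L else 2 * (q : ℝ) / j) := by
    rw [range_eq_Ico, sum_eq_sum_Ico_succ_bot (Nat.succ_pos q), if_pos rfl]
    rfl
  constructor
  · have := h.1
    rw [e2] at this
    linarith
  · intro hs
    have := h.2 hs
    linarith

/-- the general form, without the scale -/
lemma gen {α : ℝ} {a : ℤ} {q : ℕ} (hq : 2 ≤ q) (hc : IsCoprime a q)
    (hα : |α - a / q| ≤ 1 / (q : ℝ) ^ 2) (T : ℕ) (W : ℝ) (f : ℕ → ℝ) (hW : 0 ≤ W)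
    (hf : ∀ t ∈ Icc 1 T, f t * t ≤ W ∧ f t * dn (α * t) ≤ 1) :
    ∑ t ∈ Icc 1 T, f t ≤ 8 * (W / q) * (1 + Real.log T) + (16 * T + 4 * q) * (1 + Real.log q) := by
  have hq0 : (0 : ℝ) < q := by exact_mod_cast (by omega : 0 < q)
  set h := q / 2 with hh
  have hh1 : 1 ≤ h := by omega
  have hh0 : (0 : ℝ) < h := by exact_mod_cast hh1
  have hqh : (q : ℝ) ≤ 4 * h := by exact_mod_cast (by omega : q ≤ 4 * h)
  set n := T / h with hn
  have hnT : n ≤ T := Nat.div_le_self _ _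
  have hnh : n * h ≤ T := Nat.div_mul_le_self _ _
  have hT : T ≤ (n + 1) * h := by
    have := Nat.lt_div_mul_add (a := T) (show 0 < h by omega)
    rw [Nat.succ_mul]
    exact this.le
  set g : ℕ → ℝ := fun t => if t ≤ T then f t else 0 with hg
  have e0 : ∑ t ∈ Icc 1 T, f t = ∑ t ∈ Ioc 0 ((n + 1) * h), g t := by
    rw [hg, ← sum_filter]
    refine sum_congr ?_ fun _ _ => rfl
    ext t
    simp only [mem_Icc, mem_filter, mem_Ioc]
    omega
  have hl : 0 ≤ Real.log q := Real.log_natCast_nonneg _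
  have hb : ∀ (i : ℕ) (c : ℝ), 0 < c → c ≤ i * h + 1 → ∀ t ∈ Ioc (i * h) (i * h + q / 2),
      g t ≤ W / c ∧ g t * dn (α * t) ≤ 1 := by
    intro i c hc0 hc1 t ht
    rw [mem_Ioc] at ht
    simp only [hg]
    split_ifs with htT
    · obtain ⟨a1, a2⟩ := hf t (mem_Icc.2 ⟨by omega, htT⟩)
      refine ⟨?_, a2⟩
      rw [le_div_iff₀ hc0]
      have hct : c ≤ t := hc1.trans (by exact_mod_cast ht.1)
      by_cases h0 : 0 ≤ f t
      · exact (mul_le_mul_of_nonneg_left hct h0).trans a1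
      · nlinarith
    · exact ⟨by positivity, by simp⟩
  rw [e0, blocks, sum_range_succ']
  have b0 := (block hq hc hα g (0 * h) (W / 1) (by positivity)
    (by simpa using hb 0 1 one_pos (by simp))).2 (by simp)
  have b1 : ∑ i ∈ range n, ∑ t ∈ Ioc ((i + 1) * h) ((i + 1) * h + h), g t ≤
      ∑ i ∈ range n, (2 * (W / h) * (1 / ((i + 1 : ℕ) : ℝ)) + 4 * q * (1 + Real.log q)) := by
    refine sum_le_sum fun i _ => ?_
    have hi0 : (0 : ℝ) < ((i + 1 : ℕ) : ℝ) := by positivity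
    have := (block hq hc hα g ((i + 1) * h) (W / (((i + 1 : ℕ) : ℝ) * h)) (by positivity)
      (hb (i + 1) _ (by positivity) (by linarith))).1
    refine this.trans (le_of_eq ?_)
    field_simp
  have b2 : ∑ i ∈ range n, (1 / ((i + 1 : ℕ) : ℝ)) ≤ 1 + Real.log T := by
    have e : ∑ i ∈ range n, (1 / ((i + 1 : ℕ) : ℝ)) = ∑ a ∈ Icc 1 n, (1 : ℝ) / a := by
      rw [← Finset.Ico_add_one_right_eq_Icc, sum_Ico_eq_sum_range]
      simp [add_comm]
    rw [e]
    refine (har n).trans ?_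
    rcases Nat.eq_zero_or_pos n with h0 | h0
    · rw [h0]
      have := Real.log_natCast_nonneg T
      simpa using this
    · have : Real.log n ≤ Real.log T :=
        Real.log_le_log (by exact_mod_cast h0) (by exact_mod_cast hnT)
      linarith
  rw [sum_add_distrib, ← mul_sum, sum_const, card_range, nsmul_eq_mul] at b1
  have hlT : 0 ≤ Real.log T := Real.log_natCast_nonneg _
  have c1 : W / h ≤ 4 * (W / q) := by
    rw [← mul_div_assoc, div_le_div_iff₀ hh0 hq0]
    nlinarith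
  have c2 : (n : ℝ) * q ≤ 4 * T := by
    have : (n : ℝ) * h ≤ T := by exact_mod_cast hnh
    have : (0 : ℝ) ≤ n := Nat.cast_nonneg _
    nlinarith
  have c3 : 2 * (W / h) * ∑ i ∈ range n, (1 / ((i + 1 : ℕ) : ℝ)) ≤
      8 * (W / q) * (1 + Real.log T) :=
    mul_le_mul (by linarith) b2 (sum_nonneg fun _ _ => by positivity) (by positivity)
  have c4 : (n : ℝ) * (4 * q * (1 + Real.log q)) ≤ 16 * T * (1 + Real.log q) := by
    have := mul_le_mul_of_nonneg_right c2 (show 0 ≤ 4 * (1 + Real.log q) by positivity)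
    linarith
  linarith

lemma Y1 {Λ : ℕ} {Y : ℝ} (hB : Big Λ Y) : 2 ≤ Y :=
  le_trans (by
    have := hB.lam
    calc (2 : ℝ) = 2 ^ 1 := (pow_one _).symm
      _ ≤ 2 ^ (300 * Λ) := pow_le_pow_right₀ one_le_two (by omega)) hB.two

lemma logle {Λ : ℕ} {Y : ℝ} (hB : Big Λ Y) {n : ℕ} (hn : (n : ℝ) ≤ Y ^ (2000 * Λ)) :
    1000 * (1 + Real.log n) ≤ Y := by
  have h1 := Y1 hB
  refine le_trans ?_ hB.log
  rcases Nat.eq_zero_or_pos n with h0 | h0
  · have := Real.log_nonneg (one_le_pow₀ (n := 2000 * Λ) (show (1 : ℝ) ≤ Y by linarith))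
    rw [h0]
    simp only [Nat.cast_zero, Real.log_zero]
    linarith
  · have := Real.log_le_log (by exact_mod_cast h0) hn
    linarith

lemma dn_mul (d : ℕ) (x : ℝ) : dn (d * x) ≤ d * dn x := by
  have h := round_le (d * x) (d * round x)
  unfold dn
  refine h.trans (le_of_eq ?_)
  push_cast
  rw [← mul_sub, abs_mul, Nat.abs_cast]

lemma logsq {Λ : ℕ} {Y : ℝ} (hB : Big Λ Y) :
    (1000 * (1 + Real.log (Y ^ (2000 * Λ)))) ^ 2 ≤ Y := by
  have h1 := Y1 hB
  have hY0 : 0 < Y := by linarith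
  have hΛ : (100000 : ℝ) ≤ Λ := by exact_mod_cast hB.lam
  have h2 := Real.log_le_log (by positivity) hB.two
  rw [Real.log_pow] at h2
  have h3 := Real.log_two_gt_d9
  set y := Real.log Y with hy
  have h4 : 200 * (Λ : ℝ) ≤ y := by
    push_cast at h2
    nlinarith
  have h5 : 20000000 ≤ y := by linarith
  have h6 := Real.pow_div_factorial_le_exp y (by linarith) 6
  rw [hy, Real.exp_log hY0, ← hy] at h6
  rw [Real.log_pow, ← hy]
  refine le_trans ?_ h6
  have h7 : 1 + ((2000 * Λ : ℕ) : ℝ) * y ≤ 11 * y ^ 2 := by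
    push_cast
    nlinarith
  have h8 : 0 ≤ 1 + ((2000 * Λ : ℕ) : ℝ) * y := by positivity
  have h9 : (1000 * (1 + ((2000 * Λ : ℕ) : ℝ) * y)) ^ 2 ≤ (1000 * (11 * y ^ 2)) ^ 2 := by gcongr
  refine h9.trans ?_
  rw [le_div_iff₀ (by positivity)]
  have h10 : (20000000 : ℝ) ^ 2 ≤ y ^ 2 := by gcongr
  have h11 : 0 ≤ y ^ 4 := by positivity
  have e : ((Nat.factorial 6 : ℕ) : ℝ) = 720 := by norm_num [Nat.factorial]
  rw [e]
  nlinarith

/-- a cube root times a logarithm -/
lemma dlog {Λ : ℕ} {Y : ℝ} (hB : Big Λ Y) {d n : ℕ} (hd : (d : ℝ) ^ 3 ≤ Y)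
    (hn : (n : ℝ) ≤ Y ^ (2000 * Λ)) : d * (1000 * (1 + Real.log n)) ≤ Y := by
  have h1 := Y1 hB
  have h2 := logsq hB
  have hl : 0 ≤ Real.log n := Real.log_natCast_nonneg _
  have h3 : Real.log n ≤ Real.log (Y ^ (2000 * Λ)) := by
    rcases Nat.eq_zero_or_pos n with h0 | h0
    · rw [h0]
      simpa using Real.log_nonneg (one_le_pow₀ (n := 2000 * Λ) (show (1 : ℝ) ≤ Y by linarith))
    · exact Real.log_le_log (by exact_mod_cast h0) hn
  have h4 : (1000 * (1 + Real.log n)) ^ 2 ≤ Y := le_trans (by gcongr) h2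
  have h5 : (d : ℝ) ^ 2 ≤ Y := by
    rcases Nat.eq_zero_or_pos d with h0 | h0
    · rw [h0]; norm_num; linarith
    · exact (pow_le_pow_right₀ (by exact_mod_cast h0) (by norm_num)).trans hd
  refine (pow_le_pow_iff_left₀ (by positivity) (by linarith) two_ne_zero).1 ?_
  rw [mul_pow, sq Y]
  exact mul_le_mul h5 h4 (by positivity) (by linarith)

end W1

theorem st_W1 : St_W1 := by
  intro Λ Y α q hB hD T W f hW hT hf
  obtain ⟨hq, d, hd1, hd, a, hc, hα⟩ := hD
  have h1 := W1.Y1 hB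
  have hΛ := hB.lam
  have hY1 : (1 : ℝ) ≤ Y := by linarith
  have hq2 : 2 ≤ q := by
    have : (2 : ℝ) ≤ q := by
      rw [hq]
      exact h1.trans (le_self_pow₀ hY1 (by omega))
    exact_mod_cast this
  have hd0 : (0 : ℝ) < d := by exact_mod_cast hd1
  have l1 := W1.logle hB (hT.trans (pow_le_pow_right₀ hY1 (by omega)))
  have l2 := W1.dlog hB hd (n := q) (by rw [hq]; exact pow_le_pow_right₀ hY1 (by omega))
  have key := W1.gen hq2 hc hα T (W / d) (fun t => f t / d) (by positivity) fun t ht => by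
    obtain ⟨a1, a2⟩ := hf t ht
    refine ⟨?_, ?_⟩
    · rw [div_mul_eq_mul_div]
      exact div_le_div_of_nonneg_right a1 hd0.le
    · rw [div_mul_eq_mul_div, div_le_one hd0, mul_assoc]
      by_cases h0 : 0 ≤ f t
      · calc f t * dn (d * (α * t)) ≤ f t * (d * dn (α * t)) :=
              mul_le_mul_of_nonneg_left (W1.dn_mul _ _) h0
          _ = d * (f t * dn (α * t)) := by ring
          _ ≤ d * 1 := mul_le_mul_of_nonneg_left a2 hd0.le
          _ = d := mul_one _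
      · have : 0 ≤ dn (d * (α * t)) := abs_nonneg _
        nlinarith
  rw [← sum_div, div_le_iff₀ hd0] at key
  refine key.trans ?_
  have hq0 : (0 : ℝ) ≤ q := Nat.cast_nonneg _
  have hT0 : (0 : ℝ) ≤ T := Nat.cast_nonneg _
  have hw : 0 ≤ W / q := by positivity
  have hlT : 0 ≤ Real.log T := Real.log_natCast_nonneg _
  have hlq : 0 ≤ d * (1 + Real.log q) := by
    have := Real.log_natCast_nonneg q
    positivity
  have d1 := mul_le_mul_of_nonneg_left (show 8 * (1 + Real.log T) ≤ Y by linarith) hw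
  have d2 := mul_le_mul_of_nonneg_left (show 16 * (d * (1 + Real.log q)) ≤ Y by linarith) hT0
  have d3 := mul_le_mul_of_nonneg_left (show 4 * (d * (1 + Real.log q)) ≤ Y by linarith) hq0
  have e : (8 * (W / d / q) * (1 + Real.log T) + (16 * T + 4 * q) * (1 + Real.log q)) * d =
      W / q * (8 * (1 + Real.log T)) + T * (16 * (d * (1 + Real.log q))) +
        q * (4 * (d * (1 + Real.log q))) := by
    field_simp
    ring
  rw [e]
  linarith

end Pool.Agent.Lib.AP
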