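import Pool.Agent.Lib.AP.C82c

/-! Four small parts, and the sign of the sieve. -/

open Finset Classical

noncomputable section

namespace Pool.Agent.Lib.AP

namespace C82

variable {u μ : ℝ}

theorem not_good {x : ℝ} {P : List ℝ} (hu : 0 < u) (hμ : 0 ≤ μ)
    (h1 : ∀ a ∈ x :: P, 45 * u < a ∧ a ≤ 90 * u) (h2 : 180 * u < (x :: P).sum)
    (h3 : (x :: P).sum < 225 * u + 28 * μ ∨ 270 * u ≤ (x :: P).sum) : a0 u μ (x :: P) = 0 := by
  rw [a0_high hu (nb_zero.2 fun a ha => (h1 a ha).2) (by linarith), if_pos]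
  rintro (h | ⟨a, ha, h4, h5⟩)
  · simp only [gD] at h; linarith
  · have := h1 a ha
    rcases h3 with h3 | h3 <;> linarith

theorem pair_le {L : List ℝ} (w : Win u μ L) (hc : ¬ cov u μ L)
    (h1 : ∀ a ∈ L, 45 * u < a ∧ a ≤ 90 * u) {p q r s : ℝ} (hp : L.Perm [p, q, r, s])
    (h2 : [r, s].Sublist L) : a0 u μ [p, q] ≤ 1 ∧ (135 * u ≤ p + q → a0 u μ [p, q] ≤ 0) := by
  have hu := w.hu
  have hμ := w.hμ
  have huμ := w.huμ
  have a1 := h1 p (hp.symm.subset (by simp))
  have a2 := h1 q (hp.symm.subset (by simp))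
  have key : 135 * u ≤ p + q → a0 u μ [p, q] ≤ 0 := by
    intro h
    rw [a0_high hu (nb_zero.2 (by simp [a1.2, a2.2])) (by simpa using h)]
    split_ifs with g1 g2 g3
    · exact absurd (cov_WW w (S := [p, q]) hp h2 (by simp) g2) hc
    · exfalso
      rcases g3 with g | g | ⟨-, g, -⟩
      · simp only [gD, List.sum_cons, List.sum_nil] at g; linarith
      · have := g.2
        simp only [List.sum_cons, List.sum_nil] at this; linarith
      · simp at g
    · exact min_le_left _ _
    · exact le_rfl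
  refine ⟨?_, key⟩
  by_cases h : 135 * u ≤ p + q
  · exact (key h).trans zero_le_one
  · rw [a0_low hu huμ (by simp; constructor <;> linarith) (by simpa using h)]
    simp [sg]

theorem pair_two {L : List ℝ} (w : Win u μ L) (hc : ¬ cov u μ L)
    (h1 : ∀ a ∈ L, 45 * u < a ∧ a ≤ 90 * u) {p q r s : ℝ} (hp : L.Perm [p, q, r, s])
    (h2 : [p, q].Sublist L) (h3 : [r, s].Sublist L) : a0 u μ [p, q] + a0 u μ [r, s] ≤ 1 := by
  have a := pair_le w hc h1 hp h3
  have b := pair_le w hc h1 (hp.trans (List.perm_append_comm (l₁ := [p, q]) (l₂ := [r, s]))) h2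
  have ht := tot w
  have hμ := w.hμ
  rw [hp.sum_eq] at ht
  simp only [List.sum_cons, List.sum_nil] at ht
  by_cases h : 135 * u ≤ p + q
  · linarith [a.2 h, b.1]
  · linarith [b.2 (by linarith), a.1]

end C82

open C82

theorem st_P4 : St_P4 := by
  intro u μ x l w hc hl hn hx
  obtain ⟨y, z, v, rfl⟩ := List.length_eq_three.1 hl
  have ht := tot w
  have hμ := w.hμ
  have hu := w.hu
  have huμ := w.huμ
  have hasc := (List.pairwise_cons.1 w.asc).1
  have h1 : ∀ a ∈ [x, y, z, v], 45 * u < a ∧ a ≤ 90 * u := fun a ha =>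
    ⟨(List.mem_cons.1 ha).elim (fun h => h ▸ hx) fun h => hx.trans (hasc a h), nb_zero.1 hn a ha⟩
  have h2 : ∀ a ∈ [x, y, z, v], a0 u μ [a] = -1 := fun a ha => by
    have := h1 a ha
    rw [a0_low hu huμ (by simp; linarith) (by simp; linarith)]
    simp [sg]
  have h3 : ∀ a ∈ [x, y, z, v], a + 1100 * μ < 90 * u := fun a ha => small w ha (h1 a ha).2
  have bx := h1 x (by simp)
  have by' := h1 y (by simp)
  have bz := h1 z (by simp)
  have bv := h1 v (by simp)
  have cx := h3 x (by simp)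
  have cy := h3 y (by simp)
  have cz := h3 z (by simp)
  have cv := h3 v (by simp)
  simp only [List.sum_cons, List.sum_nil] at ht
  have h4 : ∀ a b c d : ℝ, (45 * u < a ∧ a ≤ 90 * u) → (45 * u < b ∧ b ≤ 90 * u) →
      (45 * u < c ∧ c ≤ 90 * u) → 45 * u < d → d + 1100 * μ < 90 * u →
      a + b + c + d = x + y + z + v → a0 u μ [a, b, c] = 0 := by
    intro a b c d ha hb hc hd hd' h
    refine not_good hu hμ (by simp [ha, hb, hc]) ?_ (Or.inl ?_) <;>
      simp only [List.sum_cons, List.sum_nil] <;> linarith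
  have t1 := h4 x y z v bx by' bz bv.1 cv rfl
  have t2 := h4 x y v z bx by' bv bz.1 cz (by ring)
  have t3 := h4 x z v y bx bz bv by'.1 cy (by ring)
  have t4 := h4 y z v x by' bz bv bx.1 cx (by ring)
  have q : a0 u μ [x, y, z, v] = 0 := by
    refine not_good hu hμ h1 ?_ (Or.inr ?_) <;>
      simp only [List.sum_cons, List.sum_nil] <;> linarith
  have p1 := pair_two w hc h1 (List.Perm.refl _) (by simp) (by simp)
  have p2 := pair_two w hc h1 (p := x) (q := z) (r := y) (s := v)
    ((List.Perm.swap _ _ _).cons x) (by simp) (by simp)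
  have p3 := pair_two w hc h1 (p := x) (q := v) (r := y) (s := z)
    ((List.perm_append_comm (l₁ := [y, z]) (l₂ := [v])).cons x) (by simp) (by simp)
  rw [T0, sum_cons, sum_cons, sum_cons, sum_cons]
  simp only [List.sublists'_nil, List.map_cons, List.map_nil, List.sum_cons, List.sum_nil, a0_nil,
    t1, t2, t3, t4, q, h2 x (by simp), h2 y (by simp), h2 z (by simp), h2 v (by simp)]
  linarith

theorem st_SGN : St_SGN := by
  intro u μ l w hl hc
  by_cases hg : ∃ b ∈ l, 135 * u < b
  · exact (st_G0 u μ l w hl hg).le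
  by_cases h2 : 2 ≤ nb u l
  · exact (st_B0 u μ l w h2).le
  push Not at hg
  by_cases h0 : nb u l = 0
  · obtain _ | ⟨x, l⟩ := l
    · simp at hl
    have hx := nb_zero.1 h0 x (by simp)
    by_cases he : l.length = 3 ∧ nb u l = 0 ∧ 45 * u < x
    · exact st_P4 u μ x l w hc he.1 h0 he.2.2
    rw [T0, sum_cons]
    refine sum_nonpos _ _ fun S hS => ?_
    have hS := List.mem_sublists'.1 hS
    refine (st_PAIR u μ x l w hc hx S hS (Nat.le_zero.1 (h0 ▸ nb_sub u (hS.cons x))) ?_).resolve_right he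
    rintro b hb rfl
    exact absurd (nb_zero.1 h0 b (by simp)) (not_le.2 hb)
  obtain rfl | ⟨S, b, rfl⟩ := List.eq_nil_or_concat' l
  · simp at hl
  have hasc := (List.pairwise_append.1 w.asc).2.2
  have hb : 90 * u < b := by
    by_contra hb
    refine h0 (nb_zero.2 fun a ha => ?_)
    rcases List.mem_append.1 ha with h | h
    · exact (hasc a h b (by simp)).le.trans (not_lt.1 hb)
    · rw [List.mem_singleton.1 h]; exact not_lt.1 hb
  have hS : nb u S = 0 := by
    rw [nb_append, nb_cons, if_pos hb] at h2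
    omega
  obtain ⟨e1, e2, e3, e4⟩ := st_ONE u μ S b w hS hb (hg b (by simp))
  obtain _ | ⟨x, S⟩ := S
  · simp at hl
  rw [e1, T0, sum_cons, ← sum_ite (KK u μ b (x :: S)) S, ← List.sum_map_add]
  refine sum_nonpos _ _ fun T hT => ?_
  have hT := List.mem_sublists'.1 hT
  split_ifs with h
  · rw [h]; exact high_le w.hu hS e3 e4 e2
  rw [add_zero]
  refine (st_PAIR u μ x (S ++ [b]) w hc (nb_zero.1 hS x (by simp)) T
    (hT.trans (List.sublist_append_left _ _)) (Nat.le_zero.1 (hS ▸ nb_sub u (hT.cons x)))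
    ?_).resolve_right ?_
  · intro b' _ hb'
    exact h (List.append_inj_left' hb' rfl).symm
  · rintro ⟨-, h3, -⟩
    exact absurd (nb_zero.1 h3 b (by simp)) (not_le.2 hb)

end Pool.Agent.Lib.AP
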