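import Pool.Agent.Lib.AP.Blue2

/-! The Pell form of the final statement. -/

namespace Pool.Agent.Lib.AP

theorem pell_of_FIN (hF : St_FIN) : ∃ δ : ℝ, 0 < δ ∧ ∀ D : ℝ, 0 < D → Irrational (√D) →
    {p : ℕ | p.Prime ∧ ∃ r : ℕ, 0 < D * (r : ℝ) ^ 2 - (p : ℝ) ^ 2 ∧
      D * (r : ℝ) ^ 2 - (p : ℝ) ^ 2 ≤ (p : ℝ) ^ (2 / 3 - δ)}.Infinite := by
  obtain ⟨δ, hδ, h⟩ := hF
  refine ⟨δ / 2, by positivity, fun D hD hirr => ?_⟩
  set s : ℝ := √D with hs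
  have hs0 : 0 < s := Real.sqrt_pos.mpr hD
  have hsD : D = s ^ 2 := (Real.sq_sqrt hD.le).symm
  have hα : Irrational (-s⁻¹) := hirr.inv.neg
  have hinf := h _ hα
  have hev : ∀ᶠ p : ℕ in Filter.atTop, s * (2 + s) ≤ (p : ℝ) ^ (δ / 2) :=
    ((tendsto_rpow_atTop (by positivity : 0 < δ / 2)).comp
      tendsto_natCast_atTop_atTop).eventually_ge_atTop _
  obtain ⟨N, hN⟩ := Filter.eventually_atTop.mp hev
  refine (hinf.sdiff (Set.finite_lt_nat N)).mono ?_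
  rintro p ⟨⟨hp, hf⟩, hpN⟩
  have hpN' : N ≤ p := not_lt.mp hpN
  have hp1 : (1 : ℝ) ≤ p := by exact_mod_cast hp.pos
  have hp0 : (0 : ℝ) < p := by linarith
  set t : ℝ := Int.fract (-s⁻¹ * p) with ht
  have hip : Irrational (-s⁻¹ * p) := hα.mul_natCast hp.ne_zero
  have ht0 : 0 < t := by
    rw [ht, Int.fract_pos]
    exact hip.ne_int _
  have ht1 : t < 1 := Int.fract_lt_one _
  have hfl : ⌊-s⁻¹ * (p : ℝ)⌋ ≤ 0 := by
    have : -s⁻¹ * (p : ℝ) ≤ 0 := by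
      have : 0 ≤ s⁻¹ * (p : ℝ) := by positivity
      linarith
    exact Int.floor_nonpos this
  obtain ⟨r, hr⟩ := Int.eq_ofNat_of_zero_le (by omega : 0 ≤ -⌊-s⁻¹ * (p : ℝ)⌋)
  have hr' : (r : ℝ) = s⁻¹ * p + t := by
    have h1 : ((-⌊-s⁻¹ * (p : ℝ)⌋ : ℤ) : ℝ) = (r : ℝ) := by rw [hr]; simp
    rw [← h1, ht, Int.fract]
    push_cast
    ring
  have key : D * (r : ℝ) ^ 2 - (p : ℝ) ^ 2 = s * t * (2 * p + s * t) := by
    rw [hr', hsD]; field_simp; ring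
  refine ⟨hp, r, ?_, ?_⟩
  · rw [key]; positivity
  · rw [key]
    have h1 : 2 * (p : ℝ) + s * t ≤ (2 + s) * p := by nlinarith [mul_pos hs0 ht0]
    have h2 : (p : ℝ) ^ (2 / 3 - δ / 2) = (p : ℝ) ^ (δ / 2) * ((p : ℝ) ^ (-(1 / 3 + δ)) * p) := by
      rw [← Real.rpow_add_one hp0.ne', ← Real.rpow_add hp0]
      congr 1
      ring
    rw [h2]
    calc s * t * (2 * p + s * t) ≤ s * t * ((2 + s) * p) := by gcongr
      _ = s * (2 + s) * (t * p) := by ring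
      _ ≤ (p : ℝ) ^ (δ / 2) * ((p : ℝ) ^ (-(1 / 3 + δ)) * p) := by
        have := hN p hpN'
        gcongr

end Pool.Agent.Lib.AP
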