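import Pool.Agent.Lib.KW.All
import Pool.Agent.Lib.AP.Pell
import Pool.Agent.Lib.AP.C82a
import Pool.Agent.Lib.AP.C82d
import Pool.Agent.Lib.AP.B_ADM1
import Pool.Agent.Lib.AP.B_ADM2
import Pool.Agent.Lib.AP.B_B2
import Pool.Agent.Lib.AP.B_B3
import Pool.Agent.Lib.AP.B_B3a
import Pool.Agent.Lib.AP.B_B3d
import Pool.Agent.Lib.AP.B_B3o
import Pool.Agent.Lib.AP.B_BIG
import Pool.Agent.Lib.AP.B_BX2
import Pool.Agent.Lib.AP.B_BX3
import Pool.Agent.Lib.AP.B_CORE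
import Pool.Agent.Lib.AP.B_DSP
import Pool.Agent.Lib.AP.B_DSP1
import Pool.Agent.Lib.AP.B_DSP2
import Pool.Agent.Lib.AP.B_EII
import Pool.Agent.Lib.AP.B_ET3
import Pool.Agent.Lib.AP.B_EVA
import Pool.Agent.Lib.AP.B_EVC
import Pool.Agent.Lib.AP.B_FIN
import Pool.Agent.Lib.AP.B_GAM
import Pool.Agent.Lib.AP.B_GCD
import Pool.Agent.Lib.AP.B_GENV
import Pool.Agent.Lib.AP.B_IDE
import Pool.Agent.Lib.AP.B_IK
import Pool.Agent.Lib.AP.B_K0
import Pool.Agent.Lib.AP.B_KER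
import Pool.Agent.Lib.AP.B_KF
import Pool.Agent.Lib.AP.B_LEV
import Pool.Agent.Lib.AP.B_LOS
import Pool.Agent.Lib.AP.B_MAIN
import Pool.Agent.Lib.AP.B_MER
import Pool.Agent.Lib.AP.B_NOP
import Pool.Agent.Lib.AP.B_OM
import Pool.Agent.Lib.AP.B_PAD
import Pool.Agent.Lib.AP.B_PAE
import Pool.Agent.Lib.AP.B_PB1
import Pool.Agent.Lib.AP.B_PB2
import Pool.Agent.Lib.AP.B_PEEL
import Pool.Agent.Lib.AP.B_PSI
import Pool.Agent.Lib.AP.B_RHO
import Pool.Agent.Lib.AP.B_ROU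
import Pool.Agent.Lib.AP.B_S2
import Pool.Agent.Lib.AP.B_S3
import Pool.Agent.Lib.AP.B_SEP
import Pool.Agent.Lib.AP.B_SLAB
import Pool.Agent.Lib.AP.B_SP2
import Pool.Agent.Lib.AP.B_SPL
import Pool.Agent.Lib.AP.B_T1
import Pool.Agent.Lib.AP.B_THIN
import Pool.Agent.Lib.AP.B_TOOL
import Pool.Agent.Lib.AP.B_TYP
import Pool.Agent.Lib.AP.B_VIN
import Pool.Agent.Lib.AP.B_W1

/-! Assembly of everything except the numerical bound for the loss. -/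

namespace Pool.Agent.Lib.AP

theorem all_BIG : St_BIG := st_BIG KW.kw

theorem all_OM : St_OM := st_OM st_TOOL (st_PSI st_TOOL) st_W1

theorem all_DSP : St_DSP :=
  st_DSP (st_DSP1 st_TOOL st_GCD all_OM)
    (st_DSP2 st_TOOL (st_GAM st_TOOL (st_KF st_TOOL)) (st_PSI st_TOOL))
    (st_K0 st_TOOL st_GCD (st_PSI st_TOOL) (st_SP2 st_GCD st_VIN))

theorem all_ET3 : St_ET3 :=
  st_ET3 (st_BX3 st_GCD all_DSP (st_S3 st_TOOL st_GCD (st_B3 st_TOOL (st_KF st_TOOL)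
    (st_IK st_TOOL) (st_B3a st_TOOL (st_KF st_TOOL)) (st_B3d st_GCD) (st_B3o st_GCD))) all_OM)
    (st_SEP st_TOOL)

theorem all_EII : St_EII :=
  st_EII st_TOOL (st_BX2 st_TOOL all_DSP (st_S2 st_TOOL st_GCD
    (st_B2 (st_KF st_TOOL) st_GCD (st_IK st_TOOL))) all_OM) (st_SEP st_TOOL)

theorem all_PEEL : St_PEEL :=
  st_PEEL st_GCD st_ROU (st_PAD (st_T1 st_TOOL st_GCD) st_GCD) (st_PAE all_EII)
    (st_PB1 all_EII st_SPL st_ADM1 st_GCD) (st_PB2 st_GCD all_ET3 st_SPL st_ADM2)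

theorem all_EVA : St_EVA := st_EVA all_PEEL st_TYP st_LEV st_BND

theorem all_EVC : St_EVC := st_EVC all_ET3 st_TYP st_LEV st_BND st_GCD

theorem all_RHO : St_RHO := st_RHO (st_NOP st_LEV) st_SGN st_BND st_LEV

theorem main_of_NUM (hN : St_NUM) : St_MAIN :=
  st_MAIN all_RHO (st_LOS (st_NOP st_LEV) st_IDE st_LEV) st_GENV2 hN
    (st_THIN (st_SLAB st_MER) st_LEV all_BIG) st_MER all_BIG

theorem fin_of_NUM (hN : St_NUM) : St_FIN :=
  st_FIN (st_CORE (main_of_NUM hN) all_EVA all_EVC all_RHO (st_KER st_TOOL) all_BIG)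

end Pool.Agent.Lib.AP
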