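import Pool.Agent.Lib.AP.Blue2

/-! The core statement: the sieve detects a prime. -/

open Finset

namespace Pool.Agent.Lib.AP

namespace CORE

lemma abel_aux (F : ℕ → ℝ) (a : ℕ) (B : ℝ) (k : ℕ)
    (h : ∀ j, j ≤ a + k → |∑ n ∈ Ioc a j, F n| ≤ B) :
    |∑ n ∈ Ioc a (a + k), F n / n - (∑ n ∈ Ioc a (a + k), F n) / ((a + k : ℕ) + 1 : ℝ)| ≤
      B * (1 / ((a : ℝ) + 1) - 1 / ((a + k : ℕ) + 1 : ℝ)) := by
  induction k with
  | zero => simp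
  | succ k ih =>
    have ih' := ih (fun j hj => h j (by omega))
    have h1 := h (a + k + 1) (by omega)
    rw [← add_assoc, sum_Ioc_succ_top (by omega : a ≤ a + k)]
    set S1 := ∑ n ∈ Ioc a (a + k + 1), F n with hS1
    have hS : S1 = ∑ n ∈ Ioc a (a + k), F n + F (a + k + 1) := by
      rw [hS1, sum_Ioc_succ_top (by omega : a ≤ a + k)]
    set S0 := ∑ n ∈ Ioc a (a + k), F n
    set T0 := ∑ n ∈ Ioc a (a + k), F n / n
    set b : ℝ := ((a + k : ℕ) : ℝ) with hb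
    have hb0 : 0 ≤ b := by positivity
    have hc : ((a + k + 1 : ℕ) : ℝ) = b + 1 := by rw [hb]; push_cast; ring
    rw [hc]
    have e : T0 + F (a + k + 1) / (b + 1) - S1 / (b + 1 + 1) =
        (T0 - S0 / (b + 1)) + S1 * (1 / (b + 1) - 1 / (b + 1 + 1)) := by
      rw [hS]; field_simp; ring
    have hpos : 0 ≤ 1 / (b + 1) - 1 / (b + 1 + 1) := by
      rw [sub_nonneg]; exact one_div_le_one_div_of_le (by linarith) (by linarith)
    rw [e]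
    refine (abs_add_le _ _).trans ?_
    rw [abs_mul, abs_of_nonneg hpos]
    have := mul_le_mul_of_nonneg_right h1 hpos
    nlinarith

lemma abel (F : ℕ → ℝ) (a b : ℕ) (B : ℝ) (h : ∀ j, j ≤ b → |∑ n ∈ Ioc a j, F n| ≤ B) :
    |∑ n ∈ Ioc a b, F n / n| ≤ B / ((a : ℝ) + 1) := by
  have hB : 0 ≤ B := le_trans (abs_nonneg _) (h 0 (Nat.zero_le _))
  rcases le_total b a with hba | hab
  · rw [Ioc_eq_empty (by omega)]; simp; positivity
  obtain ⟨k, rfl⟩ := Nat.exists_eq_add_of_le hab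
  have h1 := abel_aux F a B k h
  have h2 := h (a + k) le_rfl
  set S0 := ∑ n ∈ Ioc a (a + k), F n
  set T0 := ∑ n ∈ Ioc a (a + k), F n / n
  set b : ℝ := ((a + k : ℕ) : ℝ)
  have hb0 : 0 ≤ b := by positivity
  have h3 : |S0 / (b + 1)| ≤ B * (1 / (b + 1)) := by
    rw [abs_div, abs_of_pos (by linarith : 0 < b + 1), mul_one_div]
    gcongr
  have h4 : |T0| ≤ |T0 - S0 / (b + 1)| + |S0 / (b + 1)| := by
    have := abs_add_le (T0 - S0 / (b + 1)) (S0 / (b + 1))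
    simpa using this
  have : B / ((a : ℝ) + 1) = B * (1 / ((a : ℝ) + 1)) := by ring
  rw [this]; linarith

end CORE

theorem st_CORE (hM : St_MAIN) (hA : St_EVA) (hC : St_EVC) (hR : St_RHO) (hK : St_KER)
    (hB : St_BIG) : St_CORE := by
  obtain ⟨Λ, hΛ, c, hc, hev⟩ := hM
  refine ⟨Λ, by omega, ?_⟩
  filter_upwards [hev, hB Λ hΛ, Filter.eventually_gt_atTop (3 / c),
    Filter.eventually_ge_atTop (1 : ℝ)] with Y hmain hbig hYc hY1 α q hD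
  obtain ⟨K⟩ := hK Λ Y hbig
  by_contra hcon
  have hYpos : 0 < Y := by linarith
  have hη : 0 < K.η := by
    have := K.ηlo
    by_contra hn
    have h1 : K.η * Y ^ (90 * Λ + 4) ≤ 0 :=
      mul_nonpos_of_nonpos_of_nonneg (not_lt.mp hn) (by positivity)
    linarith
  -- upper bound
  have hup : ∀ n ∈ Ioc (X0 Λ Y) (X1 Λ Y),
      (rho Λ Y n : ℝ) * K.g (α * n) / n ≤ 1 / Y ^ (2000 * Λ) := by
    intro n hn
    have hr := hR Λ Y n hbig hn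
    by_cases hp : n.Prime
    · have h1 : (rho Λ Y n : ℝ) = 1 := by exact_mod_cast hr.1 hp
      have h2 := K.off (α * n) (fun h => hcon ⟨n, hp, hn, h.1, h.2⟩)
      have h3 : (1 : ℝ) ≤ n := by exact_mod_cast hp.pos
      rw [h1, one_mul]
      calc K.g (α * n) / n ≤ K.g (α * n) := div_le_self (K.g0 _) h3
        _ ≤ 1 / Y ^ (2000 * Λ) := by rw [le_div_iff₀ (by positivity)]; exact h2
    · have h1 : (rho Λ Y n : ℝ) ≤ 0 := by exact_mod_cast hr.2.1 hp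
      have h2 : (rho Λ Y n : ℝ) * K.g (α * n) ≤ 0 := mul_nonpos_of_nonpos_of_nonneg h1 (K.g0 _)
      have h3 : (rho Λ Y n : ℝ) * K.g (α * n) / n ≤ 0 :=
        div_nonpos_of_nonpos_of_nonneg h2 (by positivity)
      exact h3.trans (by positivity)
  have hX1 : (X1 Λ Y : ℝ) ≤ Y ^ (270 * Λ + 1) := Nat.floor_le (by positivity)
  have hsum : ∑ n ∈ Ioc (X0 Λ Y) (X1 Λ Y), (rho Λ Y n : ℝ) * K.g (α * n) / n ≤ K.η / Y := by
    refine (sum_le_card_nsmul _ _ _ hup).trans ?_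
    rw [Nat.card_Ioc, nsmul_eq_mul]
    have h1 : ((X1 Λ Y - X0 Λ Y : ℕ) : ℝ) ≤ Y ^ (270 * Λ + 1) :=
      le_trans (by exact_mod_cast Nat.sub_le _ _) hX1
    have h2 : Y ^ (270 * Λ + 1) * Y ^ (90 * Λ + 4) * Y ≤ Y ^ (2000 * Λ) := by
      rw [← pow_add, ← pow_succ]
      exact pow_le_pow_right₀ hY1 (by omega)
    have h3 := K.ηlo
    rw [mul_one_div, div_le_div_iff₀ (by positivity) hYpos]
    calc ((X1 Λ Y - X0 Λ Y : ℕ) : ℝ) * Y ≤ Y ^ (270 * Λ + 1) * Y * 1 := by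
          rw [mul_one]; gcongr
      _ ≤ Y ^ (270 * Λ + 1) * Y * (K.η * Y ^ (90 * Λ + 4)) := by gcongr
      _ = K.η * (Y ^ (270 * Λ + 1) * Y ^ (90 * Λ + 4) * Y) := by ring
      _ ≤ K.η * Y ^ (2000 * Λ) := by gcongr
  -- the error term
  have herr : ∀ j, j ≤ X1 Λ Y →
      |∑ n ∈ Ioc (X0 Λ Y) j, (rho Λ Y n : ℝ) * (K.g (α * n) - K.η)| ≤
        2 * (K.η * Y ^ (270 * Λ)) / Y ^ 55 := by
    intro j hj
    have h1 := hA Λ Y α q K hbig hD j hj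
    have h2 := hC Λ Y α q K hbig hD j hj
    have e : ((∑ n ∈ Ioc (X0 Λ Y) j, (rho Λ Y n : ℝ) * (K.g (α * n) - K.η) : ℝ) : ℂ) =
        ∑ n ∈ Ioc (X0 Λ Y) j, (rhoA Λ Y n : ℂ) * K.D α n -
          ∑ n ∈ Ioc (X0 Λ Y) j, (rhoC Λ Y n : ℂ) * K.D α n := by
      rw [← sum_sub_distrib, Complex.ofReal_sum]
      refine sum_congr rfl fun n _ => ?_
      simp only [rho, Ker.D]
      push_cast
      ring
    rw [← Real.norm_eq_abs, ← Complex.norm_real, e, le_div_iff₀ (by positivity)]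
    have h3 := norm_sub_le (∑ n ∈ Ioc (X0 Λ Y) j, (rhoA Λ Y n : ℂ) * K.D α n)
      (∑ n ∈ Ioc (X0 Λ Y) j, (rhoC Λ Y n : ℂ) * K.D α n)
    have h4 := mul_le_mul_of_nonneg_right h3 (by positivity : (0 : ℝ) ≤ Y ^ 55)
    linarith
  have hab := CORE.abel _ _ _ _ herr
  have hX0 : Y ^ (270 * Λ) < (X0 Λ Y : ℝ) + 1 := Nat.lt_floor_add_one _
  have hab2 : 2 * (K.η * Y ^ (270 * Λ)) / Y ^ 55 / ((X0 Λ Y : ℝ) + 1) ≤ 2 * K.η / Y := by
    have h1 : Y ≤ Y ^ 55 := le_self_pow₀ hY1 (by norm_num)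
    rw [div_div, div_le_div_iff₀ (by positivity) hYpos]
    calc 2 * (K.η * Y ^ (270 * Λ)) * Y = 2 * K.η * (Y * Y ^ (270 * Λ)) := by ring
      _ ≤ 2 * K.η * (Y ^ 55 * ((X0 Λ Y : ℝ) + 1)) := by gcongr
  have hsplit : ∑ n ∈ Ioc (X0 Λ Y) (X1 Λ Y), (rho Λ Y n : ℝ) * K.g (α * n) / n =
      K.η * ∑ n ∈ Ioc (X0 Λ Y) (X1 Λ Y), (rho Λ Y n : ℝ) / n +
        ∑ n ∈ Ioc (X0 Λ Y) (X1 Λ Y), (rho Λ Y n : ℝ) * (K.g (α * n) - K.η) / n := by
    rw [mul_sum, ← sum_add_distrib]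
    refine sum_congr rfl fun n _ => ?_
    ring
  have h5 := (abs_le.mp (hab.trans hab2)).1
  have h6 : K.η * c ≤ K.η * ∑ n ∈ Ioc (X0 Λ Y) (X1 Λ Y), (rho Λ Y n : ℝ) / n := by gcongr
  have h7 : K.η * c ≤ K.η * (3 / Y) := by
    have : K.η * (3 / Y) = K.η / Y + 2 * K.η / Y := by ring
    linarith
  have h8 : c ≤ 3 / Y := le_of_mul_le_mul_left h7 hη
  rw [le_div_iff₀ hYpos] at h8
  rw [div_lt_iff₀ hc] at hYc
  linarith

end Pool.Agent.Lib.AP
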