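import Pool.Agent.Lib.AP.Blue3
import Pool.Agent.Lib.AP.B_CORE
import Pool.Agent.Lib.LQ.B2
import Pool.Agent.Lib.BK2.MERT

/-! The core statement with a sieve on the integer part. -/

open Finset Classical

namespace Pool.Agent.Lib.AP

namespace CORE2

/-- the weight `w` can be evaluated, with constant `C` -/
def Ev (Λ : ℕ) (Y : ℝ) (q : ℕ) (w : ℕ → ℝ) (C : ℝ) : Prop :=
  (∀ (β : ℝ) (K : Ker Λ Y), Dio Λ Y β q → ∀ j, j ≤ X1 Λ Y →
    |∑ n ∈ Ioc (X0 Λ Y) j, w n * (K.g (β * n) - K.η)| * Y ^ 55 ≤ C * (K.η * Y ^ (270 * Λ))) ∧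
  (∀ n ∈ Ioc (X0 Λ Y) (X1 Λ Y), 0 ≤ w n) ∧ ∑ n ∈ Ioc (X0 Λ Y) (X1 Λ Y), w n / n ≤ C

lemma eta_pos {Λ : ℕ} {Y : ℝ} (K : Ker Λ Y) (hY : 0 < Y) : 0 < K.η := by
  have := K.ηlo
  by_contra hn
  have h1 : K.η * Y ^ (90 * Λ + 4) ≤ 0 :=
    mul_nonpos_of_nonpos_of_nonneg (not_lt.mp hn) (by positivity)
  linarith

lemma evald {Λ : ℕ} {Y α : ℝ} {q : ℕ} {a : ℤ} {w : ℕ → ℝ} {C : ℝ} (hΛ : 1 ≤ Λ) (hY : 1 ≤ Y)
    (hq : (q : ℝ) = Y ^ (180 * Λ)) (ha : IsCoprime a q) (hα : |α - a / q| ≤ 1 / (q : ℝ) ^ 2)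
    (K1 Kd : Ker Λ Y) {d : ℕ} (hd1 : 1 ≤ d) (hd : (d : ℝ) ^ 3 ≤ Y)
    (h1 : ∀ x : ℝ, |Kd.g (x / d) - (if (d : ℤ) ∣ ⌊x⌋ then K1.g x else 0)| * Y ^ (180 * Λ) ≤ 1)
    (h2 : |Kd.η - K1.η / d| * Y ^ (180 * Λ) ≤ 1) (hw : Ev Λ Y q w C) :
    |∑ n ∈ Ioc (X0 Λ Y) (X1 Λ Y), w n * (if (d : ℤ) ∣ ⌊α * n⌋ then K1.g (α * n) else 0) / n -
      K1.η * (∑ n ∈ Ioc (X0 Λ Y) (X1 Λ Y), w n / n) / d| ≤ 4 * C * K1.η / Y ^ 55 := by
  obtain ⟨hE, hw0, hwC⟩ := hw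
  have hY0 : 0 < Y := by linarith
  have hd0 : (1 : ℝ) ≤ d := by exact_mod_cast hd1
  have hη := eta_pos K1 hY0
  have hηd := eta_pos Kd hY0
  set R := ∑ n ∈ Ioc (X0 Λ Y) (X1 Λ Y), w n / n with hR
  have hR0 : 0 ≤ R := sum_nonneg fun n hn => div_nonneg (hw0 n hn) (by positivity)
  have hC0 : 0 ≤ C := hR0.trans hwC
  set e : ℝ := K1.η / Y ^ 55 with he
  have he0 : 0 < e := by positivity
  have hτ : ∀ t : ℝ, t * Y ^ (180 * Λ) ≤ 1 → t ≤ e := fun t ht => by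
    have a1 := K1.ηlo
    have a2 : Y ^ (90 * Λ + 4) * Y ^ 55 ≤ Y ^ (180 * Λ) := by
      rw [← pow_add]; exact pow_le_pow_right₀ hY (by omega)
    rw [he, le_div_iff₀ (by positivity)]
    have a3 : t * Y ^ 55 * Y ^ (180 * Λ) ≤ K1.η * Y ^ (180 * Λ) :=
      calc t * Y ^ 55 * Y ^ (180 * Λ) = t * Y ^ (180 * Λ) * Y ^ 55 := by ring
        _ ≤ 1 * Y ^ 55 := by gcongr
        _ ≤ K1.η * Y ^ (90 * Λ + 4) * Y ^ 55 := by gcongr
        _ = K1.η * (Y ^ (90 * Λ + 4) * Y ^ 55) := by ring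
        _ ≤ _ := by gcongr
    exact le_of_mul_le_mul_right a3 (by positivity)
  have hD : Dio Λ Y (α / d) q := ⟨hq, d, hd1, hd, a, ha, by
    rwa [mul_div_cancel₀ _ (by linarith : (d : ℝ) ≠ 0)]⟩
  have b1 := CORE.abel (fun n => w n * (Kd.g (α / d * n) - Kd.η)) (X0 Λ Y) (X1 Λ Y)
    (C * (Kd.η * Y ^ (270 * Λ)) / Y ^ 55) fun j hj => by
      rw [le_div_iff₀ (by positivity)]; exact hE _ Kd hD j hj
  have hX0 : Y ^ (270 * Λ) < (X0 Λ Y : ℝ) + 1 := Nat.lt_floor_add_one _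
  have b2 : C * (Kd.η * Y ^ (270 * Λ)) / Y ^ 55 / ((X0 Λ Y : ℝ) + 1) ≤ C * (Kd.η / Y ^ 55) := by
    rw [div_le_iff₀ (by positivity)]
    calc C * (Kd.η * Y ^ (270 * Λ)) / Y ^ 55 = C * (Kd.η / Y ^ 55) * Y ^ (270 * Λ) := by ring
      _ ≤ _ := by gcongr
  have b3 := hτ _ h2
  have b4 : Kd.η / Y ^ 55 ≤ 2 * e := by
    have c1 : K1.η / d ≤ K1.η := div_le_self hη.le hd0
    have c2 : e ≤ K1.η := div_le_self hη.le (one_le_pow₀ hY)
    have c3 : Kd.η ≤ 2 * K1.η := by linarith [(abs_le.1 b3).2]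
    rw [he, ← mul_div_assoc]
    gcongr
  have b5 : |∑ n ∈ Ioc (X0 Λ Y) (X1 Λ Y), w n / n *
      ((if (d : ℤ) ∣ ⌊α * n⌋ then K1.g (α * n) else 0) - Kd.g (α / d * n))| ≤ R * e := by
    refine (abs_sum_le_sum_abs _ _).trans ?_
    rw [hR, sum_mul]
    refine sum_le_sum fun n hn => ?_
    have c0 : 0 ≤ w n / n := div_nonneg (hw0 n hn) (by positivity)
    rw [abs_mul, abs_of_nonneg c0, abs_sub_comm]
    have c1 := hτ _ (h1 (α * n))
    rw [show α * n / d = α / d * n by ring] at c1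
    exact mul_le_mul_of_nonneg_left c1 c0
  have e1 : ∑ n ∈ Ioc (X0 Λ Y) (X1 Λ Y),
      w n * (if (d : ℤ) ∣ ⌊α * n⌋ then K1.g (α * n) else 0) / n - K1.η * R / d =
      ∑ n ∈ Ioc (X0 Λ Y) (X1 Λ Y), w n / n *
        ((if (d : ℤ) ∣ ⌊α * n⌋ then K1.g (α * n) else 0) - Kd.g (α / d * n)) +
      ∑ n ∈ Ioc (X0 Λ Y) (X1 Λ Y), w n * (Kd.g (α / d * n) - Kd.η) / n +
      R * (Kd.η - K1.η / d) := by
    rw [hR, mul_sum, sum_div, sum_mul, ← sum_sub_distrib, ← sum_add_distrib, ← sum_add_distrib]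
    refine sum_congr rfl fun n _ => ?_
    ring
  rw [e1]
  have b6 : |R * (Kd.η - K1.η / d)| ≤ R * e := by
    rw [abs_mul, abs_of_nonneg hR0]; gcongr
  have b7 : R * e ≤ C * e := by gcongr
  have b8 : C * (Kd.η / Y ^ 55) ≤ C * (2 * e) := by gcongr
  have e2 : 4 * C * K1.η / Y ^ 55 = 4 * (C * e) := by rw [he]; ring
  rw [e2]
  refine (abs_add_three _ _ _).trans ?_
  linarith

/-- the sieving primes -/
noncomputable def PP (z : ℝ) : Finset ℕ := (Icc 2 ⌊z⌋₊).filter Nat.Prime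

lemma card_sets (I : Finset ℕ) (hI : ∀ l ∈ I, l.Prime) (Z : ℝ) (hZ : 0 ≤ Z) :
    ((I.powerset.filter fun S : Finset ℕ => ∏ i ∈ S, (i : ℝ) ≤ Z).card : ℝ) ≤ Z := by
  have h1 : (I.powerset.filter fun S : Finset ℕ => ∏ i ∈ S, (i : ℝ) ≤ Z).card ≤
      (Icc 1 ⌊Z⌋₊).card := by
    refine card_le_card_of_injOn (fun S => ∏ i ∈ S, i) (fun S hS => ?_) fun S hS T hT h => ?_
    · rw [coe_filter, Set.mem_ofPred_eq, mem_powerset] at hS
      rw [mem_coe, mem_Icc]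
      refine ⟨prod_pos fun i hi => (hI i (hS.1 hi)).pos, Nat.le_floor ?_⟩
      push_cast; exact hS.2
    · rw [coe_filter, Set.mem_ofPred_eq, mem_powerset] at hS hT
      have e1 := Nat.primeFactors_prod (s := S) fun i hi => hI i (hS.1 hi)
      have e2 := Nat.primeFactors_prod (s := T) fun i hi => hI i (hT.1 hi)
      simp only at h
      rw [← e1, ← e2, h]
  rw [Nat.card_Icc, Nat.add_sub_cancel] at h1
  exact (Nat.cast_le.2 h1).trans (Nat.floor_le hZ)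

lemma kap (z y : ℝ) (hy : 1 < y) :
    ∑ i ∈ (PP z).filter (fun i : ℕ => y < (i : ℝ) ∧ (i : ℝ) ≤ y ^ 2), (1 : ℝ) / i ≤ 40 := by
  rcases le_total 2 y with h2 | h2
  · have h3 := BK2.mert_two_le h2 (show y ≤ y ^ 2 by nlinarith)
      ((PP z).filter (fun i : ℕ => y < (i : ℝ) ∧ (i : ℝ) ≤ y ^ 2)) fun l hl => by
        rw [mem_filter, PP, mem_filter] at hl
        exact ⟨hl.1.2, hl.2⟩
    have h4 : 0 < Real.log y := Real.log_pos hy
    rw [Real.log_pow, Nat.cast_ofNat, mul_div_assoc, div_self h4.ne', mul_one] at h3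
    linarith [Real.log_two_lt_d9, h3.1, h3.2]
  · have hs : (PP z).filter (fun i : ℕ => y < (i : ℝ) ∧ (i : ℝ) ≤ y ^ 2) ⊆ Icc 1 4 := fun i hi => by
      rw [mem_filter, PP, mem_filter] at hi
      have : (i : ℝ) ≤ 4 := by nlinarith [hi.2.2]
      exact mem_Icc.2 ⟨hi.1.2.pos, by exact_mod_cast this⟩
    refine (sum_le_sum_of_subset_of_nonneg hs fun i _ _ => by positivity).trans ?_
    norm_num [show Icc 1 4 = ({1, 2, 3, 4} : Finset ℕ) by decide]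

lemma prod_Icc (J : ℕ) : ∏ m ∈ Icc 2 (J + 1), (1 - (1 : ℝ) / m) = 1 / ((J : ℝ) + 1) := by
  induction J with
  | zero => simp
  | succ J ih =>
    rw [prod_Icc_succ_top (by omega), ih]
    push_cast
    field_simp
    ring

lemma V_ge {z : ℝ} (hz : 1 ≤ z) : 1 / z ≤ ∏ l ∈ PP z, (1 - (1 : ℝ) / l) := by
  obtain ⟨J, hJ⟩ : ∃ J, ⌊z⌋₊ = J + 1 := ⟨⌊z⌋₊ - 1, by have := Nat.floor_pos.2 hz; omega⟩
  have h1 : (J : ℝ) + 1 ≤ z := by
    have := Nat.floor_le (show 0 ≤ z by linarith)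
    rw [hJ] at this
    exact_mod_cast this
  refine (one_div_le_one_div_of_le (by positivity) h1).trans ?_
  rw [← prod_Icc, PP, hJ, prod_filter]
  refine prod_le_prod (fun m hm => ?_) fun m _ => ?_
  · have : (1 : ℝ) ≤ m := by exact_mod_cast (by have := (mem_Icc.1 hm).1; omega : 1 ≤ m)
    rw [sub_nonneg, div_le_one (by linarith)]
    exact this
  · split_ifs
    · exact le_rfl
    · exact sub_le_self _ (by positivity)

lemma prod_ind (S : Finset ℕ) (hS : ∀ l ∈ S, l.Prime) (m : ℤ) :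
    ∏ l ∈ S, (if (l : ℤ) ∣ m then (1 : ℝ) else 0) =
      if ((∏ l ∈ S, l : ℕ) : ℤ) ∣ m then 1 else 0 := by
  rw [prod_boole]
  refine if_congr ⟨fun h => ?_, fun h l hl => ?_⟩ rfl rfl
  · rw [Int.natCast_dvd]
    exact Finset.prod_primes_dvd _ (fun l hl => (hS l hl).prime)
      fun l hl => Int.natCast_dvd.1 (h l hl)
  · exact (Int.natCast_dvd_natCast.2 (dvd_prod_of_mem _ hl)).trans h

lemma sieve {δ : ℝ} {u : ℕ}
    (hu : ∀ (I : Finset ℕ) (N p : ℕ → ℝ) (z : ℝ) (T : Finset ℕ) (a : ℕ → ℝ) (ψ : ℕ → ℕ → ℝ)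
      (M Rem : ℝ), 2 ≤ z → (∀ i ∈ I, 2 ≤ N i ∧ N i ≤ z ∧ 0 ≤ p i ∧ p i ≤ 1 / 2) →
      (∀ y : ℝ, 1 < y → ∑ i ∈ I.filter (fun i => y < N i ∧ N i ≤ y ^ 2), p i ≤ 40) →
      (∀ x ∈ T, 0 ≤ a x) → (∀ i ∈ I, ∀ x ∈ T, 0 ≤ ψ i x ∧ ψ i x ≤ 1) → 0 ≤ M →
      (∑ S ∈ I.powerset.filter (fun S => ∏ i ∈ S, N i ≤ z ^ u),
        |∑ x ∈ T, a x * ∏ i ∈ S, ψ i x - M * ∏ i ∈ S, p i| ≤ Rem) →
      |∑ x ∈ T, a x * ∏ i ∈ I, (1 - ψ i x) - M * ∏ i ∈ I, (1 - p i)| ≤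
        δ * (M * ∏ i ∈ I, (1 - p i)) + 2 * z * Rem)
    {Λ : ℕ} {Y α z : ℝ} {q : ℕ} {a : ℤ} {w : ℕ → ℝ} {C : ℝ} (hΛ : 1 ≤ Λ) (hz : 2 ≤ z)
    (hzY : z ^ (3 * u + 3) = Y)
    (hq : (q : ℝ) = Y ^ (180 * Λ)) (ha : IsCoprime a q) (hα : |α - a / q| ≤ 1 / (q : ℝ) ^ 2)
    (K : ℕ → Ker Λ Y) (hK : ∀ d : ℕ, 1 ≤ d → (d : ℝ) ^ 3 ≤ Y →
      (∀ x : ℝ, |(K d).g (x / d) - (if (d : ℤ) ∣ ⌊x⌋ then (K 1).g x else 0)| * Y ^ (180 * Λ) ≤ 1) ∧
        |(K d).η - (K 1).η / d| * Y ^ (180 * Λ) ≤ 1) (hw : Ev Λ Y q w C) :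
    |∑ n ∈ Ioc (X0 Λ Y) (X1 Λ Y), w n * (K 1).g (α * n) / n *
        ∏ l ∈ PP z, (1 - if (l : ℤ) ∣ ⌊α * n⌋ then (1 : ℝ) else 0) -
      (K 1).η * (∑ n ∈ Ioc (X0 Λ Y) (X1 Λ Y), w n / n) * ∏ l ∈ PP z, (1 - (1 : ℝ) / l)| ≤
      δ * ((K 1).η * (∑ n ∈ Ioc (X0 Λ Y) (X1 Λ Y), w n / n) * ∏ l ∈ PP z, (1 - (1 : ℝ) / l)) +
        8 * C * (K 1).η / Y ^ 53 := by
  have hz1 : 1 ≤ z := by linarith
  have hzle : z ≤ Y := hzY ▸ le_self_pow₀ hz1 (by omega)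
  have hY : 1 ≤ Y := hz1.trans hzle
  have hY0 : 0 < Y := by linarith
  have hη := eta_pos (K 1) hY0
  have hR0 : 0 ≤ ∑ n ∈ Ioc (X0 Λ Y) (X1 Λ Y), w n / n :=
    sum_nonneg fun n hn => div_nonneg (hw.2.1 n hn) (by positivity)
  have hC0 : 0 ≤ C := hR0.trans hw.2.2
  have hP : ∀ l ∈ PP z, l.Prime := fun l hl => (mem_filter.1 hl).2
  have hzu : z ^ u ≤ Y := hzY ▸ pow_le_pow_right₀ hz1 (by omega)
  refine (hu (PP z) (fun l => l) (fun l => 1 / l) z (Ioc (X0 Λ Y) (X1 Λ Y))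
    (fun n => w n * (K 1).g (α * n) / n) (fun l n => if (l : ℤ) ∣ ⌊α * n⌋ then 1 else 0) _
    (Y * (4 * C * (K 1).η / Y ^ 55)) hz (fun l hl => ?_) (kap z) (fun n hn => ?_)
    (fun l _ n _ => ?_) (by positivity) ?_).trans ?_
  · have h1 := mem_Icc.1 (mem_filter.1 hl).1
    have h2 : (2 : ℝ) ≤ l := by exact_mod_cast h1.1
    exact ⟨h2, (Nat.cast_le.2 h1.2).trans (Nat.floor_le (by linarith)), by positivity,
      one_div_le_one_div_of_le (by norm_num) h2⟩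
  · exact div_nonneg (mul_nonneg (hw.2.1 n hn) ((K 1).g0 _)) (by positivity)
  · split_ifs <;> norm_num
  · refine (sum_le_card_nsmul _ _ (4 * C * (K 1).η / Y ^ 55) fun S hS => ?_).trans ?_
    · rw [mem_filter, mem_powerset] at hS
      have hSp : ∀ l ∈ S, l.Prime := fun l hl => hP l (hS.1 hl)
      have hd1 : 1 ≤ ∏ l ∈ S, l := prod_pos fun l hl => (hSp l hl).pos
      have hd : ((∏ l ∈ S, l : ℕ) : ℝ) ^ 3 ≤ Y := by
        rw [Nat.cast_prod]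
        calc (∏ l ∈ S, (l : ℝ)) ^ 3 ≤ (z ^ u) ^ 3 := by
              have := hS.2
              gcongr
          _ = z ^ (u * 3) := (pow_mul _ _ _).symm
          _ ≤ Y := hzY ▸ pow_le_pow_right₀ hz1 (by omega)
      have h := evald hΛ hY hq ha hα (K 1) (K _) hd1 hd (hK _ hd1 hd).1 (hK _ hd1 hd).2 hw
      refine le_trans (le_of_eq ?_) h
      congr 2
      · refine sum_congr rfl fun n _ => ?_
        rw [prod_ind S hSp]
        split_ifs <;> simp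
      · rw [prod_div_distrib, prod_const_one, Nat.cast_prod, mul_one_div]
    · rw [nsmul_eq_mul]
      exact mul_le_mul_of_nonneg_right ((card_sets _ hP _ (by positivity)).trans hzu)
        (by positivity)
  · gcongr
    calc 2 * z * (Y * (4 * C * (K 1).η / Y ^ 55)) ≤ 2 * Y * (Y * (4 * C * (K 1).η / Y ^ 55)) := by
          gcongr
      _ = _ := by field_simp; ring

lemma real_of {Λ : ℕ} {Y : ℝ} (K : Ker Λ Y) (β : ℝ) (s : Finset ℕ) (w : ℕ → ℝ) :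
    |∑ n ∈ s, w n * (K.g (β * n) - K.η)| = ‖∑ n ∈ s, (w n : ℂ) * K.D β n‖ := by
  rw [← Real.norm_eq_abs, ← Complex.norm_real, Complex.ofReal_sum]
  refine congrArg _ (sum_congr rfl fun n _ => ?_)
  rw [Ker.D, Complex.ofReal_mul]

end CORE2

open CORE2 in
theorem st_CORE2 (hM : St_MAIN) (hA : St_EVA) (hC : St_EVC) (hE : St_EVR) (hR : St_RHO)
    (hK : St_KERD) (hRM : St_RM) (hB : St_BIG) : St_CORE2 := by
  obtain ⟨Λ, hΛ, c, hc, hev⟩ := hM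
  obtain ⟨C0, hC0⟩ := hRM
  set C : ℝ := 2 ^ 101 * (|C0| + 1) with hCd
  have hC1 : 2 ^ 101 ≤ C := by
    rw [hCd]
    exact le_mul_of_one_le_right (by positivity) (by linarith [abs_nonneg C0])
  have hCpos : 0 < C := by positivity
  obtain ⟨u, hu⟩ := LQ.B2 40 (c / (4 * C)) (by positivity)
  refine ⟨Λ, 3 * u + 3, by omega, ?_⟩
  filter_upwards [hev, hC0 Λ hΛ, hB Λ hΛ, Filter.eventually_gt_atTop (2 * (16 * C + 1) / c),
    Filter.eventually_ge_atTop ((2 : ℝ) ^ (3 * u + 3))] with Y hmain hrm hbig hYc hY2 α q a hq ha hα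
  have hY1 : 1 ≤ Y := (one_le_pow₀ one_le_two).trans hY2
  have hY0 : 0 < Y := by linarith
  obtain ⟨K, hK⟩ := hK Λ Y hbig
  set z : ℝ := Y ^ (((3 * u + 3 : ℕ) : ℝ)⁻¹) with hzd
  have hzY : z ^ (3 * u + 3) = Y := Real.rpow_inv_natCast_pow hY0.le (by omega)
  have hz0 : 0 ≤ z := by positivity
  have hz : 2 ≤ z := (pow_le_pow_iff_left₀ (by norm_num) hz0 (by omega : 3 * u + 3 ≠ 0)).1
    (by rw [hzY]; exact hY2)
  have hzle : z ≤ Y := hzY ▸ le_self_pow₀ (by linarith) (by omega)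
  have hη := eta_pos (K 1) hY0
  by_contra hcon
  set I := Ioc (X0 Λ Y) (X1 Λ Y) with hI
  set w0 : ℕ → ℝ := fun n => if rough Λ Y n then 1 else 0 with hw0
  have hm0 : ∑ n ∈ I, 2 ^ 101 * w0 n / n ≤ C := by
    have : ∑ n ∈ I, 2 ^ 101 * w0 n / n =
        2 ^ 101 * ∑ n ∈ I, (if rough Λ Y n then (1 : ℝ) / n else 0) := by
      rw [mul_sum]
      refine sum_congr rfl fun n _ => ?_
      simp only [hw0]
      split_ifs <;> ring
    rw [this, hCd]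
    have := le_abs_self C0
    gcongr
    linarith
  have hE0 : ∀ (β : ℝ) (K : Ker Λ Y), Dio Λ Y β q → ∀ j, j ≤ X1 Λ Y →
      |∑ n ∈ Ioc (X0 Λ Y) j, 2 ^ 100 * w0 n * (K.g (β * n) - K.η)| * Y ^ 55 ≤
        2 ^ 100 * (K.η * Y ^ (270 * Λ)) := fun β K hD j hj => by
    have h1 := hE Λ Y β q K hbig hD j hj
    have h2 := real_of K β (Ioc (X0 Λ Y) j) w0
    have h3 : ∀ n, ((w0 n : ℝ) : ℂ) = if rough Λ Y n then 1 else 0 := fun n => by
      simp only [hw0]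
      split_ifs <;> simp
    simp only [h3] at h2
    simp only [mul_assoc]
    rw [← mul_sum, abs_mul, abs_of_pos (by positivity : (0 : ℝ) < 2 ^ 100), mul_assoc, h2]
    gcongr
  have hrho : ∀ n ∈ I, 0 ≤ 2 ^ 100 * w0 n - rho Λ Y n ∧
      2 ^ 100 * w0 n - rho Λ Y n ≤ 2 ^ 101 * w0 n := fun n hn => by
    have hr := hR Λ Y n hbig hn
    simp only [hw0]
    split_ifs with h
    · have h1 : (-2 ^ 100 : ℝ) ≤ rho Λ Y n := by exact_mod_cast hr.2.2.2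
      have h2 : (rho Λ Y n : ℝ) ≤ 1 := by
        by_cases hp : n.Prime
        · exact_mod_cast (hr.1 hp).le
        · exact_mod_cast (hr.2.1 hp).trans zero_le_one
      constructor <;> linarith [show (1 : ℝ) ≤ 2 ^ 100 by norm_num]
    · have h1 : (rho Λ Y n : ℝ) = 0 := by exact_mod_cast hr.2.2.1 h
      simp [h1]
  have hw00 : ∀ n, 0 ≤ w0 n := fun n => by
    simp only [hw0]
    split_ifs <;> norm_num
  have ev1 : Ev Λ Y q (fun n => 2 ^ 100 * w0 n) C := by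
    refine ⟨fun β K hD j hj => (hE0 β K hD j hj).trans ?_, 
      fun n _ => mul_nonneg (by norm_num) (hw00 n), le_trans (sum_le_sum fun n _ => ?_) hm0⟩
    · have := eta_pos K hY0
      have h2 : (2 : ℝ) ^ 100 ≤ C := le_trans (by norm_num) hC1
      have h3 : 0 ≤ K.η * Y ^ (270 * Λ) := by positivity
      exact mul_le_mul_of_nonneg_right h2 h3
    · exact div_le_div_of_nonneg_right (mul_le_mul_of_nonneg_right (by norm_num) (hw00 n))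
        (by positivity)
  have ev2 : Ev Λ Y q (fun n => 2 ^ 100 * w0 n - rho Λ Y n) C := by
    refine ⟨fun β K hD j hj => ?_, fun n hn => (hrho n hn).1,
      le_trans (sum_le_sum fun n hn => ?_) hm0⟩
    · have h0 := hE0 β K hD j hj
      have h1 := hA Λ Y β q K hbig hD j hj
      have h2 := hC Λ Y β q K hbig hD j hj
      have h3 := real_of K β (Ioc (X0 Λ Y) j) fun n => rhoA Λ Y n
      have h4 := real_of K β (Ioc (X0 Λ Y) j) fun n => rhoC Λ Y n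
      simp only [Complex.ofReal_intCast] at h3 h4
      rw [← h3] at h1
      rw [← h4] at h2
      have e : ∑ n ∈ Ioc (X0 Λ Y) j, (2 ^ 100 * w0 n - rho Λ Y n) * (K.g (β * n) - K.η) =
          ∑ n ∈ Ioc (X0 Λ Y) j, 2 ^ 100 * w0 n * (K.g (β * n) - K.η) +
          -∑ n ∈ Ioc (X0 Λ Y) j, (rhoA Λ Y n : ℝ) * (K.g (β * n) - K.η) +
          ∑ n ∈ Ioc (X0 Λ Y) j, (rhoC Λ Y n : ℝ) * (K.g (β * n) - K.η) := by
        rw [← sub_eq_add_neg, ← sum_sub_distrib, ← sum_add_distrib]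
        refine sum_congr rfl fun n _ => ?_
        rw [rho]
        push_cast
        ring
      rw [e]
      have h5 := mul_le_mul_of_nonneg_right (abs_add_three
        (∑ n ∈ Ioc (X0 Λ Y) j, 2 ^ 100 * w0 n * (K.g (β * n) - K.η))
        (-∑ n ∈ Ioc (X0 Λ Y) j, (rhoA Λ Y n : ℝ) * (K.g (β * n) - K.η))
        (∑ n ∈ Ioc (X0 Λ Y) j, (rhoC Λ Y n : ℝ) * (K.g (β * n) - K.η)))
        (by positivity : (0 : ℝ) ≤ Y ^ 55)
      rw [abs_neg] at h5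
      have h6 : 0 ≤ K.η * Y ^ (270 * Λ) := by
        have := eta_pos K hY0
        positivity
      have h7 := mul_le_mul_of_nonneg_right
        (show (2 : ℝ) ^ 100 + 2 ≤ C by linarith [show (2 : ℝ) ^ 100 + 2 ≤ 2 ^ 101 by norm_num]) h6
      linarith
    · exact div_le_div_of_nonneg_right (hrho n hn).2 (by positivity)
  have s1 := sieve (hu ℕ ℕ) (by omega) hz hzY hq ha hα K hK ev1
  have s2 := sieve (hu ℕ ℕ) (by omega) hz hzY hq ha hα K hK ev2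
  set V := ∏ l ∈ PP z, (1 - (1 : ℝ) / l) with hV
  have hV1 : 1 / Y ≤ V :=
    (one_div_le_one_div_of_le (by linarith) hzle).trans (V_ge (by linarith))
  have hV0 : 0 < V := lt_of_lt_of_le (by positivity) hV1
  set Pi : ℕ → ℝ := fun n => ∏ l ∈ PP z, (1 - if (l : ℤ) ∣ ⌊α * n⌋ then (1 : ℝ) else 0) with hPi
  have hPi0 : ∀ n, 0 ≤ Pi n ∧ Pi n ≤ 1 := fun n =>
    ⟨prod_nonneg fun l _ => by split_ifs <;> norm_num,
      prod_le_one (fun l _ => by split_ifs <;> norm_num) fun l _ => by split_ifs <;> norm_num⟩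
  have hup : ∀ n ∈ I, (rho Λ Y n : ℝ) * (K 1).g (α * n) / n * Pi n ≤ 1 / Y ^ (2000 * Λ) := by
    intro n hn
    have hr := hR Λ Y n hbig hn
    by_cases hp : n.Prime
    · have h1 : (rho Λ Y n : ℝ) = 1 := by exact_mod_cast hr.1 hp
      by_cases h0 : Pi n = 0
      · rw [h0, mul_zero]; positivity
      have h2 := (K 1).off (α * n) (fun h => hcon ⟨n, hp, hn, h.1, h.2, fun l hl hd => by
        by_contra h3
        refine h0 (prod_eq_zero (i := l) (mem_filter.2 ⟨mem_Icc.2 ⟨hl.two_le, Nat.le_floor ?_⟩,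
          hl⟩) (by rw [if_pos hd, sub_self]))
        exact (pow_le_pow_iff_left₀ (by positivity) hz0 (by omega : 3 * u + 3 ≠ 0)).1
          (by rw [hzY]; exact not_lt.1 h3)⟩)
      have h3 : (1 : ℝ) ≤ n := by exact_mod_cast hp.pos
      have h4 := (K 1).g0 (α * n)
      rw [h1, one_mul]
      calc (K 1).g (α * n) / n * Pi n ≤ (K 1).g (α * n) / n :=
            mul_le_of_le_one_right (by positivity) (hPi0 n).2
        _ ≤ (K 1).g (α * n) := div_le_self h4 h3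
        _ ≤ 1 / Y ^ (2000 * Λ) := by rw [le_div_iff₀ (by positivity)]; exact h2
    · have h1 : (rho Λ Y n : ℝ) ≤ 0 := by exact_mod_cast hr.2.1 hp
      have h2 := mul_nonpos_of_nonpos_of_nonneg h1 ((K 1).g0 (α * n))
      have h3 := div_nonpos_of_nonpos_of_nonneg h2 (by positivity : (0 : ℝ) ≤ n)
      exact (mul_nonpos_of_nonpos_of_nonneg h3 (hPi0 n).1).trans (by positivity)
  have hX1 : (X1 Λ Y : ℝ) ≤ Y ^ (270 * Λ + 1) := Nat.floor_le (by positivity)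
  have hsum : ∑ n ∈ I, (rho Λ Y n : ℝ) * (K 1).g (α * n) / n * Pi n ≤ (K 1).η / Y ^ 2 := by
    refine (sum_le_card_nsmul _ _ _ hup).trans ?_
    rw [hI, Nat.card_Ioc, nsmul_eq_mul]
    have h1 : ((X1 Λ Y - X0 Λ Y : ℕ) : ℝ) ≤ Y ^ (270 * Λ + 1) :=
      le_trans (by exact_mod_cast Nat.sub_le _ _) hX1
    have h2 : Y ^ (270 * Λ + 1) * Y ^ (90 * Λ + 4) * Y ^ 2 ≤ Y ^ (2000 * Λ) := by
      rw [← pow_add, ← pow_add]
      exact pow_le_pow_right₀ hY1 (by omega)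
    have h3 := (K 1).ηlo
    rw [mul_one_div, div_le_div_iff₀ (by positivity) (by positivity)]
    calc ((X1 Λ Y - X0 Λ Y : ℕ) : ℝ) * Y ^ 2 ≤ Y ^ (270 * Λ + 1) * Y ^ 2 * 1 := by
          rw [mul_one]; gcongr
      _ ≤ Y ^ (270 * Λ + 1) * Y ^ 2 * ((K 1).η * Y ^ (90 * Λ + 4)) := by gcongr
      _ = (K 1).η * (Y ^ (270 * Λ + 1) * Y ^ (90 * Λ + 4) * Y ^ 2) := by ring
      _ ≤ (K 1).η * Y ^ (2000 * Λ) := by gcongr
  have d1 : ∑ n ∈ I, (rho Λ Y n : ℝ) * (K 1).g (α * n) / n * Pi n =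
      ∑ n ∈ I, 2 ^ 100 * w0 n * (K 1).g (α * n) / n * Pi n -
      ∑ n ∈ I, (2 ^ 100 * w0 n - rho Λ Y n) * (K 1).g (α * n) / n * Pi n := by
    rw [← sum_sub_distrib]
    exact sum_congr rfl fun n _ => by ring
  have d2 : ∑ n ∈ I, (rho Λ Y n : ℝ) / n = ∑ n ∈ I, 2 ^ 100 * w0 n / n -
      ∑ n ∈ I, (2 ^ 100 * w0 n - rho Λ Y n) / n := by
    rw [← sum_sub_distrib]
    exact sum_congr rfl fun n _ => by ring
  have r1 := ev1.2.2
  have r2 := ev2.2.2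
  rw [d2] at hmain
  rw [d1] at hsum
  have t1 := (abs_le.1 s1).1
  have t2 := (abs_le.1 s2).2
  simp only [← hI] at t1 t2 r1 r2
  generalize ∑ n ∈ I, 2 ^ 100 * w0 n / n = R1 at *
  generalize ∑ n ∈ I, (2 ^ 100 * w0 n - rho Λ Y n) / n = R2 at *
  have hηV : 0 < (K 1).η * V := by positivity
  have u1 : c / (4 * C) * ((K 1).η * R1 * V) ≤ c / 4 * ((K 1).η * V) :=
    calc c / (4 * C) * ((K 1).η * R1 * V) ≤ c / (4 * C) * ((K 1).η * C * V) := by gcongr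
      _ = _ := by field_simp
  have u2 : c / (4 * C) * ((K 1).η * R2 * V) ≤ c / 4 * ((K 1).η * V) :=
    calc c / (4 * C) * ((K 1).η * R2 * V) ≤ c / (4 * C) * ((K 1).η * C * V) := by gcongr
      _ = _ := by field_simp
  have u3 := mul_le_mul_of_nonneg_right hmain hηV.le
  have u4 : 8 * C * (K 1).η / Y ^ 53 ≤ 8 * C * (K 1).η / Y ^ 2 :=
    div_le_div_of_nonneg_left (by positivity) (by positivity) (pow_le_pow_right₀ hY1 (by norm_num))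
  have u5 : c / 2 * ((K 1).η * (1 / Y)) ≤ c / 2 * ((K 1).η * V) := by gcongr
  have u6 : c / 2 * ((K 1).η * (1 / Y)) ≤ (16 * C + 1) * (K 1).η / Y ^ 2 := by
    have : (16 * C + 1) * (K 1).η / Y ^ 2 = 2 * (8 * C * (K 1).η / Y ^ 2) + (K 1).η / Y ^ 2 := by
      ring
    linarith
  rw [div_lt_iff₀ hc] at hYc
  rw [le_div_iff₀ (by positivity)] at u6
  have u7 : c / 2 * ((K 1).η * (1 / Y)) * Y ^ 2 = c / 2 * Y * (K 1).η := by field_simp
  rw [u7] at u6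
  have u8 := le_of_mul_le_mul_right u6 hη
  linarith

end Pool.Agent.Lib.AP
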