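import Pool.Agent.Lib.AP.Blue3

/-! Evaluation of the rough numbers against the kernel. -/

open Finset Classical

noncomputable section

namespace Pool.Agent.Lib.AP

/-- the rough integers are well distributed against the kernel -/
theorem st_EVR (hP : St_PEEL) : St_EVR := by
  intro Λ Y α q K hB hD j hj
  have hY : 1 ≤ Y := (one_le_pow₀ (by norm_num)).trans hB.two
  have hl := hB.lam
  have hD0 : 1 ≤ D0 Λ Y := Nat.le_floor (by
    rw [Nat.cast_one, le_div_iff₀ (by positivity), one_mul]
    exact pow_le_pow_right₀ hY (by omega))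
  have hn : ∀ m : ℕ, ‖(if m = 1 then 1 else 0 : ℂ)‖ ≤ 1 := fun m => by split_ifs <;> simp
  have h := hP Λ Y α q K hB hD (fun m => if m = 1 then 1 else 0) (fun m => if m = 1 then 1 else 0)
    j hn hn hj (Or.inl ⟨fun m hm => by
      rw [show m = 1 by by_contra h; exact hm (if_neg h)]; exact hD0,
      fun r hr => by by_contra h; exact hr (if_neg h)⟩)
  have h1 : ∀ d : ℕ, col (fun m r => (if m = 1 then 1 else 0 : ℂ) * (if r = 1 then 1 else 0)) d =
      if d = 1 then 1 else 0 := fun d => by
    unfold col
    split_ifs with hd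
    · subst hd; simp
    · refine sum_eq_zero fun x hx => ?_
      have := (Nat.mem_divisorsAntidiagonal.1 hx).1
      by_cases h1 : x.1 = 1
      · by_cases h2 : x.2 = 1
        · rw [h1, h2] at this; exact absurd this.symm hd
        · simp [h2]
      · simp [h1]
  have h2 : ∀ n ∈ Ioc (X0 Λ Y) j, col (fun d s => if rough Λ Y s then
      col (fun m r => (if m = 1 then 1 else 0 : ℂ) * (if r = 1 then 1 else 0)) d else 0) n *
        K.D α n = (if rough Λ Y n then 1 else 0 : ℂ) * K.D α n := by
    intro n hn
    have hn0 : n ≠ 0 := by have := (mem_Ioc.1 hn).1; omega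
    simp only [h1]
    unfold col
    rw [sum_eq_single (1, n)]
    · simp
    · intro x hx hne
      have := (Nat.mem_divisorsAntidiagonal.1 hx).1
      have h3 : x.1 ≠ 1 := fun h => hne (Prod.ext h (by rw [h, one_mul] at this; exact this))
      simp [h3]
    · intro h
      exact absurd (Nat.mem_divisorsAntidiagonal.2 ⟨one_mul n, hn0⟩) h
  rw [sum_congr rfl h2] at h
  exact (mul_le_mul_of_nonneg_left (pow_le_pow_right₀ hY (by norm_num)) (norm_nonneg _)).trans h

end Pool.Agent.Lib.AP
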