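import Pool.Agent.Lib.AP.Blue3
import Pool.Agent.Lib.AP.B_FIN

/-! From the second core statement to the Pell form with an almost prime `r`. -/

open Finset

namespace Pool.Agent.Lib.AP

namespace FIN2

lemma list_pow (Y : ℝ) (hY : 0 ≤ Y) (s : ℕ) (L : List ℕ) (h : ∀ l ∈ L, Y ≤ (l : ℝ) ^ s) :
    Y ^ L.length ≤ ((L.prod : ℕ) : ℝ) ^ s := by
  induction L with
  | nil => simp
  | cons a L ih =>
    have h1 := h a (by simp)
    have h2 := ih fun l hl => h l (by simp [hl])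
    rw [List.length_cons, List.prod_cons, Nat.cast_mul, mul_pow, pow_succ, mul_comm]
    exact mul_le_mul h1 h2 (by positivity) (by positivity)

lemma len_le (Y : ℝ) (hY : 1 < Y) (s m r : ℕ) (hr : r ≠ 0) (hrY : (r : ℝ) ≤ Y ^ m)
    (h : ∀ l : ℕ, l.Prime → l ∣ r → Y < (l : ℝ) ^ s) : r.primeFactorsList.length ≤ m * s := by
  have h1 := list_pow Y (by linarith) s r.primeFactorsList fun l hl =>
    (h l (Nat.prime_of_mem_primeFactorsList hl) (Nat.dvd_of_mem_primeFactorsList hl)).le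
  rw [Nat.prod_primeFactorsList hr] at h1
  have h2 : (r : ℝ) ^ s ≤ Y ^ (m * s) := by
    rw [pow_mul]; gcongr
  exact (pow_le_pow_iff_right₀ hY).mp (h1.trans h2)

lemma step (hC : St_CORE2) : ∃ Λ s : ℕ, ∀ α : ℝ, Irrational α → ∀ (b : ℕ) (B : ℝ),
    ∃ (p : ℕ) (Y : ℝ), p.Prime ∧ b < p ∧ B ≤ Y ∧ 2 ≤ Y ∧ (p : ℝ) ≤ Y ^ (270 * Λ + 1) ∧
      Int.fract (α * p) < (p : ℝ) ^ (-(1 / 3 + (2 / 3) / (270 * (Λ : ℝ) + 1))) ∧
      ∀ l : ℕ, l.Prime → (l : ℤ) ∣ ⌊α * p⌋ → Y < (l : ℝ) ^ s := by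
  obtain ⟨Λ, s, hΛ, hev⟩ := hC
  obtain ⟨Y0, hY0⟩ := Filter.eventually_atTop.mp hev
  have hΛ' : (1 : ℝ) ≤ Λ := by exact_mod_cast hΛ
  refine ⟨Λ, s, fun α hα b B => ?_⟩
  set Y1 : ℝ := max (max Y0 2) (max (b + 1) B) with hY1
  obtain ⟨x, hx, hxB⟩ := FIN.den_unbounded α hα ⌈Y1 ^ (180 * Λ)⌉₊
  have hne : 180 * Λ ≠ 0 := by omega
  set Y : ℝ := (x.den : ℝ) ^ (((180 * Λ : ℕ) : ℝ)⁻¹) with hY
  have hq : (x.den : ℝ) = Y ^ (180 * Λ) := by
    rw [hY, Real.rpow_inv_natCast_pow (by positivity) hne]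
  have hY12 : 2 ≤ Y1 := le_trans (le_max_right _ _) (le_max_left _ _)
  have hY10 : 0 ≤ Y1 := by linarith
  have hY0' : 0 ≤ Y := by positivity
  have hYY : Y1 ≤ Y := by
    have h1 : Y1 ^ (180 * Λ) ≤ Y ^ (180 * Λ) := by
      rw [← hq]
      have : ((⌈Y1 ^ (180 * Λ)⌉₊ : ℕ) : ℝ) ≤ x.den := by exact_mod_cast hxB.le
      exact (Nat.le_ceil _).trans this
    exact (pow_le_pow_iff_left₀ hY10 hY0' hne).mp h1
  have hY2 : 2 ≤ Y := hY12.trans hYY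
  have hYb : (b : ℝ) + 1 ≤ Y := le_trans (le_trans (le_max_left _ _) (le_max_right _ _)) hYY
  have hYB : B ≤ Y := le_trans (le_trans (le_max_right _ _) (le_max_right _ _)) hYY
  have hYa : Y0 ≤ Y := le_trans (le_trans (le_max_left _ _) (le_max_left _ _)) hYY
  have hap : |α - (x.num : ℝ) / (x.den : ℕ)| ≤ 1 / ((x.den : ℕ) : ℝ) ^ 2 := by
    have : ((x.num : ℝ) / (x.den : ℝ)) = x := by
      have := Rat.num_div_den x
      exact_mod_cast this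
    rw [this]; exact hx.le
  obtain ⟨p, hp, hpI, hf0, hf1, hl⟩ := hY0 Y hYa α x.den x.num hq
    (Int.isCoprime_iff_gcd_eq_one.mpr x.reduced) hap
  rw [mem_Ioc] at hpI
  have hp0 : (0 : ℝ) < p := by exact_mod_cast hp.pos
  have hpl : Y ^ (270 * Λ) < p := Nat.lt_of_floor_lt hpI.1
  have hpu : (p : ℝ) ≤ Y ^ (270 * Λ + 1) :=
    le_trans (by exact_mod_cast hpI.2) (Nat.floor_le (by positivity))
  refine ⟨p, Y, hp, ?_, hYB, hY2, hpu, ?_, hl⟩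
  · have : Y ≤ Y ^ (270 * Λ) := le_self_pow₀ (by linarith) (by omega)
    have : (b : ℝ) < p := by linarith
    exact_mod_cast this
  · have hYpos : 0 < Y := by linarith
    have h1 : (Y ^ (270 * Λ + 1)) ^ (-(1 / 3 + (2 / 3) / (270 * (Λ : ℝ) + 1))) ≤
        (p : ℝ) ^ (-(1 / 3 + (2 / 3) / (270 * (Λ : ℝ) + 1))) :=
      Real.rpow_le_rpow_of_nonpos hp0 hpu (by
        have : (0 : ℝ) ≤ (2 / 3) / (270 * (Λ : ℝ) + 1) := by positivity
        linarith)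
    have h2 : (Y ^ (270 * Λ + 1)) ^ (-(1 / 3 + (2 / 3) / (270 * (Λ : ℝ) + 1))) =
        (Y ^ (90 * Λ + 1))⁻¹ := by
      rw [← Real.rpow_natCast, ← Real.rpow_mul hYpos.le, ← Real.rpow_natCast,
        ← Real.rpow_neg hYpos.le]
      congr 1
      push_cast
      field_simp
      ring
    refine lt_of_lt_of_le ?_ (h2 ▸ h1)
    rw [← one_div, lt_div_iff₀ (by positivity)]
    exact hf1

end FIN2

theorem st_FIN2 (hC : St_CORE2) : St_FIN2 := by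
  obtain ⟨Λ, s0, h⟩ := FIN2.step hC
  set δ : ℝ := (2 / 3) / (270 * (Λ : ℝ) + 1) with hδdef
  have hδ : 0 < δ := by positivity
  refine ⟨δ / 2, by positivity, (270 * Λ + 2) * s0, fun D hD hirr => ?_⟩
  set s : ℝ := √D with hs
  have hs0 : 0 < s := Real.sqrt_pos.mpr hD
  have hsD : D = s ^ 2 := (Real.sq_sqrt hD.le).symm
  have hα : Irrational (-s⁻¹) := hirr.inv.neg
  have hev : ∀ᶠ p : ℕ in Filter.atTop, s * (2 + s) ≤ (p : ℝ) ^ (δ / 2) :=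
    ((tendsto_rpow_atTop (by positivity : 0 < δ / 2)).comp
      tendsto_natCast_atTop_atTop).eventually_ge_atTop _
  obtain ⟨N, hN⟩ := Filter.eventually_atTop.mp hev
  refine Set.infinite_of_forall_exists_gt fun b => ?_
  obtain ⟨p, Y, hp, hbp, hB, hY2, hpu, hf, hl⟩ := h _ hα (max b N) (s⁻¹ + 1)
  have hpN' : N ≤ p := le_trans (le_max_right _ _) hbp.le
  refine ⟨p, ?_, lt_of_le_of_lt (le_max_left _ _) hbp⟩
  have hp1 : (1 : ℝ) ≤ p := by exact_mod_cast hp.pos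
  have hp0 : (0 : ℝ) < p := by linarith
  set t : ℝ := Int.fract (-s⁻¹ * p) with ht
  have hip : Irrational (-s⁻¹ * p) := hα.mul_natCast hp.ne_zero
  have ht0 : 0 < t := by
    rw [ht, Int.fract_pos]
    exact hip.ne_int _
  have ht1 : t < 1 := Int.fract_lt_one _
  have hfl : ⌊-s⁻¹ * (p : ℝ)⌋ ≤ 0 := by
    have : -s⁻¹ * (p : ℝ) ≤ 0 := by
      have : 0 ≤ s⁻¹ * (p : ℝ) := by positivity
      linarith
    exact Int.floor_nonpos this
  obtain ⟨r, hr⟩ := Int.eq_ofNat_of_zero_le (by omega : 0 ≤ -⌊-s⁻¹ * (p : ℝ)⌋)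
  have hr' : (r : ℝ) = s⁻¹ * p + t := by
    have h1 : ((-⌊-s⁻¹ * (p : ℝ)⌋ : ℤ) : ℝ) = (r : ℝ) := by rw [hr]; simp
    rw [← h1, ht, Int.fract]
    push_cast
    ring
  have key : D * (r : ℝ) ^ 2 - (p : ℝ) ^ 2 = s * t * (2 * p + s * t) := by
    rw [hr', hsD]; field_simp; ring
  have hr0 : r ≠ 0 := by
    have : (0 : ℝ) < r := by rw [hr']; positivity
    exact_mod_cast this.ne'
  have hrY : (r : ℝ) ≤ Y ^ (270 * Λ + 2) := by
    have hsi : 0 < s⁻¹ := by positivity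
    calc (r : ℝ) ≤ (s⁻¹ + 1) * p := by rw [hr']; nlinarith
      _ ≤ Y * Y ^ (270 * Λ + 1) := by gcongr
      _ = Y ^ (270 * Λ + 2) := by ring
  refine ⟨hp, r, ?_, ?_, ?_⟩
  · refine FIN2.len_le Y (by linarith) s0 _ r hr0 hrY fun l hlp hlr => hl l hlp ?_
    have : (l : ℤ) ∣ -⌊-s⁻¹ * (p : ℝ)⌋ := by rw [hr]; exact_mod_cast hlr
    exact (dvd_neg).mp this
  · rw [key]; positivity
  · rw [key]
    have h1 : 2 * (p : ℝ) + s * t ≤ (2 + s) * p := by nlinarith [mul_pos hs0 ht0]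
    have h2 : (p : ℝ) ^ (2 / 3 - δ / 2) = (p : ℝ) ^ (δ / 2) * ((p : ℝ) ^ (-(1 / 3 + δ)) * p) := by
      rw [← Real.rpow_add_one hp0.ne', ← Real.rpow_add hp0]
      congr 1
      ring
    rw [h2]
    calc s * t * (2 * p + s * t) ≤ s * t * ((2 + s) * p) := by gcongr
      _ = s * (2 + s) * (t * p) := by ring
      _ ≤ (p : ℝ) ^ (δ / 2) * ((p : ℝ) ^ (-(1 / 3 + δ)) * p) := by
        have := hN p hpN'
        gcongr

end Pool.Agent.Lib.AP
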