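import Pool.Agent.Lib.AP.Blue

/-! The detecting kernel: a power of the Fejer kernel, shifted. -/

open Finset Classical Polynomial

noncomputable section

namespace Pool.Agent.Lib.AP

namespace KERB

/-- the uniform distribution on `1..N` as a polynomial -/
def U (N : ℕ) : ℝ[X] := ∑ j ∈ Ioc 0 N, monomial j (1 / (N : ℝ))

theorem U_coeff (N a : ℕ) : 0 ≤ (U N).coeff a ∧ (U N).coeff a ≤ 1 / (N : ℝ) := by
  have h : (0 : ℝ) ≤ 1 / (N : ℝ) := by positivity
  rw [U, finsetSum_coeff]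
  simp only [coeff_monomial]
  rw [sum_ite_eq']
  split_ifs
  · exact ⟨h, le_rfl⟩
  · exact ⟨le_rfl, h⟩

theorem U_deg (N : ℕ) : (U N).natDegree ≤ N :=
  natDegree_sum_le_of_forall_le _ _ fun _ hj => (natDegree_monomial_le _).trans (mem_Ioc.1 hj).2

theorem pow_deg (N r : ℕ) : (U N ^ r).natDegree < r * N + 1 :=
  Nat.lt_succ_of_le (natDegree_pow_le.trans (Nat.mul_le_mul_left r (U_deg N)))

theorem pow_nonneg' (N r : ℕ) : ∀ a, 0 ≤ (U N ^ r).coeff a := by
  induction r with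
  | zero =>
    intro a
    rw [pow_zero, coeff_one]
    split_ifs <;> norm_num
  | succ r ih =>
    intro a
    rw [pow_succ, coeff_mul]
    exact sum_nonneg fun x _ => mul_nonneg (ih _) (U_coeff N _).1

theorem pow_sum {N : ℕ} (hN : 0 < N) (r : ℕ) :
    ∑ a ∈ range (r * N + 1), (U N ^ r).coeff a = 1 := by
  have h1 : (U N).eval 1 = 1 := by
    have : (N : ℝ) ≠ 0 := by positivity
    rw [U, eval_finsetSum]
    simp only [eval_monomial, one_pow, mul_one, sum_const, Nat.card_Ioc, Nat.sub_zero,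
      nsmul_eq_mul]
    field_simp
  have h2 := eval_eq_sum_range' (pow_deg N r) (1 : ℝ)
  rw [eval_pow, h1, one_pow] at h2
  simpa using h2.symm

theorem pow_le {N : ℕ} (hN : 0 < N) (r a : ℕ) : (U N ^ (r + 1)).coeff a ≤ 1 / (N : ℝ) := by
  have h0 : (0 : ℝ) ≤ 1 / (N : ℝ) := by positivity
  have h1 : ∑ i ∈ range (a + 1), (U N ^ r).coeff i ≤ 1 := by
    rw [← pow_sum hN r]
    rw [← sum_filter_ne_zero]
    refine sum_le_sum_of_subset_of_nonneg (fun i hi => mem_range.2 ?_)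
      fun i _ _ => pow_nonneg' N r i
    exact (le_natDegree_of_ne_zero (mem_filter.1 hi).2).trans_lt (pow_deg N r)
  rw [pow_succ, coeff_mul, Nat.sum_antidiagonal_eq_sum_range_succ
    (fun i j => (U N ^ r).coeff i * (U N).coeff j)]
  calc ∑ i ∈ range (a + 1), (U N ^ r).coeff i * (U N).coeff (a - i)
      ≤ ∑ i ∈ range (a + 1), (U N ^ r).coeff i * (1 / (N : ℝ)) :=
        sum_le_sum fun i _ => mul_le_mul_of_nonneg_left (U_coeff N _).2 (pow_nonneg' N r i)
    _ ≤ 1 * (1 / (N : ℝ)) := by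
        rw [← sum_mul]
        exact mul_le_mul_of_nonneg_right h1 h0
    _ = _ := one_mul _

theorem ee_pow (a : ℕ) (y : ℝ) : ee (a * y) = ee y ^ a := by
  rw [ee, ee, ← Complex.exp_nat_mul]
  refine congrArg _ ?_
  push_cast
  ring

theorem pow_eval (N r : ℕ) (y : ℝ) :
    ∑ a ∈ range (r * N + 1), (((U N ^ r).coeff a : ℝ) : ℂ) * ee (a * y) =
      ((1 / (N : ℂ)) * ∑ m ∈ Ioc 0 N, ee (m * y)) ^ r := by
  have h2 := aeval_eq_sum_range' (pow_deg N r) (ee y)
  have h1 : aeval (ee y) (U N) = (1 / (N : ℂ)) * ∑ m ∈ Ioc 0 N, ee (m * y) := by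
    rw [U, map_sum, mul_sum]
    refine sum_congr rfl fun m _ => ?_
    rw [aeval_monomial, ee_pow]
    simp
  rw [map_pow, h1] at h2
  rw [h2]
  refine sum_congr rfl fun a _ => ?_
  rw [ee_pow, Complex.real_smul]

/-- autocorrelation -/
def q (L : ℕ) (p : ℕ → ℝ) (h : ℤ) : ℝ :=
  ∑ a ∈ range (L + 1), ∑ b ∈ range (L + 1), if (a : ℤ) - b = h then p a * p b else 0

theorem q_sum {M : Type} [AddCommMonoid M] [Module ℝ M] (L : ℕ) (p : ℕ → ℝ) (f : ℤ → M) :
    ∑ h ∈ Icc (-(L : ℤ)) L, q L p h • f h =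
      ∑ a ∈ range (L + 1), ∑ b ∈ range (L + 1), (p a * p b) • f (a - b) := by
  simp only [q, sum_smul]
  rw [sum_comm]
  refine sum_congr rfl fun a ha => ?_
  rw [sum_comm]
  refine sum_congr rfl fun b hb => ?_
  simp only [ite_smul, zero_smul]
  rw [sum_ite_eq, if_pos]
  have := mem_range.1 ha
  have := mem_range.1 hb
  rw [mem_Icc]
  omega

theorem q_nonneg {L : ℕ} {p : ℕ → ℝ} (hp : ∀ a, 0 ≤ p a) (h : ℤ) : 0 ≤ q L p h := by
  refine sum_nonneg fun a _ => sum_nonneg fun b _ => ?_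
  split_ifs
  · exact mul_nonneg (hp a) (hp b)
  · exact le_rfl

theorem q_zero (L : ℕ) (p : ℕ → ℝ) : q L p 0 = ∑ a ∈ range (L + 1), p a ^ 2 := by
  refine sum_congr rfl fun a ha => ?_
  simp only [sub_eq_zero, Nat.cast_inj]
  rw [sum_ite_eq, if_pos ha, sq]

theorem one_le {L : ℕ} (t : ℝ) (ht : 0 ≤ t) (P : ℕ → Prop) [DecidablePred P]
    (hP : ∀ b b', P b → P b' → b = b') : ∑ b ∈ range (L + 1), (if P b then t else 0) ≤ t := by
  rw [← sum_filter, sum_const, nsmul_eq_mul]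
  have : ((range (L + 1)).filter P).card ≤ 1 :=
    card_le_one.2 fun b hb b' hb' => hP b b' (mem_filter.1 hb).2 (mem_filter.1 hb').2
  have h1 : (((range (L + 1)).filter P).card : ℝ) ≤ 1 := by exact_mod_cast this
  nlinarith

theorem q_le (L : ℕ) (p : ℕ → ℝ) (h : ℤ) : q L p h ≤ q L p 0 := by
  have h1 : ∑ a ∈ range (L + 1), ∑ b ∈ range (L + 1),
      (if (a : ℤ) - b = h then p a ^ 2 else 0) ≤ q L p 0 := by
    rw [q_zero]
    exact sum_le_sum fun a _ => one_le _ (sq_nonneg _) _ fun b b' e e' => by omega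
  have h2 : ∑ a ∈ range (L + 1), ∑ b ∈ range (L + 1),
      (if (a : ℤ) - b = h then p b ^ 2 else 0) ≤ q L p 0 := by
    rw [q_zero, sum_comm]
    exact sum_le_sum fun a _ => one_le _ (sq_nonneg _) _ fun b b' e e' => by omega
  have h3 : 2 * q L p h ≤ ∑ a ∈ range (L + 1), ∑ b ∈ range (L + 1),
      ((if (a : ℤ) - b = h then p a ^ 2 else 0) + if (a : ℤ) - b = h then p b ^ 2 else 0) := by
    rw [q, mul_sum]
    refine sum_le_sum fun a _ => ?_
    rw [mul_sum]
    refine sum_le_sum fun b _ => ?_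
    split_ifs
    · nlinarith [sq_nonneg (p a - p b)]
    · simp
  simp only [sum_add_distrib] at h3
  linarith

theorem far {δ x : ℝ} (h1 : δ ≤ 1) (hx : ¬ (0 < Int.fract x ∧ Int.fract x < δ)) :
    δ / 2 ≤ dn (x - δ / 2) := by
  rw [dn]
  set n := round (x - δ / 2)
  have e : x - δ / 2 - n = ((⌊x⌋ - n : ℤ) : ℝ) + Int.fract x - δ / 2 := by
    rw [Int.fract]
    push_cast
    ring
  rw [e]
  have f0 := Int.fract_nonneg x
  have f1 := Int.fract_lt_one x
  rcases lt_trichotomy (⌊x⌋ - n) 0 with h | h | h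
  · have : ((⌊x⌋ - n : ℤ) : ℝ) ≤ -1 := by exact_mod_cast Int.le_sub_one_of_lt h
    exact le_abs.2 (Or.inr (by linarith))
  · rw [h]
    rcases not_and_or.1 hx with h2 | h2
    · exact le_abs.2 (Or.inr (by push_cast; linarith [not_lt.1 h2]))
    · exact le_abs.2 (Or.inl (by push_cast; linarith [not_lt.1 h2]))
  · have : (1 : ℝ) ≤ ((⌊x⌋ - n : ℤ) : ℝ) := by exact_mod_cast Int.add_one_le_of_lt h
    exact le_abs.2 (Or.inl (by linarith))

end KERB

open KERB in
theorem st_KER (hT : St_TOOL) : St_KER := by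
  intro Λ Y hB
  have hΛ := hB.lam
  have hY : ((2000 * Λ : ℕ) : ℝ) ≤ Y := by
    refine le_trans ?_ hB.two
    have h1 : 2000 * Λ ≤ 2 ^ (300 * Λ) := by
      calc 2000 * Λ ≤ 2 ^ 11 * 2 ^ Λ := Nat.mul_le_mul (by norm_num) Nat.lt_two_pow_self.le
        _ = 2 ^ (11 + Λ) := (pow_add _ _ _).symm
        _ ≤ 2 ^ (300 * Λ) := Nat.pow_le_pow_right (by norm_num) (by omega)
    exact_mod_cast h1
  have hY2 : (2 : ℝ) ≤ Y := le_trans (by exact_mod_cast (by omega : 2 ≤ 2000 * Λ)) hY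
  have hY0 : 0 < Y := by linarith
  have hY1 : 1 ≤ Y := by linarith
  obtain ⟨r, hr⟩ : ∃ r, 1000 * Λ = r + 1 := ⟨1000 * Λ - 1, by omega⟩
  set W := Y ^ (90 * Λ + 1) with hW
  have hW1 : 1 ≤ W := one_le_pow₀ hY1
  have hW0 : 0 < W := by linarith
  have e2 : Y ^ (90 * Λ + 2) = W * Y := pow_succ _ _
  have e3 : Y ^ (90 * Λ + 3) = W * Y * Y := by rw [← e2]; exact pow_succ _ _
  have e4 : Y ^ (90 * Λ + 4) = W * Y * Y * Y := by rw [← e3]; exact pow_succ _ _
  set N := ⌈W * Y⌉₊ with hN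
  have hWY : 1 ≤ W * Y := one_le_mul_of_one_le_of_one_le hW1 hY1
  have N1 : W * Y ≤ N := Nat.le_ceil _
  have N2 : (N : ℝ) ≤ 2 * (W * Y) := by
    have := Nat.ceil_lt_add_one (show 0 ≤ W * Y by linarith)
    linarith
  have N0 : (0 : ℝ) < N := by linarith
  have N0' : 0 < N := by exact_mod_cast N0
  set L := (r + 1) * N with hL
  set p : ℕ → ℝ := fun a => (U N ^ (r + 1)).coeff a with hp
  have p0 : ∀ a, 0 ≤ p a := pow_nonneg' N (r + 1)
  have p1 : ∑ a ∈ range (L + 1), p a = 1 := pow_sum N0' (r + 1)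
  have L1 : (N : ℝ) ≤ L := by exact_mod_cast Nat.le_mul_of_pos_left N (Nat.succ_pos r)
  have L2 : (L : ℝ) ≤ W * Y * Y := by
    have h1 : (L : ℝ) = (1000 * Λ : ℕ) * N := by rw [hr, hL]; push_cast; ring
    have h2 : ((2000 * Λ : ℕ) : ℝ) = 2 * (1000 * Λ : ℕ) := by push_cast; ring
    have h3 : (0 : ℝ) ≤ (1000 * Λ : ℕ) := Nat.cast_nonneg _
    rw [h1]
    calc ((1000 * Λ : ℕ) : ℝ) * N ≤ (1000 * Λ : ℕ) * (2 * (W * Y)) :=
          mul_le_mul_of_nonneg_left N2 h3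
      _ = W * Y * (2000 * Λ : ℕ) := by rw [h2]; ring
      _ ≤ W * Y * Y := mul_le_mul_of_nonneg_left hY (by linarith)
  set D : ℝ → ℂ := fun y => (1 / (N : ℂ)) * ∑ m ∈ Ioc 0 N, ee (m * y) with hD
  have nD : ∀ y, ‖D y‖ = 1 / (N : ℝ) * ‖∑ m ∈ Ioc 0 N, ee (m * y)‖ := by
    intro y
    simp only [hD, norm_mul, norm_div, norm_one, Complex.norm_natCast]
  have nc : ∀ h : ℤ, ‖(q L p h : ℂ) * ee (-(h * (1 / W / 2)))‖ = q L p h := by
    intro h
    rw [norm_mul, hT.norm, mul_one, Complex.norm_real, Real.norm_of_nonneg (q_nonneg p0 h)]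
  refine ⟨⟨L, fun h => (q L p h : ℂ) * ee (-(h * (1 / W / 2))), q L p 0,
    fun x => ‖D (x - 1 / W / 2) ^ (r + 1)‖ ^ 2, fun x => ?_, fun x => sq_nonneg _, fun x => ?_, ?_,
    fun h => (nc h).trans_le (q_le L p h), ?_, ?_, ?_, ?_, ?_, fun x hx => ?_⟩⟩
  · have h1 := q_sum L p fun h : ℤ => ee (h * (x - 1 / W / 2))
    have h2 : ∀ h : ℤ, (q L p h : ℂ) * ee (-(h * (1 / W / 2))) * ee (h * x) =
        q L p h • ee (h * (x - 1 / W / 2)) := by
      intro h
      rw [Complex.real_smul, mul_assoc, ← hT.add]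
      refine congrArg _ (congrArg _ ?_)
      ring
    simp only [h2]
    rw [h1]
    push_cast
    rw [← Complex.mul_conj', ← pow_eval N (r + 1), map_sum, sum_mul_sum]
    refine sum_congr rfl fun a _ => sum_congr rfl fun b _ => ?_
    rw [map_mul, hT.conj, Complex.conj_ofReal, Complex.real_smul, mul_mul_mul_comm, ← hT.add]
    push_cast
    refine congrArg _ (congrArg _ ?_)
    ring
  · have h1 : ‖D (x - 1 / W / 2)‖ ≤ 1 := by
      rw [nD]
      have : ‖∑ m ∈ Ioc 0 N, ee (m * (x - 1 / W / 2))‖ ≤ N := by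
        refine (norm_sum_le _ _).trans ?_
        simp [hT.norm]
      rw [one_div, inv_mul_le_iff₀ N0]
      linarith
    rw [norm_pow]
    exact pow_le_one₀ (by positivity) (pow_le_one₀ (norm_nonneg _) h1)
  · simp [ee]
  · simp only [nc]
    have h1 := q_sum L p fun _ : ℤ => (1 : ℝ)
    simp only [smul_eq_mul, mul_one] at h1
    rw [h1, ← sum_mul_sum, p1, mul_one]
  · rw [e2]
    exact N1.trans L1
  · rw [e3]
    exact L2
  · have h1 := sq_sum_le_card_mul_sum_sq (s := range (L + 1)) (f := p)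
    rw [p1, ← q_zero, card_range] at h1
    have h2 : ((L + 1 : ℕ) : ℝ) ≤ W * Y * Y * Y := by
      have : 1 ≤ W * Y * Y := one_le_mul_of_one_le_of_one_le hWY hY1
      push_cast
      nlinarith
    rw [e4]
    have h3 := mul_le_mul_of_nonneg_right h2 (q_nonneg (L := L) p0 0)
    linarith
  · have h1 : q L p 0 ≤ 1 / (N : ℝ) := by
      rw [q_zero]
      calc ∑ a ∈ range (L + 1), p a ^ 2 ≤ ∑ a ∈ range (L + 1), p a * (1 / (N : ℝ)) :=
            sum_le_sum fun a _ => by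
              rw [sq]
              exact mul_le_mul_of_nonneg_left (pow_le N0' r a) (p0 a)
        _ = _ := by rw [← sum_mul, p1, one_mul]
    rw [e2]
    rw [le_div_iff₀ N0] at h1
    exact (mul_le_mul_of_nonneg_left N1 (q_nonneg p0 0)).trans h1
  · have h1 := far (x := x) ((div_le_one hW0).2 hW1) fun h => hx ⟨h.1, (lt_div_iff₀ hW0).1 h.2⟩
    have h2 := hT.geoN (x - 1 / W / 2) 0 N
    have h3 : ‖D (x - 1 / W / 2)‖ * Y ≤ 1 := by
      rw [nD]
      set S := ‖∑ m ∈ Ioc 0 N, ee (m * (x - 1 / W / 2))‖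
      have S0 : 0 ≤ S := norm_nonneg _
      have h4 : 1 / W / 2 * S ≤ 1 / 2 := (mul_le_mul_of_nonneg_right h1 S0).trans h2
      have h5 : S ≤ W := by
        have : 1 / W / 2 * S = S / W / 2 := by ring
        rw [this] at h4
        exact (div_le_one hW0).1 (by linarith)
      rw [one_div, mul_assoc, inv_mul_le_iff₀ N0]
      nlinarith
    have h6 : 2000 * Λ = (r + 1) * 2 := by omega
    rw [norm_pow, ← pow_mul, h6, ← mul_pow]
    exact pow_le_one₀ (by positivity) h3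

end Pool.Agent.Lib.AP
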