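import Pool.Agent.Lib.AP.Blue3
import Pool.Agent.Lib.AP.B_KER

/-! The detecting kernels with a divisibility condition on the integer part. -/

open Finset Classical Polynomial

noncomputable section

namespace Pool.Agent.Lib.AP

namespace KERD

open KERB

/-- the normalised Dirichlet sum -/
def DD (N : ℕ) (y : ℝ) : ℂ := (1 / (N : ℂ)) * ∑ m ∈ Ioc 0 N, ee (m * y)

theorem nD (N : ℕ) (y : ℝ) : ‖DD N y‖ = 1 / (N : ℝ) * ‖∑ m ∈ Ioc 0 N, ee (m * y)‖ := by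
  simp only [DD, norm_mul, norm_div, norm_one, Complex.norm_natCast]

theorem nD1 (hT : St_TOOL) {N : ℕ} (hN : 0 < N) (y : ℝ) : ‖DD N y‖ ≤ 1 := by
  have N0 : (0 : ℝ) < N := by exact_mod_cast hN
  rw [nD]
  have : ‖∑ m ∈ Ioc 0 N, ee (m * y)‖ ≤ N := by
    refine (norm_sum_le _ _).trans ?_
    simp [hT.norm]
  rw [one_div, inv_mul_le_iff₀ N0]
  linarith

theorem S_add (hT : St_TOOL) (a b : ℕ) (t : ℝ) : ∑ m ∈ Ioc 0 (a + b), ee (m * t) =
    ∑ m ∈ Ioc 0 a, ee (m * t) + ee (a * t) * ∑ m ∈ Ioc 0 b, ee (m * t) := by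
  induction b with
  | zero => simp
  | succ b ih =>
    rw [← add_assoc, sum_Ioc_succ_top (Nat.zero_le _), sum_Ioc_succ_top (Nat.zero_le _), ih,
      mul_add, ← hT.add, add_assoc]
    refine congrArg _ (congrArg _ (congrArg _ ?_))
    push_cast
    ring

theorem S_mul (hT : St_TOOL) (N d : ℕ) (t : ℝ) : (∑ m ∈ Ioc 0 (N * d), ee (m * t)) * ee (d * t) =
    (∑ m ∈ Ioc 0 N, ee (m * (d * t))) * ∑ m ∈ Ioc 0 d, ee (m * t) := by
  induction N with
  | zero => simp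
  | succ N ih =>
    have e : ee (((N * d : ℕ) : ℝ) * t) * ee (d * t) = ee (((N + 1 : ℕ) : ℝ) * (d * t)) := by
      rw [← hT.add]
      refine congrArg _ ?_
      push_cast
      ring
    rw [Nat.succ_mul, S_add hT, add_mul, ih, sum_Ioc_succ_top (Nat.zero_le _), add_mul, ← e]
    ring

theorem nD_mul (hT : St_TOOL) (N d : ℕ) (t : ℝ) :
    ‖DD (N * d) t‖ = ‖DD N (d * t)‖ * ‖DD d t‖ := by
  have h := congrArg norm (S_mul hT N d t)
  rw [norm_mul, norm_mul, hT.norm, mul_one] at h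
  rw [nD, nD, nD, h]
  push_cast
  ring

theorem far' (hT : St_TOOL) {N : ℕ} {V Y x : ℝ} (hV : 1 ≤ V) (hY : 0 < Y) (hN : V * Y ≤ N)
    (hx : ¬ (0 < Int.fract x ∧ Int.fract x * V < 1)) : ‖DD N (x - 1 / V / 2)‖ * Y ≤ 1 := by
  have V0 : 0 < V := by linarith
  have N0 : (0 : ℝ) < N := (mul_pos V0 hY).trans_le hN
  have h1 := far (x := x) ((div_le_one V0).2 hV) fun h => hx ⟨h.1, (lt_div_iff₀ V0).1 h.2⟩
  have h2 := hT.geoN (x - 1 / V / 2) 0 N
  rw [nD]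
  set S := ‖∑ m ∈ Ioc 0 N, ee (m * (x - 1 / V / 2))‖
  have S0 : 0 ≤ S := norm_nonneg _
  have h4 : 1 / V / 2 * S ≤ 1 / 2 := (mul_le_mul_of_nonneg_right h1 S0).trans h2
  have h5 : S ≤ V := by
    have : 1 / V / 2 * S = S / V / 2 := by ring
    rw [this] at h4
    exact (div_le_one V0).1 (by linarith)
  rw [one_div, mul_assoc, inv_mul_le_iff₀ N0]
  nlinarith

theorem big (Λ : ℕ) (Y : ℝ) (hB : Big Λ Y) : ((2000 * Λ : ℕ) : ℝ) ^ 3 ≤ Y := by
  have hΛ := hB.lam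
  refine le_trans ?_ hB.two
  have h1 : 2000 * Λ ≤ 2 ^ (100 * Λ) := by
    calc 2000 * Λ ≤ 2 ^ 11 * 2 ^ Λ := Nat.mul_le_mul (by norm_num) Nat.lt_two_pow_self.le
      _ = 2 ^ (11 + Λ) := (pow_add _ _ _).symm
      _ ≤ 2 ^ (100 * Λ) := Nat.pow_le_pow_right (by norm_num) (by omega)
  have h2 : (2000 * Λ) ^ 3 ≤ 2 ^ (300 * Λ) := by
    rw [show 300 * Λ = 100 * Λ * 3 by ring, pow_mul]
    exact Nat.pow_le_pow_left h1 3
  exact_mod_cast h2

theorem mk (hT : St_TOOL) {Λ : ℕ} {Y : ℝ} (hB : Big Λ Y) {N d : ℕ} (hd : 1 ≤ d)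
    (hY : ((2000 * Λ : ℕ) : ℝ) * d ≤ Y) (N1 : Y ^ (90 * Λ + 1) * Y ≤ N)
    (N2 : (N : ℝ) ≤ 2 * (Y ^ (90 * Λ + 1) * Y)) : ∃ K : Ker Λ Y, K.H = 1000 * Λ * (N * d) ∧
      ∀ x, K.g x = ‖DD (N * d) (x - 1 / (Y ^ (90 * Λ + 1) * d) / 2)‖ ^ (2000 * Λ) := by
  have hΛ := hB.lam
  have d1 : (1 : ℝ) ≤ d := by exact_mod_cast hd
  have hY2 : (2 : ℝ) ≤ Y := by
    have : (2 : ℝ) ≤ (2000 * Λ : ℕ) := by exact_mod_cast (by omega : 2 ≤ 2000 * Λ)
    nlinarith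
  have hY0 : 0 < Y := by linarith
  have hY1 : 1 ≤ Y := by linarith
  obtain ⟨r, hr⟩ : ∃ r, 1000 * Λ = r + 1 := ⟨1000 * Λ - 1, by omega⟩
  set W := Y ^ (90 * Λ + 1) with hW
  have hW1 : 1 ≤ W := one_le_pow₀ hY1
  have hW0 : 0 < W := by linarith
  have e2 : Y ^ (90 * Λ + 2) = W * Y := pow_succ _ _
  have e3 : Y ^ (90 * Λ + 3) = W * Y * Y := by rw [← e2]; exact pow_succ _ _
  have e4 : Y ^ (90 * Λ + 4) = W * Y * Y * Y := by rw [← e3]; exact pow_succ _ _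
  have hWY : 1 ≤ W * Y := one_le_mul_of_one_le_of_one_le hW1 hY1
  have N0 : (0 : ℝ) < N := by linarith
  set M := N * d with hM
  have Mc : (M : ℝ) = N * d := by rw [hM]; push_cast; ring
  have M1 : (N : ℝ) ≤ M := by rw [Mc]; nlinarith
  have M0 : (0 : ℝ) < M := by linarith
  have M0' : 0 < M := by exact_mod_cast M0
  set V := W * d with hV
  have V1 : W ≤ V := by rw [hV]; nlinarith
  set L := (r + 1) * M with hL
  set p : ℕ → ℝ := fun a => (U M ^ (r + 1)).coeff a with hp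
  have p0 : ∀ a, 0 ≤ p a := pow_nonneg' M (r + 1)
  have p1 : ∑ a ∈ range (L + 1), p a = 1 := pow_sum M0' (r + 1)
  have L1 : (M : ℝ) ≤ L := by exact_mod_cast Nat.le_mul_of_pos_left M (Nat.succ_pos r)
  have L2 : (L : ℝ) ≤ W * Y * Y := by
    have h1 : (L : ℝ) = (1000 * Λ : ℕ) * d * N := by rw [hr, hL, hM]; push_cast; ring
    have h2 : ((2000 * Λ : ℕ) : ℝ) = 2 * (1000 * Λ : ℕ) := by push_cast; ring
    have h3 : (0 : ℝ) ≤ (1000 * Λ : ℕ) * d := by positivity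
    rw [h1]
    calc ((1000 * Λ : ℕ) : ℝ) * d * N ≤ (1000 * Λ : ℕ) * d * (2 * (W * Y)) :=
          mul_le_mul_of_nonneg_left N2 h3
      _ = W * Y * ((2000 * Λ : ℕ) * d) := by rw [h2]; ring
      _ ≤ W * Y * Y := mul_le_mul_of_nonneg_left hY (by linarith)
  have nc : ∀ h : ℤ, ‖(q L p h : ℂ) * ee (-(h * (1 / V / 2)))‖ = q L p h := by
    intro h
    rw [norm_mul, hT.norm, mul_one, Complex.norm_real, Real.norm_of_nonneg (q_nonneg p0 h)]
  have h6 : 2000 * Λ = (r + 1) * 2 := by omega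
  refine ⟨⟨L, fun h => (q L p h : ℂ) * ee (-(h * (1 / V / 2))), q L p 0,
    fun x => ‖DD M (x - 1 / V / 2) ^ (r + 1)‖ ^ 2, fun x => ?_, fun x => sq_nonneg _, fun x => ?_,
    ?_, fun h => (nc h).trans_le (q_le L p h), ?_, ?_, ?_, ?_, ?_, fun x hx => ?_⟩, ?_,
    fun x => ?_⟩
  · have h1 := q_sum L p fun h : ℤ => ee (h * (x - 1 / V / 2))
    have h2 : ∀ h : ℤ, (q L p h : ℂ) * ee (-(h * (1 / V / 2))) * ee (h * x) =
        q L p h • ee (h * (x - 1 / V / 2)) := by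
      intro h
      rw [Complex.real_smul, mul_assoc, ← hT.add]
      refine congrArg _ (congrArg _ ?_)
      ring
    simp only [h2]
    rw [h1]
    push_cast
    rw [← Complex.mul_conj', DD, ← pow_eval M (r + 1), map_sum, sum_mul_sum]
    refine sum_congr rfl fun a _ => sum_congr rfl fun b _ => ?_
    rw [map_mul, hT.conj, Complex.conj_ofReal, Complex.real_smul, mul_mul_mul_comm, ← hT.add]
    push_cast
    refine congrArg _ (congrArg _ ?_)
    ring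
  · rw [norm_pow]
    exact pow_le_one₀ (by positivity) (pow_le_one₀ (norm_nonneg _) (nD1 hT M0' _))
  · simp [ee]
  · simp only [nc]
    have h1 := q_sum L p fun _ : ℤ => (1 : ℝ)
    simp only [smul_eq_mul, mul_one] at h1
    rw [h1, ← sum_mul_sum, p1, mul_one]
  · rw [e2]
    exact N1.trans (M1.trans L1)
  · rw [e3]
    exact L2
  · have h1 := sq_sum_le_card_mul_sum_sq (s := range (L + 1)) (f := p)
    rw [p1, ← q_zero, card_range] at h1
    have h2 : ((L + 1 : ℕ) : ℝ) ≤ W * Y * Y * Y := by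
      have : 1 ≤ W * Y * Y := one_le_mul_of_one_le_of_one_le hWY hY1
      push_cast
      nlinarith
    rw [e4]
    have h3 := mul_le_mul_of_nonneg_right h2 (q_nonneg (L := L) p0 0)
    linarith
  · have h1 : q L p 0 ≤ 1 / (M : ℝ) := by
      rw [q_zero]
      calc ∑ a ∈ range (L + 1), p a ^ 2 ≤ ∑ a ∈ range (L + 1), p a * (1 / (M : ℝ)) :=
            sum_le_sum fun a _ => by
              rw [sq]
              exact mul_le_mul_of_nonneg_left (pow_le M0' r a) (p0 a)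
        _ = _ := by rw [← sum_mul, p1, one_mul]
    rw [e2]
    rw [le_div_iff₀ M0] at h1
    exact (mul_le_mul_of_nonneg_left (N1.trans M1) (q_nonneg p0 0)).trans h1
  · have h3 : ‖DD M (x - 1 / V / 2)‖ * Y ≤ 1 := by
      refine far' hT (hW1.trans V1) hY0 ?_ fun h => hx ⟨h.1, ?_⟩
      · rw [Mc, hV]
        nlinarith
      · exact (mul_le_mul_of_nonneg_left V1 h.1.le).trans_lt h.2
    rw [norm_pow, ← pow_mul, h6, ← mul_pow]
    exact pow_le_one₀ (by positivity) h3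
  · rw [hr]
  · simp only
    rw [norm_pow, ← pow_mul, h6]

/-- the mean of a kernel over a fine grid -/
theorem mean (hT : St_TOOL) {Λ : ℕ} {Y : ℝ} (K : Ker Λ Y) {c : ℕ} (hc : K.H < c) :
    ∑ k ∈ Ioc (-1 : ℤ) (-1 + c), K.g (k / c) = c * K.η := by
  have c0 : 0 < c := by omega
  have h : ((∑ k ∈ Ioc (-1 : ℤ) (-1 + c), K.g (k / c) : ℝ) : ℂ) = ((c * K.η : ℝ) : ℂ) := by
    push_cast
    simp only [K.hg]
    rw [sum_comm, ← K.c0]
    have h1 : ∀ h ∈ Icc (-(K.H : ℤ)) K.H, ∑ k ∈ Ioc (-1 : ℤ) (-1 + c),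
        K.c h * ee (h * ((k : ℝ) / c)) = if h = 0 then c * K.c 0 else 0 := by
      intro h hh
      have e : ∀ k : ℤ, (h : ℝ) * ((k : ℝ) / c) = k * h / c := fun k => by ring
      simp only [e]
      rw [← mul_sum, hT.orth c (-1) h c0]
      have := mem_Icc.1 hh
      by_cases h0 : h = 0
      · subst h0
        simp [mul_comm]
      · rw [if_neg h0, if_neg, mul_zero]
        exact fun hd => h0 (Int.eq_zero_of_dvd_of_natAbs_lt_natAbs hd (by omega))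
    rw [sum_congr rfl h1, sum_ite_eq', if_pos (by simp)]
  exact_mod_cast h

theorem ee_sub (θ : ℝ) : ‖ee θ - 1‖ ≤ 2 * Real.pi * |θ| := by
  have h := Real.norm_exp_I_mul_ofReal_sub_one_le (x := 2 * Real.pi * θ)
  have e : ee θ = Complex.exp (Complex.I * ((2 * Real.pi * θ : ℝ) : ℂ)) := by
    rw [ee]
    refine congrArg _ ?_
    push_cast
    ring
  rw [e]
  refine h.trans_eq ?_
  rw [Real.norm_eq_abs, abs_mul, abs_of_pos Real.two_pi_pos]

theorem ee_re (θ : ℝ) : 1 - 32 * θ ^ 2 ≤ (ee θ).re := by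
  have e : ee θ = Complex.exp (((2 * Real.pi * θ : ℝ) : ℂ) * Complex.I) := by
    rw [ee]
    refine congrArg _ ?_
    push_cast
    ring
  rw [e, Complex.exp_ofReal_mul_I_re]
  refine le_trans ?_ Real.one_sub_sq_div_two_le_cos
  have h1 : Real.pi ^ 2 ≤ 16 := by nlinarith [Real.pi_pos, Real.pi_le_four]
  have h2 := mul_le_mul_of_nonneg_right h1 (sq_nonneg θ)
  nlinarith

theorem frac_le {d m : ℕ} (hm : m ∈ Ioc 0 d) (u : ℝ) : |m * (u / d)| ≤ |u| := by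
  have h := mem_Ioc.1 hm
  have d0 : (0 : ℝ) < d := by exact_mod_cast h.1.trans_le h.2
  have h2 : (m : ℝ) ≤ d := by exact_mod_cast h.2
  have e : m * (u / d) = m / d * u := by ring
  rw [e, abs_mul, abs_of_nonneg (by positivity : (0 : ℝ) ≤ m / d)]
  exact mul_le_of_le_one_left (abs_nonneg _) ((div_le_one d0).2 h2)

theorem near_dvd (hT : St_TOOL) {d : ℕ} (hd : 0 < d) {n : ℤ} (hn : (d : ℤ) ∣ n) (u : ℝ) :
    1 - 32 * u ^ 2 ≤ ‖DD d ((n + u) / d)‖ := by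
  obtain ⟨k, rfl⟩ := hn
  have d0 : (0 : ℝ) < d := by exact_mod_cast hd
  have e : ∀ m : ℕ, ee (m * ((((d * k : ℤ) : ℝ) + u) / d)) = ee (m * (u / d)) := by
    intro m
    have : (m : ℝ) * ((((d * k : ℤ) : ℝ) + u) / d) = ((m * k : ℤ) : ℝ) + m * (u / d) := by
      push_cast
      field_simp
    rw [this, hT.add, hT.int, one_mul]
  rw [nD]
  simp only [e]
  rw [one_div, le_inv_mul_iff₀ d0]
  refine le_trans ?_ (Complex.re_le_norm _)
  rw [Complex.re_sum]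
  have h1 : ∀ m ∈ Ioc 0 d, 1 - 32 * u ^ 2 ≤ (ee (m * (u / d))).re := by
    intro m hm
    refine le_trans ?_ (ee_re _)
    have := sq_le_sq.2 (frac_le hm u)
    linarith
  refine le_trans (le_of_eq ?_) (sum_le_sum h1)
  rw [sum_const, Nat.card_Ioc, Nat.sub_zero, nsmul_eq_mul]

theorem near_not (hT : St_TOOL) {d : ℕ} (hd : 0 < d) {n : ℤ} (hn : ¬ (d : ℤ) ∣ n) (u : ℝ) :
    ‖DD d ((n + u) / d)‖ ≤ 8 * |u| := by
  have d0 : (0 : ℝ) < d := by exact_mod_cast hd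
  have h0 : ∑ m ∈ Ioc 0 d, ee ((m : ℕ) * (n : ℝ) / d) = 0 := by
    have h := hT.orth d 0 n hd
    rw [if_neg hn, zero_add] at h
    rw [← h]
    refine sum_nbij (fun m : ℕ => (m : ℤ)) (fun m hm => ?_) (fun a _ b _ e => Nat.cast_injective e)
      (fun m hm => ?_) fun m _ => by simp
    · have := mem_Ioc.1 hm
      rw [mem_Ioc]
      omega
    · have := mem_Ioc.1 (mem_coe.1 hm)
      exact ⟨m.toNat, mem_coe.2 (mem_Ioc.2 (by omega)), by simp only; omega⟩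
  have e : ∑ m ∈ Ioc 0 d, ee ((m : ℕ) * ((n + u) / d)) =
      ∑ m ∈ Ioc 0 d, ee ((m : ℕ) * (n : ℝ) / d) * (ee (m * (u / d)) - 1) := by
    simp only [mul_sub, mul_one]
    rw [sum_sub_distrib, h0, sub_zero]
    refine sum_congr rfl fun m _ => ?_
    rw [← hT.add]
    refine congrArg _ ?_
    ring
  rw [nD, e, one_div, inv_mul_le_iff₀ d0]
  refine (norm_sum_le _ _).trans ?_
  have h1 : ∀ m ∈ Ioc 0 d, ‖ee ((m : ℕ) * (n : ℝ) / d) * (ee (m * (u / d)) - 1)‖ ≤ 8 * |u| := by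
    intro m hm
    rw [norm_mul, hT.norm, one_mul]
    refine (ee_sub _).trans ?_
    exact mul_le_mul (by linarith [Real.pi_le_four]) (frac_le hm u) (abs_nonneg _) (by norm_num)
  refine (sum_le_sum h1).trans_eq ?_
  simp

theorem num0 {A Y Z W f : ℝ} (A1 : 200 ≤ A) (AY : A ≤ Y) (Z0 : 0 < Z) (W0 : 0 < W)
    (ZW : W ^ 2 = Z * Y ^ 2) (f0 : 0 < f) (f1 : f * W < 1) :
    A * (64 * ((f - 1 / W / 2) ^ 2 * Z)) ≤ 1 := by
  set u := f - 1 / W / 2 with hu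
  have u1 : |u| * W ≤ 1 / 2 := by
    have h1 : u * W = f * W - 1 / 2 := by rw [hu]; field_simp
    have h2 := mul_pos f0 W0
    rw [← abs_of_pos W0, ← abs_mul, h1, abs_le]
    constructor <;> linarith
  have u2 : u ^ 2 * Z * Y ^ 2 ≤ 1 / 4 := by
    have h1 := pow_le_pow_left₀ (by positivity) u1 2
    rw [mul_pow, sq_abs, ZW] at h1
    linarith
  have u0 : 0 ≤ u ^ 2 * Z := by positivity
  have h1 : A * 200 ≤ Y ^ 2 := by nlinarith
  nlinarith [mul_le_mul_of_nonneg_left h1 u0]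

theorem num1 {n : ℕ} {a b u Z : ℝ} (a0 : 0 ≤ a) (a1 : a ≤ 1) (b0 : 0 ≤ b) (b1 : b ≤ 1)
    (Z0 : 0 < Z) (u3 : n * (64 * (u ^ 2 * Z)) ≤ 1) (h1 : 1 - 32 * u ^ 2 ≤ b) :
    |a * b ^ n - a| * Z ≤ 1 := by
  have p1 : b ^ n ≤ 1 := pow_le_one₀ b0 b1
  have n0 : (0 : ℝ) ≤ n := Nat.cast_nonneg _
  have h2 := one_add_mul_le_pow (a := b - 1) (by linarith) n
  rw [add_sub_cancel] at h2
  have h3 : 1 - b ^ n ≤ n * (32 * u ^ 2) := by nlinarith
  have h5 := mul_le_mul_of_nonneg_left p1 a0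
  rw [abs_of_nonpos (by linarith)]
  have h4 : -(a * b ^ n - a) ≤ n * (32 * u ^ 2) := by nlinarith
  have h6 : 0 ≤ n * (u ^ 2 * Z) := by positivity
  nlinarith [mul_le_mul_of_nonneg_right h4 Z0.le]

theorem num2 {n : ℕ} {a b u Z : ℝ} (a0 : 0 ≤ a) (a1 : a ≤ 1) (b0 : 0 ≤ b) (b1 : b ≤ 1)
    (Z0 : 0 < Z) (hn : 2 ≤ n) (u3 : n * (64 * (u ^ 2 * Z)) ≤ 1) (h1 : b ≤ 8 * |u|) :
    |a * b ^ n - 0| * Z ≤ 1 := by
  have p0 : 0 ≤ b ^ n := pow_nonneg b0 _
  have n2 : (2 : ℝ) ≤ n := by exact_mod_cast hn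
  have h2 : b ^ n ≤ b ^ 2 := pow_le_pow_of_le_one b0 b1 hn
  have h3 := pow_le_pow_left₀ b0 h1 2
  rw [mul_pow, sq_abs] at h3
  rw [sub_zero, abs_of_nonneg (by positivity)]
  have h4 : a * b ^ n ≤ 64 * u ^ 2 := by nlinarith
  have h6 : 0 ≤ u ^ 2 * Z := by positivity
  nlinarith [mul_le_mul_of_nonneg_right h4 Z0.le]

end KERD

open KERB KERD in
theorem st_KERD (hT : St_TOOL) : St_KERD := by
  intro Λ Y hB
  have hΛ := hB.lam
  have hb := big Λ Y hB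
  set A : ℝ := ((2000 * Λ : ℕ) : ℝ) with hA
  have A1 : (200 : ℝ) ≤ A := by rw [hA]; exact_mod_cast (by omega : 200 ≤ 2000 * Λ)
  have AY : A ≤ Y := (le_self_pow₀ (by linarith) (by norm_num)).trans hb
  have hY1 : 1 ≤ Y := by linarith
  have hY0 : 0 < Y := by linarith
  set W := Y ^ (90 * Λ + 1) with hW
  have hW1 : 1 ≤ W := one_le_pow₀ hY1
  have hW0 : 0 < W := by linarith
  have hWY : 1 ≤ W * Y := one_le_mul_of_one_le_of_one_le hW1 hY1
  set N := ⌈W * Y⌉₊ with hN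
  have N1 : W * Y ≤ N := Nat.le_ceil _
  have N2 : (N : ℝ) ≤ 2 * (W * Y) := by
    have := Nat.ceil_lt_add_one (show 0 ≤ W * Y by linarith)
    linarith
  have N0 : 0 < N := by exact_mod_cast (by linarith : (0 : ℝ) < N)
  have hd : ∀ d : ℕ, (d : ℝ) ^ 3 ≤ Y → A * d ≤ Y := by
    intro d h
    refine le_of_pow_le_pow_left₀ (n := 3) (by norm_num) hY0.le ?_
    rw [mul_pow]
    have h1 := mul_le_mul hb h (by positivity) hY0.le
    nlinarith [mul_pos hY0 hY0]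
  have hK : ∀ d : ℕ, ∃ K : Ker Λ Y, 1 ≤ d → (d : ℝ) ^ 3 ≤ Y → K.H = 1000 * Λ * (N * d) ∧
      ∀ x, K.g x = ‖DD (N * d) (x - 1 / (W * d) / 2)‖ ^ (2000 * Λ) := by
    intro d
    by_cases h : 1 ≤ d ∧ (d : ℝ) ^ 3 ≤ Y
    · obtain ⟨K, hK⟩ := mk hT hB h.1 (hd d h.2) N1 N2
      exact ⟨K, fun _ _ => hK⟩
    · obtain ⟨K, -⟩ := mk hT hB le_rfl (hd 1 (by simpa using hY1)) N1 N2
      exact ⟨K, fun h1 h2 => absurd ⟨h1, h2⟩ h⟩
  choose K hK using hK
  refine ⟨K, fun d d1 d3 => ?_⟩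
  obtain ⟨H1, g1⟩ := hK 1 le_rfl (by simpa using hY1)
  obtain ⟨Hd, gd⟩ := hK d d1 d3
  simp only [mul_one, Nat.cast_one] at H1 g1
  have d0 : (0 : ℝ) < d := by exact_mod_cast d1
  set Z := Y ^ (180 * Λ) with hZ
  have Z0 : 0 < Z := pow_pos hY0 _
  have ZW : W ^ 2 = Z * Y ^ 2 := by rw [hW, hZ]; ring
  have key : ∀ x : ℝ,
      |(K d).g (x / d) - (if (d : ℤ) ∣ ⌊x⌋ then (K 1).g x else 0)| * Z ≤ 1 := by
    intro x
    set u := Int.fract x - 1 / W / 2 with hu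
    have e1 : x / d - 1 / (W * d) / 2 = (⌊x⌋ + u) / d := by
      rw [hu, Int.fract]
      field_simp
      ring
    have e2 : d * ((⌊x⌋ + u) / d) = x - 1 / W / 2 := by
      rw [hu, Int.fract]
      field_simp
      ring
    set b := ‖DD d ((⌊x⌋ + u) / d)‖ with hb'
    have b0 : 0 ≤ b := norm_nonneg _
    have b1 : b ≤ 1 := nD1 hT d1 _
    have p0 : 0 ≤ b ^ (2000 * Λ) := pow_nonneg b0 _
    have p1 : b ^ (2000 * Λ) ≤ 1 := pow_le_one₀ b0 b1
    have e : (K d).g (x / d) = (K 1).g x * b ^ (2000 * Λ) := by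
      rw [gd, g1, e1, nD_mul hT, e2, mul_pow]
    have a0 := (K 1).g0 x
    have a1 := (K 1).g1 x
    rw [e]
    by_cases hx : 0 < Int.fract x ∧ Int.fract x * W < 1
    · have u3 := num0 A1 AY Z0 hW0 ZW hx.1 hx.2
      split_ifs with hn
      · exact num1 a0 a1 b0 b1 Z0 u3 (near_dvd hT d1 hn u)
      · exact num2 a0 a1 b0 b1 Z0 (by omega) u3 (near_not hT d1 hn u)
    · have h1 := (K 1).off x hx
      have h2 : Z ≤ Y ^ (2000 * Λ) := pow_le_pow_right₀ hY1 (by omega)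
      have h3 : (K 1).g x * Z ≤ 1 := (mul_le_mul_of_nonneg_left h2 a0).trans h1
      refine (mul_le_mul_of_nonneg_right ?_ Z0.le).trans h3
      have h4 := mul_le_mul_of_nonneg_left p1 a0
      have h5 := mul_nonneg a0 p0
      rw [abs_le]
      split_ifs <;> constructor <;> linarith
  refine ⟨key, ?_⟩
  set Q := 1000 * Λ * N + 1 with hQ
  have Q0 : 0 < Q := Nat.succ_pos _
  have Q0' : (0 : ℝ) < Q := by exact_mod_cast Q0
  have m1 := mean hT (K 1) (c := Q) (by omega)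
  have md := mean hT (K d) (c := d * Q) (by rw [Hd, hQ]; nlinarith)
  have s1 : ∑ k ∈ Ioc (-1 : ℤ) (-1 + (d * Q : ℕ)),
      (if (d : ℤ) ∣ ⌊(k : ℝ) / Q⌋ then (K 1).g (k / Q) else 0) = Q * (K 1).η := by
    rw [← m1, ← sum_filter]
    refine sum_congr ?_ fun _ _ => rfl
    ext k
    have Qz : (0 : ℤ) < Q := by exact_mod_cast Q0
    have dz : (1 : ℤ) ≤ d := by exact_mod_cast d1
    rw [mem_filter, mem_Ioc, mem_Ioc, Int.floor_div_natCast, Int.floor_intCast]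
    push_cast
    constructor
    · rintro ⟨⟨h1, h2⟩, h3⟩
      have h4 : k / Q < d := (Int.ediv_lt_iff_lt_mul Qz).2 (by omega)
      have h5 := Int.eq_zero_of_dvd_of_nonneg_of_lt (Int.ediv_nonneg (by omega) Qz.le) h4 h3
      have h6 : k < 1 * Q := (Int.ediv_lt_iff_lt_mul Qz).1 (by omega)
      exact ⟨h1, by omega⟩
    · rintro ⟨h1, h2⟩
      refine ⟨⟨h1, by nlinarith⟩, ?_⟩
      rw [Int.ediv_eq_zero_of_lt (by omega) (by omega)]
      exact dvd_zero _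
  have e : (K d).η - (K 1).η / d = (∑ k ∈ Ioc (-1 : ℤ) (-1 + (d * Q : ℕ)),
      ((K d).g ((k : ℝ) / Q / d) -
        if (d : ℤ) ∣ ⌊(k : ℝ) / Q⌋ then (K 1).g (k / Q) else 0)) / (d * Q) := by
    have e1 : ∀ k : ℤ, (k : ℝ) / Q / d = k / ((d * Q : ℕ) : ℝ) := by
      intro k
      push_cast
      field_simp
    simp only [e1]
    rw [sum_sub_distrib, s1, md]
    push_cast
    field_simp
  have dQ : (0 : ℝ) < d * Q := mul_pos d0 Q0'
  rw [e, abs_div, abs_of_pos dQ, div_mul_eq_mul_div, div_le_one dQ]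
  refine (mul_le_mul_of_nonneg_right (abs_sum_le_sum_abs _ _) Z0.le).trans ?_
  rw [sum_mul]
  refine (sum_le_sum fun (k : ℤ) _ => key ((k : ℝ) / Q)).trans_eq ?_
  rw [sum_const, Int.card_Ioc, add_sub_cancel_left, Int.toNat_natCast, nsmul_eq_mul, mul_one,
    Nat.cast_mul]

end Pool.Agent.Lib.AP
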