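import Pool.Agent.Lib.AP.Blue3
import Pool.Agent.Lib.AP.B_SLAB

/-! The total logarithmic mass of the rough integers is bounded. -/

open Finset Classical Filter

noncomputable section

namespace Pool.Agent.Lib.AP

open SLAB in
theorem RM.mass (hM : St_MER) (Λ : ℕ) (hΛ : 100000 ≤ Λ) : ∀ᶠ Y : ℝ in atTop,
    ∑ n ∈ Ioc (X0 Λ Y) (X1 Λ Y), (if rough Λ Y n then (1 : ℝ) / n else 0) ≤ 31 ^ 31 := by
  filter_upwards [hM 1 one_pos, eventually_gt_atTop (1 : ℝ)] with Y hMY hY
  have hΛR : (100000 : ℝ) ≤ Λ := by exact_mod_cast hΛ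
  have hY0 : 0 < Y := by linarith
  have hlb : ∀ m : ℕ, Real.logb Y (Y ^ m) = m := fun m => by
    rw [Real.logb_pow, Real.logb_self_eq_one hY, mul_one]
  rw [← sum_filter]
  set P := (range (X1 Λ Y + 1)).filter fun p : ℕ => p.Prime ∧ Y ^ (9 * Λ) < (p : ℝ) with hP
  have hPm : ∀ p ∈ P, p.Prime ∧ (9 * Λ : ℝ) < Real.logb Y p ∧
      Real.logb Y p ≤ 9 * Λ + (261 * Λ + 1) := fun p hp => by
    rw [hP, mem_filter, mem_range] at hp
    have hp0 : (0 : ℝ) < p := by exact_mod_cast hp.2.1.pos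
    refine ⟨hp.2.1, ?_, ?_⟩
    · have := Real.logb_lt_logb hY (by positivity) hp.2.2
      rw [hlb] at this
      exact_mod_cast this
    · have h1 : (p : ℝ) ≤ Y ^ (270 * Λ + 1) :=
        (Nat.cast_le.2 (Nat.lt_succ_iff.1 hp.1)).trans (Nat.floor_le (by positivity))
      have := Real.logb_le_logb_of_le hY hp0 h1
      rw [hlb] at this
      push_cast at this
      linarith
  have hS : ∑ p ∈ P, (1 : ℝ) / p ≤ 31 := by
    have h1 := win hY hMY P (a := 9 * Λ) (w := 261 * Λ + 1) (L := 9 * Λ) (by linarith)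
      (by positivity) le_rfl hPm
    have h2 : (261 * (Λ : ℝ) + 1) / (9 * Λ) ≤ 30 := by
      rw [div_le_iff₀ (by positivity)]; linarith
    linarith
  have hS0 : 0 ≤ ∑ p ∈ P, (1 : ℝ) / p := sum_nonneg fun p _ => by positivity
  have hcov : ∀ n ∈ (Ioc (X0 Λ Y) (X1 Λ Y)).filter (rough Λ Y),
      ∃ t ∈ (range 31).sigma fun j => LL P j, t.2.prod = n := fun n hn => by
    rw [mem_filter] at hn
    obtain ⟨hn1, hr⟩ := hn
    have hn0 : n ≠ 0 := by have := (mem_Ioc.1 hn1).1; omega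
    have hall : ∀ p ∈ n.primeFactorsList, p ∈ P := fun p hp => by
      have hpp := Nat.prime_of_mem_primeFactorsList hp
      have hd := Nat.dvd_of_mem_primeFactorsList hp
      rw [hP, mem_filter, mem_range]
      refine ⟨?_, hpp, ?_⟩
      · have := Nat.le_of_dvd (by omega) hd
        have := (mem_Ioc.1 hn1).2
        omega
      · have h1 := hr p hpp hd
        have h2 : Y ^ (9 * Λ) * Y ^ 1200 ≤ Y ^ (10 * Λ) := by
          rw [← pow_add]
          exact pow_le_pow_right₀ hY.le (by omega)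
        exact lt_of_mul_lt_mul_right (h2.trans_lt h1) (by positivity)
    refine ⟨⟨n.primeFactorsList.length, n.primeFactorsList⟩, ?_, Nat.prod_primeFactorsList hn0⟩
    rw [mem_sigma, mem_range]
    refine ⟨?_, mem_LL P _ hall⟩
    have h1 := len_le (Λ := Λ) hY n.primeFactorsList fun p hp => by
      have := hall p hp
      rw [hP, mem_filter] at this
      exact this.2.2.le
    rw [Nat.prod_primeFactorsList hn0] at h1
    have h2 : (n : ℝ) ≤ Y ^ (270 * Λ + 1) :=
      (Nat.cast_le.2 (mem_Ioc.1 hn1).2).trans (Nat.floor_le (by positivity))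
    have h3 := (pow_le_pow_iff_right₀ hY).1 (h1.trans h2)
    by_contra h4
    have h5 : 9 * Λ * 31 ≤ 9 * Λ * n.primeFactorsList.length :=
      Nat.mul_le_mul_left _ (by simpa using h4)
    omega
  refine (cover _ (fun t : (_ : ℕ) × List ℕ => t.2.prod) _ (fun n : ℕ => (1 : ℝ) / n)
    (fun n => by positivity) hcov).trans ?_
  rw [sum_sigma]
  calc ∑ j ∈ range 31, ∑ l ∈ LL P j, (1 : ℝ) / (l.prod : ℕ) ≤ ∑ j ∈ range 31, (31 : ℝ) ^ 30 := by
        refine sum_le_sum fun j hj => ?_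
        rw [sum_LL]
        exact (pow_le_pow_left₀ hS0 hS j).trans
          (pow_le_pow_right₀ (by norm_num) (by have := mem_range.1 hj; omega))
    _ = 31 ^ 31 := by rw [sum_const, card_range, nsmul_eq_mul]; norm_num

theorem st_RM (hM : St_MER) : St_RM := ⟨31 ^ 31, RM.mass hM⟩

end Pool.Agent.Lib.AP
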