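import Pool.Agent.Lib.AP.All0
import Pool.Agent.Lib.AP.B_CORE2
import Pool.Agent.Lib.AP.B_EVR
import Pool.Agent.Lib.AP.B_FIN2
import Pool.Agent.Lib.AP.B_KERD
import Pool.Agent.Lib.AP.B_RM

/-! Assembly of the almost prime form, up to the numerical bound for the loss. -/

namespace Pool.Agent.Lib.AP

theorem fin2_of_NUM (hN : St_NUM) : St_FIN2 :=
  st_FIN2 (st_CORE2 (main_of_NUM hN) all_EVA all_EVC (st_EVR all_PEEL) all_RHO (st_KERD st_TOOL)
    (st_RM st_MER) all_BIG)

end Pool.Agent.Lib.AP
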