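import Pool.Agent.Lib.AP.Blue

/-! Block B2: the direct use of the bound for incomplete Kloosterman sums. -/

open Finset Classical

noncomputable section

namespace Pool.Agent.Lib.AP

namespace B261

theorem gcd_sum (hG : St_GCD) {Λ : ℕ} {Y N1 : ℝ} (hB : Big Λ Y) (hY : 1 ≤ Y) (hN : 0 < N1)
    {S : Finset ℕ} (hS : ∀ n ∈ S, N1 ≤ n ∧ n ≤ 4 * N1) {k t : ℤ}
    (hk : k ≠ 0 ∧ |(k : ℝ)| ≤ Y ^ (300 * Λ)) (ht : t ≠ 0 ∧ |(t : ℝ)| ≤ Y ^ (300 * Λ)) :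
    ∑ n ∈ S, √(Int.gcd (-(k * t)) n : ℝ) ≤ 4 * N1 * Y := by
  have h0 : (k * t).natAbs ≠ 0 := Int.natAbs_ne_zero.2 (mul_ne_zero hk.1 ht.1)
  have h1 := hG.one _ ⌊4 * N1⌋₊ h0
  have h2 : (((k * t).natAbs : ℕ) : ℝ) ≤ Y ^ (2000 * Λ) := by
    rw [Nat.cast_natAbs, Int.cast_abs, Int.cast_mul, abs_mul]
    calc |(k : ℝ)| * |(t : ℝ)| ≤ Y ^ (300 * Λ) * Y ^ (300 * Λ) :=
          mul_le_mul hk.2 ht.2 (abs_nonneg _) (by positivity)
      _ = Y ^ (300 * Λ + 300 * Λ) := (pow_add _ _ _).symm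
      _ ≤ _ := pow_le_pow_right₀ hY (by omega)
  have h3 := hB.div _ h2
  calc ∑ n ∈ S, √(Int.gcd (-(k * t)) n : ℝ) ≤ ∑ n ∈ S, (Nat.gcd (k * t).natAbs n : ℝ) := by
        refine sum_le_sum fun n _ => ?_
        have e : Int.gcd (-(k * t)) n = Nat.gcd (k * t).natAbs n := by
          rw [Int.gcd, Int.natAbs_neg, Int.natAbs_natCast]
        have p : (1 : ℝ) ≤ (Nat.gcd (k * t).natAbs n : ℝ) := by
          exact_mod_cast Nat.gcd_pos_of_pos_left n (Nat.pos_of_ne_zero h0)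
        rw [e]
        exact Real.sqrt_le_iff.2 ⟨by linarith, by nlinarith⟩
    _ ≤ ∑ n ∈ Icc 1 ⌊4 * N1⌋₊, (Nat.gcd (k * t).natAbs n : ℝ) := by
        refine sum_le_sum_of_subset_of_nonneg (fun n hn => mem_Icc.2 ⟨?_, Nat.le_floor (hS n hn).2⟩)
          fun _ _ _ => Nat.cast_nonneg _
        exact_mod_cast hN.trans_le (hS n hn).1
    _ ≤ (⌊4 * N1⌋₊ : ℝ) * ((k * t).natAbs.divisors.card : ℝ) := by exact_mod_cast h1
    _ ≤ 4 * N1 * Y := mul_le_mul (Nat.floor_le (by positivity)) h3 (Nat.cast_nonneg _)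
        (by positivity)

theorem inner (hK : St_KF) (hI : St_IK) {Λ : ℕ} {Y N1 : ℝ} (hB : Big Λ Y) (hY : 4 ≤ Y)
    (hN : 0 < N1) (hN' : N1 ≤ Y ^ (200 * Λ)) {n r lo hi : ℕ} (hn : N1 ≤ n ∧ n ≤ 4 * N1)
    (hl : ((hi - lo : ℕ) : ℝ) ≤ 4 * N1) (hc : Nat.Coprime r n) (a : ℤ) (lam : ℝ) :
    ‖∑ κ ∈ (Ioc lo hi).filter (Nat.Coprime · n), ee (lam * κ) * kf a (r * κ) n‖ ≤
      10 * Y ^ 2 * √N1 * √(Int.gcd a n : ℝ) := by
  have hl' := hB.lam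
  have hn0 : (0 : ℝ) < n := hN.trans_le hn.1
  have hn1 : 0 < n := by exact_mod_cast hn0
  have h1 : (n : ℝ) ≤ Y ^ (1000 * Λ) := by
    calc (n : ℝ) ≤ 4 * N1 := hn.2
      _ ≤ Y * Y ^ (200 * Λ) := mul_le_mul hY hN' hN.le (by linarith)
      _ = Y ^ (200 * Λ + 1) := by ring
      _ ≤ _ := pow_le_pow_right₀ (by linarith) (by omega)
  have h2 := hI Λ Y hB n (a * (((r : ZMod n)⁻¹).val : ℕ)) lam lo hi hn1 h1
  rw [hK.gcd a r n hn1 hc] at h2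
  rw [sum_congr rfl fun κ hκ => by rw [hK.mul a r κ n hn1 hc (mem_filter.1 hκ).2]]
  refine h2.trans ?_
  have h3 : √(n : ℝ) ≤ 2 * √N1 := by
    refine Real.sqrt_le_iff.2 ⟨by positivity, ?_⟩
    rw [mul_pow, Real.sq_sqrt hN.le]
    linarith [hn.2]
  have h4 : ((hi - lo : ℕ) : ℝ) / n ≤ 4 := by
    rw [div_le_iff₀ hn0]
    linarith [hn.1]
  calc Y ^ 2 * √(n : ℝ) * √(Int.gcd a n : ℝ) * (1 + ((hi - lo : ℕ) : ℝ) / n)
      ≤ Y ^ 2 * (2 * √N1) * √(Int.gcd a n : ℝ) * (1 + 4) := by gcongr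
    _ = _ := by ring

end B261

theorem st_B261 (hK : St_KF) (hG : St_GCD) (hI : St_IK) : St_B2 := by
  intro Λ Y hB N1 W1 R1 S2 Ks Ts lo hi ω φ lam hN hN' hS hl hKs hTs hφ hW
  have hl' := hB.lam
  have hY : (40 : ℝ) ≤ Y := by
    calc (40 : ℝ) ≤ 2 ^ 6 := by norm_num
      _ ≤ 2 ^ (300 * Λ) := pow_le_pow_right₀ one_le_two (by omega)
      _ ≤ Y := hB.two
  have hW0 : 0 ≤ W1 := (sum_nonneg fun _ _ => norm_nonneg _).trans hW
  have key : ∀ r, ‖∑ n ∈ S2, if Nat.Coprime r n then ∑ k ∈ Ks, ∑ t ∈ Ts, ω t * φ r n k t *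
      ∑ κ ∈ (Ioc (lo r) (hi r)).filter (Nat.Coprime · n), ee (lam r n * κ) *
        kf (-(k * t)) (r * κ) n else 0‖ ≤ Y ^ 4 * W1 * Ks.card * (N1 * √N1) := by
    intro r
    calc _ ≤ ∑ n ∈ S2, ∑ k ∈ Ks, ∑ t ∈ Ts,
          ‖ω t‖ * (10 * Y ^ 2 * √N1 * √(Int.gcd (-(k * t)) n : ℝ)) := by
          refine norm_sum_le_of_le _ fun n hn => ?_
          split_ifs with hc
          · refine norm_sum_le_of_le _ fun k _ => norm_sum_le_of_le _ fun t _ => ?_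
            rw [norm_mul, norm_mul]
            refine mul_le_mul (mul_le_of_le_one_right (norm_nonneg _) (hφ r n k t))
              (B261.inner hK hI hB (by linarith) hN hN' (hS n hn) (hl r) hc _ _) (norm_nonneg _)
              (norm_nonneg _)
          · rw [norm_zero]
            positivity
      _ = ∑ k ∈ Ks, ∑ t ∈ Ts, ‖ω t‖ * (10 * Y ^ 2 * √N1 *
          ∑ n ∈ S2, √(Int.gcd (-(k * t)) n : ℝ)) := by
          rw [sum_comm]
          refine sum_congr rfl fun k _ => ?_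
          rw [sum_comm]
          refine sum_congr rfl fun t _ => ?_
          rw [mul_sum, mul_sum]
      _ ≤ ∑ _k ∈ Ks, ∑ t ∈ Ts, ‖ω t‖ * (10 * Y ^ 2 * √N1 * (4 * N1 * Y)) := by
          refine sum_le_sum fun k hk => sum_le_sum fun t ht => ?_
          have := B261.gcd_sum hG hB (by linarith) hN hS (hKs k hk) (hTs t ht)
          gcongr
      _ = Ks.card * ((∑ t ∈ Ts, ‖ω t‖) * (40 * Y ^ 3 * (N1 * √N1))) := by
          rw [sum_const, nsmul_eq_mul, ← sum_mul]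
          ring
      _ ≤ Ks.card * (W1 * (Y * Y ^ 3 * (N1 * √N1))) := by gcongr
      _ = _ := by ring
  refine (norm_sum_le_of_le _ fun r _ => key r).trans (le_of_eq ?_)
  rw [sum_const, nsmul_eq_mul, Nat.card_Icc, Nat.add_sub_cancel]
  ring

end Pool.Agent.Lib.AP
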