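import Pool.Agent.Lib.AP.Blue

/-! Block B3d: the diagonal terms. -/

open Finset Classical

noncomputable section

namespace Pool.Agent.Lib.AP

namespace B3d61

theorem cnt (hG : St_GCD) {Λ : ℕ} {Y : ℝ} (hB : Big Λ Y) (Ks Ts : Finset ℤ) (S : Finset ℕ)
    {s : ℤ} (h0 : s ≠ 0) (h1 : |(s : ℝ)| ≤ Y ^ (2000 * Λ)) :
    ∑ k ∈ Ks, ∑ t ∈ Ts, ∑ v ∈ S, (if k * t * v = s then (1 : ℝ) else 0) ≤ 2 * Y ^ 2 := by
  have hs : (s.natAbs : ℝ) ≤ Y ^ (2000 * Λ) := by rwa [Nat.cast_natAbs, Int.cast_abs]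
  have hd := hB.div _ hs
  have hY : 0 ≤ Y := (Nat.cast_nonneg _).trans hd
  calc _ = ∑ v ∈ S, (((Ks ×ˢ Ts).filter fun x => x.1 * x.2 * v = s).card : ℝ) := by
        rw [← sum_product', sum_comm]
        exact sum_congr rfl fun v _ => by rw [sum_boole]
    _ ≤ ∑ v ∈ S, if v ∈ s.natAbs.divisors then 2 * Y else 0 := by
        refine sum_le_sum fun v _ => ?_
        split_ifs with hv
        · obtain ⟨u, hu⟩ := Int.natCast_dvd.2 (Nat.dvd_of_mem_divisors hv)
          have hv0 : (v : ℤ) ≠ 0 := fun e => h0 (by rw [hu, e, zero_mul])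
          have hu0 : u ≠ 0 := fun e => h0 (by rw [hu, e, mul_zero])
          have e : ((Ks ×ˢ Ts).filter fun x => x.1 * x.2 * v = s) =
              (Ks ×ˢ Ts).filter fun x => x.1 * x.2 = u :=
            filter_congr fun x _ => by rw [hu, mul_comm (v : ℤ) u, mul_left_inj' hv0]
          have a : u.natAbs ≤ s.natAbs := Nat.le_of_dvd (Int.natAbs_pos.2 h0)
            (Int.natAbs_dvd_natAbs.2 ⟨v, by rw [hu, mul_comm]⟩)
          have b := hB.div _ ((Nat.cast_le.2 a).trans hs)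
          have c : (((Ks ×ˢ Ts).filter fun x => x.1 * x.2 = u).card : ℝ) ≤
              2 * (u.natAbs.divisors.card : ℝ) := by exact_mod_cast hG.fibZ Ks Ts u hu0
          rw [e]
          linarith
        · rw [filter_eq_empty_iff.2, card_empty, Nat.cast_zero]
          intro x _ h
          exact hv (Nat.mem_divisors.2 ⟨Int.natCast_dvd.1 ⟨x.1 * x.2, by rw [← h, mul_comm]⟩,
            Int.natAbs_ne_zero.2 h0⟩)
    _ ≤ (s.natAbs.divisors.card : ℝ) * (2 * Y) := by
        rw [← sum_filter, sum_const, nsmul_eq_mul]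
        refine mul_le_mul_of_nonneg_right (Nat.cast_le.2 (card_le_card fun v hv => ?_))
          (by positivity)
        exact (mem_filter.1 hv).2
    _ ≤ Y * (2 * Y) := mul_le_mul_of_nonneg_right hd (by positivity)
    _ = _ := by ring

end B3d61

theorem st_B3d61 (hG : St_GCD) : St_B3d := by
  intro Λ Y hB S Ks Ts ω M W1 hS hK hT hM hω hW
  have hl := hB.lam
  have hY : (1 : ℝ) ≤ Y := (one_le_pow₀ one_le_two).trans hB.two
  calc _ ≤ ∑ k ∈ Ks, ∑ t ∈ Ts, ∑ v ∈ S, ∑ k' ∈ Ks, ∑ t' ∈ Ts, ∑ v' ∈ S,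
        ‖ω t‖ * M * (if k' * t' * v = k * t * v' then (1 : ℝ) else 0) := by
        simp only [sum_product]
        refine sum_le_sum fun k _ => sum_le_sum fun t _ => sum_le_sum fun v _ =>
          sum_le_sum fun k' _ => sum_le_sum fun t' _ => sum_le_sum fun v' _ => ?_
        by_cases h : k' * t' * v = k * t * v'
        · rw [if_pos (sub_eq_zero.2 h), if_pos h, mul_one]
          exact mul_le_mul_of_nonneg_left (hω t') (norm_nonneg _)
        · rw [if_neg (sub_ne_zero.2 h), if_neg h, mul_zero]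
    _ = ∑ k ∈ Ks, ∑ t ∈ Ts, ∑ v' ∈ S, ‖ω t‖ * M * ∑ k' ∈ Ks, ∑ t' ∈ Ts, ∑ v ∈ S,
        (if k' * t' * v = k * t * v' then (1 : ℝ) else 0) := by
        refine sum_congr rfl fun k _ => sum_congr rfl fun t _ => ?_
        simp only [mul_sum]
        calc _ = ∑ k' ∈ Ks, ∑ t' ∈ Ts, ∑ v ∈ S, ∑ v' ∈ S,
              ‖ω t‖ * M * (if k' * t' * v = k * t * v' then (1 : ℝ) else 0) := by
              rw [sum_comm]
              exact sum_congr rfl fun k' _ => sum_comm
          _ = ∑ k' ∈ Ks, ∑ t' ∈ Ts, ∑ v' ∈ S, ∑ v ∈ S,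
              ‖ω t‖ * M * (if k' * t' * v = k * t * v' then (1 : ℝ) else 0) :=
              sum_congr rfl fun k' _ => sum_congr rfl fun t' _ => sum_comm
          _ = _ := by
              rw [sum_comm (s := S)]
              exact sum_congr rfl fun k' _ => sum_comm
    _ ≤ ∑ _k ∈ Ks, ∑ t ∈ Ts, ∑ _v' ∈ S, ‖ω t‖ * M * (2 * Y ^ 2) := by
        refine sum_le_sum fun k hk => sum_le_sum fun t ht => sum_le_sum fun v hv =>
          mul_le_mul_of_nonneg_left (B3d61.cnt hG hB Ks Ts S ?_ ?_) (by positivity)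
        · exact mul_ne_zero (mul_ne_zero (hK k hk).1 (hT t ht).1)
            (Int.natCast_ne_zero.2 (hS v hv).1.ne')
        · rw [Int.cast_mul, Int.cast_mul, abs_mul, abs_mul, Int.cast_natCast, Nat.abs_cast]
          have a := (hK k hk).2
          have b := (hT t ht).2
          have c := (hS v hv).2
          calc _ ≤ Y ^ (300 * Λ) * Y ^ (300 * Λ) * Y ^ (300 * Λ) := by gcongr
            _ = Y ^ (900 * Λ) := by ring
            _ ≤ _ := pow_le_pow_right₀ hY (by omega)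
    _ = (∑ t ∈ Ts, ‖ω t‖) * (2 * Y ^ 2 * M * Ks.card * S.card) := by
        simp only [sum_const, nsmul_eq_mul]
        rw [mul_sum, sum_mul]
        exact sum_congr rfl fun t _ => by ring
    _ ≤ W1 * (2 * Y ^ 2 * M * Ks.card * S.card) := mul_le_mul_of_nonneg_right hW (by positivity)
    _ = _ := by ring

end Pool.Agent.Lib.AP
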