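import Pool.Agent.Lib.AP.Blue

/-! Block B3o: the average of the greatest common divisors. -/

open Finset Classical

noncomputable section

namespace Pool.Agent.Lib.AP

namespace B3o61

theorem one (hG : St_GCD) {Λ : ℕ} {Y : ℝ} (hB : Big Λ Y) {a : ℕ} (h0 : a ≠ 0)
    (h1 : (a : ℝ) ≤ Y ^ (2000 * Λ)) (V : ℕ) : ∑ v ∈ Icc 1 V, (Nat.gcd a v : ℝ) ≤ V * Y :=
  calc ∑ v ∈ Icc 1 V, (Nat.gcd a v : ℝ) ≤ (V : ℝ) * (a.divisors.card : ℝ) := by
        exact_mod_cast hG.one a V h0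
    _ ≤ V * Y := mul_le_mul_of_nonneg_left (hB.div a h1) (Nat.cast_nonneg _)

theorem tri {Ks Ts : Finset ℤ} {S : Finset ℕ} {ω : ℤ → ℂ} {W1 B : ℝ} (hB : 0 ≤ B)
    (hW : ∑ t ∈ Ts, ‖ω t‖ ≤ W1) (F : ℤ × ℤ × ℕ → ℝ)
    (hF : ∀ k ∈ Ks, ∀ t ∈ Ts, ∑ v ∈ S, F (k, t, v) ≤ B) :
    ∑ z ∈ Ks ×ˢ Ts ×ˢ S, ‖ω z.2.1‖ * F z ≤ Ks.card * (W1 * B) := by
  rw [sum_product, ← nsmul_eq_mul, ← sum_const]
  refine sum_le_sum fun k hk => ?_
  rw [sum_product]
  calc _ ≤ ∑ t ∈ Ts, ‖ω t‖ * B := by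
        refine sum_le_sum fun t ht => ?_
        simp only [← mul_sum]
        exact mul_le_mul_of_nonneg_left (hF k hk t ht) (norm_nonneg _)
    _ ≤ W1 * B := by
        rw [← sum_mul]
        exact mul_le_mul_of_nonneg_right hW hB

theorem le_mul (a m n : ℕ) (ha : a ≠ 0) : Nat.gcd a (m * n) ≤ Nat.gcd a m * Nat.gcd a n :=
  Nat.le_of_dvd (Nat.mul_pos (Nat.gcd_pos_of_pos_left _ (Nat.pos_of_ne_zero ha))
    (Nat.gcd_pos_of_pos_left _ (Nat.pos_of_ne_zero ha))) (Nat.gcd_mul_right_dvd_mul_gcd a m n)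

theorem part (s s' : ℤ) {v : ℕ} (v' : ℕ) (hv : v ≠ 0) :
    Nat.gcd (s' * v - s * v').natAbs v ≤ Nat.gcd s.natAbs v * Nat.gcd v v' := by
  have h1 : Nat.gcd (s' * v - s * v').natAbs v ∣ s.natAbs * v' := by
    have a : ((Nat.gcd (s' * v - s * v').natAbs v : ℕ) : ℤ) ∣ s' * v - s * v' :=
      Int.natCast_dvd.2 (Nat.gcd_dvd_left _ _)
    have b : ((Nat.gcd (s' * v - s * v').natAbs v : ℕ) : ℤ) ∣ s' * v :=
      Dvd.dvd.mul_left (Int.natCast_dvd_natCast.2 (Nat.gcd_dvd_right _ _)) _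
    have c := Int.natCast_dvd.1 ((dvd_sub_right b).1 a)
    rwa [Int.natAbs_mul, Int.natAbs_natCast] at c
  refine (Nat.le_of_dvd (Nat.gcd_pos_of_pos_left _ (Nat.pos_of_ne_zero hv))
    (Nat.dvd_gcd (Nat.gcd_dvd_right _ _) h1)).trans ((le_mul v _ _ hv).trans ?_)
  rw [Nat.gcd_comm v s.natAbs]

theorem root (s s' : ℤ) {v v' : ℕ} (w : ℕ) (hv : v ≠ 0) (hv' : v' ≠ 0) (ha : s' * v - s * v' ≠ 0) :
    √(Int.gcd (s' * v - s * v') ((v * v' * w : ℕ) : ℤ) : ℝ) ≤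
      (Nat.gcd v v' : ℝ) * ((Nat.gcd s.natAbs v : ℝ) + Nat.gcd s'.natAbs v') / 2 *
        Nat.gcd (s' * v - s * v').natAbs w := by
  have h0 := Int.natAbs_ne_zero.2 ha
  have h1 := part s s' v' hv
  have h2 := part s' s v hv'
  rw [← Int.natAbs_neg, neg_sub, Nat.gcd_comm v' v] at h2
  have h3 := (le_mul _ (v * v') w h0).trans (Nat.mul_le_mul_right _
    ((le_mul _ v v' h0).trans (Nat.mul_le_mul h1 h2)))
  have h4 : (1 : ℝ) ≤ Nat.gcd (s' * v - s * v').natAbs w := by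
    exact_mod_cast Nat.gcd_pos_of_pos_left w (Nat.pos_of_ne_zero h0)
  rw [Int.gcd, Int.natAbs_natCast]
  refine Real.sqrt_le_iff.2 ⟨by positivity, (Nat.cast_le.2 h3).trans ?_⟩
  push_cast
  generalize (Nat.gcd (s' * v - s * v').natAbs w : ℝ) = g at *
  generalize (Nat.gcd v v' : ℝ) = d
  have hx : (0 : ℝ) ≤ Nat.gcd s.natAbs v := Nat.cast_nonneg _
  have hy : (0 : ℝ) ≤ Nat.gcd s'.natAbs v' := Nat.cast_nonneg _
  generalize (Nat.gcd s.natAbs v : ℝ) = x at *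
  generalize (Nat.gcd s'.natAbs v' : ℝ) = y at *
  calc x * d * (y * d) * g = d ^ 2 * (x * y) * g := by ring
    _ ≤ d ^ 2 * ((x + y) / 2) ^ 2 * g ^ 2 := by
        have a : x * y ≤ ((x + y) / 2) ^ 2 := by nlinarith [sq_nonneg (x - y)]
        have b : g ≤ g ^ 2 := by nlinarith
        gcongr
    _ = _ := by ring

end B3o61

open B3o61 in
theorem st_B3o61 (hG : St_GCD) : St_B3o := by
  intro Λ Y hB V2 U2 Ks Ts ω W1 hV hK hT hW
  have hl := hB.lam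
  have hY : (2 : ℝ) ≤ Y := by
    calc (2 : ℝ) = 2 ^ 1 := by norm_num
      _ ≤ 2 ^ (300 * Λ) := pow_le_pow_right₀ one_le_two (by omega)
      _ ≤ Y := hB.two
  have hY1 : (1 : ℝ) ≤ Y := by linarith
  have hW0 : 0 ≤ W1 := (sum_nonneg fun _ _ => norm_nonneg _).trans hW
  have hkt : ∀ k ∈ Ks, ∀ t ∈ Ts, |((k * t : ℤ) : ℝ)| ≤ Y ^ (600 * Λ) := fun k hk t ht => by
    rw [Int.cast_mul, abs_mul]
    calc |(k : ℝ)| * |(t : ℝ)| ≤ Y ^ (300 * Λ) * Y ^ (300 * Λ) :=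
          mul_le_mul (hK k hk).2 (hT t ht).2 (abs_nonneg _) (by positivity)
      _ = _ := by ring
  have hz : ∀ z ∈ Ks ×ˢ Ts ×ˢ Icc 1 V2, ∀ v ∈ Icc 1 V2,
      |((z.1 * z.2.1 * (v : ℕ) : ℤ) : ℝ)| ≤ Y ^ (900 * Λ) := fun z hz v hv => by
    simp only [mem_product] at hz
    rw [Int.cast_mul, abs_mul, Int.cast_natCast, Nat.abs_cast]
    calc _ ≤ Y ^ (600 * Λ) * Y ^ (300 * Λ) := mul_le_mul (hkt _ hz.1 _ hz.2.1)
          ((Nat.cast_le.2 (mem_Icc.1 hv).2).trans hV) (Nat.cast_nonneg _) (by positivity)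
      _ = _ := by ring
  set Z := Ks ×ˢ Ts ×ˢ Icc 1 V2 with hZ
  set x : ℤ × ℤ × ℕ → ℝ := fun z => Nat.gcd (z.1 * z.2.1).natAbs z.2.2 with hx
  set A : ℤ × ℤ × ℕ → ℤ × ℤ × ℕ → ℝ := fun z z' =>
    ‖ω z.2.1‖ * x z * (‖ω z'.2.1‖ * Nat.gcd z.2.2 z'.2.2) with hA
  have hmem : ∀ z ∈ Z, z.2.2 ∈ Icc 1 V2 := fun z hz => (mem_product.1 (mem_product.1 hz).2).2
  have hAs : ∑ z ∈ Z, ∑ z' ∈ Z, A z z' ≤ Ks.card * (W1 * (V2 * Y)) * (Ks.card * (W1 * (V2 * Y))) := by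
    have h1 : ∑ z ∈ Z, ‖ω z.2.1‖ * x z ≤ Ks.card * (W1 * (V2 * Y)) := by
      refine tri (by positivity) hW x fun k hk t ht => one hG hB
        (Int.natAbs_ne_zero.2 (mul_ne_zero (hK k hk).1 (hT t ht).1)) ?_ V2
      rw [Nat.cast_natAbs, Int.cast_abs]
      exact (hkt k hk t ht).trans (pow_le_pow_right₀ hY1 (by omega))
    refine le_trans ?_ (mul_le_mul_of_nonneg_right h1 (by positivity))
    rw [sum_mul]
    refine sum_le_sum fun z hz => ?_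
    simp only [hA, ← mul_sum]
    refine mul_le_mul_of_nonneg_left ?_ (mul_nonneg (norm_nonneg _) (Nat.cast_nonneg _))
    have hv := mem_Icc.1 (hmem z hz)
    exact tri (by positivity) hW (fun z' => Nat.gcd z.2.2 z'.2.2) fun k _ t _ =>
      one hG hB (by omega) (((Nat.cast_le.2 hv.2).trans hV).trans
        (pow_le_pow_right₀ hY1 (by omega))) V2
  calc _ ≤ ∑ z ∈ Z, ∑ z' ∈ Z, (A z z' + A z' z) * (U2 * Y / 2) := by
        rw [sum_comm]
        refine sum_le_sum fun z hz1 => ?_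
        rw [sum_comm]
        refine sum_le_sum fun z' hz2 => ?_
        have hv := hmem z hz1
        have hv' := hmem z' hz2
        by_cases h0 : z'.1 * z'.2.1 * z.2.2 - z.1 * z.2.1 * z'.2.2 = 0
        · simp only [if_pos h0, sum_const_zero, hA, hx]
          positivity
        simp only [if_neg h0]
        have h1 : ((z'.1 * z'.2.1 * z.2.2 - z.1 * z.2.1 * z'.2.2).natAbs : ℝ) ≤ Y ^ (2000 * Λ) := by
          rw [Nat.cast_natAbs, Int.cast_abs, Int.cast_sub]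
          calc _ ≤ Y ^ (900 * Λ) + Y ^ (900 * Λ) :=
                (abs_sub _ _).trans (add_le_add (hz z' hz2 _ hv) (hz z hz1 _ hv'))
            _ = 2 * Y ^ (900 * Λ) := by ring
            _ ≤ Y * Y ^ (900 * Λ) := by gcongr
            _ = Y ^ (900 * Λ + 1) := by ring
            _ ≤ _ := pow_le_pow_right₀ hY1 (by omega)
        have h2 := one hG hB (Int.natAbs_ne_zero.2 h0) h1 U2
        rw [mem_Icc] at hv hv'
        refine (sum_le_sum fun w _ => mul_le_mul_of_nonneg_left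
          (root (z.1 * z.2.1) (z'.1 * z'.2.1) w (by omega) (by omega) h0) (by positivity)).trans ?_
        rw [← mul_sum, ← mul_sum]
        refine (mul_le_mul_of_nonneg_left (mul_le_mul_of_nonneg_left h2 (by positivity))
          (by positivity)).trans (le_of_eq ?_)
        simp only [hA, hx, Nat.gcd_comm z'.2.2 z.2.2]
        ring
    _ = (∑ z ∈ Z, ∑ z' ∈ Z, A z z') * (U2 * Y) := by
        simp only [← sum_mul, sum_add_distrib]
        rw [sum_comm (f := fun z z' => A z' z)]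
        ring
    _ ≤ Ks.card * (W1 * (V2 * Y)) * (Ks.card * (W1 * (V2 * Y))) * (U2 * Y) :=
        mul_le_mul_of_nonneg_right hAs (by positivity)
    _ = _ := by ring

end Pool.Agent.Lib.AP
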