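import Pool.Agent.Lib.AP.B_BX3

/-! The estimate with a free variable on one box. -/

open Finset Classical

noncomputable section

namespace Pool.Agent.Lib.AP

namespace BX261

theorem collect {N R : ℕ} (hN : 0 < N) (b : ℕ → ℂ) (lo hi : ℕ → ℕ) (θ : ℝ) (G : ℕ → ℂ)
    (h : ∀ r ∈ Icc 1 R, ∀ κ ∈ Ioc (lo r) (hi r), r * κ ∈ Ico N (4 * N)) :
    ∑ r ∈ Icc 1 R, ∑ κ ∈ Ioc (lo r) (hi r), b r * ee (θ * (r * κ : ℕ)) * G (r * κ) =
      ∑ n ∈ Ico N (4 * N), col2 (fun r => if r ∈ Icc 1 R then b r else 0) lo hi θ n * G n := by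
  have hs : ∀ r ∈ Icc 1 R, Ioc (lo r) (hi r) ⊆ range (4 * N) := fun r hr κ hκ =>
    mem_range.2 ((Nat.le_mul_of_pos_left κ (mem_Icc.1 hr).1).trans_lt (mem_Ico.1 (h r hr κ hκ)).2)
  calc _ = ∑ z ∈ (Icc 1 R ×ˢ range (4 * N)).filter (fun z => z.2 ∈ Ioc (lo z.1) (hi z.1)),
        b z.1 * ee (θ * (z.1 * z.2 : ℕ)) * G (z.1 * z.2) := by
        rw [sum_filter, sum_product]
        refine sum_congr rfl fun r hr => ?_
        dsimp only
        rw [sum_ite_mem, inter_eq_right.2 (hs r hr)]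
    _ = _ := by
        rw [← sum_fiberwise_of_maps_to (t := Ico N (4 * N)) (g := fun z : ℕ × ℕ => z.1 * z.2)
          fun z hz => h _ (mem_product.1 (mem_filter.1 hz).1).1 _ (mem_filter.1 hz).2]
        refine sum_congr rfl fun n hn => ?_
        have hn0 : n ≠ 0 := by
          have := (mem_Ico.1 hn).1
          omega
        unfold col2
        rw [sum_mul]
        refine sum_subset_zero_on_sdiff (fun z hz => ?_) (fun z hz => ?_) fun z hz => ?_
        · exact Nat.mem_divisorsAntidiagonal.2 ⟨(mem_filter.1 hz).2, hn0⟩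
        · obtain ⟨h1, h2⟩ := mem_sdiff.1 hz
          by_cases a : z.2 ∈ Ioc (lo z.1) (hi z.1)
          · by_cases c : z.1 ∈ Icc 1 R
            · exact absurd (mem_filter.2 ⟨mem_filter.2 ⟨mem_product.2 ⟨c, hs _ c a⟩, a⟩,
                (Nat.mem_divisorsAntidiagonal.1 h1).1⟩) h2
            · simp only [if_neg c, zero_mul, ite_self]
          · rw [if_neg a, zero_mul]
        · obtain ⟨h1, h2⟩ := mem_filter.1 hz
          obtain ⟨h3, h4⟩ := mem_filter.1 h1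
          simp only [if_pos h4, if_pos (mem_product.1 h3).1, h2]

end BX261

theorem st_BX261 (hT : St_TOOL) (hG : St_GCD) (hD : St_DSP) (hS : St_S2) (hO : St_OM) :
    St_BX2 := by
  intro Λ Y α q K hB hDio M N R θ0 a b lo hi hbox hR ha hb hI
  have h32 := BX3.Y32 hB
  have hΛ := hB.lam
  have hY1 : (1 : ℝ) ≤ Y := by linarith
  have hY0 : (0 : ℝ) < Y := by linarith
  have hN : 0 < N := by
    have h1 : (0 : ℝ) < 4 * (N : ℝ) := lt_of_lt_of_le (by positivity) hbox.lo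
    have h2 : (0 : ℝ) < (N : ℝ) := by linarith
    exact_mod_cast h2
  set b' : ℕ → ℂ := fun r => if r ∈ Icc 1 R then b r else 0 with hb'
  have hb1 : ∀ r, ‖b' r‖ ≤ 1 := fun r => by
    simp only [hb']
    split_ifs
    exacts [hb r, by simp]
  have hb2 : ∀ r κ, b' r ≠ 0 → κ ∈ Ioc (lo r) (hi r) → r ≤ R ∧ r * κ ∈ Ico N (4 * N) := by
    intro r κ h hκ
    have hr : r ∈ Icc 1 R := by
      by_contra h'
      exact h (if_neg h')
    exact ⟨(mem_Icc.1 hr).2, hI r hr κ hκ⟩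
  have hs : ∀ n, col2 b' lo hi θ0 n ≠ 0 → n ∈ Ico N (4 * N) := by
    intro n hn
    obtain ⟨x, hx, h⟩ := exists_ne_zero_of_sum_ne_zero hn
    by_cases c : x.2 ∈ Ioc (lo x.1) (hi x.1)
    · rw [if_pos c] at h
      rw [← (Nat.mem_divisorsAntidiagonal.1 hx).1]
      exact (hb2 _ _ (left_ne_zero_of_mul h) c).2
    · exact absurd (if_neg c) h
  have hβ : ∀ n, ‖col2 b' lo hi θ0 n‖ ≤ Y := by
    intro n
    by_cases hn : col2 b' lo hi θ0 n = 0
    · rw [hn, norm_zero]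
      exact hY0.le
    · refine (hG.col (fun x y => if y ∈ Ioc (lo x) (hi x) then b' x * ee (θ0 * n) else 0) n
        fun x y => ?_).trans (hB.div n ?_)
      · split_ifs
        · rw [norm_mul, hT.norm, mul_one]
          exact hb1 x
        · simp
      · have h1 : (n : ℝ) ≤ 4 * (N : ℝ) := by exact_mod_cast (mem_Ico.1 (hs n hn)).2.le
        calc (n : ℝ) ≤ Y * Y ^ (120 * Λ) :=
              h1.trans (mul_le_mul (by linarith) hbox.hi (by positivity) hY0.le)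
          _ ≤ Y ^ (2000 * Λ) := by
              rw [← pow_succ']
              exact pow_le_pow_right₀ hY1 (by omega)
  obtain ⟨-, o2, o3⟩ := hO Λ Y α q K hB hDio M N hbox
  obtain ⟨k1, k2⟩ := BX3.K0_le hB N
  have e : ∑ m ∈ Icc 1 M, ∑ r ∈ Icc 1 R, ∑ κ ∈ Ioc (lo r) (hi r),
      a m * (b r * ee (θ0 * (r * κ : ℕ))) * K.D α (m * (r * κ)) =
      ∑ m ∈ Icc 1 M, a m * ∑ n ∈ Ico N (4 * N), col2 b' lo hi θ0 n * K.D α (m * n) := by
    refine sum_congr rfl fun m _ => ?_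
    rw [← BX261.collect hN b lo hi θ0 (fun n => K.D α (m * n)) hI]
    simp only [mul_sum, mul_assoc]
  rw [e]
  refine BX3.core hD K hB hDio M N a (col2 b' lo hi θ0) _ hbox ha hβ hs
    (fun θ h => hS Λ Y hB N R (K0 Λ Y N) (32 * K.H * N) _ θ θ0 h b' lo hi (K.om α M N)
      hN hbox.hi k1 (BX3.T_le hB K hbox.hi) hb1 hb2 o3) ?_
  have hmn := hbox.mn
  have t1 : M * R * ((N : ℝ) ^ 2 * Y ^ 5) * √(N : ℝ) * Y ^ 180 ≤ Y ^ (450 * Λ) := by
    refine le_of_pow_le_pow_left₀ (n := 2) (by norm_num) (by positivity) ?_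
    refine le_of_mul_le_mul_right ?_ (show 0 < Y ^ 620 by positivity)
    calc (M * R * ((N : ℝ) ^ 2 * Y ^ 5) * √(N : ℝ) * Y ^ 180) ^ 2 * Y ^ 620
        = (M * R * (N : ℝ) ^ 2) ^ 2 * √(N : ℝ) ^ 2 * Y ^ 990 := by ring
      _ = ((M : ℝ) * N) ^ 2 * ((R : ℝ) ^ 2 * (N : ℝ) ^ 3 * Y ^ 990) := by
          rw [Real.sq_sqrt (Nat.cast_nonneg _)]
          ring
      _ ≤ (Y ^ (270 * Λ + 1)) ^ 2 * Y ^ (360 * Λ) :=
          mul_le_mul (pow_le_pow_left₀ (by positivity) hmn 2) hR (by positivity) (by positivity)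
      _ ≤ (Y ^ (450 * Λ)) ^ 2 * Y ^ 620 := by
          simp only [← pow_mul, ← pow_add]
          exact pow_le_pow_right₀ hY1 (by omega)
  refine le_trans ?_ t1
  calc _ = M * R * ((N : ℝ) * Y ^ (90 * Λ + 5) * K0 Λ Y N) * √(N : ℝ) * Y ^ 180 := by ring
    _ ≤ _ := by gcongr

end Pool.Agent.Lib.AP
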