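import Pool.Agent.Lib.AP.Blue2

/-! Row ROU: the Möbius sum over smooth divisors detects rough numbers. -/

open Finset Classical

noncomputable section

namespace Pool.Agent.Lib.AP

theorem st_ROU : St_ROU := by
  intro Λ Y m hm
  set P := m.primeFactors.filter fun p : ℕ => (p : ℝ) * Y ^ 1200 ≤ Y ^ (10 * Λ) with hP
  have hPp : ∀ p ∈ P, p.Prime := fun p hp => Nat.prime_of_mem_primeFactors (mem_filter.1 hp).1
  have hs : (∏ p ∈ P, p) ∣ m := Finset.prod_primes_dvd m (fun p hp => (hPp p hp).prime)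
    fun p hp => Nat.dvd_of_mem_primeFactors (mem_filter.1 hp).1
  have hs0 : (∏ p ∈ P, p) ≠ 0 := ne_zero_of_dvd_ne_zero hm hs
  have hf : (∏ p ∈ P, p).primeFactors = P := Nat.primeFactors_prod hPp
  rw [Nat.sum_divisorsAntidiagonal (fun a _ => mu' Λ Y a)]
  have h1 : ∑ d ∈ m.divisors, mu' Λ Y d =
      ∑ d ∈ (∏ p ∈ P, p).divisors, ArithmeticFunction.moebius d := by
    symm
    refine (sum_congr rfl fun d hd => ?_).trans
      (sum_subset (Nat.divisors_subset_of_dvd hm hs) fun d hd hd' => ?_)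
    · rw [mu', if_pos]
      intro p hp hpd
      have : p ∈ P := hf ▸ Nat.mem_primeFactors.2 ⟨hp, hpd.trans (Nat.dvd_of_mem_divisors hd), hs0⟩
      exact (mem_filter.1 this).2
    · rw [mu']
      split_ifs with h
      · by_contra hne
        have hsq : Squarefree d := ArithmeticFunction.moebius_ne_zero_iff_squarefree.1 hne
        refine hd' (Nat.mem_divisors.2 ⟨?_, hs0⟩)
        rw [← Nat.prod_primeFactors_of_squarefree hsq]
        refine prod_dvd_prod_of_subset _ _ _ fun p hp => mem_filter.2 ⟨?_, ?_⟩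
        · exact Nat.primeFactors_mono (Nat.dvd_of_mem_divisors hd) hm hp
        · exact h p (Nat.prime_of_mem_primeFactors hp) (Nat.dvd_of_mem_primeFactors hp)
      · rfl
  have h2 := congrArg (fun f : ArithmeticFunction ℤ => f (∏ p ∈ P, p))
    ArithmeticFunction.moebius_mul_coe_zeta
  simp only [ArithmeticFunction.coe_mul_zeta_apply, ArithmeticFunction.one_apply] at h2
  rw [h1, h2]
  refine if_congr ⟨fun h p hp hpm => ?_, fun h => ?_⟩ rfl rfl
  · by_contra hlt
    have : p ∈ P := mem_filter.2 ⟨Nat.mem_primeFactors.2 ⟨hp, hpm, hm⟩, not_lt.1 hlt⟩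
    rw [← hf, h] at this
    simp at this
  · have : P = ∅ := filter_eq_empty_iff.2 fun p hp =>
      not_le.2 (h p (Nat.prime_of_mem_primeFactors hp) (Nat.dvd_of_mem_primeFactors hp))
    rw [this, prod_empty]

end Pool.Agent.Lib.AP
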