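import Pool.Agent.Lib.AP.Comb
import Pool.Agent.Lib.KW.Blue

/-! Primes with small `fract (α p)`: definitions and block statements of the analytic part.
Scale: `X = Y ^ (270 Λ)`, denominator `q = Y ^ (180 Λ)`, integers `X < n ≤ X Y`; every constant,
logarithm or divisor function costs one factor `Y`. -/

open Finset Classical

noncomputable section

namespace Pool.Agent.Lib.AP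

def ee (x : ℝ) : ℂ := Complex.exp (2 * Real.pi * Complex.I * x)

/-- distance to the nearest integer -/
def dn (x : ℝ) : ℝ := |x - round x|

/-- the Kloosterman fraction `e (a n⁻¹ / c)` -/
def kf (a : ℤ) (n c : ℕ) : ℂ := ee (a * (((n : ZMod c)⁻¹).val : ℝ) / c)

structure Big (Λ : ℕ) (Y : ℝ) : Prop where
  lam : 100000 ≤ Λ
  two : (2 : ℝ) ^ (300 * Λ) ≤ Y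
  log : 1000 * (1 + Real.log (Y ^ (2000 * Λ))) ≤ Y
  div : ∀ n : ℕ, (n : ℝ) ≤ Y ^ (2000 * Λ) → (n.divisors.card : ℝ) ≤ Y
  weil : ∀ (n : ℕ) [NeZero n], (n : ℝ) ≤ Y ^ (2000 * Λ) → ∀ u v : ZMod n,
    ‖KW.Kl n u v‖ ≤ Y * √(n : ℝ) * √(Nat.gcd v.val n : ℝ)

def Dio (Λ : ℕ) (Y α : ℝ) (q : ℕ) : Prop :=
  (q : ℝ) = Y ^ (180 * Λ) ∧ ∃ d : ℕ, 1 ≤ d ∧ (d : ℝ) ^ 3 ≤ Y ∧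
    ∃ a : ℤ, IsCoprime a q ∧ |d * α - a / q| ≤ 1 / (q : ℝ) ^ 2

/-- the detecting trigonometric polynomial -/
structure Ker (Λ : ℕ) (Y : ℝ) where
  H : ℕ
  c : ℤ → ℂ
  η : ℝ
  g : ℝ → ℝ
  hg : ∀ x, (g x : ℂ) = ∑ h ∈ Icc (-(H : ℤ)) H, c h * ee (h * x)
  g0 : ∀ x, 0 ≤ g x
  g1 : ∀ x, g x ≤ 1
  c0 : c 0 = η
  cle : ∀ h, ‖c h‖ ≤ η
  csum : ∑ h ∈ Icc (-(H : ℤ)) H, ‖c h‖ ≤ 1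
  Hlo : Y ^ (90 * Λ + 2) ≤ H
  Hhi : H ≤ Y ^ (90 * Λ + 3)
  ηlo : 1 ≤ η * Y ^ (90 * Λ + 4)
  ηhi : η * Y ^ (90 * Λ + 2) ≤ 1
  off : ∀ x, ¬ (0 < Int.fract x ∧ Int.fract x * Y ^ (90 * Λ + 1) < 1) → g x * Y ^ (2000 * Λ) ≤ 1

variable {Λ : ℕ} {Y : ℝ}

def Ker.D (K : Ker Λ Y) (α : ℝ) (n : ℕ) : ℂ := ((K.g (α * n) - K.η : ℝ) : ℂ)

def Ker.Q (K : Ker Λ Y) : ℕ := 37 * K.H + 1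

def Ker.P (K : Ker Λ Y) : ℕ := ⌈(K.Q : ℝ) / Y ^ (90 * Λ + 1)⌉₊

def Ker.gam (K : Ker Λ Y) (n1 n2 : ℕ) (t : ℤ) : ℂ :=
  ∑ h ∈ Icc (-(K.H : ℤ)) K.H, ∑ h' ∈ Icc (-(K.H : ℤ)) K.H,
    if h * n1 - h' * n2 = t then K.c h * (starRingEnd ℂ) (K.c h') else 0

def ww (M : ℕ) (θ : ℝ) : ℂ := ∑ m ∈ Icc 1 M, ee (m * θ)

def Ker.EE (K : Ker Λ Y) (α : ℝ) (M n n' : ℕ) : ℂ :=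
  ∑ h ∈ Icc (-(K.H : ℤ)) K.H, ∑ h' ∈ Icc (-(K.H : ℤ)) K.H,
    if h * n = h' * n' then 0 else
      K.c h * (starRingEnd ℂ) (K.c h') * ww M (α * ((h * n - h' * n' : ℤ) : ℝ))

/-- nonzero integers of size at most `T` -/
def nz (T : ℕ) : Finset ℤ := (Icc (-(T : ℤ)) T).erase 0

/-- trapezoid, `1` on `[-T, T]`, `0` outside `[-2T, 2T]` -/
def psi (T : ℕ) (t : ℤ) : ℝ :=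
  (((range T).filter fun i : ℕ => -(2 * T : ℤ) ≤ t - i ∧ t - i ≤ T).card : ℝ) / T

def Ker.om (K : Ker Λ Y) (α : ℝ) (M N g : ℕ) (t : ℤ) : ℂ :=
  (psi (8 * K.H * N / g + 1) t : ℂ) * ww M (α * ((g * t : ℤ) : ℝ))

def K0 (Λ : ℕ) (Y : ℝ) (N : ℕ) : ℕ := ⌊32 * (N : ℝ) / Y ^ (90 * Λ + 1)⌋₊

/-- the sum of Kloosterman fractions left by the dispersion -/
def Bs (N K1 T : ℕ) (β : ℕ → ℂ) (ω : ℤ → ℂ) (θ : ℝ) (h : ℤ) : ℂ :=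
  ∑ n1 ∈ Icc 1 (4 * N), ∑ n2 ∈ Icc 1 (4 * N), if Nat.Coprime n1 n2 then
    β n1 * (starRingEnd ℂ) (β n2) / n2 * ∑ k ∈ nz K1, ∑ t ∈ nz T,
      ω t * ee ((h * k - t * θ + h * θ * n1) / n2) * kf (-(k * t)) n1 n2 else 0

structure Box (Λ : ℕ) (Y : ℝ) (M N : ℕ) : Prop where
  lo : Y ^ (90 * Λ + 1000) ≤ 4 * N
  hi : N ≤ Y ^ (120 * Λ)
  mn : (M : ℝ) * N ≤ Y ^ (270 * Λ + 1)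

def col (b : ℕ → ℕ → ℂ) (n : ℕ) : ℂ := ∑ x ∈ n.divisorsAntidiagonal, b x.1 x.2

def col2 (b : ℕ → ℂ) (lo hi : ℕ → ℕ) (θ : ℝ) (n : ℕ) : ℂ :=
  ∑ x ∈ n.divisorsAntidiagonal, if x.2 ∈ Ioc (lo x.1) (hi x.1) then b x.1 * ee (θ * n) else 0

def X0 (Λ : ℕ) (Y : ℝ) : ℕ := ⌊Y ^ (270 * Λ)⌋₊
def X1 (Λ : ℕ) (Y : ℝ) : ℕ := ⌊Y ^ (270 * Λ + 1)⌋₊
def D0 (Λ : ℕ) (Y : ℝ) : ℕ := ⌊Y ^ (180 * Λ) / Y ^ 1000⌋₊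
def D1 (Λ : ℕ) (Y : ℝ) : ℕ := ⌊Y ^ (180 * Λ + 1001)⌋₊

def adm3 (Λ : ℕ) (Y : ℝ) (v1 v2 : ℕ) : Prop :=
  Y ^ (90 * Λ + 1000) ≤ v1 * v2 ∧ v2 * Y ^ 1000 ≤ Y ^ (90 * Λ) ∧
    ((v1 : ℝ) * v2) ^ 7 * v1 * Y ^ 1000 ≤ Y ^ (720 * Λ)

def adm2 (Λ : ℕ) (Y : ℝ) (r κ : ℕ) : Prop :=
  Y ^ (90 * Λ + 1000) ≤ r * κ ∧ (r : ℝ) ^ 2 * ((r : ℝ) * κ) ^ 3 * Y ^ 1000 ≤ Y ^ (360 * Λ)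

structure St_TOOL : Prop where
  add : ∀ x y, ee (x + y) = ee x * ee y
  norm : ∀ x, ‖ee x‖ = 1
  int : ∀ n : ℤ, ee n = 1
  conj : ∀ x, (starRingEnd ℂ) (ee x) = ee (-x)
  geo : ∀ (θ : ℝ) (a b : ℤ), dn θ * ‖∑ m ∈ Ioc a b, ee (m * θ)‖ ≤ 1 / 2
  geoN : ∀ (θ : ℝ) (a b : ℕ), dn θ * ‖∑ m ∈ Ioc a b, ee (m * θ)‖ ≤ 1 / 2
  orth : ∀ (c : ℕ) (s j : ℤ), 0 < c →
    ∑ k ∈ Ioc s (s + c), ee (k * j / c) = if (c : ℤ) ∣ j then (c : ℂ) else 0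
  dn0 : ∀ x, 0 ≤ dn x ∧ dn x ≤ 1 / 2
  dnle : ∀ (x : ℝ) (n : ℤ), dn x ≤ |x - n|
  dnint : ∀ (x : ℝ) (n : ℤ), dn (x + n) = dn x
  dnneg : ∀ x, dn (-x) = dn x
  dnadd : ∀ x y, dn (x + y) ≤ dn x + |y|
  wle : ∀ M θ, ‖ww M θ‖ ≤ M ∧ dn θ * ‖ww M θ‖ ≤ 1 / 2 ∧ ‖ww M (-θ)‖ = ‖ww M θ‖
  /-- a sum over points spaced `1 / c` -/
  grid : ∀ (c : ℕ) (lam L : ℝ) (f : ℕ → ℝ), 0 < c → 0 ≤ L →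
    (∀ h, f h ≤ L ∧ f h * dn (lam - h / c) ≤ 1 / 2) →
    ∑ h ∈ range c, f h ≤ 2 * L + 2 * c * (1 + Real.log c)

structure St_KF : Prop where
  norm : ∀ a n c, ‖kf a n c‖ = 1
  add : ∀ a b n c, kf (a + b) n c = kf a n c * kf b n c
  conj : ∀ a n c, (starRingEnd ℂ) (kf a n c) = kf (-a) n c
  lift : ∀ a n c d, 0 < c → 0 < d → Nat.Coprime n (c * d) → kf a n c = kf (a * d) n (c * d)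
  mul : ∀ a r κ c, 0 < c → Nat.Coprime r c → Nat.Coprime κ c →
    kf a (r * κ) c = kf (a * (((r : ZMod c)⁻¹).val : ℕ)) κ c
  gcd : ∀ (a : ℤ) (r c : ℕ), 0 < c → Nat.Coprime r c →
    Int.gcd (a * (((r : ZMod c)⁻¹).val : ℕ)) c = Int.gcd a c
  ind : ∀ (n c : ℕ) (s h t : ℤ), 0 < c → Nat.Coprime n c →
    ∑ k ∈ Ioc s (s + c), ee (k * h / c) * kf (-(k * t)) n c =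
      if (c : ℤ) ∣ h * n - t then (c : ℂ) else 0
  std : ∀ (a : ℤ) (n c : ℕ) [NeZero c],
    kf a n c = ZMod.stdAddChar ((a : ZMod c) * (n : ZMod c)⁻¹)

structure St_GCD : Prop where
  one : ∀ a V : ℕ, a ≠ 0 → ∑ v ∈ Icc 1 V, Nat.gcd a v ≤ V * a.divisors.card
  fib : ∀ (A : Finset ℤ) (B : Finset ℕ) (s : ℤ), s ≠ 0 →
    ((A ×ˢ B).filter fun x => x.1 * x.2 = s).card ≤ s.natAbs.divisors.card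
  fibZ : ∀ (A B : Finset ℤ) (s : ℤ), s ≠ 0 →
    ((A ×ˢ B).filter fun x => x.1 * x.2 = s).card ≤ 2 * s.natAbs.divisors.card
  har : ∀ A : ℕ, ∑ a ∈ Icc 1 A, (1 : ℝ) / a ≤ 1 + Real.log A
  har2 : ∀ A : ℕ, ∑ a ∈ Icc 1 A, (1 : ℝ) / (a * √(a : ℝ)) ≤ 3
  col : ∀ (b : ℕ → ℕ → ℂ) (n : ℕ), (∀ x y, ‖b x y‖ ≤ 1) → ‖col b n‖ ≤ n.divisors.card
  /-- collecting a double sum by the product -/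
  prod : ∀ (A B : ℕ) (F : ℕ → ℕ → ℂ) (G : ℕ → ℂ),
    ∑ x ∈ Icc 1 A, ∑ y ∈ Icc 1 B, F x y * G (x * y) =
      ∑ n ∈ Icc 1 (A * B), AP.col (fun x y => if x ≤ A ∧ y ≤ B then F x y else 0) n * G n
  anti : ∀ (W : ℕ) (F : ℕ → ℕ → ℂ),
    ∑ n ∈ Icc 1 W, AP.col F n = ∑ x ∈ Icc 1 W, ∑ y ∈ Icc 1 W, if x * y ≤ W then F x y else 0

def St_BIG : Prop := ∀ Λ : ℕ, 100000 ≤ Λ → ∀ᶠ Y : ℝ in Filter.atTop, Big Λ Y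

def St_KER : Prop := ∀ (Λ : ℕ) (Y : ℝ), Big Λ Y → Nonempty (Ker Λ Y)

/-- spacing of the multiples of `α` in a block of length `q / 2` -/
def St_VIN : Prop := ∀ (α : ℝ) (a : ℤ) (q : ℕ), 2 ≤ q → IsCoprime a q →
  |α - a / q| ≤ 1 / (q : ℝ) ^ 2 → ∀ (F f : ℕ → ℝ) (s : ℕ), (∀ j, 0 ≤ F j) →
    (∀ t ∈ Ioc s (s + q / 2), ∀ j : ℕ, (j : ℝ) ≤ 2 * q * dn (α * t) →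
      2 * q * dn (α * t) < j + 1 → f t ≤ F j) →
    ∑ t ∈ Ioc s (s + q / 2), f t ≤ 2 * ∑ j ∈ range (q + 1), F j ∧
      (s = 0 → ∑ t ∈ Ioc s (s + q / 2), f t ≤ 2 * ∑ j ∈ Icc 1 q, F j)

def St_W1 : Prop := ∀ (Λ : ℕ) (Y α : ℝ) (q : ℕ), Big Λ Y → Dio Λ Y α q →
  ∀ (T : ℕ) (W : ℝ) (f : ℕ → ℝ), 0 ≤ W → (T : ℝ) ≤ Y ^ (1000 * Λ) →
    (∀ t ∈ Icc 1 T, f t * t ≤ W ∧ f t * dn (α * t) ≤ 1) →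
    ∑ t ∈ Icc 1 T, f t ≤ Y * (W / q + T + q)

def St_SP2 : Prop := ∀ (Λ : ℕ) (Y α : ℝ) (q : ℕ), Big Λ Y → Dio Λ Y α q →
  ∀ (S : ℕ) (M ρ : ℝ) (f : ℕ → ℝ), 0 ≤ M → 0 ≤ ρ → (S : ℝ) ≤ Y ^ (1000 * Λ) →
    (∀ s ∈ Icc 1 S, f s * (s : ℝ) ^ 2 ≤ M ^ 2 ∧ f s * dn (α * s) ^ 2 ≤ ρ ^ 2) →
    ∑ s ∈ Icc 1 S, f s ≤ Y * (ρ ^ 2 * (q : ℝ) ^ 2 + M ^ 2 / (q : ℝ) ^ 2 + M * ρ)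

/-- type I -/
def St_T1 : Prop := ∀ (Λ : ℕ) (Y α : ℝ) (q : ℕ) (K : Ker Λ Y), Big Λ Y → Dio Λ Y α q →
  ∀ (a : ℕ → ℂ) (lo hi : ℕ → ℕ), (∀ d, ‖a d‖ ≤ 1) → (∀ d : ℕ, d * hi d ≤ X1 Λ Y) →
    ‖∑ d ∈ Icc 1 (D0 Λ Y), a d * ∑ κ ∈ Ioc (lo d) (hi d), K.D α (d * κ)‖ * Y ^ 500 ≤
      K.η * Y ^ (270 * Λ)

/-- incomplete Kloosterman sums with a linear twist -/
def St_IK : Prop := ∀ (Λ : ℕ) (Y : ℝ), Big Λ Y → ∀ (c : ℕ) (a : ℤ) (lam : ℝ) (lo hi : ℕ),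
  0 < c → (c : ℝ) ≤ Y ^ (1000 * Λ) →
    ‖∑ n ∈ (Ioc lo hi).filter (Nat.Coprime · c), ee (lam * n) * kf a n c‖ ≤
      Y ^ 2 * √(c : ℝ) * √(Int.gcd a c : ℝ) * (1 + ((hi - lo : ℕ) : ℝ) / c)

def St_GAM : Prop := ∀ (Λ : ℕ) (Y : ℝ) (K : Ker Λ Y), Big Λ Y → ∀ (n1 n2 K1 : ℕ) (t : ℤ),
  0 < n2 → Nat.Coprime n1 n2 → n1 ≤ 4 * n2 → |t| ≤ 32 * K.H * n2 →
    8 * (n2 : ℝ) < (K1 + 1) * Y ^ (90 * Λ + 1) → K1 * Y ^ (90 * Λ + 1) ≤ 32 * (n2 : ℝ) →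
    ‖K.gam n1 n2 t - 1 / ((K.Q : ℂ) * n2) * ∑ x ∈ range K.P, (K.g (x / K.Q) : ℂ) *
      ee (-(t * x) / (K.Q * n2)) * ∑ k ∈ Icc (-(K1 : ℤ)) K1, kf (-(k * t)) n1 n2 *
        (K.g (k / n2 + x * n1 / (K.Q * n2)) : ℂ)‖ * Y ^ (2000 * Λ) ≤ 2

structure St_PSI : Prop where
  bd : ∀ T t, 0 ≤ psi T t ∧ psi T t ≤ 1
  one : ∀ (T : ℕ) (t : ℤ), 0 < T → |t| ≤ T → psi T t = 1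
  zero : ∀ (T : ℕ) (t : ℤ), 2 * T < |t| → psi T t = 0
  ker : ∀ (T T0 : ℕ) (y : ℝ), 0 < T → 2 * T ≤ T0 →
    ‖∑ t ∈ Icc (-(T0 : ℤ)) T0, (psi T t : ℂ) * ee (t * y)‖ ≤ 4 * T ∧
      dn y ^ 2 * T * ‖∑ t ∈ Icc (-(T0 : ℤ)) T0, (psi T t : ℂ) * ee (t * y)‖ ≤ 1 / 4

/-- the zero frequency, and the norms of the weights -/
def St_K0 : Prop := ∀ (Λ : ℕ) (Y α : ℝ) (q : ℕ) (K : Ker Λ Y), Big Λ Y → Dio Λ Y α q →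
  ∀ M N : ℕ, Box Λ Y M N → ∃ Φ : ℕ → ℝ,
    (∀ g ∈ Icc 1 (4 * N), ∀ lam : ℝ, |lam| * N * Y ^ (90 * Λ + 1) ≤ g →
      ‖∑ t ∈ nz (32 * K.H * N), K.om α M N g t * ee (-(t * lam))‖ ≤ Φ g) ∧
    ∑ g ∈ Icc 1 (4 * N), (N : ℝ) / g * Φ g ≤ Y ^ (270 * Λ + 10)

def St_OM : Prop := ∀ (Λ : ℕ) (Y α : ℝ) (q : ℕ) (K : Ker Λ Y), Big Λ Y → Dio Λ Y α q →
  ∀ M N : ℕ, Box Λ Y M N →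
    ∑ t ∈ nz (32 * K.H * N), ‖ww M (α * t)‖ ≤ N * Y ^ (90 * Λ + 5) ∧
    (∀ g t, ‖K.om α M N g t‖ ≤ M) ∧ ∀ g ∈ Icc 1 (4 * N),
      ∑ t ∈ nz (32 * K.H * N), ‖K.om α M N g t‖ ≤ N * Y ^ (90 * Λ + 5)

def St_DSP1 : Prop := ∀ (Λ : ℕ) (Y α : ℝ) (q : ℕ) (K : Ker Λ Y), Big Λ Y → Dio Λ Y α q →
  ∀ (M N : ℕ) (β : ℕ → ℂ), Box Λ Y M N → (∀ n, ‖β n‖ ≤ Y) →
    ∑ m ∈ Icc 1 M, ‖∑ n ∈ Ico N (4 * N), β n * K.D α (m * n)‖ ^ 2 ≤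
      ‖∑ n ∈ Ico N (4 * N), ∑ n' ∈ Ico N (4 * N),
        β n * (starRingEnd ℂ) (β n') * K.EE α M n n'‖ + K.η ^ 2 * N * Y ^ (270 * Λ) / Y ^ 950

/-- one value of the greatest common divisor, one coprime pair -/
def St_DSP2 : Prop := ∀ (Λ : ℕ) (Y α : ℝ) (K : Ker Λ Y), Big Λ Y →
  ∀ (M N g n1 n2 : ℕ) (Φ : ℝ), Box Λ Y M N → g * n1 ∈ Ico N (4 * N) → g * n2 ∈ Ico N (4 * N) →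
    Nat.Coprime n1 n2 →
    (∀ lam : ℝ, |lam| * N * Y ^ (90 * Λ + 1) ≤ g →
      ‖∑ t ∈ nz (32 * K.H * N), K.om α M N g t * ee (-(t * lam))‖ ≤ Φ) →
    ‖K.EE α M (g * n1) (g * n2) - 1 / (K.Q : ℂ) * ∑ x ∈ range K.P, (K.g (x / K.Q) : ℂ) *
      ∑ h ∈ Icc (-(K.H : ℤ)) K.H, K.c h * (1 / (n2 : ℂ) * ∑ k ∈ nz (K0 Λ Y N / g),
        ∑ t ∈ nz (32 * K.H * N), K.om α M N g t *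
          ee ((h * k - t * (x / K.Q) + h * (x / K.Q) * n1) / n2) * kf (-(k * t)) n1 n2)‖ ≤
      2 * g * Φ / (N * Y ^ (90 * Λ + 1)) + 1 / Y ^ (1000 * Λ)

def St_DSP : Prop := ∀ (Λ : ℕ) (Y α : ℝ) (q : ℕ) (K : Ker Λ Y), Big Λ Y → Dio Λ Y α q →
  ∀ (M N : ℕ) (β : ℕ → ℂ) (B : ℝ), Box Λ Y M N → (∀ n, ‖β n‖ ≤ Y) →
    (∀ n, β n ≠ 0 → n ∈ Ico N (4 * N)) →
    (∀ (θ : ℝ) (h : ℤ), ∑ g ∈ Icc 1 (4 * N), ‖Bs N (K0 Λ Y N / g) (32 * K.H * N)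
      (fun n => β (g * n)) (K.om α M N g) θ h‖ ≤ B) →
    ∑ m ∈ Icc 1 M, ‖∑ n ∈ Ico N (4 * N), β n * K.D α (m * n)‖ ^ 2 ≤
      K.η ^ 2 * N * Y ^ (270 * Λ) / Y ^ 900 + 2 * B / Y ^ (90 * Λ + 1)

/-- the trilinear sum of Kloosterman fractions -/
def S3 (S1 S2 : Finset ℕ) (N4 : ℕ) (Ks Ts : Finset ℤ) (β : ℕ → ℂ) (ω : ℤ → ℂ)
    (φ : ℤ → ℤ → ℕ → ℕ → ℂ) (lam : ℕ → ℕ → ℝ) : ℂ :=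
  ∑ n ∈ Icc 1 N4, β n * ∑ v1 ∈ S1, ∑ v2 ∈ S2, if Nat.Coprime n (v1 * v2) then
    ∑ k ∈ Ks, ∑ t ∈ Ts, ω t * φ k t v1 v2 * ee (lam v1 v2 * n) * kf (-(k * t)) n (v1 * v2) else 0

/-- Cauchy's inequality and expansion of the square -/
def St_B3a : Prop := ∀ (S1 S2 : Finset ℕ) (N4 : ℕ) (Ks Ts : Finset ℤ) (β : ℕ → ℂ) (ω : ℤ → ℂ)
  (φ : ℤ → ℤ → ℕ → ℕ → ℂ) (lam : ℕ → ℕ → ℝ), (∀ v ∈ S1, 0 < v) → (∀ v ∈ S2, 0 < v) →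
    (∀ n, ‖β n‖ ≤ 1) → (∀ k t v1 v2, ‖φ k t v1 v2‖ ≤ 1) →
    ‖S3 S1 S2 N4 Ks Ts β ω φ lam‖ ^ 2 ≤ N4 * S2.card * ∑ v2 ∈ S2, ∑ z ∈ Ks ×ˢ Ts ×ˢ S1,
      ∑ z' ∈ Ks ×ˢ Ts ×ˢ S1, ‖ω z.2.1‖ * ‖ω z'.2.1‖ *
        ‖∑ n ∈ (Ioc 0 N4).filter (Nat.Coprime · (z.2.2 * z'.2.2 * v2)),
          ee ((lam z.2.2 v2 - lam z'.2.2 v2) * n) *
            kf (z'.1 * z'.2.1 * z.2.2 - z.1 * z.2.1 * z'.2.2) n (z.2.2 * z'.2.2 * v2)‖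

/-- diagonal terms -/
def St_B3d : Prop := ∀ (Λ : ℕ) (Y : ℝ), Big Λ Y → ∀ (S1 : Finset ℕ) (Ks Ts : Finset ℤ)
  (ω : ℤ → ℂ) (M W1 : ℝ), (∀ v ∈ S1, 0 < v ∧ (v : ℝ) ≤ Y ^ (300 * Λ)) →
    (∀ k ∈ Ks, k ≠ 0 ∧ |(k : ℝ)| ≤ Y ^ (300 * Λ)) → (∀ t ∈ Ts, t ≠ 0 ∧ |(t : ℝ)| ≤ Y ^ (300 * Λ)) →
    0 ≤ M → (∀ t, ‖ω t‖ ≤ M) → ∑ t ∈ Ts, ‖ω t‖ ≤ W1 →
    ∑ z ∈ Ks ×ˢ Ts ×ˢ S1, ∑ z' ∈ Ks ×ˢ Ts ×ˢ S1,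
      (if z'.1 * z'.2.1 * z.2.2 - z.1 * z.2.1 * z'.2.2 = 0 then ‖ω z.2.1‖ * ‖ω z'.2.1‖ else 0) ≤
      2 * Y ^ 2 * M * W1 * Ks.card * S1.card

/-- off-diagonal terms: the average of the greatest common divisors -/
def St_B3o : Prop := ∀ (Λ : ℕ) (Y : ℝ), Big Λ Y → ∀ (V2 U2 : ℕ) (Ks Ts : Finset ℤ)
  (ω : ℤ → ℂ) (W1 : ℝ), (V2 : ℝ) ≤ Y ^ (300 * Λ) →
    (∀ k ∈ Ks, k ≠ 0 ∧ |(k : ℝ)| ≤ Y ^ (300 * Λ)) → (∀ t ∈ Ts, t ≠ 0 ∧ |(t : ℝ)| ≤ Y ^ (300 * Λ)) →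
    ∑ t ∈ Ts, ‖ω t‖ ≤ W1 →
    ∑ v2 ∈ Icc 1 U2, ∑ z ∈ Ks ×ˢ Ts ×ˢ Icc 1 V2, ∑ z' ∈ Ks ×ˢ Ts ×ˢ Icc 1 V2,
      (if z'.1 * z'.2.1 * z.2.2 - z.1 * z.2.1 * z'.2.2 = 0 then 0 else ‖ω z.2.1‖ * ‖ω z'.2.1‖ *
        √(Int.gcd (z'.1 * z'.2.1 * z.2.2 - z.1 * z.2.1 * z'.2.2)
          ((z.2.2 * z'.2.2 * v2 : ℕ) : ℤ) : ℝ)) ≤
      Y ^ 3 * W1 ^ 2 * (Ks.card : ℝ) ^ 2 * (V2 : ℝ) ^ 2 * U2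

def St_B3 : Prop := ∀ (Λ : ℕ) (Y : ℝ), Big Λ Y → ∀ (V U K1 M W1 : ℝ) (S1 S2 : Finset ℕ) (N4 : ℕ)
  (Ks Ts : Finset ℤ) (β : ℕ → ℂ) (ω : ℤ → ℂ) (φ : ℤ → ℤ → ℕ → ℕ → ℂ) (lam : ℕ → ℕ → ℝ),
    1 / 2 ≤ V → 1 / 2 ≤ U → V ≤ Y ^ (200 * Λ) → U ≤ Y ^ (200 * Λ) → 0 ≤ K1 →
    K1 ≤ Y ^ (200 * Λ) → (∀ v ∈ S1, V ≤ v ∧ v ≤ 2 * V) → (∀ v ∈ S2, U ≤ v ∧ v ≤ 2 * U) →
    N4 ≤ 4 * U * V → (∀ k ∈ Ks, k ≠ 0 ∧ |(k : ℝ)| ≤ K1) →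
    (∀ t ∈ Ts, t ≠ 0 ∧ |(t : ℝ)| ≤ Y ^ (300 * Λ)) → (∀ n, ‖β n‖ ≤ 1) →
    (∀ k t v1 v2, ‖φ k t v1 v2‖ ≤ 1) → 0 ≤ M → (∀ t, ‖ω t‖ ≤ M) → ∑ t ∈ Ts, ‖ω t‖ ≤ W1 →
    ‖S3 S1 S2 N4 Ks Ts β ω φ lam‖ ≤
      Y ^ 5 * (U * V * U * √(M * W1 * K1 * V) + U * V * √(U * V) * W1 * K1 * √√(V ^ 2 * U))

def St_B2 : Prop := ∀ (Λ : ℕ) (Y : ℝ), Big Λ Y → ∀ (N1 W1 : ℝ) (R1 : ℕ) (S2 : Finset ℕ)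
  (Ks Ts : Finset ℤ) (lo hi : ℕ → ℕ) (ω : ℤ → ℂ) (φ : ℕ → ℕ → ℤ → ℤ → ℂ) (lam : ℕ → ℕ → ℝ),
    0 < N1 → N1 ≤ Y ^ (200 * Λ) → (∀ n ∈ S2, N1 ≤ n ∧ n ≤ 4 * N1) →
    (∀ r, ((hi r - lo r : ℕ) : ℝ) ≤ 4 * N1) → (∀ k ∈ Ks, k ≠ 0 ∧ |(k : ℝ)| ≤ Y ^ (300 * Λ)) →
    (∀ t ∈ Ts, t ≠ 0 ∧ |(t : ℝ)| ≤ Y ^ (300 * Λ)) → (∀ r n k t, ‖φ r n k t‖ ≤ 1) →
    ∑ t ∈ Ts, ‖ω t‖ ≤ W1 →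
    ‖∑ r ∈ Icc 1 R1, ∑ n ∈ S2, if Nat.Coprime r n then ∑ k ∈ Ks, ∑ t ∈ Ts, ω t * φ r n k t *
      ∑ κ ∈ (Ioc (lo r) (hi r)).filter (Nat.Coprime · n), ee (lam r n * κ) *
        kf (-(k * t)) (r * κ) n else 0‖ ≤ Y ^ 4 * R1 * W1 * Ks.card * (N1 * √N1)

def St_S3 : Prop := ∀ (Λ : ℕ) (Y : ℝ), Big Λ Y → ∀ (V U K T : ℕ) (M W1 θ : ℝ) (h : ℤ)
  (b : ℕ → ℕ → ℂ) (ω : ℕ → ℤ → ℂ), 0 < V → 0 < U → ((U * V : ℕ) : ℝ) ≤ Y ^ (120 * Λ) →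
    K ≤ U * V → (T : ℝ) ≤ Y ^ (300 * Λ) → (∀ x y, ‖b x y‖ ≤ 1) →
    (∀ x y, b x y ≠ 0 → x ∈ Ico V (2 * V) ∧ y ∈ Ico U (2 * U)) → 0 ≤ M → (∀ g t, ‖ω g t‖ ≤ M) →
    (∀ g ∈ Icc 1 (4 * (U * V)), ∑ t ∈ nz T, ‖ω g t‖ ≤ W1) →
    ∑ g ∈ Icc 1 (4 * (U * V)), ‖Bs (U * V) (K / g) T (fun n => col b (g * n)) (ω g) θ h‖ ≤
      Y ^ 10 * (U * √(M * W1 * K * V) + √((U : ℝ) * V) * W1 * K * √√((U : ℝ) * V * V))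

def St_S2 : Prop := ∀ (Λ : ℕ) (Y : ℝ), Big Λ Y → ∀ (N R K T : ℕ) (W1 θ θ0 : ℝ) (h : ℤ)
  (b : ℕ → ℂ) (lo hi : ℕ → ℕ) (ω : ℕ → ℤ → ℂ), 0 < N → (N : ℝ) ≤ Y ^ (120 * Λ) → K ≤ N →
    (T : ℝ) ≤ Y ^ (300 * Λ) → (∀ r, ‖b r‖ ≤ 1) →
    (∀ r κ, b r ≠ 0 → κ ∈ Ioc (lo r) (hi r) → r ≤ R ∧ r * κ ∈ Ico N (4 * N)) →
    (∀ g ∈ Icc 1 (4 * N), ∑ t ∈ nz T, ‖ω g t‖ ≤ W1) →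
    ∑ g ∈ Icc 1 (4 * N), ‖Bs N (K / g) T (fun n => col2 b lo hi θ0 (g * n)) (ω g) θ h‖ ≤
      Y ^ 10 * R * W1 * K * √(N : ℝ)

def St_BX3 : Prop := ∀ (Λ : ℕ) (Y α : ℝ) (q : ℕ) (K : Ker Λ Y), Big Λ Y → Dio Λ Y α q →
  ∀ (M V U : ℕ) (a : ℕ → ℂ) (b : ℕ → ℕ → ℂ), Box Λ Y M (U * V) → U * Y ^ 1000 ≤ Y ^ (90 * Λ) →
    ((U : ℝ) * V) ^ 7 * V * Y ^ 1000 ≤ Y ^ (720 * Λ) → (∀ m, ‖a m‖ ≤ 1) → (∀ x y, ‖b x y‖ ≤ 1) →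
    ‖∑ m ∈ Icc 1 M, ∑ x ∈ Ico V (2 * V), ∑ y ∈ Ico U (2 * U),
      a m * b x y * K.D α (m * (x * y))‖ * Y ^ 80 ≤ K.η * Y ^ (270 * Λ)

def St_BX2 : Prop := ∀ (Λ : ℕ) (Y α : ℝ) (q : ℕ) (K : Ker Λ Y), Big Λ Y → Dio Λ Y α q →
  ∀ (M N R : ℕ) (θ0 : ℝ) (a b : ℕ → ℂ) (lo hi : ℕ → ℕ), Box Λ Y M N →
    (R : ℝ) ^ 2 * (N : ℝ) ^ 3 * Y ^ 990 ≤ Y ^ (360 * Λ) → (∀ m, ‖a m‖ ≤ 1) → (∀ r, ‖b r‖ ≤ 1) →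
    (∀ r ∈ Icc 1 R, ∀ κ ∈ Ioc (lo r) (hi r), r * κ ∈ Ico N (4 * N)) →
    ‖∑ m ∈ Icc 1 M, ∑ r ∈ Icc 1 R, ∑ κ ∈ Ioc (lo r) (hi r),
      a m * (b r * ee (θ0 * (r * κ : ℕ))) * K.D α (m * (r * κ))‖ * Y ^ 80 ≤ K.η * Y ^ (270 * Λ)

/-- separation of variables in an inequality -/
def St_SEP : Prop := ∀ Z : ℕ, ∃ c : ℕ → ℂ,
  ∑ j ∈ range (2 * Z + 2), ‖c j‖ ≤ 3 * (1 + Real.log (2 * Z + 2)) ∧ ∀ u v : ℕ, u ≤ Z → v ≤ Z →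
    (if u < v then (1 : ℂ) else 0) = ∑ j ∈ range (2 * Z + 2),
      c j * ee (-(j * u) / (2 * Z + 2)) * ee (j * v / (2 * Z + 2))

/-- the trilinear estimate with cut-off and four cross conditions -/
def St_ET3 : Prop := ∀ (Λ : ℕ) (Y α : ℝ) (q : ℕ) (K : Ker Λ Y), Big Λ Y → Dio Λ Y α q →
  ∀ (a b : ℕ → ℕ → ℂ) (u v : Fin 4 → ℕ → ℕ → ℕ) (j : ℕ), (∀ x y, ‖a x y‖ ≤ 1) →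
    (∀ x y, ‖b x y‖ ≤ 1) → (∀ x y, b x y ≠ 0 → adm3 Λ Y x y) →
    (∀ i x y, u i x y ≤ 2 * X1 Λ Y ∧ v i x y ≤ 2 * X1 Λ Y) → j ≤ X1 Λ Y →
    ‖∑ m ∈ Icc 1 (X1 Λ Y), ∑ e ∈ Icc 1 (X1 Λ Y), ∑ x ∈ Icc 1 (X1 Λ Y), ∑ y ∈ Icc 1 (X1 Λ Y),
      if m * e * (x * y) ∈ Ioc (X0 Λ Y) j ∧ ∀ i, u i m e < v i x y then
        a m e * b x y * K.D α (m * e * (x * y)) else 0‖ * Y ^ 70 ≤ K.η * Y ^ (270 * Λ)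

/-- the estimate with a free variable `κ` -/
def St_EII : Prop := ∀ (Λ : ℕ) (Y α : ℝ) (q : ℕ) (K : Ker Λ Y), Big Λ Y → Dio Λ Y α q →
  ∀ (a b : ℕ → ℕ → ℂ) (u v : Fin 4 → ℕ → ℕ → ℕ) (j : ℕ), (∀ x y, ‖a x y‖ ≤ 1) →
    (∀ x y, ‖b x y‖ ≤ 1) → (∀ i x y, u i x y ≤ 2 * X1 Λ Y ∧ v i x y ≤ 2 * X1 Λ Y) → j ≤ X1 Λ Y →
    ‖∑ m ∈ Icc 1 (X1 Λ Y), ∑ e ∈ Icc 1 (X1 Λ Y), ∑ r ∈ Icc 1 (X1 Λ Y), ∑ f ∈ Icc 1 (X1 Λ Y),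
      ∑ κ ∈ Icc 1 (X1 Λ Y), if m * e * (r * f * κ) ∈ Ioc (X0 Λ Y) j ∧ adm2 Λ Y (r * f) κ ∧
        ∀ i, u i m e < v i r f then a m e * b r f * K.D α (m * e * (r * f * κ)) else 0‖ *
      Y ^ 70 ≤ K.η * Y ^ (270 * Λ)

end Pool.Agent.Lib.AP
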