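import Pool.Agent.Lib.AP.Blue

/-! Primes with small `fract (α p)`: peeling, evaluation of the sieve, assembly. -/

open Finset Classical

noncomputable section

namespace Pool.Agent.Lib.AP

/-- no prime factor up to `z = Y ^ (10 Λ - 1200)` -/
def rough (Λ : ℕ) (Y : ℝ) (n : ℕ) : Prop :=
  ∀ p : ℕ, p.Prime → p ∣ n → Y ^ (10 * Λ) < p * Y ^ 1200

def smooth (Λ : ℕ) (Y : ℝ) (n : ℕ) : Prop :=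
  ∀ p : ℕ, p.Prime → p ∣ n → p * Y ^ 1200 ≤ Y ^ (10 * Λ)

def mu' (Λ : ℕ) (Y : ℝ) (e : ℕ) : ℤ := if smooth Λ Y e then ArithmeticFunction.moebius e else 0

/-- greatest prime factor, `0` for `1` -/
def pmax (e : ℕ) : ℕ := e.primeFactors.sup id

/-- all primes of `e` exceed all primes of `f` -/
def above (e f : ℕ) : Prop := ∀ p ∈ e.primeFactors, pmax f < p

def HD (Λ : ℕ) (Y : ℝ) (a a' : ℕ → ℂ) : Prop :=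
  (∀ m, a m ≠ 0 → m ≤ D0 Λ Y) ∧ ∀ r, a' r ≠ 0 → r = 1

def HE (Λ : ℕ) (Y : ℝ) (a a' : ℕ → ℂ) : Prop :=
  ∃ μ ρ : ℕ, μ ≤ 170 * Λ ∧ 2 * ρ + 450 * Λ + 1100 ≤ 3 * μ ∧
    (∀ m, a m ≠ 0 → (m : ℝ) ≤ Y ^ μ ∧ Y ^ μ ≤ m * Y ^ 27) ∧ ∀ r, a' r ≠ 0 → (r : ℝ) ≤ Y ^ ρ

/-- the part of the peeled sum with `m e` in the set `C` -/
def Pz {Λ : ℕ} {Y : ℝ} (K : Ker Λ Y) (α : ℝ) (C : ℕ → Prop) (a a' : ℕ → ℂ) (j : ℕ) : ℂ :=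
  ∑ m ∈ Icc 1 (X1 Λ Y), ∑ r ∈ Icc 1 (X1 Λ Y), ∑ e ∈ Icc 1 (X1 Λ Y), ∑ κ ∈ Icc 1 (X1 Λ Y),
    if m * r * (e * κ) ∈ Ioc (X0 Λ Y) j ∧ C (m * e) then
      a m * a' r * (mu' Λ Y e : ℂ) * K.D α (m * r * (e * κ)) else 0

def lvN (Y : ℝ) (p : ℕ) : ℕ := ⌈Real.logb Y p⌉₊

def levN (Y : ℝ) (n : ℕ) : List ℕ := n.primeFactorsList.map (lvN Y)

/-- the levels of the prime factors, ascending -/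
def lev (Y : ℝ) (n : ℕ) : List ℝ := (levN Y n).map fun i : ℕ => (i : ℝ)

def typ (Y : ℝ) (S : Finset ℕ) (n : ℕ) : Prop := n ≠ 0 ∧ levN Y n = S.sort (· ≤ ·)

/-- divisors that are punished -/
def pen (Λ : ℕ) (l : List ℝ) : Prop :=
  gD Λ 1 l.sum ∧ (|l.sum - 90 * Λ| ≤ 1100 ∨ |l.sum - 135 * Λ| ≤ 1100 ∨ (∃ x, l = [x, x]) ∨
    ∃ x ∈ l, 270 * Λ + 1 ≤ l.sum + x ∧ l.sum + x ≤ 270 * Λ + 28)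

def aw (Λ : ℕ) (Y : ℝ) (d : ℕ) : ℤ :=
  if rough Λ Y d then (if (lev Y d).Nodup then a0 Λ 1 (lev Y d) else 0) -
    (if pen Λ (lev Y d) then 2 ^ 60 else 0) else 0

def rhoA (Λ : ℕ) (Y : ℝ) (n : ℕ) : ℤ :=
  ∑ x ∈ n.divisorsAntidiagonal, if rough Λ Y x.2 then aw Λ Y x.1 else 0

def rhoC (Λ : ℕ) (Y : ℝ) (n : ℕ) : ℤ :=
  if rough Λ Y n ∧ (lev Y n).Nodup ∧ cov Λ 1 (lev Y n) then T0 Λ 1 (lev Y n) else 0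

/-- the lower bound sieve -/
def rho (Λ : ℕ) (Y : ℝ) (n : ℕ) : ℤ := rhoA Λ Y n - rhoC Λ Y n

def St_GENV' : Prop := ∀ m x, x ≠ [] → GenV m x → Gen m x

def St_ROU : Prop := ∀ (Λ : ℕ) (Y : ℝ) (m : ℕ), m ≠ 0 →
  ∑ x ∈ m.divisorsAntidiagonal, mu' Λ Y x.1 = if rough Λ Y m then 1 else 0

structure St_SPL : Prop where
  bot : ∀ e B : ℕ, Squarefree e → 1 ≤ B → ∑ x ∈ e.divisorsAntidiagonal,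
    (if above x.1 x.2 ∧ x.1 ≤ B ∧ B < x.1 * pmax x.2 then (1 : ℤ) else 0) = if B < e then 1 else 0
  top : ∀ e B : ℕ, Squarefree e → 1 ≤ B → ∑ x ∈ e.divisorsAntidiagonal,
    (if above x.1 x.2 ∧ B < x.1 ∧ x.1 / x.1.minFac ≤ B then (1 : ℤ) else 0) =
      if B < e then 1 else 0
  mul : ∀ (Λ : ℕ) (Y : ℝ) (e f : ℕ), e ≠ 0 → f ≠ 0 → above e f →
    mu' Λ Y (e * f) = mu' Λ Y e * mu' Λ Y f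
  sq : ∀ (Λ : ℕ) (Y : ℝ) (e : ℕ), |mu' Λ Y e| ≤ 1 ∧ (mu' Λ Y e ≠ 0 → Squarefree e ∧ smooth Λ Y e)
  three : ∀ e v f : ℕ, e ≠ 0 → 1 < v → f ≠ 0 → above e v →
    (e * v).minFac = v.minFac ∧ (above (e * v) f ↔ pmax f < v.minFac)
  min : ∀ e f : ℕ, 1 < e → (above e f ↔ pmax f < e.minFac)

def St_PAD : Prop := ∀ (Λ : ℕ) (Y α : ℝ) (q : ℕ) (K : Ker Λ Y), Big Λ Y → Dio Λ Y α q →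
  ∀ (a a' : ℕ → ℂ) (j : ℕ), (∀ m, ‖a m‖ ≤ 1) → (∀ r, ‖a' r‖ ≤ 1) → j ≤ X1 Λ Y → HD Λ Y a a' →
    ‖Pz K α (· ≤ D0 Λ Y) a a' j‖ * Y ^ 65 ≤ K.η * Y ^ (270 * Λ)

def St_PAE : Prop := ∀ (Λ : ℕ) (Y α : ℝ) (q : ℕ) (K : Ker Λ Y), Big Λ Y → Dio Λ Y α q →
  ∀ (a a' : ℕ → ℂ) (j : ℕ), (∀ m, ‖a m‖ ≤ 1) → (∀ r, ‖a' r‖ ≤ 1) → j ≤ X1 Λ Y → HE Λ Y a a' →
    ‖Pz K α (· ≤ D0 Λ Y) a a' j‖ * Y ^ 65 ≤ K.η * Y ^ (270 * Λ)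

/-- admissibility in the thin range -/
def St_ADM1 : Prop := ∀ (Λ : ℕ) (Y : ℝ), Big Λ Y → ∀ (a a' : ℕ → ℂ) (m r e f κ : ℕ),
  HD Λ Y a a' ∨ HE Λ Y a a' → a m ≠ 0 → a' r ≠ 0 → e ≠ 0 → f ≠ 0 → smooth Λ Y f → above e f →
    m * e ≤ D0 Λ Y → D0 Λ Y < m * e * pmax f → m * (e * f) ≤ D1 Λ Y →
    m * e * (r * f * κ) ∈ Ioc (X0 Λ Y) (X1 Λ Y) → adm2 Λ Y (r * f) κ

def St_PB1 : Prop := ∀ (Λ : ℕ) (Y α : ℝ) (q : ℕ) (K : Ker Λ Y), Big Λ Y → Dio Λ Y α q →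
  ∀ (a a' : ℕ → ℂ) (j : ℕ), (∀ m, ‖a m‖ ≤ 1) → (∀ r, ‖a' r‖ ≤ 1) → j ≤ X1 Λ Y →
    HD Λ Y a a' ∨ HE Λ Y a a' →
    ‖Pz K α (fun s => D0 Λ Y < s ∧ s ≤ D1 Λ Y) a a' j‖ * Y ^ 65 ≤ K.η * Y ^ (270 * Λ)

/-- admissibility beyond the thin range -/
def St_ADM2 : Prop := ∀ (Λ : ℕ) (Y : ℝ), Big Λ Y → ∀ M v y : ℕ, smooth Λ Y v → 1 < v →
  M ≤ D0 Λ Y → D0 Λ Y < M * pmax v → D1 Λ Y < M * v → M * (v / v.minFac) ≤ D1 Λ Y →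
    M * (v * y) ∈ Ioc (X0 Λ Y) (X1 Λ Y) → adm3 Λ Y v y

def St_PB2 : Prop := ∀ (Λ : ℕ) (Y α : ℝ) (q : ℕ) (K : Ker Λ Y), Big Λ Y → Dio Λ Y α q →
  ∀ (a a' : ℕ → ℂ) (j : ℕ), (∀ m, ‖a m‖ ≤ 1) → (∀ r, ‖a' r‖ ≤ 1) → j ≤ X1 Λ Y →
    (∀ m, a m ≠ 0 → m ≤ D0 Λ Y) →
    ‖Pz K α (D1 Λ Y < ·) a a' j‖ * Y ^ 65 ≤ K.η * Y ^ (270 * Λ)

def St_PEEL : Prop := ∀ (Λ : ℕ) (Y α : ℝ) (q : ℕ) (K : Ker Λ Y), Big Λ Y → Dio Λ Y α q →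
  ∀ (a a' : ℕ → ℂ) (j : ℕ), (∀ m, ‖a m‖ ≤ 1) → (∀ r, ‖a' r‖ ≤ 1) → j ≤ X1 Λ Y →
    HD Λ Y a a' ∨ HE Λ Y a a' →
    ‖∑ n ∈ Ioc (X0 Λ Y) j, col (fun d s => if rough Λ Y s then
      col (fun m r => a m * a' r) d else 0) n * K.D α n‖ * Y ^ 60 ≤ K.η * Y ^ (270 * Λ)

/-- levels -/
structure St_LEV : Prop where
  size : ∀ (Y : ℝ) (n : ℕ), 1 < Y → n ≠ 0 →
    (n : ℝ) ≤ Y ^ (levN Y n).sum ∧ Y ^ (levN Y n).sum ≤ n * Y ^ (levN Y n).length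
  asc : ∀ (Y : ℝ) (n : ℕ), 1 < Y → (levN Y n).Pairwise (· ≤ ·)
  rou : ∀ (Λ : ℕ) (Y : ℝ) (n : ℕ), 1 < Y → n ≠ 0 →
    (rough Λ Y n ↔ ∀ i ∈ levN Y n, 10 * Λ < i + 1200)
  len : ∀ (Λ : ℕ) (Y : ℝ) (n : ℕ), Big Λ Y → n ≠ 0 → n ≤ X1 Λ Y → rough Λ Y n →
    (levN Y n).length ≤ 27 ∧ n.divisors.card ≤ 2 ^ 27 ∧ (levN Y n).sum ≤ 270 * Λ + 28
  tot : ∀ (Λ : ℕ) (Y : ℝ) (n : ℕ), Big Λ Y → X0 Λ Y < n → 270 * Λ + 1 ≤ (levN Y n).sum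
  sub : ∀ (Y : ℝ) (n : ℕ) (S : List ℝ), n ≠ 0 → S.Sublist (lev Y n) → ∃ d, d ∣ n ∧ lev Y d = S
  dvd : ∀ (Y : ℝ) (n d : ℕ), n ≠ 0 → d ∣ n → (lev Y d).Sublist (lev Y n)
  sum : ∀ (Y : ℝ) (n : ℕ) (F : List ℝ → ℤ), n ≠ 0 → (lev Y n).Nodup →
    ∑ d ∈ n.divisors, F (lev Y d) = ((lev Y n).sublists'.map F).sum

def St_TYP : Prop := ∀ (Y : ℝ) (S S' : Finset ℕ) (n : ℕ), 1 < Y → Disjoint S S' →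
  (if typ Y (S ∪ S') n then (1 : ℂ) else 0) =
    col (fun m r => (if typ Y S m then 1 else 0) * (if typ Y S' r then 1 else 0)) n

def St_EVA : Prop := ∀ (Λ : ℕ) (Y α : ℝ) (q : ℕ) (K : Ker Λ Y), Big Λ Y → Dio Λ Y α q →
  ∀ j : ℕ, j ≤ X1 Λ Y →
    ‖∑ n ∈ Ioc (X0 Λ Y) j, (rhoA Λ Y n : ℂ) * K.D α n‖ * Y ^ 55 ≤ K.η * Y ^ (270 * Λ)

def St_EVC : Prop := ∀ (Λ : ℕ) (Y α : ℝ) (q : ℕ) (K : Ker Λ Y), Big Λ Y → Dio Λ Y α q →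
  ∀ j : ℕ, j ≤ X1 Λ Y →
    ‖∑ n ∈ Ioc (X0 Λ Y) j, (rhoC Λ Y n : ℂ) * K.D α n‖ * Y ^ 55 ≤ K.η * Y ^ (270 * Λ)

/-- without punished divisors the levels are distinct and in general position -/
def St_NOP : Prop := ∀ (Λ : ℕ) (Y : ℝ) (n : ℕ), Big Λ Y → n ∈ Ioc (X0 Λ Y) (X1 Λ Y) →
  rough Λ Y n → (∀ d, d ∣ n → ¬ pen Λ (lev Y d)) →
    Win Λ 1 (lev Y n) ∧ rhoA Λ Y n = T0 Λ 1 (lev Y n)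

def St_RHO : Prop := ∀ (Λ : ℕ) (Y : ℝ) (n : ℕ), Big Λ Y → n ∈ Ioc (X0 Λ Y) (X1 Λ Y) →
  (n.Prime → rho Λ Y n = 1) ∧ (¬ n.Prime → rho Λ Y n ≤ 0) ∧ (¬ rough Λ Y n → rho Λ Y n = 0) ∧
    -2 ^ 100 ≤ rho Λ Y n

def St_LOS : Prop := ∀ (Λ : ℕ) (Y : ℝ) (n : ℕ), Big Λ Y → n ∈ Ioc (X0 Λ Y) (X1 Λ Y) →
  rough Λ Y n → Gen (10000 / Λ) (xs (Y ^ Λ) n) →
    Dom (xs (Y ^ Λ) n) ∧ -(rho Λ Y n : ℝ) ≤ lossI (xs (Y ^ Λ) n)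

/-- one thin slab -/
def St_SLAB : Prop := ∃ C : ℝ, ∀ Λ : ℕ, 100000 ≤ Λ → ∀ ε : ℝ, 0 < ε → ∀ᶠ Y : ℝ in Filter.atTop,
  ∀ (k : ℕ) (c : ℕ → ℤ) (γ : ℤ), (∃ i < k, 270 * c i ≠ γ) →
    ∑ n ∈ Ioc (X0 Λ Y) (X1 Λ Y), (if rough Λ Y n ∧ (xs (Y ^ Λ) n).length = k ∧
      |∑ i ∈ range k, (c i : ℝ) * (xs (Y ^ Λ) n).getD i 0 - γ| ≤ 10000 / Λ then (1 : ℝ) / n
      else 0) ≤ C / (Λ : ℝ) ^ 2 + ε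

def St_THIN : Prop := ∃ C : ℝ, ∀ Λ : ℕ, 100000 ≤ Λ → ∀ ε : ℝ, 0 < ε → ∀ᶠ Y : ℝ in Filter.atTop,
  ∑ n ∈ Ioc (X0 Λ Y) (X1 Λ Y), (if rough Λ Y n ∧ ¬ GenV (10000 / Λ) (xs (Y ^ Λ) n) then
    (1 : ℝ) / n else 0) ≤ C / (Λ : ℝ) ^ 2 + ε

def St_MAIN : Prop := ∃ Λ : ℕ, 100000 ≤ Λ ∧ ∃ c : ℝ, 0 < c ∧ ∀ᶠ Y : ℝ in Filter.atTop,
  c ≤ ∑ n ∈ Ioc (X0 Λ Y) (X1 Λ Y), (rho Λ Y n : ℝ) / n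

def St_CORE : Prop := ∃ Λ : ℕ, 1 ≤ Λ ∧ ∀ᶠ Y : ℝ in Filter.atTop, ∀ (α : ℝ) (q : ℕ),
  Dio Λ Y α q → ∃ p : ℕ, p.Prime ∧ p ∈ Ioc (X0 Λ Y) (X1 Λ Y) ∧ 0 < Int.fract (α * p) ∧
    Int.fract (α * p) * Y ^ (90 * Λ + 1) < 1

def St_FIN : Prop := ∃ δ : ℝ, 0 < δ ∧ ∀ α : ℝ, Irrational α →
  {p : ℕ | p.Prime ∧ Int.fract (α * p) < (p : ℝ) ^ (-(1 / 3 + δ))}.Infinite

end Pool.Agent.Lib.AP
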