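import Pool.Agent.Lib.AP.Blue2

/-! Primes `p` with small `fract (α p)` and with `⌊α p⌋` free of small prime factors. -/

open Finset Classical

noncomputable section

namespace Pool.Agent.Lib.AP

/-- a family of kernels; `K d` detects in addition that `d` divides the integer part -/
def St_KERD : Prop := ∀ (Λ : ℕ) (Y : ℝ), Big Λ Y → ∃ K : ℕ → Ker Λ Y, ∀ d : ℕ, 1 ≤ d →
  (d : ℝ) ^ 3 ≤ Y →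
    (∀ x : ℝ, |(K d).g (x / d) - (if (d : ℤ) ∣ ⌊x⌋ then (K 1).g x else 0)| * Y ^ (180 * Λ) ≤ 1) ∧
      |(K d).η - (K 1).η / d| * Y ^ (180 * Λ) ≤ 1

/-- evaluation of the rough numbers -/
def St_EVR : Prop := ∀ (Λ : ℕ) (Y α : ℝ) (q : ℕ) (K : Ker Λ Y), Big Λ Y → Dio Λ Y α q →
  ∀ j : ℕ, j ≤ X1 Λ Y →
    ‖∑ n ∈ Ioc (X0 Λ Y) j, (if rough Λ Y n then 1 else 0 : ℂ) * K.D α n‖ * Y ^ 55 ≤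
      K.η * Y ^ (270 * Λ)

/-- the mass of the rough numbers -/
def St_RM : Prop := ∃ C : ℝ, ∀ Λ : ℕ, 100000 ≤ Λ → ∀ᶠ Y : ℝ in Filter.atTop,
  ∑ n ∈ Ioc (X0 Λ Y) (X1 Λ Y), (if rough Λ Y n then (1 : ℝ) / n else 0) ≤ C

def St_CORE2 : Prop := ∃ Λ s : ℕ, 1 ≤ Λ ∧ ∀ᶠ Y : ℝ in Filter.atTop, ∀ (α : ℝ) (q : ℕ) (a : ℤ),
  (q : ℝ) = Y ^ (180 * Λ) → IsCoprime a q → |α - a / q| ≤ 1 / (q : ℝ) ^ 2 →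
    ∃ p : ℕ, p.Prime ∧ p ∈ Ioc (X0 Λ Y) (X1 Λ Y) ∧ 0 < Int.fract (α * p) ∧
      Int.fract (α * p) * Y ^ (90 * Λ + 1) < 1 ∧
      ∀ l : ℕ, l.Prime → (l : ℤ) ∣ ⌊α * p⌋ → Y < (l : ℝ) ^ s

def St_FIN2 : Prop := ∃ δ : ℝ, 0 < δ ∧ ∃ K : ℕ, ∀ D : ℝ, 0 < D → Irrational (√D) →
  {p : ℕ | p.Prime ∧ ∃ r : ℕ, r.primeFactorsList.length ≤ K ∧
    0 < D * (r : ℝ) ^ 2 - (p : ℝ) ^ 2 ∧
      D * (r : ℝ) ^ 2 - (p : ℝ) ^ 2 ≤ (p : ℝ) ^ (2 / 3 - δ)}.Infinite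

end Pool.Agent.Lib.AP
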