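import Pool.Agent.Lib.AP.C82a

/-! Lists with big parts. -/

open Finset Classical

noncomputable section

namespace Pool.Agent.Lib.AP

namespace C82

variable {u μ : ℝ}

theorem nb_cons (u x : ℝ) (S : List ℝ) : nb u (x :: S) = nb u S + if 90 * u < x then 1 else 0 := by
  simp [nb, List.countP_cons]

theorem nb_append (u : ℝ) (S C : List ℝ) : nb u (S ++ C) = nb u S + nb u C := List.countP_append

theorem nb_perm (u : ℝ) {S C : List ℝ} (h : S.Perm C) : nb u S = nb u C := h.countP_eq _

theorem nb_sub (u : ℝ) {S C : List ℝ} (h : S.Sublist C) : nb u S ≤ nb u C := h.countP_le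

theorem nb_zero {S : List ℝ} : nb u S = 0 ↔ ∀ x ∈ S, x ≤ 90 * u := by
  simp [nb, List.countP_eq_zero]

theorem big_sum (c : ℝ) (C : List ℝ) (h0 : ∀ x ∈ C, 0 ≤ x) (h1 : ∀ x ∈ C, 90 * u < x → c ≤ x) :
    (nb u C : ℝ) * c ≤ C.sum := by
  induction C with
  | nil => simp [nb]
  | cons x C ih =>
    have := ih (fun y hy => h0 y (List.mem_cons_of_mem _ hy))
      fun y hy => h1 y (List.mem_cons_of_mem _ hy)
    rw [nb_cons, List.sum_cons]
    split_ifs with h
    · have := h1 x (by simp) h
      push_cast; linarith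
    · have := h0 x (by simp)
      push_cast; linarith

theorem a0_zero {S : List ℝ} (h : (∃ b ∈ S, 135 * u < b) ∨ 2 ≤ nb u S) : a0 u μ S = 0 := by
  cases S with
  | nil => simp [nb] at h
  | cons x P => rw [a0_cons, if_pos h]

theorem a0_one {S : List ℝ} (h : ∀ b ∈ S, b ≤ 135 * u) (h1 : nb u S = 1) :
    a0 u μ S = if good u μ 0 S then sg S else 0 := by
  cases S with
  | nil => simp [nb] at h1
  | cons x P =>
    rw [a0_cons, if_neg, if_pos h1]
    rintro (⟨b, hb, hb'⟩ | h2)
    · exact absurd (h b hb) (not_le.2 hb')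
    · omega

theorem a0_low {S : List ℝ} (hu : 0 < u) (hμ : 100000 * μ ≤ u) (h0 : ∀ x ∈ S, 0 ≤ x)
    (h : S.sum < 135 * u) : a0 u μ S = sg S := by
  have h1 : ∀ b ∈ S, b ≤ 135 * u := fun b hb => (List.single_le_sum h0 b hb).trans h.le
  have h2 := big_sum (u := u) (90 * u) S h0 fun x _ hx => hx.le
  have h3 : nb u S < 2 := by
    by_contra h3
    have : (2 : ℝ) ≤ nb u S := by exact_mod_cast not_lt.1 h3
    nlinarith
  by_cases h4 : nb u S = 1
  · rw [a0_one h1 h4, if_pos]
    left; simp only [gD]; linarith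
  cases S with
  | nil => simp [a0_nil, sg]
  | cons x P =>
    rw [a0_cons, if_neg, if_neg h4, if_pos h]
    rintro (⟨b, hb, hb'⟩ | h2)
    · exact absurd (h1 b hb) (not_le.2 hb')
    · omega

/-- the unfolding for small parts with a sum above one half -/
theorem a0_high {x : ℝ} {P : List ℝ} (hu : 0 < u) (h0 : nb u (x :: P) = 0)
    (h : 135 * u ≤ (x :: P).sum) : a0 u μ (x :: P) =
      if ¬ good u μ 0 (x :: P) then 0
      else if WW u μ (x :: P) then -a0 u μ P - KH u μ (x :: P)
      else if cap u μ x P then -a0 u μ P - KP u μ (x :: P)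
      else min 0 (-a0 u μ P - KP u μ (x :: P)) := by
  rw [a0_cons, if_neg, if_neg (by omega), if_neg (not_lt.2 h)]
  rintro (⟨b, hb, hb'⟩ | h2)
  · have := nb_zero.1 h0 b hb
    linarith
  · omega

theorem pos {l : List ℝ} (w : Win u μ l) : ∀ x ∈ l, 0 < x := fun x hx => by
  have := w.low x hx
  have := w.hu
  have := w.huμ
  linarith

theorem tot {l : List ℝ} (w : Win u μ l) : 270 * u + μ ≤ l.sum ∧ l.sum ≤ 270 * u + 28 * μ := by
  obtain ⟨i, hi, h⟩ := w.tot
  have h1 : (i : ℝ) ≤ 27 := by exact_mod_cast Nat.lt_succ_iff.1 hi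
  have h2 : (0 : ℝ) ≤ i := Nat.cast_nonneg i
  have := w.hμ
  constructor <;> nlinarith

theorem w3 {l S : List ℝ} (w : Win u μ l) (h : S.Sublist l) :
    S.sum + 1100 * μ < 90 * u ∨ 90 * u + 1100 * μ < S.sum := by
  rcases lt_abs.1 (w.w3 S h) with h | h
  · right; linarith
  · left; linarith

theorem w2 {l S : List ℝ} (w : Win u μ l) (h : S.Sublist l) :
    S.sum + 1100 * μ < 135 * u ∨ 135 * u + 1100 * μ < S.sum := by
  rcases lt_abs.1 (w.w2 S h) with h | h
  · right; linarith
  · left; linarith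

theorem big {l : List ℝ} (w : Win u μ l) {x : ℝ} (hx : x ∈ l) (h : 90 * u < x) :
    90 * u + 1100 * μ < x := by
  have := w3 w (List.singleton_sublist.2 hx)
  have := w.hμ
  simp only [List.sum_singleton] at *
  rcases ‹_ ∨ _› with h | h <;> linarith

theorem small {l : List ℝ} (w : Win u μ l) {x : ℝ} (hx : x ∈ l) (h : x ≤ 90 * u) :
    x + 1100 * μ < 90 * u := by
  have := w3 w (List.singleton_sublist.2 hx)
  have := w.hμ
  simp only [List.sum_singleton] at *
  rcases ‹_ ∨ _› with h | h <;> linarith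

theorem giant {l : List ℝ} (w : Win u μ l) {x : ℝ} (hx : x ∈ l) (h : 135 * u < x) :
    135 * u + 1100 * μ < x := by
  have := w2 w (List.singleton_sublist.2 hx)
  have := w.hμ
  simp only [List.sum_singleton] at *
  rcases ‹_ ∨ _› with h | h <;> linarith

theorem sub_sum {l S : List ℝ} (w : Win u μ l) (h : S.Sublist l) : S.sum ≤ l.sum :=
  h.sum_le_sum fun x hx => (pos w x hx).le

theorem low_pair {x : ℝ} {l S : List ℝ} (w : Win u μ (x :: l)) (hS : S.Sublist l)
    (h : x + S.sum < 135 * u) : a0 u μ S + a0 u μ (x :: S) = 0 := by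
  have h0 : ∀ y ∈ x :: S, 0 ≤ y := fun y hy => (pos w y ((hS.cons_cons x).subset hy)).le
  have hx := h0 x (by simp)
  rw [a0_low w.hu w.huμ h0 (by rwa [List.sum_cons]), sg_cons,
    a0_low w.hu w.huμ (fun y hy => h0 y (List.mem_cons_of_mem _ hy)) (by linarith), add_neg_cancel]

end C82

open C82

theorem st_G0 : St_G0 := by
  intro u μ l w hl ⟨b, hb, hb'⟩
  obtain _ | ⟨x, _ | ⟨y, r⟩⟩ := l
  · simp at hl
  · simp at hl
  have ht := tot w
  have hμ := w.hμ
  have hg := giant w hb hb'
  have hxy : x < y := (List.pairwise_cons.1 w.asc).1 y (by simp)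
  have hxb : x ≠ b := by
    rintro rfl
    have := sub_sum w (S := [x, y]) (by simp)
    simp only [List.sum_cons, List.sum_nil] at this ht
    linarith
  have hb2 : b ∈ y :: r := (List.mem_cons.1 hb).resolve_left hxb.symm
  rw [T0, sum_cons]
  refine sum_zero _ _ fun S hS => ?_
  have hS := List.mem_sublists'.1 hS
  by_cases h : b ∈ S
  · rw [a0_zero (Or.inl ⟨b, h, hb'⟩), a0_zero (Or.inl ⟨b, List.mem_cons_of_mem _ h, hb'⟩), add_zero]
  obtain ⟨C, hC, hp⟩ := compl _ _ hS
  have h1 : b ∈ C := (List.mem_append.1 (hp.subset hb2)).resolve_left h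
  have h2 : b ≤ C.sum :=
    List.single_le_sum (fun z hz => (pos w z (List.mem_cons_of_mem _ (hC.subset hz))).le) b h1
  have h3 := hp.sum_eq
  rw [List.sum_append] at h3
  rw [List.sum_cons] at ht
  exact low_pair w hS (by linarith)

theorem st_B0 : St_B0 := by
  intro u μ l w hl
  by_cases hg : ∃ b ∈ l, 135 * u < b
  · exact st_G0 u μ l w (hl.trans List.countP_le_length) hg
  push Not at hg
  have ht := tot w
  have hμ := w.hμ
  obtain _ | ⟨x, l⟩ := l
  · simp [nb] at hl
  have hasc := (List.pairwise_cons.1 w.asc).1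
  have hx : ¬ 90 * u < x := by
    intro hx
    have h1 := big w (by simp) hx
    obtain _ | ⟨y, _ | ⟨z, r⟩⟩ := l
    · exact absurd (hl.trans List.countP_le_length) (by simp)
    · have := hasc y (by simp)
      have := hg y (by simp)
      simp only [List.sum_cons, List.sum_nil] at ht
      linarith
    · have := hasc y (by simp)
      have := hasc z (by simp)
      have := sub_sum w (S := [x, y, z]) (by simp)
      simp only [List.sum_cons, List.sum_nil] at this ht
      linarith
  rw [T0, sum_cons]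
  refine sum_zero _ _ fun S hS => ?_
  have hS := List.mem_sublists'.1 hS
  have hn : nb u (x :: S) = nb u S := by rw [nb_cons, if_neg hx, add_zero]
  by_cases h2 : 2 ≤ nb u S
  · rw [a0_zero (Or.inr h2), a0_zero (Or.inr (hn ▸ h2)), add_zero]
  obtain ⟨C, hC, hp⟩ := compl _ _ hS
  have hCl : ∀ z ∈ C, z ∈ x :: l := fun z hz => List.mem_cons_of_mem _ (hC.subset hz)
  have h3 := big_sum (u := u) (90 * u + 1100 * μ) C (fun z hz => (pos w z (hCl z hz)).le)
    fun z hz h => (big w (hCl z hz) h).le
  have h4 := hp.sum_eq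
  rw [List.sum_append] at h4
  rw [List.sum_cons] at ht
  rw [nb_cons, if_neg hx, nb_perm u hp, nb_append] at hl
  have hu := w.hu
  have hx0 := pos w x (by simp)
  by_cases h1 : nb u S = 1
  · have h5 : (1 : ℝ) ≤ nb u C := by exact_mod_cast (by omega : 1 ≤ nb u C)
    have h6 : 90 * u + 1100 * μ ≤ C.sum := by nlinarith
    have h7 : ∀ b ∈ x :: S, b ≤ 135 * u := fun b hb => hg b ((hS.cons_cons x).subset hb)
    rw [a0_one (fun b hb => h7 b (List.mem_cons_of_mem _ hb)) h1, a0_one h7 (hn ▸ h1), if_pos,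
      if_pos, sg_cons, add_neg_cancel]
    · left; simp only [gD, List.sum_cons]; linarith
    · left; simp only [gD]; linarith
  · have h5 : (2 : ℝ) ≤ nb u C := by exact_mod_cast (by omega : 2 ≤ nb u C)
    have h6 : 2 * (90 * u + 1100 * μ) ≤ C.sum := by nlinarith
    exact low_pair w hS (by linarith)

theorem st_ONE : St_ONE := by
  intro u μ S b w hS hb hb'
  have ht := tot w
  have hμ := w.hμ
  have hu := w.hu
  have huμ := w.huμ
  have h1 := big w (x := b) (by simp) hb
  simp only [List.sum_append, List.sum_singleton] at ht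
  refine ⟨?_, ?_, by linarith, by simp only [gD]; linarith⟩
  · rw [T0, sum_concat, T0, KK]
    congr 2
    refine List.map_congr_left fun T hT => ?_
    have hT := List.mem_sublists'.1 hT
    have h0 : nb u T = 0 := Nat.le_zero.1 (hS ▸ nb_sub u hT)
    have h2 : (T ++ [b]).sum ≤ (S ++ [b]).sum := sub_sum w (hT.append (List.Sublist.refl _))
    simp only [List.sum_append, List.sum_singleton] at h2
    have h3 : good u μ 0 (T ++ [b]) ↔ good u μ b T := by
      simp only [good, List.sum_append, List.sum_singleton, zero_add, add_comm T.sum b,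
        List.mem_append, List.mem_singleton]
      refine or_congr_right ⟨?_, fun ⟨x, hx, h⟩ => ⟨x, Or.inl hx, h⟩⟩
      rintro ⟨x, hx | rfl, h⟩
      · exact ⟨x, hx, h⟩
      · have := h.2
        linarith
    have h4 : sg (T ++ [b]) = -sg T := by simp [sg, pow_succ]
    rw [a0_one, h4]
    · simp only [h3]
    · intro z hz
      rcases List.mem_append.1 hz with hz | hz
      · have := nb_zero.1 h0 z hz
        linarith
      · rw [List.mem_singleton.1 hz]; exact hb'
    · rw [nb_append, h0, nb_cons, if_pos hb]; rfl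
  · obtain ⟨i, hi, h⟩ := w.tot
    simp only [List.sum_append, List.sum_singleton] at h
    have h2 : b = 270 * u + μ * (1 + i) - S.sum := by linarith
    rw [h2]
    exact Finset.le_sup' (fun i : ℕ => KK u μ (270 * u + μ * (1 + i) - S.sum) S)
      (mem_range.2 hi)

end Pool.Agent.Lib.AP
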