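import Pool.Agent.Lib.AP.C82b

/-! The sign of the sieve. -/

open Finset Classical

noncomputable section

namespace Pool.Agent.Lib.AP

namespace C82

variable {u μ : ℝ}

/-- a list in the window whose cofactor has at least two parts is covered -/
theorem cov_WW {L S C : List ℝ} {y : ℝ} (w : Win u μ L) (hp : L.Perm (S ++ y :: C))
    (hC : (y :: C).Sublist L) (hne : C ≠ []) (h : WW u μ S) : cov u μ L := by
  have ht := tot w
  have hμ := w.hμ
  have hu := w.hu
  have huμ := w.huμ
  have h1 := hp.sum_eq
  have h2 := w3 w hC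
  have h3 := w.low y (hC.subset (by simp))
  obtain ⟨z, r, rfl⟩ := List.exists_cons_of_ne_nil hne
  have h4 : y < z := (List.pairwise_cons.1 (w.asc.sublist hC)).1 z (by simp)
  have h5 : z ≤ (z :: r).sum := List.single_le_sum
    (fun a ha => (pos w a (hC.subset (List.mem_cons_of_mem _ ha))).le) z (by simp)
  obtain ⟨h6, h7⟩ := h
  simp only [gD] at h6
  rw [List.sum_append, List.sum_cons] at h1
  rw [List.sum_cons] at h2
  refine ⟨S, [y], z :: r, by simpa using hp, ?_, ?_, ?_⟩
  · rw [List.sum_singleton]; rcases h2 with h2 | h2 <;> linarith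
  · linarith
  · rw [List.sum_singleton]; linarith

theorem high_le {x t : ℝ} {P : List ℝ} (hu : 0 < u) (h0 : nb u (x :: P) = 0)
    (h : 135 * u ≤ (x :: P).sum) (hg : gD u μ (x :: P).sum)
    (hk : KK u μ t (x :: P) ≤ KH u μ (x :: P)) :
    a0 u μ P + a0 u μ (x :: P) + KK u μ t (x :: P) ≤ 0 := by
  have h1 : KH u μ (x :: P) ≤ KP u μ (x :: P) := by rw [KP, if_pos hg]; exact le_max_left _ _
  have h2 : good u μ 0 (x :: P) := Or.inl (by rwa [zero_add])
  rw [a0_high hu h0 h, if_neg (not_not.2 h2)]
  split_ifs <;> omega

theorem sum_ite (K : ℤ) (S : List ℝ) :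
    (S.sublists'.map fun T => if T = S then K else 0).sum = K := by
  induction S with
  | nil => simp
  | cons a S ih =>
    rw [sum_cons]
    refine Eq.trans ?_ ih
    congr 1
    refine List.map_congr_left fun T hT => ?_
    have h := (List.mem_sublists'.1 hT).length_le
    have : T ≠ a :: S := by rintro rfl; simp at h
    simp [this]

end C82

open C82

theorem st_PAIR : St_PAIR := by
  intro u μ x l w hc hx S hS hn hb
  have ht := tot w
  have hμ := w.hμ
  have hu := w.hu
  have huμ := w.huμ
  have hx' := small w (by simp) hx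
  have hasc := List.pairwise_cons.1 w.asc
  obtain ⟨C, hC, hp⟩ := compl S l hS
  have hs := hp.sum_eq
  rw [List.sum_append] at hs
  rw [List.sum_cons] at ht
  have hn' : nb u (x :: S) = 0 := by rw [nb_cons, hn, if_neg (not_lt.2 hx)]
  have hC3 := w3 w (hC.cons x)
  by_cases hlow : x + S.sum < 135 * u
  · exact Or.inl (low_pair w hS hlow).le
  rw [a0_high hu hn' (by rw [List.sum_cons]; exact not_lt.1 hlow)]
  by_cases hg : good u μ 0 (x :: S)
  · rw [if_neg (not_not.2 hg)]
    have hK := KP_nonneg u μ (x :: S)
    by_cases hW : WW u μ (x :: S)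
    · exfalso
      have h1 := hW.1
      simp only [gD, List.sum_cons] at h1
      obtain _ | ⟨b, _ | ⟨z, r⟩⟩ := C
      · rw [List.sum_nil] at hs; linarith
      · rw [List.sum_singleton] at hs hC3
        have h2 : 90 * u < b := by rcases hC3 with h | h <;> linarith
        refine hb b h2 (hp.eq_of_pairwise (le := (· < ·)) (fun a b _ _ h h' => absurd h h'.not_gt)
          hasc.2 ?_)
        rw [List.pairwise_append]
        refine ⟨hasc.2.sublist hS, List.pairwise_singleton _ _, fun a ha c hc => ?_⟩
        rw [List.mem_singleton.1 hc]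
        exact (nb_zero.1 hn a ha).trans_lt h2
      · exact hc (cov_WW w (S := x :: S) (hp.cons x) (hC.cons x) (by simp) hW)
    · left
      rw [if_neg hW]
      split_ifs <;> omega
  rw [if_pos hg, add_zero]
  by_cases ha : a0 u μ S ≤ 0
  · exact Or.inl ha
  right
  have hng : 180 * u < x + S.sum + 1000 * μ := by
    by_contra h
    exact hg (Or.inl (by simp only [gD, List.sum_cons]; linarith))
  have hCs : C.sum + 1100 * μ < 90 * u := by rcases hC3 with h | h <;> linarith
  obtain _ | ⟨y, P⟩ := S
  · rw [List.sum_nil] at hlow; linarith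
  have hxy : x < y := hasc.1 y (hS.subset (by simp))
  have hpos : ∀ a ∈ l, 0 ≤ a := fun a ha => (pos w a (List.mem_cons_of_mem _ ha)).le
  by_cases hl2 : (y :: P).sum < 135 * u
  · rw [a0_low hu huμ (fun a ha => hpos a (hS.subset ha)) hl2] at ha
    have h2 : (y :: P).sum + 1100 * μ < 135 * u := by
      rcases w2 w (hS.cons x) with h | h <;> linarith
    have h45 : 45 * u < x := by linarith
    obtain _ | ⟨z, _ | ⟨z', r⟩⟩ := P
    · simp [sg] at ha
    · obtain _ | ⟨c, _ | ⟨c', r⟩⟩ := C
      · rw [List.sum_nil] at hs; linarith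
      · refine ⟨by simpa using hp.length_eq, ?_, h45⟩
        rw [List.sum_singleton] at hCs
        rw [nb_perm u hp, nb_append, hn, nb_cons, if_neg (by linarith)]
        rfl
      · exfalso
        have h3 := hasc.1 c (hC.subset (by simp))
        have h4 := hasc.1 c' (hC.subset (by simp))
        have h5 : 0 ≤ r.sum := List.sum_nonneg fun a ha => hpos a (hC.subset (by simp [ha]))
        simp only [List.sum_cons] at hCs
        linarith
    · exfalso
      have h3 := hasc.1 z (hS.subset (by simp))
      have h4 := hasc.1 z' (hS.subset (by simp))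
      have h5 : 0 ≤ r.sum := List.sum_nonneg fun a ha => hpos a (hS.subset (by simp [ha]))
      simp only [List.sum_cons] at h2
      linarith
  exfalso
  have hp' : (x :: l).Perm ((y :: P) ++ x :: C) := (hp.cons x).trans List.perm_middle.symm
  rw [a0_high hu hn (not_lt.1 hl2)] at ha
  split_ifs at ha with h1 h2 h3
  · obtain _ | ⟨c, r⟩ := C
    · have h4 := h2.1
      simp only [gD] at h4
      rw [List.sum_nil] at hs
      linarith
    · exact hc (cov_WW w hp' (hC.cons_cons x) (by simp) h2)
  · rcases h3 with h3 | h3 | ⟨h3, -, h4⟩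
    · simp only [gD] at h3; linarith
    · refine hg (Or.inr ⟨x, by simp, ?_, ?_⟩)
      · have := h3.1
        rw [List.sum_cons (a := x)]; linarith
      · have := h3.2
        rw [List.sum_cons (a := x)]; linarith
    · simp only [gD] at h3
      have h5 := w3 w (hC.cons_cons x)
      rw [List.sum_cons] at h5
      refine hc ⟨y :: P, [x], C, by simpa using hp', ?_, by linarith, ?_⟩
      · rw [List.sum_singleton]; rcases h5 with h | h <;> linarith
      · rw [List.sum_singleton]; linarith
  · exact ha (min_le_left _ _)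
  · exact ha le_rfl

end Pool.Agent.Lib.AP
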