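import Mathlib

/-! The combinatorial layer of the sieve for `fract (α p)`: weights on ascending lists of
exponents. `u` is the unit (the total is about `270 u`), `μ` scales the safety margins
(`μ = 1`, `u = Λ` for integer levels; `μ = 0`, `u = 1` for the ideal problem). -/

open Finset Classical

noncomputable section

namespace Pool.Agent.Lib.AP

/-- type I range -/
def gD (u μ s : ℝ) : Prop := s + 1000 * μ ≤ 180 * u

/-- extended range: total `s`, witness `x` -/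
def ext (u μ s x : ℝ) : Prop := s ≤ 170 * u + x ∧ 5 * x + 450 * u + 1100 * μ ≤ 3 * s

/-- the list `S` together with one more part `t` (possibly `0`) can be evaluated -/
def good (u μ t : ℝ) (S : List ℝ) : Prop :=
  gD u μ (t + S.sum) ∨ ∃ x ∈ S, ext u μ (t + S.sum) x

def sg (S : List ℝ) : ℤ := (-1) ^ S.length

/-- total weight of the sublists that contain a big part `t` -/
def KK (u μ t : ℝ) (S : List ℝ) : ℤ :=
  (S.sublists'.map fun T => if good u μ t T then -sg T else 0).sum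

/-- the largest value of `KK` over the cofactors compatible with `S` -/
def KH (u μ : ℝ) (S : List ℝ) : ℤ :=
  (range 28).sup' nonempty_range_add_one fun i => KK u μ (270 * u + μ * (1 + i) - S.sum) S

def KP (u μ : ℝ) (S : List ℝ) : ℤ := if gD u μ S.sum then max (KH u μ S) 0 else 0

def WW (u μ : ℝ) (S : List ℝ) : Prop := gD u μ S.sum ∧ 174 * u + 200 * μ ≤ S.sum

/-- the weight of `x :: P` may be positive -/
def cap (u μ x : ℝ) (P : List ℝ) : Prop :=
  gD u μ ((x :: P).sum + x) ∨ ext u μ ((x :: P).sum + x) x ∨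
    (gD u μ (x :: P).sum ∧ 2 ≤ P.length ∧
      7 * (270 * u + 28 * μ - (x :: P).sum) + x + 1000 * μ ≤ 720 * u)

/-- number of big parts -/
def nb (u : ℝ) (S : List ℝ) : ℕ := S.countP fun b => decide (90 * u < b)

/-- the sieve weight of an ascending list -/
def a0 (u μ : ℝ) : List ℝ → ℤ
  | [] => 1
  | x :: P =>
    if (∃ b ∈ x :: P, 135 * u < b) ∨ 2 ≤ nb u (x :: P) then 0
    else if nb u (x :: P) = 1 then (if good u μ 0 (x :: P) then sg (x :: P) else 0)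
    else if (x :: P).sum < 135 * u then sg (x :: P)
    else if ¬ good u μ 0 (x :: P) then 0
    else if WW u μ (x :: P) then -a0 u μ P - KH u μ (x :: P)
    else if cap u μ x P then -a0 u μ P - KP u μ (x :: P)
    else min 0 (-a0 u μ P - KP u μ (x :: P))

def T0 (u μ : ℝ) (l : List ℝ) : ℤ := (l.sublists'.map (a0 u μ)).sum

/-- the trilinear estimate applies -/
def cov (u μ : ℝ) (l : List ℝ) : Prop :=
  ∃ m v1 v2 : List ℝ, l.Perm (m ++ v1 ++ v2) ∧ 90 * u + 1027 * μ ≤ v1.sum + v2.sum ∧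
    v2.sum + 1000 * μ ≤ 90 * u ∧ 7 * (v1.sum + v2.sum) + v1.sum + 1000 * μ ≤ 720 * u

/-- admissible lists in general position with respect to one third and one half -/
structure Win (u μ : ℝ) (l : List ℝ) : Prop where
  hu : 0 < u
  hμ : 0 ≤ μ
  huμ : 100000 * μ ≤ u
  asc : l.Pairwise (· < ·)
  low : ∀ x ∈ l, 10 * u - 1200 * μ < x
  tot : ∃ i < 28, l.sum = 270 * u + μ * (1 + (i : ℕ))
  w3 : ∀ S : List ℝ, S.Sublist l → 1100 * μ < |S.sum - 90 * u|
  w2 : ∀ S : List ℝ, S.Sublist l → 1100 * μ < |S.sum - 135 * u|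

/-- general position with margin `m` (unit 1, total 270), sublist form -/
structure Gen (m : ℝ) (x : List ℝ) : Prop where
  g1 : ∀ A B C : List ℝ, A.Sublist x → B.Sublist x → C.Sublist x → ∀ a b c γ : ℤ, |a| ≤ 8 →
    |b| ≤ 8 → |c| ≤ 8 → |γ| ≤ 3000 → γ % 270 ≠ 0 → m < |a * A.sum + b * B.sum + c * C.sum - γ|
  g2 : ∀ A : List ℝ, A.Sublist x → ∀ y ∈ A, m < |A.sum + y - 270|
  g3 : ∀ y y' : ℝ, [y, y'].Sublist x → m < |y - y'|

/-- general position with margin `m`, vector form -/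
def GenV (m : ℝ) (x : List ℝ) : Prop :=
  ∀ (c : ℕ → ℤ) (γ : ℤ), (∀ i, |c i| ≤ 24) → |γ| ≤ 3000 → (∃ i < x.length, 270 * c i ≠ γ) →
    m < |∑ i ∈ range x.length, (c i : ℝ) * x.getD i 0 - γ|

/-- the domain of the loss integral -/
structure Dom (x : List ℝ) : Prop where
  asc : x.Pairwise (· < ·)
  low : ∀ y ∈ x, 10 < y
  tot : x.sum = 270
  gen : Gen 0 x

/-- the ideal loss -/
def lossI (x : List ℝ) : ℝ := if cov 1 0 x then 0 else ((max 0 (-T0 1 0 x) : ℤ) : ℝ)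

/-- exponents to base `Z` of the prime factors, ascending, the largest replaced so that the total
is 270 -/
def xs (Z : ℝ) (n : ℕ) : List ℝ :=
  (n.primeFactorsList.dropLast.map fun p : ℕ => Real.logb Z p) ++
    [270 - (n.primeFactorsList.dropLast.map fun p : ℕ => Real.logb Z p).sum]

/-- Mertens, uniform form -/
def St_MER : Prop := ∀ ε : ℝ, 0 < ε → ∀ᶠ Z : ℝ in Filter.atTop, ∀ A B : ℝ, Z ≤ A → A ≤ B →
  |∑ p ∈ (Ioc ⌊A⌋₊ ⌊B⌋₊).filter Nat.Prime, (1 : ℝ) / p - Real.log (Real.log B / Real.log A)| ≤ ε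

/-- the numerical bound for the loss -/
def St_NUM : Prop := ∃ θ : ℝ, θ < 1 ∧ ∀ η : ℝ, 0 < η → η ≤ 1 → ∀ ε : ℝ, 0 < ε →
  ∀ᶠ Z : ℝ in Filter.atTop,
    ∑ n ∈ Ioc ⌊Z ^ 270⌋₊ ⌊Z ^ (270 + η : ℝ)⌋₊,
      (if Dom (xs Z n) then lossI (xs Z n) / n else 0) ≤ θ * η / 270 + ε

/-- size and support of the weights -/
structure St_BND : Prop where
  kk : ∀ u μ t S, S ≠ [] → 2 * |KK u μ t S| ≤ 2 ^ S.length
  kh : ∀ u μ S, S ≠ [] → 2 * |KH u μ S| ≤ 2 ^ S.length
  a : ∀ u μ S, |a0 u μ S| ≤ 2 ^ S.length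
  t : ∀ u μ l, |T0 u μ l| ≤ 3 ^ l.length
  supp : ∀ u μ S, 0 < u → 0 ≤ μ → 100000 * μ ≤ u → a0 u μ S ≠ 0 → good u μ 0 S
  kh0 : ∀ u S, KH u 0 S = KK u 0 (270 * u - S.sum) S
  compl : ∀ S l : List ℝ, S.Sublist l → ∃ C, C.Sublist l ∧ l.Perm (S ++ C)

/-- a giant part: no loss -/
def St_G0 : Prop := ∀ u μ l, Win u μ l → 2 ≤ l.length → (∃ b ∈ l, 135 * u < b) → T0 u μ l = 0

/-- two big parts: no loss -/
def St_B0 : Prop := ∀ u μ l, Win u μ l → 2 ≤ nb u l → T0 u μ l = 0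

/-- one big part, which is then the last one: the sum splits -/
def St_ONE : Prop := ∀ u μ (S : List ℝ) (b : ℝ), Win u μ (S ++ [b]) → nb u S = 0 → 90 * u < b →
  b ≤ 135 * u → T0 u μ (S ++ [b]) = T0 u μ S + KK u μ b S ∧ KK u μ b S ≤ KH u μ S ∧
    135 * u ≤ S.sum ∧ gD u μ S.sum

/-- toggling the least part -/
def St_PAIR : Prop := ∀ u μ x l, Win u μ (x :: l) → ¬ cov u μ (x :: l) → x ≤ 90 * u →
  ∀ S : List ℝ, S.Sublist l → nb u S = 0 → (∀ b, 90 * u < b → l ≠ S ++ [b]) →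
    a0 u μ S + a0 u μ (x :: S) ≤ 0 ∨ (l.length = 3 ∧ nb u l = 0 ∧ 45 * u < x)

/-- four small parts above one sixth -/
def St_P4 : Prop := ∀ u μ x l, Win u μ (x :: l) → ¬ cov u μ (x :: l) → l.length = 3 →
  nb u (x :: l) = 0 → 45 * u < x → T0 u μ (x :: l) ≤ 0

/-- the sign of the sieve -/
def St_SGN : Prop := ∀ u μ l, Win u μ l → 2 ≤ l.length → ¬ cov u μ l → T0 u μ l ≤ 0

def St_GENV : Prop := ∀ m x, GenV m x → Gen m x

/-- in general position the integer levels and the ideal exponents give the same values -/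
def St_IDE : Prop := ∀ (Λ : ℝ) (z : List (ℝ × ℝ)), 100000 ≤ Λ → z.length ≤ 27 →
  (∀ w ∈ z, |w.1 - Λ * w.2| ≤ 2) → (z.map Prod.snd).sum = 270 → Gen (10000 / Λ) (z.map Prod.snd) →
    T0 Λ 1 (z.map Prod.fst) = T0 1 0 (z.map Prod.snd) ∧
      (cov 1 0 (z.map Prod.snd) → cov Λ 1 (z.map Prod.fst))

end Pool.Agent.Lib.AP
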