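import Pool.Agent.Lib.AP.EvD

/-! Soundness of the tests and of the interval for `KK`. -/

open Classical

namespace Pool.Agent.Lib.AP.Ev

open C82

def In (A : ℤ × ℤ) (v : ℤ) : Prop := A.1 ≤ v ∧ v ≤ A.2

theorem tri_in {t f : Bool} {A B : ℤ × ℤ} {v : ℤ} (p : Prop) (ht : t = true → p)
    (hf : f = true → ¬p) (hA : p → In A v) (hB : ¬p → In B v) : In (tri t f A B) v := by
  unfold tri
  cases t
  · cases f
    · by_cases hp : p
      · exact ⟨(min_le_left _ _).trans (hA hp).1, (hA hp).2.trans (le_max_left _ _)⟩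
      · exact ⟨(min_le_right _ _).trans (hB hp).1, (hB hp).2.trans (le_max_right _ _)⟩
    · exact hB (hf rfl)
  · exact hA (ht rfl)

variable {le : ℕ → ℕ → Bool} {R : ℕ → ℝ → Prop} {tot : ℕ}

theorem sumN_R (O : Orc le R) {cs : List ℕ} {x : List ℝ} (h : List.Forall₂ R cs x) :
    R (sumN cs) x.sum := by
  induction h with
  | nil => exact O.zero
  | cons h1 _ ih => rw [List.sum_cons]; exact O.add h1 ih

theorem dT_s (O : Orc le R) (ht : R tot 270) {c : ℕ} {γ : ℝ} (hc : R c γ)
    (h : dT le tot c = true) : 90 ≤ γ := by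
  have := O.le ht (O.mul 3 hc) h
  push_cast at this; linarith

theorem dF_s (O : Orc le R) (ht : R tot 270) {c : ℕ} {γ : ℝ} (hc : R c γ)
    (h : dF le tot c = true) : γ ≤ 90 := by
  have := O.le (O.mul 3 hc) ht h
  push_cast at this; linarith

theorem d7_s (O : Orc le R) (ht : R tot 270) {c : ℕ} {γ : ℝ} (hc : R c γ)
    (h : d7 le tot c = true) : γ ≤ 70 := by
  have := O.le (O.mul 27 hc) (O.mul 7 ht) h
  push_cast at this; linarith

theorem anyT_s (O : Orc le R) (ht : R tot 270) {c : ℕ} {γ : ℝ} (hc : R c γ) {T : List ℕ}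
    {X : List ℝ} (hT : List.Forall₂ R T X) (h : anyT le tot c T = true) :
    ∃ y ∈ X, 100 ≤ γ + y ∧ 3 * γ + 5 * y ≤ 360 := by
  induction hT with
  | nil => simp [anyT] at h
  | @cons a y T X h1 _ ih =>
    simp only [anyT, Bool.or_eq_true, Bool.and_eq_true] at h
    rcases h with ⟨⟨-, h2⟩, h3⟩ | h
    · have h4 := O.le (O.mul 10 ht) (O.mul 27 (O.add hc h1)) h2
      have h5 := O.le (O.add (O.mul 9 hc) (O.mul 15 h1)) (O.mul 4 ht) h3
      push_cast at h4 h5
      exact ⟨y, by simp, by linarith, by linarith⟩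
    · obtain ⟨z, hz, h6⟩ := ih h
      exact ⟨z, List.mem_cons_of_mem _ hz, h6⟩

theorem allF_s (O : Orc le R) (ht : R tot 270) {c : ℕ} {γ : ℝ} (hc : R c γ) {T : List ℕ}
    {X : List ℝ} (hT : List.Forall₂ R T X) (h : allF le tot c T = true) :
    ∀ y ∈ X, 30 ≤ y ∨ γ + y ≤ 100 ∨ 360 ≤ 3 * γ + 5 * y := by
  induction hT with
  | nil => simp
  | @cons a y T X h1 _ ih =>
    simp only [allF, Bool.or_eq_true, Bool.and_eq_true] at h
    intro z hz
    rcases List.mem_cons.1 hz with rfl | hz
    · rcases h.1 with (h2 | h2) | h2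
      · have := O.le ht (O.mul 9 h1) h2
        push_cast at this; left; linarith
      · have := O.le (O.mul 27 (O.add hc h1)) (O.mul 10 ht) h2
        push_cast at this; right; left; linarith
      · have := O.le (O.mul 4 ht) (O.add (O.mul 9 hc) (O.mul 15 h1)) h2
        push_cast at this; right; right; linarith
    · exact ih h.2 z hz

theorem good_iff {t γ : ℝ} {X : List ℝ} (h : t + X.sum = 270 - γ) :
    good 1 0 t X ↔ 90 ≤ γ ∨ ∃ y ∈ X, 100 ≤ γ + y ∧ 3 * γ + 5 * y ≤ 360 := by
  simp only [good, gD, ext, h]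
  refine or_congr ⟨fun h => by linarith, fun h => by linarith⟩ ?_
  refine exists_congr fun y => and_congr_right fun _ => ?_
  exact ⟨fun h => ⟨by linarith [h.1], by linarith [h.2]⟩, fun h => ⟨by linarith [h.1], by linarith [h.2]⟩⟩

theorem gT_s (O : Orc le R) (ht : R tot 270) {c : ℕ} {γ t : ℝ} (hc : R c γ) {T : List ℕ}
    {X : List ℝ} (hT : List.Forall₂ R T X) (e : t + X.sum = 270 - γ) (h : gT le tot c T = true) :
    good 1 0 t X := by
  rw [good_iff e]
  simp only [gT, Bool.or_eq_true, Bool.and_eq_true] at h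
  rcases h with h | h
  · exact Or.inl (dT_s O ht hc h)
  · exact Or.inr (anyT_s O ht hc hT h.2)

theorem not_good7 {γ t : ℝ} {X : List ℝ} (e : t + X.sum = 270 - γ) (h : γ ≤ 70)
    (n2 : ∀ y ∈ X, γ + y ≠ 100) : ¬good 1 0 t X := by
  rw [good_iff e]
  rintro (h1 | ⟨y, hy, h1, h2⟩)
  · linarith
  · exact n2 y hy (by linarith)

theorem gF_s (O : Orc le R) (ht : R tot 270) {c : ℕ} {γ t : ℝ} (hc : R c γ) {T : List ℕ}
    {X : List ℝ} (hT : List.Forall₂ R T X) (e : t + X.sum = 270 - γ) (n1 : γ ≠ 90)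
    (n2 : ∀ y ∈ X, γ + y ≠ 100) (n3 : ∀ y ∈ X, 3 * γ + 5 * y ≠ 360)
    (h : gF le tot c T = true) : ¬good 1 0 t X := by
  simp only [gF, Bool.or_eq_true, Bool.and_eq_true] at h
  rcases h with h | h
  · exact not_good7 e (d7_s O ht hc h) n2
  · rw [good_iff e]
    rintro (h1 | ⟨y, hy, h1, h2⟩)
    · exact n1 (le_antisymm (dF_s O ht hc h.1) h1)
    · rcases allF_s O ht hc hT h.2 y hy with h3 | h3 | h3
      · exact n2 y hy (by linarith)
      · exact n2 y hy (by linarith)
      · exact n3 y hy (by linarith)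

theorem gne {l A B C : List ℝ} (G : Gen 0 l) (hA : A.Sublist l) (hB : B.Sublist l)
    (hC : C.Sublist l) (a b c γ : ℤ) (ha : |a| ≤ 8) (hb : |b| ≤ 8) (hc : |c| ≤ 8)
    (hγ : |γ| ≤ 3000) (hm : γ % 270 ≠ 0) : a * A.sum + b * B.sum + c * C.sum ≠ (γ : ℝ) := by
  intro h
  have := G.g1 A B C hA hB hC a b c γ ha hb hc hγ hm
  rw [h, sub_self, abs_zero] at this
  exact lt_irrefl _ this

theorem sing {l T : List ℝ} (hT : T.Sublist l) {y : ℝ} (hy : y ∈ T) : [y].Sublist l :=
  List.singleton_sublist.2 (hT.subset hy)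

theorem kn1 {l S T : List ℝ} (G : Gen 0 l) (hS : S.Sublist l) (hT : T.Sublist l) :
    S.sum - T.sum ≠ 90 := fun h =>
  gne G hS hT hT 1 (-1) 0 90 (by norm_num) (by norm_num) (by norm_num) (by norm_num) (by norm_num)
    (by push_cast; linarith)

theorem kn2 {l S T : List ℝ} (G : Gen 0 l) (hS : S.Sublist l) (hT : T.Sublist l) :
    ∀ y ∈ T, S.sum - T.sum + y ≠ 100 := fun y hy h =>
  gne G hS hT (sing hT hy) 1 (-1) 1 100 (by norm_num) (by norm_num) (by norm_num) (by norm_num)
    (by norm_num) (by push_cast; rw [List.sum_singleton]; linarith)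

theorem kn3 {l S T : List ℝ} (G : Gen 0 l) (hS : S.Sublist l) (hT : T.Sublist l) :
    ∀ y ∈ T, 3 * (S.sum - T.sum) + 5 * y ≠ 360 := fun y hy h =>
  gne G hS hT (sing hT hy) 3 (-3) 5 360 (by norm_num) (by norm_num) (by norm_num) (by norm_num)
    (by norm_num) (by push_cast; rw [List.sum_singleton]; linarith)

theorem sg_mid (U : List ℝ) (y : ℝ) (T : List ℝ) : sg (U ++ y :: T) = -sg (U ++ T) := by
  simp only [sg, List.length_append, List.length_cons]
  rw [← add_assoc, pow_succ]; ring

theorem sum_step (f : List ℝ → ℤ) (y : ℝ) (r T : List ℝ) :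
    ((y :: r).reverse.sublists'.map fun U => f (U ++ T)).sum =
      (r.reverse.sublists'.map fun U => f (U ++ T)).sum +
        (r.reverse.sublists'.map fun U => f (U ++ y :: T)).sum := by
  rw [List.reverse_cons, sum_concat]
  simp only [List.append_assoc, List.singleton_append]

theorem kk_in (O : Orc le R) (ht : R tot 270) {l S : List ℝ} (G : Gen 0 l) (hS : S.Sublist l)
    (hp : ∀ y ∈ l, 0 < y) {r : List ℕ} {rX : List ℝ} (hr : List.Forall₂ R r rX) :
    ∀ (c : ℕ) (T : List ℕ) (TX : List ℝ), List.Forall₂ R T TX → (rX.reverse ++ TX).Sublist S →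
      R c (S.sum - rX.sum - TX.sum) →
      In (kk le tot r c T (-sg TX)) (rX.reverse.sublists'.map fun U =>
        if good 1 0 (270 - S.sum) (U ++ TX) then -sg (U ++ TX) else 0).sum := by
  induction hr with
  | nil =>
    intro c T TX hT hs hc
    simp only [List.reverse_nil, List.nil_append, List.sum_nil, sub_zero] at hs hc
    have hs' := hs.trans hS
    have e : 270 - S.sum + TX.sum = 270 - (S.sum - TX.sum) := by ring
    simp only [kk, List.reverse_nil, List.sublists'_nil, List.map_cons, List.map_nil,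
      List.nil_append, List.sum_cons, List.sum_nil, add_zero]
    refine tri_in (¬good 1 0 (270 - S.sum) TX)
      (gF_s O ht hc hT e (kn1 G hS hs') (kn2 G hS hs') (kn3 G hS hs'))
      (fun h => not_not.2 (gT_s O ht hc hT e h)) (fun h => ?_) (fun h => ?_)
    · rw [if_neg h]; exact ⟨le_rfl, le_rfl⟩
    · rw [if_pos (not_not.1 h)]; exact ⟨le_rfl, le_rfl⟩
  | @cons a y r rX h1 h2 ih =>
    intro c T TX hT hs hc
    have hsub : ∀ U ∈ (y :: rX).reverse.sublists', (U ++ TX).Sublist l ∧ 0 ≤ U.sum ∧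
        U.sum ≤ (y :: rX).sum := by
      intro U hU
      have hU' := List.mem_sublists'.1 hU
      have h3 : ((y :: rX).reverse).Sublist l := ((List.sublist_append_left _ _).trans hs).trans hS
      refine ⟨((hU'.append_right TX).trans hs).trans hS,
        List.sum_nonneg fun z hz => (hp z (h3.subset (hU'.subset hz))).le, ?_⟩
      rw [← List.sum_reverse (y :: rX)]
      exact hU'.sum_le_sum fun z hz => (hp z (h3.subset hz)).le
    unfold kk
    cases h4 : dT le tot c
    · cases h5 : d7 le tot (Nat.add c (sumN (a :: r)))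
      · simp only [cond_false]
        rw [sum_step (fun V => if good 1 0 (270 - S.sum) V then -sg V else 0)]
        have hs1 : (rX.reverse ++ y :: TX).Sublist S := by simpa using hs
        have hs2 : (rX.reverse ++ TX).Sublist S :=
          ((List.sublist_cons_self y TX).append_left _).trans hs1
        have i1 := ih (Nat.add c a) T TX hT hs2 (by
          have := O.add hc h1
          rwa [List.sum_cons, show S.sum - (y + rX.sum) - TX.sum + y = S.sum - rX.sum - TX.sum by
            ring] at this)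
        have i2 := ih c (a :: T) (y :: TX) (List.Forall₂.cons h1 hT) hs1 (by
          rwa [List.sum_cons, show S.sum - (y + rX.sum) - TX.sum = S.sum - rX.sum - (y + TX.sum) by
            ring, ← List.sum_cons] at hc)
        rw [sg_cons] at i2
        exact ⟨add_le_add i1.1 i2.1, add_le_add i1.2 i2.2⟩
      · simp only [cond_false, cond_true]
        have h6 := d7_s O ht (O.add hc (sumN_R O (List.Forall₂.cons h1 h2))) h5
        rw [sum_zero]
        · exact ⟨le_rfl, le_rfl⟩
        · intro U hU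
          obtain ⟨h7, h8, -⟩ := hsub U hU
          rw [if_neg (not_good7 (γ := S.sum - (U ++ TX).sum) (by ring)
            (by rw [List.sum_append]; linarith) (kn2 G hS h7))]
    · simp only [cond_true]
      have h6 := dT_s O ht hc h4
      have h7 : ((y :: rX).reverse.sublists'.map fun U =>
          if good 1 0 (270 - S.sum) (U ++ TX) then -sg (U ++ TX) else 0) =
          (y :: rX).reverse.sublists'.map fun U => -sg (U ++ TX) := by
        refine List.map_congr_left fun U hU => ?_
        obtain ⟨-, -, h8⟩ := hsub U hU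
        rw [if_pos ((good_iff (γ := S.sum - (U ++ TX).sum) (by ring)).2
          (Or.inl (by rw [List.sum_append]; linarith)))]
      rw [h7, sum_step (fun V => -sg V), ← List.sum_map_add, sum_zero]
      · exact ⟨le_rfl, le_rfl⟩
      · intro U _
        rw [sg_mid]; ring

theorem kiv_in (O : Orc le R) (ht : R tot 270) {l S : List ℝ} (G : Gen 0 l) (hS : S.Sublist l)
    (hp : ∀ y ∈ l, 0 < y) {s : List ℕ} (hs : List.Forall₂ R s S) :
    In (kiv le tot s) (KH 1 0 S) := by
  have h := kk_in O ht G hS hp (List.forall₂_reverse_iff.2 hs) 0 [] [] List.Forall₂.nil (by simp)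
    (by simpa using O.zero)
  rw [st_BND.kh0, mul_one, KK]
  simpa [kiv, sg] using h

end Pool.Agent.Lib.AP.Ev
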