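import Pool.Agent.Lib.AP.Ev1

/-! Soundness of the intervals for one weight, one pair and the top pair. -/

open Classical

namespace Pool.Agent.Lib.AP.Ev

open C82

variable {le : ℕ → ℕ → Bool} {R : ℕ → ℝ → Prop} {tot : ℕ}

theorem sne {l S : List ℝ} (G : Gen 0 l) (hS : S.Sublist l) (γ : ℤ) (hγ : |γ| ≤ 3000)
    (hm : γ % 270 ≠ 0) : S.sum ≠ γ := fun h =>
  gne G hS hS hS 1 0 0 γ (by norm_num) (by norm_num) (by norm_num) hγ hm (by push_cast; linarith)

theorem sne2 {l S : List ℝ} (G : Gen 0 l) (hS : S.Sublist l) {y : ℝ} (hy : y ∈ S) (a b γ : ℤ)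
    (ha : |a| ≤ 8) (hb : |b| ≤ 8) (hγ : |γ| ≤ 3000) (hm : γ % 270 ≠ 0) :
    a * S.sum + b * y ≠ γ := fun h =>
  gne G hS (sing hS hy) hS a b 0 γ ha hb (by norm_num) hγ hm
    (by push_cast; rw [List.sum_singleton]; linarith)

theorem win_of_dom {l : List ℝ} (D : Dom l) : Win 1 0 l where
  hu := one_pos
  hμ := le_rfl
  huμ := by norm_num
  asc := D.asc
  low := fun x hx => by have := D.low x hx; linarith
  tot := ⟨0, by norm_num, by rw [D.tot]; ring⟩
  w3 := fun S hS => by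
    have := sne D.gen hS 90 (by norm_num) (by norm_num)
    rw [mul_zero, mul_one, abs_pos, sub_ne_zero]; exact_mod_cast this
  w2 := fun S hS => by
    have := sne D.gen hS 135 (by norm_num) (by norm_num)
    rw [mul_zero, mul_one, abs_pos, sub_ne_zero]; exact_mod_cast this

theorem gD_iff (s : ℝ) : gD 1 0 s ↔ s ≤ 180 := by simp [gD]

theorem cap_iff (x : ℝ) (P : List ℝ) : cap 1 0 x P ↔ (x :: P).sum + x ≤ 180 ∨
    ((x :: P).sum ≤ 170 ∧ 2 * x + 450 ≤ 3 * (x :: P).sum) ∨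
    ((x :: P).sum ≤ 180 ∧ 2 ≤ P.length ∧ 1170 + x ≤ 7 * (x :: P).sum) := by
  simp only [cap, gD_iff, ext]
  refine or_congr Iff.rfl (or_congr ?_ (and_congr Iff.rfl (and_congr Iff.rfl ?_)))
  · exact ⟨fun h => ⟨by linarith [h.1], by linarith [h.2]⟩,
      fun h => ⟨by linarith [h.1], by linarith [h.2]⟩⟩
  · exact ⟨fun h => by linarith, fun h => by linarith⟩

theorem capT_s (O : Orc le R) (ht : R tot 270) {c a : ℕ} {x : ℝ} {P : List ℝ} {big : Bool}
    (hc : R c (270 - (x :: P).sum)) (ha : R a x) (hb : big = true → (x :: P).sum ≤ 180)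
    (h : capT le tot c a P.length big = true) : cap 1 0 x P := by
  rw [cap_iff]
  simp only [capT, Bool.or_eq_true, Bool.and_eq_true, Nat.ble_eq] at h
  rcases h with (h | ⟨h1, h2⟩) | ⟨⟨h1, h2⟩, h3⟩
  · have := O.le (O.add ht (O.mul 3 ha)) (O.mul 3 hc) h
    push_cast at this; left; linarith
  · have h3 := O.le (O.mul 10 ht) (O.mul 27 hc) h1
    have h4 := O.le (O.add (O.mul 9 hc) (O.mul 6 ha)) (O.mul 4 ht) h2
    push_cast at h3 h4; right; left; constructor <;> linarith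
  · have h4 := O.le (O.add (O.mul 21 hc) (O.mul 3 ha)) (O.mul 8 ht) h3
    push_cast at h4; right; right; exact ⟨hb h1, h2, by linarith⟩

theorem capF_s (O : Orc le R) (ht : R tot 270) {l : List ℝ} (G : Gen 0 l) {c a : ℕ} {x : ℝ}
    {P : List ℝ} {nbig : Bool} (hS : (x :: P).Sublist l)
    (hc : R c (270 - (x :: P).sum)) (ha : R a x) (hb : nbig = true → 180 < (x :: P).sum)
    (h : capF le tot c a P.length nbig = true) : ¬cap 1 0 x P := by
  rw [cap_iff]
  simp only [capF, Bool.or_eq_true, Bool.and_eq_true, Nat.ble_eq] at h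
  obtain ⟨⟨h1, h2⟩, h3⟩ := h
  have hx : x ∈ x :: P := by simp
  have n1 := sne2 G hS hx 1 1 180 (by norm_num) (by norm_num) (by norm_num) (by norm_num)
  have n2 := sne G hS 170 (by norm_num) (by norm_num)
  have n3 := sne2 G hS hx 3 (-2) 450 (by norm_num) (by norm_num) (by norm_num) (by norm_num)
  have n4 := sne2 G hS hx 7 (-1) 1170 (by norm_num) (by norm_num) (by norm_num) (by norm_num)
  push_cast at n1 n2 n3 n4
  rintro (h4 | ⟨h4, h5⟩ | ⟨h4, h5, h6⟩)
  · have := O.le (O.mul 3 hc) (O.add ht (O.mul 3 ha)) h1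
    push_cast at this; exact n1 (by linarith)
  · rcases h2 with h2 | h2
    · have := O.le (O.mul 27 hc) (O.mul 10 ht) h2
      push_cast at this; exact n2 (by linarith)
    · have := O.le (O.mul 4 ht) (O.add (O.mul 9 hc) (O.mul 6 ha)) h2
      push_cast at this; exact n3 (by linarith)
  · rcases h3 with (h3 | h3) | h3
    · exact absurd (hb h3) (not_lt.2 h4)
    · omega
    · have := O.le (O.mul 8 ht) (O.add (O.mul 21 hc) (O.mul 3 ha)) h3
      push_cast at this; exact n4 (by linarith)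

theorem dF_lt (O : Orc le R) (ht : R tot 270) {l S : List ℝ} (G : Gen 0 l) (hS : S.Sublist l)
    {c : ℕ} (hc : R c (270 - S.sum)) (h : dF le tot c = true) : 180 < S.sum := by
  have h1 := dF_s O ht hc h
  have h2 := sne G hS 180 (by norm_num) (by norm_num)
  push_cast at h2
  exact lt_of_le_of_ne (by linarith) h2.symm

theorem an2 {l S : List ℝ} (G : Gen 0 l) (hS : S.Sublist l) : ∀ y ∈ S, 270 - S.sum + y ≠ 100 := by
  intro y hy h
  have := sne2 G hS hy 1 (-1) 170 (by norm_num) (by norm_num) (by norm_num) (by norm_num)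
  push_cast at this; exact this (by linarith)

theorem kp_in (O : Orc le R) (ht : R tot 270) {l S : List ℝ} (G : Gen 0 l) (hS : S.Sublist l)
    (hp : ∀ y ∈ l, 0 < y) {s : List ℕ} (hs : List.Forall₂ R s S) {c : ℕ}
    (hc : R c (270 - S.sum)) : In (kp le tot c s) (KP 1 0 S) := by
  have hk := kiv_in O ht G hS hp hs
  refine tri_in (¬gD 1 0 S.sum) (fun h => ?_) (fun h => ?_) (fun h => ?_) (fun h => ?_)
  · rw [gD_iff]; exact not_le.2 (dF_lt O ht G hS hc h)
  · rw [not_not, gD_iff]; linarith [dT_s O ht hc h]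
  · rw [KP, if_neg h]; exact ⟨le_rfl, le_rfl⟩
  · rw [KP, if_pos (not_not.1 h)]
    exact ⟨max_le_max hk.1 le_rfl, max_le_max hk.2 le_rfl⟩

theorem node_in (O : Orc le R) (ht : R tot 270) {l : List ℝ} (G : Gen 0 l) {c a : ℕ} {x : ℝ}
    {p : List ℕ} {P : List ℝ} (hS : (x :: P).Sublist l) (hc : R c (270 - (x :: P).sum))
    (ha : R a x) (hP : List.Forall₂ R p P) {A B C D : ℤ × ℤ} {v : ℤ}
    (h1 : (x :: P).sum < 135 → In A v)
    (h2 : 135 ≤ (x :: P).sum → ¬good 1 0 0 (x :: P) → In B v)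
    (h3 : 135 ≤ (x :: P).sum → good 1 0 0 (x :: P) → cap 1 0 x P → In C v)
    (h4 : 135 ≤ (x :: P).sum → good 1 0 0 (x :: P) → ¬cap 1 0 x P → In D v) :
    In (node le tot c a p A B C D) v := by
  have e : 0 + (x :: P).sum = 270 - (270 - (x :: P).sum) := by ring
  have hF := List.Forall₂.cons ha hP
  unfold node
  rw [hP.length_eq]
  refine tri_in ((x :: P).sum < 135) (fun h => ?_) (fun h => ?_) h1 fun hl => ?_
  · have h5 := O.le ht (O.mul 2 hc) h
    have h6 := sne G hS 135 (by norm_num) (by norm_num)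
    push_cast at h5 h6
    exact lt_of_le_of_ne (by linarith) h6
  · have h5 := O.le (O.mul 2 hc) ht h
    push_cast at h5
    exact not_lt.2 (by linarith)
  have hl' := not_lt.1 hl
  refine tri_in (¬good 1 0 0 (x :: P)) (gF_s O ht hc hF e (fun h => ?_) (an2 G hS) fun y hy h => ?_)
    (fun h => not_not.2 (gT_s O ht hc hF e h)) (h2 hl') fun hg => ?_
  · have := sne G hS 180 (by norm_num) (by norm_num)
    push_cast at this; exact this (by linarith)
  · have := sne2 G hS hy 3 (-5) 450 (by norm_num) (by norm_num) (by norm_num) (by norm_num)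
    push_cast at this; exact this (by linarith)
  have hg' := not_not.1 hg
  exact tri_in (cap 1 0 x P) (capT_s O ht hc ha fun h => by linarith [dT_s O ht hc h])
    (capF_s O ht G hS hc ha (dF_lt O ht G hS hc)) (h3 hl' hg') (h4 hl' hg')

theorem a_low {S : List ℝ} (h0 : ∀ x ∈ S, 0 < x) (h : S.sum < 135) : a0 1 0 S = sg S :=
  a0_low one_pos (by norm_num) (fun x hx => (h0 x hx).le) (by linarith)

theorem a_high {x : ℝ} {P : List ℝ} (h0 : ∀ y ∈ x :: P, y ≤ 90) (h : 135 ≤ (x :: P).sum) :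
    a0 1 0 (x :: P) = if ¬good 1 0 0 (x :: P) then 0
      else if WW 1 0 (x :: P) then -a0 1 0 P - KH 1 0 (x :: P)
      else if cap 1 0 x P then -a0 1 0 P - KP 1 0 (x :: P)
      else min 0 (-a0 1 0 P - KP 1 0 (x :: P)) :=
  a0_high one_pos (nb_zero.2 fun y hy => by linarith [h0 y hy]) (by linarith)

theorem aiv_in (O : Orc le R) (ht : R tot 270) {l : List ℝ} (G : Gen 0 l) (hp : ∀ y ∈ l, 0 < y)
    {c a : ℕ} {x : ℝ} {p : List ℕ} {P : List ℝ} (hS : (x :: P).Sublist l)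
    (hc : R c (270 - (x :: P).sum)) (ha : R a x) (hP : List.Forall₂ R p P)
    (h0 : ∀ y ∈ x :: P, y ≤ 90) (hW : ¬WW 1 0 (x :: P)) {A : ℤ × ℤ} (hA : In A (a0 1 0 P)) :
    In (aiv le tot c a p A (-sg P)) (a0 1 0 (x :: P)) := by
  obtain ⟨k1, k2⟩ := kp_in O ht G hS hp (List.Forall₂.cons ha hP) hc
  obtain ⟨a1, a2⟩ := hA
  refine node_in O ht G hS hc ha hP (fun h => ?_) (fun h g => ?_) (fun h g k => ?_)
    fun h g k => ?_
  · rw [a_low (fun y hy => hp y (hS.subset hy)) h, sg_cons]; exact ⟨le_rfl, le_rfl⟩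
  · rw [a_high h0 h, if_pos g]; exact ⟨le_rfl, le_rfl⟩
  · rw [a_high h0 h, if_neg (not_not.2 g), if_neg hW, if_pos k]
    exact ⟨by dsimp only; omega, by dsimp only; omega⟩
  · rw [a_high h0 h, if_neg (not_not.2 g), if_neg hW, if_neg k]
    exact ⟨by dsimp only; omega, by dsimp only; omega⟩

theorem piv_in (O : Orc le R) (ht : R tot 270) {l : List ℝ} (G : Gen 0 l) (hp : ∀ y ∈ l, 0 < y)
    {c a : ℕ} {x : ℝ} {p : List ℕ} {P : List ℝ} (hS : (x :: P).Sublist l)
    (hc : R c (270 - (x :: P).sum)) (ha : R a x) (hP : List.Forall₂ R p P)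
    (h0 : ∀ y ∈ x :: P, y ≤ 90) (hW : ¬WW 1 0 (x :: P)) {A : ℤ × ℤ} (hA : In A (a0 1 0 P)) :
    In (piv le tot c a p A) (a0 1 0 P + a0 1 0 (x :: P)) := by
  obtain ⟨k1, k2⟩ := kp_in O ht G hS hp (List.Forall₂.cons ha hP) hc
  obtain ⟨a1, a2⟩ := hA
  refine node_in O ht G hS hc ha hP (fun h => ?_) (fun h g => ?_) (fun h g k => ?_)
    fun h g k => ?_
  · have hx := hp x (hS.subset (by simp))
    rw [a_low (fun y hy => hp y (hS.subset hy)) h, sg_cons,
      a_low (fun y hy => hp y (hS.subset (List.mem_cons_of_mem _ hy)))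
        (by rw [List.sum_cons] at h; linarith)]
    exact ⟨by simp, by simp⟩
  · rw [a_high h0 h, if_pos g, add_zero]; exact ⟨a1, a2⟩
  · rw [a_high h0 h, if_neg (not_not.2 g), if_neg hW, if_pos k]
    exact ⟨by dsimp only; omega, by dsimp only; omega⟩
  · rw [a_high h0 h, if_neg (not_not.2 g), if_neg hW, if_neg k]
    exact ⟨by dsimp only; omega, by dsimp only; omega⟩

theorem tiv_in (O : Orc le R) (ht : R tot 270) {l : List ℝ} (G : Gen 0 l) (hp : ∀ y ∈ l, 0 < y)
    {c a : ℕ} {x : ℝ} {p : List ℕ} {P : List ℝ} (hS : (x :: P).Sublist l)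
    (hc : R c (270 - (x :: P).sum)) (ha : R a x) (hP : List.Forall₂ R p P)
    (h0 : ∀ y ∈ x :: P, y ≤ 90) (h : 135 ≤ (x :: P).sum) (hg : (x :: P).sum ≤ 180)
    {A : ℤ × ℤ} (hA : In A (a0 1 0 P)) :
    In (tiv le tot c a p A) (a0 1 0 P + a0 1 0 (x :: P) + KH 1 0 (x :: P)) := by
  obtain ⟨k1, -⟩ := kiv_in O ht G hS hp (List.Forall₂.cons ha hP)
  obtain ⟨a1, -⟩ := hA
  have hd : gD 1 0 (x :: P).sum := (gD_iff _).2 hg
  have g : good 1 0 0 (x :: P) := Or.inl (by rwa [zero_add])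
  have e : KP 1 0 (x :: P) = max (KH 1 0 (x :: P)) 0 := by rw [KP, if_pos hd]
  rw [a_high h0 h, if_neg (not_not.2 g), e]
  unfold tiv
  rw [hP.length_eq]
  refine tri_in (WW 1 0 (x :: P)) (fun h1 => ?_) (fun h1 h2 => ?_) (fun w => ?_) fun w => ?_
  · have := O.le (O.mul 45 hc) (O.mul 16 ht) h1
    push_cast at this
    exact ⟨hd, by linarith⟩
  · have h3 := O.le (O.mul 16 ht) (O.mul 45 hc) h1
    have h4 := sne G hS 174 (by norm_num) (by norm_num)
    push_cast at h3 h4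
    exact h4 (by linarith [h2.2])
  · rw [if_pos w]; exact ⟨by dsimp only; omega, by dsimp only; omega⟩
  rw [if_neg w]
  refine tri_in (cap 1 0 x P) (capT_s O ht hc ha fun _ => hg)
    (capF_s O ht G hS hc ha fun h => absurd h (by simp)) (fun k => ?_) fun k => ?_
  · rw [if_pos k]; exact ⟨by dsimp only; omega, by dsimp only; omega⟩
  · rw [if_neg k]; exact ⟨by dsimp only; omega, by dsimp only; omega⟩

end Pool.Agent.Lib.AP.Ev
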