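import Pool.Agent.Lib.AP.Ev2

/-! Soundness of the evaluation of the loss on a cell, of the cover witness, and the cases without
loss. -/

open Classical

namespace Pool.Agent.Lib.AP.Ev

open C82

variable {le : ℕ → ℕ → Bool} {R : ℕ → ℝ → Prop} {tot : ℕ}

theorem dfs_le (O : Orc le R) (ht : R tot 270) {l sm : List ℝ} (G : Gen 0 l)
    (hp : ∀ y ∈ l, 0 < y) (hsm : sm.Sublist l) (h90 : ∀ y ∈ sm, y ≤ 90) {n : ℕ}
    (hW : ∀ S : List ℝ, S.Sublist sm → S.length < n → ¬WW 1 0 S) {K : ℤ}
    (hK : ∀ S : List ℝ, S.Sublist sm → S.length = n → 135 ≤ S.sum ∧ S.sum ≤ 180 ∧ K = KH 1 0 S)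
    {a0c : ℕ} {x0 : ℝ} (h0 : R a0c x0) {r : List ℕ} {rX : List ℝ} (hr : List.Forall₂ R r rX) :
    ∀ (p : List ℕ) (P : List ℝ) (sk : ℕ) (A : ℤ × ℤ) (top : Bool), List.Forall₂ R p P →
      (x0 :: (rX.reverse ++ P)).Sublist sm → R sk (270 - (x0 + rX.sum + P.sum)) →
      In A (a0 1 0 P) → (top = true → rX.length + P.length + 1 = n) →
      (top = false → rX.length + P.length + 1 < n) →
      dfs le tot a0c r p sk A (-sg P) top ≤
        (rX.reverse.sublists'.map fun U => a0 1 0 (U ++ P) + a0 1 0 (x0 :: (U ++ P))).sum +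
          (bif top then K else 0) := by
  induction hr with
  | nil =>
    intro p P sk A top hP hs hc hA t1 t2
    simp only [List.reverse_nil, List.nil_append, List.sum_nil, add_zero, List.length_nil,
      zero_add] at hs hc t1 t2
    rw [← List.sum_cons] at hc
    simp only [dfs, List.reverse_nil, List.sublists'_nil, List.map_cons, List.map_nil,
      List.nil_append, List.sum_cons, List.sum_nil, add_zero]
    cases top
    · simp only [cond_false, add_zero]
      exact (piv_in O ht G hp (hs.trans hsm) hc h0 hP (fun y hy => h90 y (hs.subset hy))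
        (hW _ hs (t2 rfl)) hA).1
    · simp only [cond_true]
      obtain ⟨k1, k2, k3⟩ := hK _ hs (t1 rfl)
      rw [k3]
      exact (tiv_in O ht G hp (hs.trans hsm) hc h0 hP (fun y hy => h90 y (hs.subset hy))
        k1 k2 hA).1
  | @cons a y r rX h1 h2 ih =>
    intro p P sk A top hP hs hc hA t1 t2
    have hx0 : 0 < x0 := hp _ (hsm.subset (hs.subset (by simp)))
    have hsub : ∀ U ∈ (y :: rX).reverse.sublists', (x0 :: (U ++ P)).Sublist l ∧ 0 ≤ U.sum ∧
        U.sum ≤ (y :: rX).sum := by
      intro U hU
      have hU' := List.mem_sublists'.1 hU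
      have h3 : ((y :: rX).reverse).Sublist l :=
        (((List.sublist_append_left _ _).trans (List.sublist_cons_self _ _)).trans hs).trans hsm
      refine ⟨(((hU'.append_right P).cons_cons x0).trans hs).trans hsm,
        List.sum_nonneg fun z hz => (hp z (h3.subset (hU'.subset hz))).le, ?_⟩
      rw [← List.sum_reverse (y :: rX)]
      exact hU'.sum_le_sum fun z hz => (hp z (h3.subset hz)).le
    unfold dfs
    cases h4 : (!top && (le tot (Nat.mul 2 sk) ||
        d7 le tot (Nat.add sk (Nat.add a0c (sumN (a :: r))))))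
    · simp only [cond_false]
      rw [sum_step (fun V => a0 1 0 V + a0 1 0 (x0 :: V))]
      have hs1 : (x0 :: (rX.reverse ++ y :: P)).Sublist sm := by simpa using hs
      have hs2 : (x0 :: (rX.reverse ++ P)).Sublist sm :=
        (((List.sublist_cons_self y P).append_left _).cons_cons x0).trans hs1
      have hs3 : (y :: P).Sublist sm :=
        ((List.sublist_append_right _ _).trans (List.sublist_cons_self _ _)).trans hs1
      have hn : rX.length + 1 + P.length + 1 ≤ n := by
        cases top
        · exact (t2 rfl).le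
        · exact (t1 rfl).le
      have i1 := ih p P (Nat.add sk a) A false hP hs2 (by
        have := O.add hc h1
        rwa [List.sum_cons, show 270 - (x0 + (y + rX.sum) + P.sum) + y =
          270 - (x0 + rX.sum + P.sum) by ring] at this) hA (by simp) (fun _ => by omega)
      have hA' := aiv_in O ht G hp (hs3.trans hsm) (c := Nat.add sk (Nat.add a0c (sumN r))) (by
        have := O.add hc (O.add h0 (sumN_R O h2))
        rwa [List.sum_cons, show 270 - (x0 + (y + rX.sum) + P.sum) + (x0 + rX.sum) =
          270 - (y + P.sum) by ring, ← List.sum_cons] at this) h1 hP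
        (fun z hz => h90 z (hs3.subset hz))
        (hW _ hs3 (by rw [List.length_cons]; omega)) hA
      have i2 := ih (a :: p) (y :: P) sk _ top (List.Forall₂.cons h1 hP) hs1 (by
        rwa [List.sum_cons, show 270 - (x0 + (y + rX.sum) + P.sum) =
          270 - (x0 + rX.sum + (y + P.sum)) by ring, ← List.sum_cons] at hc) hA'
        (fun h => by have := t1 h; simp only [List.length_cons] at this ⊢; omega)
        (fun h => by have := t2 h; simp only [List.length_cons] at this ⊢; omega)
      rw [sg_cons] at i2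
      simp only [cond_false, add_zero] at i1
      linarith
    · simp only [Bool.and_eq_true, Bool.not_eq_true', Bool.or_eq_true] at h4
      obtain ⟨rfl, h4⟩ := h4
      simp only [cond_true, cond_false, add_zero]
      rw [sum_zero]
      intro U hU
      obtain ⟨h5, h6, h7⟩ := hsub U hU
      have h8 : (U ++ P).Sublist l := (List.sublist_cons_self _ _).trans h5
      rcases h4 with h4 | h4
      · have h9 := O.le ht (O.mul 2 hc) h4
        have h10 := sne G h5 135 (by norm_num) (by norm_num)
        push_cast at h9 h10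
        have h11 : (x0 :: (U ++ P)).sum < 135 := lt_of_le_of_ne (by
          rw [List.sum_cons, List.sum_append]; linarith) h10
        rw [a_low (fun z hz => hp z (h5.subset hz)) h11, sg_cons,
          a_low (fun z hz => hp z (h8.subset hz)) (by rw [List.sum_cons] at h11; linarith)]
        ring
      · have h9 := d7_s O ht (O.add hc (O.add h0 (sumN_R O (List.Forall₂.cons h1 h2)))) h4
        have z : ∀ V : List ℝ, V.Sublist l → 200 ≤ V.sum → a0 1 0 V = 0 := fun V hV h => by
          by_contra hne
          exact not_good7 (γ := 270 - V.sum) (by ring) (by linarith) (an2 G hV)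
            (supp 1 0 V one_pos le_rfl (by norm_num) hne)
        rw [z _ h8 (by rw [List.sum_append]; linarith),
          z _ h5 (by rw [List.sum_cons, List.sum_append]; linarith), add_zero]

theorem loss_of_T0 {x : List ℝ} (h : 0 ≤ T0 1 0 x) : lossI x = 0 := by
  unfold lossI
  split_ifs
  · rfl
  · rw [max_eq_left (by omega)]; simp

theorem loss_nonneg (x : List ℝ) : 0 ≤ lossI x := by
  unfold lossI
  split_ifs
  · exact le_rfl
  · exact_mod_cast le_max_left _ _

theorem loss_le {x : List ℝ} {M : ℕ} (h : ¬cov 1 0 x → -(M : ℤ) ≤ T0 1 0 x) : lossI x ≤ M := by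
  unfold lossI
  split_ifs with hc
  · exact Nat.cast_nonneg M
  · have := h hc
    have h2 : max 0 (-T0 1 0 x) ≤ (M : ℤ) := by omega
    exact_mod_cast h2

/-- the crude bound -/
theorem loss_crude (x : List ℝ) : lossI x ≤ 3 ^ x.length := by
  have h := loss_le (x := x) (M := 3 ^ x.length) fun _ => by
    have := (abs_le.1 (st_BND.t 1 0 x)).1
    push_cast; exact this
  push_cast at h; exact h

theorem loss_giant {x : List ℝ} (D : Dom x) (h2 : 2 ≤ x.length) {b : ℝ} (hb : b ∈ x)
    (h : 135 ≤ b) : lossI x = 0 := by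
  have h1 := sne D.gen (List.singleton_sublist.2 hb) 135 (by norm_num) (by norm_num)
  rw [List.sum_singleton] at h1
  push_cast at h1
  exact loss_of_T0 (st_G0 1 0 x (win_of_dom D) h2
    ⟨b, hb, by rw [mul_one]; exact lt_of_le_of_ne h h1.symm⟩).ge

theorem big_lt {x : List ℝ} (D : Dom x) {b : ℝ} (hb : b ∈ x) (h : 90 ≤ b) : 90 * 1 < b := by
  have h1 := sne D.gen (List.singleton_sublist.2 hb) 90 (by norm_num) (by norm_num)
  rw [List.sum_singleton] at h1
  push_cast at h1
  rw [mul_one]; exact lt_of_le_of_ne h h1.symm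

theorem loss_two {x : List ℝ} (D : Dom x) {b c : ℝ} (hs : [b, c].Sublist x) (h : 90 ≤ b) :
    lossI x = 0 := by
  have hbc : b < c := by simpa using D.asc.sublist hs
  have h1 := big_lt D (hs.subset (by simp)) h
  refine loss_of_T0 (st_B0 1 0 x (win_of_dom D) (le_trans ?_ (nb_sub 1 hs))).ge
  rw [nb_cons, nb_cons, if_pos h1, if_pos (h1.trans hbc)]
  omega

theorem loss_short {x : List ℝ} (D : Dom x) (h : x.length ≤ 2) : lossI x = 0 := by
  have ht := D.tot
  obtain _ | ⟨a, _ | ⟨b, _ | ⟨c, r⟩⟩⟩ := x
  · simp at ht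
  · refine loss_of_T0 ?_
    rw [List.sum_singleton] at ht
    have : a0 1 0 [a] = 0 := a0_zero (Or.inl ⟨a, by simp, by linarith⟩)
    simp [T0, this, a0_nil]
  · have hab : a < b := by simpa using D.asc
    simp only [List.sum_cons, List.sum_nil] at ht
    exact loss_giant D (by simp) (b := b) (by simp) (by linarith)
  · simp at h

theorem len_le {x : List ℝ} (D : Dom x) : x.length ≤ 26 := by
  by_contra h
  have h1 : ∀ l : List ℝ, (∀ y ∈ l, 10 < y) → l ≠ [] → 10 * (l.length : ℝ) < l.sum := by
    intro l hl hne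
    induction l with
    | nil => exact absurd rfl hne
    | cons a l ih =>
      have ha := hl a (by simp)
      rw [List.sum_cons, List.length_cons]
      push_cast
      by_cases h0 : l = []
      · subst h0; simp; linarith
      · have := ih (fun y hy => hl y (List.mem_cons_of_mem _ hy)) h0
        linarith
  have h2 := h1 x D.low (by rintro rfl; simp at h)
  have h3 : (27 : ℝ) ≤ x.length := by exact_mod_cast not_le.1 h
  rw [D.tot] at h2
  linarith

theorem ww_one {x S : List ℝ} (D : Dom x) (hc : ¬cov 1 0 x) (hS : S.Sublist x) (h : WW 1 0 S) :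
    ∃ b ∈ x, 90 < b ∧ S.length + 1 = x.length ∧ b ∉ S := by
  obtain ⟨C, hC, hp⟩ := compl S x hS
  have hs := hp.sum_eq
  rw [D.tot, List.sum_append] at hs
  have h1 := (gD_iff _).1 h.1
  obtain _ | ⟨y, C⟩ := C
  · simp at hs; linarith
  by_cases h0 : C = []
  · subst h0
    rw [List.sum_singleton] at hs
    have hy : y ∈ x := hC.subset (by simp)
    have hn : (S ++ [y]).Nodup := hp.nodup_iff.1 (D.asc.imp fun h => h.ne)
    refine ⟨y, hy, by linarith [big_lt D hy (by linarith)], by simpa using hp.length_eq.symm, ?_⟩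
    intro hyS
    exact (List.nodup_append.1 hn).2.2 y hyS y (by simp) rfl
  · exact absurd (cov_WW (win_of_dom D) hp hC h0 h) hc

theorem tri_lo {t f : Bool} {A B : ℤ × ℤ} {v : ℤ} (p : Prop) (ht : t = true → p)
    (hf : f = true → ¬p) (hA : p → A.1 ≤ v) (hB : ¬p → B.1 ≤ v) : (tri t f A B).1 ≤ v := by
  unfold tri
  cases t
  · cases f
    · by_cases hp : p
      · exact (min_le_left _ _).trans (hA hp)
      · exact (min_le_right _ _).trans (hB hp)
    · exact hB (hf rfl)
  · exact hA (ht rfl)

theorem st_EV : St_EV := by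
  intro le R O cs x M D hcs h
  refine loss_le fun hc => ?_
  obtain _ | ⟨c0, cl⟩ := cs
  · simp [evChk] at h
  obtain ⟨x0, xl, h0, hl, rfl⟩ := List.forall₂_cons_left_iff.1 hcs
  have ht : R (sumN (c0 :: cl)) 270 := D.tot ▸ sumN_R O hcs
  have hl' := List.forall₂_reverse_iff.2 hl
  simp only [evChk] at h
  generalize cl.reverse = cr at h hl'
  obtain _ | ⟨cb, cr⟩ := cr
  · simp at h
  obtain ⟨b, rX, hb, hr, e⟩ := List.forall₂_cons_left_iff.1 hl'
  have e' : xl = rX.reverse ++ [b] := by rw [← List.reverse_cons, ← e, List.reverse_reverse]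
  subst e'
  simp only [decide_eq_true_eq] at h
  have W := win_of_dom D
  have hp := pos W
  have hbx : b ∈ x0 :: (rX.reverse ++ [b]) := by simp
  have hM : -(M : ℤ) ≤ 0 := by omega
  by_cases hg : 135 < b
  · rw [st_G0 1 0 _ W (by simp) ⟨b, hbx, by linarith⟩]; exact hM
  by_cases h2 : 2 ≤ nb 1 (x0 :: (rX.reverse ++ [b]))
  · rw [st_B0 1 0 _ W h2]; exact hM
  have hlt : ∀ y ∈ x0 :: rX.reverse, y < b := fun y hy =>
    (List.pairwise_append.1 (show ((x0 :: rX.reverse) ++ [b]).Pairwise (· < ·) from D.asc)).2.2 y hy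
      b (by simp)
  have hsum : x0 + rX.sum + b = 270 := by
    have := D.tot
    simp only [List.sum_cons, List.sum_append, List.sum_reverse, List.sum_nil] at this
    linarith
  have eT : T0 1 0 (x0 :: (rX.reverse ++ [b])) = ((rX.reverse ++ [b]).sublists'.map fun U =>
      a0 1 0 U + a0 1 0 (x0 :: U)).sum := sum_cons _ _ _
  refine h.trans (tri_lo (90 < b)
    (fun h3 => by linarith [big_lt D hbx (dT_s O ht hb h3)])
    (fun h3 => not_lt.2 (dF_s O ht hb h3)) (fun h3 => ?_) fun h3 => ?_)
  · have hn : nb 1 (x0 :: rX.reverse) = 0 := by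
      have := nb_append 1 (x0 :: rX.reverse) [b]
      rw [nb_cons 1 b, if_pos (by linarith)] at this
      rw [← List.cons_append, this] at h2
      omega
    obtain ⟨o1, -, o3, o4⟩ := st_ONE 1 0 (x0 :: rX.reverse) b W hn (by linarith) (by linarith)
    have hsl : (x0 :: rX.reverse).Sublist (x0 :: (rX.reverse ++ [b])) :=
      (List.sublist_append_left _ _).cons_cons x0
    have i1 := dfs_le O ht D.gen hp hsl (fun y hy => by linarith [nb_zero.1 hn y hy])
      (n := rX.length + 1) (K := KK 1 0 b (x0 :: rX.reverse)) (fun S hS hn' hw => by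
        obtain ⟨z, -, -, h5, -⟩ := ww_one D hc (hS.trans hsl) hw
        simp only [List.length_cons, List.length_append, List.length_reverse,
          List.length_nil] at h5
        omega)
      (fun S hS hn' => by
        obtain rfl : S = x0 :: rX.reverse := hS.eq_of_length (by simpa using hn')
        refine ⟨by linarith, (gD_iff _).1 o4, ?_⟩
        rw [st_BND.kh0, List.sum_cons, List.sum_reverse]
        congr 1; linarith)
      h0 hr [] [] cb (1, 1) true List.Forall₂.nil (by simp)
      (by rwa [List.sum_nil, add_zero, show 270 - (x0 + rX.sum) = b by linarith])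
      ⟨le_rfl, le_rfl⟩ (by simp) (by simp)
    rw [← List.cons_append, o1, T0, sum_cons]
    simpa [sg] using i1
  · have h90 : ∀ y ∈ x0 :: (rX.reverse ++ [b]), y ≤ 90 := fun y hy => by
      rw [← List.cons_append] at hy
      rcases List.mem_append.1 hy with hy | hy
      · linarith [hlt y hy, not_lt.1 h3]
      · rw [List.mem_singleton.1 hy]; exact not_lt.1 h3
    have i1 := dfs_le O ht D.gen hp (List.Sublist.refl _) h90 (n := rX.length + 3) (K := 0)
      (fun S hS _ hw => by
        obtain ⟨z, hz, h5, -⟩ := ww_one D hc hS hw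
        linarith [h90 z hz])
      (fun S hS hn' => by
        have := hS.length_le
        simp only [List.length_cons, List.length_append, List.length_reverse,
          List.length_nil] at this
        omega)
      h0 (List.Forall₂.cons hb hr) [] [] 0 (1, 1) false List.Forall₂.nil (by simp)
      (by rw [List.sum_nil, add_zero, List.sum_cons, show 270 - (x0 + (b + rX.sum)) = 0 by linarith]
          exact O.zero)
      ⟨le_rfl, le_rfl⟩ (by simp) (by simp)
    rw [eT]
    simpa [sg] using i1

theorem sel_s (O : Orc le R) {cs : List ℕ} {A : List ℝ} (h : List.Forall₂ R cs A) :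
    ∀ m : ℕ, ∃ u v1 v2 : List ℝ, A.Perm (u ++ v1 ++ v2) ∧ R (sel 1 cs m) v1.sum ∧
      R (sel 2 cs m) v2.sum := by
  induction h with
  | nil => exact fun _ => ⟨[], [], [], by simp, O.zero, O.zero⟩
  | @cons c y cs A h1 _ ih =>
    intro m
    obtain ⟨u, v1, v2, hp, r1, r2⟩ := ih (Nat.div m 3)
    unfold sel
    cases e1 : Nat.beq (Nat.mod m 3) 1 <;> cases e2 : Nat.beq (Nat.mod m 3) 2
    · exact ⟨y :: u, v1, v2, hp.cons y, r1, r2⟩
    · exact ⟨u, v1, y :: v2, (hp.cons y).trans List.perm_middle.symm, r1,
        by rw [List.sum_cons]; exact O.add h1 r2⟩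
    · refine ⟨u, y :: v1, v2, (hp.cons y).trans ?_, by rw [List.sum_cons]; exact O.add h1 r1, r2⟩
      rw [← List.cons_append]
      exact List.perm_middle.symm.append_right v2
    · have := Nat.eq_of_beq_eq_true e1
      have := Nat.eq_of_beq_eq_true e2
      omega

theorem st_COV : St_COV := by
  intro le R O tot cs A x m ht hA hcs h
  obtain ⟨u, v1, v2, hp, r1, r2⟩ := sel_s O hcs m
  obtain ⟨C, -, hC⟩ := compl A x hA
  simp only [covChk, Bool.and_eq_true] at h
  have h1 := O.le ht (O.mul 3 (O.add r1 r2)) h.1.1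
  have h2 := O.le (O.mul 3 r2) ht h.1.2
  have h3 := O.le (O.add (O.mul 24 r1) (O.mul 21 r2)) (O.mul 8 ht) h.2
  push_cast at h1 h2 h3
  rw [lossI, if_pos]
  refine ⟨C ++ u, v1, v2, hC.trans (List.perm_append_comm.trans ?_), by linarith, by linarith,
    by linarith⟩
  simpa only [List.append_assoc] using hp.append_left C

end Pool.Agent.Lib.AP.Ev
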