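import Pool.Agent.Lib.AP.C82c

/-! Three-valued evaluation of the sieve sum on a cell, against an abstract comparison oracle on
codes. A code is a natural number that stands for a real linear form; `tot` stands for `270`. -/

namespace Pool.Agent.Lib.AP.Ev

/-- codes: closed under sums and multiples, compared by `le` -/
structure Orc (le : ℕ → ℕ → Bool) (R : ℕ → ℝ → Prop) : Prop where
  zero : R 0 0
  add : ∀ {a b : ℕ} {v w : ℝ}, R a v → R b w → R (Nat.add a b) (v + w)
  mul : ∀ (c : ℕ) {a : ℕ} {v : ℝ}, R a v → R (Nat.mul c a) (c * v)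
  le : ∀ {a b : ℕ} {v w : ℝ}, R a v → R b w → le a b = true → v ≤ w

def sumN : List ℕ → ℕ
  | [] => 0
  | x :: l => Nat.add x (sumN l)

/-- surely the first interval, surely the second, or the hull -/
def tri (t f : Bool) (A B : ℤ × ℤ) : ℤ × ℤ :=
  bif t then A else bif f then B else (min A.1 B.1, max A.2 B.2)

section
variable (le : ℕ → ℕ → Bool) (tot : ℕ)

/-- cofactor at least 90 -/
def dT (c : ℕ) : Bool := le tot (Nat.mul 3 c)
/-- cofactor at most 90 -/
def dF (c : ℕ) : Bool := le (Nat.mul 3 c) tot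
/-- cofactor at most 70 -/
def d7 (c : ℕ) : Bool := le (Nat.mul 27 c) (Nat.mul 7 tot)

def anyT (c : ℕ) : List ℕ → Bool
  | [] => false
  | y :: T => (le (Nat.mul 9 y) tot && le (Nat.mul 10 tot) (Nat.mul 27 (Nat.add c y)) &&
      le (Nat.add (Nat.mul 9 c) (Nat.mul 15 y)) (Nat.mul 4 tot)) || anyT c T

def allF (c : ℕ) : List ℕ → Bool
  | [] => true
  | y :: T => (le tot (Nat.mul 9 y) || le (Nat.mul 27 (Nat.add c y)) (Nat.mul 10 tot) ||
      le (Nat.mul 4 tot) (Nat.add (Nat.mul 9 c) (Nat.mul 15 y))) && allF c T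

/-- surely good -/
def gT (c : ℕ) (T : List ℕ) : Bool := dT le tot c || (!d7 le tot c && anyT le tot c T)
/-- surely not good -/
def gF (c : ℕ) (T : List ℕ) : Bool := d7 le tot c || (dF le tot c && allF le tot c T)

/-- interval for `KK`: remaining parts descending, dropped sum `c`, chosen parts `T`, `s = -sg T` -/
def kk : List ℕ → ℕ → List ℕ → ℤ → ℤ × ℤ
  | [], c, T, s => tri (gF le tot c T) (gT le tot c T) (0, 0) (s, s)
  | y :: r, c, T, s =>
    bif dT le tot c then (0, 0) else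
    bif d7 le tot (Nat.add c (sumN (y :: r))) then (0, 0) else
      ((kk r (Nat.add c y) T s).1 + (kk r c (y :: T) (-s)).1,
        (kk r (Nat.add c y) T s).2 + (kk r c (y :: T) (-s)).2)

def kiv (S : List ℕ) : ℤ × ℤ := kk le tot S.reverse 0 [] (-1)

/-- interval for `KP`, cofactor `c` -/
def kp (c : ℕ) (S : List ℕ) : ℤ × ℤ :=
  tri (dF le tot c) (dT le tot c) (0, 0) (max (kiv le tot S).1 0, max (kiv le tot S).2 0)

def capT (c x n : ℕ) (big : Bool) : Bool :=
  le (Nat.add tot (Nat.mul 3 x)) (Nat.mul 3 c) ||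
  (le (Nat.mul 10 tot) (Nat.mul 27 c) && le (Nat.add (Nat.mul 9 c) (Nat.mul 6 x)) (Nat.mul 4 tot)) ||
  (big && Nat.ble 2 n && le (Nat.add (Nat.mul 21 c) (Nat.mul 3 x)) (Nat.mul 8 tot))

def capF (c x n : ℕ) (nbig : Bool) : Bool :=
  le (Nat.mul 3 c) (Nat.add tot (Nat.mul 3 x)) &&
  (le (Nat.mul 27 c) (Nat.mul 10 tot) || le (Nat.mul 4 tot) (Nat.add (Nat.mul 9 c) (Nat.mul 6 x))) &&
  (nbig || Nat.ble n 1 || le (Nat.mul 8 tot) (Nat.add (Nat.mul 21 c) (Nat.mul 3 x)))

/-- the four cases of the weight of `x :: P` with cofactor `c` -/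
def node (c x : ℕ) (P : List ℕ) (vLow vBad vCap vNo : ℤ × ℤ) : ℤ × ℤ :=
  tri (le tot (Nat.mul 2 c)) (le (Nat.mul 2 c) tot) vLow
    (tri (gF le tot c (x :: P)) (gT le tot c (x :: P)) vBad
      (tri (capT le tot c x P.length (dT le tot c)) (capF le tot c x P.length (dF le tot c))
        vCap vNo))

/-- interval for `a0 (x :: P)`; `a` is the interval for `a0 P`, `s = sg (x :: P)` -/
def aiv (c x : ℕ) (P : List ℕ) (a : ℤ × ℤ) (s : ℤ) : ℤ × ℤ :=
  node le tot c x P (s, s) (0, 0) (-a.2 - (kp le tot c (x :: P)).2, -a.1 - (kp le tot c (x :: P)).1)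
    (min 0 (-a.2 - (kp le tot c (x :: P)).2), min 0 (-a.1 - (kp le tot c (x :: P)).1))

/-- interval for `a0 P + a0 (x :: P)` -/
def piv (c x : ℕ) (P : List ℕ) (a : ℤ × ℤ) : ℤ × ℤ :=
  node le tot c x P (0, 0) a (-(kp le tot c (x :: P)).2, -(kp le tot c (x :: P)).1)
    (min a.1 (-(kp le tot c (x :: P)).2), min a.2 (-(kp le tot c (x :: P)).1))

/-- interval for `a0 P + a0 (x :: P) + KK`, the cofactor being the one big part `c` -/
def tiv (c x : ℕ) (P : List ℕ) (a : ℤ × ℤ) : ℤ × ℤ :=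
  tri (le (Nat.mul 45 c) (Nat.mul 16 tot)) (le (Nat.mul 16 tot) (Nat.mul 45 c)) (0, 0)
    (tri (capT le tot c x P.length true) (capF le tot c x P.length false)
      (min (kiv le tot (x :: P)).1 0, 0)
      (min (a.1 + (kiv le tot (x :: P)).1) (min (kiv le tot (x :: P)).1 0), 0))

/-- lower bound for the sum of the pairs: remaining parts descending, chosen parts `P`, dropped
sum `sk`, `a` for `a0 P`, `s = -sg P`, `top`: only the big part has been dropped -/
def dfs (x0 : ℕ) : List ℕ → List ℕ → ℕ → ℤ × ℤ → ℤ → Bool → ℤ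
  | [], P, sk, a, _, top => bif top then (tiv le tot sk x0 P a).1 else (piv le tot sk x0 P a).1
  | y :: r, P, sk, a, s, top =>
    bif !top && (le tot (Nat.mul 2 sk) || d7 le tot (Nat.add sk (Nat.add x0 (sumN (y :: r)))))
    then 0 else
      dfs x0 r P (Nat.add sk y) a s false +
        dfs x0 r (y :: P) sk (aiv le tot (Nat.add sk (Nat.add x0 (sumN r))) y P a s) (-s) top

/-- lower bound for `T0`: least part `x0`, largest part `b`, the others descending -/
def evLo (x0 b : ℕ) (r : List ℕ) : ℤ :=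
  (tri (dT le tot b) (dF le tot b) (dfs le tot x0 r [] b (1, 1) (-1) true, 0)
    (dfs le tot x0 (b :: r) [] 0 (1, 1) (-1) false, 0)).1

/-- sum of the codes whose digit in base 3 of `m` is `d` -/
def sel (d : ℕ) : List ℕ → ℕ → ℕ
  | [], _ => 0
  | x :: l, m => bif Nat.beq (Nat.mod m 3) d then Nat.add x (sel d l (Nat.div m 3))
      else sel d l (Nat.div m 3)

/-- cover witness: digit 1 marks `v1`, digit 2 marks `v2` -/
def covChk (cs : List ℕ) (m : ℕ) : Bool :=
  le tot (Nat.mul 3 (Nat.add (sel 1 cs m) (sel 2 cs m))) && le (Nat.mul 3 (sel 2 cs m)) tot &&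
    le (Nat.add (Nat.mul 24 (sel 1 cs m)) (Nat.mul 21 (sel 2 cs m))) (Nat.mul 8 tot)

end

/-- the loss on the cell is at most `M`; codes ascending, at least two -/
def evChk (le : ℕ → ℕ → Bool) (cs : List ℕ) (M : ℕ) : Bool :=
  match cs with
  | [] => false
  | x0 :: l =>
    match l.reverse with
    | [] => false
    | b :: r => decide (-(M : ℤ) ≤ evLo le (sumN cs) x0 b r)

def St_EV : Prop := ∀ (le : ℕ → ℕ → Bool) (R : ℕ → ℝ → Prop), Orc le R →
  ∀ (cs : List ℕ) (x : List ℝ) (M : ℕ), Dom x → List.Forall₂ R cs x → evChk le cs M = true →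
    lossI x ≤ M

def St_COV : Prop := ∀ (le : ℕ → ℕ → Bool) (R : ℕ → ℝ → Prop), Orc le R →
  ∀ (tot : ℕ) (cs : List ℕ) (A x : List ℝ) (m : ℕ), R tot 270 → A.Sublist x → List.Forall₂ R cs A →
    covChk le tot cs m = true → lossI x = 0

end Pool.Agent.Lib.AP.Ev
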