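import Mathlib

/-! Polyhedral cones given by inequalities and by rays: cutting and pulling. -/

open Classical

noncomputable section

namespace Pool.Agent.Lib.AP.Geo

variable {E : Type*} [AddCommGroup E] [Module ℝ E]

/-- the cone spanned by a set -/
inductive Cn (V : Set E) : E → Prop
  | zero : Cn V 0
  | mem {v : E} : v ∈ V → Cn V v
  | add {x y : E} : Cn V x → Cn V y → Cn V (x + y)
  | smul {t : ℝ} {x : E} : 0 ≤ t → Cn V x → Cn V (t • x)

theorem Cn.trans {V W : Set E} (h : ∀ v ∈ V, Cn W v) {y : E} (hy : Cn V y) : Cn W y := by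
  induction hy with
  | zero => exact .zero
  | mem hv => exact h _ hv
  | add _ _ a b => exact .add a b
  | smul ht _ a => exact .smul ht a

theorem Cn.mono {V W : Set E} (h : V ⊆ W) {y : E} (hy : Cn V y) : Cn W y :=
  hy.trans fun _ hv => .mem (h hv)

theorem Cn.nonpos {V : Set E} {g : E →ₗ[ℝ] ℝ} (h : ∀ v ∈ V, g v ≤ 0) {y : E} (hy : Cn V y) :
    g y ≤ 0 := by
  induction hy with
  | zero => simp
  | mem hv => exact h _ hv
  | add _ _ a b => rw [map_add]; linarith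
  | smul ht _ a => rw [map_smul]; exact mul_nonpos_of_nonneg_of_nonpos ht a

theorem Cn.eq_zero {V : Set E} {g : E →ₗ[ℝ] ℝ} (h : ∀ v ∈ V, g v = 0) {y : E} (hy : Cn V y) :
    g y = 0 := by
  induction hy with
  | zero => simp
  | mem hv => exact h _ hv
  | add _ _ a b => rw [map_add, a, b, add_zero]
  | smul _ _ a => rw [map_smul, a, smul_zero]

/-- faces -/
theorem Cn.face {ι : Type*} {V : Set E} {g : ι → E →ₗ[ℝ] ℝ} {T : Set ι}
    (h : ∀ i ∈ T, ∀ v ∈ V, g i v ≤ 0) {y : E} (hy : Cn V y) (h0 : ∀ i ∈ T, g i y = 0) :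
    Cn {v ∈ V | ∀ i ∈ T, g i v = 0} y := by
  induction hy with
  | zero => exact .zero
  | mem hv => exact .mem ⟨hv, h0⟩
  | add hx hy a b =>
    have k : ∀ i ∈ T, g i _ = 0 ∧ g i _ = 0 := fun i hi => by
      have a := hx.nonpos (h i hi)
      have b := hy.nonpos (h i hi)
      have c := h0 i hi
      rw [map_add] at c
      exact ⟨le_antisymm a (by linarith), le_antisymm b (by linarith)⟩
    exact .add (a fun i hi => (k i hi).1) (b fun i hi => (k i hi).2)
  | @smul t x ht _ a =>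
    rcases ht.eq_or_lt with rfl | ht'
    · rw [zero_smul]; exact .zero
    · refine .smul ht (a fun i hi => ?_)
      have := h0 i hi
      rw [map_smul, smul_eq_mul] at this
      exact (mul_eq_zero.1 this).resolve_left ht'.ne'

theorem Cn.face1 {V : Set E} {g : E →ₗ[ℝ] ℝ} (h : ∀ v ∈ V, g v ≤ 0) {y : E} (hy : Cn V y)
    (h0 : g y = 0) : Cn {v ∈ V | g v = 0} y :=
  (Cn.face (g := fun _ : Unit => g) (T := Set.univ) (fun _ _ => h) hy fun _ _ => h0).mono
    fun _ hv => And.intro hv.1 (hv.2 () trivial)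

theorem Cn.pair {u w y : E} (hy : Cn {u, w} y) : ∃ a b : ℝ, 0 ≤ a ∧ 0 ≤ b ∧ y = a • u + b • w := by
  induction hy with
  | zero => exact ⟨0, 0, le_rfl, le_rfl, by simp⟩
  | mem hv =>
    rcases hv with rfl | rfl
    · exact ⟨1, 0, zero_le_one, le_rfl, by simp⟩
    · exact ⟨0, 1, le_rfl, zero_le_one, by simp⟩
  | add _ _ a b =>
    obtain ⟨a1, a2, h1, h2, rfl⟩ := a
    obtain ⟨b1, b2, h3, h4, rfl⟩ := b
    exact ⟨a1 + b1, a2 + b2, by positivity, by positivity, by module⟩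
  | @smul t _ ht _ a =>
    obtain ⟨a1, a2, h1, h2, rfl⟩ := a
    exact ⟨t * a1, t * a2, by positivity, by positivity, by module⟩

variable {h : ℕ → E →ₗ[ℝ] ℝ} {n : ℕ} {V : Set E}

/-- the first `n` inequalities hold -/
def Sol (h : ℕ → E →ₗ[ℝ] ℝ) (n : ℕ) (y : E) : Prop := ∀ i < n, h i y ≤ 0

/-- every inequality that is tight at `u` is tight at `q` -/
def Tt (h : ℕ → E →ₗ[ℝ] ℝ) (n : ℕ) (u q : E) : Prop := ∀ i < n, h i u = 0 → h i q = 0

theorem shoot {y δ : E} (hy : Sol h n y) (hδ : ∃ i < n, h i δ < 0) :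
    ∃ t : ℝ, 0 ≤ t ∧ Sol h n (y - t • δ) ∧ ∃ i < n, h i δ < 0 ∧ h i (y - t • δ) = 0 := by
  obtain ⟨j, hj, hj'⟩ := hδ
  obtain ⟨i, hi, hm⟩ := Finset.exists_min_image ((Finset.range n).filter fun i => h i δ < 0)
    (fun i => h i y / h i δ) ⟨j, by simp [hj, hj']⟩
  simp only [Finset.mem_filter, Finset.mem_range] at hi hm
  have ht : 0 ≤ h i y / h i δ := div_nonneg_of_nonpos (hy i hi.1) hi.2.le
  refine ⟨_, ht, fun l hl => ?_, i, hi.1, hi.2, ?_⟩
  · rw [map_sub, map_smul, smul_eq_mul]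
    rcases lt_or_ge (h l δ) 0 with h1 | h1
    · have := (le_div_iff_of_neg h1).1 (hm l ⟨hl, h1⟩)
      linarith
    · have := mul_nonneg ht h1
      have := hy l hl
      linarith
  · rw [map_sub, map_smul, smul_eq_mul, div_mul_cancel₀ _ hi.2.ne, sub_self]

/-- the rays `V` describe the cone of the first `n` inequalities, without redundancy -/
structure Inv (h : ℕ → E →ₗ[ℝ] ℝ) (n : ℕ) (V : Set E) : Prop where
  fin : V.Finite
  cov : ∀ y, Sol h n y → Cn V y
  sol : ∀ v ∈ V, Sol h n v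
  inj : ∀ u ∈ V, ∀ q ∈ V, Tt h n u q → u = q
  ne : ∀ v ∈ V, ∃ i < n, h i v < 0

/-- no third ray on the smallest face through `u` and `w` -/
def Adj (h : ℕ → E →ₗ[ℝ] ℝ) (n : ℕ) (V : Set E) (u w : E) : Prop :=
  ∀ q ∈ V, (∀ i < n, h i u = 0 → h i w = 0 → h i q = 0) → q = u ∨ q = w

theorem Inv.face (I : Inv h n V) {y : E} (hy : Sol h n y) : Cn {v ∈ V | Tt h n y v} y :=
  (Cn.face (g := h) (T := {i | i < n ∧ h i y = 0}) (fun i hi v hv => I.sol v hv i hi.1)
    (I.cov y hy) fun _ hi => hi.2).mono fun _ hv => And.intro hv.1 fun i hi h0 => hv.2 i ⟨hi, h0⟩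

theorem Inv.sep (I : Inv h n V) {u q : E} (hu : u ∈ V) (hq : q ∈ V) (hne : q ≠ u) :
    ∃ i < n, h i q = 0 ∧ h i u < 0 := by
  by_contra hc
  push Not at hc
  exact hne (I.inj q hq u hu fun i hi h0 => le_antisymm (I.sol u hu i hi) (hc i hi h0))

/-- moving inside the smallest face until a ray of it is lost -/
theorem Inv.lose (I : Inv h n V) {y δ : E} (hy : Sol h n y) (h0 : Tt h n y δ)
    (hδ : ∃ i < n, h i δ < 0) (hu : ∀ i < n, h i δ < 0 → ∃ u ∈ V, Tt h n y u ∧ h i u ≠ 0) :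
    ∃ t : ℝ, 0 < t ∧ Sol h n (y - t • δ) ∧
      {v ∈ V | Tt h n (y - t • δ) v}.ncard < {v ∈ V | Tt h n y v}.ncard := by
  obtain ⟨t, ht, h1, i, hi, h2, h3⟩ := shoot hy hδ
  refine ⟨t, ht.lt_of_ne ?_, h1, Set.ncard_lt_ncard ⟨fun v hv => ⟨hv.1, fun l hl h4 => ?_⟩, ?_⟩
    (I.fin.subset fun _ hv => hv.1)⟩
  · rintro rfl
    rw [zero_smul, sub_zero] at h3
    exact h2.ne (h0 i hi h3)
  · refine hv.2 l hl ?_
    rw [map_sub, map_smul, h4, h0 l hl h4, smul_zero, sub_zero]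
  · obtain ⟨u, hu1, hu2, hu3⟩ := hu i hi h2
    exact fun hs => hu3 ((hs ⟨hu1, hu2⟩).2 i hi h3)

/-- points on the cutting hyperplane -/
theorem Inv.plane (I : Inv h n V) (c : E →ₗ[ℝ] ℝ) {W : Set E} (h0 : ∀ v ∈ V, c v = 0 → v ∈ W)
    (h1 : ∀ u ∈ V, ∀ w ∈ V, c u < 0 → 0 < c w → Adj h n V u w → Cn W (c w • u - c u • w)) :
    ∀ (N : ℕ) (y : E), {v ∈ V | Tt h n y v}.ncard < N → Sol h n y → c y = 0 → Cn W y := by
  intro N
  induction N with
  | zero => intro y hy; omega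
  | succ N ih =>
    intro y hN hy hc
    have hf := I.face hy
    by_cases c0 : ∃ q ∈ V, Tt h n y q ∧ c q = 0
    · obtain ⟨q, hq, hq1, hq2⟩ := c0
      obtain ⟨t, ht, a, b⟩ := I.lose hy hq1 (I.ne q hq) fun i _ hi => ⟨q, hq, hq1, hi.ne⟩
      have := (ih _ (by omega) a (by rw [map_sub, map_smul, hc, hq2, smul_zero, sub_zero])).add
        (.smul ht.le (.mem (h0 q hq hq2)))
      rwa [sub_add_cancel] at this
    push Not at c0
    by_cases c1 : ∃ u ∈ V, ∃ q ∈ V, Tt h n y u ∧ Tt h n y q ∧ q ≠ u ∧ 0 < c u * c q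
    · obtain ⟨u, hu, q, hq, hu1, hq1, hne, hs⟩ := c1
      have pu : 0 < |c u| := abs_pos.2 (c0 u hu hu1)
      have pq : 0 < |c q| := abs_pos.2 (c0 q hq hq1)
      have key : ∀ u ∈ V, ∀ q ∈ V, Tt h n y u → Tt h n y q → q ≠ u → 0 < c u * c q →
          ∃ t : ℝ, 0 < t ∧ Cn W (y - t • (|c q| • u - |c u| • q)) := by
        intro u hu q hq hu1 hq1 hne hs
        have pq : 0 < |c q| := abs_pos.2 (c0 q hq hq1)
        obtain ⟨i, hi, hi1, hi2⟩ := I.sep hu hq hne
        obtain ⟨t, ht, a, b⟩ := I.lose (δ := |c q| • u - |c u| • q) hy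
          (fun l hl h2 => by simp [hu1 l hl h2, hq1 l hl h2])
          ⟨i, hi, by simpa [hi1] using mul_neg_of_pos_of_neg pq hi2⟩
          fun l hl h2 => ⟨u, hu, hu1, fun h3 => by
            have := mul_nonpos_of_nonneg_of_nonpos (abs_nonneg (c u)) (I.sol q hq l hl)
            simp only [map_sub, map_smul, h3, smul_eq_mul] at h2
            linarith⟩
        refine ⟨t, ht, ih _ (by omega) a ?_⟩
        have : |c q| * c u - |c u| * c q = 0 := by
          rcases pos_and_pos_or_neg_and_neg_of_mul_pos hs with ⟨a, b⟩ | ⟨a, b⟩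
          · rw [abs_of_pos a, abs_of_pos b]; ring
          · rw [abs_of_neg a, abs_of_neg b]; ring
        simp only [map_sub, map_smul, smul_eq_mul, hc, this, mul_zero, sub_zero]
      obtain ⟨t, ht, a⟩ := key u hu q hq hu1 hq1 hne hs
      obtain ⟨s, hs', b⟩ := key q hq u hu hq1 hu1 hne.symm (by rwa [mul_comm])
      have := (Cn.smul (t := s / (s + t)) (by positivity) a).add
        (Cn.smul (t := t / (s + t)) (by positivity) b)
      refine (congrArg (Cn W) ?_).mp this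
      have hst : s + t ≠ 0 := by positivity
      match_scalars <;> field_simp <;> ring
    push Not at c1
    by_cases c2 : ∃ u ∈ V, Tt h n y u ∧ c u < 0
    swap
    · push Not at c2
      refine (Cn.face1 (g := -c) (fun v hv => ?_) hf (by simp [hc])).mono fun v hv => ?_
      · simpa using c2 v hv.1 hv.2
      · exact h0 v hv.1.1 (by simpa using hv.2)
    by_cases c3 : ∃ w ∈ V, Tt h n y w ∧ 0 < c w
    swap
    · push Not at c3
      exact (Cn.face1 (fun v hv => c3 v hv.1 hv.2) hf hc).mono fun v hv => h0 v hv.1.1 hv.2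
    obtain ⟨u, hu, hu1, hu2⟩ := c2
    obtain ⟨w, hw, hw1, hw2⟩ := c3
    have hW : ∀ q ∈ V, Tt h n y q → q = u ∨ q = w := by
      intro q hq hq1
      by_contra hh
      push Not at hh
      rcases lt_or_gt_of_ne (c0 q hq hq1) with h2 | h2
      · exact (c1 u hu q hq hu1 hq1 hh.1).not_gt (mul_pos_of_neg_of_neg hu2 h2)
      · exact (c1 w hw q hq hw1 hq1 hh.2).not_gt (mul_pos hw2 h2)
    obtain ⟨a, b, ha, -, rfl⟩ := (hf.mono fun q hq => hW q hq.1 hq.2).pair
    have := Cn.smul (t := a / c w) (by positivity) (h1 u hu w hw hu2 hw2 fun q hq h2 =>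
      hW q hq fun i hi h3 => h2 i hi (hu1 i hi h3) (hw1 i hi h3))
    refine (congrArg (Cn W) ?_).mp this
    simp only [map_add, map_smul, smul_eq_mul] at hc
    have hb : b = -(a * c u) / c w := by field_simp; linarith
    rw [hb]
    match_scalars <;> field_simp

/-- points below the cutting hyperplane -/
theorem Inv.below (I : Inv h n V) {W : Set E} (h0 : ∀ v ∈ V, h n v ≤ 0 → v ∈ W)
    (h1 : ∀ u ∈ V, ∀ w ∈ V, h n u < 0 → 0 < h n w → Adj h n V u w →
      Cn W (h n w • u - h n u • w)) :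
    ∀ (N : ℕ) (y : E), {v ∈ V | Tt h n y v}.ncard < N → Sol h (n + 1) y → Cn W y := by
  intro N
  induction N with
  | zero => intro y hy; omega
  | succ N ih =>
    intro y hN hy
    have hy' : Sol h n y := fun i hi => hy i (by omega)
    have pl := fun y => I.plane (h n) (fun v hv hc => h0 v hv hc.le) h1 _ y (Nat.lt_succ_self _)
    rcases (hy n (by omega)).eq_or_lt with hc | hc
    · exact pl y hy' hc
    have : ∃ u ∈ V, Tt h n y u ∧ h n u < 0 := by
      by_contra hh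
      push Not at hh
      have := Cn.nonpos (g := -h n) (fun v hv => by simpa using hh v hv.1 hv.2) (I.face hy')
      simp only [LinearMap.neg_apply] at this
      linarith
    obtain ⟨u, hu, hu1, hu2⟩ := this
    obtain ⟨t, ht, a, i, hi, b1, b2⟩ := shoot (δ := u) hy ⟨n, by omega, hu2⟩
    have a' : Sol h n (y - t • u) := fun i hi => a i (by omega)
    have fin : Cn W (y - t • u) := by
      rcases (Nat.lt_succ_iff.1 hi).eq_or_lt with rfl | hi'
      · exact pl _ a' b2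
      refine ih _ (lt_of_lt_of_le (Set.ncard_lt_ncard
        ⟨fun v hv => And.intro hv.1 fun l hl h4 => ?_, ?_⟩ (I.fin.subset fun _ hv => hv.1)) (Nat.lt_succ_iff.1 hN)) a
      · refine hv.2 l hl ?_
        rw [map_sub, map_smul, h4, hu1 l hl h4, smul_zero, sub_zero]
      · exact fun hs => b1.ne ((hs ⟨hu, hu1⟩).2 i hi' b2)
    have := fin.add (.smul ht (.mem (h0 u hu hu2.le)))
    rwa [sub_add_cancel] at this

/-- the cut: old rays below the hyperplane and crossing points of edges -/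
theorem Inv.cut (I : Inv h n V) (z : E → E → E)
    (hz : ∀ u ∈ V, ∀ w ∈ V, h n u < 0 → 0 < h n w →
      ∃ g : ℝ, 0 < g ∧ g • z u w = h n w • u - h n u • w) {W : Set E}
    (hW : ∀ v, v ∈ W ↔ (v ∈ V ∧ h n v ≤ 0) ∨
      ∃ u ∈ V, ∃ w ∈ V, h n u < 0 ∧ 0 < h n w ∧ Adj h n V u w ∧ v = z u w) :
    Inv h (n + 1) W := by
  have zf : ∀ u ∈ V, ∀ w ∈ V, h n u < 0 → 0 < h n w → h n (z u w) = 0 ∧ ∀ i < n,
      h i (z u w) ≤ 0 ∧ (h i (z u w) = 0 ↔ h i u = 0 ∧ h i w = 0) := by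
    intro u hu w hw h1 h2
    obtain ⟨g, hg, e⟩ := hz u hu w hw h1 h2
    have e' : ∀ i, g * h i (z u w) = h n w * h i u - h n u * h i w := fun i => by
      simpa using congrArg (h i) e
    refine ⟨?_, fun i hi => ?_⟩
    · have := e' n
      exact (mul_eq_zero.1 (this.trans (by ring))).resolve_left hg.ne'
    have a := mul_nonpos_of_nonneg_of_nonpos h2.le (I.sol u hu i hi)
    have b := mul_nonneg_of_nonpos_of_nonpos h1.le (I.sol w hw i hi)
    have c := e' i
    refine ⟨by nlinarith, fun h3 => ?_, fun h3 => ?_⟩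
    · rw [h3, mul_zero] at c
      exact ⟨(mul_eq_zero.1 (by linarith : h n w * h i u = 0)).resolve_left h2.ne',
        (mul_eq_zero.1 (by linarith : h n u * h i w = 0)).resolve_left h1.ne⟩
    · rw [h3.1, h3.2, mul_zero, mul_zero, sub_zero] at c
      exact (mul_eq_zero.1 c).resolve_left hg.ne'
  refine ⟨?_, fun y hy => ?_, fun v hv i hi => ?_, fun a ha b hb hab => ?_, fun v hv => ?_⟩
  · refine (I.fin.union (I.fin.image2 z I.fin)).subset fun v hv => ?_
    rcases (hW v).1 hv with h1 | ⟨u, hu, w, hw, -, -, -, rfl⟩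
    · exact Or.inl h1.1
    · exact Or.inr (Set.mem_image2_of_mem hu hw)
  · refine I.below (fun v hv h1 => (hW v).2 (Or.inl ⟨hv, h1⟩)) (fun u hu w hw h1 h2 h3 => ?_) _ y
      (Nat.lt_succ_self _) hy
    obtain ⟨g, hg, e⟩ := hz u hu w hw h1 h2
    exact e ▸ .smul hg.le (.mem ((hW _).2 (Or.inr ⟨u, hu, w, hw, h1, h2, h3, rfl⟩)))
  · rcases (hW v).1 hv with h1 | ⟨u, hu, w, hw, h1, h2, -, rfl⟩ <;>
      rcases (Nat.lt_succ_iff.1 hi).eq_or_lt with rfl | hi'
    · exact h1.2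
    · exact I.sol v h1.1 i hi'
    · exact (zf u hu w hw h1 h2).1.le
    · exact ((zf u hu w hw h1 h2).2 i hi').1
  · have hab' : Tt h n a b := fun i hi => hab i (by omega)
    rcases (hW a).1 ha with a1 | ⟨u, hu, w, hw, h1, h2, h3, rfl⟩ <;>
      rcases (hW b).1 hb with b1 | ⟨u', hu', w', hw', h1', h2', -, rfl⟩
    · exact I.inj a a1.1 b b1.1 hab'
    · have k := fun i hi h0 => (((zf u' hu' w' hw' h1' h2').2 i hi).2.1 (hab' i hi h0))
      have e1 := I.inj a a1.1 u' hu' fun i hi h0 => (k i hi h0).1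
      have e2 := I.inj a a1.1 w' hw' fun i hi h0 => (k i hi h0).2
      rw [← e1] at h1'
      rw [← e2] at h2'
      linarith
    · have e0 := hab n (by omega) (zf u hu w hw h1 h2).1
      rcases h3 b b1.1 fun i hi p q => hab' i hi (((zf u hu w hw h1 h2).2 i hi).2.2 ⟨p, q⟩)
        with rfl | rfl <;> linarith
    · have k := fun i hi p q => (((zf u' hu' w' hw' h1' h2').2 i hi).2.1
        (hab' i hi (((zf u hu w hw h1 h2).2 i hi).2.2 ⟨p, q⟩)))
      rcases h3 u' hu' fun i hi p q => (k i hi p q).1 with rfl | rfl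
      · rcases h3 w' hw' fun i hi p q => (k i hi p q).2 with rfl | rfl
        · linarith
        · rfl
      · linarith
  · rcases (hW v).1 hv with h1 | ⟨u, hu, w, hw, h1, h2, -, rfl⟩
    · obtain ⟨i, hi, h2⟩ := I.ne v h1.1
      exact ⟨i, by omega, h2⟩
    · obtain ⟨i, hi, h3⟩ := I.ne u hu
      have := (zf u hu w hw h1 h2).2 i hi
      exact ⟨i, by omega, this.1.lt_of_ne fun h4 => h3.ne (this.2.1 h4).1⟩

/-- `W` is the set of rays of a face -/
structure Face (h : ℕ → E →ₗ[ℝ] ℝ) (n : ℕ) (W : Set E) : Prop where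
  sol : ∀ v ∈ W, Sol h n v
  ne : ∀ v ∈ W, ∃ i < n, h i v < 0
  cov : ∀ y, Sol h n y → (∀ i < n, (∀ v ∈ W, h i v = 0) → h i y = 0) → Cn W y

theorem Inv.toFace (I : Inv h n V) : Face h n V := ⟨I.sol, I.ne, fun y hy _ => I.cov y hy⟩

theorem Face.sub {W : Set E} (F : Face h n W) {j : ℕ} (hj : j < n) :
    Face h n {v ∈ W | h j v = 0} :=
  ⟨fun v hv => F.sol v hv.1, fun v hv => F.ne v hv.1, fun y hy h0 =>
    Cn.face1 (fun v hv => F.sol v hv j hj)
      (F.cov y hy fun i hi h1 => h0 i hi fun v hv => h1 v hv.1) (h0 j hj fun _ hv => hv.2)⟩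

/-- pulling a ray -/
theorem Face.pull {W : Set E} (F : Face h n W) {v y : E} (hv : v ∈ W) (hy : Cn W y) :
    ∃ i < n, h i v ≠ 0 ∧ ∃ t : ℝ, 0 ≤ t ∧ Cn {q ∈ W | h i q = 0} (y - t • v) := by
  obtain ⟨t, ht, a, i, hi, b1, b2⟩ :=
    shoot (fun i hi => hy.nonpos fun q hq => F.sol q hq i hi) (F.ne v hv)
  refine ⟨i, hi, b1.ne, t, ht, Cn.face1 (fun q hq => F.sol q hq i hi) (F.cov _ a fun l _ h0 => ?_) b2⟩
  rw [map_sub, map_smul, hy.eq_zero h0, h0 v hv, smul_zero, sub_zero]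

end Pool.Agent.Lib.AP.Geo
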