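import Pool.Agent.Lib.AP.Red

/-! The mass of a simplex of exponents. -/

open Finset Filter MeasureTheory Classical
open scoped ENNReal

noncomputable section

namespace Pool.Agent.Lib.AP.Mass

/-- the Dirichlet kernel on the positive orthant -/
def kf (j m : ℕ) (r : ℝ) (t : Fin j → ℝ) : ℝ≥0∞ :=
  if ∀ i, 0 ≤ t i then ENNReal.ofReal (pw m (r - ∑ i, t i)) else 0

lemma kf_meas (j m : ℕ) (r : ℝ) : Measurable (kf j m r) := by
  refine Measurable.ite ?_ ((pw_mono m).measurable.comp (by fun_prop)).ennreal_ofReal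
    measurable_const
  simp only [Set.ofPred_forall]
  exact MeasurableSet.iInter fun i => measurableSet_le measurable_const (measurable_pi_apply i)

lemma kf_ins {j : ℕ} (m : ℕ) (r : ℝ) (i : Fin (j + 1)) (x : ℝ) (t : Fin j → ℝ) :
    kf (j + 1) m r (i.insertNth x t) = if 0 ≤ x then kf j m (r - x) t else 0 := by
  unfold kf
  rw [Fin.sum_univ_succAbove _ i]
  simp only [Fin.forall_iff_succAbove i, Fin.insertNth_apply_same, Fin.insertNth_apply_succAbove,
    sub_sub]
  by_cases h : 0 ≤ x <;> simp [h]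

lemma fubini {j : ℕ} (i : Fin (j + 1)) {F : (Fin (j + 1) → ℝ) → ℝ≥0∞} (hF : Measurable F) :
    ∫⁻ y, F y = ∫⁻ x : ℝ, ∫⁻ t : Fin j → ℝ, F (i.insertNth x t) := by
  have h := (volume_preserving_piFinSuccAbove (fun _ : Fin (j + 1) => ℝ) i).symm
  rw [h.lintegral_map_equiv F, Measure.volume_eq_prod, lintegral_prod]
  · rfl
  · exact (hF.comp (MeasurableEquiv.measurable _)).aemeasurable

lemma half_line {g : ℝ → ℝ} {r : ℝ} (hr : 0 ≤ r) (h0 : ∀ x, 0 ≤ x → 0 ≤ g x)
    (hz : ∀ x, r < x → g x = 0) (hi : IntervalIntegrable g volume 0 r) :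
    ∫⁻ x, (if 0 ≤ x then ENNReal.ofReal (g x) else 0) = ENNReal.ofReal (∫ x in (0 : ℝ)..r, g x) := by
  rw [intervalIntegral.integral_of_le hr, ← integral_Icc_eq_integral_Ioc,
    ofReal_integral_eq_lintegral_ofReal ((intervalIntegrable_iff_integrableOn_Icc_of_le hr).1 hi)
      ((ae_restrict_iff' measurableSet_Icc).2 (Eventually.of_forall fun x hx => h0 x hx.1)),
    ← lintegral_indicator measurableSet_Icc]
  refine lintegral_congr fun x => ?_
  rw [Set.indicator_apply]
  by_cases h1 : 0 ≤ x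
  · by_cases h2 : x ≤ r
    · simp [h1, h2]
    · simp [h1, h2, hz x (not_le.1 h2)]
  · simp [h1]

lemma pw_nn (m : ℕ) (t : ℝ) : 0 ≤ pw m t := by
  unfold pw
  split_ifs with h
  · positivity
  · exact le_rfl

lemma pw_neg (m : ℕ) {t : ℝ} (h : t < 0) : pw m t = 0 := if_neg h.not_ge

lemma kf_int : ∀ (j m : ℕ) (r : ℝ), ∫⁻ t, kf j m r t =
    ENNReal.ofReal ((m.factorial : ℝ) / (m + j).factorial * pw (m + j) r)
  | 0, m, r => by
    have h : (m.factorial : ℝ) ≠ 0 := by exact_mod_cast m.factorial_ne_zero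
    simp [kf, h, volume_pi]
  | j + 1, m, r => by
    rw [fubini 0 (kf_meas _ _ _)]
    have e : ∀ x : ℝ, ∫⁻ t : Fin j → ℝ, kf (j + 1) m r ((0 : Fin (j + 1)).insertNth x t) =
        if 0 ≤ x then ENNReal.ofReal ((m.factorial : ℝ) / (m + j).factorial * pw (m + j) (r - x))
        else 0 := fun x => by
      simp only [kf_ins]
      split_ifs
      · exact kf_int j m _
      · exact lintegral_zero
    simp only [e]
    rcases le_or_gt 0 r with hr | hr
    · rw [half_line hr (fun x _ => mul_nonneg (by positivity) (pw_nn _ _))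
        (fun x hx => by rw [pw_neg _ (by linarith), mul_zero])
        (((pw_mono _).comp_antitone fun x y h => sub_le_sub_left h r).intervalIntegrable.const_mul _),
        intervalIntegral.integral_const_mul, intervalIntegral.integral_comp_sub_left (pw (m + j)) r,
        sub_self, sub_zero, pw_int0, ← add_assoc, Nat.factorial_succ]
      congr 1
      push_cast
      field_simp
    · rw [pw_neg _ hr, mul_zero, ENNReal.ofReal_zero]
      refine (lintegral_congr fun x => ?_).trans lintegral_zero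
      split_ifs with h
      · rw [pw_neg _ (by linarith), mul_zero, ENNReal.ofReal_zero]
      · rfl

lemma kf_mom {j : ℕ} (i : Fin (j + 1)) : ∫⁻ t, ENNReal.ofReal (t i) * kf (j + 1) 0 1 t =
    ENNReal.ofReal (1 / (j + 2).factorial) := by
  rw [fubini i (F := fun t => ENNReal.ofReal (t i) * kf (j + 1) 0 1 t)
    ((measurable_pi_apply i).ennreal_ofReal.mul (kf_meas _ _ _))]
  have e : ∀ x : ℝ, ∫⁻ t : Fin j → ℝ, ENNReal.ofReal (i.insertNth (α := fun _ => ℝ) x t i) *
      kf (j + 1) 0 1 (i.insertNth x t) =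
      if 0 ≤ x then ENNReal.ofReal (1 / j.factorial * (x * pw j (1 - x))) else 0 := fun x => by
    simp only [kf_ins, Fin.insertNth_apply_same]
    split_ifs with h
    · rw [lintegral_const_mul _ (kf_meas _ _ _), kf_int, ← ENNReal.ofReal_mul h]
      congr 1
      simp only [zero_add, Nat.factorial_zero, Nat.cast_one]
      ring
    · simp
  simp only [e]
  have hc : ∀ x ∈ Set.uIcc (0 : ℝ) 1, x * pw j (1 - x) = (1 - x) ^ j - (1 - x) ^ (j + 1) :=
    fun x hx => by
      rw [Set.uIcc_of_le zero_le_one] at hx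
      rw [pw, if_pos (sub_nonneg.2 hx.2)]
      ring
  rw [half_line zero_le_one (fun x hx => mul_nonneg (by positivity) (mul_nonneg hx (pw_nn _ _)))
    (fun x hx => by rw [pw_neg _ (by linarith), mul_zero, mul_zero])
    ((((pw_mono _).comp_antitone fun x y h =>
      sub_le_sub_left h 1).intervalIntegrable.continuousOn_mul continuousOn_id).const_mul _),
    intervalIntegral.integral_const_mul, intervalIntegral.integral_congr hc,
    intervalIntegral.integral_comp_sub_left (fun x : ℝ => x ^ j - x ^ (j + 1)) 1,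
    intervalIntegral.integral_sub (by simp) (by simp), integral_pow, integral_pow,
    Nat.factorial_succ, Nat.factorial_succ]
  congr 1
  push_cast
  simp only [sub_self, sub_zero, one_pow, zero_pow (Nat.succ_ne_zero _)]
  field_simp
  ring

/-- the standard simplex -/
def spx (j : ℕ) : Set (Fin j → ℝ) := {t | (∀ i, 0 ≤ t i) ∧ ∑ i, t i ≤ 1}

variable {j : ℕ}

lemma spx_closed : IsClosed (spx j) := by
  have h1 : IsClosed {t : Fin j → ℝ | ∀ i, 0 ≤ t i} := by
    simp only [Set.ofPred_forall]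
    exact isClosed_iInter fun i => isClosed_le continuous_const (continuous_apply i)
  have h2 : IsClosed {t : Fin j → ℝ | ∑ i, t i ≤ 1} := isClosed_le (by fun_prop) continuous_const
  exact h1.inter h2

lemma spx_compact : IsCompact (spx j) :=
  (isCompact_Icc (a := fun _ => 0) (b := fun _ => 1)).of_isClosed_subset spx_closed fun _ ht =>
    ⟨ht.1, fun i => (single_le_sum (fun k _ => ht.1 k) (mem_univ i)).trans ht.2⟩

lemma spx_convex : Convex ℝ (spx j) := fun x hx y hy a b ha hb hab => by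
  refine ⟨fun i => add_nonneg (mul_nonneg ha (hx.1 i)) (mul_nonneg hb (hy.1 i)), ?_⟩
  simp only [Pi.add_apply, Pi.smul_apply, smul_eq_mul, sum_add_distrib, ← mul_sum]
  nlinarith [mul_le_mul_of_nonneg_left hx.2 ha, mul_le_mul_of_nonneg_left hy.2 hb]

lemma spx_int {g : (Fin j → ℝ) → ℝ} (hg : Continuous g) (h0 : ∀ t ∈ spx j, 0 ≤ g t) {c : ℝ}
    (hc : 0 ≤ c) (h : ∫⁻ t, (spx j).indicator (fun t => ENNReal.ofReal (g t)) t = ENNReal.ofReal c) :
    ∫ t in spx j, g t = c := by
  rw [integral_eq_lintegral_of_nonneg_ae ((ae_restrict_iff' spx_closed.measurableSet).2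
    (Eventually.of_forall h0)) hg.aestronglyMeasurable,
    ← lintegral_indicator spx_closed.measurableSet, h, ENNReal.toReal_ofReal hc]

/-- barycentric coordinates -/
def bary (t : Fin j → ℝ) : Fin (j + 1) → ℝ := Fin.cons (1 - ∑ i, t i) t

lemma bary_cont (a : Fin (j + 1)) : Continuous fun t : Fin j → ℝ => bary t a := by
  refine Fin.cases ?_ (fun i => ?_) a
  · simp only [bary, Fin.cons_zero]
    fun_prop
  · simp only [bary, Fin.cons_succ]
    fun_prop

lemma bary_nn {t : Fin j → ℝ} (ht : t ∈ spx j) (a : Fin (j + 1)) : 0 ≤ bary t a :=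
  Fin.cases (sub_nonneg.2 ht.2) ht.1 a

lemma bary_sum (t : Fin j → ℝ) : ∑ a, bary t a = 1 := by
  simp [bary, Fin.sum_univ_succ]

lemma bary_int (a : Fin (j + 1)) : ∫ t in spx j, bary t a = 1 / (j + 1).factorial := by
  refine spx_int (bary_cont a) (fun t ht => bary_nn ht a) (by positivity) ?_
  refine Fin.cases ?_ (fun i => ?_) a
  · have h := kf_int j 1 1
    rw [pw, if_pos zero_le_one, one_pow, mul_one, add_comm 1 j, Nat.factorial_one, Nat.cast_one] at h
    rw [← h]
    refine lintegral_congr fun t => ?_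
    simp only [Set.indicator_apply, spx, Set.mem_ofPred_eq, kf, pw, bary, Fin.cons_zero, sub_nonneg,
      pow_one]
    by_cases h1 : ∀ i, 0 ≤ t i <;> by_cases h2 : ∑ i, t i ≤ 1 <;> simp [h1, h2]
  · obtain ⟨j, rfl⟩ : ∃ k, j = k + 1 := ⟨j - 1, by have := i.2; omega⟩
    rw [← kf_mom i]
    refine lintegral_congr fun t => ?_
    simp only [Set.indicator_apply, spx, Set.mem_ofPred_eq, kf, pw, bary, Fin.cons_succ, sub_nonneg,
      pow_zero]
    by_cases h1 : ∀ i, 0 ≤ t i <;> by_cases h2 : ∑ i, t i ≤ 1 <;> simp [h1, h2]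

lemma dens_convex {ι : Type*} [Fintype ι] (p : ι → Fin j → ℝ) (h : ∀ a, p a ∈ cube j)
    (h' : ∀ a, 10 ≤ 270 - ∑ i, p a i) {w : ι → ℝ} (h0 : ∀ a, 0 ≤ w a) (h1 : ∑ a, w a = 1) :
    dens (fun i => ∑ a, w a * p a i) ≤ ∑ a, w a * dens (p a) := by
  have hp : ∀ a i, 0 < p a i := fun a i => lt_of_lt_of_le (by norm_num) ((h a).1 i)
  have hT : ∀ a, 0 < 270 - ∑ i, p a i := fun a => by linarith [h' a]
  set P : ι → ℝ := fun a => (∏ i, p a i) * (270 - ∑ i, p a i) with hP
  have hP0 : ∀ a, 0 < P a := fun a => mul_pos (prod_pos fun i _ => hp a i) (hT a)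
  have a1 : ∏ i, ∏ a, p a i ^ w a ≤ ∏ i, ∑ a, w a * p a i :=
    prod_le_prod (fun i _ => prod_nonneg fun a _ => Real.rpow_nonneg (hp a i).le _) fun i _ =>
      Real.geom_mean_le_arith_mean_weighted _ _ _ (fun a _ => h0 a) h1 fun a _ => (hp a i).le
  have a2 : ∏ a, (270 - ∑ i, p a i) ^ w a ≤ max 10 (270 - ∑ i, ∑ a, w a * p a i) := by
    refine (Real.geom_mean_le_arith_mean_weighted _ _ _ (fun a _ => h0 a) h1
      fun a _ => (hT a).le).trans (le_trans (le_of_eq ?_) (le_max_right _ _))
    simp only [mul_sub, sum_sub_distrib, ← sum_mul, h1, one_mul, mul_sum]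
    rw [sum_comm]
  have a3 : ∏ a, P a ^ w a = (∏ i, ∏ a, p a i ^ w a) * ∏ a, (270 - ∑ i, p a i) ^ w a := by
    rw [Finset.prod_comm, ← prod_mul_distrib]
    refine prod_congr rfl fun a _ => ?_
    rw [hP, Real.mul_rpow (prod_nonneg fun i _ => (hp a i).le) (hT a).le,
      Real.finsetProd_rpow _ _ fun i _ => (hp a i).le]
  have a4 := Real.geom_mean_le_arith_mean_weighted univ w (fun a => (P a)⁻¹) (fun a _ => h0 a) h1
    fun a _ => (inv_pos.2 (hP0 a)).le
  have a5 : ∏ a, (P a)⁻¹ ^ w a = (∏ a, P a ^ w a)⁻¹ := by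
    rw [← prod_inv_distrib]
    exact prod_congr rfl fun a _ => Real.inv_rpow (hP0 a).le _
  have a6 : 0 < ∏ a, P a ^ w a := prod_pos fun a _ => Real.rpow_pos_of_pos (hP0 a) _
  have a7 : ∑ a, w a * dens (p a) = 270 * ∑ a, w a * (P a)⁻¹ := by
    rw [mul_sum]
    refine sum_congr rfl fun a _ => ?_
    rw [dens, max_eq_right (h' a), div_eq_mul_inv]
    ring
  rw [a7, dens]
  refine (div_le_div_of_nonneg_left (by norm_num) a6 ?_).trans ?_
  · rw [a3]
    exact mul_le_mul a1 a2 (prod_nonneg fun a _ => Real.rpow_nonneg (hT a).le _)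
      (prod_nonneg fun i _ => sum_nonneg fun a _ => mul_nonneg (h0 a) (hp a i).le)
  · rw [div_eq_mul_inv, ← a5]
    linarith

lemma det_cons (p : Fin (j + 1) → Fin j → ℝ) :
    (Matrix.of fun a b : Fin (j + 1) => (Fin.cons 1 (p a) : Fin (j + 1) → ℝ) b).det =
      (Matrix.of fun k i : Fin j => p i.succ k - p 0 k).det := by
  rw [Matrix.det_eq_of_forall_row_eq_smul_add_const (B := Matrix.of
    (Fin.cons (Fin.cons 1 (p 0)) fun i => Fin.cons 0 (p i.succ - p 0) :
      Fin (j + 1) → Fin (j + 1) → ℝ)) (Fin.cons 0 fun _ => 1) 0 rfl,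
    Matrix.det_succ_column_zero, Fin.sum_univ_succ, ← Matrix.det_transpose (Matrix.of _)]
  · simp only [Matrix.of_apply, Fin.cons_zero, Fin.cons_succ, mul_zero, zero_mul, sum_const_zero,
      add_zero, Fin.val_zero, pow_zero, one_mul, Fin.succAbove_zero]
    rfl
  · intro a b
    refine Fin.cases ?_ (fun a => ?_) a <;> refine Fin.cases ?_ (fun b => ?_) b <;> simp

/-- the mass of a simplex -/
theorem bd_simplex (p : Fin (j + 1) → Fin j → ℝ) (h : ∀ a, p a ∈ cube j)
    (h' : ∀ a, 10 ≤ 270 - ∑ i, p a i) :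
    Bd j (convexHull ℝ (Set.range p))
      (|(Matrix.of fun a b : Fin (j + 1) => (Fin.cons 1 (p a) : Fin (j + 1) → ℝ) b).det| /
        (j + 1).factorial * ∑ a, dens (p a)) := by
  set N : Matrix (Fin j) (Fin j) ℝ := Matrix.of fun k i : Fin j => p i.succ k - p 0 k with hN
  set L : (Fin j → ℝ) →L[ℝ] (Fin j → ℝ) := LinearMap.toContinuousLinearMap (Matrix.toLin' N)
    with hL
  have hd : L.det = N.det := LinearMap.det_toLin' N
  set f : (Fin j → ℝ) → Fin j → ℝ := fun t => p 0 + L t with hf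
  have e : ∀ t, f t = fun k => ∑ a, bary t a * p a k := fun t => by
    funext k
    simp only [hf, hL, hN, LinearMap.coe_toContinuousLinearMap', Matrix.toLin'_apply, Pi.add_apply,
      Matrix.mulVec, dotProduct, Matrix.of_apply, Fin.sum_univ_succ, bary, Fin.cons_zero,
      Fin.cons_succ, sub_mul, sum_sub_distrib, ← mul_sum, mul_comm (t _)]
    ring
  have hc : Continuous f := by fun_prop
  have hs : f '' spx j ⊆ cube j := by
    rintro _ ⟨t, ht, rfl⟩
    rw [e]
    refine ⟨fun k => ?_, fun k => ?_⟩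
    · refine le_trans (le_of_eq ?_) (sum_le_sum fun a _ =>
        mul_le_mul_of_nonneg_left ((h a).1 k) (bary_nn ht a))
      rw [← sum_mul, bary_sum, one_mul]
    · refine (sum_le_sum fun a _ => mul_le_mul_of_nonneg_left ((h a).2 k) (bary_nn ht a)).trans_eq ?_
      rw [← sum_mul, bary_sum, one_mul]
  refine (red (spx_compact.image hc).isClosed hs).mono (convexHull_min ?_ ?_) ?_
  · rintro _ ⟨a, rfl⟩
    refine Fin.cases ⟨0, ⟨fun _ => le_rfl, by simp⟩, by simp [hf]⟩ (fun i => ?_) a
    refine ⟨Pi.single i 1, ⟨fun k => by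
      rw [Pi.single_apply]
      split_ifs <;> norm_num, by simp⟩, ?_⟩
    funext k
    simp [hf, hL, hN]
  · have h1 := (spx_convex.linear_image (L : (Fin j → ℝ) →ₗ[ℝ] (Fin j → ℝ))).translate (p 0)
    rwa [Set.image_image] at h1
  rw [det_cons, ← hN]
  by_cases h0 : N.det = 0
  · have hz : volume (f '' spx j) = 0 := by
      have h1 : f '' spx j = (fun x => p 0 + x) '' (Matrix.toLin' N '' spx j) := by
        rw [Set.image_image]
        rfl
      rw [h1, Set.image_add_left, measure_preimage_add, Measure.addHaar_image_linearMap,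
        LinearMap.det_toLin', h0]
      simp
    rw [Measure.restrict_eq_zero.2 hz, h0]
    simp
  have hi : Function.Injective f := fun s t hst =>
    Matrix.mulVec_injective_iff_isUnit.2 ((Matrix.isUnit_iff_isUnit_det N).2 (Ne.isUnit h0))
      (add_left_cancel hst)
  rw [integral_image_eq_integral_abs_det_fderiv_smul volume spx_closed.measurableSet
    (f' := fun _ => L) (fun t _ => (L.hasFDerivAt.const_add (p 0)).hasFDerivWithinAt) hi.injOn,
    integral_smul, hd, smul_eq_mul, div_eq_mul_one_div, mul_assoc]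
  refine mul_le_mul_of_nonneg_left ?_ (abs_nonneg _)
  have i1 : ∀ a, IntegrableOn (fun t => bary t a * dens (p a)) (spx j) := fun a =>
    ((bary_cont a).mul continuous_const).continuousOn.integrableOn_compact spx_compact
  refine (integral_mono_of_nonneg (g := fun t => ∑ a, bary t a * dens (p a))
    ((ae_restrict_iff' spx_closed.measurableSet).2 (Eventually.of_forall fun t ht =>
      dens_nn (hs ⟨t, ht, rfl⟩))) (integrable_finsetSum _ fun a _ => i1 a)
    ((ae_restrict_iff' spx_closed.measurableSet).2 (Eventually.of_forall fun t ht => ?_))).trans_eq ?_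
  · show dens (f t) ≤ _
    rw [e]
    exact dens_convex p h h' (bary_nn ht) (bary_sum t)
  · rw [integral_finsetSum _ fun a _ => i1 a, mul_sum]
    exact sum_congr rfl fun a _ => by rw [integral_mul_const, bary_int]

end Pool.Agent.Lib.AP.Mass
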