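import Pool.Agent.Lib.AP.Geo1

/-! Rays as lists of natural numbers, points as lists of reals. -/

noncomputable section

namespace Pool.Agent.Lib.AP.Geo

/-- a ray with `k` natural coordinates -/
def vec (k : ℕ) (v : List ℕ) : Fin k → ℝ := fun i => (v.getD i 0 : ℕ)

/-- a point given by a list of reals -/
def pt (k : ℕ) (x : List ℝ) : Fin k → ℝ := fun i => x.getD i 0

/-- the set of rays of a list -/
def rays (k : ℕ) (V : List (List ℕ)) : Set (Fin k → ℝ) := {y | ∃ v ∈ V, y = vec k v}

end Pool.Agent.Lib.AP.Geo
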