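import Pool.Agent.Lib.AP.Red
import Pool.Agent.Lib.AP.C82a

/-! Loss weighted masses of cells and the assembly of the numerical bound. -/

open Finset Filter Classical

noncomputable section

namespace Pool.Agent.Lib.AP.Mass

/-- the normalised loss of the integers whose exponent list satisfies `Q` is at most `U` -/
def Bw (Q : List ℝ → Prop) (U : ℝ) : Prop :=
  ∀ η : ℝ, 0 < η → η ≤ 1 → ∀ ε : ℝ, 0 < ε → ∀ᶠ Z : ℝ in atTop,
    ∑ n ∈ Ioc ⌊Z ^ 270⌋₊ ⌊Z ^ (270 + η : ℝ)⌋₊ with (Dom (xs Z n) ∧ Q (xs Z n)),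
      lossI (xs Z n) / n ≤ U * η / 270 + ε

lemma loss_nn (x : List ℝ) : 0 ≤ lossI x := by
  unfold lossI
  split_ifs
  · exact le_rfl
  · exact_mod_cast le_max_left _ _

lemma loss_le (x : List ℝ) : lossI x ≤ 3 ^ x.length := by
  unfold lossI
  split_ifs
  · positivity
  · have h := (abs_le.1 (st_BND.t 1 0 x)).1
    have h2 : max 0 (-T0 1 0 x) ≤ 3 ^ x.length := max_le (by positivity) (by linarith)
    exact_mod_cast h2

variable {Q Q1 Q2 : List ℝ → Prop} {U U1 U2 : ℝ}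

lemma Bw.mono (h : Bw Q1 U1) (hQ : ∀ x, Dom x → Q x → Q1 x) (hU : U1 ≤ U) : Bw Q U :=
  fun η h1 h2 ε hε => by
    filter_upwards [h η h1 h2 ε hε] with Z hZ
    refine (sum_le_sum_of_subset_of_nonneg (fun n hn => ?_) fun n _ _ =>
      div_nonneg (loss_nn _) (Nat.cast_nonneg n)).trans (hZ.trans ?_)
    · rw [mem_filter] at hn ⊢
      exact ⟨hn.1, hn.2.1, hQ _ hn.2.1 hn.2.2⟩
    · have := mul_le_mul_of_nonneg_right hU h1.le
      linarith

lemma Bw.zero (h : ∀ x, Dom x → Q x → lossI x ≤ 0) : Bw Q 0 := fun η _ _ ε hε =>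
  Eventually.of_forall fun Z => by
    refine (sum_nonpos fun n hn => ?_).trans (by simpa using hε.le)
    rw [mem_filter] at hn
    exact div_nonpos_of_nonpos_of_nonneg (h _ hn.2.1 hn.2.2) (Nat.cast_nonneg n)

lemma Bw.cover (h1 : Bw Q1 U1) (h2 : Bw Q2 U2) (hQ : ∀ x, Dom x → Q x → Q1 x ∨ Q2 x) :
    Bw Q (U1 + U2) := fun η e1 e2 ε hε => by
  filter_upwards [h1 η e1 e2 _ (half_pos hε), h2 η e1 e2 _ (half_pos hε)] with Z a b
  refine le_trans ?_ ((add_le_add a b).trans_eq (by ring))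
  rw [sum_filter, sum_filter, sum_filter, ← sum_add_distrib]
  refine sum_le_sum fun n _ => ?_
  have h0 : 0 ≤ lossI (xs Z n) / n := div_nonneg (loss_nn _) (Nat.cast_nonneg n)
  split_ifs with c1 c2 c3 c3 c2 c3 c3
  · linarith
  · linarith
  · linarith
  · rcases hQ _ c1.1 c1.2 with c | c
    · exact absurd ⟨c1.1, c⟩ c2
    · exact absurd ⟨c1.1, c⟩ c3
  all_goals linarith

lemma Bw.sum {ι : Type*} (s : Finset ι) {P : ι → List ℝ → Prop} {V : ι → ℝ}
    (h : ∀ i ∈ s, Bw (P i) (V i)) : Bw (fun x => ∃ i ∈ s, P i x) (∑ i ∈ s, V i) := by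
  induction s using Finset.induction_on with
  | empty => exact (Bw.zero fun x _ hx => by simp at hx).mono (fun _ _ h => h) (by simp)
  | insert a s ha ih =>
    rw [sum_insert ha]
    refine (h a (mem_insert_self _ _)).cover (ih fun i hi => h i (mem_insert_of_mem hi)) ?_
    rintro x - ⟨i, hi, hx⟩
    rcases mem_insert.1 hi with rfl | hi
    · exact Or.inl hx
    · exact Or.inr ⟨i, hi, hx⟩

lemma Bw.list {ι : Type*} {P : ι → List ℝ → Prop} {V : ι → ℝ} : ∀ s : List ι,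
    (∀ i ∈ s, Bw (P i) (V i)) → Bw (fun x => ∃ i ∈ s, P i x) (s.map V).sum
  | [], _ => (Bw.zero fun x _ hx => by simp at hx).mono (fun _ _ h => h) (by simp)
  | a :: s, h => by
    rw [List.map_cons, List.sum_cons]
    refine (h a (by simp)).cover (Bw.list s fun i hi => h i (by simp [hi])) ?_
    rintro x - ⟨i, hi, hx⟩
    rcases List.mem_cons.1 hi with rfl | hi
    · exact Or.inl hx
    · exact Or.inr ⟨i, hi, hx⟩

lemma weight {S : Finset ℕ} {f : ℕ → ℝ} {M B ε : ℝ} (hM : 0 ≤ M) (hε : 0 < ε)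
    (hf : ∀ n ∈ S, f n ≤ M) (h : ∑ n ∈ S, (1 : ℝ) / n ≤ B + ε / (M + 1)) :
    ∑ n ∈ S, f n / n ≤ M * B + ε := by
  have h1 : ∑ n ∈ S, f n / n ≤ M * ∑ n ∈ S, (1 : ℝ) / n := by
    rw [mul_sum]
    refine sum_le_sum fun n hn => ?_
    rw [mul_one_div]
    exact div_le_div_of_nonneg_right (hf n hn) (Nat.cast_nonneg n)
  have h2 := mul_le_mul_of_nonneg_left h hM
  have h3 : M * (ε / (M + 1)) ≤ ε :=
    (mul_le_mul_of_nonneg_right (by linarith : M ≤ M + 1) (by positivity)).trans_eq (by field_simp)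
  linarith [mul_add M B (ε / (M + 1))]

/-- a closed cell given as a set of exponents -/
theorem Bw.of_bd {j : ℕ} {E : Set (Fin j → ℝ)} {M : ℝ} (h : Bd j E U) (hM : 0 ≤ M)
    (hQ : ∀ x, Dom x → Q x → x.length = j + 1 ∧ (fun i : Fin j => x.getD i 0) ∈ E ∧ lossI x ≤ M) :
    Bw Q (M * U) := fun η h1 h2 ε hε => by
  filter_upwards [h η h1 h2 (ε / (M + 1)) (by positivity)] with Z hZ
  refine (weight (B := U * η / 270) hM hε (fun n hn => ?_) (le_trans ?_ hZ)).trans_eq (by ring)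
  · rw [mem_filter] at hn
    exact (hQ _ hn.2.1 hn.2.2).2.2
  · refine sum_le_sum_of_subset_of_nonneg (fun n hn => ?_) fun _ _ _ => by positivity
    rw [mem_filter] at hn ⊢
    exact ⟨hn.1, hn.2.1, (hQ _ hn.2.1 hn.2.2).1, (hQ _ hn.2.1 hn.2.2).2.1⟩

/-- a closed cell given as box and slab -/
theorem Bw.of_cell (L : List Var) (h : Ok L) {tl c1 c2 M : ℝ} (htl : 1 ≤ tl) (hc : c1 ≤ c2)
    (hM : 0 ≤ M) (hQ : ∀ x, Dom x → Q x →
      (∃ y t, x = y ++ [t] ∧ tl ≤ t ∧ InBox L c1 c2 y) ∧ lossI x ≤ M) :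
    Bw Q (M * (270 / tl * (G L c2 - G L c1))) := fun η h1 _ ε hε => by
  filter_upwards [cell_le L h h1 htl (ε := ε / (M + 1)) (by positivity)] with Z hZ
  refine (weight hM hε (fun n hn => ?_) (hZ c1 c2 _ hc (filter_subset _ _) fun n hn => ?_)).trans_eq
    (by ring)
  · rw [mem_filter] at hn
    exact (hQ _ hn.2.1 hn.2.2).2
  · rw [mem_filter] at hn
    exact (hQ _ hn.2.1 hn.2.2).1

/-- an open cell: at least two more primes above the box variables, crude loss -/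
theorem Bw.of_open (L : List Var) (h : Ok L) {tl a b c1 c2 : ℝ} (htl : 1 ≤ tl) (ha : 1 ≤ a)
    (hb : a ≤ b) (hc : c1 ≤ c2) (hQ : ∀ x, Dom x → Q x → ∃ y m t, x = y ++ m ++ [t] ∧ m ≠ [] ∧
      (∀ v ∈ m, a < v ∧ v ≤ b) ∧ tl ≤ t ∧ InBox L c1 c2 y) :
    Bw Q (3 ^ (L.length + 1) * (270 / tl) * ((b / a) ^ 3 - 1) * (G L c2 - G L c1)) :=
  fun η h1 _ ε hε => by
    filter_upwards [open_le L h 3 h1 htl ha hb hε] with Z hZ
    refine le_trans (sum_le_sum fun n _ => ?_)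
      ((hZ c1 c2 _ hc (filter_subset _ _) fun n hn => ?_).trans_eq ?_)
    · exact div_le_div_of_nonneg_right (by exact_mod_cast loss_le _) (Nat.cast_nonneg n)
    · rw [mem_filter] at hn
      obtain ⟨y, m, t, e, m1, m2⟩ := hQ _ hn.2.1 hn.2.2
      have hp := hn.2.1.asc
      rw [e] at hp
      exact ⟨y, m, t, e, m1, hp.sublist
        ((List.sublist_append_right y m).trans (List.sublist_append_left _ _)), m2⟩
    · push_cast
      ring

/-- assembly -/
theorem num_of {θ : ℝ} (hθ : θ < 1) (h : Bw (fun _ => True) θ) : St_NUM := by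
  refine ⟨θ, hθ, fun η h1 h2 ε hε => ?_⟩
  filter_upwards [h η h1 h2 ε hε] with Z hZ
  rw [sum_filter] at hZ
  simpa using hZ

/-- assembly by the number of primes: `V k` for exactly `k` primes, `k < K`, and a tail -/
theorem num_of_len {K : ℕ} {V : ℕ → ℝ} {T : ℝ} (h1 : ∀ k < K, Bw (fun x => x.length = k) (V k))
    (h2 : Bw (fun x => K ≤ x.length) T) (hθ : ∑ k ∈ range K, V k + T < 1) : St_NUM := by
  refine num_of hθ ((Bw.sum (range K) fun k hk => h1 k (mem_range.1 hk)).cover h2 fun x _ _ => ?_)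
  rcases lt_or_ge x.length K with h | h
  · exact Or.inl ⟨_, mem_range.2 h, rfl⟩
  · exact Or.inr h

end Pool.Agent.Lib.AP.Mass
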