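import Pool.Agent.Lib.AP.Geo2
import Pool.Agent.Lib.AP.Red2
import Pool.Agent.Lib.AP.GeoD

/-! The mass of a simplicial cone of exponents. -/

open Finset Classical

noncomputable section

namespace Pool.Agent.Lib.AP.Mass

open Geo

lemma cn_coef {ι E : Type*} [Fintype ι] [AddCommGroup E] [Module ℝ E] {v : ι → E} {y : E}
    (h : Cn (Set.range v) y) : ∃ t : ι → ℝ, (∀ a, 0 ≤ t a) ∧ y = ∑ a, t a • v a := by
  induction h with
  | zero => exact ⟨0, fun _ => le_rfl, by simp⟩
  | mem hv =>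
    obtain ⟨a, rfl⟩ := hv
    refine ⟨Pi.single a 1, fun b => ?_, by simp [Pi.single_apply]⟩
    rw [Pi.single_apply]
    split_ifs <;> norm_num
  | add _ _ a b =>
    obtain ⟨s, hs, rfl⟩ := a
    obtain ⟨t, ht, rfl⟩ := b
    exact ⟨s + t, fun a => add_nonneg (hs a) (ht a), by simp [add_smul, sum_add_distrib]⟩
  | @smul c _ hc _ a =>
    obtain ⟨s, hs, rfl⟩ := a
    exact ⟨fun a => c * s a, fun a => mul_nonneg hc (hs a), by simp [smul_sum, smul_smul]⟩

variable {j : ℕ}

lemma det_norm (q : Fin (j + 1) → Fin (j + 1) → ℝ) (h : ∀ a, ∑ i, q a i = 270) :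
    |(Matrix.of q).det| = 270 * |(Matrix.of fun a b : Fin (j + 1) =>
      (Fin.cons 1 (fun i : Fin j => q a i.castSucc) : Fin (j + 1) → ℝ) b).det| := by
  have h1 := Matrix.det_updateCol_sum (Matrix.of q) (Fin.last j) fun _ => 1
  simp only [one_smul, Matrix.of_apply, h] at h1
  rw [← h1, Matrix.det_succ_column _ (Fin.last j), Matrix.det_succ_column_zero, ← abs_of_pos
    (by norm_num : (0 : ℝ) < 270), ← abs_mul, abs_of_pos (by norm_num : (0 : ℝ) < 270), mul_sum]
  have h2 : ∀ x : ℝ, |x| = |(-1) ^ j * x| := fun x => by simp [abs_mul]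
  rw [h2, mul_sum]
  congr 1
  refine sum_congr rfl fun a _ => ?_
  have e : ((Matrix.of q).updateCol (Fin.last j) fun _ => 270).submatrix a.succAbove
      (Fin.last j).succAbove = (Matrix.of fun a b : Fin (j + 1) =>
      (Fin.cons 1 (fun i : Fin j => q a i.castSucc) : Fin (j + 1) → ℝ) b).submatrix a.succAbove
        Fin.succ := by
    ext b i
    simp [(Fin.castSucc_lt_last i).ne]
  rw [e, Matrix.updateCol_self, Matrix.of_apply, Fin.cons_zero, Fin.val_last, pow_add]
  have h3 : ((-1 : ℝ) ^ j) * (-1) ^ j = 1 := by rw [← mul_pow]; simp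
  linear_combination (270 * (-1) ^ (a : ℕ) * ((Matrix.of fun a b : Fin (j + 1) =>
    (Fin.cons 1 (fun i : Fin j => q a i.castSucc) : Fin (j + 1) → ℝ) b).submatrix a.succAbove
      Fin.succ).det) * h3

lemma sum_pt {x : List ℝ} {k : ℕ} (h : x.length = k) : ∑ i, pt k x i = x.sum := by
  subst h
  rw [← Fin.sum_univ_getElem]
  exact sum_congr rfl fun i _ => by simp [pt]

/-- the mass of a simplicial cone -/
theorem bw_cone (v : Fin (j + 1) → Fin (j + 1) → ℝ) (hs : ∀ a, 0 < ∑ i, v a i)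
    (h27 : ∀ a i, ∑ l, v a l ≤ 27 * v a i) {M : ℝ} (hM : 0 ≤ M) {Q : List ℝ → Prop}
    (hQ : ∀ x, Dom x → Q x → x.length = j + 1 ∧ Cn (Set.range v) (pt (j + 1) x) ∧ lossI x ≤ M) :
    Bw Q (M * (|(Matrix.of v).det| / (j + 1).factorial *
      ∑ a, (∑ i, v a i) ^ (j + 1) / ((∏ b, ∑ i, v b i) * ∏ i, v a i))) := by
  set s : Fin (j + 1) → ℝ := fun a => ∑ i, v a i with hsd
  set q : Fin (j + 1) → Fin (j + 1) → ℝ := fun a i => 270 / s a * v a i with hq
  have hv : ∀ a i, 0 < v a i := fun a i => by linarith [hs a, h27 a i]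
  have q1 : ∀ a, ∑ i, q a i = 270 := fun a => by
    simp only [hq, ← mul_sum]
    exact div_mul_cancel₀ _ (hs a).ne'
  have q2 : ∀ a i, 10 ≤ q a i := fun a i => by
    simp only [hq]
    rw [div_mul_eq_mul_div, le_div_iff₀ (hs a)]
    linarith [h27 a i]
  have q3 : ∀ a, 270 - ∑ i : Fin j, q a i.castSucc = q a (Fin.last j) := fun a => by
    rw [← q1 a, Fin.sum_univ_castSucc]
    ring
  have hb := bd_simplex (fun a (i : Fin j) => q a i.castSucc) (fun a => ⟨fun i => q2 a _, fun i => by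
    have h1 := single_le_sum (f := fun i : Fin j => q a i.castSucc)
      (fun i _ => le_trans (by norm_num) (q2 a _)) (mem_univ i)
    show q a i.castSucc ≤ 260
    linarith [q3 a, q2 a (Fin.last j)]⟩) fun a => (q3 a).symm ▸ q2 a _
  refine (Bw.of_bd hb hM fun x hd hx => ?_).mono (fun _ _ h => h) (le_of_eq ?_)
  · obtain ⟨h1, h2, h3⟩ := hQ x hd hx
    refine ⟨h1, ?_, h3⟩
    obtain ⟨t, t0, ht⟩ := cn_coef h2
    have e1 : ∑ a, t a * s a = 270 := by
      rw [← hd.tot, ← sum_pt h1, ht]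
      simp only [hsd, mul_sum, Finset.sum_apply, Pi.smul_apply, smul_eq_mul]
      exact sum_comm
    have e2 : (fun i : Fin j => x.getD i 0) =
        ∑ a, (t a * s a / 270) • fun i : Fin j => q a i.castSucc := by
      funext i
      have h4 := congrFun ht i.castSucc
      simp only [pt, Fin.val_castSucc, Finset.sum_apply, Pi.smul_apply, smul_eq_mul] at h4 ⊢
      rw [h4]
      refine sum_congr rfl fun a _ => ?_
      have : s a ≠ 0 := (hs a).ne'
      simp only [hq]
      field_simp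
    rw [e2]
    exact (convex_convexHull ℝ _).sum_mem
      (fun a _ => div_nonneg (mul_nonneg (t0 a) (hs a).le) (by norm_num))
      (by rw [← sum_div, e1]; norm_num) fun a _ => subset_convexHull ℝ _ ⟨a, rfl⟩
  · congr 1
    have d1 := det_norm q q1
    have d2 : (Matrix.of q).det = (∏ a, 270 / s a) * (Matrix.of v).det :=
      Matrix.det_mul_column (fun a => 270 / s a) (Matrix.of v)
    have p0 : 0 < ∏ a, s a := prod_pos fun a _ => hs a
    rw [d2, abs_mul, abs_of_nonneg (prod_nonneg fun a _ => (div_pos (by norm_num) (hs a)).le),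
      prod_div_distrib, prod_const, card_univ, Fintype.card_fin] at d1
    rw [eq_div_of_mul_eq (by norm_num : (270 : ℝ) ≠ 0) ((mul_comm _ _).trans d1.symm), mul_sum,
      mul_sum]
    refine sum_congr rfl fun a _ => ?_
    have p1 : 0 < ∏ i, v a i := prod_pos fun i _ => hv a i
    have := (hs a).ne'
    rw [dens, q3, max_eq_right (q2 a _), ← Fin.prod_univ_castSucc (q a)]
    simp only [hq]
    rw [prod_mul_distrib, prod_const, card_univ, Fintype.card_fin, div_pow]
    generalize ∏ i, v a i = P at p1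
    generalize ∏ a, s a = S at p0
    field_simp
    rfl

lemma rays_eq {k n : ℕ} {V : List (List ℕ)} (h : V.length = n) :
    rays k V = Set.range fun a : Fin n => vec k (V.getD a []) := by
  subst h
  ext y
  constructor
  · rintro ⟨w, hw, rfl⟩
    obtain ⟨a, rfl⟩ := List.mem_iff_get.1 hw
    exact ⟨a, by simp⟩
  · rintro ⟨a, rfl⟩
    exact ⟨V.get a, List.get_mem V a, by simp⟩

/-- the mass of a simplicial cone given by a list of rays -/
theorem bw_rays {V : List (List ℕ)} (hV : V.length = j + 1)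
    (hs : ∀ w ∈ V, 0 < ∑ i, vec (j + 1) w i)
    (h27 : ∀ w ∈ V, ∀ i, ∑ l, vec (j + 1) w l ≤ 27 * vec (j + 1) w i) {M : ℝ} (hM : 0 ≤ M)
    {Q : List ℝ → Prop} (hQ : ∀ x, Dom x → Q x →
      x.length = j + 1 ∧ Cn (rays (j + 1) V) (pt (j + 1) x) ∧ lossI x ≤ M) :
    Bw Q (M * (|(Matrix.of fun a : Fin (j + 1) => vec (j + 1) (V.getD a [])).det| /
      (j + 1).factorial * ∑ a : Fin (j + 1), (∑ i, vec (j + 1) (V.getD a []) i) ^ (j + 1) /
        ((∏ b : Fin (j + 1), ∑ i, vec (j + 1) (V.getD b []) i) *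
          ∏ i, vec (j + 1) (V.getD a []) i))) := by
  have hm : ∀ a : Fin (j + 1), V.getD a [] ∈ V := fun a => by
    rw [List.getD_eq_getElem _ _ (by have := a.2; omega)]
    exact List.getElem_mem _
  exact bw_cone _ (fun a => hs _ (hm a)) (fun a => h27 _ (hm a)) hM (by rwa [← rays_eq hV])

end Pool.Agent.Lib.AP.Mass
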