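import Pool.Agent.Lib.AP.Ev3

/-! The comparison oracle on packed lanes: one lane of 96 bits per ray, and a weight on top. -/

namespace Pool.Agent.Lib.AP.Ev

/-- `2 ^ 96` -/
def lW : ℕ := 79228162514264337593543950336
/-- `2 ^ 80` -/
def lD : ℕ := 1208925819614629174706176

/-- top bits of `L` lanes -/
def lH : ℕ → ℕ
  | 0 => 0
  | L + 1 => Nat.add 39614081257132168796771975168 (Nat.mul lW (lH L))

/-- size bound for codes with `L` lanes -/
def lB : ℕ → ℕ
  | 0 => 16384
  | L + 1 => Nat.mul lW (lB L)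

def laneLe (H B HB a b : ℕ) : Bool :=
  Nat.beq (Nat.land (Nat.sub (Nat.add b HB) a) H) H && Nat.ble a B && Nat.ble b B

/-- the oracle for `L` rays -/
def lle (L : ℕ) : ℕ → ℕ → Bool := laneLe (lH L) (lB L) (Nat.add (lH L) (lB L))

/-- codes of the coordinates; every ray has `k` entries -/
def pack (k : ℕ) : List (List ℕ) → List ℕ
  | [] => List.replicate k 1
  | v :: V => List.zipWith (fun a c => Nat.add a (Nat.mul lW c)) v (pack k V)

def rowOk (k : ℕ) (v : List ℕ) : Bool := Nat.beq v.length k && v.all fun a => Nat.ble a lD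

/-- the point with coefficients `lam` -/
noncomputable def comb (k : ℕ) : List ℝ → List (List ℕ) → List ℝ
  | t :: lam, v :: V => List.zipWith (fun (a : ℕ) c => t * a + c) v (comb k lam V)
  | _, _ => List.replicate k 0

def Rn : List ℝ → ℕ → ℕ → ℝ → Prop
  | [], n, a, v => a = n ∧ v = 0
  | t :: lam, n, a, v => ∃ (d a' : ℕ) (v' : ℝ), a = d + lW * a' ∧ d ≤ n * lD ∧ v = t * d + v' ∧
      Rn lam n a' v'

theorem Rn_zero : ∀ lam : List ℝ, Rn lam 0 0 0
  | [] => ⟨rfl, rfl⟩
  | _ :: lam => ⟨0, 0, 0, by simp, by simp, by simp, Rn_zero lam⟩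

theorem Rn_add : ∀ (lam : List ℝ) {n m a b : ℕ} {v w : ℝ}, Rn lam n a v → Rn lam m b w →
    Rn lam (n + m) (a + b) (v + w)
  | [], _, _, _, _, _, _, h, g => ⟨by rw [h.1, g.1], by rw [h.2, g.2, add_zero]⟩
  | _ :: lam, _, _, _, _, _, _, ⟨d, a', v', h1, h2, h3, h4⟩, ⟨e, b', w', g1, g2, g3, g4⟩ =>
    ⟨d + e, a' + b', v' + w', by rw [h1, g1]; ring, by rw [add_mul]; exact add_le_add h2 g2,
      by rw [h3, g3]; push_cast; ring, Rn_add lam h4 g4⟩

theorem Rn_mul (c : ℕ) : ∀ (lam : List ℝ) {n a : ℕ} {v : ℝ}, Rn lam n a v →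
    Rn lam (c * n) (c * a) (c * v)
  | [], _, _, _, h => ⟨by rw [h.1], by rw [h.2, mul_zero]⟩
  | _ :: lam, _, _, _, ⟨d, a', v', h1, h2, h3, h4⟩ =>
    ⟨c * d, c * a', c * v', by rw [h1]; ring, by rw [mul_assoc]; exact Nat.mul_le_mul_left c h2,
      by rw [h3]; push_cast; ring, Rn_mul c lam h4⟩

theorem lW_eq : lW = 2 ^ 96 := by norm_num [lW]

theorem Rn_bd : ∀ (lam : List ℝ) {n a : ℕ} {v : ℝ}, Rn lam n a v → a ≤ lB lam.length → n ≤ 16384
  | [], _, _, _, h, g => h.1 ▸ g
  | _ :: lam, _, _, _, ⟨d, a', _, h1, _, _, h4⟩, g => by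
    refine Rn_bd lam h4 ?_
    have g' : d + lW * a' ≤ lW * lB lam.length := h1 ▸ g
    exact Nat.le_of_mul_le_mul_left ((Nat.le_add_left _ _).trans g') (by norm_num [lW])

theorem Rn_le : ∀ (lam : List ℝ), (∀ t ∈ lam, 0 ≤ t) → ∀ {n m a b : ℕ} {v w : ℝ}, n ≤ 16384 →
    m ≤ 16384 → Rn lam n a v → Rn lam m b w → a ≤ lB lam.length →
    (b + (lH lam.length + lB lam.length) - a) &&& lH lam.length = lH lam.length → v ≤ w
  | [], _, _, _, _, _, _, _, _, _, h, g, _, _ => by rw [h.2, g.2]
  | t :: lam, ht, n, m, _, _, _, _, hn, hm, ⟨d, a', v', rfl, h2, rfl, h4⟩,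
      ⟨e, b', w', rfl, g2, rfl, g4⟩, hB, h => by
    have hB' : d + lW * a' ≤ lW * lB lam.length := hB
    have ha' : a' ≤ lB lam.length :=
      Nat.le_of_mul_le_mul_left ((Nat.le_add_left _ _).trans hB') (by norm_num [lW])
    have hd : d ≤ 16384 * lD := h2.trans (Nat.mul_le_mul_right _ hn)
    have he : e ≤ 16384 * lD := g2.trans (Nat.mul_le_mul_right _ hm)
    obtain ⟨z, hz⟩ : ∃ z, b' + (lH lam.length + lB lam.length) = a' + z :=
      Nat.exists_eq_add_of_le (by omega)
    obtain ⟨y, hy⟩ : ∃ y, e + 2 ^ 95 = d + y := Nat.exists_eq_add_of_le (by unfold lD at hd; omega)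
    have hy' : y < 2 ^ 96 := by unfold lD at he; omega
    have eH : lH (t :: lam).length = 2 ^ 95 + 2 ^ 96 * lH lam.length := by
      rw [← lW_eq]; rfl
    have eB : lB (t :: lam).length = 2 ^ 96 * lB lam.length := by rw [← lW_eq]; rfl
    have e1 : e + lW * b' + (lH (t :: lam).length + lB (t :: lam).length) - (d + lW * a')
        = y + 2 ^ 96 * z := by
      rw [eH, eB, lW_eq]; omega
    rw [e1, eH] at h
    have k1 := congrArg (· / 2 ^ 96) h
    have k2 := congrArg (·.testBit 95) h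
    simp only [Nat.and_div_two_pow] at k1
    rw [Nat.add_mul_div_left _ _ (by norm_num), Nat.add_mul_div_left _ _ (by norm_num),
      Nat.div_eq_of_lt hy', Nat.div_eq_of_lt (by norm_num), zero_add, zero_add] at k1
    have i := Rn_le lam (fun s hs => ht s (List.mem_cons_of_mem _ hs)) hn hm h4 g4 ha'
      (by rw [hz, Nat.add_sub_cancel_left]; exact k1)
    have k3 : (2 ^ 95 + 2 ^ 96 * lH lam.length).testBit 95 = true := by
      rw [Nat.testBit_eq_decide_div_mod_eq, decide_eq_true_eq]; omega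
    simp only [Nat.testBit_and, k3, Bool.and_true] at k2
    rw [Nat.testBit_eq_decide_div_mod_eq, decide_eq_true_eq] at k2
    have k4 : d ≤ e := by omega
    have k5 : (d : ℝ) ≤ e := by exact_mod_cast k4
    have := mul_le_mul_of_nonneg_left k5 (ht t (by simp))
    linarith

theorem orc_lane (lam : List ℝ) (h : ∀ t ∈ lam, 0 ≤ t) :
    Orc (lle lam.length) fun a v => ∃ n, Rn lam n a v where
  zero := ⟨0, Rn_zero lam⟩
  add := fun ⟨_, h1⟩ ⟨_, h2⟩ => ⟨_, Rn_add lam h1 h2⟩
  mul := fun c _ _ ⟨_, h1⟩ => ⟨_, Rn_mul c lam h1⟩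
  le := fun ⟨_, h1⟩ ⟨_, h2⟩ h3 => by
    simp only [lle, laneLe, Bool.and_eq_true, Nat.ble_eq, Nat.beq_eq] at h3
    exact Rn_le lam h (Rn_bd lam h1 h3.1.2) (Rn_bd lam h2 h3.2) h1 h2 h3.1.2 h3.1.1

theorem pack_R (k : ℕ) : ∀ (lam : List ℝ) (V : List (List ℕ)), lam.length = V.length →
    V.all (rowOk k) = true → List.Forall₂ (Rn lam 1) (pack k V) (comb k lam V)
  | [], [], _, _ => by
    simp only [pack, comb]
    induction k with
    | zero => simp
    | succ k ih => exact List.Forall₂.cons ⟨rfl, rfl⟩ (ih rfl)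
  | [], _ :: _, h, _ => by simp at h
  | _ :: _, [], h, _ => by simp at h
  | t :: lam, v :: V, h, g => by
    simp only [List.all_cons, Bool.and_eq_true, rowOk, List.all_eq_true, Nat.ble_eq] at g
    have i := pack_R k lam V (by simpa using h) (by
      simpa only [Bool.and_eq_true, rowOk, List.all_eq_true, Nat.ble_eq] using g.2)
    simp only [pack, comb]
    have g1 := g.1.2
    clear g h
    generalize pack k V = p at i
    generalize comb k lam V = q at i
    induction i generalizing v with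
    | nil => simp
    | cons h1 _ ih =>
      obtain _ | ⟨a, v⟩ := v
      · simp
      · exact List.Forall₂.cons ⟨a, _, _, rfl, by simpa using g1 a (by simp), rfl, h1⟩
          (ih v fun b hb => g1 b (List.mem_cons_of_mem _ hb))

/-- `x` lies in the cone spanned by the rays `V` -/
def InCone (k : ℕ) (V : List (List ℕ)) (x : List ℝ) : Prop :=
  ∃ lam : List ℝ, lam.length = V.length ∧ (∀ t ∈ lam, 0 ≤ t) ∧ x = comb k lam V

theorem cone_orc {k : ℕ} {V : List (List ℕ)} {x : List ℝ} (hV : V.all (rowOk k) = true)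
    (hx : InCone k V x) : ∃ R, Orc (lle V.length) R ∧ List.Forall₂ R (pack k V) x := by
  obtain ⟨lam, h1, h2, rfl⟩ := hx
  exact ⟨_, h1 ▸ orc_lane lam h2, (pack_R k lam V h1 hV).imp fun _ _ h => ⟨1, h⟩⟩

/-- the largest part is at least 135 or the second largest at least 90 -/
def outChk (le : ℕ → ℕ → Bool) (cs : List ℕ) : Bool :=
  match cs.reverse with
  | b :: c :: _ => le (sumN cs) (Nat.mul 2 b) || le (sumN cs) (Nat.mul 3 c)
  | _ => false

theorem out_s {le : ℕ → ℕ → Bool} {R : ℕ → ℝ → Prop} (O : Orc le R) {cs : List ℕ} {x : List ℝ}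
    (D : Dom x) (h : List.Forall₂ R cs x) (g : outChk le cs = true) : lossI x = 0 := by
  have ht : R (sumN cs) 270 := D.tot ▸ sumN_R O h
  have h' := List.forall₂_reverse_iff.2 h
  unfold outChk at g
  generalize cs.reverse = cr at g h'
  obtain _ | ⟨cb, _ | ⟨cc, cr⟩⟩ := cr
  · simp at g
  · simp at g
  obtain ⟨b, r, hb, hr, e⟩ := List.forall₂_cons_left_iff.1 h'
  obtain ⟨c, r, hc, -, rfl⟩ := List.forall₂_cons_left_iff.1 hr
  have e' : x = r.reverse ++ [c, b] := by
    rw [← List.reverse_reverse x, e]; simp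
  simp only [Bool.or_eq_true] at g
  rcases g with g | g
  · have := O.le ht (O.mul 2 hb) g
    push_cast at this
    exact loss_giant D (by rw [e']; simp) (b := b) (by rw [e']; simp) (by linarith)
  · have := O.le ht (O.mul 3 hc) g
    push_cast at this
    exact loss_two D (b := c) (c := b) (e' ▸ List.sublist_append_right _ _) (by linarith)

/-- a leaf: `a % 4 = 0` evaluation with bound `a / 4`, `1` cover witness `a / 4`, else outside -/
def leafChk (le : ℕ → ℕ → Bool) (cs : List ℕ) (a : ℕ) : Bool :=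
  bif Nat.beq (Nat.mod a 4) 0 then evChk le cs (Nat.div a 4) else
  bif Nat.beq (Nat.mod a 4) 1 then covChk le (sumN cs) cs (Nat.div a 4) else outChk le cs

def leafM (a : ℕ) : ℕ := bif Nat.beq (Nat.mod a 4) 0 then Nat.div a 4 else 0

theorem leaf_s {le : ℕ → ℕ → Bool} {R : ℕ → ℝ → Prop} (O : Orc le R) {cs : List ℕ} {x : List ℝ}
    (D : Dom x) (h : List.Forall₂ R cs x) {a : ℕ} (g : leafChk le cs a = true) :
    lossI x ≤ leafM a := by
  unfold leafChk at g
  unfold leafM
  cases h0 : Nat.beq (Nat.mod a 4) 0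
  · rw [h0] at g
    simp only [cond_false, Nat.cast_zero] at g ⊢
    cases h1 : Nat.beq (Nat.mod a 4) 1
    · rw [h1] at g
      exact (out_s O D h g).le
    · rw [h1] at g
      exact (st_COV le R O _ cs x x _ (D.tot ▸ sumN_R O h) (List.Sublist.refl x) h g).le
  · rw [h0] at g
    exact st_EV le R O cs x _ D h g

/-- the leaf check on a cone -/
def coneChk (k : ℕ) (V : List (List ℕ)) (a : ℕ) : Bool :=
  V.all (rowOk k) && leafChk (lle V.length) (pack k V) a

theorem cone_leaf {k : ℕ} {V : List (List ℕ)} {a : ℕ} (g : coneChk k V a = true) {x : List ℝ}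
    (D : Dom x) (hx : InCone k V x) : lossI x ≤ leafM a := by
  simp only [coneChk, Bool.and_eq_true] at g
  obtain ⟨R, O, h⟩ := cone_orc g.1 hx
  exact leaf_s O D h g.2

theorem comb_len (k : ℕ) : ∀ (lam : List ℝ) (V : List (List ℕ)), (∀ v ∈ V, v.length = k) →
    (comb k lam V).length = k
  | [], _, _ => by simp [comb]
  | _ :: _, [], _ => by simp [comb]
  | t :: lam, v :: V, h => by
    simp [comb, comb_len k lam V fun w hw => h w (List.mem_cons_of_mem _ hw), h v (by simp)]

theorem comb_add (k : ℕ) {t : ℝ} {v : List ℕ} {V : List (List ℕ)} {x y : List ℝ}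
    (ht : 0 ≤ t) (hy : InCone k V y) (hx : x = List.zipWith (fun (a : ℕ) c => t * a + c) v y) :
    InCone k (v :: V) x := by
  obtain ⟨lam, h1, h2, rfl⟩ := hy
  refine ⟨t :: lam, by simp [h1], fun s hs => ?_, hx⟩
  rcases List.mem_cons.1 hs with rfl | hs
  · exact ht
  · exact h2 s hs

/-- coordinates of a combination -/
theorem comb_getD (k i : ℕ) : ∀ (lam : List ℝ) (V : List (List ℕ)), (∀ v ∈ V, v.length = k) →
    (comb k lam V).getD i 0 =
      (List.zipWith (fun (t : ℝ) (v : List ℕ) => t * (v.getD i 0 : ℕ)) lam V).sum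
  | [], _, _ => by
    simp only [comb, List.zipWith_nil_left, List.sum_nil, List.getD_eq_getElem?_getD,
      List.getElem?_replicate]
    split_ifs <;> rfl
  | _ :: _, [], _ => by
    simp only [comb, List.zipWith_nil_right, List.sum_nil, List.getD_eq_getElem?_getD,
      List.getElem?_replicate]
    split_ifs <;> rfl
  | t :: lam, v :: V, h => by
    have h1 : ∀ w ∈ V, w.length = k := fun w hw => h w (List.mem_cons_of_mem _ hw)
    have h2 := comb_len k lam V h1
    have h3 := h v (by simp)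
    rw [List.zipWith_cons_cons, List.sum_cons, ← comb_getD k i lam V h1, comb]
    by_cases hi : i < k
    · rw [List.getD_eq_getElem _ _ (by simp [h2, h3, hi]), List.getD_eq_getElem _ _ (h3 ▸ hi),
        List.getD_eq_getElem _ _ (h2.symm ▸ hi), List.getElem_zipWith]
    · rw [List.getD_eq_default _ _ (by simp [h2, h3]; omega), List.getD_eq_default _ _ (by omega),
        List.getD_eq_default _ _ (by omega)]
      simp

/-- membership in the cone from the coordinates -/
theorem inCone_of {k : ℕ} {V : List (List ℕ)} {x lam : List ℝ} (hV : ∀ v ∈ V, v.length = k)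
    (hx : x.length = k) (hl : lam.length = V.length) (h0 : ∀ t ∈ lam, 0 ≤ t)
    (h : ∀ i < k, x.getD i 0 =
      (List.zipWith (fun (t : ℝ) (v : List ℕ) => t * (v.getD i 0 : ℕ)) lam V).sum) : InCone k V x := by
  refine ⟨lam, hl, h0, List.ext_getElem (by rw [hx, comb_len k lam V hV]) fun i h1 h2 => ?_⟩
  have := h i (hx ▸ h1)
  rwa [← comb_getD k i lam V hV, List.getD_eq_getElem _ _ h1, List.getD_eq_getElem _ _ h2] at this

end Pool.Agent.Lib.AP.Ev
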