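import Pool.Agent.Lib.AP.Lane
import Pool.Agent.Lib.AP.GeoD

/-! The lane oracle for cones given as `Geo.Cn`. -/

namespace Pool.Agent.Lib.AP.Ev

open Geo

theorem cn_cons {k : ℕ} {v : List ℕ} {V : List (List ℕ)} {y : Fin k → ℝ}
    (h : Cn (rays k (v :: V)) y) :
    ∃ t : ℝ, 0 ≤ t ∧ ∃ z, Cn (rays k V) z ∧ y = t • vec k v + z := by
  induction h with
  | zero => exact ⟨0, le_rfl, 0, .zero, by simp⟩
  | mem hv =>
    obtain ⟨w, hw, rfl⟩ := hv
    rcases List.mem_cons.1 hw with rfl | hw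
    · exact ⟨1, zero_le_one, 0, .zero, by simp⟩
    · exact ⟨0, le_rfl, _, .mem ⟨w, hw, rfl⟩, by simp⟩
  | add _ _ a b =>
    obtain ⟨s, hs, z, hz, rfl⟩ := a
    obtain ⟨t, ht, w, hw, rfl⟩ := b
    exact ⟨s + t, add_nonneg hs ht, z + w, .add hz hw, by rw [add_smul]; abel⟩
  | smul hs _ a =>
    obtain ⟨t, ht, z, hz, rfl⟩ := a
    exact ⟨_, mul_nonneg hs ht, _, .smul hs hz, by rw [smul_add, smul_smul]⟩

theorem cn_lam {k : ℕ} : ∀ (V : List (List ℕ)) {y : Fin k → ℝ}, Cn (rays k V) y →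
    ∃ lam : List ℝ, lam.length = V.length ∧ (∀ t ∈ lam, 0 ≤ t) ∧ ∀ i : Fin k, y i =
      (List.zipWith (fun (t : ℝ) (v : List ℕ) => t * (v.getD i 0 : ℕ)) lam V).sum
  | [], y, h => ⟨[], rfl, by simp, fun i => by
      have := h.eq_zero (g := LinearMap.proj i) (by rintro v ⟨w, hw, -⟩; simp at hw)
      simpa using this⟩
  | v :: V, y, h => by
    obtain ⟨t, ht, z, hz, rfl⟩ := cn_cons h
    obtain ⟨lam, h1, h2, h3⟩ := cn_lam V hz
    refine ⟨t :: lam, by simp [h1], fun s hs => ?_, fun i => ?_⟩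
    · rcases List.mem_cons.1 hs with rfl | hs
      · exact ht
      · exact h2 s hs
    · rw [List.zipWith_cons_cons, List.sum_cons, ← h3 i]; rfl

theorem rowOk_len {k : ℕ} {V : List (List ℕ)} (hV : V.all (rowOk k) = true) :
    ∀ v ∈ V, v.length = k := fun v hv => by
  have := List.all_eq_true.1 hV v hv
  simp only [rowOk, Bool.and_eq_true, Nat.beq_eq] at this
  exact this.1

theorem inCone_cn {k : ℕ} {V : List (List ℕ)} {x : List ℝ} (hV : V.all (rowOk k) = true)
    (hx : x.length = k) (h : Cn (rays k V) (pt k x)) : InCone k V x := by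
  obtain ⟨lam, h1, h2, h3⟩ := cn_lam V h
  exact inCone_of (rowOk_len hV) hx h1 h2 fun i hi => h3 ⟨i, hi⟩

theorem cn_orc {k : ℕ} {V : List (List ℕ)} {x : List ℝ} (hV : V.all (rowOk k) = true)
    (hx : x.length = k) (h : Cn (rays k V) (pt k x)) :
    ∃ R, Orc (lle V.length) R ∧ List.Forall₂ R (pack k V) x :=
  cone_orc hV (inCone_cn hV hx h)

/-- closed cell -/
theorem cn_leaf {k : ℕ} {V : List (List ℕ)} {a : ℕ} (g : coneChk k V a = true) {x : List ℝ}
    (D : Dom x) (hx : x.length = k) (h : Cn (rays k V) (pt k x)) : lossI x ≤ leafM a :=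
  cone_leaf g D (inCone_cn (by simp only [coneChk, Bool.and_eq_true] at g; exact g.1) hx h)

/-- cover witness on an open cell: `j` parts and the rest as last coordinate, which is not used -/
def openChk (j : ℕ) (V : List (List ℕ)) (m : ℕ) : Bool :=
  V.all (rowOk (j + 1)) &&
    covChk (lle V.length) (sumN (pack (j + 1) V)) (pack (j + 1) V).dropLast m

theorem cn_open {j : ℕ} {V : List (List ℕ)} {m : ℕ} (g : openChk j V m = true) {x : List ℝ}
    (hj : j ≤ x.length)
    (h : Cn (rays (j + 1) V) (pt (j + 1) (x.take j ++ [270 - (x.take j).sum]))) : lossI x = 0 := by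
  simp only [openChk, Bool.and_eq_true] at g
  obtain ⟨R, O, hR⟩ := cn_orc g.1 (by simp [hj]) h
  have ht := sumN_R O hR
  rw [List.sum_append, List.sum_singleton, add_sub_cancel] at ht
  refine st_COV _ R O _ _ (x.take j) x m ht (List.take_sublist _ _) ?_ g.2
  have h1 := List.forall₂_take (x.take j).length hR
  rw [List.take_left' rfl] at h1
  rwa [List.dropLast_eq_take, hR.length_eq, List.length_append, List.length_singleton,
    Nat.add_sub_cancel]

end Pool.Agent.Lib.AP.Ev
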