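import Pool.Agent.Lib.AP.B_MER

/-! Sums over primes with exponent in an interval against monotone functions; iterated sums over
a box cut by a half space and their limits. -/

open Finset Filter MeasureTheory Classical

noncomputable section

namespace Pool.Agent.Lib.AP.Mass

/-- primes with exponent to base `Z` in `(a, b]` -/
def pr (Z a b : ℝ) : Finset ℕ := (Ioc ⌊Z ^ a⌋₊ ⌊Z ^ b⌋₊).filter Nat.Prime

lemma mem_pr {Z a b : ℝ} (hZ : 1 < Z) {p : ℕ} :
    p ∈ pr Z a b ↔ p.Prime ∧ a < Real.logb Z p ∧ Real.logb Z p ≤ b := by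
  have h0 : 0 < Z := by linarith
  unfold pr
  rw [mem_filter, mem_Ioc, Nat.floor_lt (by positivity), Nat.le_floor_iff (by positivity)]
  constructor
  · rintro ⟨⟨h1, h2⟩, hp⟩
    have : (0 : ℝ) < p := by exact_mod_cast hp.pos
    exact ⟨hp, (Real.lt_logb_iff_rpow_lt hZ this).2 h1, (Real.logb_le_iff_le_rpow hZ this).2 h2⟩
  · rintro ⟨hp, h1, h2⟩
    have : (0 : ℝ) < p := by exact_mod_cast hp.pos
    exact ⟨⟨(Real.lt_logb_iff_rpow_lt hZ this).1 h1, (Real.logb_le_iff_le_rpow hZ this).1 h2⟩, hp⟩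

/-- the Mertens estimate in exponent form, with error `ε` -/
def Mer (Z ε : ℝ) : Prop :=
  1 < Z ∧ ∀ s t : ℝ, 1 ≤ s → s ≤ t → |∑ p ∈ pr Z s t, (1 : ℝ) / p - Real.log (t / s)| ≤ ε

lemma mer {ε : ℝ} (hε : 0 < ε) : ∀ᶠ Z : ℝ in atTop, Mer Z ε := by
  filter_upwards [st_MER ε hε, eventually_gt_atTop (1 : ℝ)] with Z h hZ
  refine ⟨hZ, fun s t hs ht => ?_⟩
  have h0 : 0 < Z := by linarith
  have h1 : Z ≤ Z ^ s := by
    simpa using Real.rpow_le_rpow_of_exponent_le hZ.le hs
  have h2 := h (Z ^ s) (Z ^ t) h1 (Real.rpow_le_rpow_of_exponent_le hZ.le ht)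
  rw [Real.log_rpow h0, Real.log_rpow h0, mul_div_mul_right _ _ (Real.log_pos hZ).ne'] at h2
  exact h2

lemma sum_split {Z a s t : ℝ} (hZ : 1 < Z) (h1 : a ≤ s) (h2 : s ≤ t) (g : ℕ → ℝ) :
    ∑ p ∈ pr Z a t, g p = ∑ p ∈ pr Z a s, g p + ∑ p ∈ pr Z s t, g p := by
  rw [← sum_union]
  · refine sum_congr ?_ fun _ _ => rfl
    ext p
    rw [mem_union, mem_pr hZ, mem_pr hZ, mem_pr hZ]
    constructor
    · rintro ⟨hp, h3, h4⟩
      rcases le_or_gt (Real.logb Z p) s with h | h
      · exact Or.inl ⟨hp, h3, h⟩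
      · exact Or.inr ⟨hp, h, h4⟩
    · rintro (⟨hp, h3, h4⟩ | ⟨hp, h3, h4⟩)
      · exact ⟨hp, h3, h4.trans h2⟩
      · exact ⟨hp, h1.trans_lt h3, h4⟩
  · rw [disjoint_left]
    intro p h3 h4
    rw [mem_pr hZ] at h3 h4
    linarith [h3.2.2, h4.2.1]

lemma ii_div {f : ℝ → ℝ} {s t : ℝ} (hf : IntervalIntegrable f volume s t) (hs : 1 ≤ s)
    (ht : s ≤ t) : IntervalIntegrable (fun x => f x / x) volume s t := by
  simp only [div_eq_mul_inv]
  refine hf.mul_continuousOn (continuousOn_inv₀.mono ?_)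
  rw [Set.uIcc_of_le ht]
  intro x hx
  have : 0 < x := by linarith [hx.1]
  exact this.ne'

lemma int_const {c s t : ℝ} (hs : 1 ≤ s) (ht : s ≤ t) :
    ∫ x in s..t, c / x = c * Real.log (t / s) := by
  simp only [div_eq_mul_inv c]
  rw [intervalIntegral.integral_const_mul, integral_inv_of_pos (by linarith) (by linarith)]

lemma log_nn {s t : ℝ} (hs : 1 ≤ s) (ht : s ≤ t) : 0 ≤ Real.log (t / s) :=
  Real.log_nonneg ((one_le_div (by linarith)).2 ht)

lemma log_le_sub {s t : ℝ} (hs : 1 ≤ s) (ht : s ≤ t) : Real.log (t / s) ≤ t - s := by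
  have h0 : 0 < s := by linarith
  have h1 := Real.log_le_sub_one_of_pos (show 0 < t / s by
    have : 0 < t := by linarith
    positivity)
  have h2 : t / s - 1 = (t - s) / s := by field_simp
  have h3 : (t - s) / s ≤ t - s := div_le_self (by linarith) hs
  linarith

lemma cell {Z ε F s t : ℝ} (hM : Mer Z ε) {f : ℝ → ℝ} (hf : Monotone f) (h0 : ∀ x, 0 ≤ f x)
    (hF : ∀ x, f x ≤ F) (hs : 1 ≤ s) (ht : s ≤ t) :
    |∑ p ∈ pr Z s t, f (Real.logb Z p) / p - ∫ x in s..t, f x / x| ≤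
      (f t - f s) * (t - s) + F * ε := by
  have hm := abs_le.1 (hM.2 s t hs ht)
  have hε : 0 ≤ ε := (abs_nonneg _).trans (hM.2 s t hs ht)
  have a1 : ∑ p ∈ pr Z s t, f (Real.logb Z p) / p ≤ f t * ∑ p ∈ pr Z s t, (1 : ℝ) / p := by
    rw [mul_sum]
    refine sum_le_sum fun p hp => ?_
    rw [mul_one_div]
    exact div_le_div_of_nonneg_right (hf ((mem_pr hM.1).1 hp).2.2) (Nat.cast_nonneg p)
  have a2 : f s * ∑ p ∈ pr Z s t, (1 : ℝ) / p ≤ ∑ p ∈ pr Z s t, f (Real.logb Z p) / p := by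
    rw [mul_sum]
    refine sum_le_sum fun p hp => ?_
    rw [mul_one_div]
    exact div_le_div_of_nonneg_right (hf ((mem_pr hM.1).1 hp).2.1.le) (Nat.cast_nonneg p)
  have i0 := ii_div (hf.intervalIntegrable (μ := volume) (a := s) (b := t)) hs ht
  have b1 : ∫ x in s..t, f x / x ≤ f t * Real.log (t / s) := by
    rw [← int_const hs ht]
    refine intervalIntegral.integral_mono_on ht i0 (ii_div intervalIntegrable_const hs ht)
      fun x hx => div_le_div_of_nonneg_right (hf hx.2) (by linarith [hx.1])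
  have b2 : f s * Real.log (t / s) ≤ ∫ x in s..t, f x / x := by
    rw [← int_const hs ht]
    refine intervalIntegral.integral_mono_on ht (ii_div intervalIntegrable_const hs ht) i0
      fun x hx => div_le_div_of_nonneg_right (hf hx.1) (by linarith [hx.1])
  have c1 := log_le_sub hs ht
  have c2 : 0 ≤ f t - f s := sub_nonneg.2 (hf ht)
  have c3 := mul_le_mul_of_nonneg_left c1 c2
  have d1 := mul_le_mul_of_nonneg_left hm.2 (h0 t)
  have d2 := mul_le_mul_of_nonneg_left hm.1 (h0 s)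
  have d3 := mul_le_mul_of_nonneg_right (hF t) hε
  have d4 := mul_le_mul_of_nonneg_right (hF s) hε
  rw [abs_le]
  constructor <;> nlinarith

lemma cells {Z ε F a h : ℝ} (hM : Mer Z ε) {f : ℝ → ℝ} (hf : Monotone f) (h0 : ∀ x, 0 ≤ f x)
    (hF : ∀ x, f x ≤ F) (ha : 1 ≤ a) (hh : 0 ≤ h) (n : ℕ) :
    |∑ p ∈ pr Z a (a + n * h), f (Real.logb Z p) / p - ∫ x in a..(a + n * h), f x / x| ≤
      (f (a + n * h) - f a) * h + n * (F * ε) := by
  induction n with
  | zero => simp [pr]
  | succ n ih =>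
    have e1 : a ≤ a + n * h := le_add_of_nonneg_right (by positivity)
    have e2 : a + n * h ≤ a + ((n + 1 : ℕ) : ℝ) * h := by
      push_cast
      linarith
    have e3 := cell hM hf h0 hF (ha.trans e1) e2
    rw [sum_split hM.1 e1 e2, ← intervalIntegral.integral_add_adjacent_intervals
      (ii_div hf.intervalIntegrable ha e1) (ii_div hf.intervalIntegrable (ha.trans e1) e2)]
    have e4 : a + ((n + 1 : ℕ) : ℝ) * h - (a + n * h) = h := by
      push_cast
      ring
    rw [e4] at e3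
    rw [abs_le] at ih e3 ⊢
    have e5 : ((n + 1 : ℕ) : ℝ) * (F * ε) = n * (F * ε) + F * ε := by
      push_cast
      ring
    rw [e5]
    constructor <;> nlinarith [ih.1, ih.2, e3.1, e3.2]

lemma one_mono {a b F ε : ℝ} (ha : 1 ≤ a) (hb : a ≤ b) (hF0 : 0 ≤ F) (hε : 0 < ε) :
    ∀ᶠ Z : ℝ in atTop, ∀ f : ℝ → ℝ, Monotone f → (∀ x, 0 ≤ f x) → (∀ x, f x ≤ F) →
      |∑ p ∈ pr Z a b, f (Real.logb Z p) / p - ∫ x in a..b, f x / x| ≤ ε := by
  obtain ⟨K, hK⟩ := exists_nat_gt (2 * F * (b - a) / ε)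
  have hK0 : (0 : ℝ) < K := lt_of_le_of_lt (by
    have : 0 ≤ b - a := by linarith
    positivity) hK
  have hp : 0 < ε / (2 * K * (F + 1)) := by positivity
  filter_upwards [mer hp] with Z hM f hf h0 hF
  have hh : 0 ≤ (b - a) / K := div_nonneg (by linarith) hK0.le
  have h1 := cells hM hf h0 hF ha hh K
  have e : a + K * ((b - a) / K) = b := by field_simp; ring
  rw [e] at h1
  refine h1.trans ?_
  have h2 : (f b - f a) * ((b - a) / K) ≤ F * ((b - a) / K) :=
    mul_le_mul_of_nonneg_right (by linarith [h0 a, hF b]) hh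
  have h3 : F * ((b - a) / K) ≤ ε / 2 := by
    rw [div_lt_iff₀ hε] at hK
    rw [← mul_div_assoc, div_le_iff₀ hK0]
    linarith
  have h4 : K * (F * (ε / (2 * K * (F + 1)))) = ε / 2 * (F / (F + 1)) := by field_simp
  have h5 : ε / 2 * (F / (F + 1)) ≤ ε / 2 :=
    mul_le_of_le_one_right (by positivity) ((div_le_one (by positivity)).2 (by linarith))
  linarith

/-- the one-dimensional lemma -/
lemma one_dim {a b F ε : ℝ} (ha : 1 ≤ a) (hb : a ≤ b) (hF0 : 0 ≤ F) (hε : 0 < ε) :
    ∀ᶠ Z : ℝ in atTop, ∀ f : ℝ → ℝ, (Monotone f ∨ Antitone f) → (∀ x, 0 ≤ f x) → (∀ x, f x ≤ F) →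
      |∑ p ∈ pr Z a b, f (Real.logb Z p) / p - ∫ x in a..b, f x / x| ≤ ε := by
  filter_upwards [one_mono ha hb hF0 (half_pos hε)] with Z h f hf h0 hF
  rcases hf with hf | hf
  · exact (h f hf h0 hF).trans (by linarith)
  · have h1 := h (fun x => F - f x) (fun x y hxy => sub_le_sub_left (hf hxy) F)
      (fun x => sub_nonneg.2 (hF x)) (fun x => by linarith [h0 x])
    have h2 := h (fun _ => F) monotone_const (fun _ => hF0) (fun _ => le_rfl)
    simp only [sub_div] at h1
    rw [sum_sub_distrib, intervalIntegral.integral_sub (ii_div intervalIntegrable_const ha hb)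
      (ii_div hf.intervalIntegrable ha hb)] at h1
    rw [abs_le] at h1 h2 ⊢
    constructor <;> linarith [h1.1, h1.2, h2.1, h2.2]

/-- a box variable: lower end, upper end, coefficient in the linear form -/
abbrev Var := ℝ × ℝ × ℝ

def Ok (L : List Var) : Prop := ∀ v ∈ L, 1 ≤ v.1 ∧ v.1 ≤ v.2.1

lemma Ok.tail {v : Var} {L : List Var} (h : Ok (v :: L)) : Ok L := fun w hw => h w (by simp [hw])

/-- prime level mass of the part of the box where the form is at most `t` -/
def M (Z : ℝ) : List Var → ℝ → ℝ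
  | [], t => if 0 ≤ t then 1 else 0
  | v :: L, t => ∑ p ∈ pr Z v.1 v.2.1, M Z L (t - v.2.2 * Real.logb Z p) / p

/-- its limit -/
def E : List Var → ℝ → ℝ
  | [], t => if 0 ≤ t then 1 else 0
  | v :: L, t => ∫ x in v.1..v.2.1, E L (t - v.2.2 * x) / x

lemma mono_or {g : ℝ → ℝ} (hg : Monotone g) (t w : ℝ) :
    Monotone (fun x => g (t - w * x)) ∨ Antitone (fun x => g (t - w * x)) := by
  rcases le_total w 0 with h | h
  · exact Or.inl fun x y hxy => hg (by nlinarith)
  · exact Or.inr fun x y hxy => hg (by nlinarith)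

lemma ii_comp {g : ℝ → ℝ} (hg : Monotone g) (t w a b : ℝ) :
    IntervalIntegrable (fun x => g (t - w * x)) volume a b := by
  rcases mono_or hg t w with h | h
  · exact h.intervalIntegrable
  · exact h.intervalIntegrable

lemma E_prop : ∀ L : List Var, Ok L →
    Monotone (E L) ∧ (∀ t, 0 ≤ E L t) ∧ ∃ F, 0 ≤ F ∧ ∀ t, E L t ≤ F
  | [], _ => by
    refine ⟨fun s t hst => ?_, fun t => ?_, 1, zero_le_one, fun t => ?_⟩
    · simp only [E]
      split_ifs with h1 h2
      · exact le_rfl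
      · exact absurd (h1.trans hst) h2
      · exact zero_le_one
      · exact le_rfl
    · simp only [E]
      split_ifs <;> norm_num
    · simp only [E]
      split_ifs <;> norm_num
  | v :: L, h => by
    obtain ⟨h1, h2, F, hF0, h3⟩ := E_prop L h.tail
    obtain ⟨ha, hb⟩ := h v (by simp)
    refine ⟨fun s t hst => ?_, fun t => ?_, F * Real.log (v.2.1 / v.1),
      mul_nonneg hF0 (log_nn ha hb), fun t => ?_⟩
    · simp only [E]
      exact intervalIntegral.integral_mono_on hb (ii_div (ii_comp h1 _ _ _ _) ha hb)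
        (ii_div (ii_comp h1 _ _ _ _) ha hb) fun x hx =>
          div_le_div_of_nonneg_right (h1 (by linarith)) (by linarith [hx.1])
    · simp only [E]
      exact intervalIntegral.integral_nonneg hb fun x hx => div_nonneg (h2 _) (by linarith [hx.1])
    · simp only [E]
      rw [← int_const ha hb]
      exact intervalIntegral.integral_mono_on hb (ii_div (ii_comp h1 _ _ _ _) ha hb)
        (ii_div intervalIntegrable_const ha hb) fun x hx =>
          div_le_div_of_nonneg_right (h3 _) (by linarith [hx.1])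

lemma M_mono (Z : ℝ) : ∀ L : List Var, Monotone (M Z L)
  | [] => (E_prop [] (fun _ h => by simp at h)).1
  | v :: L => fun s t hst => by
    simp only [M]
    exact sum_le_sum fun p _ =>
      div_le_div_of_nonneg_right (M_mono Z L (by linarith)) (Nat.cast_nonneg p)

/-- uniform convergence of the prime level mass -/
theorem M_lim : ∀ L : List Var, Ok L → ∀ ε : ℝ, 0 < ε →
    ∀ᶠ Z : ℝ in atTop, ∀ t, |M Z L t - E L t| ≤ ε
  | [], _, ε, hε => Eventually.of_forall fun Z t => by simp [M, E, hε.le]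
  | v :: L, h, ε, hε => by
    obtain ⟨h1, h2, F, hF0, h3⟩ := E_prop L h.tail
    obtain ⟨ha, hb⟩ := h v (by simp)
    have hl := log_nn ha hb
    have hp : 0 < ε / 2 / (Real.log (v.2.1 / v.1) + 1) := by positivity
    filter_upwards [M_lim L h.tail _ hp, one_dim ha hb hF0 (half_pos hε), mer one_pos] with
      Z k1 k2 k3 t
    have k4 := k2 _ (mono_or h1 t v.2.2) (fun x => h2 _) (fun x => h3 _)
    have k5 := (abs_le.1 (k3.2 _ _ ha hb)).2
    have k6 : |∑ p ∈ pr Z v.1 v.2.1, M Z L (t - v.2.2 * Real.logb Z p) / p -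
        ∑ p ∈ pr Z v.1 v.2.1, E L (t - v.2.2 * Real.logb Z p) / p| ≤ ε / 2 := by
      rw [← sum_sub_distrib]
      refine (abs_sum_le_sum_abs _ _).trans ?_
      have k7 : ∑ p ∈ pr Z v.1 v.2.1, |M Z L (t - v.2.2 * Real.logb Z p) / p -
          E L (t - v.2.2 * Real.logb Z p) / p| ≤
          ε / 2 / (Real.log (v.2.1 / v.1) + 1) * ∑ p ∈ pr Z v.1 v.2.1, (1 : ℝ) / p := by
        rw [mul_sum]
        refine sum_le_sum fun p _ => ?_
        rw [← sub_div, abs_div, abs_of_nonneg (Nat.cast_nonneg (α := ℝ) p), mul_one_div]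
        exact div_le_div_of_nonneg_right (k1 _) (Nat.cast_nonneg p)
      refine k7.trans ?_
      calc _ ≤ ε / 2 / (Real.log (v.2.1 / v.1) + 1) * (Real.log (v.2.1 / v.1) + 1) :=
            mul_le_mul_of_nonneg_left (by linarith) hp.le
        _ = ε / 2 := by field_simp
    simp only [M, E]
    rw [abs_le] at k4 k6 ⊢
    constructor <;> linarith [k4.1, k4.2, k6.1, k6.2]

end Pool.Agent.Lib.AP.Mass
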