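import Pool.Agent.Lib.AP.Mass1

/-! Closed form bound for the limit mass of a box cut by a slab. -/

open Finset Filter MeasureTheory Classical

noncomputable section

namespace Pool.Agent.Lib.AP.Mass

/-- truncated power -/
def pw (m : ℕ) (t : ℝ) : ℝ := if 0 ≤ t then t ^ m else 0

/-- inclusion and exclusion over the corners of a box -/
def IE : List ℝ → ℕ → ℝ → ℝ
  | [], m, t => pw m t
  | u :: us, m, t => IE us m t - IE us m (t - u)

lemma pw_mono (m : ℕ) : Monotone (pw m) := fun s t hst => by
  unfold pw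
  split_ifs with h1 h2 h2
  · exact pow_le_pow_left₀ h1 hst m
  · exact absurd (h1.trans hst) h2
  · positivity
  · exact le_rfl

lemma pw_int0 (m : ℕ) (t : ℝ) : ∫ x in (0 : ℝ)..t, pw m x = pw (m + 1) t / (m + 1) := by
  rcases le_or_gt 0 t with h | h
  · rw [intervalIntegral.integral_congr (g := fun x => x ^ m)]
    · simp [pw, h]
    · intro x hx
      rw [Set.uIcc_of_le h] at hx
      simp [pw, hx.1]
  · rw [intervalIntegral.integral_symm, intervalIntegral.integral_of_le h.le,
      integral_Ioc_eq_integral_Ioo, setIntegral_congr_fun (g := fun _ => (0 : ℝ)) measurableSet_Ioo]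
    · simp [pw, h.not_ge]
    · intro x hx
      simp [pw, hx.2.not_ge]

lemma IE_ii : ∀ (us : List ℝ) (m : ℕ) (s t : ℝ), IntervalIntegrable (IE us m) volume s t
  | [], m, _, _ => (pw_mono m).intervalIntegrable
  | u :: us, m, s, t => by
    have h1 := IE_ii us m s t
    have h2 := (IE_ii us m (s - u) (t - u)).comp_sub_right u
    simp only [sub_add_cancel] at h2
    exact h1.sub h2

lemma IE_int : ∀ (us : List ℝ) (m : ℕ) (s t : ℝ),
    ∫ x in s..t, IE us m x = (IE us (m + 1) t - IE us (m + 1) s) / (m + 1)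
  | [], m, s, t => by
    have h := intervalIntegral.integral_interval_sub_left
      ((pw_mono m).intervalIntegrable (μ := volume) (a := 0) (b := t))
      ((pw_mono m).intervalIntegrable (μ := volume) (a := 0) (b := s))
    simp only [IE]
    rw [← h, pw_int0, pw_int0, sub_div]
  | u :: us, m, s, t => by
    have h1 := IE_ii us m s t
    have h2 := (IE_ii us m (s - u) (t - u)).comp_sub_right u
    simp only [sub_add_cancel] at h2
    simp only [IE]
    rw [intervalIntegral.integral_sub h1 h2, intervalIntegral.integral_comp_sub_right (IE us m) u,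
      IE_int us m s t, IE_int us m (s - u) (t - u)]
    ring

/-- widths of the form along the variables that enter it -/
def us : List Var → List ℝ
  | [] => []
  | v :: L => if v.2.2 = 0 then us L else |v.2.2| * (v.2.1 - v.1) :: us L

/-- the minimum of the form on the box -/
def mn : List Var → ℝ
  | [] => 0
  | v :: L => min (v.2.2 * v.1) (v.2.2 * v.2.1) + mn L

/-- the density factor -/
def co : List Var → ℝ
  | [] => 1
  | v :: L => (if v.2.2 = 0 then (v.2.1 - v.1) * (v.1 + v.2.1) / (2 * v.1 * v.2.1)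
      else 1 / (v.1 * |v.2.2|)) * co L

/-- closed form -/
def G (L : List Var) (t : ℝ) : ℝ :=
  co L * IE (us L) (us L).length (t - mn L) / ((us L).length.factorial : ℝ)

lemma log_le_rat {a b : ℝ} (ha : 0 < a) (hb : a ≤ b) :
    Real.log (b / a) ≤ (b - a) * (a + b) / (2 * a * b) := by
  have hb0 : 0 < b := by linarith
  have h1 : 0 ≤ Real.log (b / a) := Real.log_nonneg ((one_le_div ha).2 hb)
  have h2 := Real.self_le_sinh_iff.2 h1
  rw [Real.sinh_log (by positivity)] at h2
  refine h2.trans_eq ?_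
  field_simp
  ring

lemma G_zero {v : Var} (h : v.2.2 = 0) (L : List Var) (t : ℝ) :
    G (v :: L) t = (v.2.1 - v.1) * (v.1 + v.2.1) / (2 * v.1 * v.2.1) * G L t := by
  simp only [G, co, us, mn, h, if_true, zero_mul, min_self, zero_add]
  ring

lemma G_ii (L : List Var) (t w a b : ℝ) (hw : w ≠ 0) :
    IntervalIntegrable (fun x => G L (t - w * x)) volume a b := by
  have h1 := (IE_ii (us L) (us L).length (t - mn L - w * a) (t - mn L - w * b)).comp_sub_left
    (t - mn L)
  have h2 := h1.comp_mul_left (c := w)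
  simp only [sub_sub_cancel, mul_div_cancel_left₀ _ hw] at h2
  have h3 := (h2.const_mul (co L)).div_const ((us L).length.factorial : ℝ)
  refine h3.congr fun x _ => ?_
  simp only [G]
  rw [sub_right_comm]

lemma G_ne {v : Var} (h : v.2.2 ≠ 0) (h1 : 1 ≤ v.1) (h2 : v.1 ≤ v.2.1) (L : List Var) (t : ℝ) :
    G (v :: L) t = (∫ x in v.1..v.2.1, G L (t - v.2.2 * x)) / v.1 := by
  have e : ∀ x, G L (t - v.2.2 * x) = co L / ((us L).length.factorial : ℝ) *
      IE (us L) (us L).length (t - mn L - v.2.2 * x) := fun x => by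
    simp only [G]
    rw [sub_right_comm]
    ring
  simp only [e]
  rw [intervalIntegral.integral_const_mul,
    intervalIntegral.integral_comp_sub_mul (IE (us L) (us L).length) h, IE_int]
  simp only [G, co, us, mn, h, if_false, List.length_cons, IE, Nat.factorial_succ, smul_eq_mul]
  have h0 : v.1 ≠ 0 := by linarith
  have hf : ((us L).length.factorial : ℝ) ≠ 0 := by exact_mod_cast (Nat.factorial_pos _).ne'
  rcases lt_or_gt_of_ne h with hw | hw
  · rw [min_eq_right (by nlinarith), abs_of_neg hw,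
      show t - (v.2.2 * v.2.1 + mn L) - -v.2.2 * (v.2.1 - v.1) = t - mn L - v.2.2 * v.1 by ring,
      show t - (v.2.2 * v.2.1 + mn L) = t - mn L - v.2.2 * v.2.1 by ring]
    push_cast
    field_simp
    ring
  · rw [min_eq_left (by nlinarith), abs_of_pos hw,
      show t - (v.2.2 * v.1 + mn L) - v.2.2 * (v.2.1 - v.1) = t - mn L - v.2.2 * v.2.1 by ring,
      show t - (v.2.2 * v.1 + mn L) = t - mn L - v.2.2 * v.1 by ring]
    push_cast
    field_simp

theorem E_le_G : ∀ L : List Var, Ok L → ∀ c1 c2 : ℝ, c1 ≤ c2 →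
    E L c2 - E L c1 ≤ G L c2 - G L c1
  | [], _, c1, c2, _ => by simp [E, G, co, us, mn, IE, pw]
  | v :: L, h, c1, c2, hc => by
    obtain ⟨h1, h2, -⟩ := E_prop L h.tail
    obtain ⟨ha, hb⟩ := h v (by simp)
    have ih := E_le_G L h.tail
    simp only [E]
    rw [← intervalIntegral.integral_sub (ii_div (ii_comp h1 _ _ _ _) ha hb)
      (ii_div (ii_comp h1 _ _ _ _) ha hb)]
    simp only [← sub_div]
    by_cases hw : v.2.2 = 0
    · simp only [hw, zero_mul, sub_zero]
      rw [int_const ha hb, G_zero hw, G_zero hw, ← mul_sub, mul_comm]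
      have k1 := log_le_rat (by linarith : 0 < v.1) hb
      have k2 : 0 ≤ E L c2 - E L c1 := sub_nonneg.2 (h1 hc)
      exact mul_le_mul k1 (ih c1 c2 hc) k2 ((log_nn ha hb).trans k1)
    · rw [G_ne hw ha hb, G_ne hw ha hb, ← sub_div,
        ← intervalIntegral.integral_sub (G_ii L _ _ _ _ hw) (G_ii L _ _ _ _ hw),
        ← intervalIntegral.integral_div]
      refine intervalIntegral.integral_mono_on hb
        (ii_div ((ii_comp h1 _ _ _ _).sub (ii_comp h1 _ _ _ _)) ha hb)
        (((G_ii L _ _ _ _ hw).sub (G_ii L _ _ _ _ hw)).div_const _) fun x hx => ?_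
      have k1 := ih (c1 - v.2.2 * x) (c2 - v.2.2 * x) (by linarith)
      have k2 : 0 ≤ E L (c2 - v.2.2 * x) - E L (c1 - v.2.2 * x) := sub_nonneg.2 (h1 (by linarith))
      exact div_le_div₀ (k2.trans k1) k1 (by linarith) hx.1

/-- prime level mass of box and slab -/
theorem mass_le (L : List Var) (h : Ok L) {ε : ℝ} (hε : 0 < ε) : ∀ᶠ Z : ℝ in atTop,
    ∀ c1 c2 : ℝ, c1 ≤ c2 → M Z L c2 - M Z L c1 ≤ G L c2 - G L c1 + ε := by
  filter_upwards [M_lim L h _ (half_pos hε)] with Z hZ c1 c2 hc
  have h1 := abs_le.1 (hZ c1)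
  have h2 := abs_le.1 (hZ c2)
  linarith [E_le_G L h c1 c2 hc, h1.1, h2.2]

end Pool.Agent.Lib.AP.Mass
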