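import Pool.Agent.Lib.AP.Mass2

/-! The mass of a cell: sums over integers whose exponent list lies in a box cut by a slab. -/

open Finset Filter Classical

noncomputable section

namespace Pool.Agent.Lib.AP.Mass

/-- the list starts with primes in box and slab, the rest satisfies `P` with the total left -/
def Pre (Z : ℝ) (P : ℝ → List ℕ → Prop) : List Var → ℝ → ℝ → ℝ → List ℕ → Prop
  | [], T, c1, c2, l => c1 < 0 ∧ 0 ≤ c2 ∧ P T l
  | v :: L, T, c1, c2, l => ∃ p l', l = p :: l' ∧ p ∈ pr Z v.1 v.2.1 ∧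
      Pre Z P L (T - Real.logb Z p) (c1 - v.2.2 * Real.logb Z p) (c2 - v.2.2 * Real.logb Z p) l'

lemma pre_le {Z β : ℝ} {P : ℝ → List ℕ → Prop} {g : List ℕ → ℝ} (hβ : 0 ≤ β)
    (hP : ∀ (T : ℝ) (S : Finset (List ℕ)), (∀ l ∈ S, P T l) →
      ∑ l ∈ S, g l / (l.prod : ℕ) ≤ β) :
    ∀ (L : List Var) (T c1 c2 : ℝ) (S : Finset (List ℕ)), c1 ≤ c2 →
      (∀ l ∈ S, Pre Z P L T c1 c2 l) →
      ∑ l ∈ S, g (l.drop L.length) / (l.prod : ℕ) ≤ β * (M Z L c2 - M Z L c1)
  | [], T, c1, c2, S, hc, h => by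
    rcases S.eq_empty_or_nonempty with rfl | ⟨l, hl⟩
    · simpa using mul_nonneg hβ (sub_nonneg.2 (M_mono Z [] hc))
    · have h1 := (h l hl).1
      have h2 := (h l hl).2.1
      simpa [M, h2, h1.not_ge] using hP T S fun l hl => (h l hl).2.2
  | v :: L, T, c1, c2, S, hc, h => by
    have hm : ∀ l ∈ S, l.headD 0 ∈ pr Z v.1 v.2.1 := fun l hl => by
      obtain ⟨p, l', rfl, hp, -⟩ := h l hl
      exact hp
    rw [← sum_fiberwise_of_maps_to hm]
    simp only [M]
    rw [← sum_sub_distrib, mul_sum]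
    refine sum_le_sum fun p hp => ?_
    have hs : ∀ l ∈ S.filter (fun l => l.headD 0 = p), l = p :: l.tail ∧
        Pre Z P L (T - Real.logb Z p) (c1 - v.2.2 * Real.logb Z p) (c2 - v.2.2 * Real.logb Z p)
          l.tail := fun l hl => by
      obtain ⟨hl1, hl2⟩ := mem_filter.1 hl
      obtain ⟨q, l', rfl, -, hq⟩ := h l hl1
      obtain rfl : q = p := hl2
      exact ⟨rfl, hq⟩
    have ih := pre_le hβ hP L _ _ _ ((S.filter fun l => l.headD 0 = p).image List.tail)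
      (by linarith : c1 - v.2.2 * Real.logb Z p ≤ c2 - v.2.2 * Real.logb Z p) fun l hl => by
        obtain ⟨l0, h0, rfl⟩ := mem_image.1 hl
        exact (hs l0 h0).2
    rw [sum_image fun a ha b hb hab => by rw [(hs a ha).1, (hs b hb).1, hab]] at ih
    rw [← sub_div, ← mul_div_assoc]
    refine le_trans (le_of_eq ?_) (div_le_div_of_nonneg_right ih (Nat.cast_nonneg p))
    rw [sum_div]
    refine sum_congr rfl fun l hl => ?_
    obtain ⟨t, rfl⟩ : ∃ t, l = p :: t := ⟨_, (hs l hl).1⟩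
    simp only [List.length_cons, List.drop_succ_cons, List.prod_cons, List.tail_cons]
    push_cast
    rw [div_div, mul_comm]

/-- the last prime -/
def Top (Z η tl T : ℝ) (l : List ℕ) : Prop := ∃ q, l = [q] ∧ tl ≤ T ∧ q ∈ pr Z T (T + η)

lemma top_le {Z η tl ε : ℝ} (hM : Mer Z ε) (hη : 0 < η) (htl : 1 ≤ tl) (T : ℝ)
    (S : Finset (List ℕ)) (h : ∀ l ∈ S, Top Z η tl T l) :
    ∑ l ∈ S, (1 : ℝ) / (l.prod : ℕ) ≤ η / tl + ε := by
  have hε : 0 ≤ ε := (abs_nonneg _).trans (hM.2 1 1 le_rfl le_rfl)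
  rcases S.eq_empty_or_nonempty with rfl | ⟨l0, hl0⟩
  · have : 0 < tl := by linarith
    simp only [sum_empty]
    positivity
  obtain ⟨-, -, hT, -⟩ := h l0 hl0
  have h1 : S ⊆ (pr Z T (T + η)).image fun q => [q] := fun l hl => by
    obtain ⟨q, rfl, -, hq⟩ := h l hl
    exact mem_image_of_mem _ hq
  have h2 := (abs_le.1 (hM.2 T (T + η) (htl.trans hT) (by linarith))).2
  have hT0 : 0 < T := by linarith
  have h3 := Real.log_le_sub_one_of_pos (show 0 < (T + η) / T by positivity)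
  have h4 : (T + η) / T - 1 = η / T := by field_simp; ring
  have h5 : η / T ≤ η / tl := div_le_div_of_nonneg_left hη.le (by linarith) hT
  refine (sum_le_sum_of_subset_of_nonneg h1 fun _ _ _ => by positivity).trans ?_
  rw [sum_image fun a _ b _ hab => by simpa using hab]
  simp only [List.prod_cons, List.prod_nil, mul_one]
  linarith

/-- a nonempty ascending run of primes with exponent in `(a, b]`, then the last prime -/
def Opn (Z η tl a b T : ℝ) (l : List ℕ) : Prop := ∃ m r : List ℕ, l = m ++ r ∧ m ≠ [] ∧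
  m.Pairwise (· < ·) ∧ (∀ p ∈ m, p ∈ pr Z a b) ∧
  Top Z η tl (T - (m.map fun p : ℕ => Real.logb Z p).sum) r

lemma opn_le {Z η tl ε a b c : ℝ} (hM : Mer Z ε) (hη : 0 < η) (htl : 1 ≤ tl) (ha : 1 ≤ a)
    (hb : a ≤ b) (hc : 0 ≤ c) (T : ℝ) (S : Finset (List ℕ)) (h : ∀ l ∈ S, Opn Z η tl a b T l) :
    ∑ l ∈ S, c ^ l.length / (l.prod : ℕ) ≤
      c * (η / tl + ε) * (Real.exp (c * (Real.log (b / a) + ε)) - 1) := by
  have hε : 0 ≤ ε := (abs_nonneg _).trans (hM.2 1 1 le_rfl le_rfl)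
  have ht0 : 0 < tl := by linarith
  have hβ : 0 ≤ η / tl + ε := by positivity
  have hm : ∀ l ∈ S, l.dropLast.toFinset ∈ (pr Z a b).powerset.erase ∅ := fun l hl => by
    obtain ⟨m, r, rfl, h1, -, h3, q, rfl, -⟩ := h l hl
    rw [List.dropLast_concat, mem_erase, mem_powerset]
    exact ⟨by simpa using h1, fun p hp => h3 p (List.mem_toFinset.1 hp)⟩
  rw [← sum_fiberwise_of_maps_to hm]
  have key : ∀ A ∈ (pr Z a b).powerset.erase ∅,
      ∑ l ∈ S with l.dropLast.toFinset = A, c ^ l.length / ((l.prod : ℕ) : ℝ) ≤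
        c * (η / tl + ε) * ∏ p ∈ A, c / (p : ℝ) := fun A _ => by
    have hs : ∀ l ∈ S.filter (fun l => l.dropLast.toFinset = A), l = A.sort (· ≤ ·) ++
        l.drop A.card ∧ Top Z η tl (T - ((A.sort (· ≤ ·)).map fun p : ℕ => Real.logb Z p).sum)
          (l.drop A.card) := fun l hl => by
      obtain ⟨hl1, hl2⟩ := mem_filter.1 hl
      obtain ⟨m, r, rfl, -, h2, -, hr⟩ := h l hl1
      obtain ⟨q, rfl, hq⟩ := hr
      rw [List.dropLast_concat] at hl2
      have hn : m.Nodup := h2.imp ne_of_lt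
      have e : A.sort (· ≤ ·) = m := by
        rw [← hl2]
        exact (List.toFinset_sort (· ≤ ·) hn).2 (h2.imp le_of_lt)
      have e2 : A.card = m.length := by rw [← hl2, List.toFinset_card_of_nodup hn]
      rw [e, e2, List.drop_left]
      exact ⟨rfl, q, rfl, hq⟩
    have ih := top_le hM hη htl _ ((S.filter fun l => l.dropLast.toFinset = A).image
      (List.drop A.card)) fun l hl => by
        obtain ⟨l0, h0, rfl⟩ := mem_image.1 hl
        exact (hs l0 h0).2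
    rw [sum_image fun x hx y hy hxy => by rw [(hs x hx).1, (hs y hy).1, hxy]] at ih
    have hp : 0 ≤ c * ∏ p ∈ A, c / (p : ℝ) := by positivity
    refine le_trans (le_of_eq ?_) ((mul_le_mul_of_nonneg_left ih hp).trans_eq (by ring))
    rw [mul_sum]
    refine sum_congr rfl fun l hl => ?_
    obtain ⟨h1, q, h2, -⟩ := hs l hl
    have e1 : l.length = A.card + 1 := by
      rw [h1, h2]
      simp
    have e2 : l.prod = (∏ p ∈ A, p) * (l.drop A.card).prod := by
      conv_lhs => rw [h1]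
      rw [List.prod_append, ← Finset.prod_toList, (Finset.sort_perm_toList A (· ≤ ·)).prod_eq]
    rw [e1, e2, prod_div_distrib, prod_const]
    push_cast
    rw [pow_succ, div_eq_mul_inv, mul_inv]
    ring
  refine (sum_le_sum key).trans ?_
  rw [← mul_sum]
  refine mul_le_mul_of_nonneg_left ?_ (by positivity)
  have e := add_sum_erase (pr Z a b).powerset (fun A => ∏ p ∈ A, c / (p : ℝ))
    (empty_mem_powerset _)
  rw [← prod_one_add, prod_empty] at e
  have h1 : ∏ p ∈ pr Z a b, (1 + c / (p : ℝ)) ≤ Real.exp (∑ p ∈ pr Z a b, c / (p : ℝ)) := by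
    rw [Real.exp_sum]
    exact prod_le_prod (fun p _ => by positivity) fun p _ => by
      linarith [Real.add_one_le_exp (c / (p : ℝ))]
  have h2 : ∑ p ∈ pr Z a b, c / (p : ℝ) ≤ c * (Real.log (b / a) + ε) := by
    have h3 := (abs_le.1 (hM.2 a b ha hb)).2
    have h4 : ∑ p ∈ pr Z a b, c / (p : ℝ) = c * ∑ p ∈ pr Z a b, (1 : ℝ) / p := by
      rw [mul_sum]
      exact sum_congr rfl fun p _ => (mul_one_div _ _).symm
    rw [h4]
    exact mul_le_mul_of_nonneg_left (by linarith) hc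
  linarith [Real.exp_le_exp.2 h2]

/-- the linear form -/
def dot (L : List Var) (y : List ℝ) : ℝ := (List.zipWith (fun v x => v.2.2 * x) L y).sum

/-- the point `y` lies in the half open box and in the slab -/
def InBox (L : List Var) (c1 c2 : ℝ) (y : List ℝ) : Prop :=
  List.Forall₂ (fun v x => v.1 < x ∧ x ≤ v.2.1) L y ∧ c1 < dot L y ∧ dot L y ≤ c2

lemma pre_of {Z : ℝ} (hZ : 1 < Z) {P : ℝ → List ℕ → Prop} {r : List ℕ} :
    ∀ (L : List Var) (ps : List ℕ) (T c1 c2 : ℝ), (∀ p ∈ ps, p.Prime) →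
      InBox L c1 c2 (ps.map fun p : ℕ => Real.logb Z p) →
      P (T - (ps.map fun p : ℕ => Real.logb Z p).sum) r → Pre Z P L T c1 c2 (ps ++ r)
  | [], [], T, c1, c2, _, h, hP => ⟨by simpa [dot] using h.2.1, by simpa [dot] using h.2.2,
      by simpa using hP⟩
  | [], _ :: _, _, _, _, _, h, _ => by simpa using h.1
  | _ :: _, [], _, _, _, _, h, _ => by simpa using h.1
  | v :: L, p :: ps, T, c1, c2, hp, h, hP => by
    obtain ⟨h1, h2, h3⟩ := h
    rw [List.map_cons, List.forall₂_cons] at h1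
    simp only [dot, List.map_cons, List.zipWith_cons_cons, List.sum_cons] at h2 h3 hP
    refine ⟨p, ps ++ r, rfl, (mem_pr hZ).2 ⟨hp p (by simp), h1.1⟩,
      pre_of hZ L ps _ _ _ (fun q hq => hp q (by simp [hq])) ⟨h1.2, ?_, ?_⟩ ?_⟩
    · unfold dot
      linarith
    · unfold dot
      linarith
    · rwa [sub_sub]

lemma logb_prod {Z : ℝ} : ∀ ps : List ℕ, (∀ p ∈ ps, p.Prime) →
    Real.logb Z (ps.prod : ℕ) = (ps.map fun p : ℕ => Real.logb Z p).sum
  | [], _ => by simp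
  | p :: ps, h => by
    have h1 : (p : ℝ) ≠ 0 := by exact_mod_cast (h p (by simp)).ne_zero
    have h2 : ((ps.prod : ℕ) : ℝ) ≠ 0 := by
      exact_mod_cast List.prod_ne_zero fun h0 => Nat.not_prime_zero (h 0 (by simp [h0]))
    rw [List.prod_cons, Nat.cast_mul, Real.logb_mul h1 h2, List.map_cons, List.sum_cons,
      logb_prod ps fun q hq => h q (by simp [hq])]

lemma shape {Z η : ℝ} (hZ : 1 < Z) {n : ℕ} (hn : n ∈ Ioc ⌊Z ^ 270⌋₊ ⌊Z ^ (270 + η : ℝ)⌋₊)
    {y : List ℝ} {t : ℝ} (h : xs Z n = y ++ [t]) : n ≠ 0 ∧ ∃ (ps : List ℕ) (q : ℕ),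
      n.primeFactorsList = ps ++ [q] ∧ (∀ p ∈ ps, p.Prime) ∧
      y = ps.map (fun p : ℕ => Real.logb Z p) ∧ t = 270 - y.sum ∧ q ∈ pr Z t (t + η) := by
  have h0 : 0 < Z := by linarith
  rw [mem_Ioc, Nat.floor_lt (by positivity), Nat.le_floor_iff (by positivity)] at hn
  have h1 : (1 : ℝ) < n := (one_le_pow₀ hZ.le).trans_lt hn.1
  have h2 : 1 < n := by exact_mod_cast h1
  have h3 : n.primeFactorsList ≠ [] := by
    rw [Ne, Nat.primeFactorsList_eq_nil]
    omega
  have h4 := List.dropLast_append_getLast h3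
  obtain ⟨e1, e2⟩ := List.append_inj' h rfl
  have hp : ∀ p ∈ n.primeFactorsList, p.Prime := fun p hp => Nat.prime_of_mem_primeFactorsList hp
  have h5 := logb_prod (Z := Z) _ hp
  rw [Nat.prod_primeFactorsList (by omega), ← h4, List.map_append, List.sum_append, e1] at h5
  simp only [List.map_cons, List.map_nil, List.sum_cons, List.sum_nil, add_zero] at h5
  have e3 : t = 270 - y.sum := by
    rw [← e1]
    simpa using e2.symm
  have h6 : (270 : ℝ) < Real.logb Z n := by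
    rw [Real.lt_logb_iff_rpow_lt hZ (by linarith)]
    exact_mod_cast hn.1
  have h7 : Real.logb Z n ≤ 270 + η := (Real.logb_le_iff_le_rpow hZ (by linarith)).2 hn.2
  exact ⟨by omega, _, _, h4.symm, fun p h => hp p (List.mem_of_mem_dropLast h), e1.symm, e3,
    (mem_pr hZ).2 ⟨hp _ (List.getLast_mem h3), by linarith, by linarith⟩⟩

lemma slack (L : List Var) (h : Ok L) {β0 ε : ℝ} (hβ : 0 ≤ β0) (hε : 0 < ε) : ∃ δ, 0 < δ ∧
    ∀ᶠ Z : ℝ in atTop, ∀ c1 c2 β : ℝ, c1 ≤ c2 → β ≤ β0 + δ →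
      β * (M Z L c2 - M Z L c1) ≤ β0 * (G L c2 - G L c1) + ε := by
  obtain ⟨-, h2, F, hF0, h3⟩ := E_prop L h
  refine ⟨ε / 2 / (F + 2), by positivity, ?_⟩
  have hp : 0 < ε / 2 / (β0 + 1) := by positivity
  filter_upwards [mass_le L h hp, M_lim L h 1 one_pos] with Z k1 k2 c1 c2 β hc hb
  have k3 := k1 c1 c2 hc
  have k4 : 0 ≤ M Z L c2 - M Z L c1 := sub_nonneg.2 (M_mono Z L hc)
  have k5 : M Z L c2 - M Z L c1 ≤ F + 2 := by
    linarith [(abs_le.1 (k2 c1)).1, (abs_le.1 (k2 c2)).2, h2 c1, h3 c2]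
  have k6 : ε / 2 / (F + 2) * (M Z L c2 - M Z L c1) ≤ ε / 2 :=
    (mul_le_mul_of_nonneg_left k5 (by positivity)).trans_eq (by field_simp)
  have k7 : β0 * (ε / 2 / (β0 + 1)) ≤ ε / 2 :=
    (mul_le_mul_of_nonneg_right (by linarith : β0 ≤ β0 + 1) hp.le).trans_eq (by field_simp)
  have k8 := mul_le_mul_of_nonneg_left k3 hβ
  have k9 := mul_le_mul_of_nonneg_right hb k4
  nlinarith

lemma sum_lists (S : Finset ℕ) (h0 : ∀ n ∈ S, n ≠ 0) (f : List ℕ → ℝ) :
    ∑ n ∈ S, f n.primeFactorsList / n =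
      ∑ l ∈ S.image Nat.primeFactorsList, f l / (l.prod : ℕ) := by
  rw [sum_image fun a ha b hb hab => by
    rw [← Nat.prod_primeFactorsList (h0 a ha), hab, Nat.prod_primeFactorsList (h0 b hb)]]
  exact sum_congr rfl fun n hn => by rw [Nat.prod_primeFactorsList (h0 n hn)]

/-- closed cell: all primes but the last are box variables -/
theorem cell_le (L : List Var) (h : Ok L) {η tl ε : ℝ} (hη : 0 < η) (htl : 1 ≤ tl) (hε : 0 < ε) :
    ∀ᶠ Z : ℝ in atTop, ∀ (c1 c2 : ℝ) (S : Finset ℕ), c1 ≤ c2 →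
      S ⊆ Ioc ⌊Z ^ 270⌋₊ ⌊Z ^ (270 + η : ℝ)⌋₊ →
      (∀ n ∈ S, ∃ y t, xs Z n = y ++ [t] ∧ tl ≤ t ∧ InBox L c1 c2 y) →
      ∑ n ∈ S, (1 : ℝ) / n ≤ η / tl * (G L c2 - G L c1) + ε := by
  have ht0 : 0 < tl := by linarith
  obtain ⟨δ, hδ, k⟩ := slack L h (β0 := η / tl) (by positivity) hε
  filter_upwards [k, mer hδ] with Z k1 hM c1 c2 S hc hS hn
  refine le_trans ?_ (k1 c1 c2 _ hc le_rfl)
  have h0 : ∀ n ∈ S, n ≠ 0 := fun n h1 => by
    obtain ⟨y, t, e, -⟩ := hn n h1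
    exact (shape hM.1 (hS h1) e).1
  rw [sum_lists S h0 fun _ => 1]
  refine pre_le (P := Top Z η tl) (g := fun _ => 1) (by positivity) (top_le hM hη htl) L 270 c1 c2
    _ hc fun l hl => ?_
  obtain ⟨n, h1, rfl⟩ := mem_image.1 hl
  obtain ⟨y, t, e, h2, h3⟩ := hn n h1
  obtain ⟨-, ps, q, e1, hp, rfl, rfl, hq⟩ := shape hM.1 (hS h1) e
  rw [e1]
  exact pre_of hM.1 L ps _ _ _ hp h3 ⟨q, rfl, h2, hq⟩

/-- open cell: at least two more primes above the box variables, weight `c` for every prime -/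
theorem open_le (L : List Var) (h : Ok L) (c : ℕ) {η tl a b ε : ℝ} (hη : 0 < η) (htl : 1 ≤ tl)
    (ha : 1 ≤ a) (hb : a ≤ b) (hε : 0 < ε) :
    ∀ᶠ Z : ℝ in atTop, ∀ (c1 c2 : ℝ) (S : Finset ℕ), c1 ≤ c2 →
      S ⊆ Ioc ⌊Z ^ 270⌋₊ ⌊Z ^ (270 + η : ℝ)⌋₊ →
      (∀ n ∈ S, ∃ y m t, xs Z n = y ++ m ++ [t] ∧ m ≠ [] ∧ m.Pairwise (· < ·) ∧
        (∀ x ∈ m, a < x ∧ x ≤ b) ∧ tl ≤ t ∧ InBox L c1 c2 y) →
      ∑ n ∈ S, (c : ℝ) ^ (xs Z n).length / n ≤
        c ^ (L.length + 1) * (η / tl) * ((b / a) ^ c - 1) * (G L c2 - G L c1) + ε := by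
  have ht0 : 0 < tl := by linarith
  have ha0 : 0 < a := by linarith
  have hba : 1 ≤ b / a := (one_le_div ha0).2 hb
  have h1c : 0 ≤ (b / a) ^ c - 1 := sub_nonneg.2 (one_le_pow₀ hba)
  obtain ⟨δ, hδ, k⟩ := slack L h
    (β0 := (c : ℝ) ^ (L.length + 1) * (η / tl) * ((b / a) ^ c - 1)) (by positivity) hε
  have hcont : ContinuousAt (fun e : ℝ => (c : ℝ) ^ L.length *
      (c * (η / tl + e) * (Real.exp (c * (Real.log (b / a) + e)) - 1))) 0 := by fun_prop
  have hv : (c : ℝ) ^ L.length * (c * (η / tl + 0) * (Real.exp (c * (Real.log (b / a) + 0)) - 1)) <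
      (c : ℝ) ^ (L.length + 1) * (η / tl) * ((b / a) ^ c - 1) + δ := by
    rw [add_zero, add_zero, ← Real.log_pow, Real.exp_log (by positivity), pow_succ]
    linarith
  obtain ⟨e, he1, he0⟩ := (((hcont.eventually_lt_const hv).filter_mono nhdsWithin_le_nhds).and
    (self_mem_nhdsWithin (s := Set.Ioi (0 : ℝ)))).exists
  have he : 0 < e := he0
  filter_upwards [k, mer he] with Z k1 hM c1 c2 S hc hS hn
  refine le_trans ?_ (k1 c1 c2 _ hc he1.le)
  have h0 : ∀ n ∈ S, n ≠ 0 := fun n h1 => by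
    obtain ⟨y, m, t, e, -⟩ := hn n h1
    exact (shape hM.1 (hS h1) e).1
  have hβ : 0 ≤ c * (η / tl + e) * (Real.exp (c * (Real.log (b / a) + e)) - 1) :=
    mul_nonneg (by positivity) (sub_nonneg.2 (Real.one_le_exp
      (mul_nonneg (Nat.cast_nonneg c) (add_nonneg (log_nn ha hb) he.le))))
  have key := pre_le (P := Opn Z η tl a b) (g := fun l => (c : ℝ) ^ l.length) hβ
    (opn_le hM hη htl ha hb (Nat.cast_nonneg c)) L 270 c1 c2 (S.image Nat.primeFactorsList) hc
    fun l hl => by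
      obtain ⟨n, h1, rfl⟩ := mem_image.1 hl
      obtain ⟨y, m, t, e, m1, m2, m3, h2, h3⟩ := hn n h1
      obtain ⟨-, ps, q, e1, hp, e2, rfl, hq⟩ := shape hM.1 (hS h1) e
      obtain ⟨p1, p2, rfl, rfl, rfl⟩ := List.map_eq_append_iff.1 e2.symm
      rw [e1, List.append_assoc]
      have hp2 : ∀ p ∈ p2, p.Prime := fun p h => hp p (by simp [h])
      refine pre_of hM.1 L p1 _ _ _ (fun p h => hp p (by simp [h])) h3
        ⟨p2, [q], rfl, by simpa using m1, ?_, fun p h => (mem_pr hM.1).2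
          ⟨hp2 p h, m3 _ (List.mem_map_of_mem h)⟩, q, rfl, ?_, ?_⟩
      · rw [List.pairwise_map] at m2
        refine m2.imp_of_mem fun {x y} _ hy hxy => ?_
        by_contra hle
        have h4 : (0 : ℝ) < y := by exact_mod_cast (hp2 y hy).pos
        have h5 : (y : ℝ) ≤ x := by exact_mod_cast not_lt.1 hle
        exact absurd (Real.logb_le_logb_of_le hM.1 h4 h5) (not_le.2 hxy)
      · rwa [sub_sub, ← List.sum_append]
      · rwa [sub_sub, ← List.sum_append]
  rw [← sum_lists S h0 fun l => (c : ℝ) ^ (l.drop L.length).length] at key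
  rw [mul_assoc]
  refine le_trans (le_of_eq ?_) (mul_le_mul_of_nonneg_left key (by positivity))
  rw [mul_sum]
  refine sum_congr rfl fun n h1 => ?_
  obtain ⟨y, m, t, e, -, -, -, -, h3⟩ := hn n h1
  obtain ⟨-, ps, q, e1, -, e2, -⟩ := shape hM.1 (hS h1) e
  have l1 : L.length = y.length := h3.1.length_eq
  have l2 : y.length + m.length = ps.length := by simpa using congrArg List.length e2
  rw [← mul_div_assoc, ← pow_add, e, e1]
  congr 2
  simp only [List.length_append, List.length_drop, List.length_cons, List.length_nil]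
  omega

lemma IE_neg : ∀ (us : List ℝ) (m : ℕ) (t : ℝ), (∀ u ∈ us, 0 ≤ u) → t < 0 → IE us m t = 0
  | [], m, t, _, ht => by simp [IE, pw, ht.not_ge]
  | u :: us, m, t, h, ht => by
    have h1 : ∀ u ∈ us, 0 ≤ u := fun v hv => h v (by simp [hv])
    simp only [IE]
    rw [IE_neg us m t h1 ht, IE_neg us m (t - u) h1 (by linarith [h u (by simp)]), sub_zero]

lemma us_nn : ∀ L : List Var, Ok L → ∀ u ∈ us L, 0 ≤ u
  | [], _ => by simp [us]
  | v :: L, h => by
    have ih := us_nn L h.tail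
    simp only [us]
    split_ifs
    · exact ih
    · intro u hu
      rcases List.mem_cons.1 hu with rfl | hu
      · exact mul_nonneg (abs_nonneg _) (sub_nonneg.2 (h v (by simp)).2)
      · exact ih u hu

/-- below the minimum of the form the closed form vanishes -/
lemma G_low {L : List Var} (h : Ok L) {t : ℝ} (ht : t < mn L) : G L t = 0 := by
  simp [G, IE_neg _ _ _ (us_nn L h) (sub_neg.2 ht)]

lemma mn_le_dot {L : List Var} {y : List ℝ}
    (h : List.Forall₂ (fun v x => v.1 < x ∧ x ≤ v.2.1) L y) : mn L ≤ dot L y := by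
  induction h with
  | nil => simp [mn, dot]
  | @cons v x L y h1 _ ih =>
    simp only [mn, dot, List.zipWith_cons_cons, List.sum_cons] at ih ⊢
    refine add_le_add ?_ ih
    rcases le_total 0 v.2.2 with hw | hw
    · exact (min_le_left _ _).trans (mul_le_mul_of_nonneg_left h1.1.le hw)
    · exact (min_le_right _ _).trans (mul_le_mul_of_nonpos_left h1.2 hw)

/-- a plain box -/
lemma plain : ∀ L : List Var, (∀ v ∈ L, v.2.2 = 0) →
    G L 0 - G L (-1) = co L ∧ ∀ y, dot L y = 0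
  | [], _ => by simp [G, co, us, mn, IE, pw, dot]
  | v :: L, h => by
    obtain ⟨h1, h2⟩ := plain L fun w hw => h w (by simp [hw])
    have hv := h v (by simp)
    refine ⟨?_, fun y => ?_⟩
    · rw [G_zero hv, G_zero hv, ← mul_sub, h1]
      simp [co, hv]
    · cases y with
      | nil => simp [dot]
      | cons x y => simpa [dot, hv] using h2 y

end Pool.Agent.Lib.AP.Mass
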