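import Pool.Agent.Lib.AP.XD1
import Pool.Agent.Lib.AP.XD2
import Pool.Agent.Lib.AP.XD3
import Pool.Agent.Lib.AP.XD4
import Pool.Agent.Lib.AP.XD5
import Pool.Agent.Lib.AP.XD6
import Pool.Agent.Lib.AP.XD7
import Pool.Agent.Lib.AP.XD8

/-! The numerical bound for the loss. -/

namespace Pool.Agent.Lib.AP.X

open Geo Mass Ev

/-- the bounds by the number of parts, in units `2 ^ (-60)` -/
def tab : List ℕ :=
  [0, 0, 0,
   474231005594593472,
   1073741824,
   405555108977932208,
   110108683506608595,
   15627056497790704,
   21238410676474296,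
   5486173753288280,
   5593009906432696,
   5664609831745609,
   5305603528378691,
   4088896449999014,
   10049941644410466,
   41015962167698472,
   1694634898644810,
   48985404487436,
   906973236272,
   15796024444,
   15083264946,
   42915348810,
   126597993046,
   377646494789,
   1130792000719,
   3390228518511,
   10168538071886]

def Len (k : ℕ) : Prop := Bw (fun x => x.length = k) ((tab.getD k 0 : ℕ) / 2 ^ 60)

theorem Cell.len {k u : ℕ} (h : Cell k (X.root k) u) (hk : 0 < k)
    (e : Nat.ble u (tab.getD k 0) = true) : Len k :=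
  (h.root hk).mono (fun _ _ hx => hx)
    (div_le_div_of_nonneg_right (Nat.cast_le.2 (Nat.le_of_ble_eq_true e)) (by positivity))

theorem short {k : ℕ} (h : k ≤ 2) : Len k :=
  (Bw.zero fun _ D hx => (loss_short D (hx.trans_le h)).le).mono (fun _ _ hx => hx) (by positivity)

theorem r3 : Len 3 :=
  c3_0.len (by omega) (by decide +kernel)

theorem r4 : Len 4 :=
  c4_0.len (by omega) (by decide +kernel)

theorem r5 : Len 5 :=
  (((c5_0.join c5_1).join c5_2).join c5_3).len (by omega) (by decide +kernel)

theorem r6 : Len 6 :=
  ((((c6_0.join (c6_1.join (c6_2.join c6_3))).join (c6_4.join c6_5)).join c6_6).join c6_7).len (by omega) (by decide +kernel)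

theorem r7 : Len 7 :=
  ((((c7_0.join (c7_1.join c7_2)).join (c7_3.join ((c7_4.join ((c7_5.join c7_6).join c7_7)).join c7_8))).join c7_9).join c7_10).len (by omega) (by decide +kernel)

theorem r8 : Len 8 :=
  (((c8_0.join c8_1).join c8_2).join c8_3).len (by omega) (by decide +kernel)

theorem r9 : Len 9 :=
  c9_0.len (by omega) (by decide +kernel)

theorem r10 : Len 10 :=
  c10_0.len (by omega) (by decide +kernel)

theorem r11 : Len 11 :=
  ((c11_0.join c11_1).join c11_2).len (by omega) (by decide +kernel)

theorem r12 : Len 12 :=
  ((c12_0.join (c12_1.join (c12_2.join (c12_3.join c12_4)))).join c12_5).len (by omega) (by decide +kernel)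

theorem r13 : Len 13 :=
  (c13_0.join (c13_1.join (c13_2.join ((c13_3.join c13_4).join c13_5)))).len (by omega) (by decide +kernel)

theorem r14 : Len 14 :=
  c14_0.len (by omega) (by decide +kernel)

theorem r15 : Len 15 :=
  c15_0.len (by omega) (by decide +kernel)

theorem r16 : Len 16 :=
  c16_0.len (by omega) (by decide +kernel)

theorem r17 : Len 17 :=
  c17_0.len (by omega) (by decide +kernel)

theorem r18 : Len 18 :=
  c18_0.len (by omega) (by decide +kernel)

theorem r19 : Len 19 :=
  c19_0.len (by omega) (by decide +kernel)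

theorem r20 : Len 20 :=
  c20_0.len (by omega) (by decide +kernel)

theorem r21 : Len 21 :=
  c21_0.len (by omega) (by decide +kernel)

theorem r22 : Len 22 :=
  c22_0.len (by omega) (by decide +kernel)

theorem r23 : Len 23 :=
  c23_0.len (by omega) (by decide +kernel)

theorem r24 : Len 24 :=
  c24_0.len (by omega) (by decide +kernel)

theorem r25 : Len 25 :=
  c25_0.len (by omega) (by decide +kernel)

theorem r26 : Len 26 :=
  c26_0.len (by omega) (by decide +kernel)

theorem st_NUM : St_NUM := by
  have h : ∀ k < 27, Len k := fun k hk => by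
    interval_cases k
    exacts [short (by omega), short (by omega), short (by omega), r3, r4, r5, r6, r7, r8, r9, r10, r11,
      r12, r13, r14, r15, r16, r17, r18, r19, r20, r21, r22, r23,
      r24, r25, r26]
  have e : ∑ k ∈ Finset.range 27, tab.getD k 0 < 2 ^ 60 := by decide +kernel
  refine num_of_len h (Bw.zero fun x D hx => absurd (len_le D) (by omega)) ?_
  rw [add_zero, ← Finset.sum_div, div_lt_one (by positivity), ← Nat.cast_sum]
  exact_mod_cast e

end Pool.Agent.Lib.AP.X
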