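import Pool.Agent.Lib.AP.Mass3

/-! Reduction of the prime level mass of a closed set of exponents to an integral. -/

open Finset Filter MeasureTheory Classical Topology

noncomputable section

namespace Pool.Agent.Lib.AP.Mass

/-- the normalised mass of the integers with `j + 1` prime factors, the first `j` exponents in
`E`, is at most `U` -/
def Bd (j : ℕ) (E : Set (Fin j → ℝ)) (U : ℝ) : Prop :=
  ∀ η : ℝ, 0 < η → η ≤ 1 → ∀ ε : ℝ, 0 < ε → ∀ᶠ Z : ℝ in atTop,
    ∑ n ∈ Ioc ⌊Z ^ 270⌋₊ ⌊Z ^ (270 + η : ℝ)⌋₊ with (Dom (xs Z n) ∧ (xs Z n).length = j + 1 ∧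
      (fun i : Fin j => (xs Z n).getD i 0) ∈ E), (1 : ℝ) / n ≤ U * η / 270 + ε

/-- the limit density -/
def dens {j : ℕ} (y : Fin j → ℝ) : ℝ := 270 / ((∏ i, y i) * max 10 (270 - ∑ i, y i))

variable {j : ℕ}

lemma Bd.mono {E E' : Set (Fin j → ℝ)} {U U' : ℝ} (h : Bd j E U) (hE : E' ⊆ E) (hU : U ≤ U') :
    Bd j E' U' := fun η h1 h2 ε hε => by
  filter_upwards [h η h1 h2 ε hε] with Z hZ
  refine (sum_le_sum_of_subset_of_nonneg (fun n hn => ?_) fun _ _ _ => by positivity).trans
    (hZ.trans ?_)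
  · rw [mem_filter] at hn ⊢
    exact ⟨hn.1, hn.2.1, hn.2.2.1, hE hn.2.2.2⟩
  · have := mul_le_mul_of_nonneg_right hU h1.le
    linarith

lemma Bd.of_forall {E : Set (Fin j → ℝ)} {U : ℝ} (h : ∀ δ, 0 < δ → Bd j E (U + δ)) : Bd j E U :=
  fun η h1 h2 ε hε => by
    filter_upwards [h ε hε η h1 h2 _ (half_pos hε)] with Z hZ
    refine hZ.trans ?_
    nlinarith

lemma Bd.empty : Bd j ∅ 0 := fun η _ _ ε hε => Eventually.of_forall fun Z => by simp [hε.le]

lemma Bd.union {E E' : Set (Fin j → ℝ)} {U U' : ℝ} (h : Bd j E U) (h' : Bd j E' U') :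
    Bd j (E ∪ E') (U + U') := fun η h1 h2 ε hε => by
  filter_upwards [h η h1 h2 _ (half_pos hε), h' η h1 h2 _ (half_pos hε)] with Z a b
  refine le_trans ?_ ((add_le_add a b).trans_eq (by ring))
  rw [sum_filter, sum_filter, sum_filter, ← sum_add_distrib]
  refine sum_le_sum fun n _ => ?_
  have h0 : (0 : ℝ) ≤ 1 / n := by positivity
  split_ifs with c1 c2 c3 c3 c2 c3 c3
  · linarith
  · linarith
  · linarith
  · rcases c1.2.2 with c | c
    · exact absurd ⟨c1.1, c1.2.1, c⟩ c2
    · exact absurd ⟨c1.1, c1.2.1, c⟩ c3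
  all_goals linarith

lemma Bd.biUnion {ι : Type*} (s : Finset ι) {E : ι → Set (Fin j → ℝ)} {U : ι → ℝ}
    (h : ∀ i ∈ s, Bd j (E i) (U i)) : Bd j (⋃ i ∈ s, E i) (∑ i ∈ s, U i) := by
  induction s using Finset.induction_on with
  | empty => simpa using Bd.empty
  | insert a s ha ih =>
    rw [sum_insert ha, Finset.set_biUnion_insert]
    exact (h a (mem_insert_self _ _)).union (ih fun i hi => h i (mem_insert_of_mem hi))

lemma co_le : ∀ L : List Var, Ok L → (∀ v ∈ L, v.2.2 = 0) →
    0 ≤ co L ∧ co L ≤ (L.map fun v => (v.2.1 - v.1) / v.1).prod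
  | [], _, _ => by simp [co]
  | v :: L, h, h0 => by
    obtain ⟨h1, h2⟩ := co_le L h.tail fun w hw => h0 w (by simp [hw])
    obtain ⟨ha, hb⟩ := h v (by simp)
    have ha0 : 0 < v.1 := by linarith
    have hb0 : 0 < v.2.1 := by linarith
    have hd : 0 ≤ v.2.1 - v.1 := by linarith
    simp only [co, h0 v (by simp), if_true, List.map_cons, List.prod_cons]
    refine ⟨by positivity, mul_le_mul ?_ h2 h1 (by positivity)⟩
    rw [div_le_div_iff₀ (by positivity) ha0]
    nlinarith [mul_nonneg hd (mul_nonneg ha0.le hd)]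

lemma split_last {x : List ℝ} (h : x.length = j + 1) :
    x = List.ofFn (fun i : Fin j => x.getD i 0) ++ [x.getD j 0] := by
  refine List.ext_getElem (by simp [h]) fun i h1 h2 => ?_
  rcases lt_or_ge i j with hi | hi
  · rw [List.getElem_append_left (by simpa using hi)]
    simp [List.getD_eq_getElem?_getD, h1]
  · obtain rfl : i = j := by omega
    rw [List.getElem_append_right (by simp)]
    simp [List.getD_eq_getElem?_getD, h1]

/-- a half open box -/
lemma bd_box {lo hi : Fin j → ℝ} (h1 : ∀ i, 1 ≤ lo i) (h2 : ∀ i, lo i ≤ hi i) :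
    Bd j (Set.pi Set.univ fun i => Set.Ioc (lo i) (hi i))
      (270 / max 10 (270 - ∑ i, hi i) * ∏ i, (hi i - lo i) / lo i) := fun η e1 _ ε hε => by
  set L : List Var := List.ofFn fun i => (lo i, hi i, 0) with hL
  have hok : Ok L := fun v hv => by
    obtain ⟨i, rfl⟩ := List.mem_ofFn.1 hv
    exact ⟨h1 i, h2 i⟩
  have hz : ∀ v ∈ L, v.2.2 = 0 := fun v hv => by
    obtain ⟨i, rfl⟩ := List.mem_ofFn.1 hv
    rfl
  have htl : (1 : ℝ) ≤ max 10 (270 - ∑ i, hi i) := le_trans (by norm_num) (le_max_left _ _)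
  filter_upwards [cell_le L hok e1 htl hε] with Z hZ
  refine (hZ (-1) 0 _ (by norm_num) (filter_subset _ _) fun n hn => ?_).trans ?_
  · obtain ⟨-, hd, hl, hE⟩ := mem_filter.1 hn
    have e := split_last hl
    refine ⟨_, _, e, max_le ?_ ?_, ?_, ?_⟩
    · refine (hd.low _ ?_).le
      rw [List.getD_eq_getElem _ _ (by omega)]
      exact List.getElem_mem _
    · have ht := hd.tot
      rw [e, List.sum_append, List.sum_ofFn] at ht
      have : ∑ i : Fin j, (xs Z n).getD i 0 ≤ ∑ i, hi i := sum_le_sum fun i _ => (hE i trivial).2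
      simp only [List.sum_cons, List.sum_nil, add_zero] at ht
      linarith
    · rw [hL, List.forall₂_iff_get]
      refine ⟨by simp, fun i i1 i2 => ?_⟩
      simpa using hE ⟨i, by simpa using i2⟩ trivial
    · rw [(plain L hz).2]
      norm_num
  · rw [(plain L hz).1]
    have k := (co_le L hok hz).2
    rw [hL, List.map_ofFn, List.prod_ofFn] at k
    have k2 := mul_le_mul_of_nonneg_left k
      (by positivity : 0 ≤ η / max 10 (270 - ∑ i, hi i))
    refine add_le_add (k2.trans_eq ?_) le_rfl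
    simp only [Function.comp]
    ring

/-- the ambient cube -/
def cube (j : ℕ) : Set (Fin j → ℝ) := Set.Icc (fun _ => 10) fun _ => 260

lemma one_le_prod {y : Fin j → ℝ} (h : y ∈ cube j) : 1 ≤ ∏ i, y i :=
  le_trans (by simp) (prod_le_prod (f := fun _ => (1 : ℝ)) (fun _ _ => zero_le_one) fun i _ =>
    le_trans (by norm_num : (1 : ℝ) ≤ 10) (h.1 i))

lemma dens_nn {y : Fin j → ℝ} (h : y ∈ cube j) : 0 ≤ dens y := by
  have := one_le_prod h
  unfold dens
  positivity

lemma dens_le {y : Fin j → ℝ} (h : y ∈ cube j) : dens y ≤ 27 := by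
  have h1 := one_le_prod h
  have h2 : (10 : ℝ) ≤ max 10 (270 - ∑ i, y i) := le_max_left _ _
  unfold dens
  rw [div_le_iff₀ (by positivity)]
  nlinarith

lemma dens_int : IntegrableOn (dens (j := j)) (cube j) := by
  refine ContinuousOn.integrableOn_compact isCompact_Icc ?_
  unfold dens
  refine continuousOn_const.div (by fun_prop) fun y hy => ?_
  have := one_le_prod hy
  positivity

/-- a cell of the grid -/
def grid (h : ℝ) (a : Fin j → ℕ) : Set (Fin j → ℝ) :=
  Set.pi Set.univ fun i => Set.Ioc (10 + a i * h) (10 + (a i + 1) * h)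

lemma grid_meas (h : ℝ) (a : Fin j → ℕ) : MeasurableSet (grid h a) :=
  MeasurableSet.univ_pi fun _ => measurableSet_Ioc

lemma grid_sub {h : ℝ} {N : ℕ} (hh : 0 < h) (hN : N * h = 250) {a : Fin j → ℕ}
    (ha : ∀ i, a i < N) : grid h a ⊆ cube j := fun y hy => by
  refine ⟨fun i => ?_, fun i => ?_⟩
  · have := (hy i trivial).1
    have h0 : 0 ≤ a i * h := by positivity
    show (10 : ℝ) ≤ y i
    linarith
  · have := (hy i trivial).2
    have h0 : (a i + 1 : ℝ) ≤ N := by exact_mod_cast ha i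
    show y i ≤ (260 : ℝ)
    nlinarith

lemma grid_disj {h : ℝ} (hh : 0 < h) {a b : Fin j → ℕ} (hab : a ≠ b) :
    Disjoint (grid h a) (grid h b) := by
  rw [Set.disjoint_left]
  intro y h1 h2
  refine hab (funext fun i => ?_)
  have k1 := h1 i trivial
  have k2 := h2 i trivial
  have c1 : (a i : ℝ) < b i + 1 := lt_of_mul_lt_mul_right (by linarith [k1.1, k2.2]) hh.le
  have c2 : (b i : ℝ) < a i + 1 := lt_of_mul_lt_mul_right (by linarith [k1.2, k2.1]) hh.le
  have d1 : a i < b i + 1 := by exact_mod_cast c1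
  have d2 : b i < a i + 1 := by exact_mod_cast c2
  omega

lemma grid_cov {h : ℝ} {N : ℕ} (hh : 0 < h) (hN : N * h = 250) {y : Fin j → ℝ}
    (h1 : ∀ i, 10 < y i) (h2 : ∀ i, y i ≤ 260) : ∃ a : Fin j → ℕ, (∀ i, a i < N) ∧ y ∈ grid h a := by
  have key : ∀ i, ∃ a : ℕ, a < N ∧ y i ∈ Set.Ioc (10 + a * h) (10 + (a + 1) * h) := fun i => by
    have p0 : 0 < (y i - 10) / h := div_pos (by linarith [h1 i]) hh
    obtain ⟨a, ha⟩ : ∃ a, ⌈(y i - 10) / h⌉₊ = a + 1 :=
      Nat.exists_eq_succ_of_ne_zero (Nat.ceil_pos.2 p0).ne'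
    have p1 : (a : ℝ) < (y i - 10) / h := Nat.lt_ceil.1 (by omega)
    have p2 : (y i - 10) / h ≤ ((a + 1 : ℕ) : ℝ) := ha ▸ Nat.le_ceil _
    rw [lt_div_iff₀ hh] at p1
    rw [div_le_iff₀ hh] at p2
    push_cast at p2
    have p3 : (a : ℝ) < N := lt_of_mul_lt_mul_right (by linarith [h2 i]) hh.le
    exact ⟨a, by exact_mod_cast p3, by linarith, by linarith⟩
  choose a ha using key
  exact ⟨a, fun i => (ha i).1, fun i _ => (ha i).2⟩

lemma bd_grid {h : ℝ} {N : ℕ} (hh : 0 < h) (hN : N * h = 250) {a : Fin j → ℕ}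
    (ha : ∀ i, a i < N) :
    Bd j (grid h a) ((1 + h) ^ j * (1 + j * h) * ∫ y in grid h a, dens y) := by
  have l1 : ∀ i, (1 : ℝ) ≤ 10 + a i * h := fun i => by
    have : 0 ≤ a i * h := by positivity
    linarith
  refine (bd_box l1 fun i => by nlinarith).mono le_rfl ?_
  set tl : ℝ := max 10 (270 - ∑ i, (10 + (a i + 1) * h)) with htl
  have t1 : 10 ≤ tl := le_max_left _ _
  have t2 : 270 - ∑ i, (10 + (a i + 1) * h) ≤ tl := le_max_right _ _
  have p0 : 0 < ∏ i, (10 + a i * h) := prod_pos fun i _ => by linarith [l1 i]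
  have hv : volume.real (grid h a) = h ^ j := by
    have e : ∀ i, 10 + (a i + 1) * h - (10 + a i * h) = h := fun i => by ring
    rw [Measure.real, grid, Real.volume_pi_Ioc_toReal fun i => by nlinarith]
    simp [e]
  have hc : ∀ y ∈ grid h a, 270 / (tl * ∏ i, (10 + a i * h)) / ((1 + h) ^ j * (1 + j * h)) ≤
      dens y := fun y hy => by
    have q0 := one_le_prod (grid_sub hh hN ha hy)
    have q1 : ∏ i, y i ≤ (∏ i, (10 + a i * h)) * (1 + h) ^ j := by
      have : (1 + h) ^ j = ∏ _i : Fin j, (1 + h) := by simp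
      rw [this, ← prod_mul_distrib]
      refine prod_le_prod (fun i _ => by linarith [(hy i trivial).1, l1 i]) fun i _ => ?_
      nlinarith [(hy i trivial).2, l1 i]
    have q2 : max 10 (270 - ∑ i, y i) ≤ tl * (1 + j * h) := by
      have r0 : 0 ≤ j * h := by positivity
      have r1 : ∑ i, (10 + (a i + 1) * h) ≤ ∑ i, (y i + h) :=
        sum_le_sum fun i _ => by linarith [(hy i trivial).1]
      rw [sum_add_distrib (f := y), sum_const, card_univ, Fintype.card_fin, nsmul_eq_mul] at r1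
      exact max_le (by nlinarith) (by nlinarith)
    unfold dens
    rw [div_div]
    refine div_le_div_of_nonneg_left (by norm_num) (by positivity) ?_
    exact (mul_le_mul q1 q2 (by positivity) (by positivity)).trans_eq (by ring)
  have hi := setIntegral_ge_of_const_le_real (grid_meas h a)
    ((measure_mono (grid_sub hh hN ha)).trans_lt isCompact_Icc.measure_lt_top).ne hc
    (dens_int.mono_set (grid_sub hh hN ha))
  rw [hv] at hi
  refine le_trans (le_of_eq ?_) (mul_le_mul_of_nonneg_left hi (by positivity))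
  have e : ∀ i, 10 + (a i + 1) * h - (10 + a i * h) = h := fun i => by ring
  simp only [e]
  rw [prod_div_distrib, prod_const, card_univ, Fintype.card_fin]
  generalize ∏ i, (10 + a i * h) = P at p0
  field_simp

lemma Bd.restrict {E E' : Set (Fin j → ℝ)} {U : ℝ} (h : Bd j E' U)
    (hE : ∀ y ∈ E, (∀ i, 10 < y i) → y ∈ E') : Bd j E U := fun η h1 h2 ε hε => by
  filter_upwards [h η h1 h2 ε hε] with Z hZ
  refine (sum_le_sum_of_subset_of_nonneg (fun n hn => ?_) fun _ _ _ => by positivity).trans hZ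
  rw [mem_filter] at hn ⊢
  refine ⟨hn.1, hn.2.1, hn.2.2.1, hE _ hn.2.2.2 fun i => hn.2.1.low _ ?_⟩
  rw [List.getD_eq_getElem _ _ (by have := hn.2.2.1; omega)]
  exact List.getElem_mem _

lemma bd_thick {E : Set (Fin j → ℝ)} (hE : IsClosed E) (hs : E ⊆ cube j) {h : ℝ} {N : ℕ}
    (hh : 0 < h) (hN : N * h = 250) :
    Bd j E ((1 + h) ^ j * (1 + j * h) * ((∫ y in E, dens y) +
      27 * (volume.real (Metric.cthickening h E) - volume.real E))) := by
  set A : Finset (Fin j → ℕ) := (Fintype.piFinset fun _ => range N).filter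
    fun a => (grid h a ∩ E).Nonempty with hA
  have hlt : ∀ a ∈ A, ∀ i, a i < N := fun a ha i =>
    mem_range.1 (Fintype.mem_piFinset.1 (mem_filter.1 ha).1 i)
  refine ((Bd.biUnion A fun a ha => bd_grid hh hN (hlt a ha)).mono le_rfl ?_).restrict ?_
  swap
  · intro y h1 h2
    obtain ⟨a, a1, a2⟩ := grid_cov hh hN h2 (hs h1).2
    exact Set.mem_biUnion (mem_filter.2
      ⟨Fintype.mem_piFinset.2 fun i => mem_range.2 (a1 i), y, a2, h1⟩ : a ∈ A) a2
  rw [← mul_sum]
  refine mul_le_mul_of_nonneg_left ?_ (by positivity)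
  rw [← integral_biUnion_finset A (fun a _ => grid_meas h a) (fun a _ b _ hab => grid_disj hh hab)
    fun a ha => dens_int.mono_set (grid_sub hh hN (hlt a ha))]
  set W : Set (Fin j → ℝ) := ⋃ a ∈ A, grid h a with hW
  have w1 : W ⊆ cube j := Set.iUnion₂_subset fun a ha => grid_sub hh hN (hlt a ha)
  have w2 : MeasurableSet W := A.measurableSet_biUnion fun a _ => grid_meas h a
  have w3 : W ⊆ Metric.cthickening h E := Set.iUnion₂_subset fun a ha y hy => by
    obtain ⟨z, z1, z2⟩ := (mem_filter.1 ha).2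
    refine Metric.mem_cthickening_of_dist_le y z h E z2 ((dist_pi_le_iff hh.le).2 fun i => ?_)
    rw [Real.dist_eq, abs_le]
    constructor <;> linarith [(hy i trivial).1, (hy i trivial).2, (z1 i trivial).1, (z1 i trivial).2]
  have hc : IsCompact E := isCompact_Icc.of_isClosed_subset hE hs
  have hf : volume (Metric.cthickening h E) ≠ ⊤ := hc.cthickening.measure_lt_top.ne
  rw [← integral_inter_add_sdiff hE.measurableSet (dens_int.mono_set w1)]
  refine add_le_add ?_ ?_
  · refine setIntegral_mono_set (dens_int.mono_set hs) ?_ Set.inter_subset_right.eventuallyLE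
    exact (ae_restrict_iff' hE.measurableSet).2 (Eventually.of_forall fun y hy => dens_nn (hs hy))
  · have s1 : W \ E ⊆ Metric.cthickening h E \ E := Set.sdiff_subset_sdiff_left w3
    have f1 : volume (W \ E) < ⊤ :=
      (measure_mono (Set.sdiff_subset.trans w3)).trans_lt hf.lt_top
    have s2 := norm_setIntegral_le_of_norm_le_const (μ := volume) (f := dens) (C := 27) f1
      fun y hy => by
        rw [Real.norm_of_nonneg (dens_nn (w1 hy.1))]
        exact dens_le (w1 hy.1)
    refine (le_abs_self _).trans (s2.trans (mul_le_mul_of_nonneg_left ?_ (by norm_num)))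
    rw [← measureReal_sdiff (Metric.self_subset_cthickening E) hE.measurableSet hf]
    exact measureReal_mono s1 ((measure_mono Set.sdiff_subset).trans_lt hf.lt_top).ne

/-- reduction to the integral -/
theorem red {E : Set (Fin j → ℝ)} (hE : IsClosed E) (hs : E ⊆ cube j) :
    Bd j E (∫ y in E, dens y) := by
  refine Bd.of_forall fun δ hδ => ?_
  have hc : IsCompact E := isCompact_Icc.of_isClosed_subset hE hs
  have t1 : Tendsto (fun h : ℝ => volume.real (Metric.cthickening h E)) (𝓝 0)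
      (𝓝 (volume.real E)) :=
    (ENNReal.tendsto_toReal hc.measure_lt_top.ne).comp (tendsto_measure_cthickening_of_isCompact hc)
  have t2 : Tendsto (fun h : ℝ => (1 + h) ^ j * (1 + j * h)) (𝓝 0) (𝓝 ((1 + 0) ^ j * (1 + j * 0))) :=
    Continuous.tendsto (by fun_prop) 0
  have t3 := t2.mul (((t1.sub_const (volume.real E)).const_mul 27).const_add (∫ y in E, dens y))
  have t4 : Tendsto (fun N : ℕ => (250 : ℝ) / N) atTop (𝓝 0) := tendsto_const_div_atTop_nhds_zero_nat _
  have t5 := (t3.comp t4).eventually_lt_const (u := (∫ y in E, dens y) + δ) (by simpa using hδ)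
  obtain ⟨N, n1, n2⟩ := (t5.and (eventually_gt_atTop 0)).exists
  have n3 : (0 : ℝ) < N := by exact_mod_cast n2
  exact (bd_thick hE hs (h := 250 / N) (N := N) (by positivity) (by field_simp)).mono le_rfl n1.le

end Pool.Agent.Lib.AP.Mass
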