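import Pool.Agent.Lib.AP.GeoD

/-! Covering a cone given by inequalities by simplicial cones on a given list of rays. -/

noncomputable section

namespace Pool.Agent.Lib.AP.X

open Geo

/-- the inequality `p . y ≤ q . y` -/
abbrev Cs := List ℕ × List ℕ

def dN (p : List ℕ) : List ℕ → ℕ :=
  List.rec (fun _ => 0)
    (fun a _ ih v => List.rec 0 (fun b v _ => Nat.add (Nat.mul a b) (ih v)) v) p

def fm (k : ℕ) (p : List ℕ) : (Fin k → ℝ) →ₗ[ℝ] ℝ :=
  ∑ i : Fin k, ((p.getD i 0 : ℕ) : ℝ) • LinearMap.proj i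

def gl (k : ℕ) (c : Cs) : (Fin k → ℝ) →ₗ[ℝ] ℝ := fm k c.2 - fm k c.1

lemma fm_apply (k : ℕ) (p : List ℕ) (y : Fin k → ℝ) :
    fm k p y = ∑ i : Fin k, ((p.getD i 0 : ℕ) : ℝ) * y i := by
  simp [fm]

lemma fm_vec : ∀ (k : ℕ) (p v : List ℕ), v.length = k → fm k p (vec k v) = dN p v
  | _, [], v, _ => by simp [fm_apply, dN]
  | _, _ :: _, [], h => by subst h; simp [fm_apply, dN]
  | 0, _ :: _, _ :: _, h => by simp at h
  | k + 1, a :: p, b :: v, h => by
    have ih := fm_vec k p v (by simpa using h)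
    rw [fm_apply] at ih ⊢
    rw [Fin.sum_univ_succ, show dN (a :: p) (b :: v) = a * b + dN p v from rfl]
    simp only [vec] at ih ⊢
    push_cast
    rw [← ih]
    simp

lemma gl_vec {k : ℕ} (c : Cs) {v : List ℕ} (h : v.length = k) :
    gl k c (vec k v) = (dN c.2 v : ℝ) - dN c.1 v := by
  simp [gl, fm_vec _ _ _ h]

/-- one bit per ray: equality -/
def zm (c : Cs) (V : List (List ℕ)) : ℕ :=
  List.rec 0 (fun v _ ih => Nat.add (Nat.mul 2 ih)
    (Bool.rec 0 1 (Nat.beq (dN c.1 v) (dN c.2 v)))) V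

/-- all rays satisfy the inequality -/
def zk (c : Cs) (V : List (List ℕ)) : Bool :=
  List.rec true (fun v _ ih => Bool.rec false ih (Nat.ble (dN c.1 v) (dN c.2 v))) V

lemma zm_bit (c : Cs) : ∀ (V : List (List ℕ)) (i : ℕ), (zm c V).testBit i = true ↔
    i < V.length ∧ dN c.1 (V.getD i []) = dN c.2 (V.getD i [])
  | [], i => by simp [zm]
  | v :: V, i => by
    have e : zm c (v :: V) = 2 * zm c V + (Bool.rec 0 1 (Nat.beq (dN c.1 v) (dN c.2 v)) : ℕ) := rfl
    rw [e]
    obtain _ | i := i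
    · rw [Nat.testBit_zero, List.getD_cons_zero, ← Nat.beq_eq (x := dN c.1 v)]
      cases Nat.beq (dN c.1 v) (dN c.2 v) <;> simp
    · rw [Nat.testBit_add_one, List.getD_cons_succ, List.length_cons, Nat.add_lt_add_iff_right,
        ← zm_bit c V i]
      cases Nat.beq (dN c.1 v) (dN c.2 v) <;> simp [Nat.mul_add_div]

lemma zk_ok (c : Cs) : ∀ V : List (List ℕ), zk c V = true → ∀ v ∈ V, dN c.1 v ≤ dN c.2 v
  | [], _, _, h => by simp at h
  | w :: V, g, v, h => by
    have e : zk c (w :: V) = Bool.rec false (zk c V) (Nat.ble (dN c.1 w) (dN c.2 w)) := rfl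
    rw [e] at g
    cases h1 : Nat.ble (dN c.1 w) (dN c.2 w) <;> rw [h1] at g
    · exact absurd g (by simp)
    · rcases List.mem_cons.1 h with rfl | h
      · exact Nat.le_of_ble_eq_true h1
      · exact zk_ok c V g v h

def sub1 (x : ℕ) (L : List ℕ) : Bool :=
  List.rec false (fun f _ ih => Bool.rec ih true (Nat.beq (Nat.land x f) x)) L

def del (x : ℕ) (L : List ℕ) : List ℕ :=
  List.rec [] (fun f _ ih => Bool.rec (f :: ih) ih (Nat.beq (Nat.land x f) f)) L

/-- the maximal proper faces -/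
def keep (W : ℕ) (L : List ℕ) : List ℕ :=
  List.rec [] (fun e _ acc => (fun x => Bool.rec (Bool.rec (x :: del x acc) acc (sub1 x acc)) acc
    (Nat.beq x W)) (Nat.land W e)) L

lemma del_sub (x : ℕ) : ∀ L : List ℕ, ∀ f ∈ del x L, f ∈ L
  | [], _, h => h
  | e :: L, f, h => by
    have e1 : del x (e :: L) = Bool.rec (e :: del x L) (del x L) (Nat.beq (Nat.land x e) e) := rfl
    rw [e1] at h
    cases h1 : Nat.beq (Nat.land x e) e <;> rw [h1] at h
    · exact List.mem_cons.2 ((List.mem_cons.1 h).imp_right (del_sub x L f))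
    · exact List.mem_cons_of_mem _ (del_sub x L f h)

lemma keep_sub (W : ℕ) : ∀ L : List ℕ, ∀ f ∈ keep W L, ∃ e ∈ L, f = W &&& e
  | [], _, h => by simp [keep] at h
  | e :: L, f, h => by
    have e1 : keep W (e :: L) = Bool.rec (Bool.rec (Nat.land W e :: del (Nat.land W e) (keep W L))
      (keep W L) (sub1 (Nat.land W e) (keep W L))) (keep W L) (Nat.beq (Nat.land W e) W) := rfl
    have t : f ∈ keep W L → ∃ e' ∈ e :: L, f = W &&& e' := fun h =>
      (keep_sub W L f h).imp fun _ g => ⟨List.mem_cons_of_mem _ g.1, g.2⟩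
    rw [e1] at h
    cases h1 : Nat.beq (Nat.land W e) W <;> rw [h1] at h
    · cases h2 : sub1 (Nat.land W e) (keep W L) <;> rw [h2] at h
      · rcases List.mem_cons.1 h with rfl | h
        · exact ⟨e, List.mem_cons_self, rfl⟩
        · exact t (del_sub _ _ f h)
      · exact t h
    · exact t h

/-- failure -/
def big : ℕ := 0x100000000000000000000000000000000000000000000000000

def some0 (P : ℕ) (L : List ℕ) : Bool :=
  List.rec false (fun x _ ih => Nat.rec true (fun _ _ => ih) (Nat.land x P)) L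

def sum0 (P : ℕ) (f : ℕ → ℕ) (L : List ℕ) : ℕ :=
  List.rec 0 (fun x _ ih => Nat.rec (Nat.add (f x) ih) (fun _ _ => ih) (Nat.land x P)) L

def frc (n : ℕ) (f : ℕ → ℕ) : ℕ := Nat.rec (f 0) (fun m _ => f (Nat.succ m)) n

lemma frc_eq (n : ℕ) (f : ℕ → ℕ) : frc n f = f n := by cases n <;> rfl

/-- the pulling recursion -/
def pull {σ : Type} (push : ℕ → σ → σ) (lf : σ → ℕ) (n : ℕ) : ℕ → List ℕ → σ → ℕ :=
  Nat.rec (fun _ _ s => lf s) (fun _ ih W L s =>
    Nat.rec big (fun m _ => frc (Nat.log2 W) fun i =>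
      (fun (P : ℕ) (L' : List ℕ) (s' : σ) =>
        Bool.rec big (sum0 P (fun x => ih x L' s') L') (some0 P L'))
      (Nat.shiftLeft 1 i) (keep (Nat.succ m) L) (push i s)) W) n

lemma land_pow (x i : ℕ) : Nat.land x (Nat.shiftLeft 1 i) = 0 ↔ x.testBit i = false := by
  change x &&& 1 <<< i = 0 ↔ _
  rw [Nat.one_shiftLeft, Nat.and_two_pow]
  cases x.testBit i <;> simp

lemma some0_ok (P : ℕ) : ∀ L : List ℕ, some0 P L = true → ∃ x ∈ L, Nat.land x P = 0
  | [], h => by simp [some0] at h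
  | x :: L, h => by
    have e : some0 P (x :: L) = Nat.rec true (fun _ _ => some0 P L) (Nat.land x P) := rfl
    rw [e] at h
    cases h1 : Nat.land x P with
    | zero => exact ⟨x, List.mem_cons_self, h1⟩
    | succ n =>
      rw [h1] at h
      exact (some0_ok P L h).imp fun _ g => ⟨List.mem_cons_of_mem _ g.1, g.2⟩

/-- a subadditive bound for sets of points -/
structure Rule {k : ℕ} (R : ((Fin k → ℝ) → Prop) → ℕ → Prop) : Prop where
  mono : ∀ {P Q u}, R P u → (∀ y, Q y → P y) → R Q u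
  cover : ∀ {P Q u w}, R P u → R Q w → R (fun y => P y ∨ Q y) (u + w)
  empty : R (fun _ => False) 0

lemma Rule.sum {k : ℕ} {R : ((Fin k → ℝ) → Prop) → ℕ → Prop} (h : Rule R) (p : ℕ) (f : ℕ → ℕ)
    (P : ℕ → (Fin k → ℝ) → Prop) : ∀ L : List ℕ, sum0 p f L < big →
      (∀ e ∈ L, Nat.land e p = 0 → f e < big → R (P e) (f e)) →
      R (fun y => ∃ e ∈ L, Nat.land e p = 0 ∧ P e y) (sum0 p f L)
  | [], _, _ => h.mono h.empty (by simp)
  | e :: L, h1, h2 => by
    have e1 : sum0 p f (e :: L) =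
      Nat.rec (f e + sum0 p f L) (fun _ _ => sum0 p f L) (Nat.land e p) := rfl
    have ih := fun g => h.sum p f P L g fun e he => h2 e (List.mem_cons_of_mem _ he)
    rw [e1] at h1 ⊢
    cases h3 : Nat.land e p with
    | zero =>
      rw [h3] at h1
      change f e + sum0 p f L < big at h1
      refine h.mono (h.cover (h2 e List.mem_cons_self h3 (by omega)) (ih (by omega))) ?_
      rintro y ⟨c, hc, h4⟩
      rcases List.mem_cons.1 hc with rfl | hc
      · exact Or.inl h4.2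
      · exact Or.inr ⟨c, hc, h4⟩
    | succ n =>
      rw [h3] at h1
      refine h.mono (ih h1) ?_
      rintro y ⟨c, hc, h4⟩
      rcases List.mem_cons.1 hc with rfl | hc
      · exact absurd (h3.symm.trans h4.1) n.succ_ne_zero
      · exact ⟨c, hc, h4⟩

lemma rays_cons {k : ℕ} (v : List ℕ) (A : List (List ℕ)) {z : Fin k → ℝ} (h : Cn (rays k A) z)
    {t : ℝ} (ht : 0 ≤ t) : Cn (rays k (v :: A)) (t • vec k v + z) :=
  .add (.smul ht (.mem ⟨v, List.mem_cons_self, rfl⟩))
    (h.mono fun _ hy => hy.imp fun _ hw => And.intro (List.mem_cons_of_mem _ hw.1) hw.2)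

theorem pull_ok {k : ℕ} {R : ((Fin k → ℝ) → Prop) → ℕ → Prop} (h : Rule R) {V : List (List ℕ)}
    {σ : Type} {push : ℕ → σ → σ} {lf : σ → ℕ} {st : List (List ℕ) → σ}
    (hp : ∀ i < V.length, ∀ A, push i (st A) = st (V.getD i [] :: A))
    (hl : ∀ A, A.length = k → (∀ v ∈ A, v ∈ V) → lf (st A) < big → R (Cn (rays k A)) (lf (st A))) :
    ∀ (n W : ℕ) (L : List ℕ) (A : List (List ℕ)) (K : Submodule ℝ (Fin k → ℝ))
      (g : ℕ → (Fin k → ℝ) →ₗ[ℝ] ℝ),
      Module.finrank ℝ K ≤ n → A.length + n = k → (∀ v ∈ A, v ∈ V) →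
      (∀ i, W.testBit i = true → i < V.length ∧ vec k (V.getD i []) ∈ K) →
      (∀ e ∈ L, ∀ i, W.testBit i = true → (e.testBit i = true → g e (vec k (V.getD i [])) = 0) ∧
        (e.testBit i = false → 0 < g e (vec k (V.getD i [])))) → pull push lf n W L (st A) < big →
      R (fun x => ∃ y z, y ∈ K ∧ (∀ e ∈ L, 0 ≤ g e y) ∧ Cn (rays k A) z ∧ x = y + z)
        (pull push lf n W L (st A))
  | 0, W, L, A, K, g, h1, h2, h3, _, _, h6 => by
    refine h.mono (hl A h2 h3 h6) ?_
    rintro _ ⟨y, z, hy, -, hz, rfl⟩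
    rw [Submodule.finrank_eq_zero.1 (Nat.le_zero.1 h1), Submodule.mem_bot] at hy
    rwa [hy, zero_add]
  | n + 1, 0, L, A, K, g, _, _, _, _, _, h6 => absurd h6 (lt_irrefl _)
  | n + 1, W + 1, L, A, K, g, h1, h2, h3, h4, h5, h6 => by
    have hb : (W + 1).testBit (Nat.log2 (W + 1)) = true := Nat.testBit_log2 W.succ_ne_zero
    have e0 : pull push lf (n + 1) (W + 1) L (st A) = frc (Nat.log2 (W + 1)) fun i =>
      Bool.rec (motive := fun _ => ℕ) big (sum0 (Nat.shiftLeft 1 i) (fun x => pull push lf n x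
        (keep (W + 1) L) (push i (st A))) (keep (W + 1) L))
        (some0 (Nat.shiftLeft 1 i) (keep (W + 1) L)) := rfl
    rw [e0, frc_eq] at h6 ⊢
    generalize Nat.log2 (W + 1) = i at h6 hb ⊢
    obtain ⟨hi, hK⟩ := h4 i hb
    have hv : V.getD i [] ∈ V := by
      rw [List.getD_eq_getElem _ _ hi]; exact List.getElem_mem hi
    simp only [hp i hi] at h6 ⊢
    choose! f f1 f2 using keep_sub (W + 1) L
    generalize keep (W + 1) L = L' at h6 f1 f2 ⊢
    have sb : ∀ e ∈ L', ∀ j, e.testBit j = ((W + 1).testBit j && (f e).testBit j) :=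
      fun e he j => by rw [← Nat.testBit_and, ← f2 e he]
    have h7 : ∀ e ∈ L', ∀ j, (W + 1).testBit j = true →
        (e.testBit j = true → g (f e) (vec k (V.getD j [])) = 0) ∧
        (e.testBit j = false → 0 < g (f e) (vec k (V.getD j []))) := fun e he j hj => by
      rw [sb e he, hj, Bool.true_and]; exact h5 _ (f1 e he) j hj
    cases hc : some0 (Nat.shiftLeft 1 i) L' <;> rw [hc] at h6
    · exact absurd h6 (lt_irrefl _)
    refine h.mono (h.sum _ _ (fun e x => ∃ y z, y ∈ K ⊓ LinearMap.ker (g (f e)) ∧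
      (∀ c ∈ L', 0 ≤ g (f c) y) ∧ Cn (rays k (V.getD i [] :: A)) z ∧ x = y + z) _ h6
      fun e he h0 hb' => ?_) ?_
    · have w : ∀ j, e.testBit j = true → (W + 1).testBit j = true := fun j hj => by
        rw [sb e he, Bool.and_eq_true] at hj; exact hj.1
      refine pull_ok h hp hl n _ L' _ _ (fun c => g (f c)) ?_ (by simp; omega)
        (List.forall_mem_cons.2 ⟨hv, h3⟩)
        (fun j hj => ⟨(h4 j (w j hj)).1, (h4 j (w j hj)).2, (h7 e he j (w j hj)).1 hj⟩)
        (fun c hc j hj => h7 c hc j (w j hj)) hb'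
      have : K ⊓ LinearMap.ker (g (f e)) < K := lt_of_le_of_ne inf_le_left fun hh =>
        ((h7 e he i hb).2 ((land_pow _ _).1 h0)).ne' (hh.ge hK).2
      have := Submodule.finrank_lt_finrank_of_lt this
      omega
    · rintro _ ⟨y, z, hy, hL, hz, rfl⟩
      set p := vec k (V.getD i []) with hpd
      obtain ⟨e, he, hm⟩ := Finset.exists_min_image
        (L'.toFinset.filter fun e => e.testBit i = false) (fun e => g (f e) y / g (f e) p)
        (by
          obtain ⟨e, h8, h9⟩ := some0_ok _ _ hc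
          exact ⟨e, Finset.mem_filter.2 ⟨List.mem_toFinset.2 h8, (land_pow _ _).1 h9⟩⟩)
      simp only [List.mem_toFinset, Finset.mem_filter] at he hm
      have hpe := (h7 e he.1 i hb).2 he.2
      have ht : 0 ≤ g (f e) y / g (f e) p := div_nonneg (hL _ (f1 e he.1)) hpe.le
      refine ⟨e, he.1, (land_pow _ _).2 he.2, y - (g (f e) y / g (f e) p) • p, _,
        ⟨K.sub_mem hy (K.smul_mem _ hK), ?_⟩, fun c hc => ?_, rays_cons _ _ hz ht, by abel⟩
      · change g (f e) _ = 0
        rw [map_sub, map_smul, smul_eq_mul, div_mul_cancel₀ _ hpe.ne', sub_self]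
      · rw [map_sub, map_smul, smul_eq_mul, sub_nonneg]
        cases h8 : c.testBit i
        · exact (le_div_iff₀ ((h7 c hc i hb).2 h8)).1 (hm c ⟨hc, h8⟩)
        · rw [(h7 c hc i hb).1 h8, mul_zero]
          exact hL _ (f1 c hc)

end Pool.Agent.Lib.AP.X
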