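import Pool.Agent.Lib.AP.X1

/-! A division free determinant on lists of sparse rows. -/

noncomputable section

namespace Pool.Agent.Lib.AP.X

/-- rows of integers, each a difference of natural numbers -/
inductive Rw : Type
  | nil : Rw
  | cons (p n : ℕ) (t : Rw) : Rw

def cmb (a b : ℕ) (s : Rw) : Rw → Rw :=
  Rw.rec (fun _ => .nil) (fun p n _ ih t => Rw.rec .nil (fun q m t _ =>
    .cons (Nat.add (Nat.mul a p) (Nat.mul b q)) (Nat.add (Nat.mul a n) (Nat.mul b m)) (ih t)) t) s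

def ng (s : Rw) : Rw := Rw.rec .nil (fun p n _ ih => .cons n p ih) s

def pass (a : ℕ) (tp tn : Rw) (nx : List Rw → ℕ → ℕ) (M : List Rw) : List Rw → ℕ → ℕ :=
  List.rec nx (fun r _ ih Q m => Rw.rec big (fun p n s _ =>
    Nat.rec (Nat.rec (ih (s :: Q) m)
      (fun b _ => ih (cmb a (Nat.succ b) s tp :: Q) (Nat.mul m a)) (Nat.sub n p))
      (fun b _ => ih (cmb a (Nat.succ b) s tn :: Q) (Nat.mul m a)) (Nat.sub p n)) r) M

def find (nx : ℕ → List Rw → ℕ → ℕ) (m : ℕ) (M : List Rw) : List Rw → ℕ :=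
  List.rec (fun _ => big) (fun r M ih Q => Rw.rec big (fun p n s _ =>
    Nat.rec (Nat.rec (ih (s :: Q))
      (fun b _ => pass (Nat.succ b) (ng s) s (nx (Nat.succ b)) M Q m) (Nat.sub n p))
      (fun b _ => pass (Nat.succ b) s (ng s) (nx (Nat.succ b)) M Q m) (Nat.sub p n)) r) M

/-- ends with `fin F m`, where `F / m` is the absolute value of the determinant -/
def det (fin : ℕ → ℕ → ℕ) (n : ℕ) : List Rw → ℕ → ℕ → ℕ :=
  Nat.rec (fun _ F m => fin F m)
    (fun _ ih M F m => find (fun a Q m => ih Q (Nat.mul F a) m) m M []) n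

def cz (h : ℤ) (f : ℕ → ℤ) : ℕ → ℤ
  | 0 => h
  | j + 1 => f j

def vl : Rw → ℕ → ℤ
  | .nil => 0
  | .cons p n t => cz (p - n) (vl t)

def ln : Rw → ℕ
  | .nil => 0
  | .cons _ _ t => ln t + 1

def mt (n : ℕ) (M : List (ℕ → ℤ)) : Matrix (Fin n) (Fin n) ℤ := Matrix.of fun i j => M.getD i 0 j

def ad (n : ℕ) (M : List (ℕ → ℤ)) : ℕ := (mt n M).det.natAbs

lemma cz_lin (a b h k : ℤ) (f g : ℕ → ℤ) :
    a • cz h f + b • cz k g = cz (a * h + b * k) (a • f + b • g) := by
  ext j; cases j <;> rfl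

lemma cz_neg (h : ℤ) (f : ℕ → ℤ) : -cz h f = cz (-h) (-f) := by
  ext j; cases j <;> rfl

lemma cmb_ok (a b : ℕ) : ∀ s t : Rw, ln s = ln t →
    ln (cmb a b s t) = ln s ∧ vl (cmb a b s t) = (a : ℤ) • vl s + (b : ℤ) • vl t
  | .nil, .nil, _ => ⟨rfl, by simp [cmb, vl]⟩
  | .nil, .cons _ _ _, h => by simp [ln] at h
  | .cons _ _ _, .nil, h => by simp [ln] at h
  | .cons p n s, .cons q m t, h => by
    obtain ⟨h1, h2⟩ := cmb_ok a b s t (by simpa [ln] using h)
    have e : cmb a b (.cons p n s) (.cons q m t) =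
      .cons (a * p + b * q) (a * n + b * m) (cmb a b s t) := rfl
    rw [e, ln, ln, h1, vl, vl, vl, h2, cz_lin]
    refine ⟨rfl, ?_⟩
    congr 1
    push_cast
    ring

lemma ng_ok : ∀ s : Rw, ln (ng s) = ln s ∧ vl (ng s) = -vl s
  | .nil => ⟨rfl, by simp [ng, vl]⟩
  | .cons p n s => by
    have e : ng (.cons p n s) = .cons n p (ng s) := rfl
    rw [e, ln, ln, (ng_ok s).1, vl, vl, (ng_ok s).2, cz_neg, neg_sub]
    exact ⟨rfl, rfl⟩

lemma ad_swap (L : List (ℕ → ℤ)) (a b : ℕ → ℤ) (l : List (ℕ → ℤ)) {n : ℕ}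
    (h : L.length + 1 < n) : ad n (L ++ a :: b :: l) = ad n (L ++ b :: a :: l) := by
  have e : mt n (L ++ a :: b :: l) = (mt n (L ++ b :: a :: l)).submatrix
      (Equiv.swap ⟨L.length, by omega⟩ ⟨L.length + 1, h⟩) id := by
    ext r j
    simp only [mt, Matrix.submatrix_apply, Matrix.of_apply, id]
    by_cases h1 : r = ⟨L.length, by omega⟩
    · subst h1; simp
    by_cases h2 : r = ⟨L.length + 1, h⟩
    · subst h2; simp
    rw [Equiv.swap_apply_of_ne_of_ne h1 h2]
    rw [Fin.ext_iff] at h1 h2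
    rcases lt_or_ge (r : ℕ) L.length with h3 | h3
    · rw [List.getD_append _ _ _ _ h3, List.getD_append _ _ _ _ h3]
    · rw [List.getD_append_right _ _ _ _ h3, List.getD_append_right _ _ _ _ h3]
      obtain ⟨s, hs⟩ : ∃ s, (r : ℕ) - L.length = s + 2 := ⟨r - L.length - 2, by simp at h1 h2; omega⟩
      rw [hs]
      rfl
  rw [ad, e, Matrix.det_permute, Int.natAbs_mul, Int.cast_id, Int.units_natAbs, one_mul, ad]

lemma ad_perm {l1 l2 : List (ℕ → ℤ)} (h : l1.Perm l2) {n : ℕ} :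
    ∀ L : List (ℕ → ℤ), L.length + l1.length = n → ad n (L ++ l1) = ad n (L ++ l2) := by
  induction h with
  | nil => exact fun _ _ => rfl
  | cons x _ ih =>
    intro L hL
    have := ih (L ++ [x]) (by simp at hL ⊢; omega)
    rwa [← List.append_cons, ← List.append_cons] at this
  | swap x y l => exact fun L hL => ad_swap L _ _ l (by simp at hL; omega)
  | trans h1 _ i1 i2 => exact fun L hL => (i1 L hL).trans (i2 L (h1.length_eq ▸ hL))

lemma ad_row (n : ℕ) (a : ℕ) (c : ℤ) (t r : ℕ → ℤ) (R : List (ℕ → ℤ)) :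
    ad (n + 2) (t :: ((a : ℤ) • r + c • t) :: R) = a * ad (n + 2) (t :: r :: R) := by
  set A := mt (n + 2) (t :: r :: R) with hA
  have e : mt (n + 2) (t :: ((a : ℤ) • r + c • t) :: R) =
      A.updateRow (Fin.succ 0) ((a : ℤ) • A (Fin.succ 0) + c • A 0) := by
    ext i j
    refine Fin.cases ?_ (fun i => Fin.cases ?_ (fun i => ?_) i) i
    · rw [Matrix.updateRow_ne (Fin.succ_ne_zero _).symm]; rfl
    · rw [Matrix.updateRow_self]; rfl
    · rw [Matrix.updateRow_ne fun h => Fin.succ_ne_zero _ (Fin.succ_inj.1 h)]; rfl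
  rw [ad, e, Matrix.det_updateRow_add, Matrix.det_updateRow_smul, Matrix.det_updateRow_smul,
    Matrix.updateRow_eq_self, Matrix.det_updateRow_eq_zero (Fin.succ_ne_zero _).symm, mul_zero,
    add_zero, Int.natAbs_mul, Int.natAbs_natCast, ad]

lemma ad_neg (n : ℕ) (t : ℕ → ℤ) (R : List (ℕ → ℤ)) :
    ad (n + 1) (-t :: R) = ad (n + 1) (t :: R) := by
  set A := mt (n + 1) (t :: R) with hA
  have e : mt (n + 1) (-t :: R) = A.updateRow 0 ((-1 : ℤ) • A 0) := by
    ext i j
    refine Fin.cases ?_ (fun i => ?_) i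
    · rw [Matrix.updateRow_self, neg_one_smul]; rfl
    · rw [Matrix.updateRow_ne (Fin.succ_ne_zero _)]; rfl
  rw [ad, e, Matrix.det_updateRow_smul, Matrix.updateRow_eq_self, neg_one_mul, Int.natAbs_neg, ad]

lemma ad_lap (n a : ℕ) (t : ℕ → ℤ) (Q : List (ℕ → ℤ)) :
    ad (n + 1) (cz a t :: Q.map (cz 0)) = a * ad n Q := by
  have e : ∀ i, (Q.map (cz 0)).getD i 0 = cz 0 (Q.getD i 0) := fun i => by
    rw [← List.getD_map (f := cz 0)]
    congr 1
    ext j; cases j <;> rfl
  have e1 : (mt (n + 1) (cz a t :: Q.map (cz 0))).submatrix (Fin.succAbove 0) Fin.succ = mt n Q := by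
    ext i j
    exact congrFun (e i) (j + 1)
  have e2 : ∀ i : Fin n, mt (n + 1) (cz a t :: Q.map (cz 0)) i.succ 0 = 0 := fun i =>
    congrFun (e i) 0
  rw [ad, Matrix.det_succ_column_zero, Fin.sum_univ_succ, e1,
    Finset.sum_eq_zero fun i _ => by rw [e2, mul_zero, zero_mul]]
  simp [Int.natAbs_mul, ad, mt, cz]

/-- the state after one column -/
def Nx (n D F : ℕ) (Q : List Rw) (m : ℕ) : Prop :=
  Q.length = n ∧ (∀ r ∈ Q, ln r = n) ∧ 0 < m ∧ m * D = F * ad n (Q.map vl)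

lemma pass_ok {n a D F : ℕ} {tp tn : Rw} (hn : vl tn = -vl tp) (l1 : ln tp = n) (l2 : ln tn = n)
    (ha : 0 < a) (nx : List Rw → ℕ → ℕ) : ∀ (M Q : List Rw) (m : ℕ), M.length + Q.length = n →
      (∀ r ∈ M, ln r = n + 1) → (∀ r ∈ Q, ln r = n) → 0 < m →
      m * D = F * ad (n + 1) (cz a (vl tp) :: (M.map vl ++ (Q.map vl).map (cz 0))) →
      ∃ Q' m', Nx n D (F * a) Q' m' ∧ pass a tp tn nx M Q m = nx Q' m'
  | [], Q, m, h1, _, h3, h4, h5 =>
    ⟨Q, m, ⟨by simpa using h1, h3, h4, by rw [h5, mul_assoc, ← ad_lap n a (vl tp)]; rfl⟩, rfl⟩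
  | .nil :: M, Q, m, _, h2, _, _, _ => absurd (h2 _ List.mem_cons_self) (by simp [ln])
  | .cons p q s :: M, Q, m, h1, h2, h3, h4, h5 => by
    have hs : ln s = n := by simpa [ln] using h2 _ List.mem_cons_self
    have key : ∀ (s' : Rw) (m' : ℕ), ln s' = n → 0 < m' → m' * D = F * ad (n + 1)
        (cz a (vl tp) :: cz 0 (vl s') :: (M.map vl ++ (Q.map vl).map (cz 0))) →
        ∃ Q' m'', Nx n D (F * a) Q' m'' ∧ pass a tp tn nx M (s' :: Q) m' = nx Q' m'' :=
      fun s' m' k1 k2 k3 => pass_ok hn l1 l2 ha nx M (s' :: Q) m' (by simp at h1 ⊢; omega)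
        (fun r hr => h2 r (List.mem_cons_of_mem _ hr)) (List.forall_mem_cons.2 ⟨k1, h3⟩) k2
        (k3.trans (congrArg _ (ad_perm List.perm_middle.symm [_] (by simp at h1 ⊢; omega))))
    have e : pass a tp tn nx (.cons p q s :: M) Q m = Nat.rec (Nat.rec (pass a tp tn nx M (s :: Q) m)
      (fun b _ => pass a tp tn nx M (cmb a (b + 1) s tp :: Q) (m * a)) (q - p))
      (fun b _ => pass a tp tn nx M (cmb a (b + 1) s tn :: Q) (m * a)) (p - q) := rfl
    obtain ⟨n, rfl⟩ : ∃ n', n = n' + 1 := ⟨n - 1, by simp at h1; omega⟩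
    have stp : ∀ (c : ℤ) (s' : Rw), vl s' = (a : ℤ) • vl s + c • vl tp → (p : ℤ) - q = -c →
        m * a * D = F * ad (n + 1 + 1)
          (cz a (vl tp) :: cz 0 (vl s') :: (M.map vl ++ (Q.map vl).map (cz 0))) :=
      fun c s' k1 k2 => by
        rw [mul_right_comm, h5, mul_assoc, mul_comm _ a, List.map_cons, List.cons_append,
          ← ad_row n a c, vl, cz_lin, k1, k2, mul_neg, mul_comm c, neg_add_cancel]
    rw [e]
    cases k1 : p - q with
    | succ b =>
      have := cmb_ok a (b + 1) s tn (hs.trans l2.symm)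
      exact key _ _ (this.1.trans hs) (Nat.mul_pos h4 ha)
        (stp (-(b + 1 : ℕ)) _ (by rw [this.2, hn, smul_neg, neg_smul]) (by omega))
    | zero =>
      cases k2 : q - p with
      | succ b =>
        have := cmb_ok a (b + 1) s tp (hs.trans l1.symm)
        exact key _ _ (this.1.trans hs) (Nat.mul_pos h4 ha) (stp (b + 1 : ℕ) _ this.2 (by omega))
      | zero =>
        refine key _ _ hs h4 (h5.trans ?_)
        rw [List.map_cons, List.cons_append, vl, show (p : ℤ) - q = 0 by omega]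

lemma find_ok {n D F m : ℕ} (hm : 0 < m) (nx : ℕ → List Rw → ℕ → ℕ) : ∀ (M Q : List Rw),
      M.length + Q.length = n + 1 → (∀ r ∈ M, ln r = n + 1) → (∀ r ∈ Q, ln r = n) →
      m * D = F * ad (n + 1) (M.map vl ++ (Q.map vl).map (cz 0)) → find nx m M Q < big →
      ∃ a Q' m', Nx n D (F * a) Q' m' ∧ find nx m M Q = nx a Q' m'
  | [], _, _, _, _, _, h => absurd h (lt_irrefl _)
  | .nil :: _, _, _, _, _, _, h => absurd h (lt_irrefl _)
  | .cons p q s :: M, Q, h1, h2, h3, h5, h6 => by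
    have hs : ln s = n := by simpa [ln] using h2 _ List.mem_cons_self
    have h7 := fun r hr => h2 r (List.mem_cons_of_mem _ hr)
    have e : find nx m (.cons p q s :: M) Q = Nat.rec (Nat.rec (find nx m M (s :: Q))
      (fun b _ => pass (b + 1) (ng s) s (nx (b + 1)) M Q m) (q - p))
      (fun b _ => pass (b + 1) s (ng s) (nx (b + 1)) M Q m) (p - q) := rfl
    rw [e] at h6 ⊢
    rw [List.map_cons, List.cons_append, vl] at h5
    cases k1 : p - q with
    | succ b =>
      exact ⟨b + 1, pass_ok (ng_ok s).2 hs ((ng_ok s).1.trans hs) b.succ_pos _ M Q m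
        (by simp at h1; omega) h7 h3 hm (by rw [h5, show (p : ℤ) - q = (b + 1 : ℕ) by omega])⟩
    | zero =>
      cases k2 : q - p with
      | succ b =>
        exact ⟨b + 1, pass_ok (by rw [(ng_ok s).2, neg_neg]) ((ng_ok s).1.trans hs) hs b.succ_pos _
          M Q m (by simp at h1; omega) h7 h3 hm (by
            rw [h5, ← ad_neg, cz_neg, (ng_ok s).2, show -((p : ℤ) - q) = (b + 1 : ℕ) by omega])⟩
      | zero =>
        rw [k1, k2] at h6
        refine find_ok hm nx M (s :: Q) (by simp at h1 ⊢; omega) h7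
          (List.forall_mem_cons.2 ⟨hs, h3⟩) (h5.trans ?_) h6
        rw [show (p : ℤ) - q = 0 by omega]
        exact congrArg _ (ad_perm List.perm_middle.symm [] (by simp at h1 ⊢; omega))

theorem det_ok (fin : ℕ → ℕ → ℕ) {D : ℕ} : ∀ (n : ℕ) (M : List Rw) (F m : ℕ), Nx n D F M m →
    det fin n M F m < big → ∃ m', 0 < m' ∧ det fin n M F m = fin (m' * D) m'
  | 0, M, F, m, h, _ => ⟨m, h.2.2.1, by rw [h.2.2.2]; simp [ad, det]⟩
  | n + 1, M, F, m, h, g => by
    obtain ⟨a, Q, m', h1, h2⟩ := find_ok (D := D) (F := F) h.2.2.1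
      (fun a Q m => det fin n Q (F * a) m) M [] h.1 h.2.1 (by simp) (by simpa using h.2.2.2) g
    have e : det fin (n + 1) M F m = det fin n Q (F * a) m' := h2
    rw [e] at g ⊢
    exact det_ok fin n Q _ _ h1 g

/-- differences of consecutive entries -/
def row : List ℕ → Rw
  | [] => .nil
  | x :: l => .cons (Nat.sub x (l.headD 0)) (Nat.sub (l.headD 0) x) (row l)

lemma row_ok : ∀ v : List ℕ, ln (row v) = v.length ∧
    ∀ j, vl (row v) j = (v.getD j 0 : ℕ) - (v.getD (j + 1) 0 : ℕ)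
  | [] => ⟨rfl, fun _ => rfl⟩
  | x :: l => ⟨congrArg (· + 1) (row_ok l).1, fun j => by
      obtain _ | j := j
      · have e : l.headD 0 = l.getD 0 0 := by cases l <;> rfl
        simp only [row, vl, cz, Nat.sub_eq, List.getD_cons_zero, List.getD_cons_succ, e]
        omega
      · exact (row_ok l).2 j⟩

lemma ad_rows {k : ℕ} {A : List (List ℕ)} (h : ∀ v ∈ A, v.length = k) :
    ad k ((A.map row).map vl) =
      (Matrix.of fun i j : Fin k => (((A.getD i []).getD j 0 : ℕ) : ℤ)).det.natAbs := by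
  let S : Matrix (Fin k) (Fin k) ℤ := Matrix.of fun l j =>
    (if l = j then 1 else 0) - if (l : ℕ) = j + 1 then 1 else 0
  have hS : S.det = 1 := by
    rw [Matrix.det_of_isLowerTriangular S fun l j hj => ?_]
    · simp [S]
    · have : l < j := hj
      have h1 : (l : ℕ) ≠ j + 1 := by omega
      simp [S, this.ne, h1]
  rw [ad, ← mul_one (Matrix.det (Matrix.of _)), ← hS, ← Matrix.det_mul]
  congr 2
  ext i j
  have e : ((A.map row).map vl).getD i 0 = vl (row (A.getD i [])) := by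
    rw [List.map_map]; exact List.getD_map (f := vl ∘ row) A []
  have hl : (A.getD i []).length ≤ k := by
    rcases lt_or_ge (i : ℕ) A.length with h1 | h1
    · rw [List.getD_eq_getElem _ _ h1]; exact (h _ (List.getElem_mem h1)).le
    · rw [List.getD_eq_default _ _ h1]; exact k.zero_le
  simp only [mt, Matrix.of_apply, e, (row_ok _).2, Matrix.mul_apply, S, mul_sub,
    Finset.sum_sub_distrib, mul_ite, mul_one, mul_zero, Finset.sum_ite_eq', Finset.mem_univ, if_true]
  congr 1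
  rcases lt_or_ge ((j : ℕ) + 1) k with h1 | h1
  · rw [Finset.sum_eq_single ⟨j + 1, h1⟩ (fun b _ hb => if_neg fun g => hb (Fin.ext g)) (by simp)]
    simp
  · rw [List.getD_eq_default _ _ (hl.trans h1), Finset.sum_eq_zero fun b _ => if_neg (by omega)]
    rfl

end Pool.Agent.Lib.AP.X
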