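import Pool.Agent.Lib.AP.X2
import Pool.Agent.Lib.AP.Geo2b
import Pool.Agent.Lib.AP.Lane2

/-! The checker for trees of cuts. -/

noncomputable section

namespace Pool.Agent.Lib.AP.X

open Geo Mass Ev

def prodN : List ℕ → ℕ
  | [] => 1
  | x :: l => Nat.mul x (prodN l)

/-- upper bound for the density at a ray, in units `2 ^ (-40)` -/
def wt (k : ℕ) (v : List ℕ) : ℕ :=
  Nat.succ (Nat.div (Nat.mul 0x10000000000 (Nat.pow (sumN v) k)) (prodN v))

structure Py where
  r : Rw
  w : ℕ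
  s : ℕ

structure St where
  r : List Rw
  w : ℕ
  s : ℕ

def py (k : ℕ) (v : List ℕ) : Py := ⟨row v, wt k v, sumN v⟩

def nth (Y : List Py) : ℕ → Py :=
  List.rec (fun _ => ⟨.nil, 0, 0⟩) (fun y _ ih i => Nat.rec y (fun i _ => ih i) i) Y

def push (Y : List Py) (i : ℕ) (s : St) : St :=
  (fun y : Py => ⟨y.r :: s.r, Nat.add y.w s.w, Nat.mul y.s s.s⟩) (nth Y i)

/-- upper bound for the mass of a simplicial cone, in units `2 ^ (-60)` -/
def lf (k c : ℕ) (s : St) : ℕ :=
  det (fun F m => Nat.succ (Nat.div (Nat.mul 0x100000 (Nat.mul F s.w)) (Nat.mul m (Nat.mul c s.s))))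
    k s.r 1 1

def st (k : ℕ) (A : List (List ℕ)) : St := ⟨A.map row, sumN (A.map (wt k)), prodN (A.map sumN)⟩

def ok27 (k : ℕ) (v : List ℕ) : Bool :=
  Nat.beq v.length k && Nat.blt 0 (sumN v) && v.all fun a => Nat.ble (sumN v) (Nat.mul 27 a)

def sel : List Cs → ℕ → List Cs
  | [], _ => []
  | c :: H, m => bif Nat.beq (Nat.mod m 2) 1 then c :: sel H (Nat.div m 2) else sel H (Nat.div m 2)

/-- bound for the loss on a leaf -/
def lM (k a : ℕ) : ℕ := bif Nat.beq (Nat.mod a 4) 3 then Nat.pow 3 k else leafM a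

def leafU (k a : ℕ) (H : List Cs) (V : List (List ℕ)) : ℕ :=
  (fun u : ℕ =>
    bif V.all (ok27 k) && (Nat.beq (Nat.mod a 4) 3 || coneChk k V a) && H.all (fun c => zk c V) &&
      Nat.blt u big
    then Nat.mul (lM k a) u else big)
    (pull (push (V.map (py k))) (bif Nat.beq (lM k a) 0 then fun _ => 0 else lf k k.factorial) k
      (zm ([], []) V) (H.map fun c => zm c V) (st k []))

def vad (c : ℕ) (p : List ℕ) : List ℕ → List ℕ :=
  List.rec (fun q => q) (fun a _ ih q => List.rec (Nat.mul c a :: ih [])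
    (fun b q _ => Nat.add (Nat.mul c a) b :: ih q) q) p

def leL (p : List ℕ) : List ℕ → Bool :=
  List.rec (fun _ => true) (fun a _ ih q => List.rec (Bool.rec false (ih []) (Nat.ble a 0))
    (fun b q _ => Bool.rec false (ih q) (Nat.ble a b)) q) p

def fk (H : List Cs) : List ℕ → List ℕ → List ℕ → Bool :=
  List.rec (fun _ P Q => leL P Q) (fun c _ ih l P Q => List.rec (leL P Q)
    (fun a l _ => Nat.rec (ih l P Q) (fun _ _ => ih l (vad a c.2 P) (vad a c.1 Q)) a) l) H

/-- an inequality as a combination of the inequalities `H` -/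
def fq (H : List Cs) (l P Q : List ℕ) : Bool :=
  fk H l.tail (vad (Nat.succ (l.headD 0)) P []) (vad (Nat.succ (l.headD 0)) Q [])

def cf (a b c : ℕ) : ℕ → ℕ → List ℕ
  | 0, _ => []
  | k + 1, m => (bif Nat.beq (Nat.mod m 3) 1 then b else bif Nat.beq (Nat.mod m 3) 2 then c else a) ::
      cf a b c k (Nat.div m 3)

def cvk (k m : ℕ) (H : List Cs) (a b c : List ℕ) : Bool :=
  fq H a (cf 1 0 0 k m) (cf 0 2 2 k m) && fq H b (cf 0 0 2 k m) (cf 1 1 0 k m) &&
    fq H c (cf 0 16 13 k m) (cf 8 0 0 k m)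

inductive Tr : Type
  | cut (p q : List ℕ) (l r : Tr) : Tr
  | leaf (a m : ℕ) (V : List (List ℕ)) : Tr
  | cov (m : ℕ) (a b c : List ℕ) : Tr

def run (k : ℕ) : Tr → List Cs → ℕ
  | .cut p q l r, H => Nat.add (run k l ((p, q) :: H)) (run k r ((q, p) :: H))
  | .leaf a m V, H => leafU k a (sel H m) V
  | .cov m a b c, H => bif cvk k m H a b c then 0 else big

/-- the normalised loss on a cell is at most `u / 2 ^ 60` -/
def Cell (k : ℕ) (H : List Cs) (u : ℕ) : Prop :=
  Bw (fun x => x.length = k ∧ ∀ c ∈ H, 0 ≤ gl k c (pt k x)) (u / 2 ^ 60)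

lemma sumN_eq : ∀ l : List ℕ, sumN l = l.sum
  | [] => rfl
  | x :: l => by rw [List.sum_cons, ← sumN_eq l]; rfl

lemma prodN_eq : ∀ l : List ℕ, prodN l = l.prod
  | [] => rfl
  | x :: l => by rw [List.prod_cons, ← prodN_eq l]; rfl

lemma getD_mem {α : Type} {l : List α} {i : ℕ} (h : i < l.length) (a : α) : l.getD i a ∈ l := by
  rw [List.getD_eq_getElem _ _ h]; exact List.getElem_mem h

lemma nth_map (k : ℕ) : ∀ (V : List (List ℕ)) (i : ℕ), i < V.length →
    nth (V.map (py k)) i = py k (V.getD i [])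
  | [], _, h => by simp at h
  | _ :: _, 0, _ => rfl
  | _ :: V, i + 1, h => nth_map k V i (by simpa using h)

lemma sum_getD {α : Type} (F : α → ℝ) (d : α) {l : List α} {k : ℕ} (h : l.length = k) :
    ∑ i : Fin k, F (l.getD i d) = (l.map F).sum := by
  subst h
  rw [← Fin.sum_univ_fun_getElem]
  exact Finset.sum_congr rfl fun i _ => by simp

lemma prod_getD {α : Type} (F : α → ℝ) (d : α) {l : List α} {k : ℕ} (h : l.length = k) :
    ∏ i : Fin k, F (l.getD i d) = (l.map F).prod := by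
  subst h
  rw [← Fin.prod_univ_fun_getElem]
  exact Finset.prod_congr rfl fun i _ => by simp

lemma sum_vec {k : ℕ} {v : List ℕ} (h : v.length = k) : ∑ i, vec k v i = sumN v := by
  rw [sumN_eq, Nat.cast_list_sum]; exact sum_getD (fun a : ℕ => (a : ℝ)) 0 h

lemma prod_vec {k : ℕ} {v : List ℕ} (h : v.length = k) : ∏ i, vec k v i = prodN v := by
  rw [prodN_eq, Nat.cast_list_prod]; exact prod_getD (fun a : ℕ => (a : ℝ)) 0 h

lemma le_succ_div (a : ℕ) {b : ℕ} (hb : 0 < b) : (a : ℝ) / b ≤ (Nat.succ (Nat.div a b) : ℕ) := by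
  rw [div_le_iff₀ (by exact_mod_cast hb)]
  have : a ≤ Nat.succ (a / b) * b := by
    rw [mul_comm]; exact (Nat.lt_mul_div_succ a hb).le
  exact_mod_cast this

lemma ok27_spec {k : ℕ} {v : List ℕ} (h : ok27 k v = true) :
    v.length = k ∧ 0 < sumN v ∧ (∀ a ∈ v, sumN v ≤ 27 * a) ∧ 0 < prodN v := by
  simp only [ok27, Bool.and_eq_true, Nat.beq_eq, Nat.blt_eq, List.all_eq_true, Nat.ble_eq] at h
  refine ⟨h.1.1, h.1.2, h.2, ?_⟩
  rw [prodN_eq]
  refine List.prod_pos fun a ha => ?_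
  have h1 := h.2 a ha
  have h2 := h.1.2
  simp only [Nat.mul_eq] at h1
  omega

lemma lf_ok {j : ℕ} {A : List (List ℕ)} (hA : A.length = j + 1)
    (h : ∀ v ∈ A, ok27 (j + 1) v = true) (hb : lf (j + 1) (j + 1).factorial (st (j + 1) A) < big)
    {M : ℝ} (hM : 0 ≤ M) :
    Bw (fun x => x.length = j + 1 ∧ Cn (rays (j + 1) A) (pt (j + 1) x) ∧ lossI x ≤ M)
      (M * (lf (j + 1) (j + 1).factorial (st (j + 1) A) / 2 ^ 60)) := by
  have sp := fun v hv => ok27_spec (h v hv)
  have hm : ∀ a : Fin (j + 1), A.getD a [] ∈ A := fun a => getD_mem (a.2.trans_eq hA.symm) _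
  refine (bw_rays hA (fun w hw => ?_) (fun w hw i => ?_) hM fun x _ hx => hx).mono
    (fun _ _ hx => hx) (mul_le_mul_of_nonneg_left ?_ hM)
  · rw [sum_vec (sp w hw).1]; exact_mod_cast (sp w hw).2.1
  · rw [sum_vec (sp w hw).1, vec]
    exact_mod_cast (sp w hw).2.2.1 _ (getD_mem (i.2.trans_eq (sp w hw).1.symm) 0)
  obtain ⟨m, hm0, e1⟩ := det_ok _ (D := ad (j + 1) ((A.map row).map vl)) (j + 1) (A.map row) 1 1
    ⟨by simpa using hA, fun r hr => by
      obtain ⟨v, hv, rfl⟩ := List.mem_map.1 hr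
      exact (row_ok v).1.trans (sp v hv).1, one_pos, rfl⟩ hb
  have e2 : |(Matrix.of fun a : Fin (j + 1) => vec (j + 1) (A.getD a [])).det| =
      ad (j + 1) ((A.map row).map vl) := by
    rw [ad_rows fun v hv => (sp v hv).1, Nat.cast_natAbs, Int.cast_abs, Int.cast_det]
    rfl
  rw [show lf (j + 1) (j + 1).factorial (st (j + 1) A) = _ from e1, e2]
  generalize ad (j + 1) ((A.map row).map vl) = D
  have ps : 0 < prodN (A.map sumN) := by
    rw [prodN_eq]
    refine List.prod_pos fun a ha => ?_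
    obtain ⟨v, hv, rfl⟩ := List.mem_map.1 ha
    exact (sp v hv).2.1
  have e3 : ∏ b : Fin (j + 1), ∑ i, vec (j + 1) (A.getD b []) i = prodN (A.map sumN) := by
    rw [Finset.prod_congr rfl fun b _ => sum_vec (sp _ (hm b)).1, prodN_eq, Nat.cast_list_prod,
      List.map_map]
    exact prod_getD (fun v => (sumN v : ℝ)) [] hA
  have e4 : ∑ a : Fin (j + 1), (∑ i, vec (j + 1) (A.getD a []) i) ^ (j + 1) /
      ((prodN (A.map sumN) : ℝ) * ∏ i, vec (j + 1) (A.getD a []) i) ≤
      sumN (A.map (wt (j + 1))) / 2 ^ 40 / prodN (A.map sumN) := by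
    rw [sumN_eq (A.map _), Nat.cast_list_sum, List.map_map,
      ← sum_getD (Nat.cast ∘ wt (j + 1)) [] hA, Finset.sum_div, Finset.sum_div]
    refine Finset.sum_le_sum fun a _ => ?_
    rw [sum_vec (sp _ (hm a)).1, prod_vec (sp _ (hm a)).1, mul_comm, ← div_div]
    refine div_le_div_of_nonneg_right ?_ (Nat.cast_nonneg _)
    rw [le_div_iff₀ (by positivity)]
    refine le_trans (le_of_eq ?_) (le_succ_div _ (sp _ (hm a)).2.2.2)
    simp only [Nat.mul_eq, Nat.pow_eq]
    push_cast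
    ring
  rw [e3, le_div_iff₀ (by positivity)]
  refine le_trans ?_ (le_succ_div _ (Nat.mul_pos hm0 (Nat.mul_pos (Nat.factorial_pos _) ps)))
  refine (mul_le_mul_of_nonneg_right (mul_le_mul_of_nonneg_left e4 (by positivity))
    (by positivity)).trans (le_of_eq ?_)
  simp only [Nat.mul_eq, st]
  push_cast
  field_simp
  ring

lemma sel_sub : ∀ (H : List Cs) (m : ℕ), ∀ c ∈ sel H m, c ∈ H
  | [], _, _, h => h
  | e :: H, m, c, h => by
    unfold sel at h
    rw [Bool.cond_eq_ite] at h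
    split_ifs at h
    · exact List.mem_cons.2 ((List.mem_cons.1 h).imp_right (sel_sub H _ c))
    · exact List.mem_cons_of_mem _ (sel_sub H _ c h)

theorem leaf_ok {j a : ℕ} {H : List Cs} {V : List (List ℕ)} (h : leafU (j + 1) a H V < big) :
    Cell (j + 1) H (leafU (j + 1) a H V) := by
  simp only [leafU, Bool.cond_eq_ite (_ && _)] at h ⊢
  split_ifs at h ⊢ with hc
  swap
  · exact absurd h (lt_irrefl _)
  simp only [Bool.and_eq_true, Nat.blt_eq, List.all_eq_true] at hc
  obtain ⟨⟨⟨h1, h2⟩, h5⟩, h3⟩ := hc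
  set M := lM (j + 1) a with hM
  let R : ((Fin (j + 1) → ℝ) → Prop) → ℕ → Prop := fun P u =>
    (∀ y, P y → Cn (rays (j + 1) V) y) ∧
      Bw (fun x => x.length = j + 1 ∧ P (pt (j + 1) x) ∧ lossI x ≤ M) (M * (u / 2 ^ 60))
  have hR : Rule R := ⟨fun a b => ⟨fun y hy => a.1 y (b y hy),
      a.2.mono (fun x _ hx => ⟨hx.1, b _ hx.2.1, hx.2.2⟩) le_rfl⟩,
    fun a b => ⟨fun y hy => hy.elim (a.1 y) (b.1 y), (a.2.cover b.2 fun x _ hx =>
      hx.2.1.imp (fun c => ⟨hx.1, c, hx.2.2⟩) fun c => ⟨hx.1, c, hx.2.2⟩).mono (fun _ _ hx => hx)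
        (le_of_eq (by push_cast; ring))⟩,
    ⟨fun _ hy => hy.elim, (Bw.zero fun _ _ hx => hx.2.1.elim).mono (fun _ _ hx => hx) (by simp)⟩⟩
  have ex : ∀ e ∈ H.map fun c => zm c V, ∃ c ∈ H, zm c V = e := fun e he => List.mem_map.1 he
  choose! f f1 f2 using ex
  have k := pull_ok hR (st := st (j + 1)) (push := push (V.map (py (j + 1))))
    (fun i hi A => by rw [push, nth_map _ _ _ hi]; rfl) (fun A a1 a2 a3 => ⟨fun y hy =>
      hy.mono fun _ hz => hz.imp fun w hw => And.intro (a2 w hw.1) hw.2, ?_⟩) (j + 1) _ _ [] ⊤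
    (fun e => gl (j + 1) (f e)) (by simp) (by simp) (by simp)
    (fun i hi => ⟨((zm_bit _ V i).1 hi).1, trivial⟩) (fun e he i hi => ?_) h3
  · refine k.2.mono (fun x D hx => ?_) (le_of_eq (by simp only [Nat.mul_eq]; push_cast; ring))
    have hp : ∃ y z, y ∈ (⊤ : Submodule ℝ (Fin (j + 1) → ℝ)) ∧
        (∀ e ∈ H.map fun c => zm c V, 0 ≤ gl (j + 1) (f e) y) ∧ Cn (rays (j + 1) []) z ∧
        pt (j + 1) x = y + z :=
      ⟨_, 0, trivial, fun e he => hx.2 _ (f1 e he), .zero, (add_zero _).symm⟩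
    refine ⟨hx.1, hp, ?_⟩
    rw [hM, lM]
    cases h4 : Nat.beq (Nat.mod a 4) 3
    · rw [h4, Bool.false_or] at h2
      exact cn_leaf h2 D hx.1 (k.1 _ hp)
    · have := loss_crude x
      rw [hx.1] at this
      simpa using this
  · cases h4 : Nat.beq M 0
    · rw [h4] at a3
      exact lf_ok a1 (fun v hv => h1 v (a2 v hv)) a3 (Nat.cast_nonneg _)
    · rw [Nat.eq_of_beq_eq_true h4]
      exact (Bw.zero fun x _ hx => by simpa using hx.2.2).mono (fun _ _ hx => hx) (by simp)
  · have hi' := ((zm_bit _ V i).1 hi).1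
    have hv := getD_mem hi' []
    have h6 := zm_bit (f e) V i
    rw [f2 e he] at h6
    rw [gl_vec _ (ok27_spec (h1 _ hv)).1, sub_pos, Nat.cast_lt]
    refine ⟨fun g => by rw [(h6.1 g).2, sub_self], fun g => lt_of_le_of_ne
      (zk_ok _ V (h5 _ (f1 e he)) _ hv) fun g' => ?_⟩
    rw [h6.2 ⟨hi', g'⟩] at g
    cases g

lemma vad_getD (c : ℕ) : ∀ (p q : List ℕ) (i : ℕ),
    (vad c p q).getD i 0 = c * p.getD i 0 + q.getD i 0
  | [], q, i => by simp [vad]
  | _ :: _, [], 0 => rfl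
  | _ :: p, [], i + 1 => vad_getD c p [] i
  | _ :: _, _ :: _, 0 => rfl
  | _ :: p, _ :: q, i + 1 => vad_getD c p q i

lemma fm_vad (k c : ℕ) (p q : List ℕ) (y : Fin k → ℝ) :
    fm k (vad c p q) y = c * fm k p y + fm k q y := by
  simp only [fm_apply, vad_getD, Finset.mul_sum, ← Finset.sum_add_distrib]
  exact Finset.sum_congr rfl fun i _ => by push_cast; ring

lemma leL_ok : ∀ (p q : List ℕ), leL p q = true → ∀ i, p.getD i 0 ≤ q.getD i 0
  | [], _, _, _ => Nat.zero_le _
  | a :: p, q, h, i => by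
    have e : leL (a :: p) q = Bool.rec false (leL p q.tail) (Nat.ble a (q.getD 0 0)) := by
      cases q <;> rfl
    rw [e] at h
    cases h1 : Nat.ble a (q.getD 0 0) <;> rw [h1] at h
    · cases h
    obtain _ | i := i
    · exact Nat.le_of_ble_eq_true h1
    · have := leL_ok p _ h i
      cases q <;> exact this

lemma fk_ok {k : ℕ} {y : Fin k → ℝ} (hy : ∀ i, 0 ≤ y i) : ∀ (H : List Cs) (l P Q : List ℕ),
    (∀ c ∈ H, 0 ≤ gl k c y) → fk H l P Q = true → fm k P y ≤ fm k Q y := by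
  have e : ∀ P Q, leL P Q = true → fm k P y ≤ fm k Q y := fun P Q h => by
    rw [fm_apply, fm_apply]
    exact Finset.sum_le_sum fun i _ =>
      mul_le_mul_of_nonneg_right (Nat.cast_le.2 (leL_ok P Q h i)) (hy i)
  intro H
  induction H with
  | nil => exact fun _ P Q _ => e P Q
  | cons c H ih =>
    rintro (_ | ⟨_ | a, l⟩) P Q h g
    · exact e P Q g
    · exact ih l P Q (fun c hc => h c (List.mem_cons_of_mem _ hc)) g
    · have h1 := ih l _ _ (fun c hc => h c (List.mem_cons_of_mem _ hc)) g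
      have h2 := mul_nonneg (a + 1).cast_nonneg (h c List.mem_cons_self)
      rw [fm_vad, fm_vad] at h1
      rw [gl, LinearMap.sub_apply] at h2
      linarith

lemma fq_ok {k : ℕ} {y : Fin k → ℝ} (hy : ∀ i, 0 ≤ y i) {H : List Cs} {l P Q : List ℕ}
    (h : ∀ c ∈ H, 0 ≤ gl k c y) (g : fq H l P Q = true) : fm k P y ≤ fm k Q y := by
  have := fk_ok hy H _ _ _ h g
  rw [fm_vad, fm_vad, add_le_add_iff_right] at this
  exact le_of_mul_le_mul_left this (Nat.cast_pos.2 (Nat.succ_pos _))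

lemma cf_ok : ∀ (x : List ℝ) (m : ℕ), ∃ u v w : List ℝ, x.Perm (u ++ v ++ w) ∧ ∀ a b c,
    fm x.length (cf a b c x.length m) (pt x.length x) = a * u.sum + b * v.sum + c * w.sum
  | [], _ => ⟨[], [], [], by simp, fun _ _ _ => by simp [fm_apply]⟩
  | y :: x, m => by
    obtain ⟨u, v, w, h1, h2⟩ := cf_ok x (Nat.div m 3)
    have e : ∀ (a : ℕ) p, fm (y :: x).length (a :: p) (pt (y :: x).length (y :: x)) =
        a * y + fm x.length p (pt x.length x) := fun a p => by
      simp [fm_apply, Fin.sum_univ_succ, pt]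
    simp only [List.length_cons, cf] at e ⊢
    simp only [e, h2]
    cases Nat.beq (Nat.mod m 3) 1
    · cases Nat.beq (Nat.mod m 3) 2
      · exact ⟨y :: u, v, w, h1.cons y, fun a b c => by simp; ring⟩
      · exact ⟨u, v, y :: w, (h1.cons y).trans List.perm_middle.symm, fun a b c => by simp; ring⟩
    · exact ⟨u, y :: v, w, (h1.cons y).trans (List.perm_middle.symm.append_right w),
        fun a b c => by simp; ring⟩

theorem cov_ok {k m : ℕ} {H : List Cs} {a b c : List ℕ} (h : cvk k m H a b c = true) :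
    Cell k H 0 := by
  refine (Bw.zero fun x D hx => ?_).mono (fun _ _ hx => hx) (by simp)
  obtain ⟨rfl, hx⟩ := hx
  have hy : ∀ i, 0 ≤ pt x.length x i := fun i => by
    linarith [D.low _ (getD_mem i.2 0), show pt x.length x i = x.getD i 0 from rfl]
  simp only [cvk, Bool.and_eq_true] at h
  obtain ⟨u, v, w, h1, h2⟩ := cf_ok x m
  have h3 := fq_ok hy hx h.1.1
  have h4 := fq_ok hy hx h.1.2
  have h5 := fq_ok hy hx h.2
  have h6 := h1.sum_eq
  rw [D.tot, List.sum_append, List.sum_append] at h6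
  rw [h2, h2] at h3 h4 h5
  push_cast at h3 h4 h5
  exact (if_pos ⟨u, v, w, h1, by linarith, by linarith, by linarith⟩).le

theorem Cell.join {k u w : ℕ} {p q : List ℕ} {H : List Cs} (h1 : Cell k ((p, q) :: H) u)
    (h2 : Cell k ((q, p) :: H) w) : Cell k H (u + w) :=
  (Bw.cover h1 h2 fun x _ hx => (le_total (fm k p (pt k x)) (fm k q (pt k x))).imp
    (fun c => ⟨hx.1, List.forall_mem_cons.2 ⟨sub_nonneg.2 c, hx.2⟩⟩)
    fun c => ⟨hx.1, List.forall_mem_cons.2 ⟨sub_nonneg.2 c, hx.2⟩⟩).mono (fun _ _ hx => hx)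
      (le_of_eq (by push_cast; ring))

theorem run_ok (j : ℕ) : ∀ (t : Tr) (H : List Cs), run (j + 1) t H < big →
    Cell (j + 1) H (run (j + 1) t H)
  | .cut p q l r, H, h => by
    have h' : run (j + 1) l ((p, q) :: H) + run (j + 1) r ((q, p) :: H) < big := h
    exact (run_ok j l _ (by omega)).join (run_ok j r _ (by omega))
  | .leaf a m V, H, h =>
    Bw.mono (leaf_ok h) (fun _ _ hx => ⟨hx.1, fun c hc => hx.2 c (sel_sub H m c hc)⟩) le_rfl
  | .cov m a b c, H, h => by
    unfold run at h ⊢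
    cases g : cvk (j + 1) m H a b c <;> rw [g] at h
    · exact absurd h (lt_irrefl _)
    · exact cov_ok g

def chk (k : ℕ) (t : Tr) (H : List Cs) (u : ℕ) : Bool := Nat.ble (run k t H) u && Nat.blt u big

theorem chk_ok {j u : ℕ} {t : Tr} {H : List Cs} (h : chk (j + 1) t H u = true) :
    Cell (j + 1) H u := by
  simp only [chk, Bool.and_eq_true, Nat.ble_eq, Nat.blt_eq] at h
  exact Bw.mono (run_ok j t H (h.1.trans_lt h.2)) (fun _ _ hx => hx)
    (div_le_div_of_nonneg_right (Nat.cast_le.2 h.1) (by positivity))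

/-- `c` at position `i` -/
def un (k i c : ℕ) : List ℕ := List.replicate i 0 ++ c :: List.replicate (k - i - 1) 0

/-- the order simplex -/
def root (k : ℕ) : List Cs :=
  (List.replicate k 1, un k 0 27) :: (List.range (k - 1)).map fun i => (un k i 1, un k (i + 1) 1)

lemma fm_un {k i : ℕ} (hi : i < k) (c : ℕ) (y : Fin k → ℝ) : fm k (un k i c) y = c * y ⟨i, hi⟩ := by
  rw [fm_apply, Finset.sum_eq_single ⟨i, hi⟩ (fun b _ hb => ?_) (by simp)]
  · simp [un]
  · have : (b : ℕ) ≠ i := fun h => hb (Fin.ext h)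
    have e : (un k i c).getD b 0 = 0 := by
      unfold un
      rcases lt_or_gt_of_ne this with h | h
      · rw [List.getD_append _ _ _ _ (by simpa using h)]
        simp [h]
      · rw [List.getD_append_right _ _ _ _ (by simpa using h.le), List.length_replicate]
        obtain ⟨r, hr⟩ : ∃ r, (b : ℕ) - i = r + 1 := ⟨b - i - 1, by omega⟩
        rw [hr, List.getD_cons_succ, List.getD_eq_getElem?_getD, List.getElem?_replicate]
        split_ifs <;> rfl
    rw [e, Nat.cast_zero, zero_mul]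

theorem Cell.root {k u : ℕ} (hk : 0 < k) (h : Cell k (root k) u) :
    Bw (fun x => x.length = k) (u / 2 ^ 60) := by
  refine Bw.mono h (fun x D hx => ⟨hx, fun c hc => ?_⟩) le_rfl
  subst hx
  rcases List.mem_cons.1 hc with rfl | hc
  · have e : fm x.length (List.replicate x.length 1) (pt x.length x) = 270 := by
      rw [fm_apply, ← D.tot, ← sum_pt rfl]
      exact Finset.sum_congr rfl fun i _ => by simp
    have := D.low _ (getD_mem hk 0)
    simp only [gl, LinearMap.sub_apply, e, fm_un hk, pt]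
    push_cast
    linarith
  · obtain ⟨i, hi, rfl⟩ := List.mem_map.1 hc
    rw [List.mem_range] at hi
    have h1 : i < x.length := by omega
    have h2 : i + 1 < x.length := by omega
    have := List.pairwise_iff_getElem.1 D.asc i (i + 1) h1 h2 (by omega)
    simp only [gl, LinearMap.sub_apply, fm_un h1, fm_un h2, pt, List.getD_eq_getElem _ _ h1,
      List.getD_eq_getElem _ _ h2]
    push_cast
    linarith

end Pool.Agent.Lib.AP.X
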